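import Mathlib

set_option autoImplicit false

/-!
# The combinatorial core of the energy argument

`EData` collects the arithmetic input (local distances at the places above `v`, a height,
the action of a finite Galois group).  `EData.main` is the resulting lower bound for the
canonical height.
-/

namespace Pool.DynLehmer

open Filter Topology Finset
open scoped Classical

/-- the orbit of a point under a finite group, as a finite set. -/
noncomputable def orb (G : Type) {P : Type} [Group G] [Fintype G] [MulAction G P] (x : P) :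
    Finset P :=
  Finset.univ.image fun g : G => g • x

section orb

variable {G P : Type} [Group G] [Fintype G] [MulAction G P]

theorem mem_orb {x y : P} : y ∈ orb G x ↔ ∃ g : G, g • x = y := by
  simp [orb]

theorem self_mem_orb (x : P) : x ∈ orb G x := mem_orb.2 ⟨1, one_smul _ _⟩

theorem smul_mem_orb (g : G) (x : P) : g • x ∈ orb G x := mem_orb.2 ⟨g, rfl⟩

theorem orb_smul (g : G) (x : P) : orb G (g • x) = orb G x := by
  ext y
  simp only [mem_orb]
  constructor
  · rintro ⟨k, rfl⟩; exact ⟨k * g, by rw [mul_smul]⟩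
  · rintro ⟨k, rfl⟩; exact ⟨k * g⁻¹, by rw [mul_smul, inv_smul_smul]⟩

theorem orb_eq_of_mem {x y : P} (h : y ∈ orb G x) : orb G y = orb G x := by
  obtain ⟨g, rfl⟩ := mem_orb.1 h
  exact orb_smul g x

theorem card_orb_pos (x : P) : 0 < (orb G x).card := Finset.card_pos.2 ⟨x, self_mem_orb x⟩

end orb

/-- The abstract data of the energy argument. -/
structure EData (q m : ℕ) (C Λ : ℝ) (P G ι : Type) [Group G] [Fintype G] [MulAction G P]
    [Fintype ι] where
  f : P → P
  comm : ∀ (g : G) (z : P), f (g • z) = g • f z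
  lam : ι → ℝ
  lam_nonneg : ∀ w, 0 ≤ lam w
  sum_lam : ∑ w, lam w = Λ
  E : ι → P → P → ℝ
  E_self : ∀ w z, E w z z = 0
  E_nonneg : ∀ w z z', 0 ≤ E w z z'
  E_f : ∀ w z z', f z ≠ f z' → min (q * E w z z') (E w z z' + 1) ≤ E w (f z) (f z')
  E_near : ∀ w z z', (f z = f z' ∨ 0 < E w (f z) (f z')) → z = z' ∨ 0 < E w z z'
  frob : ∀ w x k, m ∣ k → (∀ y ∈ orb G x, y ≠ f^[k] x) → 1 ≤ ∑ y ∈ orb G x, E w y (f^[k] x)
  disc : ∀ w x y, y ∈ orb G x → y ≠ x → 0 < E w y x →
    1 ≤ (((orb G x).filter fun y' => y' = x ∨ 0 < E w y' x).card : ℝ) * E w y x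
  h : P → ℝ
  h_nonneg : ∀ z, 0 ≤ h z
  h_smul : ∀ (g : G) z, h (g • z) = h z
  h_f : ∀ z, |h (f z) - q * h z| ≤ C
  liou : ∀ z z', z ≠ z' → ∑ w, lam w * E w z z' ≤ h z + h z' + Real.log 2
  energy : ∀ (J : ℕ) (Z : Finset P), Z.card = q ^ J →
    ∑ w, lam w * ∑ z ∈ Z, ∑ z' ∈ Z, E w z z' ≤
      2 * (∑ z ∈ Z, ∑ i ∈ range J, ((q : ℝ) - 1) * h (f^[i] z) + Real.log ((q ^ J).factorial))

namespace EData

variable {q m : ℕ} {C Λ : ℝ} {P G ι : Type} [Group G] [Fintype G] [MulAction G P] [Fintype ι]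
variable (S : EData q m C Λ P G ι)

theorem C_nonneg (S : EData q m C Λ P G ι) (z : P) : 0 ≤ C :=
  (abs_nonneg _).trans (S.h_f z)

theorem comm_iter (k : ℕ) (g : G) (z : P) : S.f^[k] (g • z) = g • S.f^[k] z := by
  induction k with
  | zero => rfl
  | succ k ih => rw [Function.iterate_succ_apply', ih, S.comm, Function.iterate_succ_apply']

theorem orb_iter (k : ℕ) (x : P) : orb G (S.f^[k] x) = (orb G x).image (S.f^[k]) := by
  ext y
  simp only [mem_orb, Finset.mem_image]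
  constructor
  · rintro ⟨g, rfl⟩
    exact ⟨g • x, ⟨g, rfl⟩, S.comm_iter k g x⟩
  · rintro ⟨_, ⟨g, rfl⟩, rfl⟩
    exact ⟨g, (S.comm_iter k g x).symm⟩

/-! ### canonical height -/

theorem exists_hhat (hq : 2 ≤ q) (z : P) :
    ∃ l, Tendsto (fun n : ℕ => S.h (S.f^[n] z) / (q : ℝ) ^ n) atTop (𝓝 l) ∧ |S.h z - l| ≤ C := by
  have hC := S.C_nonneg z
  have hq0 : (0 : ℝ) < q := by positivity
  have hq2 : (2 : ℝ) ≤ q := by exact_mod_cast hq
  have hd : ∀ n : ℕ, dist (S.h (S.f^[n] z) / (q : ℝ) ^ n) (S.h (S.f^[n+1] z) / (q : ℝ) ^ (n+1))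
      ≤ (C / 2) * (1 / 2) ^ n := by
    intro n
    rw [Real.dist_eq, abs_sub_comm]
    have h1 : S.h (S.f^[n+1] z) / (q : ℝ) ^ (n+1) - S.h (S.f^[n] z) / (q : ℝ) ^ n
        = (S.h (S.f (S.f^[n] z)) - q * S.h (S.f^[n] z)) / (q : ℝ) ^ (n+1) := by
      rw [Function.iterate_succ_apply', pow_succ]
      field_simp
    rw [h1, abs_div, abs_of_pos (pow_pos hq0 _)]
    rw [div_le_iff₀ (by positivity)]
    refine (S.h_f _).trans ?_
    have h2 : (2 : ℝ) ^ (n+1) ≤ (q : ℝ) ^ (n+1) := pow_le_pow_left₀ (by norm_num) hq2 _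
    have h3 : (C / 2) * (1 / 2) ^ n * (2 : ℝ) ^ (n+1) = C := by
      rw [pow_succ, div_pow, one_pow]; field_simp
    calc C = (C / 2) * (1 / 2) ^ n * (2 : ℝ) ^ (n+1) := h3.symm
      _ ≤ _ := by gcongr
  obtain ⟨l, hl⟩ := cauchySeq_tendsto_of_complete (cauchySeq_of_le_geometric (1/2) (C/2)
    (by norm_num) hd)
  refine ⟨l, hl, ?_⟩
  have := dist_le_of_le_geometric_of_tendsto₀ (1/2) (C/2) (by norm_num) hd hl
  rw [Real.dist_eq] at this
  simp only [Function.iterate_zero, id_eq, pow_zero, div_one] at this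
  refine this.trans (le_of_eq ?_)
  ring

/-- canonical height -/
noncomputable def hhat (hq : 2 ≤ q) (z : P) : ℝ := Classical.choose (S.exists_hhat hq z)

theorem tendsto_hhat (hq : 2 ≤ q) (z : P) :
    Tendsto (fun n : ℕ => S.h (S.f^[n] z) / (q : ℝ) ^ n) atTop (𝓝 (S.hhat hq z)) :=
  (Classical.choose_spec (S.exists_hhat hq z)).1

theorem abs_h_sub_hhat (hq : 2 ≤ q) (z : P) : |S.h z - S.hhat hq z| ≤ C :=
  (Classical.choose_spec (S.exists_hhat hq z)).2

theorem hhat_f (hq : 2 ≤ q) (z : P) : S.hhat hq (S.f z) = q * S.hhat hq z := by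
  have hq0 : (0 : ℝ) < q := by positivity
  have h1 := S.tendsto_hhat hq (S.f z)
  have h2 := ((tendsto_add_atTop_iff_nat 1).2 (S.tendsto_hhat hq z)).const_mul (q : ℝ)
  refine tendsto_nhds_unique h1 (h2.congr fun n => ?_)
  rw [Function.iterate_succ_apply, pow_succ]
  field_simp

theorem hhat_iter (hq : 2 ≤ q) (k : ℕ) (z : P) :
    S.hhat hq (S.f^[k] z) = (q : ℝ) ^ k * S.hhat hq z := by
  induction k with
  | zero => simp
  | succ k ih => rw [Function.iterate_succ_apply', S.hhat_f, ih, pow_succ]; ring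

theorem hhat_smul (hq : 2 ≤ q) (g : G) (z : P) : S.hhat hq (g • z) = S.hhat hq z := by
  refine tendsto_nhds_unique (S.tendsto_hhat hq (g • z)) ((S.tendsto_hhat hq z).congr fun n => ?_)
  rw [S.comm_iter, S.h_smul]

theorem hhat_nonneg (hq : 2 ≤ q) (z : P) : 0 ≤ S.hhat hq z :=
  ge_of_tendsto' (S.tendsto_hhat hq z) fun n => div_nonneg (S.h_nonneg _) (by positivity)

theorem hhat_orb (hq : 2 ≤ q) {x y : P} (hy : y ∈ orb G x) : S.hhat hq y = S.hhat hq x := by
  obtain ⟨g, rfl⟩ := mem_orb.1 hy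
  exact S.hhat_smul hq g x

theorem h_iter_le (hq : 2 ≤ q) (i : ℕ) (z : P) :
    S.h (S.f^[i] z) ≤ (q : ℝ) ^ i * S.hhat hq z + C := by
  have := abs_le.1 (S.abs_h_sub_hhat hq (S.f^[i] z))
  rw [S.hhat_iter] at this
  linarith [this.2]

/-! ### energy bound -/

theorem sum_geom (q : ℝ) (J : ℕ) : ∑ i ∈ range J, (q - 1) * q ^ i = q ^ J - 1 := by
  induction J with
  | zero => simp
  | succ J ih => rw [Finset.sum_range_succ, ih, pow_succ]; ring

theorem log_factorial_le (n : ℕ) : Real.log (n.factorial) ≤ n * Real.log n := by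
  rcases Nat.eq_zero_or_pos n with rfl | hn
  · simp
  have h1 : ((n.factorial : ℕ) : ℝ) ≤ ((n ^ n : ℕ) : ℝ) := by exact_mod_cast Nat.factorial_le_pow n
  have h2 := Real.log_le_log (by exact_mod_cast n.factorial_pos) h1
  rwa [Nat.cast_pow, Real.log_pow] at h2

/-- the energy inequality in terms of the canonical height. -/
theorem energy' (hq : 2 ≤ q) (J : ℕ) (Z : Finset P) (hZ : Z.card = q ^ J) (Hm : ℝ)
    (hHm : ∀ z ∈ Z, S.hhat hq z ≤ Hm) (hHm0 : 0 ≤ Hm) :
    ∑ w, S.lam w * ∑ z ∈ Z, ∑ z' ∈ Z, S.E w z z' ≤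
      2 * ((Z.card : ℝ) ^ 2 * Hm) +
        (2 + 4 * ((q : ℝ) - 1) * C) * ((Z.card : ℝ) * Real.log (Z.card : ℝ)) := by
  have hne : Z.Nonempty := by
    rw [← Finset.card_pos, hZ]; positivity
  obtain ⟨z0, _⟩ := hne
  have hC := S.C_nonneg z0
  have hq2 : (2 : ℝ) ≤ q := by exact_mod_cast hq
  have hq1 : (0 : ℝ) ≤ (q : ℝ) - 1 := by linarith
  refine (S.energy J Z hZ).trans ?_
  have hn : ((Z.card : ℕ) : ℝ) = (q : ℝ) ^ J := by rw [hZ]; push_cast; ring
  have hJ : (J : ℝ) ≤ 2 * Real.log (Z.card : ℝ) := by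
    rw [hn, Real.log_pow]
    have : (1 / 2 : ℝ) ≤ Real.log q := by
      have h1 : Real.log 2 ≤ Real.log q := Real.log_le_log (by norm_num) hq2
      linarith [Real.log_two_gt_d9]
    nlinarith [Nat.cast_nonneg (α := ℝ) J]
  have h1 : ∀ z ∈ Z, ∑ i ∈ range J, ((q : ℝ) - 1) * S.h (S.f^[i] z)
      ≤ (Z.card : ℝ) * Hm + ((q : ℝ) - 1) * C * J := by
    intro z hz
    calc ∑ i ∈ range J, ((q : ℝ) - 1) * S.h (S.f^[i] z)
        ≤ ∑ i ∈ range J, ((q : ℝ) - 1) * ((q : ℝ) ^ i * Hm + C) := by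
          refine Finset.sum_le_sum fun i _ => mul_le_mul_of_nonneg_left ?_ hq1
          refine (S.h_iter_le hq i z).trans ?_
          have := hHm z hz
          gcongr
      _ = (∑ i ∈ range J, ((q : ℝ) - 1) * (q : ℝ) ^ i) * Hm + ((q : ℝ) - 1) * C * J := by
          have e1 : ((q : ℝ) - 1) * C * J = ∑ i ∈ range J, ((q : ℝ) - 1) * C := by
            rw [Finset.sum_const, Finset.card_range, nsmul_eq_mul]; ring
          rw [Finset.sum_mul, e1, ← Finset.sum_add_distrib]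
          refine Finset.sum_congr rfl fun i _ => ?_
          ring
      _ ≤ (Z.card : ℝ) * Hm + ((q : ℝ) - 1) * C * J := by
          rw [sum_geom, hn]
          have : ((q : ℝ) ^ J - 1) * Hm ≤ (q : ℝ) ^ J * Hm := by
            apply mul_le_mul_of_nonneg_right _ hHm0
            linarith
          linarith
  have h2 : ∑ z ∈ Z, ∑ i ∈ range J, ((q : ℝ) - 1) * S.h (S.f^[i] z)
      ≤ (Z.card : ℝ) * ((Z.card : ℝ) * Hm + ((q : ℝ) - 1) * C * J) := by
    refine (Finset.sum_le_sum h1).trans (le_of_eq ?_)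
    rw [Finset.sum_const, nsmul_eq_mul]
  have h3 : Real.log ((q ^ J).factorial) ≤ (Z.card : ℝ) * Real.log (Z.card : ℝ) := by
    have := log_factorial_le (q ^ J)
    rw [← hZ] at this ⊢
    exact this
  have h4 : ((q : ℝ) - 1) * C * J ≤ ((q : ℝ) - 1) * C * (2 * Real.log (Z.card : ℝ)) :=
    mul_le_mul_of_nonneg_left hJ (by positivity)
  have h5 : (Z.card : ℝ) * (((q : ℝ) - 1) * C * J)
      ≤ (Z.card : ℝ) * (((q : ℝ) - 1) * C * (2 * Real.log (Z.card : ℝ))) :=
    mul_le_mul_of_nonneg_left h4 (by positivity)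
  nlinarith [h2, h3, h5]

/-! ### distinctness across levels -/

theorem levels_ne {x : P} (hx : Function.Injective fun n : ℕ => S.f^[n] x) {a b : ℕ} (hab : a ≠ b)
    (g g' : G) : S.f^[a] (g • x) ≠ S.f^[b] (g' • x) := by
  wlog hlt : a < b generalizing a b g g'
  · exact (this hab.symm g' g (lt_of_le_of_ne (not_lt.1 hlt) hab.symm)).symm
  intro h
  rw [S.comm_iter, S.comm_iter] at h
  set z := S.f^[a] x with hz
  set c := b - a with hc
  have hcpos : 0 < c := by omega
  have hb : S.f^[b] x = S.f^[c] z := by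
    rw [hz, ← Function.iterate_add_apply]; congr 1; omega
  rw [hb] at h
  set τ := g⁻¹ * g' with hτ
  have h1 : z = τ • S.f^[c] z := by
    rw [hτ, mul_smul, ← h, inv_smul_smul]
  have h2 : ∀ t : ℕ, z = τ ^ t • S.f^[c * t] z := by
    intro t
    induction t with
    | zero => simp
    | succ t ih =>
      have h3 : S.f^[c * t] z = τ • S.f^[c * (t + 1)] z := by
        conv_lhs => rw [h1]
        rw [S.comm_iter, ← Function.iterate_add_apply]
        congr 2
      rw [h3, ← mul_smul, ← pow_succ] at ih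
      exact ih
  have h3 := h2 (orderOf τ)
  rw [pow_orderOf_eq_one, one_smul, hz, ← Function.iterate_add_apply] at h3
  have h4 := hx h3
  have : 0 < c * orderOf τ := Nat.mul_pos hcpos (orderOf_pos τ)
  omega

/-! ### the window estimate -/

theorem exists_pow_between (hq : 2 ≤ q) (n : ℕ) (hn : 1 ≤ n) :
    ∃ J : ℕ, n ≤ q ^ J ∧ q ^ J ≤ q * n := by
  refine ⟨Nat.clog q n, Nat.le_pow_clog (by omega) n, ?_⟩
  rcases Nat.eq_or_lt_of_le hn with h | h
  · subst h; simp; omega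
  · have h1 := Nat.pow_pred_clog_lt_self (b := q) (by omega) (by omega : 1 < n)
    have h2 : 0 < Nat.clog q n := Nat.clog_pos (by omega) (by omega)
    obtain ⟨c, hc⟩ : ∃ c, Nat.clog q n = c + 1 := ⟨Nat.clog q n - 1, by omega⟩
    rw [hc] at h1 ⊢
    rw [pow_succ, mul_comm]
    exact Nat.mul_le_mul_left q (le_of_lt (by simpa using h1))

theorem contraction (hq : 2 ≤ q) (w : ι) (k : ℕ) (y z : P) (hne : S.f^[k] y ≠ S.f^[k] z) :
    min (S.E w y z) 1 * ((k : ℝ) + 1) ≤ S.E w (S.f^[k] y) (S.f^[k] z) := by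
  have hq2 : (2 : ℝ) ≤ q := by exact_mod_cast hq
  induction k with
  | zero => simp
  | succ k ih =>
    have hne' : S.f^[k] y ≠ S.f^[k] z := by
      intro h; apply hne
      rw [Function.iterate_succ_apply', Function.iterate_succ_apply', h]
    have h1 := ih hne'
    rw [Function.iterate_succ_apply', Function.iterate_succ_apply'] at hne ⊢
    refine le_trans ?_ (S.E_f w _ _ hne)
    have ht0 : 0 ≤ min (S.E w y z) 1 := le_min (S.E_nonneg _ _ _) zero_le_one
    have ht1 : min (S.E w y z) 1 ≤ 1 := min_le_right _ _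
    set t := min (S.E w y z) 1
    set a := S.E w (S.f^[k] y) (S.f^[k] z)
    have hk : (0 : ℝ) ≤ k := Nat.cast_nonneg k
    have ha : 0 ≤ a := le_trans (by positivity) h1
    push_cast
    refine le_min ?_ ?_
    · nlinarith [mul_nonneg ht0 hk]
    · nlinarith

theorem sum_min_one {α : Type} (s : Finset α) (a : α → ℝ) (ha : ∀ i ∈ s, 0 ≤ a i)
    (h : 1 ≤ ∑ i ∈ s, a i) : 1 ≤ ∑ i ∈ s, min (a i) 1 := by
  by_cases h1 : ∃ i ∈ s, 1 ≤ a i
  · obtain ⟨i, hi, h1⟩ := h1
    have h2 : min (a i) 1 ≤ ∑ i ∈ s, min (a i) 1 :=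
      Finset.single_le_sum (f := fun i => min (a i) 1)
        (fun j hj => le_min (ha j hj) zero_le_one) hi
    rwa [min_eq_right h1] at h2
  · push Not at h1
    rw [Finset.sum_congr rfl fun i hi => min_eq_left (h1 i hi).le]
    exact h

/-- levels -/
noncomputable def U (x : P) (l : ℕ) : Finset P := (orb G x).image (S.f^[m * l])

theorem injOn_of_le {x : P} {a b : ℕ} (hab : a ≤ b)
    (h : Set.InjOn (S.f^[b]) (orb G x : Set P)) : Set.InjOn (S.f^[a]) (orb G x : Set P) := by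
  intro y hy z hz hyz
  apply h hy hz
  obtain ⟨c, rfl⟩ := Nat.exists_eq_add_of_le hab
  rw [add_comm, Function.iterate_add_apply, Function.iterate_add_apply, hyz]

theorem card_U {x : P} {l B : ℕ} (hl : m * l ≤ B)
    (h : Set.InjOn (S.f^[B]) (orb G x : Set P)) : (S.U x l).card = (orb G x).card :=
  Finset.card_image_of_injOn (S.injOn_of_le hl h)

theorem disjoint_U (hm : 1 ≤ m) {x : P} (hx : Function.Injective fun n : ℕ => S.f^[n] x)
    {l l' : ℕ} (hl : l ≠ l') : Disjoint (S.U x l) (S.U x l') := by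
  rw [Finset.disjoint_left]
  intro z hz hz'
  obtain ⟨y, hy, rfl⟩ := Finset.mem_image.1 hz
  obtain ⟨y', hy', h⟩ := Finset.mem_image.1 hz'
  obtain ⟨g, rfl⟩ := mem_orb.1 hy
  obtain ⟨g', rfl⟩ := mem_orb.1 hy'
  refine S.levels_ne hx ?_ g' g h
  intro h2
  exact hl (Nat.eq_of_mul_eq_mul_left (by omega) h2).symm

theorem gain (hq : 2 ≤ q) (hm : 1 ≤ m) {x : P} (hx : Function.Injective fun n : ℕ => S.f^[n] x)
    {l l' B : ℕ} (hl : l < l') (hB : m * l ≤ B) (hinj : Set.InjOn (S.f^[B]) (orb G x : Set P))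
    (w : ι) (z' : P) (hz' : z' ∈ S.U x l') :
    (l : ℝ) + 1 ≤ ∑ z ∈ S.U x l, S.E w z z' := by
  obtain ⟨y', hy', rfl⟩ := Finset.mem_image.1 hz'
  obtain ⟨g', rfl⟩ := mem_orb.1 hy'
  have hU : ∑ z ∈ S.U x l, S.E w z (S.f^[m * l'] (g' • x))
      = ∑ y ∈ orb G x, S.E w (S.f^[m * l] y) (S.f^[m * l'] (g' • x)) := by
    unfold U
    rw [Finset.sum_image (S.injOn_of_le hB hinj)]
  rw [hU]
  set z0 := S.f^[m * (l' - l)] (g' • x) with hz0
  have hz1 : S.f^[m * l'] (g' • x) = S.f^[m * l] z0 := by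
    rw [hz0, ← Function.iterate_add_apply, ← mul_add]
    congr 2; omega
  have hne : ∀ y ∈ orb G x, S.f^[m * l] y ≠ S.f^[m * l] z0 := by
    intro y hy
    obtain ⟨g, rfl⟩ := mem_orb.1 hy
    rw [← hz1]
    refine S.levels_ne hx ?_ g g'
    intro h
    have := Nat.eq_of_mul_eq_mul_left (by omega) h
    omega
  have hfr : 1 ≤ ∑ y ∈ orb G x, S.E w y z0 := by
    have := S.frob w (g' • x) (m * (l' - l)) (dvd_mul_right _ _) (by
      intro y hy
      rw [orb_smul] at hy
      obtain ⟨g, rfl⟩ := mem_orb.1 hy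
      have := S.levels_ne hx (a := 0) (b := m * (l' - l)) (by
        have : 0 < m * (l' - l) := Nat.mul_pos (by omega) (by omega)
        omega) g g'
      simpa using this)
    rwa [orb_smul] at this
  have hmin := sum_min_one (orb G x) (fun y => S.E w y z0) (fun i _ => S.E_nonneg _ _ _) hfr
  calc (l : ℝ) + 1 ≤ ((m * l : ℕ) : ℝ) + 1 := by
        have : l ≤ m * l := Nat.le_mul_of_pos_left l (by omega)
        have : (l : ℝ) ≤ ((m * l : ℕ) : ℝ) := by exact_mod_cast this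
        linarith
    _ = 1 * (((m * l : ℕ) : ℝ) + 1) := by ring
    _ ≤ (∑ y ∈ orb G x, min (S.E w y z0) 1) * (((m * l : ℕ) : ℝ) + 1) := by gcongr
    _ = ∑ y ∈ orb G x, min (S.E w y z0) 1 * (((m * l : ℕ) : ℝ) + 1) := by rw [Finset.sum_mul]
    _ ≤ ∑ y ∈ orb G x, S.E w (S.f^[m * l] y) (S.f^[m * l'] (g' • x)) := by
        refine Finset.sum_le_sum fun y hy => ?_
        rw [hz1]
        exact S.contraction hq w (m * l) y z0 (hne y hy)

theorem sum_levels (L : ℕ) :
    ∑ l' ∈ range L, ∑ l ∈ range l', ((l : ℝ) + 1) = ((L : ℝ) ^ 3 - L) / 6 := by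
  have h1 : ∀ n : ℕ, ∑ l ∈ range n, ((l : ℝ) + 1) = (n : ℝ) * (n + 1) / 2 := by
    intro n
    induction n with
    | zero => simp
    | succ n ih => rw [Finset.sum_range_succ, ih]; push_cast; ring
  simp_rw [h1]
  induction L with
  | zero => simp
  | succ n ih => rw [Finset.sum_range_succ, ih]; push_cast; ring

theorem window_raw (hq : 2 ≤ q) (hm : 1 ≤ m) {x : P}
    (hx : Function.Injective fun n : ℕ => S.f^[n] x) (L0 : ℕ) (hL0 : 1 ≤ L0)
    (hinj : Set.InjOn (S.f^[m * (q * L0)]) (orb G x : Set P)) :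
    Λ * (((orb G x).card : ℝ) * (((L0 : ℝ) ^ 3 - L0) / 6)) ≤
      2 * (((q : ℝ) * L0 * (orb G x).card) ^ 2 * ((q : ℝ) ^ (m * (q * L0)) * S.hhat hq x)) +
        (2 + 4 * ((q : ℝ) - 1) * C) * (((q : ℝ) * L0 * (orb G x).card) *
          Real.log ((q : ℝ) * L0 * (orb G x).card)) := by
  set D := (orb G x).card with hD
  have hDpos : 0 < D := card_orb_pos x
  have hC := S.C_nonneg x
  have hq2 : (2 : ℝ) ≤ q := by exact_mod_cast hq
  -- the unions of levels
  set Un : ℕ → Finset P := fun t => (range t).biUnion (S.U x) with hUn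
  have hdisj : ∀ t : ℕ, Set.PairwiseDisjoint (↑(range t) : Set ℕ) (S.U x) := by
    intro t a _ b _ hab
    exact S.disjoint_U hm hx hab
  have hcard : ∀ t : ℕ, t ≤ q * L0 → (Un t).card = t * D := by
    intro t ht
    rw [hUn]
    simp only
    rw [Finset.card_biUnion (fun a ha b hb hab => S.disjoint_U hm hx hab)]
    rw [Finset.sum_congr rfl fun l hl => S.card_U (x := x) (l := l)
      (B := m * (q * L0)) (by
        have := Finset.mem_range.1 hl
        exact Nat.mul_le_mul_left m (by omega)) hinj]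
    rw [Finset.sum_const, Finset.card_range, smul_eq_mul]
  have hmono : Un L0 ⊆ Un (q * L0) := by
    rw [hUn]
    refine Finset.biUnion_subset_biUnion_of_subset_left _ ?_
    exact Finset.range_mono (Nat.le_mul_of_pos_left _ (by omega))
  obtain ⟨J, hJ1, hJ2⟩ := exists_pow_between hq (L0 * D) (Nat.mul_pos (by omega) hDpos)
  obtain ⟨Z, hZ1, hZ2, hZ3⟩ := Finset.exists_subsuperset_card_eq hmono (n := q ^ J)
    (by rw [hcard L0 (Nat.le_mul_of_pos_left _ (by omega))]; exact hJ1)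
    (by rw [hcard _ le_rfl]; rw [mul_assoc]; exact hJ2)
  -- upper bound
  have hHm : ∀ z ∈ Z, S.hhat hq z ≤ (q : ℝ) ^ (m * (q * L0)) * S.hhat hq x := by
    intro z hz
    have := hZ2 hz
    simp only [hUn, Finset.mem_biUnion, Finset.mem_range] at this
    obtain ⟨l, hl, hzl⟩ := this
    obtain ⟨y, hy, rfl⟩ := Finset.mem_image.1 hzl
    rw [S.hhat_iter, S.hhat_orb hq hy]
    have h0 := S.hhat_nonneg hq x
    have : (q : ℝ) ^ (m * l) ≤ (q : ℝ) ^ (m * (q * L0)) :=
      pow_le_pow_right₀ (by linarith) (Nat.mul_le_mul_left m hl.le)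
    gcongr
  have hup := S.energy' hq J Z hZ3 _ hHm
    (mul_nonneg (by positivity) (S.hhat_nonneg hq x))
  -- lower bound
  have hlow : ∀ w, (D : ℝ) * (((L0 : ℝ) ^ 3 - L0) / 6) ≤ ∑ z ∈ Z, ∑ z' ∈ Z, S.E w z z' := by
    intro w
    calc (D : ℝ) * (((L0 : ℝ) ^ 3 - L0) / 6)
        = ∑ l' ∈ range L0, (D : ℝ) * ∑ l ∈ range l', ((l : ℝ) + 1) := by
          rw [← Finset.mul_sum, sum_levels]
      _ = ∑ l' ∈ range L0, ∑ z' ∈ S.U x l', ∑ l ∈ range l', ((l : ℝ) + 1) := by
          refine Finset.sum_congr rfl fun l' hl' => ?_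
          rw [Finset.sum_const, nsmul_eq_mul, S.card_U (x := x) (l := l')
            (B := m * (q * L0)) (by
              have := Finset.mem_range.1 hl'
              refine Nat.mul_le_mul_left m ?_
              exact this.le.trans (Nat.le_mul_of_pos_left _ (by omega))) hinj]
      _ ≤ ∑ l' ∈ range L0, ∑ z' ∈ S.U x l', ∑ l ∈ range l', ∑ z ∈ S.U x l, S.E w z z' := by
          refine Finset.sum_le_sum fun l' hl' => Finset.sum_le_sum fun z' hz' =>
            Finset.sum_le_sum fun l hl => ?_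
          have h1 := Finset.mem_range.1 hl'
          have h2 := Finset.mem_range.1 hl
          refine S.gain hq hm hx h2 (B := m * (q * L0)) ?_ hinj w z' hz'
          refine Nat.mul_le_mul_left m ?_
          have : L0 ≤ q * L0 := Nat.le_mul_of_pos_left _ (by omega)
          omega
      _ ≤ ∑ l' ∈ range L0, ∑ z' ∈ S.U x l', ∑ l ∈ range L0, ∑ z ∈ S.U x l, S.E w z z' := by
          refine Finset.sum_le_sum fun l' hl' => Finset.sum_le_sum fun z' hz' => ?_
          refine Finset.sum_le_sum_of_subset_of_nonneg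
            (Finset.range_mono (Finset.mem_range.1 hl').le) fun l _ _ => ?_
          exact Finset.sum_nonneg fun _ _ => S.E_nonneg _ _ _
      _ = ∑ z' ∈ Un L0, ∑ z ∈ Un L0, S.E w z z' := by
          rw [hUn]
          simp only
          rw [Finset.sum_biUnion (hdisj L0)]
          refine Finset.sum_congr rfl fun l' _ => Finset.sum_congr rfl fun z' _ => ?_
          rw [Finset.sum_biUnion (hdisj L0)]
      _ ≤ ∑ z' ∈ Z, ∑ z ∈ Z, S.E w z z' := by
          refine (Finset.sum_le_sum_of_subset_of_nonneg hZ1 fun z' _ _ =>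
            Finset.sum_nonneg fun _ _ => S.E_nonneg _ _ _).trans ?_
          refine Finset.sum_le_sum fun z' _ => ?_
          exact Finset.sum_le_sum_of_subset_of_nonneg hZ1 fun z _ _ => S.E_nonneg _ _ _
      _ = _ := Finset.sum_comm
  have hlow' : Λ * ((D : ℝ) * (((L0 : ℝ) ^ 3 - L0) / 6)) ≤
      ∑ w, S.lam w * ∑ z ∈ Z, ∑ z' ∈ Z, S.E w z z' := by
    calc Λ * ((D : ℝ) * (((L0 : ℝ) ^ 3 - L0) / 6))
        = (∑ w, S.lam w) * ((D : ℝ) * (((L0 : ℝ) ^ 3 - L0) / 6)) := by rw [S.sum_lam]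
      _ = ∑ w, S.lam w * ((D : ℝ) * (((L0 : ℝ) ^ 3 - L0) / 6)) := by rw [Finset.sum_mul]
      _ ≤ _ := Finset.sum_le_sum fun w _ => mul_le_mul_of_nonneg_left (hlow w) (S.lam_nonneg w)
  refine hlow'.trans (hup.trans ?_)
  have hn : (Z.card : ℝ) ≤ (q : ℝ) * L0 * D := by
    rw [hZ3]
    calc ((q ^ J : ℕ) : ℝ) ≤ ((q * (L0 * D) : ℕ) : ℝ) := by exact_mod_cast hJ2
      _ = _ := by push_cast; ring
  have hn1 : (1 : ℝ) ≤ (Z.card : ℝ) := by
    rw [hZ3]
    exact_mod_cast Nat.one_le_pow _ _ (by omega)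
  have h0 := S.hhat_nonneg hq x
  have hcc : 0 ≤ 2 + 4 * ((q : ℝ) - 1) * C := by
    have : 0 ≤ ((q : ℝ) - 1) * C := mul_nonneg (by linarith) hC
    linarith
  have hlog : 0 ≤ Real.log (Z.card : ℝ) := Real.log_nonneg hn1
  gcongr


end EData

namespace EData

variable {q m : ℕ} {C Λ : ℝ} {P G ι : Type} [Group G] [Fintype G] [MulAction G P] [Fintype ι]

/-- the constant `B₁` of the window estimate -/
noncomputable def B1 (q : ℕ) (C Λ : ℝ) : ℝ :=
  1 + 2 * (2 + 4 * ((q : ℝ) - 1) * C) / (Λ / (6 * q)) +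
    2 * (2 * (Λ / (6 * q)) + (2 + 4 * ((q : ℝ) - 1) * C) * Real.log q +
      (2 + 4 * ((q : ℝ) - 1) * C)) / (Λ / (6 * q))

/-- the constant `B₂` of the window estimate -/
noncomputable def B2 (q m : ℕ) (C Λ : ℝ) : ℝ :=
  2 * m * q * Real.log q * (B1 q C Λ + 1) + |Real.log (2 * q / (Λ / (6 * q)))|

theorem B1_ge_one (hq : 2 ≤ q) (hC : 0 ≤ C) (hΛ : 0 < Λ) : 1 ≤ B1 q C Λ := by
  unfold B1
  have hq2 : (2 : ℝ) ≤ q := by exact_mod_cast hq
  have h1 : 0 ≤ 2 + 4 * ((q : ℝ) - 1) * C := by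
    have : 0 ≤ ((q : ℝ) - 1) * C := mul_nonneg (by linarith) hC
    linarith
  have h2 : 0 ≤ Real.log q := Real.log_nonneg (by linarith)
  have h3 : 0 < Λ / (6 * q) := by positivity
  have h4 : 0 ≤ 2 * (2 + 4 * ((q : ℝ) - 1) * C) / (Λ / (6 * q)) := by positivity
  have h5 : 0 ≤ 2 * (2 * (Λ / (6 * q)) + (2 + 4 * ((q : ℝ) - 1) * C) * Real.log q +
      (2 + 4 * ((q : ℝ) - 1) * C)) / (Λ / (6 * q)) := by positivity
  linarith

/-- The window lemma. -/
theorem window (S : EData q m C Λ P G ι) (hq : 2 ≤ q) (hm : 1 ≤ m) (hΛ : 0 < Λ) {x : P}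
    (hx : Function.Injective fun n : ℕ => S.f^[n] x)
    (hinj : Set.InjOn
      (S.f^[m * (q * ⌈B1 q C Λ * √(1 + Real.log (orb G x).card)⌉₊)]) (orb G x : Set P)) :
    Real.exp (-(B2 q m C Λ * √(1 + Real.log (orb G x).card))) ≤
      (orb G x).card * S.hhat hq x := by
  set D := (orb G x).card with hD
  have hDpos : 0 < D := card_orb_pos x
  have hC := S.C_nonneg x
  have hq2 : (2 : ℝ) ≤ q := by exact_mod_cast hq
  have hB1 := B1_ge_one hq hC hΛ
  have hD1 : (1 : ℝ) ≤ D := by exact_mod_cast hDpos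
  have hlogD : 0 ≤ Real.log D := Real.log_nonneg hD1
  set y := √(1 + Real.log D) with hy
  have hy2 : y ^ 2 = 1 + Real.log D := Real.sq_sqrt (by linarith)
  have hy1 : 1 ≤ y := by
    rw [hy]; exact Real.one_le_sqrt.2 (by linarith)
  set L0 := ⌈B1 q C Λ * y⌉₊ with hL0
  have hLge : B1 q C Λ * y ≤ L0 := Nat.le_ceil _
  have hLle : (L0 : ℝ) ≤ (B1 q C Λ + 1) * y := by
    have := (Nat.ceil_lt_add_one (a := B1 q C Λ * y) (by positivity)).le
    rw [← hL0] at this
    linarith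
  have hLy : 1 ≤ B1 q C Λ * y := one_le_mul_of_one_le_of_one_le hB1 hy1
  have hL1 : 1 ≤ L0 := by
    have : (1 : ℝ) ≤ L0 := hLy.trans hLge
    exact_mod_cast this
  have hL1' : (1 : ℝ) ≤ L0 := by exact_mod_cast hL1
  have hraw := S.window_raw hq hm hx L0 hL1 hinj
  rw [← hD] at hraw
  set C1 := 2 + 4 * ((q : ℝ) - 1) * C with hC1
  set a := Λ / (6 * q) with ha
  have hapos : 0 < a := by positivity
  have hC1pos : 0 ≤ C1 := by
    have : 0 ≤ ((q : ℝ) - 1) * C := mul_nonneg (by linarith) hC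
    rw [hC1]; linarith
  have hlogq : 0 ≤ Real.log q := Real.log_nonneg (by linarith)
  set T := (q : ℝ) * L0 * D with hT
  have hTpos : 0 < T := by positivity
  have hLHS : Λ * ((D : ℝ) * (((L0 : ℝ) ^ 3 - L0) / 6)) = T * (a * ((L0 : ℝ) ^ 2 - 1)) := by
    rw [hT, ha]; field_simp
  set X := (q : ℝ) ^ (m * (q * L0)) * S.hhat hq x with hX
  rw [hLHS] at hraw
  have h1 : a * ((L0 : ℝ) ^ 2 - 1) ≤ 2 * T * X + C1 * Real.log T := by
    have : T * (a * ((L0 : ℝ) ^ 2 - 1)) ≤ T * (2 * T * X + C1 * Real.log T) := by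
      refine hraw.trans (le_of_eq ?_); ring
    exact le_of_mul_le_mul_left this hTpos
  have hlogT : Real.log T ≤ Real.log q + L0 + Real.log D := by
    rw [hT, Real.log_mul (by positivity) (by positivity), Real.log_mul (by positivity)
      (by positivity)]
    have : Real.log L0 ≤ L0 := (Real.log_le_sub_one_of_pos (by positivity)).trans (by linarith)
    linarith
  -- the choice of B1
  have hB1a : a * B1 q C Λ = a + 2 * C1 + 2 * (2 * a + C1 * Real.log q + C1) := by
    unfold B1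
    rw [← hC1, ← ha]
    field_simp
  have hkey1 : C1 * L0 ≤ a / 2 * (L0 : ℝ) ^ 2 := by
    have h2 : 2 * C1 ≤ a * B1 q C Λ := by
      rw [hB1a]
      have : 0 ≤ C1 * Real.log q := by positivity
      linarith
    have h3 : a * B1 q C Λ ≤ a * L0 := by
      apply mul_le_mul_of_nonneg_left _ hapos.le
      exact (le_mul_of_one_le_right (by linarith) hy1).trans hLge
    have h4 := mul_le_mul_of_nonneg_right (h2.trans h3) (show (0 : ℝ) ≤ L0 by linarith)
    linarith
  have hkey2 : (2 * a + C1 * Real.log q + C1) * y ^ 2 ≤ a / 2 * (L0 : ℝ) ^ 2 := by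
    have h2 : 2 * (2 * a + C1 * Real.log q + C1) ≤ a * B1 q C Λ := by rw [hB1a]; linarith
    have h3 : (B1 q C Λ * y) ^ 2 ≤ (L0 : ℝ) ^ 2 := by
      apply pow_le_pow_left₀ (by positivity) hLge
    have h4 : a * B1 q C Λ * y ^ 2 ≤ a * (B1 q C Λ * y) ^ 2 := by
      rw [mul_pow]
      have : B1 q C Λ ≤ B1 q C Λ ^ 2 := le_self_pow₀ hB1 (by norm_num)
      have : B1 q C Λ * y ^ 2 ≤ B1 q C Λ ^ 2 * y ^ 2 := by gcongr
      have := mul_le_mul_of_nonneg_left this hapos.le
      linarith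
    have h5 := mul_le_mul_of_nonneg_right h2 (sq_nonneg y)
    have h6 := mul_le_mul_of_nonneg_left h3 hapos.le
    linarith
  have hmain : a ≤ 2 * T * X := by
    have h5 : C1 * Real.log T ≤ C1 * (Real.log q + L0 + Real.log D) :=
      mul_le_mul_of_nonneg_left hlogT hC1pos
    have h6 : 1 ≤ y ^ 2 := one_le_pow₀ hy1
    have h7 : C1 * Real.log q ≤ C1 * Real.log q * y ^ 2 := by
      have : 0 ≤ C1 * Real.log q := by positivity
      exact le_mul_of_one_le_right this h6
    have h8 : C1 * Real.log D ≤ C1 * y ^ 2 := by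
      apply mul_le_mul_of_nonneg_left _ hC1pos
      linarith
    have h9 : 2 * a ≤ 2 * a * y ^ 2 := le_mul_of_one_le_right (by positivity) h6
    linarith
  -- conclusion
  have hLq : (L0 : ℝ) ≤ (q : ℝ) ^ (m * (q * L0)) := by
    have h10 : L0 < q ^ L0 := Nat.lt_pow_self (by omega)
    have h11 : q ^ L0 ≤ q ^ (m * (q * L0)) := by
      apply Nat.pow_le_pow_right (by omega)
      have : L0 ≤ q * L0 := Nat.le_mul_of_pos_left _ (by omega)
      exact this.trans (Nat.le_mul_of_pos_left _ (by omega))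
    exact_mod_cast (h10.le.trans h11)
  set Q := (q : ℝ) ^ (m * (q * L0)) with hQ
  have hQpos : 0 < Q := by positivity
  have h0 := S.hhat_nonneg hq x
  have h12 : 2 * T * X ≤ 2 * q * Q ^ 2 * (D * S.hhat hq x) := by
    have : 2 * T * X = 2 * q * (L0 * Q) * (D * S.hhat hq x) := by
      rw [hT, hX]; ring
    rw [this]
    have : (L0 : ℝ) * Q ≤ Q ^ 2 := by
      have := mul_le_mul_of_nonneg_right hLq hQpos.le
      linarith
    have h13 : 0 ≤ (D : ℝ) * S.hhat hq x := by positivity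
    gcongr
  have h14 : a / (2 * q * Q ^ 2) ≤ D * S.hhat hq x := by
    rw [div_le_iff₀ (by positivity)]
    linarith
  refine le_trans ?_ h14
  have h15 : Q ^ 2 = Real.exp (2 * m * q * Real.log q * L0) := by
    rw [← Real.exp_log (show (0 : ℝ) < Q ^ 2 by positivity)]
    congr 1
    rw [Real.log_pow, hQ, Real.log_pow]
    push_cast; ring
  have h16 : a / (2 * q) = Real.exp (-Real.log (2 * q / a)) := by
    rw [Real.exp_neg, Real.exp_log (by positivity), inv_div]
  have h17 : a / (2 * q * Q ^ 2) = Real.exp (-Real.log (2 * q / a) - 2 * m * q * Real.log q * L0) := by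
    rw [Real.exp_sub, ← h15, ← h16]
    exact (div_div a (2 * q) (Q ^ 2)).symm
  rw [h17]
  apply Real.exp_le_exp.2
  unfold B2
  rw [← ha]
  have h18 : Real.log (2 * q / a) ≤ |Real.log (2 * q / a)| * y := by
    have := le_abs_self (Real.log (2 * q / a))
    exact this.trans (le_mul_of_one_le_right (abs_nonneg _) hy1)
  have h19 : 2 * m * q * Real.log q * L0 ≤ 2 * m * q * Real.log q * ((B1 q C Λ + 1) * y) := by
    apply mul_le_mul_of_nonneg_left hLle (by positivity)
  linarith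


end EData

namespace EData

variable {q m : ℕ} {C Λ : ℝ} {P G ι : Type} [Group G] [Fintype G] [MulAction G P] [Fintype ι]
variable (S : EData q m C Λ P G ι)

theorem near_iter (w : ι) (k : ℕ) (z z' : P)
    (h : S.f^[k] z = S.f^[k] z' ∨ 0 < S.E w (S.f^[k] z) (S.f^[k] z')) :
    z = z' ∨ 0 < S.E w z z' := by
  induction k with
  | zero => exact h
  | succ k ih =>
    apply ih
    rw [Function.iterate_succ_apply', Function.iterate_succ_apply'] at h
    exact S.E_near w _ _ h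

theorem grow_min (hq : 2 ≤ q) (w : ι) (k : ℕ) (z z' : P) (t : ℝ)
    (ht : t ≤ S.E w z z') (hne : S.f^[k] z ≠ S.f^[k] z') :
    min ((q : ℝ) ^ k * t) 1 ≤ S.E w (S.f^[k] z) (S.f^[k] z') := by
  have hq2 : (2 : ℝ) ≤ q := by exact_mod_cast hq
  induction k with
  | zero => simp [ht]
  | succ k ih =>
    have hne' : S.f^[k] z ≠ S.f^[k] z' := by
      intro h; apply hne
      rw [Function.iterate_succ_apply', Function.iterate_succ_apply', h]
    have h1 := ih hne'
    rw [Function.iterate_succ_apply', Function.iterate_succ_apply'] at hne ⊢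
    refine le_trans ?_ (S.E_f w _ _ hne)
    set a := S.E w (S.f^[k] z) (S.f^[k] z')
    have ha : 0 ≤ a := S.E_nonneg _ _ _
    refine le_min ?_ (by linarith [min_le_right ((q : ℝ) ^ (k+1) * t) 1])
    rcases min_le_iff.1 h1 with h2 | h2
    · refine (min_le_left _ _).trans ?_
      rw [pow_succ]
      nlinarith
    · refine (min_le_right _ _).trans ?_
      nlinarith

theorem B_mono {a b L : ℝ} (hL : 0 ≤ L) (ha : 0 ≤ a) (hab : a ≤ b) :
    a * Real.exp (a * L) ≤ b * Real.exp (b * L) := by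
  have : Real.exp (a * L) ≤ Real.exp (b * L) := Real.exp_le_exp.2 (by gcongr)
  have h0 := Real.exp_pos (a * L)
  nlinarith [Real.exp_pos (b * L)]

theorem grow_B (hq : 2 ≤ q) (w : ι) (k : ℕ) (z z' : P) (hne : S.f^[k] z ≠ S.f^[k] z') :
    (q : ℝ) ^ k * S.E w z z' ≤ S.E w (S.f^[k] z) (S.f^[k] z') *
      Real.exp (S.E w (S.f^[k] z) (S.f^[k] z') * Real.log q) := by
  have hq2 : (2 : ℝ) ≤ q := by exact_mod_cast hq
  have hlog : 0 ≤ Real.log q := Real.log_nonneg (by linarith)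
  induction k with
  | zero =>
    simp only [Function.iterate_zero, id_eq, pow_zero, one_mul]
    have h0 := S.E_nonneg w z z'
    have : 1 ≤ Real.exp (S.E w z z' * Real.log q) := Real.one_le_exp (by positivity)
    nlinarith
  | succ k ih =>
    have hne' : S.f^[k] z ≠ S.f^[k] z' := by
      intro h; apply hne
      rw [Function.iterate_succ_apply', Function.iterate_succ_apply', h]
    have h1 := ih hne'
    rw [Function.iterate_succ_apply', Function.iterate_succ_apply'] at hne ⊢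
    set a := S.E w (S.f^[k] z) (S.f^[k] z')
    have ha : 0 ≤ a := S.E_nonneg _ _ _
    have h2 := B_mono hlog (le_min (by positivity : 0 ≤ (q : ℝ) * a) (by linarith : 0 ≤ a + 1))
      (S.E_f w _ _ hne)
    refine le_trans ?_ h2
    have h3 : (q : ℝ) ^ (k + 1) * S.E w z z' ≤ q * (a * Real.exp (a * Real.log q)) := by
      rw [pow_succ]
      have : (q : ℝ) ^ k * q * S.E w z z' = q * ((q : ℝ) ^ k * S.E w z z') := by ring
      rw [this]
      gcongr
    refine h3.trans ?_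
    rcases min_choice ((q : ℝ) * a) (a + 1) with h4 | h4
    · rw [h4]
      have : Real.exp (a * Real.log q) ≤ Real.exp (q * a * Real.log q) := by
        apply Real.exp_le_exp.2
        have : a ≤ q * a := by nlinarith
        gcongr
      calc q * (a * Real.exp (a * Real.log q)) = (q * a) * Real.exp (a * Real.log q) := by ring
        _ ≤ _ := by gcongr
    · rw [h4]
      have : Real.exp ((a + 1) * Real.log q) = Real.exp (a * Real.log q) * q := by
        rw [add_mul, one_mul, Real.exp_add, Real.exp_log (by linarith)]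
      rw [this]
      have h5 := Real.exp_pos (a * Real.log q)
      have : 0 ≤ Real.exp (a * Real.log q) * q := by positivity
      nlinarith

theorem V_le {V L : ℝ} (hL : 1 / 2 ≤ L) (hV : 0 ≤ V) : V * Real.exp (V * L) ≤ Real.exp (2 * V * L) := by
  have h1 : V ≤ Real.exp (V * L) := by
    have h2 := Real.add_one_le_exp (V * L - 1)
    have h3 : Real.exp (V * L) = Real.exp (V * L - 1) * Real.exp 1 := by
      rw [← Real.exp_add]; congr 1; ring
    have h4 : (2 : ℝ) ≤ Real.exp 1 := by have := Real.add_one_le_exp (1 : ℝ); linarith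
    rw [h3]
    have h5 : V * L ≤ Real.exp (V * L - 1) := by linarith
    have h6 : 0 ≤ V * L := by positivity
    nlinarith [Real.exp_pos (V * L - 1)]
  have h2 : Real.exp (2 * V * L) = Real.exp (V * L) * Real.exp (V * L) := by
    rw [← Real.exp_add]; congr 1; ring
  rw [h2]
  exact mul_le_mul_of_nonneg_right h1 (Real.exp_pos _).le

/-- size of the fibres of `f^k` on the orbit -/
noncomputable def rr (x : P) (k : ℕ) : ℕ :=
  ((orb G x).filter fun y => S.f^[k] y = S.f^[k] x).card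

theorem rr_eq {x y : P} (k : ℕ) (hy : y ∈ orb G x) :
    ((orb G x).filter fun y' => S.f^[k] y' = S.f^[k] y).card = S.rr x k := by
  obtain ⟨g, rfl⟩ := mem_orb.1 hy
  unfold rr
  symm
  refine Finset.card_bij' (fun y _ => g • y) (fun y _ => g⁻¹ • y) ?_ ?_ ?_ ?_
  · intro y hy
    rw [Finset.mem_filter] at hy ⊢
    refine ⟨?_, by rw [S.comm_iter, S.comm_iter, hy.2]⟩
    have := smul_mem_orb (G := G) g y
    rw [orb_eq_of_mem hy.1] at this
    exact this
  · intro y hy
    rw [Finset.mem_filter] at hy ⊢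
    refine ⟨?_, ?_⟩
    · have := smul_mem_orb (G := G) g⁻¹ y
      rw [orb_eq_of_mem hy.1] at this
      exact this
    · rw [S.comm_iter, hy.2, S.comm_iter, inv_smul_smul]
  · intro y _; simp
  · intro y _; simp

theorem rr_pos (x : P) (k : ℕ) : 0 < S.rr x k := by
  unfold rr
  exact Finset.card_pos.2 ⟨x, Finset.mem_filter.2 ⟨self_mem_orb x, rfl⟩⟩

/-- the number of points at level k -/
noncomputable def DD (x : P) (k : ℕ) : ℕ := ((orb G x).image (S.f^[k])).card

theorem DD_pos (x : P) (k : ℕ) : 0 < S.DD x k :=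
  Finset.card_pos.2 (Finset.Nonempty.image ⟨x, self_mem_orb x⟩ _)

theorem sum_fib (x : P) (k : ℕ) (φ : P → ℝ) :
    ∑ y ∈ orb G x, φ (S.f^[k] y) = S.rr x k * ∑ z ∈ (orb G x).image (S.f^[k]), φ z := by
  rw [Finset.sum_comp φ (S.f^[k]), Finset.mul_sum]
  refine Finset.sum_congr rfl fun z hz => ?_
  obtain ⟨y, hy, rfl⟩ := Finset.mem_image.1 hz
  rw [S.rr_eq k hy, nsmul_eq_mul]

theorem card_eq (x : P) (k : ℕ) : ((orb G x).card : ℝ) = S.rr x k * S.DD x k := by
  have := S.sum_fib x k (fun _ => 1)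
  simpa [DD] using this

theorem card_eq' (x : P) (k : ℕ) : (orb G x).card = S.rr x k * S.DD x k := by
  have := S.card_eq x k
  exact_mod_cast this

theorem DD_anti (x : P) {a b : ℕ} (hab : a ≤ b) : S.DD x b ≤ S.DD x a := by
  obtain ⟨c, rfl⟩ := Nat.exists_eq_add_of_le hab
  unfold DD
  have : (orb G x).image (S.f^[a + c]) = ((orb G x).image (S.f^[a])).image (S.f^[c]) := by
    rw [Finset.image_image, add_comm, Function.iterate_add]
  rw [this]
  exact Finset.card_image_le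

/-- constant `c` -/
noncomputable def cc (C Λ : ℝ) : ℝ := (2 + 2 * C + Real.log 2) / Λ

theorem drop_local (hq : 2 ≤ q) {x : P} (k : ℕ) (w : ι) {y y' : P} (hy : y ∈ orb G x)
    (hy' : y' ∈ orb G x) (hne : S.f^[k] y' ≠ S.f^[k] y) (hz : S.f^[k+1] y' = S.f^[k+1] y) :
    (q : ℝ) ^ k * Real.exp (-(2 * S.E w (S.f^[k] y') (S.f^[k] y) * Real.log q)) - S.rr x k ≤
      ∑ y'' ∈ orb G x, S.E w (S.f^[k] y'') (S.f^[k] y) := by
  have hq2 : (2 : ℝ) ≤ q := by exact_mod_cast hq
  have hlog : 1 / 2 ≤ Real.log q := by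
    have h1 : Real.log 2 ≤ Real.log q := Real.log_le_log (by norm_num) hq2
    linarith [Real.log_two_gt_d9]
  have horb : orb G y = orb G x := orb_eq_of_mem hy
  set near := (orb G x).filter fun y'' => y'' = y ∨ 0 < S.E w y'' y with hnear
  set cls := (orb G x).filter fun y'' => S.f^[k] y'' = S.f^[k] y with hcls
  have hclscard : cls.card = S.rr x k := S.rr_eq k hy
  set M := near.card with hM
  have hMpos : 0 < M := Finset.card_pos.2 ⟨y, Finset.mem_filter.2 ⟨hy, Or.inl rfl⟩⟩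
  have hM0 : (0 : ℝ) < M := by exact_mod_cast hMpos
  have hsub : cls ⊆ near := by
    intro y'' h
    rw [Finset.mem_filter] at h ⊢
    exact ⟨h.1, S.near_iter w k _ _ (Or.inl h.2)⟩
  have hdisc : ∀ y'' ∈ near, y'' ≠ y → 1 ≤ (M : ℝ) * S.E w y'' y := by
    intro y'' h1 h2
    rw [Finset.mem_filter] at h1
    have h3 : 0 < S.E w y'' y := h1.2.resolve_left h2
    have := S.disc w y y'' (by rw [horb]; exact h1.1) h2 h3
    rw [horb] at this
    exact this
  -- the partner
  have hpart : y' = y ∨ 0 < S.E w y' y := S.near_iter w (k+1) _ _ (Or.inl hz)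
  have hyne : y' ≠ y := fun h => hne (by rw [h])
  have hpart' : y' ∈ near := Finset.mem_filter.2 ⟨hy', hpart⟩
  set V := S.E w (S.f^[k] y') (S.f^[k] y) with hV
  have hV0 : 0 ≤ V := S.E_nonneg _ _ _
  have h1 : (q : ℝ) ^ k ≤ M * Real.exp (2 * V * Real.log q) := by
    have h2 := S.grow_B hq w k y' y hne
    have h3 := V_le hlog hV0
    have h4 := hdisc y' hpart' hyne
    have h5 : (q : ℝ) ^ k * S.E w y' y ≤ Real.exp (2 * V * Real.log q) := h2.trans h3
    have h6 : (q : ℝ) ^ k * 1 ≤ (q : ℝ) ^ k * (M * S.E w y' y) := by gcongr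
    nlinarith
  have h2 : (q : ℝ) ^ k * Real.exp (-(2 * V * Real.log q)) ≤ M := by
    rw [Real.exp_neg, ← div_eq_mul_inv, div_le_iff₀ (Real.exp_pos _)]
    exact h1
  -- lower bound of the sum
  have h3 : ∀ y'' ∈ near \ cls, min ((q : ℝ) ^ k * (1 / M)) 1 ≤ S.E w (S.f^[k] y'') (S.f^[k] y) := by
    intro y'' h
    rw [Finset.mem_sdiff] at h
    have h4 : S.f^[k] y'' ≠ S.f^[k] y := by
      intro h5
      exact h.2 (Finset.mem_filter.2 ⟨(Finset.mem_filter.1 h.1).1, h5⟩)
    have h5 : y'' ≠ y := fun h => h4 (by rw [h])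
    refine S.grow_min hq w k _ _ _ ?_ h4
    rw [div_le_iff₀ hM0, mul_comm]
    exact hdisc y'' h.1 h5
  have h4 : ((M : ℝ) - S.rr x k) * min ((q : ℝ) ^ k * (1 / M)) 1 ≤
      ∑ y'' ∈ orb G x, S.E w (S.f^[k] y'') (S.f^[k] y) := by
    calc ((M : ℝ) - S.rr x k) * min ((q : ℝ) ^ k * (1 / M)) 1
        = ∑ y'' ∈ near \ cls, min ((q : ℝ) ^ k * (1 / M)) 1 := by
          rw [Finset.sum_const, Finset.card_sdiff_of_subset hsub, nsmul_eq_mul, hclscard]
          rw [Nat.cast_sub (by rw [← hclscard]; exact Finset.card_le_card hsub)]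
      _ ≤ ∑ y'' ∈ near \ cls, S.E w (S.f^[k] y'') (S.f^[k] y) := Finset.sum_le_sum h3
      _ ≤ _ := Finset.sum_le_sum_of_subset_of_nonneg
          (fun a ha => (Finset.mem_filter.1 (Finset.mem_sdiff.1 ha).1).1)
          fun _ _ _ => S.E_nonneg _ _ _
  refine le_trans ?_ h4
  have hr0 : (0 : ℝ) ≤ S.rr x k := Nat.cast_nonneg _
  have hrM : (S.rr x k : ℝ) ≤ M := by
    rw [← hclscard]; exact_mod_cast Finset.card_le_card hsub
  have he1 : Real.exp (-(2 * V * Real.log q)) ≤ 1 := by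
    rw [Real.exp_le_one_iff]
    have : 0 ≤ 2 * V * Real.log q := by positivity
    linarith
  rcases le_total ((q : ℝ) ^ k * (1 / M)) 1 with h5 | h5
  · rw [min_eq_left h5]
    have h6 : ((M : ℝ) - S.rr x k) * ((q : ℝ) ^ k * (1 / M)) =
        (q : ℝ) ^ k - S.rr x k * ((q : ℝ) ^ k * (1 / M)) := by field_simp
    rw [h6]
    have h7 : (q : ℝ) ^ k * Real.exp (-(2 * V * Real.log q)) ≤ (q : ℝ) ^ k * 1 := by gcongr
    nlinarith
  · rw [min_eq_right h5]
    linarith

/-- summation of the local estimates -/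
theorem drop_sum (hq : 2 ≤ q) (hΛ : 0 < Λ) {x : P} (k : ℕ)
    (hd : ∃ y ∈ orb G x, ∃ y' ∈ orb G x, S.f^[k] y' ≠ S.f^[k] y ∧ S.f^[k+1] y' = S.f^[k+1] y)
    (hh : (q : ℝ) ^ k * S.hhat hq x ≤ 1) :
    (orb G x).card * Λ * ((q : ℝ) ^ k * Real.exp (-(2 * cc C Λ * Real.log q)) - S.rr x k) ≤
      (S.rr x k : ℝ) ^ 2 * ∑ w, S.lam w * ∑ z ∈ (orb G x).image (S.f^[k]),
        ∑ z' ∈ (orb G x).image (S.f^[k]), S.E w z z' := by
  have hq2 : (2 : ℝ) ≤ q := by exact_mod_cast hq
  have hlog : 0 ≤ Real.log q := Real.log_nonneg (by linarith)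
  -- partners
  have hp : ∀ y ∈ orb G x, ∃ y' ∈ orb G x, S.f^[k] y' ≠ S.f^[k] y ∧ S.f^[k+1] y' = S.f^[k+1] y := by
    obtain ⟨y0, hy0, y0', hy0', h1, h2⟩ := hd
    intro y hy
    rw [← orb_eq_of_mem hy0] at hy
    obtain ⟨g, rfl⟩ := mem_orb.1 hy
    refine ⟨g • y0', ?_, ?_, ?_⟩
    · have := smul_mem_orb (G := G) g y0'
      rwa [orb_eq_of_mem hy0'] at this
    · rw [S.comm_iter, S.comm_iter]
      intro h
      exact h1 (smul_left_cancel g h)
    · rw [S.comm_iter, S.comm_iter, h2]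
  choose! pt hpt1 hpt2 hpt3 using hp
  set O := orb G x with hO
  set V : ι → P → ℝ := fun w y => S.E w (S.f^[k] (pt y)) (S.f^[k] y) with hV
  set c := cc C Λ with hc
  have hcΛ : c * Λ = 2 + 2 * C + Real.log 2 := by rw [hc]; unfold cc; field_simp
  -- average of V
  have hVsum : ∑ w, S.lam w * ∑ y ∈ O, V w y ≤ O.card * (c * Λ) := by
    have : ∑ w, S.lam w * ∑ y ∈ O, V w y = ∑ y ∈ O, ∑ w, S.lam w * V w y := by
      simp_rw [Finset.mul_sum]
      exact Finset.sum_comm
    rw [this, ← nsmul_eq_mul]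
    refine Finset.sum_le_card_nsmul _ _ _ fun y hy => ?_
    have h1 := S.liou _ _ (hpt2 y hy)
    refine h1.trans ?_
    have h2 : ∀ z ∈ O, S.h (S.f^[k] z) ≤ 1 + C := by
      intro z hz
      have := S.h_iter_le hq k z
      rw [S.hhat_orb hq hz] at this
      linarith
    have h3 := h2 y hy
    have h4 := h2 (pt y) (hpt1 y hy)
    rw [hcΛ]
    linarith
  -- tangent line
  have htan : ∀ w y, Real.exp (-(2 * c * Real.log q)) * (1 - 2 * Real.log q * (V w y - c)) ≤
      Real.exp (-(2 * V w y * Real.log q)) := by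
    intro w y
    have h1 := Real.add_one_le_exp (-(2 * Real.log q * (V w y - c)))
    have h2 : Real.exp (-(2 * V w y * Real.log q)) =
        Real.exp (-(2 * c * Real.log q)) * Real.exp (-(2 * Real.log q * (V w y - c))) := by
      rw [← Real.exp_add]; congr 1; ring
    rw [h2]
    gcongr
    linarith
  set κ := Real.exp (-(2 * c * Real.log q)) with hκ
  have hκ0 : 0 < κ := Real.exp_pos _
  have hexp : O.card * Λ * κ ≤ ∑ w, S.lam w * ∑ y ∈ O, Real.exp (-(2 * V w y * Real.log q)) := by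
    calc O.card * Λ * κ ≤ κ * (O.card * Λ) + κ * (2 * Real.log q) *
          (O.card * (c * Λ) - ∑ w, S.lam w * ∑ y ∈ O, V w y) := by
          have : 0 ≤ κ * (2 * Real.log q) *
            (O.card * (c * Λ) - ∑ w, S.lam w * ∑ y ∈ O, V w y) := by
            apply mul_nonneg (by positivity)
            linarith
          linarith
      _ = ∑ w, S.lam w * ∑ y ∈ O, κ * (1 - 2 * Real.log q * (V w y - c)) := by
          have e1 : ∀ w, S.lam w * ∑ y ∈ O, κ * (1 - 2 * Real.log q * (V w y - c)) =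
              S.lam w * (κ * (1 + 2 * Real.log q * c) * O.card) -
                κ * (2 * Real.log q) * (S.lam w * ∑ y ∈ O, V w y) := by
            intro w
            have e2 : ∀ y, κ * (1 - 2 * Real.log q * (V w y - c)) =
              κ * (1 + 2 * Real.log q * c) - κ * (2 * Real.log q) * V w y := by intro y; ring
            simp_rw [e2]
            rw [Finset.sum_sub_distrib, Finset.sum_const, nsmul_eq_mul, ← Finset.mul_sum]
            ring
          simp_rw [e1]
          rw [Finset.sum_sub_distrib, ← Finset.sum_mul, S.sum_lam, ← Finset.mul_sum]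
          ring
      _ ≤ _ := by
          refine Finset.sum_le_sum fun w _ => mul_le_mul_of_nonneg_left ?_ (S.lam_nonneg w)
          exact Finset.sum_le_sum fun y _ => htan w y
  -- local estimates
  have hloc : ∀ w, ∑ y ∈ O, ((q : ℝ) ^ k * Real.exp (-(2 * V w y * Real.log q)) - S.rr x k) ≤
      (S.rr x k : ℝ) ^ 2 * ∑ z ∈ O.image (S.f^[k]), ∑ z' ∈ O.image (S.f^[k]), S.E w z z' := by
    intro w
    calc ∑ y ∈ O, ((q : ℝ) ^ k * Real.exp (-(2 * V w y * Real.log q)) - S.rr x k)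
        ≤ ∑ y ∈ O, ∑ y'' ∈ O, S.E w (S.f^[k] y'') (S.f^[k] y) := by
          refine Finset.sum_le_sum fun y hy => ?_
          exact S.drop_local hq k w hy (hpt1 y hy) (hpt2 y hy) (hpt3 y hy)
      _ = ∑ y'' ∈ O, ∑ y ∈ O, S.E w (S.f^[k] y'') (S.f^[k] y) := Finset.sum_comm
      _ = ∑ y'' ∈ O, (S.rr x k : ℝ) * ∑ z' ∈ O.image (S.f^[k]), S.E w (S.f^[k] y'') z' := by
          refine Finset.sum_congr rfl fun y'' _ => ?_
          exact S.sum_fib x k (fun z => S.E w (S.f^[k] y'') z)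
      _ = _ := by
          rw [← Finset.mul_sum]
          rw [S.sum_fib x k (fun z => ∑ z' ∈ O.image (S.f^[k]), S.E w z z')]
          ring
  calc (O.card : ℝ) * Λ * ((q : ℝ) ^ k * κ - S.rr x k)
      = (q : ℝ) ^ k * (O.card * Λ * κ) - S.rr x k * (O.card * Λ) := by ring
    _ ≤ (q : ℝ) ^ k * (∑ w, S.lam w * ∑ y ∈ O, Real.exp (-(2 * V w y * Real.log q))) -
          S.rr x k * (O.card * Λ) := by gcongr
    _ = ∑ w, S.lam w * ∑ y ∈ O, ((q : ℝ) ^ k * Real.exp (-(2 * V w y * Real.log q)) - S.rr x k) := by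
        have e1 : ∀ w, S.lam w * ∑ y ∈ O, ((q : ℝ) ^ k * Real.exp (-(2 * V w y * Real.log q)) -
            S.rr x k) = (q : ℝ) ^ k * (S.lam w * ∑ y ∈ O, Real.exp (-(2 * V w y * Real.log q))) -
            S.lam w * (O.card * S.rr x k) := by
          intro w
          rw [Finset.sum_sub_distrib, Finset.sum_const, nsmul_eq_mul, ← Finset.mul_sum]
          ring
        simp_rw [e1]
        rw [Finset.sum_sub_distrib, ← Finset.mul_sum, ← Finset.sum_mul, S.sum_lam]
        ring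
    _ ≤ ∑ w, S.lam w * ((S.rr x k : ℝ) ^ 2 * ∑ z ∈ O.image (S.f^[k]),
          ∑ z' ∈ O.image (S.f^[k]), S.E w z z') :=
        Finset.sum_le_sum fun w _ => mul_le_mul_of_nonneg_left (hloc w) (S.lam_nonneg w)
    _ = _ := by
        rw [Finset.mul_sum]
        exact Finset.sum_congr rfl fun w _ => by ring

/-- upper bound for the energy of level `k`. -/
theorem drop_upper (hq : 2 ≤ q) {x : P} (hx : Function.Injective fun n : ℕ => S.f^[n] x)
    (k : ℕ) (hk : q ≤ k + 1) :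
    ∑ w, S.lam w * ∑ z ∈ (orb G x).image (S.f^[k]),
        ∑ z' ∈ (orb G x).image (S.f^[k]), S.E w z z' ≤
      2 * (((q : ℝ) * S.DD x k) ^ 2 * ((q : ℝ) ^ k * S.hhat hq x)) +
        (2 + 4 * ((q : ℝ) - 1) * C) * (((q : ℝ) * S.DD x k) *
          Real.log ((q : ℝ) * S.DD x k)) := by
  have hC := S.C_nonneg x
  have hq2 : (2 : ℝ) ≤ q := by exact_mod_cast hq
  set I : ℕ → Finset P := fun j => (orb G x).image (S.f^[k - j]) with hI
  have hdisj : ∀ a ∈ range q, ∀ b ∈ range q, a ≠ b → Disjoint (I a) (I b) := by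
    intro a ha b hb hab
    rw [Finset.disjoint_left]
    intro z hz hz'
    obtain ⟨y, hy, rfl⟩ := Finset.mem_image.1 hz
    obtain ⟨y', hy', h⟩ := Finset.mem_image.1 hz'
    obtain ⟨g, rfl⟩ := mem_orb.1 hy
    obtain ⟨g', rfl⟩ := mem_orb.1 hy'
    rw [Finset.mem_range] at ha hb
    exact S.levels_ne hx (a := k - b) (b := k - a) (by omega) g' g h
  have hcard : q * S.DD x k ≤ ((range q).biUnion I).card := by
    rw [Finset.card_biUnion hdisj]
    calc q * S.DD x k = ∑ _j ∈ range q, S.DD x k := by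
          rw [Finset.sum_const, Finset.card_range, smul_eq_mul]
      _ ≤ _ := Finset.sum_le_sum fun j _ => S.DD_anti x (Nat.sub_le k j)
  have hsub : I 0 ⊆ (range q).biUnion I :=
    Finset.subset_biUnion_of_mem I (Finset.mem_range.2 (by omega))
  obtain ⟨J, hJ1, hJ2⟩ := exists_pow_between hq (S.DD x k) (S.DD_pos x k)
  obtain ⟨Z, hZ1, hZ2, hZ3⟩ := Finset.exists_subsuperset_card_eq hsub (n := q ^ J)
    (by simpa [hI, DD] using hJ1) (hJ2.trans hcard)
  have hHm : ∀ z ∈ Z, S.hhat hq z ≤ (q : ℝ) ^ k * S.hhat hq x := by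
    intro z hz
    have := hZ2 hz
    simp only [Finset.mem_biUnion, Finset.mem_range] at this
    obtain ⟨l, hl, hzl⟩ := this
    obtain ⟨y, hy, rfl⟩ := Finset.mem_image.1 hzl
    rw [S.hhat_iter, S.hhat_orb hq hy]
    have h0 := S.hhat_nonneg hq x
    have : (q : ℝ) ^ (k - l) ≤ (q : ℝ) ^ k := pow_le_pow_right₀ (by linarith) (Nat.sub_le k l)
    gcongr
  have hup := S.energy' hq J Z hZ3 _ hHm (mul_nonneg (by positivity) (S.hhat_nonneg hq x))
  have hlow : ∀ w, ∑ z ∈ (orb G x).image (S.f^[k]), ∑ z' ∈ (orb G x).image (S.f^[k]), S.E w z z'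
      ≤ ∑ z ∈ Z, ∑ z' ∈ Z, S.E w z z' := by
    intro w
    have hZ1' : (orb G x).image (S.f^[k]) ⊆ Z := by simpa [hI] using hZ1
    refine (Finset.sum_le_sum_of_subset_of_nonneg hZ1' fun z' _ _ =>
      Finset.sum_nonneg fun _ _ => S.E_nonneg _ _ _).trans ?_
    refine Finset.sum_le_sum fun z' _ => ?_
    exact Finset.sum_le_sum_of_subset_of_nonneg hZ1' fun z _ _ => S.E_nonneg _ _ _
  refine (Finset.sum_le_sum fun w _ => mul_le_mul_of_nonneg_left (hlow w)
    (S.lam_nonneg w)).trans (hup.trans ?_)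
  have hn : (Z.card : ℝ) ≤ (q : ℝ) * S.DD x k := by
    rw [hZ3]
    exact_mod_cast hJ2
  have hn1 : (1 : ℝ) ≤ (Z.card : ℝ) := by
    rw [hZ3]
    exact_mod_cast Nat.one_le_pow _ _ (by omega)
  have h0 := S.hhat_nonneg hq x
  have hcc : 0 ≤ 2 + 4 * ((q : ℝ) - 1) * C := by
    have : 0 ≤ ((q : ℝ) - 1) * C := mul_nonneg (by linarith) hC
    linarith
  have hlog : 0 ≤ Real.log (Z.card : ℝ) := Real.log_nonneg hn1
  gcongr

/-- `κ = q^{-2c}` -/
noncomputable def kap (q : ℕ) (C Λ : ℝ) : ℝ := Real.exp (-(2 * cc C Λ * Real.log q))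

/-- the constant of the drop lemma -/
noncomputable def C3 (q : ℕ) (C Λ : ℝ) : ℝ :=
  (q : ℝ) ^ q + 2 / (Λ * kap q C Λ) * (Λ + (2 + 4 * ((q : ℝ) - 1) * C) * q * (Real.log q + 1))

/-- smallness constant -/
noncomputable def c2 (q : ℕ) (C Λ : ℝ) : ℝ := Λ * kap q C Λ / (4 * q ^ 2)

theorem drop (hq : 2 ≤ q) (hΛ : 0 < Λ) {x : P}
    (hx : Function.Injective fun n : ℕ => S.f^[n] x) (k : ℕ)
    (hd : ∃ y ∈ orb G x, ∃ y' ∈ orb G x, S.f^[k] y' ≠ S.f^[k] y ∧ S.f^[k+1] y' = S.f^[k+1] y)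
    (hh : (q : ℝ) ^ k * S.hhat hq x ≤ 1)
    (hs : (orb G x).card * S.hhat hq x ≤ c2 q C Λ) :
    (q : ℝ) ^ k ≤ C3 q C Λ * S.rr x k * (1 + Real.log (orb G x).card) := by
  have hC := S.C_nonneg x
  have hq2 : (2 : ℝ) ≤ q := by exact_mod_cast hq
  set D := (orb G x).card with hD
  have hDpos : 0 < D := card_orb_pos x
  have hD1 : (1 : ℝ) ≤ D := by exact_mod_cast hDpos
  have hlogD : 0 ≤ Real.log D := Real.log_nonneg hD1
  have hlogq : 0 ≤ Real.log q := Real.log_nonneg (by linarith)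
  set C1 := 2 + 4 * ((q : ℝ) - 1) * C with hC1
  have hC1pos : 0 ≤ C1 := by
    have : 0 ≤ ((q : ℝ) - 1) * C := mul_nonneg (by linarith) hC
    rw [hC1]; linarith
  have hκ : 0 < kap q C Λ := Real.exp_pos _
  set κ := kap q C Λ with hκdef
  have hr1 : (1 : ℝ) ≤ S.rr x k := by exact_mod_cast S.rr_pos x k
  have hC3a : (q : ℝ) ^ q ≤ C3 q C Λ := by
    unfold C3
    rw [← hC1, ← hκdef]
    have : 0 ≤ 2 / (Λ * κ) * (Λ + C1 * q * (Real.log q + 1)) := by positivity
    linarith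
  have hC3b : 2 / (Λ * κ) * (Λ + C1 * q * (Real.log q + 1)) ≤ C3 q C Λ := by
    unfold C3
    rw [← hC1, ← hκdef]
    have : 0 ≤ (q : ℝ) ^ q := by positivity
    linarith
  have hC30 : 0 ≤ C3 q C Λ := le_trans (by positivity) hC3a
  by_cases hk : q ≤ k + 1
  swap
  · push Not at hk
    have h1 : (q : ℝ) ^ k ≤ (q : ℝ) ^ q := pow_le_pow_right₀ (by linarith) (by omega)
    have h2 : C3 q C Λ * 1 * 1 ≤ C3 q C Λ * S.rr x k * (1 + Real.log D) := by
      gcongr
      linarith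
    linarith
  have hlow := S.drop_sum hq hΛ k hd hh
  have hup := S.drop_upper hq hx k hk
  have hDD1 : (1 : ℝ) ≤ S.DD x k := by exact_mod_cast S.DD_pos x k
  have hcard : (D : ℝ) = S.rr x k * S.DD x k := S.card_eq x k
  rw [← hC1] at hup
  rw [← hD] at hlow
  have hκ' : Real.exp (-(2 * cc C Λ * Real.log q)) = κ := rfl
  rw [hκ'] at hlow
  set r : ℝ := ((S.rr x k : ℕ) : ℝ) with hr
  set n : ℝ := ((S.DD x k : ℕ) : ℝ) with hn
  set F := ∑ w, S.lam w * ∑ z ∈ (orb G x).image (S.f^[k]),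
        ∑ z' ∈ (orb G x).image (S.f^[k]), S.E w z z' with hF
  set H := S.hhat hq x with hH
  have hH0 : 0 ≤ H := S.hhat_nonneg hq x
  -- combine
  have h1 : D * Λ * ((q : ℝ) ^ k * κ - r) ≤
      r ^ 2 * (2 * ((q * n) ^ 2 * ((q : ℝ) ^ k * H)) + C1 * ((q * n) * Real.log (q * n))) :=
    hlow.trans (by gcongr)
  have hlogqn : Real.log (q * n) ≤ Real.log q + Real.log D := by
    rw [Real.log_mul (by positivity) (by positivity)]
    have : Real.log n ≤ Real.log D := by
      apply Real.log_le_log (by positivity)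
      rw [hcard]
      exact le_mul_of_one_le_left (by positivity) hr1
    linarith
  have h2 : Λ * ((q : ℝ) ^ k / r * κ - 1) ≤
      2 * q ^ 2 * ((q : ℝ) ^ k / r) * (D * H) + C1 * q * (Real.log q + Real.log D) := by
    have e1 : D * Λ * ((q : ℝ) ^ k * κ - r) = (r ^ 2 * n) * (Λ * ((q : ℝ) ^ k / r * κ - 1)) := by
      rw [hcard]; field_simp
    have e2 : r ^ 2 * (2 * ((q * n) ^ 2 * ((q : ℝ) ^ k * H)) + C1 * ((q * n) * Real.log (q * n)))
        = (r ^ 2 * n) * (2 * q ^ 2 * ((q : ℝ) ^ k / r) * (D * H) + C1 * q * Real.log (q * n)) := by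
      rw [hcard]; field_simp
    rw [e1, e2] at h1
    have h3 := le_of_mul_le_mul_left h1 (by positivity)
    refine h3.trans ?_
    gcongr
  set y := (q : ℝ) ^ k / r with hy
  have hy0 : 0 < y := by positivity
  have h3 : 2 * q ^ 2 * y * (D * H) ≤ Λ * κ / 2 * y := by
    have : 2 * q ^ 2 * y * (D * H) ≤ 2 * q ^ 2 * y * c2 q C Λ := by gcongr
    refine this.trans (le_of_eq ?_)
    unfold c2
    rw [← hκdef]
    field_simp
    ring
  have h4 : Λ * κ / 2 * y ≤ Λ + C1 * q * (Real.log q + Real.log D) := by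
    linarith
  have h5 : Λ + C1 * q * (Real.log q + Real.log D) ≤
      (Λ + C1 * q * (Real.log q + 1)) * (1 + Real.log D) := by
    have : 0 ≤ C1 * q := by positivity
    have : 0 ≤ C1 * q * Real.log q * Real.log D := by positivity
    linarith [mul_nonneg hΛ.le hlogD]
  have h6 : y ≤ C3 q C Λ * (1 + Real.log D) := by
    calc y = 2 / (Λ * κ) * (Λ * κ / 2 * y) := by field_simp
      _ ≤ 2 / (Λ * κ) * ((Λ + C1 * q * (Real.log q + 1)) * (1 + Real.log D)) := by
          exact mul_le_mul_of_nonneg_left (h4.trans h5) (by positivity)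
      _ = (2 / (Λ * κ) * (Λ + C1 * q * (Real.log q + 1))) * (1 + Real.log D) := by ring
      _ ≤ _ := by gcongr
  have h7 : (q : ℝ) ^ k = y * r := by rw [hy]; field_simp
  rw [h7]
  have h8 := mul_le_mul_of_nonneg_right h6 (show (0 : ℝ) ≤ r by positivity)
  linarith


end EData

end Pool.DynLehmer
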