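import Mathlib

set_option autoImplicit false

/-!
# Binary forms congruent to a linear form in `q`-th powers
-/

namespace Pool.DynLehmer
open MvPolynomial

/-- the bracket of two vectors -/
def br {A : Type*} [CommRing A] (z z' : Fin 2 → A) : A := z 0 * z' 1 - z 1 * z' 0

theorem br_map {A B : Type*} [CommRing A] [CommRing B] (φ : A →+* B) (z z' : Fin 2 → A) :
    φ (br z z') = br (fun i => φ (z i)) (fun i => φ (z' i)) := by simp [br]

/-- the exponent `(j, M - j)` -/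
noncomputable def ex (M j : ℕ) : Fin 2 →₀ ℕ := Finsupp.single 0 j + Finsupp.single 1 (M - j)

theorem ex_zero (M j : ℕ) : ex M j 0 = j := by simp [ex]
theorem ex_one (M j : ℕ) : ex M j 1 = M - j := by simp [ex]

theorem ex_degree {M j : ℕ} (h : j ≤ M) : (ex M j).degree = M := by
  rw [Finsupp.degree_eq_sum]; simp [ex_zero, ex_one]; omega

theorem ex_inj {M j k : ℕ} (h : ex M j = ex M k) : j = k := by
  have := DFunLike.congr_fun h 0
  rwa [ex_zero, ex_zero] at this

theorem eq_ex {M : ℕ} {t : Fin 2 →₀ ℕ} (h : t.degree = M) : t = ex M (t 0) := by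
  rw [Finsupp.degree_eq_sum] at h
  simp at h
  ext i
  fin_cases i
  · simp [ex_zero]
  · simp [ex_one]; omega

theorem monomial_ex {A : Type*} [CommRing A] (M j : ℕ) (a : A) :
    monomial (ex M j) a = C a * X 0 ^ j * X 1 ^ (M - j) := by
  rw [ex, ← mul_one (monomial _ a)]
  rw [show (1 : MvPolynomial (Fin 2) A) = 1 from rfl, mul_one]
  rw [X_pow_eq_monomial, X_pow_eq_monomial, mul_assoc, monomial_mul, C_mul_monomial]
  simp

/-- expansion of a binary form -/
theorem hom2 {A : Type*} [CommRing A] {P : MvPolynomial (Fin 2) A} {M : ℕ}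
    (hP : P.IsHomogeneous M) :
    P = ∑ j ∈ Finset.range (M + 1), C (coeff (ex M j) P) * X 0 ^ j * X 1 ^ (M - j) := by
  simp_rw [← monomial_ex]
  ext t
  rw [coeff_sum]
  simp_rw [coeff_monomial]
  by_cases h : t.degree = M
  · have h1 := eq_ex h
    have h2 : t 0 ≤ M := by
      rw [Finsupp.degree_eq_sum] at h
      simp at h; omega
    rw [Finset.sum_eq_single (t 0)]
    · rw [if_pos h1.symm, ← h1]
    · intro j _ hj
      rw [if_neg]
      intro h3
      apply hj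
      rw [← h3, ex_zero]
    · intro h3
      exact absurd (Finset.mem_range.2 (by omega)) h3
  · rw [hP.coeff_eq_zero h, Finset.sum_eq_zero]
    intro j hj
    rw [if_neg]
    intro h3
    apply h
    rw [← h3]
    exact ex_degree (by have := Finset.mem_range.1 hj; omega)

theorem eval_hom2 {A : Type*} [CommRing A] {P : MvPolynomial (Fin 2) A} {M : ℕ}
    (hP : P.IsHomogeneous M) (z : Fin 2 → A) :
    eval z P = ∑ j ∈ Finset.range (M + 1), coeff (ex M j) P * z 0 ^ j * z 1 ^ (M - j) := by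
  conv_lhs => rw [hom2 hP]
  simp

theorem mono_dvd {A : Type*} [CommRing A] (M a b : ℕ) (ha : a ≤ M) (hb : b ≤ M) (z z' : Fin 2 → A) :
    br z z' ∣ (z 0 ^ a * z 1 ^ (M - a)) * (z' 0 ^ b * z' 1 ^ (M - b)) -
      (z' 0 ^ a * z' 1 ^ (M - a)) * (z 0 ^ b * z 1 ^ (M - b)) := by
  wlog hab : b ≤ a generalizing a b
  · have := this b a hb ha (by omega)
    rw [← dvd_neg]
    convert this using 1
    ring
  obtain ⟨c, rfl⟩ := Nat.exists_eq_add_of_le hab
  obtain ⟨e, rfl⟩ := Nat.exists_eq_add_of_le ha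
  have h1 : b + c + e - (b + c) = e := by omega
  have h2 : b + c + e - b = c + e := by omega
  rw [h1, h2]
  have h3 := sub_dvd_pow_sub_pow (z 0 * z' 1) (z 1 * z' 0) c
  have h4 : (z 0 ^ (b + c) * z 1 ^ e) * (z' 0 ^ b * z' 1 ^ (c + e)) -
      (z' 0 ^ (b + c) * z' 1 ^ e) * (z 0 ^ b * z 1 ^ (c + e)) =
      ((z 0 * z' 1) ^ c - (z 1 * z' 0) ^ c) * (z 0 ^ b * z' 0 ^ b * z 1 ^ e * z' 1 ^ e) := by
    simp only [pow_add, mul_pow]; ring
  rw [h4]
  exact Dvd.dvd.mul_right h3 _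

/-- divisibility of the antisymmetrization by the bracket -/
theorem br_dvd {A : Type*} [CommRing A] {P Q : MvPolynomial (Fin 2) A} {M : ℕ}
    (hP : P.IsHomogeneous M) (hQ : Q.IsHomogeneous M) (z z' : Fin 2 → A) :
    br z z' ∣ eval z P * eval z' Q - eval z' P * eval z Q := by
  rw [eval_hom2 hP, eval_hom2 hP, eval_hom2 hQ, eval_hom2 hQ, Finset.sum_mul_sum,
    Finset.sum_mul_sum, ← Finset.sum_sub_distrib]
  refine Finset.dvd_sum fun a ha => ?_
  rw [← Finset.sum_sub_distrib]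
  refine Finset.dvd_sum fun b hb => ?_
  have h := mono_dvd M a b (by have := Finset.mem_range.1 ha; omega)
    (by have := Finset.mem_range.1 hb; omega) z z'
  have h2 : coeff (ex M a) P * z 0 ^ a * z 1 ^ (M - a) * (coeff (ex M b) Q * z' 0 ^ b *
      z' 1 ^ (M - b)) - coeff (ex M a) P * z' 0 ^ a * z' 1 ^ (M - a) * (coeff (ex M b) Q *
      z 0 ^ b * z 1 ^ (M - b)) = ((z 0 ^ a * z 1 ^ (M - a)) * (z' 0 ^ b * z' 1 ^ (M - b)) -
      (z' 0 ^ a * z' 1 ^ (M - a)) * (z 0 ^ b * z 1 ^ (M - b))) *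
      (coeff (ex M a) P * coeff (ex M b) Q) := by ring
  rw [h2]
  exact Dvd.dvd.mul_right h _

/-- Data of a pair of binary forms of degree `p ^ s` over `A` which are congruent modulo `ϖ` to
invertible linear forms in `X₀^q, X₁^q`. -/
structure FF (A : Type*) [CommRing A] (p s : ℕ) where
  g : Matrix (Fin 2) (Fin 2) A
  ginv : Matrix (Fin 2) (Fin 2) A
  gg : g * ginv = 1
  ϖ : A
  c : A
  hp : (p : A) = ϖ * c
  E : Fin 2 → MvPolynomial (Fin 2) A
  hE : ∀ i, (E i).IsHomogeneous (p ^ s)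

namespace FF

variable {A B : Type*} [CommRing A] [CommRing B] {p s : ℕ}

/-- the forms -/
noncomputable def F (Φ : FF A p s) (i : Fin 2) : MvPolynomial (Fin 2) A :=
  C (Φ.g i 0) * X 0 ^ (p ^ s) + C (Φ.g i 1) * X 1 ^ (p ^ s) + C Φ.ϖ * Φ.E i

theorem F_hom (Φ : FF A p s) (i : Fin 2) : (Φ.F i).IsHomogeneous (p ^ s) := by
  have h1 : ∀ (a : A) (j : Fin 2), (C a * X j ^ (p ^ s) : MvPolynomial (Fin 2) A).IsHomogeneous
      (p ^ s) := fun a j => isHomogeneous_C_mul_X_pow a j _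
  exact ((h1 _ _).add (h1 _ _)).add ((Φ.hE i).C_mul _)

/-- the map on vectors -/
noncomputable def act (Φ : FF A p s) (z : Fin 2 → A) : Fin 2 → A := fun i => eval z (Φ.F i)

theorem act_apply (Φ : FF A p s) (z : Fin 2 → A) (i : Fin 2) :
    Φ.act z i = Φ.g i 0 * z 0 ^ (p ^ s) + Φ.g i 1 * z 1 ^ (p ^ s) + Φ.ϖ * eval z (Φ.E i) := by
  simp [act, F]

/-- base change -/
noncomputable def map (Φ : FF A p s) (φ : A →+* B) : FF B p s where
  g := Φ.g.map φ
  ginv := Φ.ginv.map φ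
  gg := by
    rw [← Matrix.map_mul, Φ.gg]; simp
  ϖ := φ Φ.ϖ
  c := φ Φ.c
  hp := by rw [← map_mul, ← Φ.hp, map_natCast]
  E := fun i => MvPolynomial.map φ (Φ.E i)
  hE := fun i => (Φ.hE i).map φ

theorem map_F (Φ : FF A p s) (φ : A →+* B) (i : Fin 2) :
    (Φ.map φ).F i = MvPolynomial.map φ (Φ.F i) := by
  simp [F, map]

theorem map_act (Φ : FF A p s) (φ : A →+* B) (z : Fin 2 → A) (i : Fin 2) :
    φ (Φ.act z i) = (Φ.map φ).act (fun i => φ (z i)) i := by
  rw [act, act, map_F, eval_map, eval₂_comp]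
  rfl

theorem map_act_iter (Φ : FF A p s) (φ : A →+* B) (k : ℕ) (z : Fin 2 → A) :
    (fun i => φ (Φ.act^[k] z i)) = (Φ.map φ).act^[k] (fun i => φ (z i)) := by
  induction k with
  | zero => rfl
  | succ k ih =>
    rw [Function.iterate_succ_apply', Function.iterate_succ_apply', ← ih]
    ext i
    exact Φ.map_act φ _ i

theorem act_smul (Φ : FF A p s) (c : A) (z : Fin 2 → A) :
    Φ.act (c • z) = c ^ (p ^ s) • Φ.act z := by
  ext i
  simp only [act, Pi.smul_apply]
  rw [eval_hom2 (Φ.F_hom i), eval_hom2 (Φ.F_hom i), smul_eq_mul, Finset.mul_sum]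
  refine Finset.sum_congr rfl fun j hj => ?_
  have hj' : j ≤ p ^ s := by have := Finset.mem_range.1 hj; omega
  have : c ^ (p ^ s) = c ^ j * c ^ (p ^ s - j) := by rw [← pow_add]; congr 1; omega
  rw [this]
  simp only [Pi.smul_apply, smul_eq_mul, mul_pow]
  ring

theorem act_iter_smul (Φ : FF A p s) (k : ℕ) (c : A) (z : Fin 2 → A) :
    Φ.act^[k] (c • z) = c ^ ((p ^ s) ^ k) • Φ.act^[k] z := by
  induction k with
  | zero => simp
  | succ k ih =>
    rw [Function.iterate_succ_apply', ih, act_smul, Function.iterate_succ_apply', ← pow_mul,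
      ← pow_succ]

/-- The local expansion. -/
theorem br_act (Φ : FF A p s) (hp : p.Prime) (z z' : Fin 2 → A) :
    ∃ r, br (Φ.act z) (Φ.act z') = Φ.g.det * (br z z') ^ (p ^ s) + Φ.ϖ * (br z z' * r) := by
  -- linear parts
  set L : Fin 2 → MvPolynomial (Fin 2) A := fun i =>
    C (Φ.g i 0) * X 0 ^ (p ^ s) + C (Φ.g i 1) * X 1 ^ (p ^ s) with hL
  have hLh : ∀ i, (L i).IsHomogeneous (p ^ s) := by
    intro i
    have h1 : ∀ (a : A) (j : Fin 2), (C a * X j ^ (p ^ s) : MvPolynomial (Fin 2) A).IsHomogeneous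
      (p ^ s) := fun a j => isHomogeneous_C_mul_X_pow a j _
    exact (h1 _ _).add (h1 _ _)
  obtain ⟨r1, h1⟩ := br_dvd (hLh 0) (Φ.hE 1) z z'
  obtain ⟨r2, h2⟩ := br_dvd (Φ.hE 0) (hLh 1) z z'
  obtain ⟨r3, h3⟩ := br_dvd (Φ.hE 0) (Φ.hE 1) z z'
  -- Frobenius part
  obtain ⟨r4, h4⟩ := exists_add_pow_prime_pow_eq hp (br z z') (z 1 * z' 0) s
  have h5 : br z z' + z 1 * z' 0 = z 0 * z' 1 := by simp [br]
  rw [h5, Φ.hp] at h4
  refine ⟨r1 + r2 + Φ.ϖ * r3 + Φ.g.det * (Φ.c * (z 1 * z' 0) * r4), ?_⟩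
  have ea : ∀ x : Fin 2 → A, ∀ i, Φ.act x i = eval x (L i) + Φ.ϖ * eval x (Φ.E i) := by
    intro x i
    simp [act_apply, hL]
  have e1 : br (Φ.act z) (Φ.act z') =
      (eval z (L 0) * eval z' (L 1) - eval z' (L 0) * eval z (L 1)) +
      Φ.ϖ * (eval z (L 0) * eval z' (Φ.E 1) - eval z' (L 0) * eval z (Φ.E 1)) +
      Φ.ϖ * (eval z (Φ.E 0) * eval z' (L 1) - eval z' (Φ.E 0) * eval z (L 1)) +
      Φ.ϖ * (Φ.ϖ * (eval z (Φ.E 0) * eval z' (Φ.E 1) - eval z' (Φ.E 0) * eval z (Φ.E 1))) := by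
    simp only [br, ea]; ring
  have e2 : eval z (L 0) * eval z' (L 1) - eval z' (L 0) * eval z (L 1) =
      Φ.g.det * ((z 0 * z' 1) ^ (p ^ s) - (z 1 * z' 0) ^ (p ^ s)) := by
    simp only [hL, map_add, map_mul, map_pow, eval_C, eval_X, Matrix.det_fin_two, mul_pow]
    ring
  rw [e1, e2, h1, h2, h3, h4]
  ring

end FF


section iter

variable {κ : Type} [CommRing κ] {p s : ℕ}

/-- the semilinear map attached to a matrix -/
def lin {R : Type} [CommRing R] (q : ℕ) (g : Matrix (Fin 2) (Fin 2) κ) (ψ : κ →+* R)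
    (z : Fin 2 → R) : Fin 2 → R := fun i => ψ (g i 0) * z 0 ^ q + ψ (g i 1) * z 1 ^ q

/-- the matrices of the iterates -/
def Gk (q : ℕ) (g : Matrix (Fin 2) (Fin 2) κ) : ℕ → Matrix (Fin 2) (Fin 2) κ
  | 0 => 1
  | k + 1 => g * (Gk q g k).map (fun x => x ^ q)

theorem lin_iter (hp : p.Prime) (g : Matrix (Fin 2) (Fin 2) κ) {R : Type} [CommRing R] [CharP R p]
    (ψ : κ →+* R) (k : ℕ) (z : Fin 2 → R) (i : Fin 2) :
    (lin (p ^ s) g ψ)^[k] z i =
      ψ (Gk (p ^ s) g k i 0) * z 0 ^ ((p ^ s) ^ k) + ψ (Gk (p ^ s) g k i 1) * z 1 ^ ((p ^ s) ^ k) := by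
  have : Fact p.Prime := ⟨hp⟩
  induction k generalizing i with
  | zero =>
    obtain rfl | rfl : i = 0 ∨ i = 1 := by fin_cases i <;> simp
    · simp [Gk]
    · simp [Gk]
  | succ k ih =>
    rw [Function.iterate_succ_apply']
    simp only [lin]
    rw [ih 0, ih 1, add_pow_char_pow, add_pow_char_pow]
    simp only [Gk, Matrix.mul_apply, Fin.sum_univ_two, Matrix.map_apply, map_add, map_mul, map_pow,
      mul_pow, ← pow_mul]
    ring

theorem Psi_iter [CharP κ p] (hp : p.Prime) (g h : Matrix (Fin 2) (Fin 2) κ) (k : ℕ) :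
    (fun h : Matrix (Fin 2) (Fin 2) κ => g * h.map (fun x => x ^ (p ^ s)))^[k] h =
      Gk (p ^ s) g k * h.map (fun x => x ^ ((p ^ s) ^ k)) := by
  have : Fact p.Prime := ⟨hp⟩
  induction k with
  | zero => simp [Gk]
  | succ k ih =>
    rw [Function.iterate_succ_apply', ih]
    have h1 : ∀ M : Matrix (Fin 2) (Fin 2) κ, M.map (fun x => x ^ (p ^ s)) =
      M.map (iterateFrobenius κ p s) := by
      intro M; ext i j; simp [iterateFrobenius_def]
    simp only [Gk]
    rw [h1, h1, Matrix.map_mul, ← mul_assoc]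
    congr 1
    ext i j
    simp [iterateFrobenius_def, ← pow_mul, pow_succ]

theorem exists_m [Finite κ] [IsDomain κ] [CharP κ p] (hp : p.Prime)
    (g ginv : Matrix (Fin 2) (Fin 2) κ) (hg : g * ginv = 1) :
    ∃ m : ℕ, 1 ≤ m ∧ (∀ a : κ, a ^ ((p ^ s) ^ m) = a) ∧
      ∀ (R : Type) [CommRing R] [CharP R p] (ψ : κ →+* R) (z : Fin 2 → R),
        (lin (p ^ s) g ψ)^[m] z = fun i => z i ^ ((p ^ s) ^ m) := by
  have : Fact p.Prime := ⟨hp⟩
  have hg' : ginv * g = 1 := mul_eq_one_comm.1 hg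
  set Ψ := (fun h : Matrix (Fin 2) (Fin 2) κ => g * h.map (fun x => x ^ (p ^ s))) with hΨ
  have hinj : Function.Injective Ψ := by
    intro h h' hh
    have h1 : g * h.map (fun x => x ^ (p ^ s)) = g * h'.map (fun x => x ^ (p ^ s)) := hh
    have h2 := congrArg (fun M => ginv * M) h1
    simp only [← mul_assoc, hg', one_mul] at h2
    ext i j
    have h3 := congrFun (congrFun h2 i) j
    simp only [Matrix.map_apply] at h3
    exact (iterateFrobenius_inj κ p s) (by simpa [iterateFrobenius_def] using h3)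
  set e := Equiv.ofBijective Ψ (Finite.injective_iff_bijective.1 hinj) with he
  obtain ⟨m, hm, hem⟩ := (isOfFinOrder_of_finite e).exists_pow_eq_one
  have hΨm : Ψ^[m] = id := by
    have h1 : (⇑(e ^ m) : _ → _) = Ψ^[m] := by
      rw [Equiv.Perm.coe_pow]; rfl
    rw [← h1, hem]; rfl
  have hid : ∀ h, Gk (p ^ s) g m * h.map (fun x => x ^ ((p ^ s) ^ m)) = h := by
    intro h
    rw [← Psi_iter hp g h m, ← hΨ, hΨm]; rfl
  have hq : (p ^ s) ^ m ≠ 0 := pow_ne_zero _ (pow_ne_zero _ hp.ne_zero)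
  have hG : Gk (p ^ s) g m = 1 := by
    have h1 := hid 1
    have h2 : (1 : Matrix (Fin 2) (Fin 2) κ).map (fun x => x ^ ((p ^ s) ^ m)) = 1 := by
      ext i j
      rw [Matrix.map_apply, Matrix.one_apply]
      split_ifs
      · exact one_pow _
      · exact zero_pow hq
    rwa [h2, mul_one] at h1
  refine ⟨m, hm, ?_, ?_⟩
  · intro a
    have h1 := hid (Matrix.of fun _ _ => a)
    rw [hG, one_mul] at h1
    exact congrFun (congrFun h1 0) 0
  · intro R _ _ ψ z
    ext i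
    rw [lin_iter hp, hG]
    obtain rfl | rfl : i = 0 ∨ i = 1 := by fin_cases i <;> simp
    · simp
    · simp

/-- consequences for all multiples of `m` -/
theorem pow_mult {κ : Type} [CommRing κ] {Q m k : ℕ} (h : ∀ a : κ, a ^ (Q ^ m) = a) (hk : m ∣ k)
    (a : κ) : a ^ (Q ^ k) = a := by
  obtain ⟨j, rfl⟩ := hk
  induction j with
  | zero => simp
  | succ j ih => rw [mul_add, mul_one, pow_add, pow_mul, ih, h]

theorem lin_mult {R : Type} [CommRing R] {Q m k : ℕ} {f : (Fin 2 → R) → (Fin 2 → R)}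
    (h : ∀ z, f^[m] z = fun i => z i ^ (Q ^ m)) (hk : m ∣ k) (z : Fin 2 → R) :
    f^[k] z = fun i => z i ^ (Q ^ k) := by
  obtain ⟨j, rfl⟩ := hk
  induction j generalizing z with
  | zero => simp
  | succ j ih =>
    rw [mul_add, mul_one, Function.iterate_add_apply, h, ih]
    ext i
    rw [← pow_mul, ← pow_add, add_comm]

end iter

/-- The polynomial lemma. -/
theorem theta {R : Type} [CommRing R] (φ : R →+* R) (Θ : MvPolynomial (Fin 2) R)
    (hΘ : MvPolynomial.map φ Θ = Θ) {Y : Type} (T : Finset Y) (y : Y → Fin 2 → R) (η : R)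
    (hP : ∏ t ∈ T, (C (y t 0) * X 1 - C (y t 1) * X 0) = C η * Θ) (x : Fin 2 → R)
    (hx : eval x Θ = 0) :
    ∏ t ∈ T, br (y t) (fun i => φ (x i)) = 0 ∧
      ∏ t ∈ T, br (fun i => φ (y t i)) x = 0 := by
  constructor
  · have h1 := congrArg (eval fun i => φ (x i)) hP
    rw [map_prod] at h1
    simp only [map_sub, map_mul, eval_C, eval_X] at h1
    have h2 : (eval fun i => φ (x i)) Θ = 0 := by
      conv_lhs => rw [← hΘ]
      rw [eval_map]
      have := congrArg φ hx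
      rw [map_zero, eval₂_comp] at this
      exact this
    rw [h2, mul_zero] at h1
    exact h1
  · have h1 := congrArg (MvPolynomial.map φ) hP
    rw [map_prod] at h1
    simp only [map_sub, map_mul, map_C, map_X] at h1
    rw [hΘ] at h1
    have h2 := congrArg (eval x) h1
    rw [map_prod] at h2
    simp only [map_sub, map_mul, eval_C, eval_X, hx, mul_zero] at h2
    exact h2

end Pool.DynLehmer
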