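import Mathlib

set_option autoImplicit false
set_option linter.deprecated false

/-!
# Finite places above a given finite place
-/

namespace Pool.DynLehmer

open NumberField IsDedekindDomain WithZeroMulInt
open scoped Classical NNReal

theorem toNNReal_pow_base {b : ℝ≥0} (hb : b ≠ 0) (f : ℕ) (hf : f ≠ 0)
    (hbf : b ^ f ≠ 0) (x : WithZero (Multiplicative ℤ)) :
    toNNReal hbf x = (toNNReal hb x) ^ f := by
  rcases eq_or_ne x 0 with rfl | hx
  · simp [hf]
  · rw [toNNReal_neg_apply _ hx, toNNReal_neg_apply _ hx, ← zpow_natCast, ← zpow_natCast,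
      ← zpow_mul, ← zpow_mul, mul_comm]

variable {K : Type*} [Field K] [NumberField K] {N : Type*} [Field N] [NumberField N] [Algebra K N]

theorem mk_liesOver (v : HeightOneSpectrum (𝓞 K)) (P : HeightOneSpectrum (𝓞 N))
    [P.asIdeal.LiesOver v.asIdeal] (a : K) :
    FinitePlace.mk P (algebraMap K N a) =
      (FinitePlace.mk v a) ^ (Ideal.ramificationIdx' v.asIdeal P.asIdeal *
        Ideal.inertiaDeg' v.asIdeal P.asIdeal) := by
  have := v.isMaximal
  have := P.isMaximal
  rw [FinitePlace.mk_apply, FinitePlace.mk_apply, FinitePlace.norm_embedding',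
    FinitePlace.norm_embedding', ← HeightOneSpectrum.valuation_liesOver N v P a]
  have h1 := Ideal.absNorm_eq_pow_inertiaDeg'_of_liesOver P.asIdeal v.asIdeal v.isPrime v.ne_bot
  have hf : Ideal.inertiaDeg' v.asIdeal P.asIdeal ≠ 0 := Ideal.inertiaDeg'_ne_zero _ _
  have h2 : (Ideal.absNorm P.asIdeal : ℝ≥0) =
      (Ideal.absNorm v.asIdeal : ℝ≥0) ^ (Ideal.inertiaDeg' v.asIdeal P.asIdeal) := by
    rw [h1]; push_cast; rfl
  have h3 : ∀ x, toNNReal (HeightOneSpectrum.absNorm_ne_zero P) x =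
      (toNNReal (HeightOneSpectrum.absNorm_ne_zero v) x) ^
        (Ideal.inertiaDeg' v.asIdeal P.asIdeal) := by
    intro x
    rw [← toNNReal_pow_base (HeightOneSpectrum.absNorm_ne_zero v) _ hf
      (by rw [← h2]; exact HeightOneSpectrum.absNorm_ne_zero P) x]
    congr 1
    congr 1
  rw [h3, map_pow]
  push_cast
  rw [← pow_mul]

/-- The finite places of `N` above a finite place of `K`. -/
theorem places_above (v : HeightOneSpectrum (𝓞 K)) :
    ∃ (S : Finset (FinitePlace N)) (e : FinitePlace N → ℕ), (∀ w ∈ S, 0 < e w) ∧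
      (∀ w ∈ S, ∀ a : K, w (algebraMap K N a) = (FinitePlace.mk v a) ^ (e w)) ∧
      ∑ w ∈ S, e w = Module.finrank K N := by
  have := v.isMaximal
  set T := IsDedekindDomain.primesOverFinset v.asIdeal (𝓞 N) with hT
  have hmem : ∀ P ∈ T, P.IsPrime ∧ P.LiesOver v.asIdeal := fun P hP =>
    (IsDedekindDomain.mem_primesOverFinset_iff v.ne_bot _).1 hP
  have hne : ∀ P ∈ T, P ≠ ⊥ := by
    intro P hP
    have h1 := (hmem P hP).2
    exact Ideal.ne_bot_of_liesOver_of_ne_bot v.ne_bot P
  set Φ : {P // P ∈ T} → FinitePlace N := fun P =>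
    FinitePlace.mk ⟨P.1, (hmem P.1 P.2).1, hne P.1 P.2⟩ with hΦ
  have hinj : Function.Injective Φ := by
    intro P Q h
    have h1 := FinitePlace.mk_eq_iff.1 h
    exact Subtype.ext (congrArg HeightOneSpectrum.asIdeal h1)
  set e : FinitePlace N → ℕ := fun w =>
    Ideal.ramificationIdx' v.asIdeal w.maximalIdeal.asIdeal *
      Ideal.inertiaDeg' v.asIdeal w.maximalIdeal.asIdeal with he
  refine ⟨T.attach.image Φ, e, ?_, ?_, ?_⟩
  · intro w hw
    obtain ⟨P, _, rfl⟩ := Finset.mem_image.1 hw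
    have h1 := (hmem P.1 P.2).1
    have h2 := (hmem P.1 P.2).2
    simp only [he, hΦ, FinitePlace.maximalIdeal_mk]
    exact Nat.mul_pos (Nat.pos_of_ne_zero
      (Ideal.IsDedekindDomain.ramificationIdx'_ne_zero_of_liesOver _ v.ne_bot))
      (Nat.pos_of_ne_zero (Ideal.inertiaDeg'_ne_zero _ _))
  · intro w hw a
    obtain ⟨P, _, rfl⟩ := Finset.mem_image.1 hw
    have h1 := (hmem P.1 P.2).1
    have h2 := (hmem P.1 P.2).2
    simp only [he, hΦ, FinitePlace.maximalIdeal_mk]
    have h3 : (⟨P.1, (hmem P.1 P.2).1, hne P.1 P.2⟩ : HeightOneSpectrum (𝓞 N)).asIdeal.LiesOver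
      v.asIdeal := h2
    exact mk_liesOver v _ a
  · rw [Finset.sum_image (fun P _ Q _ h => hinj h)]
    simp only [he, hΦ, FinitePlace.maximalIdeal_mk]
    rw [Finset.sum_attach T (fun P => Ideal.ramificationIdx' v.asIdeal P *
      Ideal.inertiaDeg' v.asIdeal P)]
    exact Ideal.sum_ramification_inertia (𝓞 N) K N v.ne_bot

/-! ### valuation rings and residue rings -/

theorem mk_le_iff (v : HeightOneSpectrum (𝓞 K)) (x y : K) :
    FinitePlace.mk v x ≤ FinitePlace.mk v y ↔ v.valuation K x ≤ v.valuation K y := by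
  rw [FinitePlace.mk_apply, FinitePlace.mk_apply, FinitePlace.norm_embedding',
    FinitePlace.norm_embedding', NNReal.coe_le_coe]
  exact (toNNReal_strictMono (HeightOneSpectrum.one_lt_absNorm_nnreal v)).le_iff_le

theorem mk_lt_iff (v : HeightOneSpectrum (𝓞 K)) (x y : K) :
    FinitePlace.mk v x < FinitePlace.mk v y ↔ v.valuation K x < v.valuation K y := by
  rw [← not_le, ← not_le, mk_le_iff]

theorem mk_le_one_iff (v : HeightOneSpectrum (𝓞 K)) (x : K) :
    FinitePlace.mk v x ≤ 1 ↔ v.valuation K x ≤ 1 := by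
  have := mk_le_iff v x 1
  simpa using this

theorem mk_lt_one_iff (v : HeightOneSpectrum (𝓞 K)) (x : K) :
    FinitePlace.mk v x < 1 ↔ v.valuation K x < 1 := by
  have := mk_lt_iff v x 1
  simpa using this

/-- existence of a uniformizer -/
theorem exists_unif (v : FinitePlace K) :
    ∃ ϖ : K, ϖ ≠ 0 ∧ v ϖ < 1 ∧ ∀ a, v a < 1 → v a ≤ v ϖ := by
  obtain ⟨v, rfl⟩ : ∃ v', v = FinitePlace.mk v' := ⟨_, (FinitePlace.mk_maximalIdeal v).symm⟩
  obtain ⟨ϖ, hϖ⟩ := v.valuation_exists_uniformizer K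
  refine ⟨ϖ, ?_, ?_, ?_⟩
  · rintro rfl
    rw [map_zero] at hϖ
    exact WithZero.coe_ne_zero hϖ.symm
  · rw [mk_lt_one_iff, hϖ, ← WithZero.exp_zero, WithZero.exp_lt_exp]
    norm_num
  · intro a ha
    rw [mk_lt_one_iff] at ha
    rw [mk_le_iff, hϖ]
    rcases eq_or_ne (v.valuation K a) 0 with h0 | h0
    · rw [h0]; exact zero_le'
    · rw [← WithZero.exp_log h0, ← WithZero.exp_zero, WithZero.exp_lt_exp] at ha
      rw [← WithZero.exp_log h0, WithZero.exp_le_exp]
      omega

theorem approx (v : FinitePlace K) {x : K} (hx : v x ≤ 1) : ∃ a : 𝓞 K, v (x - a) < 1 := by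
  obtain ⟨v, rfl⟩ : ∃ v', v = FinitePlace.mk v' := ⟨_, (FinitePlace.mk_maximalIdeal v).symm⟩
  rw [mk_le_one_iff] at hx
  obtain ⟨a, ha⟩ := v.exists_valuation_sub_lt_of_integer hx 1
  refine ⟨a, ?_⟩
  rw [mk_lt_one_iff, Valuation.map_sub_swap]
  exact ha

/-- the valuation ring of a finite place, as a subring -/
noncomputable def OW (w : FinitePlace K) : Subring K where
  carrier := {x | w x ≤ 1}
  mul_mem' := by
    intro a b ha hb
    simp only [Set.mem_setOf_eq, map_mul] at *
    exact mul_le_one₀ ha (apply_nonneg w b) hb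
  one_mem' := by simp
  add_mem' := by
    intro a b ha hb
    exact (FinitePlace.add_le w a b).trans (max_le ha hb)
  zero_mem' := by simp
  neg_mem' := by
    intro a ha
    simp only [Set.mem_setOf_eq] at *
    rwa [map_neg_eq_map]

theorem mem_OW {w : FinitePlace K} {x : K} : x ∈ OW w ↔ w x ≤ 1 := Iff.rfl

/-- the ideal of elements of absolute value at most `c` -/
noncomputable def IW (w : FinitePlace K) (c : ℝ) (hc : 0 ≤ c) : Ideal (OW w) where
  carrier := {x | w (x : K) ≤ c}
  add_mem' := by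
    intro a b ha hb
    exact (FinitePlace.add_le w a b).trans (max_le ha hb)
  zero_mem' := by simp [hc]
  smul_mem' := by
    intro a b hb
    simp only [Set.mem_setOf_eq, smul_eq_mul, Subring.coe_mul, map_mul] at *
    calc w (a : K) * w (b : K) ≤ 1 * w (b : K) :=
          mul_le_mul_of_nonneg_right a.2 (apply_nonneg w _)
      _ ≤ c := by rw [one_mul]; exact hb

theorem mem_IW {w : FinitePlace K} {c : ℝ} {hc : 0 ≤ c} {x : OW w} :
    x ∈ IW w c hc ↔ w (x : K) ≤ c := Iff.rfl

/-- the maximal ideal -/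
noncomputable def MW (w : FinitePlace K) : Ideal (OW w) where
  carrier := {x | w (x : K) < 1}
  add_mem' := by
    intro a b ha hb
    exact (FinitePlace.add_le w a b).trans_lt (max_lt ha hb)
  zero_mem' := by simp
  smul_mem' := by
    intro a b hb
    simp only [Set.mem_setOf_eq, smul_eq_mul, Subring.coe_mul, map_mul] at *
    calc w (a : K) * w (b : K) ≤ 1 * w (b : K) :=
          mul_le_mul_of_nonneg_right a.2 (apply_nonneg w _)
      _ < 1 := by rw [one_mul]; exact hb

theorem mem_MW {w : FinitePlace K} {x : OW w} : x ∈ MW w ↔ w (x : K) < 1 := Iff.rfl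

theorem int_le_one (w : FinitePlace K) (a : 𝓞 K) : w (a : K) ≤ 1 := by
  rw [← FinitePlace.norm_embedding_eq]
  exact FinitePlace.norm_le_one K w.maximalIdeal a

/-- finite residue field -/
instance finite_res (w : FinitePlace K) : Finite (OW w ⧸ MW w) := by
  set P := w.maximalIdeal.asIdeal with hP
  have hfin : Finite (𝓞 K ⧸ P) := Ideal.finiteQuotientOfFreeOfNeBot _ w.maximalIdeal.ne_bot
  let j : 𝓞 K →+* OW w := (algebraMap (𝓞 K) K).codRestrict (OW w) fun a => int_le_one w a
  let φ : 𝓞 K →+* OW w ⧸ MW w := (Ideal.Quotient.mk (MW w)).comp j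
  have hker : ∀ a ∈ P, φ a = 0 := by
    intro a ha
    change Ideal.Quotient.mk (MW w) (j a) = 0
    rw [Ideal.Quotient.eq_zero_iff_mem, mem_MW]
    have := (FinitePlace.norm_lt_one_iff_mem K w.maximalIdeal a).2 ha
    rwa [FinitePlace.norm_embedding_eq] at this
  refine Finite.of_surjective (Ideal.Quotient.lift P φ hker) ?_
  apply Ideal.Quotient.lift_surjective_of_surjective
  intro y
  obtain ⟨x, rfl⟩ := Ideal.Quotient.mk_surjective y
  obtain ⟨a, ha⟩ := approx w x.2
  refine ⟨a, ?_⟩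
  change Ideal.Quotient.mk (MW w) (j a) = _
  rw [Ideal.Quotient.mk_eq_mk_iff_sub_mem, mem_MW]
  rw [← map_neg_eq_map w] at ha
  convert ha using 2
  simp [j]

end Pool.DynLehmer
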