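import Mathlib
import Pool.Agent.Lib.MP_2194ec_nt.Frob
import Pool.Agent.Lib.MP_2194ec_nt.Places

set_option autoImplicit false

/-!
# Local distances on the projective line
-/

namespace Pool.DynLehmer
open NumberField MvPolynomial
open scoped Classical

section nrm

variable {N : Type} [Field N] [NumberField N] (w : FinitePlace N)

/-- sup norm -/
noncomputable def nrm (z : Fin 2 → N) : ℝ := ⨆ i, w (z i)

theorem nrm_eq (z : Fin 2 → N) : nrm w z = max (w (z 0)) (w (z 1)) := by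
  apply le_antisymm
  · apply ciSup_le
    intro i
    fin_cases i
    · exact le_max_left _ _
    · exact le_max_right _ _
  · exact max_le (Finite.le_ciSup (fun i => w (z i)) 0) (Finite.le_ciSup (fun i => w (z i)) 1)

theorem le_nrm (z : Fin 2 → N) (i : Fin 2) : w (z i) ≤ nrm w z :=
  Finite.le_ciSup (fun i => w (z i)) i

theorem nrm_nonneg (z : Fin 2 → N) : 0 ≤ nrm w z := (apply_nonneg w _).trans (le_nrm w z 0)

theorem exists_nrm (z : Fin 2 → N) : ∃ i, w (z i) = nrm w z := by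
  rw [nrm_eq]
  rcases max_choice (w (z 0)) (w (z 1)) with h | h
  · exact ⟨0, h.symm⟩
  · exact ⟨1, h.symm⟩

theorem nrm_pos {z : Fin 2 → N} (hz : z ≠ 0) : 0 < nrm w z := by
  obtain ⟨i, hi⟩ := Function.ne_iff.1 hz
  exact (FinitePlace.pos_iff.2 hi).trans_le (le_nrm w z i)

theorem nrm_smul (c : N) (z : Fin 2 → N) : nrm w (c • z) = w c * nrm w z := by
  rw [nrm_eq, nrm_eq, mul_max_of_nonneg _ _ (apply_nonneg w c)]
  simp

omit [NumberField N] in
theorem br_smul_smul (a b : N) (z z' : Fin 2 → N) : br (a • z) (b • z') = a * b * br z z' := by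
  simp only [br, Pi.smul_apply, smul_eq_mul]; ring

theorem w_br_le (z z' : Fin 2 → N) : w (br z z') ≤ nrm w z * nrm w z' := by
  have h1 : w (z 0 * z' 1) ≤ nrm w z * nrm w z' := by
    rw [map_mul]
    exact mul_le_mul (le_nrm w z 0) (le_nrm w z' 1) (apply_nonneg w _) (nrm_nonneg w z)
  have h2 : w (z 1 * z' 0) ≤ nrm w z * nrm w z' := by
    rw [map_mul]
    exact mul_le_mul (le_nrm w z 1) (le_nrm w z' 0) (apply_nonneg w _) (nrm_nonneg w z)
  unfold br
  rw [sub_eq_add_neg]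
  refine (FinitePlace.add_le w _ _).trans (max_le h1 ?_)
  rwa [map_neg_eq_map]

/-- chordal distance -/
noncomputable def dw (z z' : Fin 2 → N) : ℝ := w (br z z') / (nrm w z * nrm w z')

theorem dw_nonneg (z z' : Fin 2 → N) : 0 ≤ dw w z z' :=
  div_nonneg (apply_nonneg w _) (mul_nonneg (nrm_nonneg w _) (nrm_nonneg w _))

theorem dw_le_one (z z' : Fin 2 → N) : dw w z z' ≤ 1 :=
  div_le_one_of_le₀ (w_br_le w z z') (mul_nonneg (nrm_nonneg w _) (nrm_nonneg w _))

omit [NumberField N] in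
theorem br_symm' (z z' : Fin 2 → N) : br z' z = - br z z' := by simp [br]; ring

theorem dw_symm (z z' : Fin 2 → N) : dw w z z' = dw w z' z := by
  unfold dw
  rw [br_symm', map_neg_eq_map, mul_comm]

theorem dw_smul {a b : N} (ha : a ≠ 0) (hb : b ≠ 0) (z z' : Fin 2 → N) :
    dw w (a • z) (b • z') = dw w z z' := by
  unfold dw
  rw [br_smul_smul, nrm_smul, nrm_smul, map_mul, map_mul]
  have h1 : 0 < w a := FinitePlace.pos_iff.2 ha
  have h2 : 0 < w b := FinitePlace.pos_iff.2 hb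
  rw [show w a * nrm w z * (w b * nrm w z') = (w a * w b) * (nrm w z * nrm w z') by ring,
    mul_div_mul_left _ _ (by positivity)]

theorem dw_pos_iff {z z' : Fin 2 → N} (hz : z ≠ 0) (hz' : z' ≠ 0) :
    0 < dw w z z' ↔ br z z' ≠ 0 := by
  unfold dw
  have h1 := nrm_pos w hz
  have h2 := nrm_pos w hz'
  rw [div_pos_iff_of_pos_right (by positivity), FinitePlace.pos_iff]

theorem dw_ultra {x y z : Fin 2 → N} (hx : x ≠ 0) (hy : y ≠ 0) (hz : z ≠ 0) :
    dw w x z ≤ max (dw w x y) (dw w y z) := by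
  have h1 := nrm_pos w hx
  have h2 := nrm_pos w hy
  have h3 := nrm_pos w hz
  obtain ⟨i, hi⟩ := exists_nrm w y
  have key : y i * br x z = x i * br y z + z i * br x y := by
    fin_cases i <;> simp [br] <;> ring
  have h4 : nrm w y * w (br x z) ≤ max (nrm w x * w (br y z)) (nrm w z * w (br x y)) := by
    rw [← hi, ← map_mul, key]
    refine (FinitePlace.add_le w _ _).trans ?_
    rw [map_mul, map_mul]
    apply max_le_max
    · exact mul_le_mul_of_nonneg_right (le_nrm w x i) (apply_nonneg w _)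
    · exact mul_le_mul_of_nonneg_right (le_nrm w z i) (apply_nonneg w _)
  rcases le_max_iff.1 h4 with h | h
  · refine le_max_of_le_right ?_
    unfold dw
    rw [div_le_div_iff₀ (by positivity) (by positivity)]
    nlinarith
  · refine le_max_of_le_left ?_
    unfold dw
    rw [div_le_div_iff₀ (by positivity) (by positivity)]
    nlinarith

/-- primitive representative -/
theorem exists_prim {z : Fin 2 → N} (hz : z ≠ 0) :
    ∃ (c : N) (zh : Fin 2 → OW w), c ≠ 0 ∧ w c = nrm w z ∧ (z = c • fun i => (zh i : N)) ∧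
      ∃ i, zh i = 1 := by
  obtain ⟨i, hi⟩ := exists_nrm w z
  have hpos := nrm_pos w hz
  have hc : z i ≠ 0 := by rw [← FinitePlace.pos_iff (w := w), hi]; exact hpos
  refine ⟨z i, fun j => ⟨z j / z i, ?_⟩, hc, hi, ?_, i, ?_⟩
  · rw [mem_OW, map_div₀, hi]
    exact div_le_one_of_le₀ (le_nrm w z j) hpos.le
  · ext j
    simp only [Pi.smul_apply, smul_eq_mul]
    rw [mul_div_cancel₀ _ hc]
  · ext
    simp [div_self hc]

theorem nrm_prim {zh : Fin 2 → OW w} {i : Fin 2} (hi : zh i = 1) :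
    nrm w (fun j => (zh j : N)) = 1 := by
  apply le_antisymm
  · rw [nrm_eq]
    exact max_le (zh 0).2 (zh 1).2
  · have := le_nrm w (fun j => (zh j : N)) i
    simpa [hi] using this

end nrm


section dyn

variable {K : Type} [Field K] [NumberField K] {N : Type} [Field N] [NumberField N] [Algebra K N]
variable {p s : ℕ}

/-- the embedding of the valuation ring of `v` -/
noncomputable def toN (v : FinitePlace K) (N : Type) [Field N] [NumberField N] [Algebra K N] :
    OW v →+* N := (algebraMap K N).comp (OW v).subtype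

/-- `w` lies above `v` -/
def Above (v : FinitePlace K) (w : FinitePlace N) (e : ℕ) : Prop :=
  0 < e ∧ ∀ a : K, w (algebraMap K N a) = (v a) ^ e

theorem Above.le_one {v : FinitePlace K} {w : FinitePlace N} {e : ℕ} (h : Above v w e)
    (a : OW v) : w (toN v N a) ≤ 1 := by
  change w (algebraMap K N (a : K)) ≤ 1
  rw [h.2]
  exact pow_le_one₀ (apply_nonneg v _) a.2

/-- the embedding of valuation rings -/
noncomputable def toOW {v : FinitePlace K} {w : FinitePlace N} {e : ℕ} (h : Above v w e) :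
    OW v →+* OW w := (toN v N).codRestrict (OW w) fun a => h.le_one a

theorem toOW_coe {v : FinitePlace K} {w : FinitePlace N} {e : ℕ} (h : Above v w e) (a : OW v) :
    ((toOW h a : OW w) : N) = toN v N a := rfl

theorem subtype_comp_toOW {v : FinitePlace K} {w : FinitePlace N} {e : ℕ} (h : Above v w e) :
    (OW w).subtype.comp (toOW h) = toN v N := by ext a; rfl

theorem FF.map_map_act {A B D : Type*} [CommRing A] [CommRing B] [CommRing D] (Φ : FF A p s)
    (a : A →+* B) (b : B →+* D) (z : Fin 2 → D) :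
    ((Φ.map a).map b).act z = (Φ.map (b.comp a)).act z := by
  ext i
  simp only [FF.act, FF.map_F, MvPolynomial.map_map]

theorem FF.map_map_act' {A B D : Type*} [CommRing A] [CommRing B] [CommRing D] (Φ : FF A p s)
    (a : A →+* B) (b : B →+* D) : ((Φ.map a).map b).act = (Φ.map (b.comp a)).act :=
  funext fun z => Φ.map_map_act a b z

variable {v : FinitePlace K} {w : FinitePlace N} {e : ℕ} (Φ : FF (OW v) p s)

theorem coe_act (h : Above v w e) (z : Fin 2 → OW w) :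
    (fun i => (((Φ.map (toOW h)).act z i : OW w) : N)) =
      (Φ.map (toN v N)).act (fun i => (z i : N)) := by
  ext i
  have h1 := (Φ.map (toOW h)).map_act (OW w).subtype z i
  rw [FF.map_map_act, subtype_comp_toOW] at h1
  exact h1

theorem coe_act_iter (h : Above v w e) (k : ℕ) (z : Fin 2 → OW w) :
    (fun i => (((Φ.map (toOW h)).act^[k] z i : OW w) : N)) =
      (Φ.map (toN v N)).act^[k] (fun i => (z i : N)) := by
  have h1 := (Φ.map (toOW h)).map_act_iter (OW w).subtype k z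
  rw [FF.map_map_act', subtype_comp_toOW] at h1
  exact h1

theorem w_unif (h : Above v w e) (hϖ : v (Φ.ϖ : K) < 1) : w (toN v N Φ.ϖ) < 1 := by
  change w (algebraMap K N (Φ.ϖ : K)) < 1
  rw [h.2]
  exact pow_lt_one₀ (apply_nonneg v _) hϖ h.1.ne'

theorem nrm_act_prim (h : Above v w e) (hϖ : v (Φ.ϖ : K) < 1) (_hq : p ^ s ≠ 0)
    (zh : Fin 2 → OW w) (i : Fin 2) (hi : zh i = 1) :
    nrm w (fun j => (((Φ.map (toOW h)).act zh j : OW w) : N)) = 1 := by
  set Ψ := Φ.map (toOW h) with hΨ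
  by_contra hne
  have hlt : nrm w (fun j => ((Ψ.act zh j : OW w) : N)) < 1 := by
    refine lt_of_le_of_ne ?_ hne
    rw [nrm_eq]
    exact max_le (Ψ.act zh 0).2 (Ψ.act zh 1).2
  have hmem : ∀ j, Ψ.act zh j ∈ MW w := fun j =>
    (le_nrm w (fun j => ((Ψ.act zh j : OW w) : N)) j).trans_lt hlt
  have hϖm : Ψ.ϖ ∈ MW w := w_unif Φ h hϖ
  have hgg : Ψ.ginv * Ψ.g = 1 := mul_eq_one_comm.1 Ψ.gg
  have key : ∑ j, Ψ.ginv i j * Ψ.act zh j =
      zh i ^ (p ^ s) + Ψ.ϖ * ∑ j, Ψ.ginv i j * eval zh (Ψ.E j) := by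
    have h0 : ∀ k, ∑ j, Ψ.ginv i j * Ψ.g j k = if i = k then 1 else 0 := by
      intro k
      have := congrFun (congrFun hgg i) k
      rwa [Matrix.mul_apply, Matrix.one_apply] at this
    have h00 := h0 0
    have h01 := h0 1
    simp only [Fin.sum_univ_two] at h00 h01 ⊢
    rw [Ψ.act_apply, Ψ.act_apply]
    have e1 : Ψ.ginv i 0 * (Ψ.g 0 0 * zh 0 ^ p ^ s + Ψ.g 0 1 * zh 1 ^ p ^ s +
        Ψ.ϖ * (eval zh) (Ψ.E 0)) + Ψ.ginv i 1 * (Ψ.g 1 0 * zh 0 ^ p ^ s +
        Ψ.g 1 1 * zh 1 ^ p ^ s + Ψ.ϖ * (eval zh) (Ψ.E 1)) =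
        (Ψ.ginv i 0 * Ψ.g 0 0 + Ψ.ginv i 1 * Ψ.g 1 0) * zh 0 ^ p ^ s +
        (Ψ.ginv i 0 * Ψ.g 0 1 + Ψ.ginv i 1 * Ψ.g 1 1) * zh 1 ^ p ^ s +
        Ψ.ϖ * (Ψ.ginv i 0 * (eval zh) (Ψ.E 0) + Ψ.ginv i 1 * (eval zh) (Ψ.E 1)) := by ring
    rw [e1, h00, h01]
    obtain rfl | rfl : i = 0 ∨ i = 1 := by fin_cases i <;> simp
    · simp
    · simp
  rw [hi, one_pow] at key
  have h1 : (1 : OW w) ∈ MW w := by
    have h2 : (1 : OW w) = ∑ j, Ψ.ginv i j * Ψ.act zh j -
        Ψ.ϖ * ∑ j, Ψ.ginv i j * eval zh (Ψ.E j) := by rw [key]; ring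
    rw [h2]
    exact (MW w).sub_mem ((MW w).sum_mem fun j _ => (MW w).mul_mem_left _ (hmem j))
      ((MW w).mul_mem_right _ hϖm)
  rw [mem_MW] at h1
  simp at h1

/-- good reduction -/
theorem nrm_act (h : Above v w e) (hϖ : v (Φ.ϖ : K) < 1) (hq : p ^ s ≠ 0) (z : Fin 2 → N)
    (hz : z ≠ 0) : nrm w ((Φ.map (toN v N)).act z) = nrm w z ^ (p ^ s) := by
  obtain ⟨c, zh, hc, hcn, hzz, i, hi⟩ := exists_prim w hz
  have h1 := nrm_act_prim Φ h hϖ hq zh i hi
  rw [coe_act] at h1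
  rw [hzz, FF.act_smul, nrm_smul, h1, nrm_smul, nrm_prim w hi, map_pow, mul_one, mul_one]

theorem act_ne_zero (h : Above v w e) (hϖ : v (Φ.ϖ : K) < 1) (hq : p ^ s ≠ 0) (z : Fin 2 → N)
    (hz : z ≠ 0) : (Φ.map (toN v N)).act z ≠ 0 := by
  intro h0
  have h1 := nrm_act Φ h hϖ hq z hz
  rw [h0] at h1
  have h2 : nrm w (0 : Fin 2 → N) = 0 := by rw [nrm_eq]; simp
  rw [h2] at h1
  exact (pow_pos (nrm_pos w hz) _).ne h1

theorem act_iter_ne_zero (h : Above v w e) (hϖ : v (Φ.ϖ : K) < 1) (hq : p ^ s ≠ 0) (k : ℕ)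
    (z : Fin 2 → N) (hz : z ≠ 0) : (Φ.map (toN v N)).act^[k] z ≠ 0 := by
  induction k with
  | zero => exact hz
  | succ k ih =>
    rw [Function.iterate_succ_apply']
    exact act_ne_zero Φ h hϖ hq _ ih

theorem nrm_act_iter (h : Above v w e) (hϖ : v (Φ.ϖ : K) < 1) (hq : p ^ s ≠ 0) (k : ℕ)
    (z : Fin 2 → N) (hz : z ≠ 0) :
    nrm w ((Φ.map (toN v N)).act^[k] z) = nrm w z ^ ((p ^ s) ^ k) := by
  induction k with
  | zero => simp
  | succ k ih =>
    rw [Function.iterate_succ_apply', nrm_act Φ h hϖ hq _ (act_iter_ne_zero Φ h hϖ hq k z hz), ih,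
      ← pow_mul, ← pow_succ]

/-- distances of primitive vectors -/
theorem dw_prim {z z' : Fin 2 → OW w} {i i' : Fin 2} (hi : z i = 1) (hi' : z' i' = 1) :
    dw w (fun j => (z j : N)) (fun j => (z' j : N)) = w ((br z z' : OW w) : N) := by
  unfold dw
  rw [nrm_prim w hi, nrm_prim w hi', mul_one, div_one]
  rfl

theorem w_det (Ψ : FF (OW w) p s) : w ((Ψ.g.det : OW w) : N) = 1 := by
  have h1 : Ψ.g.det * Ψ.ginv.det = 1 := by rw [← Matrix.det_mul, Ψ.gg, Matrix.det_one]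
  have h2 := congrArg (fun x : OW w => w (x : N)) h1
  simp only [Subring.coe_mul, map_mul, Subring.coe_one, map_one] at h2
  have h3 := (Ψ.g.det).2
  have h4 := (Ψ.ginv.det).2
  rw [mem_OW] at h3 h4
  have h5 : 0 ≤ w ((Ψ.g.det : OW w) : N) := apply_nonneg w _
  nlinarith

/-- contraction and injectivity for primitive vectors -/
theorem dw_act_prim (h : Above v w e) (hϖ : v (Φ.ϖ : K) < 1) (hp : p.Prime)
    (z z' : Fin 2 → OW w) :
    w ((br ((Φ.map (toOW h)).act z) ((Φ.map (toOW h)).act z') : OW w) : N) ≤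
      max ((w ((br z z' : OW w) : N)) ^ (p ^ s)) (w (toN v N Φ.ϖ) * w ((br z z' : OW w) : N)) ∧
    (w ((br z z' : OW w) : N) = 1 →
      w ((br ((Φ.map (toOW h)).act z) ((Φ.map (toOW h)).act z') : OW w) : N) = 1) := by
  set Ψ := Φ.map (toOW h) with hΨ
  obtain ⟨r, hr⟩ := Ψ.br_act hp z z'
  have hϖw : ((Ψ.ϖ : OW w) : N) = toN v N Φ.ϖ := rfl
  have hdet := w_det Ψ
  have hA : w (((Ψ.g.det * br z z' ^ p ^ s : OW w)) : N) = (w ((br z z' : OW w) : N)) ^ (p ^ s) := by
    rw [Subring.coe_mul, map_mul, hdet, one_mul, Subring.coe_pow, map_pow]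
  have hB : w (((Ψ.ϖ * (br z z' * r) : OW w)) : N) ≤
      w (toN v N Φ.ϖ) * w ((br z z' : OW w) : N) := by
    rw [Subring.coe_mul, map_mul, hϖw, Subring.coe_mul, map_mul]
    have h1 := r.2
    rw [mem_OW] at h1
    have h2 : 0 ≤ w ((br z z' : OW w) : N) := apply_nonneg w _
    have h3 : 0 ≤ w (toN v N Φ.ϖ) := apply_nonneg w _
    apply mul_le_mul_of_nonneg_left _ h3
    nlinarith
  rw [hr, Subring.coe_add]
  constructor
  · refine (FinitePlace.add_le w _ _).trans ?_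
    exact max_le_max hA.le hB
  · intro h1
    rw [h1, one_pow] at hA
    rw [h1, mul_one] at hB
    have hlt := hB.trans_lt (w_unif Φ h hϖ)
    set a := (((Ψ.g.det * br z z' ^ p ^ s : OW w)) : N)
    set b := (((Ψ.ϖ * (br z z' * r) : OW w)) : N)
    apply le_antisymm
    · exact (FinitePlace.add_le w _ _).trans (max_le hA.le hlt.le)
    · by_contra hcon
      push Not at hcon
      have h2 : w a ≤ max (w (a + b)) (w (-b)) := by
        have := FinitePlace.add_le w (a + b) (-b)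
        rwa [add_neg_cancel_right] at this
      rw [map_neg_eq_map, hA] at h2
      exact absurd (h2.trans_lt (max_lt hcon hlt)) (lt_irrefl _)

theorem dw_act_aux (h : Above v w e) (hϖ : v (Φ.ϖ : K) < 1) (hp : p.Prime) (z z' : Fin 2 → N)
    (hz : z ≠ 0) (hz' : z' ≠ 0) :
    dw w ((Φ.map (toN v N)).act z) ((Φ.map (toN v N)).act z') ≤
      max ((dw w z z') ^ (p ^ s)) (w (toN v N Φ.ϖ) * dw w z z') ∧
    (dw w z z' = 1 → dw w ((Φ.map (toN v N)).act z) ((Φ.map (toN v N)).act z') = 1) := by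
  have hq : p ^ s ≠ 0 := pow_ne_zero _ hp.ne_zero
  obtain ⟨c, zh, hc, hcn, hzz, i, hi⟩ := exists_prim w hz
  obtain ⟨c', zh', hc', hcn', hzz', i', hi'⟩ := exists_prim w hz'
  have h1 : dw w z z' = w ((br zh zh' : OW w) : N) := by
    rw [hzz, hzz', dw_smul w hc hc', dw_prim hi hi']
  have h2 : dw w ((Φ.map (toN v N)).act z) ((Φ.map (toN v N)).act z') =
      w ((br ((Φ.map (toOW h)).act zh) ((Φ.map (toOW h)).act zh') : OW w) : N) := by
    rw [hzz, hzz', FF.act_smul, FF.act_smul, dw_smul w (pow_ne_zero _ hc) (pow_ne_zero _ hc'),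
      ← coe_act Φ h, ← coe_act Φ h]
    unfold dw
    rw [nrm_act_prim Φ h hϖ hq zh i hi, nrm_act_prim Φ h hϖ hq zh' i' hi', mul_one, div_one]
    rfl
  rw [h1, h2]
  exact dw_act_prim Φ h hϖ hp zh zh'

theorem dw_act (h : Above v w e) (hϖ : v (Φ.ϖ : K) < 1) (hp : p.Prime) (z z' : Fin 2 → N)
    (hz : z ≠ 0) (hz' : z' ≠ 0) :
    dw w ((Φ.map (toN v N)).act z) ((Φ.map (toN v N)).act z') ≤
      max ((dw w z z') ^ (p ^ s)) (w (toN v N Φ.ϖ) * dw w z z') :=
  (dw_act_aux Φ h hϖ hp z z' hz hz').1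

theorem dw_near (h : Above v w e) (hϖ : v (Φ.ϖ : K) < 1) (hp : p.Prime) (z z' : Fin 2 → N)
    (hz : z ≠ 0) (hz' : z' ≠ 0)
    (hlt : dw w ((Φ.map (toN v N)).act z) ((Φ.map (toN v N)).act z') < 1) : dw w z z' < 1 := by
  refine lt_of_le_of_ne (dw_le_one w z z') fun h1 => ?_
  exact hlt.ne ((dw_act_aux Φ h hϖ hp z z' hz hz').2 h1)

theorem dw_act_iter (h : Above v w e) (hϖ : v (Φ.ϖ : K) < 1) (hp : p.Prime) (k : ℕ)
    (z z' : Fin 2 → N) (hz : z ≠ 0) (hz' : z' ≠ 0) :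
    dw w ((Φ.map (toN v N)).act^[k] z) ((Φ.map (toN v N)).act^[k] z') ≤
      max ((dw w z z') ^ ((p ^ s) ^ k)) (w (toN v N Φ.ϖ)) := by
  have hq : p ^ s ≠ 0 := pow_ne_zero _ hp.ne_zero
  induction k with
  | zero => simp
  | succ k ih =>
    rw [Function.iterate_succ_apply', Function.iterate_succ_apply']
    refine (dw_act Φ h hϖ hp _ _ (act_iter_ne_zero Φ h hϖ hq k z hz)
      (act_iter_ne_zero Φ h hϖ hq k z' hz')).trans ?_
    set d := dw w ((Φ.map (toN v N)).act^[k] z) ((Φ.map (toN v N)).act^[k] z') with hd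
    have hd0 : 0 ≤ d := dw_nonneg _ _ _
    have hd1 : d ≤ 1 := dw_le_one _ _ _
    have hw1 := (w_unif Φ h hϖ).le
    have hw0 : 0 ≤ w (toN v N Φ.ϖ) := apply_nonneg w _
    refine max_le ?_ (le_max_of_le_right (by nlinarith))
    rcases le_max_iff.1 ih with h1 | h1
    · refine le_max_of_le_left ?_
      rw [pow_succ, pow_mul]
      exact pow_le_pow_left₀ hd0 h1 _
    · refine le_max_of_le_right ?_
      calc d ^ (p ^ s) ≤ d ^ 1 := pow_le_pow_of_le_one hd0 hd1 (Nat.one_le_iff_ne_zero.2 hq)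
        _ = d := pow_one d
        _ ≤ _ := h1

end dyn

end Pool.DynLehmer
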