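import Mathlib
import Pool.Agent.Lib.MP_2194ec_nt.Local

set_option autoImplicit false

/-!
# The Frobenius congruence and the size of residue discs
-/

namespace Pool.DynLehmer
open NumberField MvPolynomial
open scoped Classical

section rings

variable {K : Type} [Field K] [NumberField K] {p s : ℕ}

instance MW_prime (v : FinitePlace K) : (MW v).IsPrime := by
  constructor
  · intro h
    have h1 : (1 : OW v) ∈ MW v := by rw [h]; trivial
    rw [mem_MW] at h1
    simp at h1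
  · intro a b hab
    by_contra hcon
    push Not at hcon
    have h1 := a.2
    have h2 := b.2
    rw [mem_OW] at h1 h2
    rw [mem_MW, Subring.coe_mul, map_mul] at hab
    have h3 : 1 ≤ v (a : K) := not_lt.1 hcon.1
    have h4 : 1 ≤ v (b : K) := not_lt.1 hcon.2
    have h5 : 1 ≤ v (a : K) * v (b : K) := by nlinarith
    linarith

theorem charP_kap {v : FinitePlace K} (Φ : FF (OW v) p s) (hϖ : v (Φ.ϖ : K) < 1) (hp : p.Prime) :
    CharP (OW v ⧸ MW v) p := by
  rw [CharP.charP_iff_prime_eq_zero hp]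
  have h1 : ((p : ℕ) : OW v ⧸ MW v) = Ideal.Quotient.mk (MW v) ((p : ℕ) : OW v) := by simp
  rw [h1, Ideal.Quotient.eq_zero_iff_mem, Φ.hp]
  exact (MW v).mul_mem_right _ hϖ

/-- `m` is a good exponent for `Φ` -/
def GoodExp {v : FinitePlace K} (Φ : FF (OW v) p s) (m : ℕ) : Prop :=
  (∀ a : OW v ⧸ MW v, a ^ ((p ^ s) ^ m) = a) ∧
    ∀ (R : Type) [CommRing R] [CharP R p] (ψ : (OW v ⧸ MW v) →+* R) (z : Fin 2 → R),
      (lin (p ^ s) (Φ.g.map (Ideal.Quotient.mk (MW v))) ψ)^[m] z = fun i => z i ^ ((p ^ s) ^ m)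

theorem exists_goodExp {v : FinitePlace K} (Φ : FF (OW v) p s) (hϖ : v (Φ.ϖ : K) < 1)
    (hp : p.Prime) : ∃ m, 1 ≤ m ∧ GoodExp Φ m := by
  have := charP_kap Φ hϖ hp
  have h := exists_m (κ := OW v ⧸ MW v) (s := s) hp (Φ.g.map (Ideal.Quotient.mk (MW v)))
    (Φ.ginv.map (Ideal.Quotient.mk (MW v))) (by rw [← Matrix.map_mul, Φ.gg]; simp)
  exact h

theorem GoodExp.mult {v : FinitePlace K} {Φ : FF (OW v) p s} {m k : ℕ} (h : GoodExp Φ m)
    (hk : m ∣ k) : GoodExp Φ k :=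
  ⟨fun a => pow_mult h.1 hk a, fun _ _ _ ψ z => lin_mult (h.2 _ ψ) hk z⟩

end rings

section main

variable {K : Type} [Field K] [NumberField K] {N : Type} [Field N] [NumberField N] [Algebra K N]
variable {p s : ℕ} {v : FinitePlace K} {w : FinitePlace N} {e : ℕ} (Φ : FF (OW v) p s)

/-- normalization of the coefficients of a polynomial -/
theorem exists_content (P : MvPolynomial (Fin 2) K) (hP : P ≠ 0) :
    ∃ (κ : K) (t : Fin 2 →₀ ℕ) (Θ : MvPolynomial (Fin 2) (OW v)), κ ≠ 0 ∧ κ = coeff t P ∧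
      C κ * map (OW v).subtype Θ = P := by
  obtain ⟨t, ht, hmax⟩ := Finset.exists_max_image P.support (fun t => v (coeff t P))
    (support_nonempty.2 hP)
  set κ := coeff t P with hκ
  have hκ0 : κ ≠ 0 := mem_support_iff.1 ht
  have hvκ : 0 < v κ := FinitePlace.pos_iff.2 hκ0
  have h1 : ∀ u, coeff u (C κ⁻¹ * P) ∈ OW v := by
    intro u
    rw [mem_OW, coeff_C_mul, map_mul, map_inv₀]
    by_cases hu : u ∈ P.support
    · have := hmax u hu
      rw [inv_mul_le_iff₀ hvκ, mul_one]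
      exact this
    · rw [notMem_support_iff.1 hu]; simp
  have h2 : (C κ⁻¹ * P) ∈ Set.range (map (σ := Fin 2) (OW v).subtype) := by
    rw [mem_range_map_iff_coeffs_subset]
    intro a ha
    rw [Finset.mem_coe, mem_coeffs_iff] at ha
    obtain ⟨u, _, rfl⟩ := ha
    exact ⟨⟨_, h1 u⟩, rfl⟩
  obtain ⟨Θ, hΘ⟩ := h2
  refine ⟨κ, t, Θ, hκ0, rfl, ?_⟩
  rw [hΘ, ← mul_assoc, ← C_mul, mul_inv_cancel₀ hκ0, C_1, one_mul]

theorem frob_disc (h : Above v w e) (hϖ : v (Φ.ϖ : K) < 1)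
    (hunif : ∀ a : K, v a < 1 → v a ≤ v (Φ.ϖ : K)) (hp : p.Prime) {k : ℕ} (hk : GoodExp Φ k)
    (O : Finset (Fin 2 → N)) (hO : ∀ y ∈ O, y ≠ 0) (P : MvPolynomial (Fin 2) K)
    (hPO : ∏ y ∈ O, (C (y 0) * X 1 - C (y 1) * X 0) = map (algebraMap K N) P)
    (x : Fin 2 → N) (hx : x ∈ O) :
    ∏ y ∈ O, dw w y ((Φ.map (toN v N)).act^[k] x) ≤ w (toN v N Φ.ϖ) ∧
      ∏ y ∈ O, dw w ((Φ.map (toN v N)).act^[k] y) x ≤ w (toN v N Φ.ϖ) := by
  have hq : p ^ s ≠ 0 := pow_ne_zero _ hp.ne_zero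
  -- primitive representatives
  have hprim : ∀ y ∈ O, ∃ (c : N) (zh : Fin 2 → OW w), c ≠ 0 ∧ w c = nrm w y ∧
      (y = c • fun i => (zh i : N)) ∧ ∃ i, zh i = 1 := fun y hy => exists_prim w (hO y hy)
  choose! c zh hc hcn hyz ii hii using hprim
  -- P ≠ 0
  have hprod0 : ∏ y ∈ O, (C (y 0) * X 1 - C (y 1) * X 0 : MvPolynomial (Fin 2) N) ≠ 0 := by
    rw [Finset.prod_ne_zero_iff]
    intro y hy h0
    apply hO y hy
    have h1 := congrArg (coeff (Finsupp.single 1 1)) h0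
    have h2 := congrArg (coeff (Finsupp.single 0 1)) h0
    simp [coeff_C_mul, coeff_X, Finsupp.single_left_inj] at h1 h2
    ext i
    obtain rfl | rfl : i = 0 ∨ i = 1 := by fin_cases i <;> simp
    · exact h1
    · exact h2
  have hP0 : P ≠ 0 := by
    rintro rfl
    rw [map_zero] at hPO
    exact hprod0 hPO
  obtain ⟨κ, t, Θ, hκ0, hκt, hΘ⟩ := exists_content (v := v) P hP0
  -- the integral product
  set I : MvPolynomial (Fin 2) (OW w) := ∏ y ∈ O, (C (zh y 0) * X 1 - C (zh y 1) * X 0) with hI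
  set cc : N := ∏ y ∈ O, c y with hcc
  have hcc0 : cc ≠ 0 := Finset.prod_ne_zero_iff.2 fun y hy => hc y hy
  have hIP : C cc * map (OW w).subtype I = map (algebraMap K N) P := by
    rw [← hPO, hcc, map_prod, hI, map_prod, ← Finset.prod_mul_distrib]
    refine Finset.prod_congr rfl fun y hy => ?_
    conv_rhs => rw [hyz y hy]
    simp only [map_sub, map_mul, map_C, map_X, Pi.smul_apply, smul_eq_mul,
      Subring.subtype_apply]
    ring
  have hηw : w (algebraMap K N κ / cc) ≤ 1 := by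
    have h1 := congrArg (coeff t) hIP
    rw [coeff_C_mul, coeff_map, coeff_map, ← hκt] at h1
    rw [← h1, mul_div_cancel_left₀ _ hcc0]
    exact (coeff t I).2
  set η : OW w := ⟨algebraMap K N κ / cc, hηw⟩ with hη
  have hη0 : η ≠ 0 := by
    intro h0
    have h1 : algebraMap K N κ / cc = 0 := congrArg Subtype.val h0
    rw [div_eq_zero_iff] at h1
    rcases h1 with h1 | h1
    · exact hκ0 (by simpa using h1)
    · exact hcc0 h1
  have hIη : I = C η * map (toOW h) Θ := by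
    apply map_injective (OW w).subtype Subtype.val_injective
    rw [map_mul, map_C, map_map, subtype_comp_toOW]
    have h1 : C cc * map (OW w).subtype I = C (algebraMap K N κ) * map (toN v N) Θ := by
      rw [hIP, ← hΘ, map_mul, map_C, map_map]; rfl
    have h2 : map (OW w).subtype I = C cc⁻¹ * (C cc * map (OW w).subtype I) := by
      rw [← mul_assoc, ← C_mul, inv_mul_cancel₀ hcc0, C_1, one_mul]
    rw [h2, h1, ← mul_assoc, ← C_mul]
    congr 2
    simp only [hη, Subring.subtype_apply]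
    rw [div_eq_mul_inv, mul_comm]
  -- the residue ring
  set π := w (toN v N Φ.ϖ) with hπ
  have hπ0 : 0 ≤ π := apply_nonneg w _
  have hπ1 : π < 1 := w_unif Φ h hϖ
  set J := IW w π hπ0 with hJ
  have hJ1 : (1 : OW w) ∉ J := by
    intro h1
    rw [hJ, mem_IW] at h1
    simp at h1
    linarith
  have hnt : Nontrivial (OW w ⧸ J) :=
    Ideal.Quotient.nontrivial_iff.2 fun h1 => hJ1 (by rw [h1]; trivial)
  have hϖJ : toOW h Φ.ϖ ∈ J := by
    rw [hJ, mem_IW]; exact le_rfl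
  have hchar : CharP (OW w ⧸ J) p := by
    rw [CharP.charP_iff_prime_eq_zero hp]
    have h1 : ((p : ℕ) : OW w ⧸ J) = Ideal.Quotient.mk J (toOW h ((p : ℕ) : OW v)) := by simp
    rw [h1, Ideal.Quotient.eq_zero_iff_mem, Φ.hp, map_mul]
    exact J.mul_mem_right _ hϖJ
  have hfact : Fact p.Prime := ⟨hp⟩
  have hcomap : MW v ≤ J.comap (toOW h) := by
    intro a ha
    rw [Ideal.mem_comap, hJ, mem_IW, toOW_coe]
    change w (algebraMap K N (a : K)) ≤ w (algebraMap K N (Φ.ϖ : K))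
    rw [h.2, h.2]
    exact pow_le_pow_left₀ (apply_nonneg v _) (hunif _ ha) _
  set ψ : (OW v ⧸ MW v) →+* (OW w ⧸ J) := Ideal.quotientMap J (toOW h) hcomap with hψ
  set mk := Ideal.Quotient.mk J with hmk
  have hψmk : ∀ a : OW v, ψ (Ideal.Quotient.mk (MW v) a) = mk (toOW h a) := fun a => rfl
  set φ : (OW w ⧸ J) →+* (OW w ⧸ J) := iterateFrobenius (OW w ⧸ J) p (s * k) with hφ
  have hφa : ∀ a, φ a = a ^ ((p ^ s) ^ k) := by
    intro a; rw [hφ, iterateFrobenius_def, pow_mul]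
  -- the reduction of Θ
  set Θb : MvPolynomial (Fin 2) (OW w ⧸ J) := map mk (map (toOW h) Θ) with hΘb
  have hΘφ : map φ Θb = Θb := by
    ext u
    rw [coeff_map, hΘb, coeff_map, coeff_map, hφa, ← hψmk, ← map_pow, hk.1]
  have hIb : ∏ y ∈ O, (C (mk (zh y 0)) * X 1 - C (mk (zh y 1)) * X 0) = C (mk η) * Θb := by
    rw [hΘb, ← map_C, ← map_mul, ← hIη, hI, map_prod]
    refine Finset.prod_congr rfl fun y _ => ?_
    simp
  -- vanishing at x
  have hx0 : eval (zh x) (map (toOW h) Θ) = 0 := by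
    have h1 : eval (zh x) I = 0 := by
      rw [hI, map_prod]
      apply Finset.prod_eq_zero hx
      simp; ring
    rw [hIη, map_mul, eval_C] at h1
    exact (mul_eq_zero.1 h1).resolve_left hη0
  have hx1 : eval (fun i => mk (zh x i)) Θb = 0 := by
    rw [hΘb, eval_map]
    have h1 := congrArg mk hx0
    rw [map_zero, eval₂_comp] at h1
    exact h1
  obtain ⟨hA, hB⟩ := theta φ Θb hΘφ O (fun y i => mk (zh y i)) (mk η) hIb
    (fun i => mk (zh x i)) hx1
  -- iterates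
  have hlin : ∀ z : Fin 2 → (OW w ⧸ J), (Φ.map (mk.comp (toOW h))).act z =
      lin (p ^ s) (Φ.g.map (Ideal.Quotient.mk (MW v))) ψ z := by
    intro z
    ext i
    rw [FF.act_apply]
    have h1 : (Φ.map (mk.comp (toOW h))).ϖ = 0 := by
      change mk (toOW h Φ.ϖ) = 0
      rw [hmk, Ideal.Quotient.eq_zero_iff_mem]
      exact hϖJ
    rw [h1, zero_mul, add_zero]
    rfl
  have hiter : ∀ z : Fin 2 → OW w, (fun i => mk ((Φ.map (toOW h)).act^[k] z i)) =
      fun i => φ (mk (z i)) := by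
    intro z
    have h1 := (Φ.map (toOW h)).map_act_iter mk k z
    rw [FF.map_map_act'] at h1
    rw [h1, show (Φ.map (mk.comp (toOW h))).act =
      lin (p ^ s) (Φ.g.map (Ideal.Quotient.mk (MW v))) ψ from funext hlin, hk.2]
    ext i
    rw [hφa]
  -- conclusions
  have hnprim : ∀ y ∈ O, nrm w (fun i => (((Φ.map (toOW h)).act^[k] (zh y) i : OW w) : N)) = 1 := by
    intro y hy
    rw [coe_act_iter Φ h, nrm_act_iter Φ h hϖ hq]
    · rw [nrm_prim w (hii y hy), one_pow]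
    · intro h0
      have := nrm_prim w (hii y hy)
      rw [h0, nrm_eq] at this
      simp at this
  have hdw1 : ∀ y ∈ O, dw w y ((Φ.map (toN v N)).act^[k] x) =
      w ((br (zh y) ((Φ.map (toOW h)).act^[k] (zh x)) : OW w) : N) := by
    intro y hy
    conv_lhs => rw [hyz y hy, hyz x hx]
    rw [FF.act_iter_smul, dw_smul w (hc y hy) (pow_ne_zero _ (hc x hx)), ← coe_act_iter Φ h]
    unfold dw
    rw [nrm_prim w (hii y hy), hnprim x hx, mul_one, div_one]
    rfl
  have hdw2 : ∀ y ∈ O, dw w ((Φ.map (toN v N)).act^[k] y) x =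
      w ((br ((Φ.map (toOW h)).act^[k] (zh y)) (zh x) : OW w) : N) := by
    intro y hy
    conv_lhs => rw [hyz y hy, hyz x hx]
    rw [FF.act_iter_smul, dw_smul w (pow_ne_zero _ (hc y hy)) (hc x hx), ← coe_act_iter Φ h]
    unfold dw
    rw [nrm_prim w (hii x hx), hnprim y hy, mul_one, div_one]
    rfl
  have hbrmk : ∀ a b : Fin 2 → OW w, mk (br a b) = br (fun i => mk (a i)) (fun i => mk (b i)) :=
    fun a b => br_map mk a b
  constructor
  · rw [Finset.prod_congr rfl hdw1, ← map_prod]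
    have h1 : mk (∏ y ∈ O, br (zh y) ((Φ.map (toOW h)).act^[k] (zh x))) = 0 := by
      rw [map_prod]
      simp_rw [hbrmk]
      rw [hiter (zh x)]
      exact hA
    rw [hmk, Ideal.Quotient.eq_zero_iff_mem, hJ, mem_IW] at h1
    simpa using h1
  · rw [Finset.prod_congr rfl hdw2, ← map_prod]
    have h1 : mk (∏ y ∈ O, br ((Φ.map (toOW h)).act^[k] (zh y)) (zh x)) = 0 := by
      rw [map_prod]
      simp_rw [hbrmk, hiter]
      exact hB
    rw [hmk, Ideal.Quotient.eq_zero_iff_mem, hJ, mem_IW] at h1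
    simpa using h1

/-- Frobenius congruence modulo an ideal containing `ϖ`. -/
theorem iter_mod (h : Above v w e) (hp : p.Prime) {k : ℕ} (hk : GoodExp Φ k)
    (J : Ideal (OW w)) (hJ1 : (1 : OW w) ∉ J) (hϖJ : toOW h Φ.ϖ ∈ J)
    (hcomap : MW v ≤ J.comap (toOW h)) (z : Fin 2 → OW w) (i : Fin 2) :
    Ideal.Quotient.mk J ((Φ.map (toOW h)).act^[k] z i) =
      Ideal.Quotient.mk J (z i) ^ ((p ^ s) ^ k) := by
  have hnt : Nontrivial (OW w ⧸ J) :=
    Ideal.Quotient.nontrivial_iff.2 fun h1 => hJ1 (by rw [h1]; trivial)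
  have hchar : CharP (OW w ⧸ J) p := by
    rw [CharP.charP_iff_prime_eq_zero hp]
    have h1 : ((p : ℕ) : OW w ⧸ J) = Ideal.Quotient.mk J (toOW h ((p : ℕ) : OW v)) := by simp
    rw [h1, Ideal.Quotient.eq_zero_iff_mem, Φ.hp, map_mul]
    exact J.mul_mem_right _ hϖJ
  set ψ : (OW v ⧸ MW v) →+* (OW w ⧸ J) := Ideal.quotientMap J (toOW h) hcomap with hψ
  set mk := Ideal.Quotient.mk J with hmk
  have hlin : ∀ z : Fin 2 → (OW w ⧸ J), (Φ.map (mk.comp (toOW h))).act z =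
      lin (p ^ s) (Φ.g.map (Ideal.Quotient.mk (MW v))) ψ z := by
    intro z
    ext i
    rw [FF.act_apply]
    have h1 : (Φ.map (mk.comp (toOW h))).ϖ = 0 := by
      change mk (toOW h Φ.ϖ) = 0
      rw [hmk, Ideal.Quotient.eq_zero_iff_mem]
      exact hϖJ
    rw [h1, zero_mul, add_zero]
    rfl
  have h1 := (Φ.map (toOW h)).map_act_iter mk k z
  rw [FF.map_map_act', show (Φ.map (mk.comp (toOW h))).act =
      lin (p ^ s) (Φ.g.map (Ideal.Quotient.mk (MW v))) ψ from funext hlin, hk.2] at h1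
  exact congrFun h1 i

/-- iterates preserve residue discs -/
theorem dw_res (h : Above v w e) (hϖ : v (Φ.ϖ : K) < 1) (hp : p.Prime) {k : ℕ}
    (hk : GoodExp Φ k) (hkw : ∀ a : OW w ⧸ MW w, a ^ ((p ^ s) ^ k) = a)
    (z z' : Fin 2 → N) (hz : z ≠ 0) (hz' : z' ≠ 0) (h1 : dw w z z' = 1) :
    dw w ((Φ.map (toN v N)).act^[k] z) z' = 1 := by
  have hq : p ^ s ≠ 0 := pow_ne_zero _ hp.ne_zero
  obtain ⟨c, zh, hc, hcn, hzz, i, hi⟩ := exists_prim w hz
  obtain ⟨c', zh', hc', hcn', hzz', i', hi'⟩ := exists_prim w hz'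
  have hmod : ∀ j, (Φ.map (toOW h)).act^[k] zh j - zh j ∈ MW w := by
    intro j
    rw [← Ideal.Quotient.mk_eq_mk_iff_sub_mem,
      iter_mod Φ h hp hk (MW w) (MW_prime w |>.ne_top |> fun h0 h1 => h0 ((Ideal.eq_top_iff_one _).2 h1))
        (w_unif Φ h hϖ) ?_, hkw]
    intro a ha
    rw [Ideal.mem_comap, mem_MW, toOW_coe]
    change w (algebraMap K N (a : K)) < 1
    rw [h.2]
    exact pow_lt_one₀ (apply_nonneg v _) ha h.1.ne'
  have h2 : dw w z z' = w ((br zh zh' : OW w) : N) := by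
    rw [hzz, hzz', dw_smul w hc hc', dw_prim hi hi']
  have hn : nrm w (fun j => (((Φ.map (toOW h)).act^[k] zh j : OW w) : N)) = 1 := by
    rw [coe_act_iter Φ h, nrm_act_iter Φ h hϖ hq]
    · rw [nrm_prim w hi, one_pow]
    · intro h0
      have := nrm_prim w hi
      rw [h0, nrm_eq] at this
      simp at this
  have h3 : dw w ((Φ.map (toN v N)).act^[k] z) z' =
      w ((br ((Φ.map (toOW h)).act^[k] zh) zh' : OW w) : N) := by
    rw [hzz, hzz', FF.act_iter_smul, dw_smul w (pow_ne_zero _ hc) hc', ← coe_act_iter Φ h]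
    unfold dw
    rw [hn, nrm_prim w hi', mul_one, div_one]
    rfl
  rw [h2] at h1
  rw [h3]
  set Z := (Φ.map (toOW h)).act^[k] zh with hZ
  have h4 : br Z zh' - br zh zh' ∈ MW w := by
    have : br Z zh' - br zh zh' = (Z 0 - zh 0) * zh' 1 - (Z 1 - zh 1) * zh' 0 := by
      simp [br]; ring
    rw [this]
    exact (MW w).sub_mem ((MW w).mul_mem_right _ (hmod 0)) ((MW w).mul_mem_right _ (hmod 1))
  apply le_antisymm ((br Z zh').2)
  by_contra hcon
  push Not at hcon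
  have h5 : br Z zh' ∈ MW w := hcon
  have h6 : br zh zh' ∈ MW w := by
    have := (MW w).sub_mem h5 h4
    rwa [sub_sub_cancel] at this
  rw [mem_MW, h1] at h6
  exact lt_irrefl _ h6

/-- the number of points of `O` in the residue disc of `x` -/
noncomputable def Mc (w : FinitePlace N) (O : Finset (Fin 2 → N)) (x : Fin 2 → N) : ℕ :=
  (O.filter fun y => dw w y x < 1).card

theorem disc_bound (h : Above v w e) (hϖ : v (Φ.ϖ : K) < 1) (hϖ0 : (Φ.ϖ : K) ≠ 0)
    (hunif : ∀ a : K, v a < 1 → v a ≤ v (Φ.ϖ : K)) (hp : p.Prime) (hs : 1 ≤ s)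
    (O : Finset (Fin 2 → N)) (hO : ∀ y ∈ O, y ≠ 0) (P : MvPolynomial (Fin 2) K)
    (hPO : ∏ y ∈ O, (C (y 0) * X 1 - C (y 1) * X 0) = map (algebraMap K N) P)
    (x y : Fin 2 → N) (hx : x ∈ O) (hy : y ∈ O) (hyx : dw w y x < 1) :
    (dw w y x) ^ (Mc w O x) ≤ w (toN v N Φ.ϖ) := by
  set π := w (toN v N Φ.ϖ) with hπ
  have hπ0 : 0 < π := by
    rw [hπ, FinitePlace.pos_iff]
    change algebraMap K N (Φ.ϖ : K) ≠ 0
    simpa using hϖ0
  have hπ1 : π < 1 := w_unif Φ h hϖ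
  -- choice of k
  obtain ⟨m, hm1, hm⟩ := exists_goodExp Φ hϖ hp
  have hcharw : CharP (OW w ⧸ MW w) p := by
    rw [CharP.charP_iff_prime_eq_zero hp]
    have h1 : ((p : ℕ) : OW w ⧸ MW w) = Ideal.Quotient.mk (MW w) (toOW h ((p : ℕ) : OW v)) := by
      simp
    rw [h1, Ideal.Quotient.eq_zero_iff_mem, Φ.hp, map_mul]
    exact (MW w).mul_mem_right _ (w_unif Φ h hϖ)
  obtain ⟨mw, hmw1, hmw, _⟩ := exists_m (κ := OW w ⧸ MW w) (s := s) hp 1 1 (by simp)
  -- bound for the discs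
  obtain ⟨n0, hn0⟩ : ∃ n0 : ℕ, ∀ a ∈ O, ∀ b ∈ O, dw w a b < 1 → (dw w a b) ^ n0 ≤ π := by
    have h1 : ∀ ab ∈ O ×ˢ O, ∃ n : ℕ, dw w ab.1 ab.2 < 1 → (dw w ab.1 ab.2) ^ n ≤ π := by
      intro ab _
      by_cases hlt : dw w ab.1 ab.2 < 1
      · obtain ⟨n, hn⟩ := exists_pow_lt_of_lt_one hπ0 hlt
        exact ⟨n, fun _ => hn.le⟩
      · exact ⟨0, fun h => absurd h hlt⟩
    choose! n hn using h1
    refine ⟨(O ×ˢ O).sup n, fun a ha b hb hlt => ?_⟩
    have hab : (a, b) ∈ O ×ˢ O := Finset.mem_product.2 ⟨ha, hb⟩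
    refine le_trans ?_ (hn (a, b) hab hlt)
    exact pow_le_pow_of_le_one (dw_nonneg w _ _) hlt.le (Finset.le_sup (f := n) hab)
  set k := m * mw * (n0 + 1) with hk
  have hkm : m ∣ k := ⟨mw * (n0 + 1), by rw [hk]; ring⟩
  have hkmw : mw ∣ k := ⟨m * (n0 + 1), by rw [hk]; ring⟩
  have hkn : n0 ≤ (p ^ s) ^ k := by
    have h1 : n0 + 1 ≤ k := by rw [hk]; exact Nat.le_mul_of_pos_left _ (Nat.mul_pos hm1 hmw1)
    have h2 : k < (p ^ s) ^ k := Nat.lt_pow_self (Nat.one_lt_pow (by omega) hp.one_lt)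
    omega
  have hgood : GoodExp Φ k := hm.mult hkm
  have hw : ∀ a : OW w ⧸ MW w, a ^ ((p ^ s) ^ k) = a := fun a => pow_mult hmw hkmw a
  set A := (Φ.map (toN v N)).act with hA
  have hAne : ∀ z, z ≠ 0 → A^[k] z ≠ 0 := fun z hz =>
    act_iter_ne_zero Φ h hϖ (pow_ne_zero _ hp.ne_zero) k z hz
  -- iterates of points in the same disc are close
  have hclose : ∀ a ∈ O, ∀ b ∈ O, dw w a b < 1 → dw w (A^[k] a) (A^[k] b) ≤ π := by
    intro a ha b hb hlt
    refine (dw_act_iter Φ h hϖ hp k a b (hO a ha) (hO b hb)).trans (max_le ?_ le_rfl)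
    exact (pow_le_pow_of_le_one (dw_nonneg w _ _) hlt.le hkn).trans (hn0 a ha b hb hlt)
  have hMpos : ∀ a ∈ O, 1 ≤ Mc w O a := by
    intro a ha
    apply Finset.card_pos.2
    refine ⟨a, Finset.mem_filter.2 ⟨ha, ?_⟩⟩
    have : dw w a a = 0 := by unfold dw br; simp [mul_comm]
    rw [this]; exact one_pos
  have hpowπ : ∀ {M : ℕ} {t : ℝ}, 1 ≤ M → 0 ≤ t → t ≤ π → t ^ M ≤ π := by
    intro M t hM ht0 ht
    calc t ^ M ≤ t ^ 1 := pow_le_pow_of_le_one ht0 (ht.trans hπ1.le) hM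
      _ = t := pow_one t
      _ ≤ π := ht
  -- (A)
  have hself : ∀ a ∈ O, (dw w (A^[k] a) a) ^ (Mc w O a) ≤ π := by
    intro a ha
    have h1 := (frob_disc Φ h hϖ hunif hp hgood O hO P hPO a ha).2
    rcases le_or_gt (dw w (A^[k] a) a) π with h2 | h2
    · exact hpowπ (hMpos a ha) (dw_nonneg w _ _) h2
    · refine le_trans ?_ h1
      have h3 : ∏ b ∈ O, dw w (A^[k] b) a = ∏ b ∈ O.filter (fun b => dw w b a < 1),
          dw w (A^[k] b) a := by
        symm
        apply Finset.prod_subset (Finset.filter_subset _ _)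
        intro b hb hb'
        have h4 : dw w b a = 1 := by
          apply le_antisymm (dw_le_one w _ _)
          by_contra hcon
          exact hb' (Finset.mem_filter.2 ⟨hb, not_le.1 hcon⟩)
        exact dw_res Φ h hϖ hp hgood hw b a (hO b hb) (hO a ha) h4
      rw [h3]
      unfold Mc
      rw [← Finset.prod_const]
      apply Finset.prod_le_prod
      · intro b _; exact dw_nonneg w _ _
      · intro b hb
        obtain ⟨hbO, hlt⟩ := Finset.mem_filter.1 hb
        have h5 := dw_ultra w (hAne a (hO a ha)) (hAne b (hO b hbO)) (hO a ha)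
        have h6 : dw w (A^[k] a) (A^[k] b) ≤ π := hclose a ha b hbO (by rwa [dw_symm])
        rcases le_max_iff.1 h5 with h7 | h7
        · linarith
        · exact h7
  -- the discs of `x` and `y` coincide
  have hMxy : Mc w O y = Mc w O x := by
    unfold Mc
    congr 1
    ext b
    rw [Finset.mem_filter, Finset.mem_filter]
    constructor
    · rintro ⟨hb, hlt⟩
      exact ⟨hb, (dw_ultra w (hO b hb) (hO y hy) (hO x hx)).trans_lt (max_lt hlt hyx)⟩
    · rintro ⟨hb, hlt⟩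
      refine ⟨hb, (dw_ultra w (hO b hb) (hO x hx) (hO y hy)).trans_lt (max_lt hlt ?_)⟩
      rwa [dw_symm]
  have h1 := hself x hx
  have h2 := hself y hy
  rw [hMxy] at h2
  have h3 := hpowπ (hMpos x hx) (dw_nonneg w _ _) (hclose y hy x hx hyx)
  have h4 : dw w y x ≤ max (dw w (A^[k] y) y) (max (dw w (A^[k] y) (A^[k] x))
      (dw w (A^[k] x) x)) := by
    refine (dw_ultra w (hO y hy) (hAne y (hO y hy)) (hO x hx)).trans ?_
    refine max_le_max (by rw [dw_symm]) ?_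
    exact dw_ultra w (hAne y (hO y hy)) (hAne x (hO x hx)) (hO x hx)
  have h5 := dw_nonneg w y x
  rcases le_max_iff.1 h4 with h6 | h6
  · exact (pow_le_pow_left₀ h5 h6 _).trans h2
  · rcases le_max_iff.1 h6 with h7 | h7
    · exact (pow_le_pow_left₀ h5 h7 _).trans h3
    · exact (pow_le_pow_left₀ h5 h7 _).trans h1

end main

end Pool.DynLehmer
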