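import Mathlib

set_option autoImplicit false

/-!
# The product formula inequality
-/

namespace Pool.DynLehmer
open NumberField Height
open scoped Classical

theorem finprod_pos' {α : Type*} {f : α → ℝ} (h : ∀ a, 0 < f a) : 0 < ∏ᶠ a, f a :=
  finprod_induction (fun r : ℝ => 0 < r) one_pos (fun _ _ => mul_pos) h

variable {N : Type*} [Field N] [NumberField N]

omit [NumberField N] in
theorem iSup_pos_of_ne {ι : Type*} [Finite ι] {F : Type*} [FunLike F N ℝ]
    [MonoidWithZeroHomClass F N ℝ] [NonnegHomClass F N ℝ] (w : F)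
    {x : ι → N} (hx : x ≠ 0) : 0 < ⨆ i, w (x i) := by
  obtain ⟨i, hi⟩ := Function.ne_iff.1 hx
  have h1 : 0 < w (x i) := lt_of_le_of_ne (apply_nonneg w _)
    (Ne.symm ((map_ne_zero w).2 hi))
  exact h1.trans_le (Finite.le_ciSup (fun i => w (x i)) i)

/-- logarithmic height of a nonzero tuple -/
theorem logHeight_eq_sum {ι : Type*} [Finite ι] {x : ι → N} (hx : x ≠ 0) :
    logHeight x = ∑ v : InfinitePlace N, (v.mult : ℝ) * Real.log (⨆ i, v (x i)) +
      ∑ᶠ v : FinitePlace N, Real.log (⨆ i, v (x i)) := by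
  have h1 : ∀ v : InfinitePlace N, 0 < ⨆ i, v (x i) := fun v => iSup_pos_of_ne v hx
  have h2 : ∀ v : FinitePlace N, 0 < ⨆ i, v (x i) := fun v => iSup_pos_of_ne v hx
  have h3 : 0 < ∏ᶠ v : FinitePlace N, ⨆ i, v (x i) := finprod_pos' h2
  rw [logHeight_eq_log_mulHeight, NumberField.mulHeight_eq hx,
    Real.log_mul (Finset.prod_ne_zero_iff.2 fun v _ => (pow_pos (h1 v) _).ne') h3.ne',
    Real.log_prod (fun v _ => (pow_pos (h1 v) _).ne'), Real.log_finprod h2]
  congr 1
  exact Finset.sum_congr rfl fun v _ => Real.log_pow _ _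

theorem finite_support_log {x : N} (hx : x ≠ 0) :
    (Function.support fun v : FinitePlace N => Real.log (v x)).Finite := by
  refine (FinitePlace.hasFiniteMulSupport hx).subset ?_
  intro v hv
  rw [Function.mem_support] at hv
  rw [Function.mem_mulSupport]
  intro h
  apply hv
  rw [h, Real.log_one]

theorem finite_support_log_iSup {ι : Type*} [Finite ι] {x : ι → N} (hx : x ≠ 0) :
    (Function.support fun v : FinitePlace N => Real.log (⨆ i, v (x i))).Finite := by
  cases nonempty_fintype ι
  obtain ⟨i0, hi0⟩ := Function.ne_iff.1 hx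
  have h1 : (⋃ i ∈ (Finset.univ.filter fun i => x i ≠ 0),
      (Function.mulSupport fun v : FinitePlace N => v (x i))).Finite := by
    apply Set.Finite.biUnion (Finset.finite_toSet _)
    intro i hi
    exact FinitePlace.hasFiniteMulSupport (Finset.mem_filter.1 hi).2
  refine h1.subset ?_
  intro v hv
  by_contra hcon
  apply hv
  have h2 : ∀ i, x i ≠ 0 → v (x i) = 1 := by
    intro i hi
    by_contra h3
    apply hcon
    simp only [Set.mem_iUnion]
    exact ⟨i, Finset.mem_filter.2 ⟨Finset.mem_univ _, hi⟩, h3⟩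
  have : Nonempty ι := ⟨i0⟩
  have h3 : (⨆ i, v (x i)) = 1 := by
    apply le_antisymm
    · apply ciSup_le
      intro i
      by_cases h : x i = 0
      · rw [h, map_zero]; exact zero_le_one
      · exact (h2 i h).le
    · rw [← h2 i0 hi0]
      exact Finite.le_ciSup (fun i => v (x i)) i0
  simp only [h3, Real.log_one]

/-- product formula in logarithmic form -/
theorem log_product_formula {x : N} (hx : x ≠ 0) :
    ∑ v : InfinitePlace N, (v.mult : ℝ) * Real.log (v x) +
      ∑ᶠ v : FinitePlace N, Real.log (v x) = 0 := by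
  have h1 : ∀ v : InfinitePlace N, 0 < v x := fun v => v.pos_iff.2 hx
  have h2 : ∀ v : FinitePlace N, 0 < v x := fun v => FinitePlace.pos_iff.2 hx
  have h := prod_abs_eq_one hx
  have h3 : 0 < ∏ᶠ v : FinitePlace N, v x := finprod_pos' h2
  have h4 := congrArg Real.log h
  rw [Real.log_mul (Finset.prod_ne_zero_iff.2 fun v _ => (pow_pos (h1 v) _).ne') h3.ne',
    Real.log_prod (fun v _ => (pow_pos (h1 v) _).ne'), Real.log_finprod h2, Real.log_one] at h4
  rw [← h4]
  congr 1
  exact Finset.sum_congr rfl fun v _ => (Real.log_pow _ _).symm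

/-- **The fundamental inequality** (Liouville).  If `|t|_w` is bounded by a product of norms of
vectors `y k`, then the sum over a finite set of finite places of the defects is bounded by the
sum of the heights of the `y k`. -/
theorem liouville {ι κ : Type*} [Finite ι] [Fintype κ] {t : N} (ht : t ≠ 0)
    (y : κ → ι → N) (hy : ∀ k, y k ≠ 0) (e : κ → ℕ) (A : ℝ) (hA : 1 ≤ A)
    (hinf : ∀ w : InfinitePlace N, w t ≤ A * ∏ k, (⨆ i, w (y k i)) ^ e k)
    (hfin : ∀ w : FinitePlace N, w t ≤ ∏ k, (⨆ i, w (y k i)) ^ e k)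
    (S : Finset (FinitePlace N)) :
    ∑ w ∈ S, (∑ k, (e k : ℝ) * Real.log (⨆ i, w (y k i)) - Real.log (w t)) ≤
      ∑ k, (e k : ℝ) * logHeight (y k) + Module.finrank ℚ N * Real.log A := by
  have hposI : ∀ (w : InfinitePlace N) k, 0 < ⨆ i, w (y k i) := fun w k => iSup_pos_of_ne w (hy k)
  have hposF : ∀ (w : FinitePlace N) k, 0 < ⨆ i, w (y k i) := fun w k => iSup_pos_of_ne w (hy k)
  -- local inequalities
  have hI : ∀ w : InfinitePlace N,
      0 ≤ Real.log A + ∑ k, (e k : ℝ) * Real.log (⨆ i, w (y k i)) - Real.log (w t) := by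
    intro w
    have h1 := Real.log_le_log (w.pos_iff.2 ht) (hinf w)
    rw [Real.log_mul (by positivity) (Finset.prod_ne_zero_iff.2 fun k _ =>
      (pow_pos (hposI w k) _).ne'), Real.log_prod (fun k _ => (pow_pos (hposI w k) _).ne')] at h1
    simp_rw [Real.log_pow] at h1
    linarith
  have hF : ∀ w : FinitePlace N,
      0 ≤ ∑ k, (e k : ℝ) * Real.log (⨆ i, w (y k i)) - Real.log (w t) := by
    intro w
    have h1 := Real.log_le_log (FinitePlace.pos_iff.2 ht) (hfin w)
    rw [Real.log_prod (fun k _ => (pow_pos (hposF w k) _).ne')] at h1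
    simp_rw [Real.log_pow] at h1
    linarith
  -- a big finite set of places
  have hfs : ((⋃ k, Function.support fun v : FinitePlace N => Real.log (⨆ i, v (y k i))) ∪
      Function.support fun v : FinitePlace N => Real.log (v t)).Finite :=
    (Set.finite_iUnion fun k => finite_support_log_iSup (hy k)).union (finite_support_log ht)
  set T : Finset (FinitePlace N) := hfs.toFinset ∪ S with hT
  have hsub1 : ∀ k, (Function.support fun v : FinitePlace N => Real.log (⨆ i, v (y k i))) ⊆ ↑T := by
    intro k v hv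
    rw [hT, Finset.coe_union, Set.Finite.coe_toFinset]
    exact Or.inl (Or.inl (Set.mem_iUnion.2 ⟨k, hv⟩))
  have hsub2 : (Function.support fun v : FinitePlace N => Real.log (v t)) ⊆ ↑T := by
    intro v hv
    rw [hT, Finset.coe_union, Set.Finite.coe_toFinset]
    exact Or.inl (Or.inr hv)
  have hsubS : S ⊆ T := Finset.subset_union_right
  have hpf := log_product_formula ht
  rw [finsum_eq_sum_of_support_subset _ hsub2] at hpf
  have hH : ∀ k, logHeight (y k) = ∑ v : InfinitePlace N, (v.mult : ℝ) *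
      Real.log (⨆ i, v (y k i)) + ∑ v ∈ T, Real.log (⨆ i, v (y k i)) := by
    intro k
    rw [logHeight_eq_sum (hy k), finsum_eq_sum_of_support_subset _ (hsub1 k)]
  calc ∑ w ∈ S, (∑ k, (e k : ℝ) * Real.log (⨆ i, w (y k i)) - Real.log (w t))
      ≤ ∑ w ∈ T, (∑ k, (e k : ℝ) * Real.log (⨆ i, w (y k i)) - Real.log (w t)) :=
        Finset.sum_le_sum_of_subset_of_nonneg hsubS fun w _ _ => hF w
    _ ≤ ∑ w ∈ T, (∑ k, (e k : ℝ) * Real.log (⨆ i, w (y k i)) - Real.log (w t)) +
        ∑ w : InfinitePlace N, (w.mult : ℝ) *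
          (Real.log A + ∑ k, (e k : ℝ) * Real.log (⨆ i, w (y k i)) - Real.log (w t)) := by
        have : 0 ≤ ∑ w : InfinitePlace N, (w.mult : ℝ) *
          (Real.log A + ∑ k, (e k : ℝ) * Real.log (⨆ i, w (y k i)) - Real.log (w t)) :=
          Finset.sum_nonneg fun w _ => mul_nonneg (Nat.cast_nonneg _) (hI w)
        linarith
    _ = ∑ k, (e k : ℝ) * logHeight (y k) + Module.finrank ℚ N * Real.log A := by
        have e1 : ∑ w ∈ T, (∑ k, (e k : ℝ) * Real.log (⨆ i, w (y k i)) - Real.log (w t)) =
            ∑ k, (e k : ℝ) * ∑ w ∈ T, Real.log (⨆ i, w (y k i)) - ∑ w ∈ T, Real.log (w t) := by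
          rw [Finset.sum_sub_distrib, Finset.sum_comm]
          simp_rw [Finset.mul_sum]
        have e2 : ∑ w : InfinitePlace N, (w.mult : ℝ) *
            (Real.log A + ∑ k, (e k : ℝ) * Real.log (⨆ i, w (y k i)) - Real.log (w t)) =
            (∑ w : InfinitePlace N, (w.mult : ℝ)) * Real.log A +
            ∑ k, (e k : ℝ) * ∑ w : InfinitePlace N, (w.mult : ℝ) * Real.log (⨆ i, w (y k i)) -
            ∑ w : InfinitePlace N, (w.mult : ℝ) * Real.log (w t) := by
          rw [Finset.sum_mul]
          have e3 : ∑ k, (e k : ℝ) * ∑ w : InfinitePlace N, (w.mult : ℝ) *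
              Real.log (⨆ i, w (y k i)) = ∑ w : InfinitePlace N, ∑ k, (w.mult : ℝ) *
              ((e k : ℝ) * Real.log (⨆ i, w (y k i))) := by
            rw [Finset.sum_comm]
            refine Finset.sum_congr rfl fun k _ => ?_
            rw [Finset.mul_sum]
            exact Finset.sum_congr rfl fun w _ => by ring
          rw [e3, ← Finset.sum_add_distrib, ← Finset.sum_sub_distrib]
          refine Finset.sum_congr rfl fun w _ => ?_
          rw [← Finset.mul_sum]
          ring
        have e4 : ∑ w : InfinitePlace N, (w.mult : ℝ) = Module.finrank ℚ N := by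
          rw [← InfinitePlace.sum_mult_eq (K := N)]; push_cast; rfl
        rw [e1, e2, e4]
        simp_rw [hH, mul_add]
        rw [Finset.sum_add_distrib]
        linarith

end Pool.DynLehmer
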