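import Mathlib
import Pool.Agent.Lib.MP_2194ec_nt.LocalFrob
import Pool.Agent.Lib.MP_2194ec_nt.ProdFormula

set_option autoImplicit false

/-!
# The interpolation determinant
-/

namespace Pool.DynLehmer
open MvPolynomial NumberField
open scoped Classical

section alg

variable {A B : Type*} [CommRing A] [CommRing B] {p s : ℕ}

namespace FF

/-- the generic iterates -/
noncomputable def It (Φ : FF A p s) (k : ℕ) : Fin 2 → MvPolynomial (Fin 2) A :=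
  (Φ.map C).act^[k] X

theorem It_succ (Φ : FF A p s) (k : ℕ) (i : Fin 2) :
    Φ.It (k + 1) i = eval₂ C (Φ.It k) (Φ.F i) := by
  rw [It, Function.iterate_succ_apply', act, map_F, eval_map]; rfl

theorem It_hom (Φ : FF A p s) (k : ℕ) (i : Fin 2) : (Φ.It k i).IsHomogeneous ((p ^ s) ^ k) := by
  induction k generalizing i with
  | zero => simpa [It] using isHomogeneous_X A i
  | succ k ih =>
    rw [It_succ, pow_succ]
    exact (Φ.F_hom i).eval₂ _ _ (fun r => isHomogeneous_C _ _) (fun i => ih i)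

theorem eval_It (Φ : FF A p s) (k : ℕ) (z : Fin 2 → A) (i : Fin 2) :
    eval z (Φ.It k i) = Φ.act^[k] z i := by
  induction k generalizing i with
  | zero => simp [It]
  | succ k ih =>
    rw [It_succ, Function.iterate_succ_apply', eval₂_comp_left (eval z)]
    have h1 : (eval z).comp (C : A →+* MvPolynomial (Fin 2) A) = RingHom.id A := by
      ext a; simp
    have h2 : (eval z : MvPolynomial (Fin 2) A →+* A) ∘ Φ.It k = Φ.act^[k] z := by
      ext i; exact ih i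
    rw [h1, h2]
    rfl

theorem map_It (Φ : FF A p s) (φ : A →+* B) (k : ℕ) (i : Fin 2) :
    MvPolynomial.map φ (Φ.It k i) = (Φ.map φ).It k i := by
  induction k generalizing i with
  | zero => simp [It]
  | succ k ih =>
    rw [It_succ, It_succ, map_F, eval₂_comp_left (MvPolynomial.map φ), eval₂_map]
    have h1 : (MvPolynomial.map φ).comp (C : A →+* MvPolynomial (Fin 2) A) = C.comp φ := by
      ext a; simp
    have h2 : (MvPolynomial.map φ : MvPolynomial (Fin 2) A →+* _) ∘ Φ.It k = (Φ.map φ).It k := by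
      ext1 i; exact ih i
    rw [h1, h2]

/-- the sections -/
noncomputable def QQ (Φ : FF A p s) (J : ℕ) (μ : Fin J → Fin (p ^ s)) : MvPolynomial (Fin 2) A :=
  ∏ i : Fin J, (Φ.It i 0 ^ (μ i : ℕ) * Φ.It i 1 ^ (p ^ s - 1 - (μ i : ℕ)))

theorem sum_pow_mul (q J : ℕ) (hq : 1 ≤ q) : ∑ i : Fin J, (q ^ (i : ℕ)) * (q - 1) = q ^ J - 1 := by
  rw [Fin.sum_univ_eq_sum_range (fun i => q ^ i * (q - 1)), ← Finset.sum_mul]
  obtain ⟨r, rfl⟩ := Nat.exists_eq_add_of_le' hq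
  have := geom_sum_mul_add r J
  simp only [Nat.add_sub_cancel]
  omega

theorem QQ_hom (Φ : FF A p s) (J : ℕ) (μ : Fin J → Fin (p ^ s)) (hq : 1 ≤ p ^ s) :
    (Φ.QQ J μ).IsHomogeneous ((p ^ s) ^ J - 1) := by
  have h1 : ∀ i : Fin J, (Φ.It i 0 ^ (μ i : ℕ) * Φ.It i 1 ^ (p ^ s - 1 - (μ i : ℕ))).IsHomogeneous
      ((p ^ s) ^ (i : ℕ) * (p ^ s - 1)) := by
    intro i
    have h2 := ((Φ.It_hom i 0).pow (μ i : ℕ)).mul ((Φ.It_hom i 1).pow (p ^ s - 1 - (μ i : ℕ)))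
    convert h2 using 1
    rw [← mul_add]
    congr 1
    have := (μ i).2
    omega
  have h3 := IsHomogeneous.prod Finset.univ _ _ (fun i _ => h1 i)
  rwa [sum_pow_mul _ _ hq] at h3

theorem eval_QQ (Φ : FF A p s) (J : ℕ) (μ : Fin J → Fin (p ^ s)) (z : Fin 2 → A) :
    eval z (Φ.QQ J μ) = ∏ i : Fin J, ((Φ.act^[i] z 0) ^ (μ i : ℕ) *
      (Φ.act^[i] z 1) ^ (p ^ s - 1 - (μ i : ℕ))) := by
  rw [QQ, map_prod]
  simp [eval_It]

theorem map_QQ (Φ : FF A p s) (φ : A →+* B) (J : ℕ) (μ : Fin J → Fin (p ^ s)) :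
    MvPolynomial.map φ (Φ.QQ J μ) = (Φ.map φ).QQ J μ := by
  rw [QQ, map_prod, QQ]
  simp [map_It]

/-- the coefficient matrix -/
noncomputable def TT (Φ : FF A p s) (J : ℕ) :
    Matrix (Fin ((p ^ s) ^ J)) (Fin ((p ^ s) ^ J)) A :=
  fun j b => coeff (ex ((p ^ s) ^ J - 1) j) (Φ.QQ J (finFunctionFinEquiv.symm b))

theorem map_TT (Φ : FF A p s) (φ : A →+* B) (J : ℕ) :
    (Φ.TT J).map φ = (Φ.map φ).TT J := by
  ext j b
  simp only [Matrix.map_apply, TT, ← map_QQ, coeff_map]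

theorem det_map_TT (Φ : FF A p s) (φ : A →+* B) (J : ℕ) :
    ((Φ.map φ).TT J).det = φ (Φ.TT J).det := by
  rw [← map_TT, RingHom.map_det]
  rfl

/-- the value matrix -/
noncomputable def MM (Φ : FF A p s) (J : ℕ) (z : Fin ((p ^ s) ^ J) → Fin 2 → A) :
    Matrix (Fin ((p ^ s) ^ J)) (Fin ((p ^ s) ^ J)) A :=
  fun a b => ∏ i : Fin J, ((Φ.act^[i] (z a) 0) ^ (finFunctionFinEquiv.symm b i : ℕ) *
      (Φ.act^[i] (z a) 1) ^ (p ^ s - 1 - (finFunctionFinEquiv.symm b i : ℕ)))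

theorem MM_eq (Φ : FF A p s) (J : ℕ) (z : Fin ((p ^ s) ^ J) → Fin 2 → A) (hq : 1 ≤ p ^ s) :
    Φ.MM J z = Matrix.projVandermonde (fun a => z a 0) (fun a => z a 1) * Φ.TT J := by
  ext a b
  rw [Matrix.mul_apply]
  have h0 : (p ^ s) ^ J - 1 + 1 = (p ^ s) ^ J := Nat.sub_add_cancel (Nat.one_le_pow _ _ hq)
  have h1 : Φ.MM J z a b = eval (z a) (Φ.QQ J (finFunctionFinEquiv.symm b)) := by
    rw [eval_QQ]; rfl
  rw [h1, eval_hom2 (Φ.QQ_hom J _ hq), h0]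
  rw [← Fin.sum_univ_eq_sum_range (fun j => coeff (ex ((p ^ s) ^ J - 1) j)
    (Φ.QQ J (finFunctionFinEquiv.symm b)) * z a 0 ^ j * z a 1 ^ ((p ^ s) ^ J - 1 - j))]
  refine Finset.sum_congr rfl fun j _ => ?_
  rw [Matrix.projVandermonde_apply, TT, Fin.val_rev]
  have h2 : (p ^ s) ^ J - (↑j + 1) = (p ^ s) ^ J - 1 - ↑j := by omega
  rw [h2]
  ring

theorem det_MM (Φ : FF A p s) (J : ℕ) (z : Fin ((p ^ s) ^ J) → Fin 2 → A) (hq : 1 ≤ p ^ s) :
    (Φ.MM J z).det = (∏ a, ∏ b ∈ Finset.Ioi a, (z b 0 * z a 1 - z a 0 * z b 1)) *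
      (Φ.TT J).det := by
  rw [MM_eq Φ J z hq, Matrix.det_mul, Matrix.det_projVandermonde]

end FF

end alg

section inv

variable {κ : Type} [CommRing κ] {p s : ℕ}

/-- the inverses of the matrices of the iterates -/
def Hk (q : ℕ) (ginv : Matrix (Fin 2) (Fin 2) κ) : ℕ → Matrix (Fin 2) (Fin 2) κ
  | 0 => 1
  | k + 1 => (Hk q ginv k).map (fun x => x ^ q) * ginv

theorem Hk_mul_Gk [CharP κ p] (hp : p.Prime) (g ginv : Matrix (Fin 2) (Fin 2) κ)
    (hg : g * ginv = 1) (k : ℕ) : Hk (p ^ s) ginv k * Gk (p ^ s) g k = 1 := by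
  have : Fact p.Prime := ⟨hp⟩
  have hg' : ginv * g = 1 := mul_eq_one_comm.1 hg
  have hpow : ∀ M : Matrix (Fin 2) (Fin 2) κ, M.map (fun x => x ^ (p ^ s)) =
      M.map (iterateFrobenius κ p s) := by
    intro M; ext i j; simp [iterateFrobenius_def]
  induction k with
  | zero => simp [Hk, Gk]
  | succ k ih =>
    simp only [Hk, Gk]
    rw [mul_assoc, ← mul_assoc ginv, hg', one_mul, hpow, hpow, ← Matrix.map_mul, ih]
    simp

/-- the binary form `(a X + b Y)^ν (c X + d Y)^(q-1-ν)` -/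
noncomputable def PP (q : ℕ) (H : Matrix (Fin 2) (Fin 2) κ) (ν : ℕ) : MvPolynomial (Fin 2) κ :=
  (C (H 0 0) * X 0 + C (H 0 1) * X 1) ^ ν * (C (H 1 0) * X 0 + C (H 1 1) * X 1) ^ (q - 1 - ν)

theorem PP_hom (q : ℕ) (H : Matrix (Fin 2) (Fin 2) κ) (ν : ℕ) (hν : ν < q) :
    (PP q H ν).IsHomogeneous (q - 1) := by
  have h1 : ∀ (a : κ) (j : Fin 2), (C a * X j : MvPolynomial (Fin 2) κ).IsHomogeneous 1 := by
    intro a j
    simpa using isHomogeneous_C_mul_X_pow a j 1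
  have h2 := (((h1 (H 0 0) 0).add (h1 (H 0 1) 1)).pow ν).mul
    (((h1 (H 1 0) 0).add (h1 (H 1 1) 1)).pow (q - 1 - ν))
  have h3 : 1 * ν + 1 * (q - 1 - ν) = q - 1 := by omega
  rw [h3] at h2
  exact h2

variable (Φ : FF κ p s)

theorem act_lin (hϖ : Φ.ϖ = 0) {R : Type} [CommRing R] (ψ : κ →+* R) (z : Fin 2 → R) :
    (Φ.map ψ).act z = lin (p ^ s) Φ.g ψ z := by
  ext i
  rw [FF.act_apply]
  have h1 : (Φ.map ψ).ϖ = 0 := by
    change ψ Φ.ϖ = 0
    rw [hϖ, map_zero]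
  rw [h1, zero_mul, add_zero]
  rfl

theorem It_eq [CharP κ p] (hp : p.Prime) (hϖ : Φ.ϖ = 0) (k : ℕ) (i : Fin 2) :
    Φ.It k i = C (Gk (p ^ s) Φ.g k i 0) * X 0 ^ ((p ^ s) ^ k) +
      C (Gk (p ^ s) Φ.g k i 1) * X 1 ^ ((p ^ s) ^ k) := by
  rw [FF.It, show (Φ.map C).act = lin (p ^ s) Φ.g C from
    funext fun z => act_lin Φ hϖ (C : κ →+* MvPolynomial (Fin 2) κ) z]
  exact lin_iter hp Φ.g C k X i

theorem X_pow_eq [CharP κ p] (hp : p.Prime) (hϖ : Φ.ϖ = 0) (k : ℕ) (j : Fin 2) :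
    (X j : MvPolynomial (Fin 2) κ) ^ ((p ^ s) ^ k) =
      C (Hk (p ^ s) Φ.ginv k j 0) * Φ.It k 0 + C (Hk (p ^ s) Φ.ginv k j 1) * Φ.It k 1 := by
  rw [It_eq Φ hp hϖ, It_eq Φ hp hϖ]
  have h1 := Hk_mul_Gk (s := s) hp Φ.g Φ.ginv Φ.gg k
  set H := Hk (p ^ s) Φ.ginv k with hH
  set G := Gk (p ^ s) Φ.g k with hG
  have h2 : ∀ a b, H a 0 * G 0 b + H a 1 * G 1 b = if a = b then 1 else 0 := by
    intro a b
    have := congrFun (congrFun h1 a) b
    rwa [Matrix.mul_apply, Matrix.one_apply, Fin.sum_univ_two] at this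
  have h3 : C (H j 0) * (C (G 0 0) * X 0 ^ ((p ^ s) ^ k) + C (G 0 1) * X 1 ^ ((p ^ s) ^ k)) +
      C (H j 1) * (C (G 1 0) * X 0 ^ ((p ^ s) ^ k) + C (G 1 1) * X 1 ^ ((p ^ s) ^ k)) =
      C (H j 0 * G 0 0 + H j 1 * G 1 0) * X 0 ^ ((p ^ s) ^ k) +
      C (H j 0 * G 0 1 + H j 1 * G 1 1) * (X 1 : MvPolynomial (Fin 2) κ) ^ ((p ^ s) ^ k) := by
    simp only [C_add, C_mul]; ring
  rw [h3, h2, h2]
  obtain rfl | rfl : j = 0 ∨ j = 1 := by fin_cases j <;> simp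
  · simp
  · simp

/-- explicit inverse -/
noncomputable def TI (J : ℕ) : Matrix (Fin ((p ^ s) ^ J)) (Fin ((p ^ s) ^ J)) κ :=
  fun j b => ∏ i : Fin J, coeff (ex (p ^ s - 1) (finFunctionFinEquiv.symm b i : ℕ))
    (PP (p ^ s) (Hk (p ^ s) Φ.ginv i) (finFunctionFinEquiv.symm j i : ℕ))

theorem mono_expand [CharP κ p] (hp : p.Prime) (hϖ : Φ.ϖ = 0) (J : ℕ)
    (j : Fin ((p ^ s) ^ J)) :
    (X 0 ^ (j : ℕ) * X 1 ^ ((p ^ s) ^ J - 1 - (j : ℕ)) : MvPolynomial (Fin 2) κ) =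
      ∑ b, C (TI Φ J j b) * Φ.QQ J (finFunctionFinEquiv.symm b) := by
  have hq : 1 ≤ p ^ s := Nat.one_le_pow _ _ hp.pos
  obtain ⟨ν, rfl⟩ := finFunctionFinEquiv.surjective j
  have h1 : ((finFunctionFinEquiv ν : Fin ((p ^ s) ^ J)) : ℕ) =
      ∑ i : Fin J, (p ^ s) ^ (i : ℕ) * (ν i : ℕ) := by
    rw [finFunctionFinEquiv_apply]
    exact Finset.sum_congr rfl fun i _ => mul_comm _ _
  have h2 : (p ^ s) ^ J - 1 - ((finFunctionFinEquiv ν : Fin ((p ^ s) ^ J)) : ℕ) =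
      ∑ i : Fin J, (p ^ s) ^ (i : ℕ) * (p ^ s - 1 - (ν i : ℕ)) := by
    rw [h1, ← FF.sum_pow_mul (p ^ s) J hq]
    have h3 : ∑ i : Fin J, (p ^ s) ^ (i : ℕ) * (p ^ s - 1) =
        ∑ i : Fin J, (p ^ s) ^ (i : ℕ) * (ν i : ℕ) +
        ∑ i : Fin J, (p ^ s) ^ (i : ℕ) * (p ^ s - 1 - (ν i : ℕ)) := by
      rw [← Finset.sum_add_distrib]
      refine Finset.sum_congr rfl fun i _ => ?_
      rw [← mul_add]
      congr 1
      have := (ν i).2
      omega
    omega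
  rw [h2, h1, ← Finset.prod_pow_eq_pow_sum, ← Finset.prod_pow_eq_pow_sum,
    ← Finset.prod_mul_distrib]
  have h4 : ∀ i : Fin J, ((X 0 : MvPolynomial (Fin 2) κ) ^ ((p ^ s) ^ (i : ℕ) * (ν i : ℕ)) *
      X 1 ^ ((p ^ s) ^ (i : ℕ) * (p ^ s - 1 - (ν i : ℕ)))) =
      ∑ l : Fin (p ^ s), C (coeff (ex (p ^ s - 1) (l : ℕ))
        (PP (p ^ s) (Hk (p ^ s) Φ.ginv i) (ν i : ℕ))) *
        (Φ.It i 0 ^ (l : ℕ) * Φ.It i 1 ^ (p ^ s - 1 - (l : ℕ))) := by
    intro i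
    rw [pow_mul, pow_mul, X_pow_eq Φ hp hϖ, X_pow_eq Φ hp hϖ]
    have h5 := eval_hom2 ((PP_hom (p ^ s) (Hk (p ^ s) Φ.ginv i) (ν i : ℕ) (ν i).2).map
      (C : κ →+* MvPolynomial (Fin 2) κ)) (Φ.It i)
    rw [Nat.sub_add_cancel hq] at h5
    rw [← Fin.sum_univ_eq_sum_range (fun l => coeff (ex (p ^ s - 1) l)
      (MvPolynomial.map C (PP (p ^ s) (Hk (p ^ s) Φ.ginv i) (ν i : ℕ))) * Φ.It i 0 ^ l *
      Φ.It i 1 ^ (p ^ s - 1 - l))] at h5
    simp only [coeff_map, mul_assoc] at h5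
    rw [← h5, PP]
    simp
  rw [Finset.prod_congr rfl fun i _ => h4 i, Finset.prod_univ_sum, Fintype.piFinset_univ]
  rw [← finFunctionFinEquiv.sum_comp]
  refine Finset.sum_congr rfl fun μ _ => ?_
  rw [Finset.prod_mul_distrib, TI, map_prod, FF.QQ]
  simp

theorem TI_mul [CharP κ p] (hp : p.Prime) (hϖ : Φ.ϖ = 0) (J : ℕ) :
    TI Φ J * (Φ.TT J).transpose = 1 := by
  ext j j'
  rw [Matrix.mul_apply, Matrix.one_apply]
  have h1 := congrArg (coeff (ex ((p ^ s) ^ J - 1) j')) (mono_expand Φ hp hϖ J j)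
  rw [coeff_sum] at h1
  simp only [coeff_C_mul] at h1
  simp only [Matrix.transpose_apply, FF.TT]
  rw [← h1]
  have h2 := monomial_ex (A := κ) ((p ^ s) ^ J - 1) j 1
  rw [C_1, one_mul] at h2
  rw [← h2, coeff_monomial]
  by_cases h : j = j'
  · rw [if_pos (by rw [h]), if_pos h]
  · rw [if_neg (fun h3 => h (Fin.ext (ex_inj h3))), if_neg h]

theorem det_TT_ne_zero [CharP κ p] [Nontrivial κ] (hp : p.Prime) (hϖ : Φ.ϖ = 0) (J : ℕ) :
    (Φ.TT J).det ≠ 0 := by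
  intro h0
  have h1 := congrArg Matrix.det (TI_mul Φ hp hϖ J)
  rw [Matrix.det_mul, Matrix.det_transpose, h0, mul_zero, Matrix.det_one] at h1
  exact zero_ne_one h1

end inv

section arith

variable {N : Type} [Field N] [NumberField N]

omit [NumberField N] in
theorem det_le_abv (abv : AbsoluteValue N ℝ) {n : ℕ} (M : Matrix (Fin n) (Fin n) N)
    (b : Fin n → ℝ) (h : ∀ i j, abv (M i j) ≤ b i) :
    abv M.det ≤ (n.factorial : ℝ) * ∏ i, b i := by
  calc abv M.det = abv (∑ σ : Equiv.Perm (Fin n), Equiv.Perm.sign σ • ∏ i, M (σ i) i) :=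
        congrArg abv (Matrix.det_apply _)
    _ ≤ ∑ σ : Equiv.Perm (Fin n), abv (Equiv.Perm.sign σ • ∏ i, M (σ i) i) := abv.sum_le _ _
    _ = ∑ σ : Equiv.Perm (Fin n), ∏ i, abv (M (σ i) i) :=
      Finset.sum_congr rfl fun σ _ => by rw [abv.map_units_int_smul, abv.map_prod]
    _ ≤ ∑ σ : Equiv.Perm (Fin n), ∏ i, b (σ i) := by
      refine Finset.sum_le_sum fun σ _ => ?_
      exact Finset.prod_le_prod (fun i _ => abv.nonneg _) fun i _ => h _ _
    _ = (n.factorial : ℝ) * ∏ i, b i := by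
      simp_rw [Equiv.prod_comp]
      simp [Fintype.card_perm]

theorem finitePlace_sum_le (w : FinitePlace N) {ι : Type*} (s : Finset ι) (f : ι → N) (c : ℝ)
    (hc : 0 ≤ c) (h : ∀ i ∈ s, w (f i) ≤ c) : w (∑ i ∈ s, f i) ≤ c := by
  induction s using Finset.induction_on with
  | empty => simpa using hc
  | insert a s ha ih =>
    rw [Finset.sum_insert ha]
    refine (FinitePlace.add_le w _ _).trans (max_le (h a (Finset.mem_insert_self _ _)) ?_)
    exact ih fun i hi => h i (Finset.mem_insert_of_mem hi)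

theorem det_le_finite (w : FinitePlace N) {n : ℕ} (M : Matrix (Fin n) (Fin n) N)
    (b : Fin n → ℝ) (hb : ∀ i, 0 ≤ b i) (h : ∀ i j, w (M i j) ≤ b i) :
    w M.det ≤ ∏ i, b i := by
  rw [Matrix.det_apply]
  refine finitePlace_sum_le w _ _ _ (Finset.prod_nonneg fun i _ => hb i) ?_
  intro σ _
  have h1 : w (Equiv.Perm.sign σ • ∏ i, M (σ i) i) = ∏ i, w (M (σ i) i) := by
    rcases Int.units_eq_one_or (Equiv.Perm.sign σ) with h2 | h2
    · rw [h2, one_smul, map_prod]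
    · rw [h2, Units.neg_smul, one_smul, map_neg_eq_map, map_prod]
  rw [h1]
  calc ∏ i, w (M (σ i) i) ≤ ∏ i, b (σ i) :=
        Finset.prod_le_prod (fun i _ => apply_nonneg w _) fun i _ => h _ _
    _ = ∏ i, b i := Equiv.prod_comp σ b

variable {p s : ℕ}

omit [NumberField N] in
theorem entry_le {F : Type*} [FunLike F N ℝ] [MonoidWithZeroHomClass F N ℝ]
    [NonnegHomClass F N ℝ] (w : F) (Ψ : FF N p s) (J : ℕ)
    (z : Fin ((p ^ s) ^ J) → Fin 2 → N) (a b : Fin ((p ^ s) ^ J)) :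
    w (Ψ.MM J z a b) ≤ ∏ i : Fin J, (⨆ l, w (Ψ.act^[i] (z a) l)) ^ (p ^ s - 1) := by
  unfold FF.MM
  rw [map_prod]
  refine Finset.prod_le_prod (fun i _ => apply_nonneg w _) fun i _ => ?_
  rw [map_mul, map_pow, map_pow]
  set μ := finFunctionFinEquiv.symm b with hμ
  have h1 : (μ i : ℕ) + (p ^ s - 1 - (μ i : ℕ)) = p ^ s - 1 := by
    have := (μ i).2
    omega
  rw [← h1, pow_add, h1]
  have h2 : ∀ l, w (Ψ.act^[i] (z a) l) ≤ ⨆ l, w (Ψ.act^[i] (z a) l) := fun l =>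
    Finite.le_ciSup (fun l => w (Ψ.act^[i] (z a) l)) l
  exact mul_le_mul (pow_le_pow_left₀ (apply_nonneg w _) (h2 0) _)
    (pow_le_pow_left₀ (apply_nonneg w _) (h2 1) _) (pow_nonneg (apply_nonneg w _) _)
    (pow_nonneg ((apply_nonneg w _).trans (h2 0)) _)

variable {K : Type} [Field K] [NumberField K] [Algebra K N]
variable {v : FinitePlace K} (Φ : FF (OW v) p s)

theorem det_TT_v (hϖ : v (Φ.ϖ : K) < 1) (hp : p.Prime) (J : ℕ) : (Φ.TT J).det ≠ 0 := by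
  intro h0
  have := charP_kap Φ hϖ hp
  have hnt : Nontrivial (OW v ⧸ MW v) :=
    Ideal.Quotient.nontrivial_iff.2 (MW_prime v).ne_top
  have hmk : (Φ.map (Ideal.Quotient.mk (MW v))).ϖ = 0 := by
    change Ideal.Quotient.mk (MW v) Φ.ϖ = 0
    rw [Ideal.Quotient.eq_zero_iff_mem]
    exact hϖ
  apply det_TT_ne_zero (Φ.map (Ideal.Quotient.mk (MW v))) hp hmk J
  rw [FF.det_map_TT, h0, map_zero]

theorem det_TT_N (hϖ : v (Φ.ϖ : K) < 1) (hp : p.Prime) (J : ℕ) :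
    ((Φ.map (toN v N)).TT J).det ≠ 0 := by
  rw [FF.det_map_TT]
  intro h0
  have h1 : algebraMap K N (((Φ.TT J).det : OW v) : K) = 0 := h0
  have h2 : (((Φ.TT J).det : OW v) : K) = 0 := by simpa using h1
  exact det_TT_v Φ hϖ hp J (Subtype.ext h2)

theorem log_dw {w : FinitePlace N} {z z' : Fin 2 → N} (hz : z ≠ 0) (hz' : z' ≠ 0)
    (hb : br z z' ≠ 0) :
    - Real.log (dw w z z') = Real.log (nrm w z) + Real.log (nrm w z') -
      Real.log (w (br z z')) := by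
  have h1 := nrm_pos w hz
  have h2 := nrm_pos w hz'
  have h3 : 0 < w (br z z') := FinitePlace.pos_iff.2 hb
  unfold dw
  rw [Real.log_div h3.ne' (by positivity), Real.log_mul h1.ne' h2.ne']
  ring

theorem sum_pairs {n : ℕ} (c : Fin n → ℝ) :
    ∑ a, ∑ b ∈ Finset.Ioi a, (c a + c b) = ((n : ℝ) - 1) * ∑ a, c a := by
  have h1 : ∑ a, ∑ b ∈ Finset.Ioi a, (c a + c b) =
      ∑ a, ∑ b ∈ Finset.Ioi a, c a + ∑ a, ∑ b ∈ Finset.Ioi a, c b := by
    rw [← Finset.sum_add_distrib]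
    exact Finset.sum_congr rfl fun a _ => Finset.sum_add_distrib
  have h2 : ∑ a, ∑ b ∈ Finset.Ioi a, c b = ∑ b, ∑ a ∈ Finset.Iio b, c b := by
    rw [Finset.sum_comm' (t' := Finset.univ) (s' := fun b => Finset.Iio b)]
    intro a b
    simp
  rw [h1, h2, ← Finset.sum_add_distrib, Finset.mul_sum]
  refine Finset.sum_congr rfl fun a _ => ?_
  rw [Finset.sum_const, Finset.sum_const, Fin.card_Ioi, Fin.card_Iio, ← add_smul, nsmul_eq_mul]
  have h3 : n - 1 - (a : ℕ) + (a : ℕ) = n - 1 := by have := a.2; omega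
  rw [h3, Nat.cast_sub (by have := a.2; omega)]
  simp

/-- **The energy inequality.** -/
theorem energy_fin (hϖ : v (Φ.ϖ : K) < 1) (hp : p.Prime)
    (S : Finset (FinitePlace N)) (e : FinitePlace N → ℕ) (hS : ∀ w ∈ S, Above v w (e w))
    (hne : S.Nonempty) (J : ℕ) (z : Fin ((p ^ s) ^ J) → Fin 2 → N) (hz : ∀ a, z a ≠ 0)
    (hzz : ∀ a b, a ≠ b → br (z a) (z b) ≠ 0) :
    ∑ w ∈ S, ∑ a, ∑ b ∈ Finset.Ioi a, - Real.log (dw w (z a) (z b)) ≤
      ∑ a, ∑ i ∈ Finset.range J, (((p ^ s : ℕ) : ℝ) - 1) *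
        Height.logHeight ((Φ.map (toN v N)).act^[i] (z a)) +
      Module.finrank ℚ N * Real.log ((p ^ s) ^ J).factorial := by
  have hq : p ^ s ≠ 0 := pow_ne_zero _ hp.ne_zero
  have hq1 : 1 ≤ p ^ s := Nat.one_le_pow _ _ hp.pos
  set Ψ := Φ.map (toN v N) with hΨ
  obtain ⟨w0, hw0⟩ := hne
  have hact : ∀ (i : ℕ) a, Ψ.act^[i] (z a) ≠ 0 := fun i a =>
    act_iter_ne_zero Φ (hS w0 hw0) hϖ hq i (z a) (hz a)
  set D : N := ∏ a, ∏ b ∈ Finset.Ioi a, (z b 0 * z a 1 - z a 0 * z b 1) with hD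
  have hDbr : ∀ a b, z b 0 * z a 1 - z a 0 * z b 1 = - br (z a) (z b) := by
    intro a b; simp [br]; ring
  have hD0 : D ≠ 0 := by
    rw [hD]
    refine Finset.prod_ne_zero_iff.2 fun a _ => Finset.prod_ne_zero_iff.2 fun b hb => ?_
    rw [hDbr, neg_ne_zero]
    exact hzz a b (Finset.mem_Ioi.1 hb).ne
  have hdet := Ψ.det_MM J z hq1
  rw [← hD] at hdet
  have hT0 : (Ψ.TT J).det ≠ 0 := det_TT_N Φ hϖ hp J
  have hM0 : (Ψ.MM J z).det ≠ 0 := by
    rw [hdet]; exact mul_ne_zero hD0 hT0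
  have hL := liouville (κ := Fin ((p ^ s) ^ J) × Fin J) hM0 (fun k => Ψ.act^[k.2] (z k.1))
    (fun k => hact k.2 k.1) (fun _ => p ^ s - 1) (((p ^ s) ^ J).factorial : ℝ)
    (by exact_mod_cast Nat.one_le_iff_ne_zero.2 (Nat.factorial_ne_zero _))
    (fun w => by
      rw [Fintype.prod_prod_type]
      exact det_le_abv w.1 _ _ fun a b => entry_le w Ψ J z a b)
    (fun w => by
      rw [Fintype.prod_prod_type]
      refine det_le_finite w _ _ (fun a => ?_) fun a b => entry_le w Ψ J z a b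
      refine Finset.prod_nonneg fun i _ => pow_nonneg ?_ _
      exact Real.iSup_nonneg fun l => apply_nonneg w _) S
  have hcast : (((p ^ s - 1 : ℕ) : ℕ) : ℝ) = ((p ^ s : ℕ) : ℝ) - 1 := by
    rw [Nat.cast_sub hq1, Nat.cast_one]
  have hR : ∑ k : Fin ((p ^ s) ^ J) × Fin J, (((p ^ s - 1 : ℕ) : ℕ) : ℝ) *
      Height.logHeight (Ψ.act^[k.2] (z k.1)) =
      ∑ a, ∑ i ∈ Finset.range J, (((p ^ s : ℕ) : ℝ) - 1) *
        Height.logHeight (Ψ.act^[i] (z a)) := by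
    rw [Fintype.sum_prod_type]
    refine Finset.sum_congr rfl fun a _ => ?_
    rw [← Fin.sum_univ_eq_sum_range (fun i => (((p ^ s : ℕ) : ℝ) - 1) *
        Height.logHeight (Ψ.act^[i] (z a))), hcast]
  rw [← hR]
  refine le_trans (Finset.sum_le_sum fun w hw => ?_) hL
  -- local computation
  have h1 : ∀ (i : ℕ) a, ⨆ l, w (Ψ.act^[i] (z a) l) = nrm w (z a) ^ ((p ^ s) ^ i) :=
    fun i a => nrm_act_iter Φ (hS w hw) hϖ hq i (z a) (hz a)
  have h2 : ∑ k : Fin ((p ^ s) ^ J) × Fin J, (((p ^ s - 1 : ℕ) : ℕ) : ℝ) *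
      Real.log (⨆ l, w (Ψ.act^[k.2] (z k.1) l)) =
      ((((p ^ s) ^ J : ℕ) : ℝ) - 1) * ∑ a, Real.log (nrm w (z a)) := by
    rw [Fintype.sum_prod_type, Finset.mul_sum]
    refine Finset.sum_congr rfl fun a _ => ?_
    simp_rw [h1, Real.log_pow]
    have h3 : ∑ i : Fin J, (((p ^ s - 1 : ℕ) : ℕ) : ℝ) *
        ((((p ^ s) ^ (i : ℕ) : ℕ) : ℝ) * Real.log (nrm w (z a))) =
        ((∑ i : Fin J, (p ^ s) ^ (i : ℕ) * (p ^ s - 1) : ℕ) : ℝ) * Real.log (nrm w (z a)) := by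
      rw [Nat.cast_sum, Finset.sum_mul]
      refine Finset.sum_congr rfl fun i _ => ?_
      push_cast
      ring
    rw [h3, FF.sum_pow_mul _ _ hq1, Nat.cast_sub (Nat.one_le_pow _ _ hq1), Nat.cast_one]
  rw [h2, hdet, map_mul, Real.log_mul ((map_ne_zero w).2 hD0) ((map_ne_zero w).2 hT0)]
  have h4 : w (Ψ.TT J).det ≤ 1 := by
    rw [hΨ, FF.det_map_TT]
    exact (hS w hw).le_one _
  have h5 : Real.log (w (Ψ.TT J).det) ≤ 0 := Real.log_nonpos (apply_nonneg w _) h4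
  have h6 : Real.log (w D) = ∑ a, ∑ b ∈ Finset.Ioi a, Real.log (w (br (z a) (z b))) := by
    rw [hD, map_prod, Real.log_prod]
    · refine Finset.sum_congr rfl fun a _ => ?_
      rw [map_prod, Real.log_prod]
      · refine Finset.sum_congr rfl fun b _ => ?_
        rw [hDbr, map_neg_eq_map]
      · intro b hb
        rw [hDbr, map_neg_eq_map, map_ne_zero]
        exact hzz a b (Finset.mem_Ioi.1 hb).ne
    · intro a _
      rw [map_ne_zero]
      refine Finset.prod_ne_zero_iff.2 fun b hb => ?_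
      rw [hDbr, neg_ne_zero]
      exact hzz a b (Finset.mem_Ioi.1 hb).ne
  have h7 : ∑ a, ∑ b ∈ Finset.Ioi a, - Real.log (dw w (z a) (z b)) =
      ∑ a, ∑ b ∈ Finset.Ioi a, (Real.log (nrm w (z a)) + Real.log (nrm w (z b))) -
      ∑ a, ∑ b ∈ Finset.Ioi a, Real.log (w (br (z a) (z b))) := by
    rw [← Finset.sum_sub_distrib]
    refine Finset.sum_congr rfl fun a _ => ?_
    rw [← Finset.sum_sub_distrib]
    refine Finset.sum_congr rfl fun b hb => ?_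
    exact log_dw (hz a) (hz b) (hzz a b (Finset.mem_Ioi.1 hb).ne)
  rw [h7, sum_pairs, h6]
  linarith

/-- Liouville's inequality for two points. -/
theorem liou_two (S : Finset (FinitePlace N)) (z z' : Fin 2 → N) (hz : z ≠ 0) (hz' : z' ≠ 0)
    (hb : br z z' ≠ 0) :
    ∑ w ∈ S, - Real.log (dw w z z') ≤
      Height.logHeight z + Height.logHeight z' + Module.finrank ℚ N * Real.log 2 := by
  have hL := liouville (κ := Fin 2) hb ![z, z']
    (fun k => by fin_cases k <;> simpa) (fun _ => 1) 2 (by norm_num)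
    (fun w => by
      simp only [pow_one, Fin.prod_univ_two, Matrix.cons_val_zero, Matrix.cons_val_one]
      have h1 : ∀ (y : Fin 2 → N) l, w (y l) ≤ ⨆ l, w (y l) := fun y l =>
        Finite.le_ciSup (fun l => w (y l)) l
      have h0 : ∀ (y : Fin 2 → N), 0 ≤ ⨆ l, w (y l) := fun y =>
        (apply_nonneg w _).trans (h1 y 0)
      have h2 : w (z 0 * z' 1) ≤ (⨆ l, w (z l)) * ⨆ l, w (z' l) := by
        rw [map_mul]
        exact mul_le_mul (h1 z 0) (h1 z' 1) (apply_nonneg w _) (h0 z)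
      have h3 : w (z 1 * z' 0) ≤ (⨆ l, w (z l)) * ⨆ l, w (z' l) := by
        rw [map_mul]
        exact mul_le_mul (h1 z 1) (h1 z' 0) (apply_nonneg w _) (h0 z)
      have h4 : w (br z z') ≤ w (z 0 * z' 1) + w (z 1 * z' 0) := by
        unfold br
        exact w.1.sub_le_add _ _
      linarith)
    (fun w => by
      simp only [pow_one, Fin.prod_univ_two, Matrix.cons_val_zero, Matrix.cons_val_one]
      exact w_br_le w z z') S
  simp only [Nat.cast_one, one_mul, Fin.sum_univ_two, Matrix.cons_val_zero,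
    Matrix.cons_val_one] at hL
  refine le_trans (Finset.sum_le_sum fun w _ => ?_) hL
  rw [log_dw hz hz' hb]
  exact le_rfl

end arith

end Pool.DynLehmer
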