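import Mathlib

set_option autoImplicit false

/-!
# Heights of tuples: formula and behaviour under field extensions
-/

namespace Pool.DynLehmer

open NumberField Height Finset
open scoped Classical

section inf

variable {L : Type*} [Field L] [NumberField L]

theorem prod_emb_eq (g : InfinitePlace L → ℝ) :
    ∏ φ : L →+* ℂ, g (InfinitePlace.mk φ) = ∏ v : InfinitePlace L, g v ^ v.mult := by
  rw [← Finset.prod_fiberwise (s := Finset.univ) (g := fun φ : L →+* ℂ => InfinitePlace.mk φ)]
  refine Finset.prod_congr rfl fun v _ => ?_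
  rw [Finset.prod_congr rfl (g := fun _ => g v)]
  · rw [Finset.prod_const, InfinitePlace.card_filter_mk_eq]
  · intro φ hφ
    rw [(Finset.mem_filter.1 hφ).2]

variable {N : Type*} [Field N] [NumberField N] [Algebra L N]

theorem card_ext (ψ : L →+* ℂ) :
    (Finset.univ.filter fun φ : N →+* ℂ => φ.comp (algebraMap L N) = ψ).card
      = Module.finrank L N := by
  let _ : Algebra L ℂ := ψ.toAlgebra
  rw [← AlgHom.card L N ℂ]
  symm
  refine Finset.card_bij (fun f _ => f.toRingHom) ?_ ?_ ?_
  · intro f _
    rw [Finset.mem_filter]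
    refine ⟨Finset.mem_univ _, ?_⟩
    ext a
    exact f.commutes a
  · intro f _ g _ h
    ext a
    exact congrArg (fun r : N →+* ℂ => r a) h
  · intro φ hφ
    rw [Finset.mem_filter] at hφ
    refine ⟨{ φ with commutes' := fun r => ?_ }, Finset.mem_univ _, ?_⟩
    · exact congrArg (fun f : L →+* ℂ => f r) hφ.2
    · ext a; rfl

theorem prod_inf_ext (g : InfinitePlace L → ℝ) :
    ∏ w : InfinitePlace N, g (w.comap (algebraMap L N)) ^ w.mult =
      (∏ v : InfinitePlace L, g v ^ v.mult) ^ Module.finrank L N := by
  rw [← prod_emb_eq (L := N) (fun w => g (w.comap (algebraMap L N))), ← prod_emb_eq]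
  rw [← Finset.prod_fiberwise (s := Finset.univ)
    (g := fun φ : N →+* ℂ => φ.comp (algebraMap L N)), ← Finset.prod_pow]
  refine Finset.prod_congr rfl fun ψ _ => ?_
  rw [Finset.prod_congr rfl (g := fun _ => g (InfinitePlace.mk ψ))]
  · rw [Finset.prod_const, card_ext]
  · intro φ hφ
    rw [← (Finset.mem_filter.1 hφ).2, InfinitePlace.comap_mk]

end inf

section main

variable {L : Type*} [Field L] [NumberField L] {N : Type*} [Field N] [NumberField N] [Algebra L N]
variable {ι : Type*} [Finite ι]

theorem mulHeight_algebraMap_int (a : ι → 𝓞 L) (ha : a ≠ 0) :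
    mulHeight (fun i => algebraMap L N (a i : L)) =
      mulHeight (fun i => (a i : L)) ^ Module.finrank L N := by
  have hx : (fun i => (a i : L)) ≠ 0 := by
    intro h
    apply ha
    ext i
    exact congrFun h i
  have hy : (fun i => algebraMap L N (a i : L)) ≠ 0 := by
    intro h
    apply hx
    ext i
    have := congrFun h i
    simpa using this
  set b : ι → 𝓞 N := fun i => algebraMap (𝓞 L) (𝓞 N) (a i) with hb
  have hbi : ∀ i, ((b i : 𝓞 N) : N) = algebraMap L N (a i : L) := fun i => rfl
  have hb0 : b ≠ 0 := by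
    intro h
    apply hy
    ext i
    have := congrFun h i
    rw [← hbi i, this]
    simp
  rw [NumberField.mulHeight_eq hx, NumberField.mulHeight_eq hy, mul_pow]
  have h1 := absNorm_mul_finprod_finitePlace_eq_one ha
  have h2 := absNorm_mul_finprod_finitePlace_eq_one hb0
  have h3 : Ideal.span (Set.range b) = (Ideal.span (Set.range a)).map (algebraMap (𝓞 L) (𝓞 N)) := by
    rw [Ideal.map_span, ← Set.range_comp]
    rfl
  rw [h3, Ideal.absNorm_algebraMap] at h2
  have hinf : (∏ w : InfinitePlace N, (⨆ i, w (algebraMap L N (a i : L))) ^ w.mult) =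
      (∏ v : InfinitePlace L, (⨆ i, v (a i : L)) ^ v.mult) ^ Module.finrank L N := by
    rw [← prod_inf_ext (N := N) (fun v => ⨆ i, v (a i : L))]
    rfl
  rw [hinf]
  congr 1
  have hrank : Module.finrank (𝓞 L) (𝓞 N) = Module.finrank L N :=
    (IsFractionRing.finrank_eq (𝓞 L) L (𝓞 N) N).symm
  rw [hrank] at h2
  set A : ℝ := ((Ideal.span (Set.range a)).absNorm : ℝ) with hA
  have hA0 : A ≠ 0 := by
    intro h
    rw [h, zero_mul] at h1
    exact zero_ne_one h1
  have h4 : ∏ᶠ v : FinitePlace L, ⨆ i, v (a i : L) = A⁻¹ := by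
    field_simp
    linarith
  have h5 : ∏ᶠ v : FinitePlace N, ⨆ i, v (b i : N) = (A ^ Module.finrank L N)⁻¹ := by
    have : A ^ Module.finrank L N ≠ 0 := pow_ne_zero _ hA0
    apply eq_inv_of_mul_eq_one_right
    have h6 := h2
    push_cast at h6
    exact h6
  rw [h4, inv_pow, ← h5]
  rfl

/-- the height of a tuple in a bigger field. -/
theorem mulHeight_algebraMap (x : ι → L) :
    mulHeight (fun i => algebraMap L N (x i)) = mulHeight x ^ Module.finrank L N := by
  rcases eq_or_ne x 0 with rfl | hx
  · have : (fun i : ι => algebraMap L N ((0 : ι → L) i)) = 0 := by ext i; simp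
    rw [this, mulHeight_zero, mulHeight_zero, one_pow]
  cases nonempty_fintype ι
  obtain ⟨b, hb⟩ := IsLocalization.exist_integer_multiples_of_finset (nonZeroDivisors (𝓞 L))
    (Finset.univ.image x)
  have hb' : ∀ i, ∃ c : 𝓞 L, (c : L) = (b : 𝓞 L) • x i := by
    intro i
    obtain ⟨c, hc⟩ := hb (x i) (Finset.mem_image_of_mem x (Finset.mem_univ i))
    exact ⟨c, hc⟩
  choose a ha using hb'
  have hb0 : ((b : 𝓞 L) : L) ≠ 0 := by
    have := nonZeroDivisors.ne_zero b.2
    intro h
    exact this (by exact_mod_cast h)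
  have hax : (fun i => (a i : L)) = ((b : 𝓞 L) : L) • x := by
    ext i
    rw [ha i, Pi.smul_apply, smul_eq_mul, Algebra.smul_def]
  have ha0 : a ≠ 0 := by
    intro h
    apply hx
    have h1 : ((b : 𝓞 L) : L) • x = 0 := by
      rw [← hax, h]
      ext i
      simp
    exact (smul_eq_zero.1 h1).resolve_left hb0
  have h1 := mulHeight_algebraMap_int (N := N) a ha0
  have h2 : (fun i => algebraMap L N (a i : L)) =
      (algebraMap L N ((b : 𝓞 L) : L)) • fun i => algebraMap L N (x i) := by
    ext i
    have := congrFun hax i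
    simp only [Pi.smul_apply, smul_eq_mul] at this ⊢
    rw [this, map_mul]
  rw [h2, hax, mulHeight_smul_eq_mulHeight _ (by simp [hb0]),
    mulHeight_smul_eq_mulHeight _ hb0] at h1
  exact h1

theorem logHeight_algebraMap (x : ι → L) :
    logHeight (fun i => algebraMap L N (x i)) = Module.finrank L N * logHeight x := by
  rw [logHeight_eq_log_mulHeight, mulHeight_algebraMap, Real.log_pow, logHeight_eq_log_mulHeight]

end main

section aut

variable {L : Type*} [Field L] [NumberField L] {N : Type*} [Field N] [NumberField N]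
variable {ι : Type*} [Finite ι]

/-- the height is invariant under isomorphisms -/
theorem logHeight_ringEquiv (σ : L ≃+* N) (x : ι → L) :
    logHeight (fun i => σ (x i)) = logHeight x := by
  let _ : Algebra L N := σ.toRingHom.toAlgebra
  have h := logHeight_algebraMap (N := N) x
  have h1 : Module.finrank L N = 1 := by
    have e : L ≃ₐ[L] N := AlgEquiv.ofBijective (Algebra.ofId L N) σ.bijective
    rw [← e.toLinearEquiv.finrank_eq, Module.finrank_self]
  rw [h1, Nat.cast_one, one_mul] at h
  exact h

end aut

end Pool.DynLehmer
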