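import Mathlib
import Pool.Agent.Lib.MP_2194ec_nt.Abstract
import Pool.Agent.Lib.MP_2194ec_nt.Local

set_option autoImplicit false

/-!
# Points of the projective line and the Galois action
-/

namespace Pool.DynLehmer
open MvPolynomial NumberField
open scoped Classical

/-- normalized points -/
structure Pt (N : Type) [Field N] where
  val : Fin 2 → N
  prop : val 1 = 1 ∨ (val 1 = 0 ∧ val 0 = 1)

section pt

variable {N : Type} [Field N]

theorem Pt.ext' {P Q : Pt N} (h : P.val = Q.val) : P = Q := by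
  cases P; cases Q; congr

theorem Pt.ne_zero (P : Pt N) : P.val ≠ 0 := by
  intro h
  have h0 := congrFun h 0
  have h1 := congrFun h 1
  rcases P.prop with h2 | h2
  · rw [h2] at h1; exact one_ne_zero h1
  · rw [h2.2] at h0; exact one_ne_zero h0

theorem Pt.br_eq_zero {P Q : Pt N} : br P.val Q.val = 0 ↔ P = Q := by
  constructor
  · intro h
    apply Pt.ext'
    unfold br at h
    rcases P.prop with h1 | ⟨h1, h2⟩ <;> rcases Q.prop with h3 | ⟨h3, h4⟩
    · rw [h1, h3] at h
      ext i
      fin_cases i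
      · change P.val 0 = Q.val 0
        linear_combination h
      · change P.val 1 = Q.val 1
        rw [h1, h3]
    · rw [h1, h3, h4] at h
      simp at h
    · rw [h1, h2, h3] at h
      simp at h
    · ext i
      fin_cases i
      · change P.val 0 = Q.val 0
        rw [h2, h4]
      · change P.val 1 = Q.val 1
        rw [h1, h3]
  · rintro rfl
    simp [br, mul_comm]

/-- normalization -/
noncomputable def nz (z : Fin 2 → N) : Pt N :=
  if z 1 = 0 then ⟨![1, 0], Or.inr ⟨rfl, rfl⟩⟩ else ⟨![z 0 / z 1, 1], Or.inl rfl⟩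

theorem nz_spec {z : Fin 2 → N} (hz : z ≠ 0) : ∃ c : N, c ≠ 0 ∧ z = c • (nz z).val := by
  unfold nz
  split_ifs with h
  · refine ⟨z 0, ?_, ?_⟩
    · intro h0
      apply hz
      ext i
      fin_cases i
      · exact h0
      · exact h
    · ext i
      fin_cases i
      · simp
      · simp [h]
  · refine ⟨z 1, h, ?_⟩
    ext i
    fin_cases i
    · simp [mul_div_cancel₀ _ h]
    · simp

theorem nz_val (P : Pt N) : nz P.val = P := by
  obtain ⟨c, hc, h⟩ := nz_spec P.ne_zero
  rw [← Pt.br_eq_zero]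
  have h1 : br (nz P.val).val P.val = br (nz P.val).val (c • (nz P.val).val) :=
    congrArg _ h
  rw [h1]
  simp only [br, Pi.smul_apply, smul_eq_mul]
  ring

theorem nz_smul {c : N} (hc : c ≠ 0) (z : Fin 2 → N) (hz : z ≠ 0) : nz (c • z) = nz z := by
  have hcz : c • z ≠ 0 := smul_ne_zero hc hz
  obtain ⟨a, ha, h1⟩ := nz_spec hcz
  obtain ⟨b, hb, h2⟩ := nz_spec hz
  rw [← Pt.br_eq_zero]
  have h3 : a * b * br (nz (c • z)).val (nz z).val = 0 := by
    have h4 : br (a • (nz (c • z)).val) (b • (nz z).val) =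
        a * b * br (nz (c • z)).val (nz z).val := br_smul_smul _ _ _ _
    rw [← h4, ← h1, ← h2]
    simp only [br, Pi.smul_apply, smul_eq_mul]
    ring
  rcases mul_eq_zero.1 h3 with h | h
  · exact absurd h (mul_ne_zero ha hb)
  · exact h

theorem nz_eq_iff {z z' : Fin 2 → N} (hz : z ≠ 0) (hz' : z' ≠ 0) :
    nz z = nz z' ↔ ∃ c : N, c ≠ 0 ∧ z = c • z' := by
  constructor
  · intro h
    obtain ⟨a, ha, h1⟩ := nz_spec hz
    obtain ⟨b, hb, h2⟩ := nz_spec hz'
    refine ⟨a / b, div_ne_zero ha hb, ?_⟩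
    conv_lhs => rw [h1, h]
    conv_rhs => rw [h2]
    rw [smul_smul, div_mul_cancel₀ _ hb]
  · rintro ⟨c, hc, rfl⟩
    exact nz_smul hc z' hz'

/-- group action -/
noncomputable instance instPtAction {G : Type} [Group G] [MulSemiringAction G N] : MulAction G (Pt N) where
  smul g P := ⟨fun i => g • P.val i, by
    rcases P.prop with h | ⟨h, h'⟩
    · left; rw [h, smul_one]
    · right; exact ⟨by rw [h, smul_zero], by rw [h', smul_one]⟩⟩
  one_smul P := Pt.ext' (by ext i; exact one_smul G _)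
  mul_smul g h P := Pt.ext' (by ext i; exact mul_smul g h _)

theorem smul_val {G : Type} [Group G] [MulSemiringAction G N] (g : G) (P : Pt N) (i : Fin 2) :
    (g • P).val i = g • P.val i := rfl

end pt

section dyn

variable {N : Type} [Field N] {p s : ℕ} (Ψ : FF N p s)

/-- the map on points -/
noncomputable def fpt (P : Pt N) : Pt N := nz (Ψ.act P.val)

variable (hΨ : ∀ z : Fin 2 → N, z ≠ 0 → Ψ.act z ≠ 0)

include hΨ in
theorem act_iter_ne (k : ℕ) (z : Fin 2 → N) (hz : z ≠ 0) : Ψ.act^[k] z ≠ 0 := by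
  induction k with
  | zero => exact hz
  | succ k ih => rw [Function.iterate_succ_apply']; exact hΨ _ ih

include hΨ in
theorem fpt_iter (k : ℕ) (P : Pt N) : (fpt Ψ)^[k] P = nz (Ψ.act^[k] P.val) := by
  induction k with
  | zero => exact (nz_val P).symm
  | succ k ih =>
    rw [Function.iterate_succ_apply', Function.iterate_succ_apply', ih, fpt]
    have hk := act_iter_ne Ψ hΨ k P.val P.ne_zero
    obtain ⟨c, hc, h⟩ := nz_spec hk
    conv_rhs => rw [h]
    rw [FF.act_smul, nz_smul (pow_ne_zero _ hc)]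
    exact hΨ _ (nz _).ne_zero

include hΨ in
theorem fpt_nz (z : Fin 2 → N) (hz : z ≠ 0) : fpt Ψ (nz z) = nz (Ψ.act z) := by
  obtain ⟨c, hc, h⟩ := nz_spec hz
  conv_rhs => rw [h]
  rw [FF.act_smul, nz_smul (pow_ne_zero _ hc)]
  · rfl
  · exact hΨ _ (nz _).ne_zero

include hΨ in
theorem fpt_iter_nz (k : ℕ) (z : Fin 2 → N) (hz : z ≠ 0) :
    (fpt Ψ)^[k] (nz z) = nz (Ψ.act^[k] z) := by
  induction k with
  | zero => rfl
  | succ k ih =>
    rw [Function.iterate_succ_apply', Function.iterate_succ_apply', ih,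
      fpt_nz Ψ hΨ _ (act_iter_ne Ψ hΨ k z hz)]

end dyn

section orbpoly

variable {K : Type} [Field K] [NumberField K] {N : Type} [Field N] [NumberField N] [Algebra K N]
  [IsGalois K N]

/-- the orbit polynomial is defined over `K` -/
theorem orb_poly (x : Pt N) : ∃ P : MvPolynomial (Fin 2) K,
    ∏ y ∈ (orb (N ≃ₐ[K] N) x).image Pt.val, (C (y 0) * X 1 - C (y 1) * X 0) =
      map (algebraMap K N) P := by
  set O := orb (N ≃ₐ[K] N) x with hO
  have hinj : Set.InjOn Pt.val (O : Set (Pt N)) := fun P _ Q _ h => Pt.ext' h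
  rw [Finset.prod_image hinj]
  set R : MvPolynomial (Fin 2) N := ∏ y ∈ O, (C (y.val 0) * X 1 - C (y.val 1) * X 0) with hR
  have hinv : ∀ σ : N ≃ₐ[K] N, map (σ.toRingEquiv.toRingHom) R = R := by
    intro σ
    set τ : N →+* N := σ.toRingEquiv.toRingHom with hτ
    have h1 : ∀ y ∈ O, map τ (C (y.val 0) * X 1 - C (y.val 1) * X 0 : MvPolynomial (Fin 2) N) =
        C ((σ • y).val 0) * X 1 - C ((σ • y).val 1) * X 0 := by
      intro y _
      simp only [map_sub, map_mul, map_C, map_X]
      rfl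
    rw [hR, map_prod, Finset.prod_congr rfl h1]
    have h2 : O.image (fun y => σ • y) = O := by
      apply Finset.eq_of_subset_of_card_le
      · intro y hy
        obtain ⟨y', hy', rfl⟩ := Finset.mem_image.1 hy
        rw [hO] at hy' ⊢
        have h3 := smul_mem_orb (G := N ≃ₐ[K] N) σ y'
        rwa [orb_eq_of_mem hy'] at h3
      · rw [Finset.card_image_of_injective _ (MulAction.injective σ)]
    conv_rhs => rw [← h2]
    rw [Finset.prod_image (fun a _ b _ h => MulAction.injective σ h)]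
  have h3 : R ∈ Set.range (map (σ := Fin 2) (algebraMap K N)) := by
    rw [mem_range_map_iff_coeffs_subset]
    intro a ha
    rw [Finset.mem_coe, mem_coeffs_iff] at ha
    obtain ⟨u, _, rfl⟩ := ha
    rw [IsGalois.mem_range_algebraMap_iff_fixed]
    intro σ
    conv_rhs => rw [← hinv σ]
    rw [coeff_map]
    rfl
  obtain ⟨P, hP⟩ := h3
  exact ⟨P, hP.symm⟩

end orbpoly

end Pool.DynLehmer
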