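import Mathlib
import Pool.Agent.Lib.MP_2194ec_nt.Energy
import Pool.Agent.Lib.MP_2194ec_nt.Heights
import Pool.Agent.Lib.MP_2194ec_nt.Points

set_option autoImplicit false

/-!
# Construction of the abstract data
-/

namespace Pool.DynLehmer
open MvPolynomial NumberField
open scoped Classical

section asm

variable {K : Type} [Field K] [NumberField K] {N : Type} [Field N] [NumberField N] [Algebra K N]
variable {p s : ℕ} {v : FinitePlace K} (Φ : FF (OW v) p s)

theorem dw_nz (w : FinitePlace N) {z z' : Fin 2 → N} (hz : z ≠ 0) (hz' : z' ≠ 0) :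
    dw w (nz z).val (nz z').val = dw w z z' := by
  obtain ⟨c, hc, h⟩ := nz_spec hz
  obtain ⟨c', hc', h'⟩ := nz_spec hz'
  conv_rhs => rw [h, h']
  rw [dw_smul w hc hc']

theorem dw_nz_right (w : FinitePlace N) (x : Fin 2 → N) {z' : Fin 2 → N} (hz' : z' ≠ 0) :
    dw w x (nz z').val = dw w x z' := by
  obtain ⟨c', hc', h'⟩ := nz_spec hz'
  conv_rhs => rw [h', ← one_smul N x]
  rw [dw_smul w one_ne_zero hc']

theorem dw_nz_left (w : FinitePlace N) (x : Fin 2 → N) {z' : Fin 2 → N} (hz' : z' ≠ 0) :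
    dw w (nz z').val x = dw w z' x := by
  rw [dw_symm, dw_nz_right w x hz', dw_symm]

/-- the local energy -/
noncomputable def Ew (Φ : FF (OW v) p s) (w : FinitePlace N) (P Q : Pt N) : ℝ :=
  - Real.log (dw w P.val Q.val) / - Real.log (w (toN v N Φ.ϖ))

theorem dw_self (w : FinitePlace N) (z : Fin 2 → N) : dw w z z = 0 := by
  unfold dw br; simp [mul_comm]

theorem dw_pos_of_ne (w : FinitePlace N) {P Q : Pt N} (h : P ≠ Q) : 0 < dw w P.val Q.val := by
  rw [dw_pos_iff w P.ne_zero Q.ne_zero]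
  exact fun h0 => h (Pt.br_eq_zero.1 h0)

variable {Φ}

theorem w_unif_pos (hϖ0 : (Φ.ϖ : K) ≠ 0) (w : FinitePlace N) : 0 < w (toN v N Φ.ϖ) := by
  rw [FinitePlace.pos_iff]
  change algebraMap K N (Φ.ϖ : K) ≠ 0
  simpa using hϖ0

theorem lw_pos {w : FinitePlace N} {e : ℕ} (h : Above v w e) (hϖ : v (Φ.ϖ : K) < 1)
    (hϖ0 : (Φ.ϖ : K) ≠ 0) : 0 < - Real.log (w (toN v N Φ.ϖ)) :=
  neg_pos.2 (Real.log_neg (w_unif_pos hϖ0 w) (w_unif Φ h hϖ))

theorem lw_eq {w : FinitePlace N} {e : ℕ} (h : Above v w e) :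
    - Real.log (w (toN v N Φ.ϖ)) = e * - Real.log (v (Φ.ϖ : K)) := by
  change - Real.log (w (algebraMap K N (Φ.ϖ : K))) = _
  rw [h.2, Real.log_pow]
  ring

theorem Ew_nonneg {w : FinitePlace N} {e : ℕ} (h : Above v w e) (hϖ : v (Φ.ϖ : K) < 1)
    (hϖ0 : (Φ.ϖ : K) ≠ 0) (P Q : Pt N) : 0 ≤ Ew Φ w P Q :=
  div_nonneg (neg_nonneg.2 (Real.log_nonpos (dw_nonneg w _ _) (dw_le_one w _ _)))
    (lw_pos h hϖ hϖ0).le

theorem Ew_pos_iff {w : FinitePlace N} {e : ℕ} (h : Above v w e) (hϖ : v (Φ.ϖ : K) < 1)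
    (hϖ0 : (Φ.ϖ : K) ≠ 0) {P Q : Pt N} (hPQ : P ≠ Q) : 0 < Ew Φ w P Q ↔ dw w P.val Q.val < 1 := by
  unfold Ew
  rw [div_pos_iff_of_pos_right (lw_pos h hϖ hϖ0), neg_pos,
    Real.log_neg_iff (dw_pos_of_ne w hPQ)]

theorem Ew_self (w : FinitePlace N) (P : Pt N) : Ew Φ w P P = 0 := by
  unfold Ew; rw [dw_self]; simp

theorem Ew_symm (w : FinitePlace N) (P Q : Pt N) : Ew Φ w P Q = Ew Φ w Q P := by
  unfold Ew; rw [dw_symm]

theorem hΨ {w : FinitePlace N} {e : ℕ} (h : Above v w e) (hϖ : v (Φ.ϖ : K) < 1) (hp : p.Prime) :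
    ∀ z : Fin 2 → N, z ≠ 0 → (Φ.map (toN v N)).act z ≠ 0 := fun z hz =>
  act_ne_zero Φ h hϖ (pow_ne_zero _ hp.ne_zero) z hz

theorem Ew_f {w : FinitePlace N} {e : ℕ} (h : Above v w e) (hϖ : v (Φ.ϖ : K) < 1)
    (hϖ0 : (Φ.ϖ : K) ≠ 0) (hp : p.Prime) (P Q : Pt N)
    (hne : fpt (Φ.map (toN v N)) P ≠ fpt (Φ.map (toN v N)) Q) :
    min (((p ^ s : ℕ) : ℝ) * Ew Φ w P Q) (Ew Φ w P Q + 1) ≤
      Ew Φ w (fpt (Φ.map (toN v N)) P) (fpt (Φ.map (toN v N)) Q) := by
  have hPQ : P ≠ Q := by rintro rfl; exact hne rfl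
  have hd := dw_act Φ h hϖ hp P.val Q.val P.ne_zero Q.ne_zero
  have h1 : dw w (fpt (Φ.map (toN v N)) P).val (fpt (Φ.map (toN v N)) Q).val =
      dw w ((Φ.map (toN v N)).act P.val) ((Φ.map (toN v N)).act Q.val) :=
    dw_nz w (hΨ h hϖ hp _ P.ne_zero) (hΨ h hϖ hp _ Q.ne_zero)
  rw [← h1] at hd
  have hpos1 := dw_pos_of_ne w hne
  have hpos2 := dw_pos_of_ne w hPQ
  have hL := lw_pos h hϖ hϖ0
  have hπ := w_unif_pos (N := N) hϖ0 w
  unfold Ew
  set l := - Real.log (w (toN v N Φ.ϖ)) with hl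
  set d' := dw w (fpt (Φ.map (toN v N)) P).val (fpt (Φ.map (toN v N)) Q).val with hd'
  set d := dw w P.val Q.val with hdd
  rcases le_max_iff.1 hd with h2 | h2
  · refine (min_le_left _ _).trans ?_
    rw [← mul_div_assoc]
    apply div_le_div_of_nonneg_right _ hL.le
    have h3 := Real.log_le_log hpos1 h2
    rw [Real.log_pow] at h3
    linarith
  · refine (min_le_right _ _).trans ?_
    rw [div_add_one hL.ne']
    apply div_le_div_of_nonneg_right _ hL.le
    have h3 := Real.log_le_log hpos1 h2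
    rw [Real.log_mul hπ.ne' hpos2.ne'] at h3
    linarith

theorem Ew_near {w : FinitePlace N} {e : ℕ} (h : Above v w e) (hϖ : v (Φ.ϖ : K) < 1)
    (hϖ0 : (Φ.ϖ : K) ≠ 0) (hp : p.Prime) (P Q : Pt N)
    (hh : fpt (Φ.map (toN v N)) P = fpt (Φ.map (toN v N)) Q ∨
      0 < Ew Φ w (fpt (Φ.map (toN v N)) P) (fpt (Φ.map (toN v N)) Q)) :
    P = Q ∨ 0 < Ew Φ w P Q := by
  by_cases hPQ : P = Q
  · exact Or.inl hPQ
  right
  rw [Ew_pos_iff h hϖ hϖ0 hPQ]
  apply dw_near Φ h hϖ hp _ _ P.ne_zero Q.ne_zero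
  have h1 : dw w (fpt (Φ.map (toN v N)) P).val (fpt (Φ.map (toN v N)) Q).val =
      dw w ((Φ.map (toN v N)).act P.val) ((Φ.map (toN v N)).act Q.val) :=
    dw_nz w (hΨ h hϖ hp _ P.ne_zero) (hΨ h hϖ hp _ Q.ne_zero)
  rw [← h1]
  by_cases hf : fpt (Φ.map (toN v N)) P = fpt (Φ.map (toN v N)) Q
  · rw [hf, dw_self]; exact one_pos
  · rcases hh with hh | hh
    · exact absurd hh hf
    · exact (Ew_pos_iff h hϖ hϖ0 hf).1 hh

theorem Ew_frob [IsGalois K N] {w : FinitePlace N} {e : ℕ} (h : Above v w e)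
    (hϖ : v (Φ.ϖ : K) < 1) (hϖ0 : (Φ.ϖ : K) ≠ 0)
    (hunif : ∀ a : K, v a < 1 → v a ≤ v (Φ.ϖ : K)) (hp : p.Prime) {k : ℕ} (hk : GoodExp Φ k)
    (x : Pt N) (hx : ∀ y ∈ orb (N ≃ₐ[K] N) x, y ≠ (fpt (Φ.map (toN v N)))^[k] x) :
    1 ≤ ∑ y ∈ orb (N ≃ₐ[K] N) x, Ew Φ w y ((fpt (Φ.map (toN v N)))^[k] x) := by
  obtain ⟨P, hP⟩ := orb_poly (K := K) x
  set O := orb (N ≃ₐ[K] N) x with hO
  have hinj : Set.InjOn Pt.val (O : Set (Pt N)) := fun P _ Q _ h => Pt.ext' h
  have h1 := (frob_disc Φ h hϖ hunif hp hk (O.image Pt.val)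
    (fun y hy => by
      obtain ⟨y', _, rfl⟩ := Finset.mem_image.1 hy
      exact y'.ne_zero) P hP x.val (Finset.mem_image_of_mem _ (self_mem_orb x))).1
  rw [Finset.prod_image hinj] at h1
  have hit := fpt_iter (Φ.map (toN v N)) (hΨ h hϖ hp) k x
  have hne := act_iter_ne (Φ.map (toN v N)) (hΨ h hϖ hp) k x.val x.ne_zero
  have h2 : ∀ y ∈ O, dw w y.val ((Φ.map (toN v N)).act^[k] x.val) =
      dw w y.val ((fpt (Φ.map (toN v N)))^[k] x).val := by
    intro y _
    rw [hit, dw_nz_right w _ hne]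
  rw [Finset.prod_congr rfl h2] at h1
  have hpos : ∀ y ∈ O, 0 < dw w y.val ((fpt (Φ.map (toN v N)))^[k] x).val := fun y hy =>
    dw_pos_of_ne w (hx y hy)
  have h3 := Real.log_le_log (Finset.prod_pos hpos) h1
  rw [Real.log_prod (fun y hy => (hpos y hy).ne')] at h3
  have hL := lw_pos h hϖ hϖ0
  unfold Ew
  rw [← Finset.sum_div, one_le_div hL, Finset.sum_neg_distrib]
  linarith

theorem Ew_disc [IsGalois K N] {w : FinitePlace N} {e : ℕ} (h : Above v w e)
    (hϖ : v (Φ.ϖ : K) < 1) (hϖ0 : (Φ.ϖ : K) ≠ 0)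
    (hunif : ∀ a : K, v a < 1 → v a ≤ v (Φ.ϖ : K)) (hp : p.Prime) (hs : 1 ≤ s)
    (x y : Pt N) (hy : y ∈ orb (N ≃ₐ[K] N) x) (hyx : y ≠ x) (hpos : 0 < Ew Φ w y x) :
    1 ≤ (((orb (N ≃ₐ[K] N) x).filter fun y' => y' = x ∨ 0 < Ew Φ w y' x).card : ℝ) *
      Ew Φ w y x := by
  obtain ⟨P, hP⟩ := orb_poly (K := K) x
  set O := orb (N ≃ₐ[K] N) x with hO
  have hinj : Set.InjOn Pt.val (O : Set (Pt N)) := fun P _ Q _ h => Pt.ext' h
  have hlt := (Ew_pos_iff h hϖ hϖ0 hyx).1 hpos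
  have h1 := disc_bound Φ h hϖ hϖ0 hunif hp hs (O.image Pt.val)
    (fun y hy => by
      obtain ⟨y', _, rfl⟩ := Finset.mem_image.1 hy
      exact y'.ne_zero) P hP x.val y.val (Finset.mem_image_of_mem _ (self_mem_orb x))
    (Finset.mem_image_of_mem _ hy) hlt
  have hM : Mc w (O.image Pt.val) x.val = (O.filter fun y' => y' = x ∨ 0 < Ew Φ w y' x).card := by
    unfold Mc
    rw [Finset.filter_image, Finset.card_image_of_injOn]
    · congr 1
      ext y'
      rw [Finset.mem_filter, Finset.mem_filter]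
      refine and_congr_right fun _ => ?_
      by_cases hyx' : y' = x
      · rw [hyx', dw_self]; simp
      · rw [Ew_pos_iff h hϖ hϖ0 hyx']
        simp [hyx']
    · exact fun P _ Q _ h => Pt.ext' h
  rw [← hM]
  have h3 := Real.log_le_log (pow_pos (dw_pos_of_ne w hyx) _) h1
  rw [Real.log_pow] at h3
  have hL := lw_pos h hϖ hϖ0
  unfold Ew
  rw [← mul_div_assoc, one_le_div hL]
  linarith

theorem sum_pairs_symm {n : ℕ} (g : Fin n → Fin n → ℝ) (hs : ∀ a b, g a b = g b a)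
    (h0 : ∀ a, g a a = 0) : ∑ a, ∑ b, g a b = 2 * ∑ a, ∑ b ∈ Finset.Ioi a, g a b := by
  have h1 : ∀ a : Fin n, ∑ b, g a b = ∑ b ∈ Finset.Ioi a, g a b + ∑ b ∈ Finset.Iio a, g a b := by
    intro a
    have h2 : (Finset.univ : Finset (Fin n)) = (Finset.Ioi a ∪ Finset.Iio a) ∪ {a} := by
      ext b
      simp only [Finset.mem_univ, Finset.mem_union, Finset.mem_Ioi, Finset.mem_Iio,
        Finset.mem_singleton, true_iff]
      rcases lt_trichotomy a b with h | h | h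
      · exact Or.inl (Or.inl h)
      · exact Or.inr h.symm
      · exact Or.inl (Or.inr h)
    rw [h2, Finset.sum_union, Finset.sum_union, Finset.sum_singleton, h0, add_zero]
    · rw [Finset.disjoint_left]
      intro b hb hb'
      exact lt_asymm (Finset.mem_Ioi.1 hb) (Finset.mem_Iio.1 hb')
    · rw [Finset.disjoint_left]
      intro b hb hb'
      rw [Finset.mem_singleton] at hb'
      subst hb'
      simp at hb
  have h3 : ∑ a : Fin n, ∑ b ∈ Finset.Iio a, g a b = ∑ b, ∑ a ∈ Finset.Ioi b, g a b := by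
    rw [Finset.sum_comm' (t' := Finset.univ) (s' := fun b => Finset.Ioi b)]
    intro a b
    simp
  rw [Finset.sum_congr rfl fun a _ => h1 a, Finset.sum_add_distrib, h3, two_mul]
  congr 1
  refine Finset.sum_congr rfl fun a _ => Finset.sum_congr rfl fun b _ => hs _ _

end asm

section data

variable {K : Type} [Field K] [NumberField K] {N : Type} [Field N] [NumberField N] [Algebra K N]
variable [IsGalois K N]
variable {p s : ℕ} {v : FinitePlace K} (Φ : FF (OW v) p s)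

/-- **Construction of the abstract data.** -/
theorem exists_EData (hϖ : v (Φ.ϖ : K) < 1) (hϖ0 : (Φ.ϖ : K) ≠ 0)
    (hunif : ∀ a : K, v a < 1 → v a ≤ v (Φ.ϖ : K)) (hp : p.Prime) (hs : 1 ≤ s)
    {m : ℕ} (hm : GoodExp Φ m) (S : Finset (FinitePlace N)) (e : FinitePlace N → ℕ)
    (hS : ∀ w ∈ S, Above v w (e w)) (hsum : ∑ w ∈ S, e w = Module.finrank K N)
    (C : ℝ) (hC : ∀ z : Fin 2 → N, |Height.logHeight ((Φ.map (toN v N)).act z) -
      ((p ^ s : ℕ) : ℝ) * Height.logHeight z| ≤ C * Module.finrank ℚ N) :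
    ∃ D : EData (p ^ s) m C (- Real.log (v (Φ.ϖ : K)) / Module.finrank ℚ K) (Pt N)
      (N ≃ₐ[K] N) {w // w ∈ S}, D.f = fpt (Φ.map (toN v N)) ∧
      D.h = fun P => Height.logHeight P.val / Module.finrank ℚ N := by
  have hNpos : (0 : ℝ) < Module.finrank ℚ N := by exact_mod_cast Module.finrank_pos
  have hKpos : (0 : ℝ) < Module.finrank ℚ K := by exact_mod_cast Module.finrank_pos
  have hKNpos : (0 : ℝ) < Module.finrank K N := by exact_mod_cast Module.finrank_pos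
  have htower : (Module.finrank ℚ K : ℝ) * Module.finrank K N = Module.finrank ℚ N := by
    exact_mod_cast Module.finrank_mul_finrank ℚ K N
  have hne : S.Nonempty := by
    rw [Finset.nonempty_iff_ne_empty]
    rintro rfl
    rw [Finset.sum_empty] at hsum
    exact (Module.finrank_pos (R := K) (M := N)).ne hsum
  obtain ⟨w0, hw0⟩ := hne
  have hΨ0 := hΨ (hS w0 hw0) hϖ hp
  have hsumE : ∀ (Z : Finset (Pt N)) (w : FinitePlace N), - Real.log (w (toN v N Φ.ϖ)) ≠ 0 →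
      (- Real.log (w (toN v N Φ.ϖ)) / Module.finrank ℚ N) * ∑ z ∈ Z, ∑ z' ∈ Z, Ew Φ w z z' =
      (∑ z ∈ Z, ∑ z' ∈ Z, - Real.log (dw w z.val z'.val)) / Module.finrank ℚ N := by
    intro Z w hw
    have h1 : ∑ z ∈ Z, ∑ z' ∈ Z, Ew Φ w z z' =
        (∑ z ∈ Z, ∑ z' ∈ Z, - Real.log (dw w z.val z'.val)) / - Real.log (w (toN v N Φ.ϖ)) := by
      rw [Finset.sum_div]
      refine Finset.sum_congr rfl fun z _ => ?_
      rw [Finset.sum_div]
      rfl
    rw [h1]
    generalize - Real.log (w (toN v N Φ.ϖ)) = l at hw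
    field_simp
  refine ⟨{
    f := fpt (Φ.map (toN v N))
    comm := ?_
    lam := fun w => - Real.log (w.1 (toN v N Φ.ϖ)) / Module.finrank ℚ N
    lam_nonneg := fun w => div_nonneg (lw_pos (hS w.1 w.2) hϖ hϖ0).le hNpos.le
    sum_lam := ?_
    E := fun w P Q => Ew Φ w.1 P Q
    E_self := fun w P => Ew_self w.1 P
    E_nonneg := fun w P Q => Ew_nonneg (hS w.1 w.2) hϖ hϖ0 P Q
    E_f := fun w P Q h => Ew_f (hS w.1 w.2) hϖ hϖ0 hp P Q h
    E_near := fun w P Q h => Ew_near (hS w.1 w.2) hϖ hϖ0 hp P Q h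
    frob := fun w x k hk h => Ew_frob (hS w.1 w.2) hϖ hϖ0 hunif hp (hm.mult hk) x h
    disc := fun w x y hy hyx h => Ew_disc (hS w.1 w.2) hϖ hϖ0 hunif hp hs x y hy hyx h
    h := fun P => Height.logHeight P.val / Module.finrank ℚ N
    h_nonneg := fun P => div_nonneg (Height.logHeight_nonneg _) hNpos.le
    h_smul := ?_
    h_f := ?_
    liou := ?_
    energy := ?_ }, rfl, rfl⟩
  · -- comm
    intro σ P
    have h1 : (fun i => σ.toRingEquiv.toRingHom ((Φ.map (toN v N)).act P.val i)) =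
        (Φ.map (toN v N)).act (σ • P).val := by
      have h2 : ((Φ.map (toN v N)).map σ.toRingEquiv.toRingHom).act = (Φ.map (toN v N)).act := by
        rw [FF.map_map_act']
        congr 2
        ext a
        exact σ.commutes _
      ext i
      rw [(Φ.map (toN v N)).map_act σ.toRingEquiv.toRingHom P.val i, h2]
      rfl
    obtain ⟨c, hc, h3⟩ := nz_spec (hΨ0 P.val P.ne_zero)
    have h4 : (Φ.map (toN v N)).act (σ • P).val = σ c • (σ • fpt (Φ.map (toN v N)) P).val := by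
      rw [← h1]
      ext i
      conv_lhs => rw [h3]
      change σ (c * (nz ((Φ.map (toN v N)).act P.val)).val i) = _
      rw [map_mul]
      rfl
    have h5 : fpt (Φ.map (toN v N)) (σ • P) = nz ((Φ.map (toN v N)).act (σ • P).val) := rfl
    rw [h5, h4, nz_smul (by simpa using hc) _ (Pt.ne_zero _), nz_val]
  · -- sum_lam
    rw [← Finset.sum_div, Finset.sum_coe_sort S (fun w => - Real.log (w (toN v N Φ.ϖ)))]
    rw [Finset.sum_congr rfl fun w hw => lw_eq (Φ := Φ) (hS w hw), ← Finset.sum_mul,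
      ← Nat.cast_sum, hsum, ← htower]
    field_simp
  · -- h_smul
    intro σ P
    congr 1
    exact logHeight_ringEquiv σ.toRingEquiv P.val
  · -- h_f
    intro P
    obtain ⟨c, hc, h3⟩ := nz_spec (hΨ0 P.val P.ne_zero)
    have h4 : Height.logHeight (fpt (Φ.map (toN v N)) P).val =
        Height.logHeight ((Φ.map (toN v N)).act P.val) := by
      conv_rhs => rw [h3]
      rw [Height.logHeight_smul_eq_logHeight _ hc]
      rfl
    rw [h4]
    have h5 : Height.logHeight ((Φ.map (toN v N)).act P.val) / (Module.finrank ℚ N : ℝ) -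
        ((p ^ s : ℕ) : ℝ) * (Height.logHeight P.val / Module.finrank ℚ N) =
        (Height.logHeight ((Φ.map (toN v N)).act P.val) -
          ((p ^ s : ℕ) : ℝ) * Height.logHeight P.val) / Module.finrank ℚ N := by
      field_simp
    rw [h5, abs_div, abs_of_pos hNpos, div_le_iff₀ hNpos]
    exact hC P.val
  · -- liou
    intro P Q hPQ
    have hb : br P.val Q.val ≠ 0 := fun h0 => hPQ (Pt.br_eq_zero.1 h0)
    have h1 := liou_two S P.val Q.val P.ne_zero Q.ne_zero hb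
    have h2 : ∑ w : {w // w ∈ S}, - Real.log (w.1 (toN v N Φ.ϖ)) / (Module.finrank ℚ N : ℝ) *
        Ew Φ w.1 P Q = (∑ w ∈ S, - Real.log (dw w P.val Q.val)) / Module.finrank ℚ N := by
      rw [Finset.sum_coe_sort S (fun w => - Real.log (w (toN v N Φ.ϖ)) /
        (Module.finrank ℚ N : ℝ) * Ew Φ w P Q), Finset.sum_div]
      refine Finset.sum_congr rfl fun w hw => ?_
      have hL := (lw_pos (hS w hw) hϖ hϖ0).ne'
      unfold Ew
      generalize - Real.log (w (toN v N Φ.ϖ)) = l at hL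
      field_simp
    rw [h2, div_le_iff₀ hNpos]
    have h3 : (Height.logHeight P.val / (Module.finrank ℚ N : ℝ) +
        Height.logHeight Q.val / Module.finrank ℚ N + Real.log 2) * Module.finrank ℚ N =
        Height.logHeight P.val + Height.logHeight Q.val + Module.finrank ℚ N * Real.log 2 := by
      field_simp
    rw [h3]
    exact h1
  · -- energy
    intro J Z hZ
    set eZ : Fin ((p ^ s) ^ J) ≃ Z := (Z.equivFinOfCardEq hZ).symm with heZ
    set z : Fin ((p ^ s) ^ J) → Fin 2 → N := fun a => (eZ a : Pt N).val with hz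
    have h1 := energy_fin Φ hϖ hp S e hS ⟨w0, hw0⟩ J z (fun a => (eZ a : Pt N).ne_zero)
      (fun a b hab h0 => hab (eZ.injective (Subtype.ext (Pt.br_eq_zero.1 h0))))
    have h2 : ∑ w : {w // w ∈ S}, - Real.log (w.1 (toN v N Φ.ϖ)) / (Module.finrank ℚ N : ℝ) *
        ∑ P ∈ Z, ∑ Q ∈ Z, Ew Φ w.1 P Q =
        2 * (∑ w ∈ S, ∑ a, ∑ b ∈ Finset.Ioi a, - Real.log (dw w (z a) (z b))) /
          Module.finrank ℚ N := by
      rw [Finset.sum_coe_sort S (fun w => - Real.log (w (toN v N Φ.ϖ)) /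
        (Module.finrank ℚ N : ℝ) * ∑ P ∈ Z, ∑ Q ∈ Z, Ew Φ w P Q), Finset.mul_sum,
        Finset.sum_div]
      refine Finset.sum_congr rfl fun w hw => ?_
      rw [hsumE Z w (lw_pos (hS w hw) hϖ hϖ0).ne']
      congr 1
      rw [← sum_pairs_symm (fun a b => - Real.log (dw w (z a) (z b)))
        (fun a b => by rw [dw_symm]) (fun a => by rw [dw_self]; simp)]
      rw [← Finset.sum_coe_sort Z]
      rw [← eZ.sum_comp]
      refine Finset.sum_congr rfl fun a _ => ?_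
      rw [← Finset.sum_coe_sort Z]
      rw [← eZ.sum_comp]
    rw [h2, div_le_iff₀ hNpos]
    have h3 : ∑ P ∈ Z, ∑ i ∈ Finset.range J, (((p ^ s : ℕ) : ℝ) - 1) *
        (Height.logHeight ((fpt (Φ.map (toN v N)))^[i] P).val / (Module.finrank ℚ N : ℝ)) =
        (∑ a, ∑ i ∈ Finset.range J, (((p ^ s : ℕ) : ℝ) - 1) *
          Height.logHeight ((Φ.map (toN v N)).act^[i] (z a))) / Module.finrank ℚ N := by
      rw [← Finset.sum_coe_sort Z, ← eZ.sum_comp, Finset.sum_div]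
      refine Finset.sum_congr rfl fun a _ => ?_
      rw [Finset.sum_div]
      refine Finset.sum_congr rfl fun i _ => ?_
      rw [mul_div_assoc]
      congr 2
      rw [fpt_iter _ hΨ0]
      obtain ⟨c, hc, h3⟩ := nz_spec (act_iter_ne _ hΨ0 i (eZ a : Pt N).val (eZ a : Pt N).ne_zero)
      conv_rhs => rw [hz]
      simp only
      conv_rhs => rw [h3]
      rw [Height.logHeight_smul_eq_logHeight _ hc]
    rw [h3]
    have h4 : ∀ a b : ℝ, 2 * (a / (Module.finrank ℚ N : ℝ) + b) * Module.finrank ℚ N =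
        2 * (a + Module.finrank ℚ N * b) := by
      intro a b
      field_simp
    rw [h4]
    linarith

end data

end Pool.DynLehmer
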