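import Mathlib

set_option autoImplicit false

/-!
# Commuting maps: the abstract part
-/

namespace Pool.DynLehmer
open Filter Topology
open scoped Classical

/-- telescoping -/
theorem seq_limit {q C : ℝ} (hq : 2 ≤ q) (a : ℕ → ℝ) (h : ∀ n, |a (n + 1) - q * a n| ≤ C) :
    ∃ l, Tendsto (fun n : ℕ => a n / q ^ n) atTop (𝓝 l) ∧ |a 0 - l| ≤ C := by
  have hC : 0 ≤ C := (abs_nonneg _).trans (h 0)
  have hq0 : (0 : ℝ) < q := by linarith
  have hd : ∀ n : ℕ, dist (a n / q ^ n) (a (n + 1) / q ^ (n + 1)) ≤ (C / 2) * (1 / 2) ^ n := by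
    intro n
    rw [Real.dist_eq, abs_sub_comm]
    have h1 : a (n + 1) / q ^ (n + 1) - a n / q ^ n = (a (n + 1) - q * a n) / q ^ (n + 1) := by
      rw [pow_succ]
      field_simp
    rw [h1, abs_div, abs_of_pos (pow_pos hq0 _)]
    rw [div_le_iff₀ (by positivity)]
    refine (h n).trans ?_
    have h2 : (2 : ℝ) ^ (n+1) ≤ q ^ (n+1) := pow_le_pow_left₀ (by norm_num) hq _
    have h3 : (C / 2) * (1 / 2) ^ n * (2 : ℝ) ^ (n+1) = C := by
      rw [pow_succ, div_pow, one_pow]; field_simp
    calc C = (C / 2) * (1 / 2) ^ n * (2 : ℝ) ^ (n+1) := h3.symm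
      _ ≤ _ := mul_le_mul_of_nonneg_left h2 (by positivity)
  obtain ⟨l, hl⟩ := cauchySeq_tendsto_of_complete (cauchySeq_of_le_geometric (1/2) (C/2)
    (by norm_num) hd)
  refine ⟨l, hl, ?_⟩
  have := dist_le_of_le_geometric_of_tendsto₀ (1/2) (C/2) (by norm_num) hd hl
  rw [Real.dist_eq] at this
  simp only [pow_zero, div_one] at this
  refine this.trans (le_of_eq ?_)
  ring

/-- canonical heights of commuting maps agree -/
theorem commuting_heights {X : Type} (H : X → ℝ) (f g : X → X) (hfg : ∀ x, f (g x) = g (f x))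
    {q d C1 C2 : ℝ} (hq : 2 ≤ q) (hd : 2 ≤ d) (hf : ∀ x, |H (f x) - q * H x| ≤ C1)
    (hg : ∀ x, |H (g x) - d * H x| ≤ C2) :
    ∃ hh : X → ℝ, (∀ x, Tendsto (fun n : ℕ => H (f^[n] x) / q ^ n) atTop (𝓝 (hh x))) ∧
      (∀ x, Tendsto (fun n : ℕ => H (g^[n] x) / d ^ n) atTop (𝓝 (hh x))) ∧
      (∀ x, |H x - hh x| ≤ C1) ∧ (∀ x, hh (f x) = q * hh x) ∧ (∀ x, hh (g x) = d * hh x) := by
  have hq0 : (0 : ℝ) < q := by linarith
  have hd0 : (0 : ℝ) < d := by linarith
  have h1 : ∀ x, ∃ l, Tendsto (fun n : ℕ => H (f^[n] x) / q ^ n) atTop (𝓝 l) ∧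
      |H x - l| ≤ C1 := fun x => seq_limit hq (fun n => H (f^[n] x)) fun n => by
    rw [Function.iterate_succ_apply']; exact hf _
  choose hh hlim hdiff using h1
  have hf' : ∀ x, hh (f x) = q * hh x := by
    intro x
    have h2 : Tendsto (fun n : ℕ => H (f^[n] (f x)) / q ^ n) atTop (𝓝 (q * hh x)) := by
      have h3 := ((hlim x).comp (tendsto_add_atTop_nat 1)).const_mul q
      refine h3.congr fun n => ?_
      simp only [Function.comp]
      rw [Function.iterate_succ_apply, pow_succ]
      field_simp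
    exact tendsto_nhds_unique (hlim (f x)) h2
  have hg' : ∀ x, hh (g x) = d * hh x := by
    intro x
    have hcomm : ∀ n : ℕ, f^[n] (g x) = g (f^[n] x) := by
      intro n
      induction n with
      | zero => rfl
      | succ n ih => rw [Function.iterate_succ_apply', ih, hfg, Function.iterate_succ_apply']
    have h2 : Tendsto (fun n : ℕ => H (f^[n] (g x)) / q ^ n) atTop (𝓝 (d * hh x)) := by
      have h3 := (hlim x).const_mul d
      have h4 : Tendsto (fun n : ℕ => (H (g (f^[n] x)) - d * H (f^[n] x)) / q ^ n) atTop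
          (𝓝 0) := by
        have h5 : Tendsto (fun n : ℕ => C2 * (1 / q) ^ n) atTop (𝓝 (C2 * 0)) :=
          (tendsto_pow_atTop_nhds_zero_of_lt_one (by positivity)
            (by rw [div_lt_one hq0]; linarith)).const_mul C2
        rw [mul_zero] at h5
        apply squeeze_zero_norm _ h5
        intro n
        rw [Real.norm_eq_abs, abs_div, abs_of_pos (pow_pos hq0 _), div_pow, one_pow,
          ← div_eq_mul_one_div]
        exact div_le_div_of_nonneg_right (hg _) (pow_pos hq0 _).le
      have h6 := h3.add h4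
      rw [add_zero] at h6
      refine h6.congr fun n => ?_
      rw [hcomm n]
      ring
    exact tendsto_nhds_unique (hlim (g x)) h2
  refine ⟨hh, hlim, ?_, hdiff, hf', hg'⟩
  intro x
  have hgn : ∀ n : ℕ, hh (g^[n] x) = d ^ n * hh x := by
    intro n
    induction n with
    | zero => simp
    | succ n ih => rw [Function.iterate_succ_apply', hg', ih, pow_succ]; ring
  have h4 : Tendsto (fun n : ℕ => (H (g^[n] x) - hh (g^[n] x)) / d ^ n) atTop (𝓝 0) := by
    have h5 : Tendsto (fun n : ℕ => C1 * (1 / d) ^ n) atTop (𝓝 (C1 * 0)) :=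
      (tendsto_pow_atTop_nhds_zero_of_lt_one (by positivity)
        (by rw [div_lt_one hd0]; linarith)).const_mul C1
    rw [mul_zero] at h5
    apply squeeze_zero_norm _ h5
    intro n
    rw [Real.norm_eq_abs, abs_div, abs_of_pos (pow_pos hd0 _), div_pow, one_pow,
      ← div_eq_mul_one_div]
    exact div_le_div_of_nonneg_right (hdiff _) (pow_pos hd0 _).le
  have h6 := h4.add_const (hh x)
  rw [zero_add] at h6
  refine h6.congr fun n => ?_
  rw [hgn n]
  have : (d : ℝ) ^ n ≠ 0 := (pow_pos hd0 _).ne'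
  field_simp
  ring

/-- wandering points of commuting maps agree -/
theorem commuting_wandering {X : Type} (H : X → ℝ) (f g : X → X)
    (hfg : ∀ x, f (g x) = g (f x))
    {q d C1 C2 : ℝ} (hq : 2 ≤ q) (hd : 2 ≤ d) (hf : ∀ x, |H (f x) - q * H x| ≤ C1)
    (hg : ∀ x, |H (g x) - d * H x| ≤ C2) (hN : ∀ B : ℝ, {x | H x ≤ B}.Finite) (x : X)
    (hx : Function.Injective fun n : ℕ => g^[n] x) : Function.Injective fun n : ℕ => f^[n] x := by
  obtain ⟨hh, -, -, hdiff, hf', hg'⟩ := commuting_heights H f g hfg hq hd hf hg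
  have hfn : ∀ n : ℕ, hh (f^[n] x) = q ^ n * hh x := by
    intro n
    induction n with
    | zero => simp
    | succ n ih => rw [Function.iterate_succ_apply', hf', ih, pow_succ]; ring
  have hgn : ∀ n : ℕ, hh (g^[n] x) = d ^ n * hh x := by
    intro n
    induction n with
    | zero => simp
    | succ n ih => rw [Function.iterate_succ_apply', hg', ih, pow_succ]; ring
  by_contra hni
  have h0 : hh x = 0 := by
    rw [Function.Injective] at hni
    push Not at hni
    obtain ⟨a, b, hab, hne⟩ := hni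
    have h1 : q ^ a * hh x = q ^ b * hh x := by
      rw [← hfn a, ← hfn b]; exact congrArg hh hab
    by_contra hx0
    have h2 := mul_right_cancel₀ hx0 h1
    exact hne (pow_right_injective₀ (by linarith) (by linarith) h2)
  have h1 : Set.range (fun n : ℕ => g^[n] x) ⊆ {y | H y ≤ C1} := by
    rintro _ ⟨n, rfl⟩
    have h2 := hdiff (g^[n] x)
    rw [hgn n, h0, mul_zero, sub_zero] at h2
    exact (le_abs_self _).trans h2
  exact Set.infinite_range_of_injective hx ((hN C1).subset h1)

end Pool.DynLehmer
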