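import Pool.Agent.Lib.MP_2194ec_nt.Abstract
set_option autoImplicit false
namespace Pool.DynLehmer
open Filter Topology Finset
open scoped Classical
namespace EData
variable {q m : ℕ} {C Λ : ℝ} {P G ι : Type} [Group G] [Fintype G] [MulAction G P] [Fintype ι]

theorem exists_stable (S : EData q m C Λ P G ι) (x : P) (W : ℕ) :
    ∃ k, S.DD x (k + W) = S.DD x k := by
  by_contra hcon
  push Not at hcon
  have h1 : ∀ k, S.DD x (k + W) + 1 ≤ S.DD x k := by
    intro k
    have := S.DD_anti x (Nat.le_add_right k W)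
    have := hcon k
    omega
  have h2 : ∀ n, S.DD x (n * W) + n ≤ S.DD x 0 := by
    intro n
    induction n with
    | zero => simp
    | succ n ih =>
      have := h1 (n * W)
      rw [← Nat.succ_mul] at this
      simp only [Nat.succ_eq_add_one] at this
      omega
  have := h2 (S.DD x 0 + 1)
  omega

theorem exists_drop (S : EData q m C Λ P G ι) {x : P} {k : ℕ} (h : S.DD x (k + 1) ≠ S.DD x k) :
    ∃ y ∈ orb G x, ∃ y' ∈ orb G x, S.f^[k] y' ≠ S.f^[k] y ∧ S.f^[k+1] y' = S.f^[k+1] y := by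
  by_contra hcon
  push Not at hcon
  apply h
  unfold DD
  have : (orb G x).image (S.f^[k + 1]) = ((orb G x).image (S.f^[k])).image S.f := by
    rw [Finset.image_image, Function.iterate_succ']
  rw [this]
  apply Finset.card_image_of_injOn
  intro a ha b hb hab
  obtain ⟨y, hy, rfl⟩ := Finset.mem_image.1 (Finset.mem_coe.1 ha)
  obtain ⟨y', hy', rfl⟩ := Finset.mem_image.1 (Finset.mem_coe.1 hb)
  by_contra hne
  exact hcon y' hy' y hy hne (by rw [Function.iterate_succ_apply', Function.iterate_succ_apply', hab])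

theorem exists_drop_between (S : EData q m C Λ P G ι) {x : P} {k W : ℕ}
    (h : S.DD x (k + W) ≠ S.DD x k) : ∃ k', k ≤ k' ∧ k' < k + W ∧ S.DD x (k' + 1) ≠ S.DD x k' := by
  by_contra hcon
  push Not at hcon
  apply h
  have : ∀ j ≤ W, S.DD x (k + j) = S.DD x k := by
    intro j
    induction j with
    | zero => intro _; rfl
    | succ j ih =>
      intro hj
      rw [← ih (by omega), ← add_assoc]
      exact hcon (k + j) (by omega) (by omega)
  exact this W le_rfl

/-- the constant `A'` -/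
noncomputable def Ac (q : ℕ) (C Λ : ℝ) : ℝ := min (c2 q C Λ) (1 / (q * C3 q C Λ))

theorem C3_ge_one (hq : 2 ≤ q) (hC : 0 ≤ C) (hΛ : 0 < Λ) : 1 ≤ C3 q C Λ := by
  unfold C3
  have hq2 : (2 : ℝ) ≤ q := by exact_mod_cast hq
  have h1 : 0 ≤ 2 + 4 * ((q : ℝ) - 1) * C := by
    have : 0 ≤ ((q : ℝ) - 1) * C := mul_nonneg (by linarith) hC
    nlinarith
  have h2 : 0 ≤ Real.log q := Real.log_nonneg (by linarith)
  have h3 : 0 < kap q C Λ := Real.exp_pos _
  have h4 : 0 ≤ 2 / (Λ * kap q C Λ) * (Λ + (2 + 4 * ((q : ℝ) - 1) * C) * q * (Real.log q + 1)) := by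
    positivity
  have h5 : 1 ≤ (q : ℝ) ^ q := one_le_pow₀ (by linarith)
  linarith

theorem Ac_pos (hq : 2 ≤ q) (hC : 0 ≤ C) (hΛ : 0 < Λ) : 0 < Ac q C Λ := by
  have hq2 : (2 : ℝ) ≤ q := by exact_mod_cast hq
  have h1 := C3_ge_one hq hC hΛ
  refine lt_min ?_ (by positivity)
  unfold c2
  have h3 : 0 < kap q C Λ := Real.exp_pos _
  positivity

theorem main_aux (S : EData q m C Λ P G ι) (hq : 2 ≤ q) (hm : 1 ≤ m) (hΛ : 0 < Λ) {x : P}
    (hx : Function.Injective fun n : ℕ => S.f^[n] x) :
    Ac q C Λ * Real.exp (-((B2 q m C Λ + 2) * √(1 + Real.log (orb G x).card))) ≤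
      (orb G x).card * S.hhat hq x := by
  have hC := S.C_nonneg x
  have hq2 : (2 : ℝ) ≤ q := by exact_mod_cast hq
  set D := (orb G x).card with hD
  have hDpos : 0 < D := card_orb_pos x
  have hD1 : (1 : ℝ) ≤ D := by exact_mod_cast hDpos
  have hlogD : 0 ≤ Real.log D := Real.log_nonneg hD1
  have hlogq : 0 ≤ Real.log q := Real.log_nonneg (by linarith)
  have hB1 := B1_ge_one hq hC hΛ
  have hC3 := C3_ge_one hq hC hΛ
  have hAc := Ac_pos hq hC hΛ
  set y := √(1 + Real.log D) with hy
  have hy2 : y ^ 2 = 1 + Real.log D := Real.sq_sqrt (by linarith)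
  have hy1 : 1 ≤ y := by
    rw [hy]; exact Real.one_le_sqrt.2 (by linarith)
  set L0 := ⌈B1 q C Λ * y⌉₊ with hL0
  set W := m * (q * L0) with hW
  have hLle : (L0 : ℝ) ≤ (B1 q C Λ + 1) * y := by
    have := (Nat.ceil_lt_add_one (a := B1 q C Λ * y) (by positivity)).le
    rw [← hL0] at this
    linarith
  have hLy : 1 ≤ B1 q C Λ * y := one_le_mul_of_one_le_of_one_le hB1 hy1
  have hL1 : 1 ≤ L0 := by
    have : (1 : ℝ) ≤ L0 := hLy.trans (Nat.le_ceil _)
    exact_mod_cast this
  have hW1 : 1 ≤ W := Nat.mul_pos (by omega) (Nat.mul_pos (by omega) hL1)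
  have hB2 : 0 ≤ B2 q m C Λ := by unfold B2; positivity
  have hqW : (q : ℝ) ^ W ≤ Real.exp (B2 q m C Λ * y) := by
    rw [← Real.exp_log (show (0 : ℝ) < (q : ℝ) ^ W by positivity), Real.log_pow]
    apply Real.exp_le_exp.2
    rw [hW]
    push_cast
    have h1 : (m : ℝ) * (q * L0) * Real.log q ≤ m * (q * ((B1 q C Λ + 1) * y)) * Real.log q := by
      gcongr
    have h2 : 0 ≤ (m : ℝ) * q * Real.log q * (B1 q C Λ + 1) := by positivity
    have h3 : m * (q * ((B1 q C Λ + 1) * y)) * Real.log q =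
      (m : ℝ) * q * Real.log q * (B1 q C Λ + 1) * y := by ring
    unfold B2
    have h4 := abs_nonneg (Real.log (2 * q / (Λ / (6 * q))))
    have h5 : 0 ≤ y := by linarith
    rw [h3] at h1
    linarith [mul_nonneg h2 h5, mul_nonneg h4 h5]
  have hy3 : 1 + Real.log D ≤ Real.exp (2 * y) := by
    rw [← hy2]
    have h1 : y ≤ Real.exp y := by linarith [Real.add_one_le_exp y]
    have h2 : Real.exp (2 * y) = Real.exp y ^ 2 := by rw [← Real.exp_nat_mul]; norm_num
    rw [h2]
    exact pow_le_pow_left₀ (by linarith) h1 2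
  have hsplit : Real.exp (-((B2 q m C Λ + 2) * y)) =
      Real.exp (-(B2 q m C Λ * y)) * (Real.exp (2 * y))⁻¹ := by
    rw [← Real.exp_neg (2 * y), ← Real.exp_add]; congr 1; ring
  set e2 := Real.exp (2 * y) with he2
  have he2pos : 0 < e2 := Real.exp_pos _
  set eB := Real.exp (-(B2 q m C Λ * y)) with heB
  have heBpos : 0 < eB := Real.exp_pos _
  have heB1 : eB ≤ 1 := by
    rw [heB, Real.exp_le_one_iff]
    have : 0 ≤ B2 q m C Λ * y := by positivity
    linarith
  have he21 : e2⁻¹ ≤ 1 := by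
    apply inv_le_one_of_one_le₀
    linarith
  have hyinv : e2⁻¹ ≤ (1 + Real.log D)⁻¹ := by
    apply inv_anti₀ (by linarith) hy3
  rw [hsplit]
  set H := S.hhat hq x with hH
  have hH0 : 0 ≤ H := S.hhat_nonneg hq x
  -- trivial cases
  by_cases hs : D * H ≤ c2 q C Λ
  swap
  · push Not at hs
    have h1 : Ac q C Λ ≤ c2 q C Λ := min_le_left _ _
    have h2 : eB * e2⁻¹ ≤ 1 := by
      calc eB * e2⁻¹ ≤ 1 * 1 := by gcongr
        _ = 1 := one_mul 1
    nlinarith
  have hAc2 : Ac q C Λ ≤ 1 / (q * C3 q C Λ) := min_le_right _ _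
  have hAc3 : Ac q C Λ ≤ 1 / C3 q C Λ := by
    refine hAc2.trans ?_
    apply one_div_le_one_div_of_le (by positivity)
    exact le_mul_of_one_le_left (by linarith) (by linarith)
  by_cases hh : (q : ℝ) ^ W * (C3 q C Λ * D * (1 + Real.log D)) * H ≤ 1
  swap
  · push Not at hh
    have h1 : 1 / ((q : ℝ) ^ W * (C3 q C Λ * (1 + Real.log D))) ≤ D * H := by
      rw [div_le_iff₀ (by positivity)]
      refine hh.le.trans (le_of_eq ?_)
      ring
    refine le_trans ?_ h1
    have h2 : 1 / ((q : ℝ) ^ W * (C3 q C Λ * (1 + Real.log D))) =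
        (1 / C3 q C Λ) * ((((q : ℝ) ^ W)⁻¹) * (1 + Real.log D)⁻¹) := by field_simp
    rw [h2]
    have h3 : eB ≤ ((q : ℝ) ^ W)⁻¹ := by
      rw [heB, Real.exp_neg]
      exact inv_anti₀ (by positivity) hqW
    gcongr
  -- the first drop-free window
  have hex := S.exists_stable x W
  set k1 := Nat.find hex with hk1
  have hk1s : S.DD x (k1 + W) = S.DD x k1 := Nat.find_spec hex
  have hk1m : ∀ k < k1, S.DD x (k + W) ≠ S.DD x k := fun k hk => Nat.find_min hex hk
  have horb1 : orb G (S.f^[k1] x) = (orb G x).image (S.f^[k1]) := S.orb_iter k1 x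
  have hcard1 : (orb G (S.f^[k1] x)).card = S.DD x k1 := by rw [horb1]; rfl
  have hx1 : Function.Injective fun n : ℕ => S.f^[n] (S.f^[k1] x) := by
    intro a b hab
    have : S.f^[a + k1] x = S.f^[b + k1] x := by
      rw [Function.iterate_add_apply, Function.iterate_add_apply]; exact hab
    have := hx this
    omega
  have hDle : S.DD x k1 ≤ D := by
    have := S.card_eq' x k1
    rw [hD, this]
    exact Nat.le_mul_of_pos_left _ (S.rr_pos x k1)
  have hDDpos := S.DD_pos x k1
  have hDD1 : (1 : ℝ) ≤ S.DD x k1 := by exact_mod_cast hDDpos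
  have hlogle : Real.log (S.DD x k1) ≤ Real.log D :=
    Real.log_le_log (by positivity) (by exact_mod_cast hDle)
  have hinjW : Set.InjOn (S.f^[W]) (orb G (S.f^[k1] x) : Set P) := by
    rw [← Finset.card_image_iff, hcard1, horb1, Finset.image_image, ← Function.iterate_add,
      add_comm W k1]
    exact hk1s
  have hsq : √(1 + Real.log (S.DD x k1)) ≤ y := by
    rw [hy]
    apply Real.sqrt_le_sqrt
    linarith
  have hwin : Real.exp (-(B2 q m C Λ * √(1 + Real.log (S.DD x k1)))) ≤
      S.DD x k1 * S.hhat hq (S.f^[k1] x) := by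
    have := S.window hq hm hΛ hx1 ?_
    · rw [hcard1] at this
      exact this
    · rw [hcard1]
      refine S.injOn_of_le ?_ hinjW
      rw [hW]
      refine Nat.mul_le_mul_left m (Nat.mul_le_mul_left q ?_)
      rw [hL0]
      apply Nat.ceil_mono
      gcongr
  rw [S.hhat_iter] at hwin
  have hwin' : eB ≤ S.DD x k1 * ((q : ℝ) ^ k1 * H) := by
    refine le_trans ?_ hwin
    rw [heB]
    apply Real.exp_le_exp.2
    have : B2 q m C Λ * √(1 + Real.log (S.DD x k1)) ≤ B2 q m C Λ * y := by gcongr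
    linarith
  have hcard : (D : ℝ) = S.rr x k1 * S.DD x k1 := S.card_eq x k1
  have hrr : (0 : ℝ) < S.rr x k1 := by exact_mod_cast S.rr_pos x k1
  rcases Nat.eq_zero_or_pos k1 with h0 | hpos
  · -- no drop at all
    rw [h0] at hwin' hcard hrr
    simp only [pow_zero, one_mul] at hwin'
    have hr1 : (1 : ℝ) ≤ S.rr x 0 := by exact_mod_cast S.rr_pos x 0
    have h1 : eB ≤ D * H := by
      rw [hcard]
      calc eB ≤ S.DD x 0 * H := hwin'
        _ = 1 * (S.DD x 0 * H) := (one_mul _).symm
        _ ≤ S.rr x 0 * (S.DD x 0 * H) := by gcongr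
        _ = _ := by ring
    have h2 : Ac q C Λ ≤ 1 := by
      refine hAc3.trans ?_
      rw [div_le_one (by positivity)]
      exact hC3
    calc Ac q C Λ * (eB * e2⁻¹) ≤ 1 * (eB * 1) := by gcongr
      _ = eB := by ring
      _ ≤ _ := h1
  · -- heights stay small before k1
    have hX1 : 1 ≤ C3 q C Λ * D * (1 + Real.log D) :=
      one_le_mul_of_one_le_of_one_le (one_le_mul_of_one_le_of_one_le hC3 hD1) (by linarith)
    have hsmall : ∀ k < k1, (q : ℝ) ^ k * H ≤ 1 := by
      intro k
      induction k using Nat.strong_induction_on with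
      | _ k ih =>
        intro hk
        refine le_trans ?_ hh
        rcases le_or_gt k W with h1 | h1
        · have h2 : (q : ℝ) ^ k ≤ (q : ℝ) ^ W := pow_le_pow_right₀ (by linarith) h1
          have h3 : (q : ℝ) ^ W * 1 ≤ (q : ℝ) ^ W * (C3 q C Λ * D * (1 + Real.log D)) := by
            gcongr
          apply mul_le_mul_of_nonneg_right _ hH0
          linarith
        · have h2 := hk1m (k - W) (by omega)
          obtain ⟨k', hk'1, hk'2, hk'3⟩ := S.exists_drop_between h2
          have h3 : k' < k := by omega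
          have h4 := ih k' h3 (by omega)
          have h5 := S.drop hq hΛ hx k' (S.exists_drop hk'3) h4 hs
          rw [← hD] at h5
          have h6 : (S.rr x k' : ℝ) ≤ D := by
            have := S.card_eq' x k'
            have h7 : S.rr x k' ≤ D := by
              rw [hD, this]
              exact Nat.le_mul_of_pos_right _ (S.DD_pos x k')
            exact_mod_cast h7
          have h7 : (q : ℝ) ^ k' ≤ C3 q C Λ * D * (1 + Real.log D) := by
            refine h5.trans ?_
            gcongr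
          have h8 : (q : ℝ) ^ k ≤ (q : ℝ) ^ W * (q : ℝ) ^ k' := by
            rw [← pow_add]
            exact pow_le_pow_right₀ (by linarith) (by omega)
          apply mul_le_mul_of_nonneg_right _ hH0
          refine h8.trans ?_
          gcongr
    -- the last drop before k1
    have hk0 : S.DD x (k1 - 1 + 1) ≠ S.DD x (k1 - 1) := by
      intro h
      apply hk1m (k1 - 1) (by omega)
      have h1 : k1 - 1 + 1 = k1 := by omega
      rw [h1] at h
      have h2 := S.DD_anti x (show k1 ≤ k1 - 1 + W by omega)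
      have h3 := S.DD_anti x (show k1 - 1 + W ≤ k1 + W by omega)
      omega
    have h1 := S.drop hq hΛ hx (k1 - 1) (S.exists_drop hk0) (hsmall _ (by omega)) hs
    rw [← hD] at h1
    have h2 : (S.rr x (k1 - 1) : ℝ) ≤ S.rr x k1 := by
      have e1 := S.card_eq' x (k1 - 1)
      have e2 := S.card_eq' x k1
      have e3 := S.DD_anti x (show k1 - 1 ≤ k1 by omega)
      have e4 : S.rr x (k1 - 1) ≤ S.rr x k1 := by
        by_contra hcon
        push Not at hcon
        have : S.rr x k1 * S.DD x k1 < S.rr x (k1 - 1) * S.DD x (k1 - 1) := by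
          calc S.rr x k1 * S.DD x k1 < S.rr x (k1 - 1) * S.DD x k1 :=
                Nat.mul_lt_mul_of_pos_right hcon hDDpos
            _ ≤ _ := Nat.mul_le_mul_left _ e3
        omega
      exact_mod_cast e4
    have h3 : (q : ℝ) ^ k1 ≤ q * C3 q C Λ * S.rr x k1 * (1 + Real.log D) := by
      have : (q : ℝ) ^ k1 = q * (q : ℝ) ^ (k1 - 1) := by
        rw [← pow_succ']; congr 1; omega
      rw [this]
      calc q * (q : ℝ) ^ (k1 - 1) ≤ q * (C3 q C Λ * S.rr x (k1 - 1) * (1 + Real.log D)) := by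
            gcongr
        _ ≤ q * (C3 q C Λ * S.rr x k1 * (1 + Real.log D)) := by gcongr
        _ = _ := by ring
    have h4 : eB ≤ (q * C3 q C Λ * (1 + Real.log D)) * (D * H) := by
      calc eB ≤ S.DD x k1 * ((q : ℝ) ^ k1 * H) := hwin'
        _ ≤ S.DD x k1 * ((q * C3 q C Λ * S.rr x k1 * (1 + Real.log D)) * H) := by gcongr
        _ = _ := by rw [hcard]; ring
    have h5 : eB / (q * C3 q C Λ * (1 + Real.log D)) ≤ D * H := by
      rw [div_le_iff₀ (by positivity)]
      linarith
    refine le_trans ?_ h5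
    have h6 : eB / (q * C3 q C Λ * (1 + Real.log D)) =
        (1 / (q * C3 q C Λ)) * (eB * (1 + Real.log D)⁻¹) := by field_simp
    rw [h6]
    gcongr

/-- **The abstract lower bound.** -/
theorem main (S : EData q m C Λ P G ι) (hq : 2 ≤ q) (hm : 1 ≤ m) (hΛ : 0 < Λ) {x : P}
    (hx : Function.Injective fun n : ℕ => S.f^[n] x) :
    Ac q C Λ * Real.exp (-(B2 q m C Λ + 2)) / (orb G x).card *
      Real.exp (-((B2 q m C Λ + 2) * √(Real.log (orb G x).card))) ≤ S.hhat hq x := by
  have h := S.main_aux hq hm hΛ hx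
  have hC := S.C_nonneg x
  have hq2 : (2 : ℝ) ≤ q := by exact_mod_cast hq
  have hB1 := B1_ge_one hq hC hΛ
  set D := (orb G x).card with hD
  have hDpos : 0 < D := card_orb_pos x
  have hD1 : (1 : ℝ) ≤ D := by exact_mod_cast hDpos
  have hlogD : 0 ≤ Real.log D := Real.log_nonneg hD1
  have hlogq : 0 ≤ Real.log q := Real.log_nonneg (by linarith)
  have hB2 : 0 ≤ B2 q m C Λ := by unfold B2; positivity
  have hAc := Ac_pos hq hC hΛ
  have h1 : √(1 + Real.log D) ≤ 1 + √(Real.log D) := by
    rw [Real.sqrt_le_left (by positivity)]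
    have := Real.sq_sqrt hlogD
    linarith [Real.sqrt_nonneg (Real.log D)]
  have h2 : Real.exp (-(B2 q m C Λ + 2)) * Real.exp (-((B2 q m C Λ + 2) * √(Real.log D))) ≤
      Real.exp (-((B2 q m C Λ + 2) * √(1 + Real.log D))) := by
    rw [← Real.exp_add]
    apply Real.exp_le_exp.2
    have := mul_le_mul_of_nonneg_left h1 (by linarith : 0 ≤ B2 q m C Λ + 2)
    linarith
  have h3 : Ac q C Λ * Real.exp (-(B2 q m C Λ + 2)) / D *
      Real.exp (-((B2 q m C Λ + 2) * √(Real.log D))) =
      Ac q C Λ * (Real.exp (-(B2 q m C Λ + 2)) *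
      Real.exp (-((B2 q m C Λ + 2) * √(Real.log D)))) / D := by ring
  rw [h3, div_le_iff₀ (by positivity)]
  calc _ ≤ Ac q C Λ * Real.exp (-((B2 q m C Λ + 2) * √(1 + Real.log D))) := by gcongr
    _ ≤ _ := h
    _ = _ := by ring

end EData
end Pool.DynLehmer
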