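import Mathlib

set_option autoImplicit false

/-!
# Forms congruent to invertible linear forms in `q`-th powers, in any number of variables
-/

namespace Pool.DynLehmer
open MvPolynomial

/-- Data of forms `F i`, `i ∈ ι`, of degree `p ^ s` in the variables `ι`, congruent modulo `ϖ` to
invertible linear forms in the `X j ^ (p ^ s)`. -/
structure GF (A : Type*) [CommRing A] (p s : ℕ) (ι : Type) [Fintype ι] [DecidableEq ι] where
  g : Matrix ι ι A
  ginv : Matrix ι ι A
  gg : g * ginv = 1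
  ϖ : A
  c : A
  hp : (p : A) = ϖ * c
  E : ι → MvPolynomial ι A
  hE : ∀ i, (E i).IsHomogeneous (p ^ s)

theorem eval_smul_hom {A : Type*} [CommRing A] {ι : Type} {P : MvPolynomial ι A} {n : ℕ}
    (hP : P.IsHomogeneous n) (c : A) (z : ι → A) : eval (c • z) P = c ^ n * eval z P := by
  rw [eval_eq, eval_eq, Finset.mul_sum]
  refine Finset.sum_congr rfl fun t ht => ?_
  have h1 : t.degree = n := by
    by_contra hne
    exact (mem_support_iff.1 ht) (hP.coeff_eq_zero hne)
  have h2 : ∏ i ∈ t.support, (c • z) i ^ t i = c ^ n * ∏ i ∈ t.support, z i ^ t i := by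
    rw [← h1, Finsupp.degree_apply, ← Finset.prod_pow_eq_pow_sum, ← Finset.prod_mul_distrib]
    refine Finset.prod_congr rfl fun i _ => ?_
    rw [Pi.smul_apply, smul_eq_mul, mul_pow]
  rw [h2]
  ring

namespace GF

variable {A B : Type*} [CommRing A] [CommRing B] {p s : ℕ} {ι : Type} [Fintype ι] [DecidableEq ι]

/-- the forms -/
noncomputable def F (Φ : GF A p s ι) (i : ι) : MvPolynomial ι A :=
  ∑ j, C (Φ.g i j) * X j ^ (p ^ s) + C Φ.ϖ * Φ.E i

theorem F_hom (Φ : GF A p s ι) (i : ι) : (Φ.F i).IsHomogeneous (p ^ s) := by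
  refine IsHomogeneous.add ?_ ((Φ.hE i).C_mul _)
  exact IsHomogeneous.sum _ _ _ fun j _ => isHomogeneous_C_mul_X_pow _ j _

/-- the map on vectors -/
noncomputable def act (Φ : GF A p s ι) (z : ι → A) : ι → A := fun i => eval z (Φ.F i)

theorem act_apply (Φ : GF A p s ι) (z : ι → A) (i : ι) :
    Φ.act z i = ∑ j, Φ.g i j * z j ^ (p ^ s) + Φ.ϖ * eval z (Φ.E i) := by
  simp [act, F]

/-- base change -/
noncomputable def map (Φ : GF A p s ι) (φ : A →+* B) : GF B p s ι where
  g := Φ.g.map φ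
  ginv := Φ.ginv.map φ
  gg := by
    rw [← Matrix.map_mul, Φ.gg]; simp
  ϖ := φ Φ.ϖ
  c := φ Φ.c
  hp := by rw [← map_mul, ← Φ.hp, map_natCast]
  E := fun i => MvPolynomial.map φ (Φ.E i)
  hE := fun i => (Φ.hE i).map φ

theorem map_F (Φ : GF A p s ι) (φ : A →+* B) (i : ι) :
    (Φ.map φ).F i = MvPolynomial.map φ (Φ.F i) := by
  simp [F, map]

theorem map_act (Φ : GF A p s ι) (φ : A →+* B) (z : ι → A) (i : ι) :
    φ (Φ.act z i) = (Φ.map φ).act (fun i => φ (z i)) i := by
  rw [act, act, map_F, eval_map, eval₂_comp]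
  rfl

theorem map_act_iter (Φ : GF A p s ι) (φ : A →+* B) (k : ℕ) (z : ι → A) :
    (fun i => φ (Φ.act^[k] z i)) = (Φ.map φ).act^[k] (fun i => φ (z i)) := by
  induction k with
  | zero => rfl
  | succ k ih =>
    rw [Function.iterate_succ_apply', Function.iterate_succ_apply', ← ih]
    ext i
    exact Φ.map_act φ _ i

theorem map_map_act {D : Type*} [CommRing D] (Φ : GF A p s ι)
    (a : A →+* B) (b : B →+* D) : ((Φ.map a).map b).act = (Φ.map (b.comp a)).act := by
  ext z i
  simp only [GF.act, GF.map_F, MvPolynomial.map_map]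

theorem act_smul (Φ : GF A p s ι) (c : A) (z : ι → A) :
    Φ.act (c • z) = c ^ (p ^ s) • Φ.act z := by
  ext i
  simp only [act, Pi.smul_apply, smul_eq_mul]
  exact eval_smul_hom (Φ.F_hom i) c z

theorem act_iter_smul (Φ : GF A p s ι) (k : ℕ) (c : A) (z : ι → A) :
    Φ.act^[k] (c • z) = c ^ ((p ^ s) ^ k) • Φ.act^[k] z := by
  induction k with
  | zero => simp
  | succ k ih =>
    rw [Function.iterate_succ_apply', ih, act_smul, Function.iterate_succ_apply', ← pow_mul,
      ← pow_succ]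

end GF

section iter

variable {κ : Type} [CommRing κ] {p s : ℕ} {ι : Type} [Fintype ι] [DecidableEq ι]

/-- the semilinear map attached to a matrix -/
def glin {R : Type} [CommRing R] (q : ℕ) (g : Matrix ι ι κ) (ψ : κ →+* R)
    (z : ι → R) : ι → R := fun i => ∑ j, ψ (g i j) * z j ^ q

/-- the matrices of the iterates -/
def gGk (q : ℕ) (g : Matrix ι ι κ) : ℕ → Matrix ι ι κ
  | 0 => 1
  | k + 1 => g * (gGk q g k).map (fun x => x ^ q)

theorem glin_iter (hp : p.Prime) (g : Matrix ι ι κ) {R : Type} [CommRing R] [CharP R p]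
    (ψ : κ →+* R) (k : ℕ) (z : ι → R) (i : ι) :
    (glin (p ^ s) g ψ)^[k] z i = ∑ j, ψ (gGk (p ^ s) g k i j) * z j ^ ((p ^ s) ^ k) := by
  have : Fact p.Prime := ⟨hp⟩
  induction k generalizing i with
  | zero =>
    simp [gGk, Matrix.one_apply]
  | succ k ih =>
    rw [Function.iterate_succ_apply']
    simp only [glin]
    have h1 : ∀ l, (glin (p ^ s) g ψ)^[k] z l ^ (p ^ s) =
        ∑ j, ψ (gGk (p ^ s) g k l j) ^ (p ^ s) * z j ^ ((p ^ s) ^ (k + 1)) := by
      intro l
      rw [ih l, sum_pow_char_pow]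
      refine Finset.sum_congr rfl fun j _ => ?_
      rw [mul_pow, ← pow_mul, ← pow_succ]
    change ∑ l, ψ (g i l) * (glin (p ^ s) g ψ)^[k] z l ^ (p ^ s) = _
    simp_rw [h1, gGk, Matrix.mul_apply, Matrix.map_apply, map_sum, Finset.mul_sum, Finset.sum_mul,
      map_mul, map_pow]
    rw [Finset.sum_comm]
    refine Finset.sum_congr rfl fun j _ => Finset.sum_congr rfl fun l _ => ?_
    ring

theorem gPsi_iter [CharP κ p] (hp : p.Prime) (g h : Matrix ι ι κ) (k : ℕ) :
    (fun h : Matrix ι ι κ => g * h.map (fun x => x ^ (p ^ s)))^[k] h =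
      gGk (p ^ s) g k * h.map (fun x => x ^ ((p ^ s) ^ k)) := by
  have : Fact p.Prime := ⟨hp⟩
  induction k with
  | zero => simp [gGk]
  | succ k ih =>
    rw [Function.iterate_succ_apply', ih]
    have h1 : ∀ M : Matrix ι ι κ, M.map (fun x => x ^ (p ^ s)) =
      M.map (iterateFrobenius κ p s) := by
      intro M; ext i j; simp [iterateFrobenius_def]
    simp only [gGk]
    rw [h1, h1, Matrix.map_mul, ← mul_assoc]
    congr 1
    ext i j
    simp [iterateFrobenius_def, ← pow_mul, pow_succ]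

theorem gexists_m [Finite κ] [IsDomain κ] [CharP κ p] (hp : p.Prime)
    (g ginv : Matrix ι ι κ) (hg : g * ginv = 1) :
    ∃ m : ℕ, 1 ≤ m ∧ ∀ (R : Type) [CommRing R] [CharP R p] (ψ : κ →+* R) (z : ι → R),
        (glin (p ^ s) g ψ)^[m] z = fun i => z i ^ ((p ^ s) ^ m) := by
  have : Fact p.Prime := ⟨hp⟩
  have hg' : ginv * g = 1 := mul_eq_one_comm.1 hg
  set Ψ := (fun h : Matrix ι ι κ => g * h.map (fun x => x ^ (p ^ s))) with hΨ
  have hinj : Function.Injective Ψ := by
    intro h h' hh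
    have h1 : g * h.map (fun x => x ^ (p ^ s)) = g * h'.map (fun x => x ^ (p ^ s)) := hh
    have h2 := congrArg (fun M => ginv * M) h1
    simp only [← mul_assoc, hg', one_mul] at h2
    ext i j
    have h3 := congrFun (congrFun h2 i) j
    simp only [Matrix.map_apply] at h3
    exact (iterateFrobenius_inj κ p s) (by simpa [iterateFrobenius_def] using h3)
  have : Finite (Matrix ι ι κ) := inferInstanceAs (Finite (ι → ι → κ))
  set e := Equiv.ofBijective Ψ (Finite.injective_iff_bijective.1 hinj) with he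
  obtain ⟨m, hm, hem⟩ := (isOfFinOrder_of_finite e).exists_pow_eq_one
  have hΨm : Ψ^[m] = id := by
    have h1 : (⇑(e ^ m) : _ → _) = Ψ^[m] := by
      rw [Equiv.Perm.coe_pow]; rfl
    rw [← h1, hem]; rfl
  have hid : ∀ h, gGk (p ^ s) g m * h.map (fun x => x ^ ((p ^ s) ^ m)) = h := by
    intro h
    rw [← gPsi_iter hp g h m, ← hΨ, hΨm]; rfl
  have hq : (p ^ s) ^ m ≠ 0 := pow_ne_zero _ (pow_ne_zero _ hp.ne_zero)
  have hG : gGk (p ^ s) g m = 1 := by
    have h1 := hid 1
    have h2 : (1 : Matrix ι ι κ).map (fun x => x ^ ((p ^ s) ^ m)) = 1 := by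
      ext i j
      rw [Matrix.map_apply, Matrix.one_apply]
      split_ifs
      · exact one_pow _
      · exact zero_pow hq
    rwa [h2, mul_one] at h1
  refine ⟨m, hm, ?_⟩
  · intro R _ _ ψ z
    ext i
    rw [glin_iter hp, hG]
    simp [Matrix.one_apply]

omit [Fintype ι] [DecidableEq ι] in
/-- consequences for all multiples of `m` -/
theorem glin_mult {R : Type} [CommRing R] {Q m k : ℕ} {f : (ι → R) → (ι → R)}
    (h : ∀ z, f^[m] z = fun i => z i ^ (Q ^ m)) (hk : m ∣ k) (z : ι → R) :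
    f^[k] z = fun i => z i ^ (Q ^ k) := by
  obtain ⟨j, rfl⟩ := hk
  induction j generalizing z with
  | zero => simp
  | succ j ih =>
    rw [mul_add, mul_one, Function.iterate_add_apply, h, ih]
    ext i
    rw [← pow_mul, ← pow_add, add_comm]

end iter

end Pool.DynLehmer
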