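import Mathlib
import Pool.Agent.Lib.MP_2194ec_nt.GenForms
import Pool.Agent.Lib.MP_2194ec_nt.LocalFrob

set_option autoImplicit false

/-!
# Local contraction in projective space
-/

namespace Pool.DynLehmer
open NumberField MvPolynomial
open scoped Classical

section gl

variable {K : Type} [Field K] [NumberField K] {N : Type} [Field N] [NumberField N] [Algebra K N]
variable {p s : ℕ} {ι : Type} [Fintype ι] [DecidableEq ι]
variable {v : FinitePlace K} {w : FinitePlace N} {e : ℕ} (Φ : GF (OW v) p s ι)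

theorem gcoe_act (h : Above v w e) (z : ι → OW w) :
    (fun i => (((Φ.map (toOW h)).act z i : OW w) : N)) =
      (Φ.map (toN v N)).act (fun i => (z i : N)) := by
  ext i
  have h1 := (Φ.map (toOW h)).map_act (OW w).subtype z i
  rw [GF.map_map_act, subtype_comp_toOW] at h1
  exact h1

theorem gcoe_act_iter (h : Above v w e) (k : ℕ) (z : ι → OW w) :
    (fun i => (((Φ.map (toOW h)).act^[k] z i : OW w) : N)) =
      (Φ.map (toN v N)).act^[k] (fun i => (z i : N)) := by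
  have h1 := (Φ.map (toOW h)).map_act_iter (OW w).subtype k z
  rw [GF.map_map_act, subtype_comp_toOW] at h1
  exact h1

theorem gw_unif (h : Above v w e) (hϖ : v (Φ.ϖ : K) < 1) : w (toN v N Φ.ϖ) < 1 := by
  change w (algebraMap K N (Φ.ϖ : K)) < 1
  rw [h.2]
  exact pow_lt_one₀ (apply_nonneg v _) hϖ h.1.ne'

/-- primitive integral vectors -/
def Prim (w : FinitePlace N) (u : ι → OW w) : Prop := ∃ i, w ((u i : OW w) : N) = 1

theorem prim_act (h : Above v w e) (hϖ : v (Φ.ϖ : K) < 1) (u : ι → OW w)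
    (hu : Prim w u) : Prim w ((Φ.map (toOW h)).act u) := by
  set Ψ := Φ.map (toOW h) with hΨ
  by_contra hne
  have hmem : ∀ j, Ψ.act u j ∈ MW w := by
    intro j
    rw [mem_MW]
    refine lt_of_le_of_ne (Ψ.act u j).2 fun h1 => hne ⟨j, h1⟩
  have hϖm : Ψ.ϖ ∈ MW w := gw_unif Φ h hϖ
  have hgg : Ψ.ginv * Ψ.g = 1 := mul_eq_one_comm.1 Ψ.gg
  obtain ⟨i, hi⟩ := hu
  have key : ∑ j, Ψ.ginv i j * Ψ.act u j =
      u i ^ (p ^ s) + Ψ.ϖ * ∑ j, Ψ.ginv i j * eval u (Ψ.E j) := by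
    have h0 : ∀ k, ∑ j, Ψ.ginv i j * Ψ.g j k = if i = k then 1 else 0 := by
      intro k
      have := congrFun (congrFun hgg i) k
      rwa [Matrix.mul_apply, Matrix.one_apply] at this
    simp_rw [Ψ.act_apply, mul_add, Finset.sum_add_distrib, Finset.mul_sum]
    congr 1
    · rw [Finset.sum_comm]
      have h2 : ∀ k, ∑ j, Ψ.ginv i j * (Ψ.g j k * u k ^ (p ^ s)) =
          (if i = k then 1 else 0) * u k ^ (p ^ s) := by
        intro k
        rw [← h0 k, Finset.sum_mul]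
        exact Finset.sum_congr rfl fun j _ => by ring
      rw [Finset.sum_congr rfl fun k _ => h2 k]
      simp
    · exact Finset.sum_congr rfl fun j _ => by ring
  have h1 : u i ^ (p ^ s) ∈ MW w := by
    have h2 : u i ^ (p ^ s) = ∑ j, Ψ.ginv i j * Ψ.act u j -
        Ψ.ϖ * ∑ j, Ψ.ginv i j * eval u (Ψ.E j) := by rw [key]; ring
    rw [h2]
    exact (MW w).sub_mem ((MW w).sum_mem fun j _ => (MW w).mul_mem_left _ (hmem j))
      ((MW w).mul_mem_right _ hϖm)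
  rw [mem_MW, Subring.coe_pow, map_pow, hi, one_pow] at h1
  exact lt_irrefl _ h1

theorem prim_act_iter (h : Above v w e) (hϖ : v (Φ.ϖ : K) < 1) (k : ℕ) (u : ι → OW w)
    (hu : Prim w u) : Prim w ((Φ.map (toOW h)).act^[k] u) := by
  induction k with
  | zero => exact hu
  | succ k ih => rw [Function.iterate_succ_apply']; exact prim_act Φ h hϖ _ ih

omit [DecidableEq ι] in
theorem gexists_prim [Nonempty ι] {z : ι → N} (hz : z ≠ 0) :
    ∃ (c : N) (u : ι → OW w), c ≠ 0 ∧ (z = c • fun i => (u i : N)) ∧ Prim w u := by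
  obtain ⟨i, hi⟩ := Finite.exists_max (fun i => w (z i))
  obtain ⟨j, hj⟩ := Function.ne_iff.1 hz
  have hpos : 0 < w (z i) := (FinitePlace.pos_iff.2 hj).trans_le (hi j)
  have hc : z i ≠ 0 := by rwa [← FinitePlace.pos_iff (w := w)]
  refine ⟨z i, fun j => ⟨z j / z i, ?_⟩, hc, ?_, i, ?_⟩
  · rw [mem_OW, map_div₀]
    exact div_le_one_of_le₀ (hi j) hpos.le
  · ext j
    simp only [Pi.smul_apply, smul_eq_mul]
    rw [mul_div_cancel₀ _ hc]
  · simp only
    rw [div_self hc, map_one]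

/-- closeness of two vectors (as projective points) -/
def Close (w : FinitePlace N) (t : ℝ) (z z' : ι → N) : Prop :=
  ∃ (a b : N) (u u' : ι → OW w), a ≠ 0 ∧ b ≠ 0 ∧ (z = a • fun i => (u i : N)) ∧
    (z' = b • fun i => (u' i : N)) ∧ Prim w u ∧ Prim w u' ∧ ∀ i, w ((u i : N) - u' i) ≤ t

omit [Fintype ι] [DecidableEq ι] in
theorem Close.mono {t t' : ℝ} (htt : t ≤ t') {z z' : ι → N} (h : Close w t z z') :
    Close w t' z z' := by
  obtain ⟨a, b, u, u', ha, hb, hz, hz', hu, hu', hd⟩ := h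
  exact ⟨a, b, u, u', ha, hb, hz, hz', hu, hu', fun i => (hd i).trans htt⟩

theorem Close.act (h : Above v w e) (hϖ : v (Φ.ϖ : K) < 1) (hp : p.Prime) {t : ℝ}
    (ht0 : 0 ≤ t) {z z' : ι → N} (hc : Close w t z z') :
    Close w (max (t ^ (p ^ s)) (w (toN v N Φ.ϖ) * t)) ((Φ.map (toN v N)).act z)
      ((Φ.map (toN v N)).act z') := by
  obtain ⟨a, b, u, u', ha, hb, hz, hz', hu, hu', hd⟩ := hc
  set Ψ := Φ.map (toOW h) with hΨ
  refine ⟨a ^ (p ^ s), b ^ (p ^ s), Ψ.act u, Ψ.act u', pow_ne_zero _ ha, pow_ne_zero _ hb, ?_, ?_,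
    prim_act Φ h hϖ u hu, prim_act Φ h hϖ u' hu', ?_⟩
  · rw [hz, GF.act_smul, ← gcoe_act Φ h]
  · rw [hz', GF.act_smul, ← gcoe_act Φ h]
  intro i
  have hπ0 : 0 ≤ w (toN v N Φ.ϖ) := apply_nonneg w _
  have hM0 : 0 ≤ max (t ^ (p ^ s)) (w (toN v N Φ.ϖ) * t) := le_max_of_le_left (pow_nonneg ht0 _)
  suffices hs : Ψ.act u i - Ψ.act u' i ∈ IW w _ hM0 by
    rw [mem_IW] at hs
    simpa using hs
  -- the error terms
  have hE : eval u (Ψ.E i) - eval u' (Ψ.E i) ∈ IW w t ht0 := by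
    rw [← Ideal.Quotient.mk_eq_mk_iff_sub_mem]
    have h1 : ∀ y : ι → OW w, Ideal.Quotient.mk (IW w t ht0) (eval y (Ψ.E i)) =
        eval₂ (Ideal.Quotient.mk (IW w t ht0)) (fun j => Ideal.Quotient.mk (IW w t ht0) (y j))
          (Ψ.E i) := fun y => eval₂_comp (Ideal.Quotient.mk (IW w t ht0)) y (Ψ.E i)
    rw [h1, h1]
    congr 1
    funext j
    rw [Ideal.Quotient.mk_eq_mk_iff_sub_mem, mem_IW]
    simpa using hd j
  have hpow : ∀ j, ∃ r, u j ^ (p ^ s) - u' j ^ (p ^ s) =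
      (u j - u' j) ^ (p ^ s) + Ψ.ϖ * ((u j - u' j) * r) := by
    intro j
    obtain ⟨r, hr⟩ := exists_add_pow_prime_pow_eq hp (u j - u' j) (u' j) s
    rw [sub_add_cancel, Ψ.hp] at hr
    exact ⟨Ψ.c * u' j * r, by rw [hr]; ring⟩
  choose r hr using hpow
  have e1 : Ψ.act u i - Ψ.act u' i = ∑ j, (Ψ.g i j * (u j - u' j) ^ (p ^ s) +
      Ψ.ϖ * ((u j - u' j) * (Ψ.g i j * r j))) +
      Ψ.ϖ * (eval u (Ψ.E i) - eval u' (Ψ.E i)) := by
    rw [Ψ.act_apply, Ψ.act_apply]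
    have h1 : ∑ j, (Ψ.g i j * (u j - u' j) ^ (p ^ s) +
      Ψ.ϖ * ((u j - u' j) * (Ψ.g i j * r j))) =
      ∑ j, Ψ.g i j * u j ^ (p ^ s) - ∑ j, Ψ.g i j * u' j ^ (p ^ s) := by
      rw [← Finset.sum_sub_distrib]
      refine Finset.sum_congr rfl fun j _ => ?_
      rw [← mul_sub, hr j]
      ring
    rw [h1]
    ring
  rw [e1]
  have hA : ∀ j, (u j - u' j) ^ (p ^ s) ∈ IW w _ hM0 := by
    intro j
    rw [mem_IW]
    refine le_max_of_le_left ?_
    rw [Subring.coe_pow, map_pow]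
    exact pow_le_pow_left₀ (apply_nonneg w _) (by simpa using hd j) _
  have hB : ∀ y : OW w, y ∈ IW w t ht0 → Ψ.ϖ * y ∈ IW w _ hM0 := by
    intro y hy
    rw [mem_IW] at hy ⊢
    refine le_max_of_le_right ?_
    rw [Subring.coe_mul, map_mul]
    exact mul_le_mul_of_nonneg_left hy hπ0
  refine Ideal.add_mem _ (Ideal.sum_mem _ fun j _ => Ideal.add_mem _ ?_ ?_) (hB _ hE)
  · exact Ideal.mul_mem_left _ _ (hA j)
  · apply hB
    apply Ideal.mul_mem_right
    rw [mem_IW]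
    simpa using hd j

theorem Close.act_iter (h : Above v w e) (hϖ : v (Φ.ϖ : K) < 1) (hp : p.Prime) {t : ℝ}
    (ht0 : 0 ≤ t) (ht1 : t ≤ 1) {z z' : ι → N} (hc : Close w t z z') (k : ℕ) :
    Close w (max (t ^ ((p ^ s) ^ k)) (w (toN v N Φ.ϖ))) ((Φ.map (toN v N)).act^[k] z)
      ((Φ.map (toN v N)).act^[k] z') := by
  have hπ0 : 0 ≤ w (toN v N Φ.ϖ) := apply_nonneg w _
  have hπ1 := gw_unif Φ h hϖ
  have hq : p ^ s ≠ 0 := pow_ne_zero _ hp.ne_zero
  induction k with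
  | zero => simp only [pow_zero, pow_one]; exact hc.mono (le_max_left _ _)
  | succ k ih =>
    rw [Function.iterate_succ_apply', Function.iterate_succ_apply']
    set d := max (t ^ ((p ^ s) ^ k)) (w (toN v N Φ.ϖ)) with hd
    have hd0 : 0 ≤ d := le_max_of_le_right hπ0
    have hd1 : d ≤ 1 := max_le (pow_le_one₀ ht0 ht1) hπ1.le
    refine (Close.act Φ h hϖ hp hd0 ih).mono (max_le ?_ ?_)
    · rcases max_cases (t ^ ((p ^ s) ^ k)) (w (toN v N Φ.ϖ)) with ⟨h1, -⟩ | ⟨h1, -⟩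
      · rw [hd, h1, ← pow_mul, ← pow_succ]
        exact le_max_left _ _
      · rw [hd, h1]
        refine le_max_of_le_right ?_
        calc (w (toN v N Φ.ϖ)) ^ (p ^ s) ≤ (w (toN v N Φ.ϖ)) ^ 1 :=
              pow_le_pow_of_le_one hπ0 hπ1.le (Nat.one_le_iff_ne_zero.2 hq)
          _ = _ := pow_one _
    · refine le_max_of_le_right ?_
      calc w (toN v N Φ.ϖ) * d ≤ w (toN v N Φ.ϖ) * 1 := mul_le_mul_of_nonneg_left hd1 hπ0
        _ = _ := mul_one _

theorem Close.act_iter' (h : Above v w e) (hϖ : v (Φ.ϖ : K) < 1) (hp : p.Prime) (hs : 1 ≤ s)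
    {z z' : ι → N} (hc : Close w (w (toN v N Φ.ϖ)) z z') (k : ℕ) :
    Close w ((w (toN v N Φ.ϖ)) ^ (k + 1)) ((Φ.map (toN v N)).act^[k] z)
      ((Φ.map (toN v N)).act^[k] z') := by
  have hπ0 : 0 ≤ w (toN v N Φ.ϖ) := apply_nonneg w _
  have hπ1 := gw_unif Φ h hϖ
  have hq : 2 ≤ p ^ s := hp.two_le.trans (Nat.le_self_pow (by omega) p)
  induction k with
  | zero => simpa using hc
  | succ k ih =>
    rw [Function.iterate_succ_apply', Function.iterate_succ_apply']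
    refine (Close.act Φ h hϖ hp (pow_nonneg hπ0 _) ih).mono (max_le ?_ ?_)
    · rw [← pow_mul]
      apply pow_le_pow_of_le_one hπ0 hπ1.le
      nlinarith
    · rw [← pow_succ']

omit [DecidableEq ι] in
theorem Close.minor {t : ℝ} (ht0 : 0 ≤ t) {z z' : ι → N} (hc : Close w t z z') (i j : ι) :
    w (z i * z' j - z j * z' i) ≤ t * ((⨆ i, w (z i)) * ⨆ i, w (z' i)) := by
  obtain ⟨a, b, u, u', ha, hb, hz, hz', hu, hu', hd⟩ := hc
  have hsup : ∀ (c : N) (y : ι → OW w), Prim w y → w c ≤ ⨆ i, w ((c • fun i => (y i : N)) i) := by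
    intro c y hy
    obtain ⟨i, hi⟩ := hy
    refine le_trans (le_of_eq ?_) (Finite.le_ciSup (fun i => w ((c • fun i => (y i : N)) i)) i)
    simp only [Pi.smul_apply, smul_eq_mul, map_mul]
    rw [hi, mul_one]
  have h1 := hsup a u hu
  have h2 := hsup b u' hu'
  rw [← hz] at h1
  rw [← hz'] at h2
  have h3 : z i * z' j - z j * z' i = a * b *
      ((u i : N) * (- ((u j : N) - u' j)) + (u j : N) * ((u i : N) - u' i)) := by
    rw [hz, hz']
    simp only [Pi.smul_apply, smul_eq_mul]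
    ring
  have h4 : w ((u i : N) * (- ((u j : N) - u' j)) + (u j : N) * ((u i : N) - u' i)) ≤ t := by
    refine (FinitePlace.add_le w _ _).trans (max_le ?_ ?_)
    · rw [map_mul, map_neg_eq_map]
      calc w (u i : N) * w ((u j : N) - u' j) ≤ 1 * t :=
            mul_le_mul (u i).2 (hd j) (apply_nonneg w _) zero_le_one
        _ = t := one_mul t
    · rw [map_mul]
      calc w (u j : N) * w ((u i : N) - u' i) ≤ 1 * t :=
            mul_le_mul (u j).2 (hd i) (apply_nonneg w _) zero_le_one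
        _ = t := one_mul t
  rw [h3, map_mul, map_mul, mul_comm]
  refine mul_le_mul h4 (mul_le_mul h1 h2 (apply_nonneg w _) ?_)
    (mul_nonneg (apply_nonneg w _) (apply_nonneg w _)) ht0
  exact (apply_nonneg w _).trans h1

/-- `k` is a good exponent for `Φ` -/
def GGoodExp (Φ : GF (OW v) p s ι) (k : ℕ) : Prop :=
  ∀ (R : Type) [CommRing R] [CharP R p] (ψ : (OW v ⧸ MW v) →+* R) (z : ι → R),
    (glin (p ^ s) (Φ.g.map (Ideal.Quotient.mk (MW v))) ψ)^[k] z = fun i => z i ^ ((p ^ s) ^ k)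

theorem gcharP (Φ : GF (OW v) p s ι) (hϖ : v (Φ.ϖ : K) < 1) (hp : p.Prime) :
    CharP (OW v ⧸ MW v) p := by
  rw [CharP.charP_iff_prime_eq_zero hp]
  have h1 : ((p : ℕ) : OW v ⧸ MW v) = Ideal.Quotient.mk (MW v) ((p : ℕ) : OW v) := by simp
  rw [h1, Ideal.Quotient.eq_zero_iff_mem, Φ.hp]
  exact (MW v).mul_mem_right _ hϖ

theorem exists_ggoodExp (Φ : GF (OW v) p s ι) (hϖ : v (Φ.ϖ : K) < 1) (hp : p.Prime) :
    ∃ m, 1 ≤ m ∧ ∀ k, m ∣ k → GGoodExp Φ k := by
  have := gcharP Φ hϖ hp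
  obtain ⟨m, hm, h⟩ := gexists_m (κ := OW v ⧸ MW v) (s := s) hp
    (Φ.g.map (Ideal.Quotient.mk (MW v)))
    (Φ.ginv.map (Ideal.Quotient.mk (MW v))) (by rw [← Matrix.map_mul, Φ.gg]; simp)
  exact ⟨m, hm, fun k hk R _ _ ψ z => glin_mult (h R ψ) hk z⟩

theorem giter_mod (h : Above v w e) (hϖ : v (Φ.ϖ : K) < 1) (hp : p.Prime) {k : ℕ}
    (hk : GGoodExp Φ k) (z : ι → OW w) (i : ι) :
    Ideal.Quotient.mk (MW w) ((Φ.map (toOW h)).act^[k] z i) =
      Ideal.Quotient.mk (MW w) (z i) ^ ((p ^ s) ^ k) := by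
  have hϖJ : toOW h Φ.ϖ ∈ MW w := gw_unif Φ h hϖ
  have hnt : Nontrivial (OW w ⧸ MW w) :=
    Ideal.Quotient.nontrivial_iff.2 (MW_prime w).ne_top
  have hchar : CharP (OW w ⧸ MW w) p := by
    rw [CharP.charP_iff_prime_eq_zero hp]
    have h1 : ((p : ℕ) : OW w ⧸ MW w) = Ideal.Quotient.mk (MW w) (toOW h ((p : ℕ) : OW v)) := by
      simp
    rw [h1, Ideal.Quotient.eq_zero_iff_mem, Φ.hp, map_mul]
    exact (MW w).mul_mem_right _ hϖJ
  have hcomap : MW v ≤ (MW w).comap (toOW h) := by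
    intro a ha
    rw [Ideal.mem_comap, mem_MW, toOW_coe]
    change w (algebraMap K N (a : K)) < 1
    rw [h.2]
    exact pow_lt_one₀ (apply_nonneg v _) ha h.1.ne'
  set ψ : (OW v ⧸ MW v) →+* (OW w ⧸ MW w) := Ideal.quotientMap (MW w) (toOW h) hcomap with hψ
  set mk := Ideal.Quotient.mk (MW w) with hmk
  have hlin : ∀ z : ι → (OW w ⧸ MW w), (Φ.map (mk.comp (toOW h))).act z =
      glin (p ^ s) (Φ.g.map (Ideal.Quotient.mk (MW v))) ψ z := by
    intro z
    ext i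
    rw [GF.act_apply]
    have h1 : (Φ.map (mk.comp (toOW h))).ϖ = 0 := by
      change mk (toOW h Φ.ϖ) = 0
      rw [hmk, Ideal.Quotient.eq_zero_iff_mem]
      exact hϖJ
    rw [h1, zero_mul, add_zero]
    rfl
  have h1 := (Φ.map (toOW h)).map_act_iter mk k z
  rw [GF.map_map_act, show (Φ.map (mk.comp (toOW h))).act =
      glin (p ^ s) (Φ.g.map (Ideal.Quotient.mk (MW v))) ψ from funext hlin, hk] at h1
  exact congrFun h1 i

/-- Frobenius closeness -/
theorem close_frob [Nonempty ι] (h : Above v w e) (hϖ : v (Φ.ϖ : K) < 1) (hp : p.Prime) {k : ℕ}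
    (hk : GGoodExp Φ k) (σ : N →+* N)
    (hσ : ∀ a : N, w a ≤ 1 → w (σ a - a ^ ((p ^ s) ^ k)) < 1) (x : ι → N) (hx : x ≠ 0) :
    ∃ b : N, w b < 1 ∧ Close w (w b) ((Φ.map (toN v N)).act^[k] x) (fun i => σ (x i)) := by
  obtain ⟨a, u, ha, hxu, hu⟩ := gexists_prim (w := w) hx
  have hσint : ∀ y : N, w y ≤ 1 → w (σ y) ≤ 1 := by
    intro y hy
    have h1 : σ y = (σ y - y ^ ((p ^ s) ^ k)) + y ^ ((p ^ s) ^ k) := by ring
    rw [h1]
    refine (FinitePlace.add_le w _ _).trans (max_le (hσ y hy).le ?_)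
    rw [map_pow]
    exact pow_le_one₀ (apply_nonneg w _) hy
  set u' : ι → OW w := fun i => ⟨σ (u i : N), hσint _ (u i).2⟩ with hu'
  have hprim' : Prim w u' := by
    obtain ⟨i, hi⟩ := hu
    refine ⟨i, ?_⟩
    apply le_antisymm (u' i).2
    by_contra hcon
    push Not at hcon
    have h1 : ((u i : N)) ^ ((p ^ s) ^ k) = σ (u i : N) +
        - (σ (u i : N) - (u i : N) ^ ((p ^ s) ^ k)) := by ring
    have h2 : w ((u i : N) ^ ((p ^ s) ^ k)) < 1 := by
      rw [h1]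
      refine (FinitePlace.add_le w _ _).trans_lt (max_lt hcon ?_)
      rw [map_neg_eq_map]
      exact hσ _ (u i).2
    rw [map_pow, hi, one_pow] at h2
    exact lt_irrefl _ h2
  set U := (Φ.map (toOW h)).act^[k] u with hU
  have hdiff : ∀ i, w ((U i : N) - u' i) < 1 := by
    intro i
    have h1 := giter_mod Φ h hϖ hp hk u i
    rw [← map_pow, Ideal.Quotient.mk_eq_mk_iff_sub_mem, mem_MW] at h1
    have h2 : (U i : N) - u' i = ((U i - u i ^ ((p ^ s) ^ k) : OW w) : N) +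
        - (σ (u i : N) - (u i : N) ^ ((p ^ s) ^ k)) := by
      simp [hu']
    rw [h2]
    refine (FinitePlace.add_le w _ _).trans_lt (max_lt h1 ?_)
    rw [map_neg_eq_map]
    exact hσ _ (u i).2
  obtain ⟨i0, hi0⟩ := Finite.exists_max (fun i => w ((U i : N) - u' i))
  refine ⟨(U i0 : N) - u' i0, hdiff i0, a ^ ((p ^ s) ^ k), σ a, U, u', pow_ne_zero _ ha,
    by simpa using ha, ?_, ?_, prim_act_iter Φ h hϖ k u hu, hprim', hi0⟩
  · rw [hxu, GF.act_iter_smul, ← gcoe_act_iter Φ h]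
  · funext i
    rw [hxu]
    simp [hu']

end gl

end Pool.DynLehmer
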