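import Mathlib
import Pool.Agent.Lib.MP_2194ec_nt.Heights

set_option autoImplicit false

/-!
# Heights under morphisms of projective space

For a morphism `F` of degree `d` of projective space over a number field `K` we show
`|h(F x) - d h(x)| ≤ C [L : ℚ]` for all `x` with coordinates in a number field `L ⊇ K`,
with `C` independent of `L` and `x`.
-/

namespace Pool.DynLehmer
open NumberField Height MvPolynomial
open scoped Classical

section mono
variable {L : Type*} [Field L]

theorem sum_mono {ι : Type*} (t : ι →₀ ℕ) (v : AbsoluteValue L ℝ) :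
    (AddMonoidAlgebra.coeff (monomial t (1 : L))).sum (fun _ c => v c) = 1 := by
  have : AddMonoidAlgebra.coeff (monomial t (1 : L)) = Finsupp.single t 1 := rfl
  rw [this, Finsupp.sum_single_index] <;> simp

variable [NumberField L]

theorem bound_mono {ι : Type*} {T : Type*} [Finite T] [Nonempty T] (t : T → (ι →₀ ℕ)) :
    mulHeightBound (fun j : T => (monomial (t j) (1 : L))) = 1 := by
  rw [mulHeightBound_eq]
  have h1 : ∀ v : AbsoluteValue L ℝ, (⨆ j : T, (AddMonoidAlgebra.coeff (monomial (t j) (1 : L))).sum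
      (fun _ c => v c)) = 1 := by
    intro v
    simp only [sum_mono, ciSup_const]
  have h2 : ∀ v : AbsoluteValue L ℝ, (⨆ j : T, max (⨆ s : (monomial (t j) (1 : L)).support,
      v (coeff s.1 (monomial (t j) (1 : L)))) 1) = 1 := by
    intro v
    have : ∀ j, max (⨆ s : (monomial (t j) (1 : L)).support,
      v (coeff s.1 (monomial (t j) (1 : L)))) 1 = 1 := by
      intro j
      apply max_eq_right
      have : Nonempty (monomial (t j) (1 : L)).support := ⟨⟨t j, by simp⟩⟩
      apply ciSup_le
      intro s
      rw [coeff_monomial]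
      split_ifs <;> simp
    simp only [this, ciSup_const]
  simp only [h1, h2]
  simp

theorem height_mono {ι : Type*} [Finite ι] {T : Type*} [Finite T] [Nonempty T]
    (t : T → (ι →₀ ℕ)) (d : ℕ) (ht : ∀ j, (t j).degree = d) (x : ι → L) :
    logHeight (fun j => eval x (monomial (t j) (1 : L))) ≤ d * logHeight x := by
  have := logHeight_eval_le (p := fun j : T => (monomial (t j) (1 : L))) (N := d)
    (fun j => isHomogeneous_monomial _ (ht j)) x
  rw [bound_mono] at this
  simpa using this

end mono

section bounds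

variable {K : Type*} [Field K] [NumberField K] {ι ι' : Type} [Fintype ι] [Fintype ι']

theorem height_upper (F : ι' → MvPolynomial ι K) (d : ℕ) (hF : ∀ i, (F i).IsHomogeneous d) :
    ∃ C : ℝ, 0 ≤ C ∧ ∀ (L : Type) [Field L] [NumberField L] [Algebra K L] (x : ι → L),
      logHeight (fun i => aeval x (F i)) ≤ d * logHeight x + C * Module.finrank ℚ L := by
  set T : Finset (ι →₀ ℕ) := Finset.univ.biUnion fun i => (F i).support with hT
  set A : ι' × T → K := fun a => coeff a.2.1 (F a.1) with hA
  refine ⟨Real.log (Nat.card T) + logHeight A, ?_, ?_⟩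
  · have h1 : 0 ≤ Real.log (Nat.card T) := Real.log_natCast_nonneg _
    have h2 := logHeight_nonneg A
    linarith
  intro L _ _ _ x
  have hn : (0 : ℝ) ≤ (Module.finrank ℚ L : ℝ) := Nat.cast_nonneg _
  have heval : (fun i => aeval x (F i)) =
      fun i => ∑ t : T, (algebraMap K L (A (i, t))) * eval x (monomial t.1 (1 : L)) := by
    ext i
    have h1 : ∑ t : T, (algebraMap K L (A (i, t))) * eval x (monomial t.1 (1 : L)) =
        ∑ t ∈ T, (algebraMap K L (coeff t (F i))) * eval x (monomial t (1 : L)) := by
      rw [← Finset.sum_attach T]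
      rfl
    rw [h1, aeval_eq_eval₂Hom, coe_eval₂Hom, eval₂_eq']
    have h2 : (F i).support ⊆ T := fun t ht => by
      rw [hT]; exact Finset.mem_biUnion.2 ⟨i, Finset.mem_univ _, ht⟩
    refine (Finset.sum_subset h2 ?_).trans ?_
    · intro t _ ht
      rw [notMem_support_iff.1 ht]; simp
    · refine Finset.sum_congr rfl fun t _ => ?_
      rw [eval_monomial, one_mul, Finsupp.prod_fintype _ _ (fun _ => pow_zero _)]
  rcases isEmpty_or_nonempty T with hTe | hTn
  · have : (fun i => aeval x (F i)) = 0 := by
      rw [heval]; ext i; simp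
    rw [this, logHeight_zero]
    have h1 := logHeight_nonneg x
    have h2 : 0 ≤ Real.log (Nat.card T) := Real.log_natCast_nonneg _
    have h3 := logHeight_nonneg A
    positivity
  rw [heval]
  have h1 := logHeight_linearMap_apply_le (fun a : ι' × T => algebraMap K L (A a))
    (fun t : T => eval x (monomial t.1 (1 : L)))
  refine h1.trans ?_
  have h2 := height_mono (fun t : T => t.1) d (fun t => ?_) x
  · rw [logHeight_algebraMap, totalWeight_eq_finrank]
    have h3 : (Module.finrank K L : ℝ) ≤ Module.finrank ℚ L := by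
      have := Module.finrank_mul_finrank ℚ K L
      have h4 : 0 < Module.finrank ℚ K := Module.finrank_pos
      have : Module.finrank K L ≤ Module.finrank ℚ L := by
        rw [← this]; exact Nat.le_mul_of_pos_left _ h4
      exact_mod_cast this
    have h4 := logHeight_nonneg A
    nlinarith
  · obtain ⟨i, _, hi⟩ := Finset.mem_biUnion.1 t.2
    have := hF i (mem_support_iff.1 hi)
    rw [← this, Finsupp.degree_eq_weight_one]
    rfl

omit [NumberField K] [Fintype ι] in
theorem homogeneousComponent_mul_right {G P : MvPolynomial ι K} {n d : ℕ}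
    (hP : P.IsHomogeneous d) :
    homogeneousComponent (n + d) (G * P) = homogeneousComponent n G * P := by
  conv_lhs => rw [← sum_homogeneousComponent G, Finset.sum_mul, map_sum]
  have h1 : ∀ i, homogeneousComponent (n + d) (homogeneousComponent i G * P) =
      if i = n then homogeneousComponent i G * P else 0 := by
    intro i
    have : (homogeneousComponent i G * P) ∈ homogeneousSubmodule ι K (i + d) :=
      (homogeneousComponent_isHomogeneous i G).mul hP
    rw [homogeneousComponent_of_mem this]
    by_cases h : i = n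
    · simp [h]
    · rw [if_neg (by omega), if_neg h]
  simp_rw [h1]
  rw [Finset.sum_ite_eq']
  split_ifs with h
  · rfl
  · rw [Finset.mem_range, not_lt] at h
    rw [homogeneousComponent_eq_zero _ _ (by omega), zero_mul]

/-- the Nullstellensatz certificate -/
theorem exists_cert (F : ι' → MvPolynomial ι K) (d : ℕ) (hF : ∀ i, (F i).IsHomogeneous d)
    (hz : ∀ z : ι → AlgebraicClosure K, (∀ i, aeval z (F i) = 0) → z = 0) :
    ∃ (M : ℕ) (G : ι × ι' → MvPolynomial ι K), (∀ a, (G a).IsHomogeneous M) ∧
      ∀ k, ∑ j, G (k, j) * F j = X k ^ (M + d) := by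
  set I : Ideal (MvPolynomial ι K) := Ideal.span (Set.range F) with hI
  have h1 : ∀ k, (X k : MvPolynomial ι K) ∈ I.radical := by
    intro k
    rw [← vanishingIdeal_zeroLocus_eq_radical (K := AlgebraicClosure K), mem_vanishingIdeal_iff]
    intro z hzz
    rw [mem_zeroLocus_iff] at hzz
    have : z = 0 := hz z fun i => hzz _ (Ideal.subset_span ⟨i, rfl⟩)
    rw [this]
    simp
  have h2 : ∃ M, ∀ k, (X k : MvPolynomial ι K) ^ (M + d) ∈ I := by
    choose e he using h1
    refine ⟨∑ k, e k, fun k => ?_⟩
    have h3 : e k ≤ ∑ k, e k + d :=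
      (Finset.single_le_sum (fun _ _ => Nat.zero_le _) (Finset.mem_univ k)).trans
        (Nat.le_add_right _ _)
    obtain ⟨c, hc⟩ := Nat.exists_eq_add_of_le h3
    rw [hc, pow_add]
    exact I.mul_mem_right _ (he k)
  obtain ⟨M, hM⟩ := h2
  have h3 : ∀ k, ∃ G : ι' → MvPolynomial ι K, ∑ j, G j * F j = X k ^ (M + d) := by
    intro k
    have := (Ideal.mem_span_range_iff_exists_fun (v := F)).1 (hM k)
    obtain ⟨c, hc⟩ := this
    exact ⟨c, by simpa using hc⟩
  choose G hG using h3
  refine ⟨M, fun a => homogeneousComponent M (G a.1 a.2), fun a =>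
    homogeneousComponent_isHomogeneous _ _, fun k => ?_⟩
  have h4 := congrArg (homogeneousComponent (M + d)) (hG k)
  rw [map_sum] at h4
  simp_rw [homogeneousComponent_mul_right (hF _)] at h4
  rw [h4, homogeneousComponent_of_mem (isHomogeneous_X_pow k (M + d)), if_pos rfl]

theorem height_lower (F : ι' → MvPolynomial ι K) (d : ℕ) (hF : ∀ i, (F i).IsHomogeneous d)
    (hz : ∀ z : ι → AlgebraicClosure K, (∀ i, aeval z (F i) = 0) → z = 0) :
    ∃ C : ℝ, 0 ≤ C ∧ ∀ (L : Type) [Field L] [NumberField L] [Algebra K L] (x : ι → L),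
      d * logHeight x ≤ logHeight (fun i => aeval x (F i)) + C * Module.finrank ℚ L := by
  obtain ⟨M, G, hG, hGF⟩ := exists_cert F d hF hz
  obtain ⟨C, hC, hCG⟩ := height_upper G M hG
  refine ⟨Real.log (Nat.card ι') + C, add_nonneg (Real.log_natCast_nonneg _) hC, ?_⟩
  intro L _ _ _ x
  have h1 : x ^ (M + d) = fun k => ∑ j, (aeval x (G (k, j))) * (aeval x (F j)) := by
    ext k
    have := congrArg (aeval x) (hGF k)
    rw [map_sum] at this
    simp_rw [map_mul] at this
    rw [this]
    simp
  have h2 := logHeight_linearMap_apply_le (fun a : ι × ι' => aeval x (G a))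
    (fun j => aeval x (F j))
  rw [← h1, logHeight_pow, totalWeight_eq_finrank] at h2
  have h3 := hCG L x
  push_cast at h2
  nlinarith

/-- a morphism does not vanish at a nonzero vector with coordinates in a number field -/
theorem morph_ne_zero (F : ι' → MvPolynomial ι K) (d : ℕ) (hF : ∀ i, (F i).IsHomogeneous d)
    (hz : ∀ z : ι → AlgebraicClosure K, (∀ i, aeval z (F i) = 0) → z = 0)
    {L : Type*} [Field L] [Algebra K L] (x : ι → L) (hx : x ≠ 0) :
    (fun i => aeval x (F i)) ≠ 0 := by
  obtain ⟨M, G, hG, hGF⟩ := exists_cert F d hF hz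
  intro h
  apply hx
  ext k
  have := congrArg (aeval x) (hGF k)
  rw [map_sum] at this
  simp_rw [map_mul] at this
  have h2 : ∀ j, aeval x (F j) = 0 := fun j => congrFun h j
  simp_rw [h2, mul_zero] at this
  rw [Finset.sum_const_zero, map_pow, aeval_X] at this
  exact eq_zero_of_pow_eq_zero this.symm

/-- `|h(F x) - d h(x)| ≤ C [L:ℚ]` -/
theorem height_morphism (F : ι' → MvPolynomial ι K) (d : ℕ) (hF : ∀ i, (F i).IsHomogeneous d)
    (hz : ∀ z : ι → AlgebraicClosure K, (∀ i, aeval z (F i) = 0) → z = 0) :
    ∃ C : ℝ, 0 ≤ C ∧ ∀ (L : Type) [Field L] [NumberField L] [Algebra K L] (x : ι → L),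
      |logHeight (fun i => aeval x (F i)) - d * logHeight x| ≤ C * Module.finrank ℚ L := by
  obtain ⟨C1, hC1, h1⟩ := height_upper F d hF
  obtain ⟨C2, hC2, h2⟩ := height_lower F d hF hz
  refine ⟨C1 + C2, by positivity, ?_⟩
  intro L _ _ _ x
  have hn : (0 : ℝ) ≤ (Module.finrank ℚ L : ℝ) := Nat.cast_nonneg _
  have := h1 L x
  have := h2 L x
  rw [abs_le]
  constructor <;> nlinarith

end bounds

end Pool.DynLehmer
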