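import Mathlib
import Pool.Agent.Lib.MP_2194ec_nt.Commute0
import Pool.Agent.Lib.MP_2194ec_nt.GenLocal
import Pool.Agent.Lib.MP_2194ec_nt.Morphism
import Pool.Agent.Lib.MP_2194ec_nt.ProdFormula

set_option autoImplicit false

/-!
# The height bound from a uniform Frobenius
-/

namespace Pool.DynLehmer
open MvPolynomial NumberField Filter Topology
open scoped Classical

/-- the action of forms on vectors -/
noncomputable def gAct {K : Type} [Field K] {ι : Type} (F : ι → MvPolynomial ι K) (L : Type)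
    [Field L] [Algebra K L] (y : ι → L) : ι → L := fun i => aeval y (F i)

section general

variable {K : Type} [Field K] {ι : Type} (F : ι → MvPolynomial ι K)

theorem gAct_map {L N : Type} [Field L] [Field N] [Algebra K L] [Algebra K N] (φ : L →ₐ[K] N)
    (y : ι → L) : gAct F N (fun i => φ (y i)) = fun i => φ (gAct F L y i) := by
  funext i
  exact (comp_aeval_apply φ (f := y) (F i)).symm

theorem gAct_iter_map {L N : Type} [Field L] [Field N] [Algebra K L] [Algebra K N]
    (φ : L →ₐ[K] N) (k : ℕ) (y : ι → L) :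
    (gAct F N)^[k] (fun i => φ (y i)) = fun i => φ ((gAct F L)^[k] y i) := by
  induction k with
  | zero => rfl
  | succ k ih => rw [Function.iterate_succ_apply', Function.iterate_succ_apply', ih, gAct_map]

theorem gAct_smul {d : ℕ} (hF : ∀ i, (F i).IsHomogeneous d)
    {L : Type} [Field L] [Algebra K L] (c : L) (z : ι → L) :
    gAct F L (c • z) = c ^ d • gAct F L z := by
  have h0 : ∀ (y : ι → L) i, gAct F L y i = eval y (map (algebraMap K L) (F i)) := by
    intro y i
    rw [gAct, eval_map]; rfl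
  ext i
  rw [Pi.smul_apply, h0, h0, eval_smul_hom ((hF i).map _), smul_eq_mul]

theorem gAct_iter_smul {d : ℕ} (hF : ∀ i, (F i).IsHomogeneous d)
    {L : Type} [Field L] [Algebra K L] (k : ℕ) (c : L) (z : ι → L) :
    (gAct F L)^[k] (c • z) = c ^ (d ^ k) • (gAct F L)^[k] z := by
  induction k with
  | zero => simp
  | succ k ih =>
    rw [Function.iterate_succ_apply', ih, gAct_smul F hF, Function.iterate_succ_apply', ← pow_mul,
      ← pow_succ]

end general

section props

variable {K : Type} [Field K] [NumberField K] {ι : Type} [Fintype ι]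

theorem gAct_ne {d : ℕ} (F : ι → MvPolynomial ι K) (hF : ∀ i, (F i).IsHomogeneous d)
    (hz : ∀ z : ι → AlgebraicClosure K, (∀ i, aeval z (F i) = 0) → z = 0)
    {L : Type} [Field L] [Algebra K L] (z : ι → L) (h : z ≠ 0) : gAct F L z ≠ 0 :=
  morph_ne_zero F d hF hz z h

theorem gAct_iter_ne {d : ℕ} (F : ι → MvPolynomial ι K) (hF : ∀ i, (F i).IsHomogeneous d)
    (hz : ∀ z : ι → AlgebraicClosure K, (∀ i, aeval z (F i) = 0) → z = 0)
    {L : Type} [Field L] [Algebra K L] (k : ℕ) (z : ι → L) (h : z ≠ 0) :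
    (gAct F L)^[k] z ≠ 0 := by
  induction k with
  | zero => exact h
  | succ k ih => rw [Function.iterate_succ_apply']; exact gAct_ne F hF hz _ ih

omit [Fintype ι] in
/-- vectors all of whose minors vanish are proportional -/
theorem prop_of_minors {L : Type} [Field L] {y y' : ι → L} (hy : y ≠ 0) (hy' : y' ≠ 0)
    (h : ∀ i j, y i * y' j - y j * y' i = 0) : ∃ c : L, c ≠ 0 ∧ y = c • y' := by
  obtain ⟨j, hj⟩ := Function.ne_iff.1 hy'
  have hj' : y' j ≠ 0 := hj
  refine ⟨y j / y' j, ?_, ?_⟩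
  · intro h0
    rw [div_eq_zero_iff] at h0
    have hyj : y j = 0 := h0.resolve_right hj'
    apply hy
    funext i
    have h1 := h i j
    rw [hyj, zero_mul, sub_zero] at h1
    exact (mul_eq_zero.1 h1).resolve_right hj'
  · funext i
    have h1 := h i j
    simp only [Pi.smul_apply, smul_eq_mul]
    field_simp
    linear_combination h1

omit [NumberField K] in
/-- powers of a Frobenius -/
theorem frob_pow {L : Type} [Field L] [NumberField L] [Algebra K L] (σ : L ≃ₐ[K] L)
    (w : FinitePlace L) (Q : ℕ) (h : ∀ a : L, w a ≤ 1 → w (σ a - a ^ Q) < 1) (j : ℕ) :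
    ∀ a : L, w a ≤ 1 → w ((σ ^ j) a - a ^ (Q ^ j)) < 1 := by
  induction j with
  | zero => intro a ha; simp
  | succ j ih =>
    intro a ha
    have hint : w ((σ ^ j) a) ≤ 1 := by
      have h1 : (σ ^ j) a = ((σ ^ j) a - a ^ (Q ^ j)) + a ^ (Q ^ j) := by ring
      rw [h1]
      refine (FinitePlace.add_le w _ _).trans (max_le (ih a ha).le ?_)
      rw [map_pow]
      exact pow_le_one₀ (apply_nonneg w _) ha
    have h2 := h _ hint
    have h3 : w (((σ ^ j) a) ^ Q - (a ^ (Q ^ j)) ^ Q) < 1 := by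
      set x : OW w := ⟨(σ ^ j) a, hint⟩ with hx
      set y : OW w := ⟨a ^ (Q ^ j), by
        rw [mem_OW, map_pow]; exact pow_le_one₀ (apply_nonneg w _) ha⟩ with hy
      obtain ⟨r, hr⟩ := sub_dvd_pow_sub_pow x y Q
      have h4 : ((σ ^ j) a) ^ Q - (a ^ (Q ^ j)) ^ Q = ((σ ^ j) a - a ^ (Q ^ j)) * (r : L) :=
        congrArg Subtype.val hr
      rw [h4, map_mul]
      calc w ((σ ^ j) a - a ^ (Q ^ j)) * w (r : L) ≤ w ((σ ^ j) a - a ^ (Q ^ j)) * 1 :=
            mul_le_mul_of_nonneg_left r.2 (apply_nonneg w _)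
        _ = w ((σ ^ j) a - a ^ (Q ^ j)) := mul_one _
        _ < 1 := ih a ha
    have h5 : (σ ^ (j + 1)) a - a ^ (Q ^ (j + 1)) =
        (σ ((σ ^ j) a) - ((σ ^ j) a) ^ Q) + (((σ ^ j) a) ^ Q - (a ^ (Q ^ j)) ^ Q) := by
      rw [pow_succ' σ, AlgEquiv.mul_apply, pow_succ Q, pow_mul a]
      ring
    rw [h5]
    exact (FinitePlace.add_le w _ _).trans_lt (max_lt h2 h3)

theorem exists_pow_between {q E : ℕ} (hq : 2 ≤ q) (hE : 1 ≤ E) :
    ∃ j, E ≤ q ^ j ∧ q ^ j ≤ q * E := by
  have hex : ∃ j, E ≤ q ^ j := ⟨E, (Nat.lt_pow_self (by omega)).le⟩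
  set j := Nat.find hex with hj
  refine ⟨j, Nat.find_spec hex, ?_⟩
  rcases Nat.eq_zero_or_pos j with h0 | h0
  · rw [h0, pow_zero]
    nlinarith
  · have h1 : ¬ E ≤ q ^ (j - 1) := Nat.find_min hex (by omega)
    push Not at h1
    have h2 : q ^ j = q * q ^ (j - 1) := by
      rw [← pow_succ']; congr 1; omega
    rw [h2]
    exact Nat.mul_le_mul_left q h1.le

end props

section main

variable {K : Type} [Field K] [NumberField K] {p s : ℕ} {ι : Type} [Fintype ι] [DecidableEq ι]

theorem gact_eq_aeval {v : FinitePlace K} (Φ : GF (OW v) p s ι)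
    (F : ι → MvPolynomial ι K) (h : ∀ i, map (OW v).subtype (Φ.F i) = F i)
    (N : Type) [Field N] [NumberField N] [Algebra K N] :
    (Φ.map (toN v N)).act = gAct F N := by
  ext y i
  rw [GF.act, GF.map_F, gAct, ← h, toN, ← MvPolynomial.map_map, eval_map]
  rfl

/-- **Height bound from a uniform Frobenius on a positive proportion of the places above `v`.** -/
theorem gen_bound [Nonempty ι] (hp : p.Prime) (hs : 1 ≤ s) (v : FinitePlace K)
    (Φ : GF (OW v) p s ι) (hϖ : v (Φ.ϖ : K) < 1) (hϖ0 : (Φ.ϖ : K) ≠ 0)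
    (F : ι → MvPolynomial ι K) (hF : ∀ i, (F i).IsHomogeneous (p ^ s))
    (hz : ∀ z : ι → AlgebraicClosure K, (∀ i, aeval z (F i) = 0) → z = 0)
    (hΦF : ∀ i, map (OW v).subtype (Φ.F i) = F i) (f' m : ℕ) (hf' : 1 ≤ f') (hm : 1 ≤ m) :
    ∃ c : ℝ, 0 < c ∧ ∀ (L : Type) [Field L] [NumberField L] [Algebra K L] (σ : L ≃ₐ[K] L)
      (S : Finset (FinitePlace L)) (e : FinitePlace L → ℕ) (E : ℕ), 1 ≤ E →
      (∀ w ∈ S, Above v w (e w)) → (Module.finrank K L ≤ m * ∑ w ∈ S, e w) →
      (∀ w ∈ S, ∀ a : L, w a ≤ 1 → w (σ a - a ^ (p ^ f')) < 1) →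
      (∀ w ∈ S, ∀ a : L, w a < 1 → (w a) ^ E ≤ w (toN v L Φ.ϖ)) →
      ∀ x : ι → L, x ≠ 0 →
      (¬ ∃ m n : ℕ, m ≠ n ∧ ∃ c : L, c ≠ 0 ∧ (gAct F L)^[n] x = c • (gAct F L)^[m] x) →
      ∃ h : ℝ, Tendsto (fun n : ℕ => Height.logHeight ((gAct F L)^[n] x) /
        (Module.finrank ℚ L : ℝ) / ((p ^ s : ℕ) : ℝ) ^ n) atTop (𝓝 h) ∧ c / E ≤ h := by
  have hq2 : 2 ≤ p ^ s := hp.two_le.trans (Nat.le_self_pow (by omega) p)
  have hq2r : (2 : ℝ) ≤ ((p ^ s : ℕ) : ℝ) := by exact_mod_cast hq2
  obtain ⟨m0, hm01, hm0⟩ := exists_ggoodExp Φ hϖ hp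
  obtain ⟨C, hC0, hC⟩ := height_morphism F (p ^ s) hF hz
  set Λ : ℝ := - Real.log (v (Φ.ϖ : K)) with hΛ
  have hΛ0 : 0 < Λ := neg_pos.2 (Real.log_neg (FinitePlace.pos_iff.2 hϖ0) hϖ)
  have hKpos : (0 : ℝ) < Module.finrank ℚ K := by exact_mod_cast Module.finrank_pos
  have hmpos : (0 : ℝ) < m := by exact_mod_cast hm
  obtain ⟨i0, hi0⟩ := exists_nat_ge ((2 * C + Real.log 2 + 1) * (m * Module.finrank ℚ K) / Λ)
  set k := m0 * f' with hk
  have hkpos : 1 ≤ k := Nat.mul_pos hm01 hf'
  have hgood : GGoodExp Φ k := hm0 k ⟨f', rfl⟩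
  set Q : ℝ := ((p ^ s : ℕ) : ℝ) with hQ
  have hQ0 : 0 < Q := by linarith
  refine ⟨1 / (Q ^ (i0 + 1) * (Q ^ k + 1)), by positivity, ?_⟩
  intro L _ _ _ σ S e E hE1 hS hcard hfrob hram x hx hwand
  have hLpos : (0 : ℝ) < Module.finrank ℚ L := by exact_mod_cast Module.finrank_pos
  have hKLpos : (0 : ℝ) < Module.finrank K L := by
    have hfd : FiniteDimensional K L := Module.Finite.of_restrictScalars_finite ℚ K L
    exact_mod_cast Module.finrank_pos
  have htower : (Module.finrank ℚ K : ℝ) * Module.finrank K L = Module.finrank ℚ L := by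
    exact_mod_cast Module.finrank_mul_finrank ℚ K L
  have hact : (Φ.map (toN v L)).act = gAct F L := gact_eq_aeval Φ F hΦF L
  -- heights
  set H : (ι → L) → ℝ := fun z => Height.logHeight z / (Module.finrank ℚ L : ℝ) with hH
  have hHact : ∀ z, |H (gAct F L z) - Q * H z| ≤ C := by
    intro z
    simp only [hH]
    have h5 : Height.logHeight (gAct F L z) / (Module.finrank ℚ L : ℝ) -
        Q * (Height.logHeight z / Module.finrank ℚ L) =
        (Height.logHeight (gAct F L z) - Q * Height.logHeight z) / Module.finrank ℚ L := by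
      field_simp
    rw [h5, abs_div, abs_of_pos hLpos, div_le_iff₀ hLpos]
    exact hC L z
  obtain ⟨hh, hlim, -, hdiff, hmul, -⟩ := commuting_heights H (gAct F L) (gAct F L)
    (fun _ => rfl) hq2r hq2r hHact hHact
  have hmuln : ∀ (n : ℕ) z, hh ((gAct F L)^[n] z) = Q ^ n * hh z := by
    intro n z
    induction n with
    | zero => simp
    | succ n ih => rw [Function.iterate_succ_apply', hmul, ih, pow_succ]; ring
  refine ⟨hh x, hlim x, ?_⟩
  -- the Frobenius
  set τ : L ≃ₐ[K] L := σ ^ (s * m0) with hτ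
  have hτfrob : ∀ w ∈ S, ∀ a : L, w a ≤ 1 → w (τ a - a ^ ((p ^ s) ^ k)) < 1 := by
    intro w hw a ha
    have h1 := frob_pow σ w (p ^ f') (hfrob w hw) (s * m0) a ha
    have h2 : (p ^ f') ^ (s * m0) = (p ^ s) ^ k := by
      rw [hk, ← pow_mul, ← pow_mul]; congr 1; ring
    rw [h2] at h1
    exact h1
  have hhτ : hh (fun i => τ (x i)) = hh x := by
    refine tendsto_nhds_unique ((hlim (fun i => τ (x i)))) ((hlim x).congr fun n => ?_)
    have h1 := gAct_iter_map F (τ : L →ₐ[K] L) n x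
    have h2 : (gAct F L)^[n] (fun i => τ (x i)) = fun i => τ ((gAct F L)^[n] x i) := h1
    have h3 : Height.logHeight (fun i => τ ((gAct F L)^[n] x i)) =
        Height.logHeight ((gAct F L)^[n] x) := logHeight_ringEquiv τ.toRingEquiv _
    rw [h2]
    simp only [hH]
    rw [h3]
  -- the two points
  obtain ⟨j, hj1, hj2⟩ := exists_pow_between hq2 hE1
  set n := i0 + j with hn
  set y := (gAct F L)^[n] ((gAct F L)^[k] x) with hy
  set y' := (gAct F L)^[n] (fun i => τ (x i)) with hy'
  have hτx : (fun i => τ (x i)) ≠ 0 := by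
    intro h0
    apply hx
    funext i
    have := congrFun h0 i
    simpa using this
  have hy0 : y ≠ 0 := gAct_iter_ne F hF hz n _ (gAct_iter_ne F hF hz k x hx)
  have hy'0 : y' ≠ 0 := gAct_iter_ne F hF hz n _ hτx
  have hclose : ∀ w ∈ S, Close w ((w (toN v L Φ.ϖ)) ^ (i0 + 1)) y y' := by
    intro w hw
    obtain ⟨b, hb1, hb⟩ := close_frob Φ (hS w hw) hϖ hp hgood (τ : L →+* L) (hτfrob w hw) x hx
    have h1 := Close.act_iter Φ (hS w hw) hϖ hp (apply_nonneg w b) hb1.le hb j
    have h2 : (w b) ^ ((p ^ s) ^ j) ≤ w (toN v L Φ.ϖ) :=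
      (pow_le_pow_of_le_one (apply_nonneg w b) hb1.le hj1).trans (hram w hw b hb1)
    have h3 := h1.mono (max_le h2 le_rfl)
    have h4 := Close.act_iter' Φ (hS w hw) hϖ hp hs h3 i0
    have h5 : ∀ z, (gAct F L)^[i0] ((gAct F L)^[j] z) = (gAct F L)^[n] z := fun z => by
      rw [hn, Function.iterate_add_apply]
    rw [hact, h5, h5] at h4
    exact h4
  by_cases hprop : ∀ i j, y i * y' j - y j * y' i = 0
  · -- proportional case
    exfalso
    obtain ⟨c, hc, hyc⟩ := prop_of_minors hy0 hy'0 hprop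
    set X := (gAct F L)^[n] x with hX
    have hX' : (fun i => τ (X i)) = (gAct F L)^[n] (fun i => τ (x i)) :=
      (gAct_iter_map F (τ : L →ₐ[K] L) n x).symm
    have h1 : (gAct F L)^[k] X = c • fun i => τ (X i) := by
      rw [hX', hX, ← Function.iterate_add_apply, add_comm, Function.iterate_add_apply]
      exact hyc
    have h2 : ∀ M : ℕ, ∃ c' : L, c' ≠ 0 ∧ (gAct F L)^[k * M] X = c' • fun i => (τ ^ M) (X i) := by
      intro M
      induction M with
      | zero => exact ⟨1, one_ne_zero, by simp⟩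
      | succ M ih =>
        obtain ⟨c', hc', h3⟩ := ih
        refine ⟨c' ^ ((p ^ s) ^ k) * (τ ^ M) c, mul_ne_zero (pow_ne_zero _ hc')
          ((map_ne_zero (τ ^ M)).2 hc), ?_⟩
        have h4 := gAct_iter_map F ((τ ^ M : L ≃ₐ[K] L) : L →ₐ[K] L) k X
        have h4' : (gAct F L)^[k] (fun i => (τ ^ M) (X i)) =
          fun i => (τ ^ M) ((gAct F L)^[k] X i) := h4
        rw [mul_add, mul_one, add_comm, Function.iterate_add_apply, h3,
          gAct_iter_smul F hF, h4', h1]
        funext i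
        simp only [Pi.smul_apply, smul_eq_mul, map_mul]
        rw [pow_succ τ, AlgEquiv.mul_apply, mul_assoc]
    have hfd : FiniteDimensional K L := Module.Finite.of_restrictScalars_finite ℚ K L
    have hfin : IsOfFinOrder τ := isOfFinOrder_of_finite τ
    obtain ⟨M, hM, hMτ⟩ := hfin.exists_pow_eq_one
    obtain ⟨c', hc', h3⟩ := h2 M
    rw [hMτ] at h3
    apply hwand
    refine ⟨n, k * M + n, ?_, c', hc', ?_⟩
    · have : 1 ≤ k * M := Nat.mul_pos hkpos hM
      omega
    · rw [Function.iterate_add_apply]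
      exact h3
  · -- product formula
    push Not at hprop
    obtain ⟨i, l, hil⟩ := hprop
    have hL := liouville (κ := Fin 2) hil ![y, y']
      (fun k => by fin_cases k <;> simpa) (fun _ => 1) 2 (by norm_num)
      (fun w => by
        simp only [pow_one, Fin.prod_univ_two, Matrix.cons_val_zero, Matrix.cons_val_one]
        have h1 : ∀ (y : ι → L) l, w (y l) ≤ ⨆ l, w (y l) := fun y l =>
          Finite.le_ciSup (fun l => w (y l)) l
        have h0 : ∀ (y : ι → L), 0 ≤ ⨆ l, w (y l) := fun y =>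
          (apply_nonneg w _).trans (h1 y i)
        have h2 : w (y i * y' l) ≤ (⨆ l, w (y l)) * ⨆ l, w (y' l) := by
          rw [map_mul]
          exact mul_le_mul (h1 y i) (h1 y' l) (apply_nonneg w _) (h0 y)
        have h3 : w (y l * y' i) ≤ (⨆ l, w (y l)) * ⨆ l, w (y' l) := by
          rw [map_mul]
          exact mul_le_mul (h1 y l) (h1 y' i) (apply_nonneg w _) (h0 y)
        have h4 : w (y i * y' l - y l * y' i) ≤ w (y i * y' l) + w (y l * y' i) :=
          w.1.sub_le_add _ _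
        linarith)
      (fun w => by
        simp only [pow_one, Fin.prod_univ_two, Matrix.cons_val_zero, Matrix.cons_val_one]
        have h1 : ∀ (y : ι → L) l, w (y l) ≤ ⨆ l, w (y l) := fun y l =>
          Finite.le_ciSup (fun l => w (y l)) l
        have h0 : ∀ (y : ι → L), 0 ≤ ⨆ l, w (y l) := fun y =>
          (apply_nonneg w _).trans (h1 y i)
        rw [sub_eq_add_neg]
        refine (FinitePlace.add_le w _ _).trans (max_le ?_ ?_)
        · rw [map_mul]
          exact mul_le_mul (h1 y i) (h1 y' l) (apply_nonneg w _) (h0 y)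
        · rw [map_neg_eq_map, map_mul]
          exact mul_le_mul (h1 y l) (h1 y' i) (apply_nonneg w _) (h0 y)) S
    simp only [Nat.cast_one, one_mul, Fin.sum_univ_two, Matrix.cons_val_zero,
      Matrix.cons_val_one] at hL
    have hlocal : ∀ w ∈ S, ((i0 : ℝ) + 1) * (e w * Λ) ≤
        Real.log (⨆ i, w (y i)) + Real.log (⨆ i, w (y' i)) -
          Real.log (w (y i * y' l - y l * y' i)) := by
      intro w hw
      have hπ0 : 0 < w (toN v L Φ.ϖ) := by
        rw [FinitePlace.pos_iff]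
        change algebraMap K L (Φ.ϖ : K) ≠ 0
        simpa using hϖ0
      have h1 := (hclose w hw).minor (pow_nonneg hπ0.le _) i l
      have h2 : 0 < w (y i * y' l - y l * y' i) := FinitePlace.pos_iff.2 hil
      have h3 : 0 < ⨆ i, w (y i) := iSup_pos_of_ne w hy0
      have h4 : 0 < ⨆ i, w (y' i) := iSup_pos_of_ne w hy'0
      have h5 := Real.log_le_log h2 h1
      rw [Real.log_mul (pow_pos hπ0 _).ne' (by positivity), Real.log_mul h3.ne' h4.ne',
        Real.log_pow] at h5
      have h6 : Real.log (w (toN v L Φ.ϖ)) = - (e w * Λ) := by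
        change Real.log (w (algebraMap K L (Φ.ϖ : K))) = _
        rw [(hS w hw).2, Real.log_pow, hΛ]
        ring
      rw [h6] at h5
      push_cast at h5
      linarith
    have hsum := Finset.sum_le_sum hlocal
    have h7 : ∑ w ∈ S, ((i0 : ℝ) + 1) * (e w * Λ) = ((i0 : ℝ) + 1) * Λ * ∑ w ∈ S, (e w : ℝ) := by
      rw [Finset.mul_sum]
      exact Finset.sum_congr rfl fun w _ => by ring
    rw [h7] at hsum
    have h8 := hsum.trans hL
    have h9 : (Module.finrank K L : ℝ) ≤ m * ∑ w ∈ S, (e w : ℝ) := by exact_mod_cast hcard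
    -- lower bound for the left hand side
    have h10 : (2 * C + Real.log 2 + 1) * Module.finrank ℚ L ≤
        ((i0 : ℝ) + 1) * Λ * ∑ w ∈ S, (e w : ℝ) := by
      rw [div_le_iff₀ hΛ0] at hi0
      have hpos : 0 ≤ 2 * C + Real.log 2 + 1 := by
        have := Real.log_nonneg (show (1 : ℝ) ≤ 2 by norm_num)
        linarith
      have hsum0 : 0 ≤ ∑ w ∈ S, (e w : ℝ) := Finset.sum_nonneg fun w _ => Nat.cast_nonneg _
      calc (2 * C + Real.log 2 + 1) * Module.finrank ℚ L
          = (2 * C + Real.log 2 + 1) * (Module.finrank ℚ K * Module.finrank K L) := by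
            rw [htower]
        _ ≤ (2 * C + Real.log 2 + 1) * (Module.finrank ℚ K * (m * ∑ w ∈ S, (e w : ℝ))) := by
            apply mul_le_mul_of_nonneg_left _ hpos
            exact mul_le_mul_of_nonneg_left h9 hKpos.le
        _ = (2 * C + Real.log 2 + 1) * (m * Module.finrank ℚ K) * ∑ w ∈ S, (e w : ℝ) := by ring
        _ ≤ (i0 * Λ) * ∑ w ∈ S, (e w : ℝ) := mul_le_mul_of_nonneg_right hi0 hsum0
        _ ≤ ((i0 : ℝ) + 1) * Λ * ∑ w ∈ S, (e w : ℝ) := by
            apply mul_le_mul_of_nonneg_right _ hsum0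
            linarith
    have h11 := h10.trans h8
    -- divide by the degree
    have h12 : 2 * C + Real.log 2 + 1 ≤ H y + H y' + Real.log 2 := by
      simp only [hH]
      rw [← sub_nonneg] at h11 ⊢
      have h13 : Height.logHeight y / (Module.finrank ℚ L : ℝ) + Height.logHeight y' /
          (Module.finrank ℚ L : ℝ) + Real.log 2 - (2 * C + Real.log 2 + 1) =
          (Height.logHeight y + Height.logHeight y' + Module.finrank ℚ L * Real.log 2 -
          (2 * C + Real.log 2 + 1) * Module.finrank ℚ L) / Module.finrank ℚ L := by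
        field_simp
      rw [h13]
      exact div_nonneg h11 hLpos.le
    have h14 := (abs_le.1 (hdiff y)).2
    have h15 := (abs_le.1 (hdiff y')).2
    have h16 : hh y = Q ^ (n + k) * hh x := by
      rw [hy, ← Function.iterate_add_apply, hmuln]
    have h17 : hh y' = Q ^ n * hh x := by rw [hy', hmuln, hhτ]
    rw [h16] at h14
    rw [h17] at h15
    have h18 : 1 ≤ Q ^ n * (Q ^ k + 1) * hh x := by
      rw [pow_add] at h14
      linarith
    have hEpos : (0 : ℝ) < E := by exact_mod_cast hE1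
    have hhx : 0 < hh x := by
      by_contra hcon
      push Not at hcon
      have : Q ^ n * (Q ^ k + 1) * hh x ≤ 0 := mul_nonpos_of_nonneg_of_nonpos (by positivity) hcon
      linarith
    have h19 : Q ^ n ≤ Q ^ (i0 + 1) * E := by
      have h20 : Q ^ j ≤ Q * E := by
        rw [hQ]; exact_mod_cast hj2
      calc Q ^ n = Q ^ i0 * Q ^ j := by rw [hn, pow_add]
        _ ≤ Q ^ i0 * (Q * E) := mul_le_mul_of_nonneg_left h20 (by positivity)
        _ = Q ^ (i0 + 1) * E := by ring
    rw [div_div, div_le_iff₀ (by positivity)]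
    calc (1 : ℝ) ≤ Q ^ n * (Q ^ k + 1) * hh x := h18
      _ ≤ (Q ^ (i0 + 1) * E) * (Q ^ k + 1) * hh x := by
          apply mul_le_mul_of_nonneg_right _ hhx.le
          exact mul_le_mul_of_nonneg_right h19 (by positivity)
      _ = hh x * (Q ^ (i0 + 1) * (Q ^ k + 1) * E) := by ring

end main

end Pool.DynLehmer
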