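import Mathlib
import Pool.Agent.Lib.MP_2194ec_nt.GenMain

set_option autoImplicit false

/-!
# Forms adapted to a morphism, and the existence of a nonzero interpolation determinant
-/

namespace Pool.DynLehmer
open MvPolynomial
open scoped Classical

section adapted

variable {A : Type*} [CommRing A] {ι : Type}

/-- products of monomials in the iterates of `F` -/
noncomputable def gQ (F : ι → MvPolynomial ι A) : ℕ → (ℕ → ι →₀ ℕ) → MvPolynomial ι A
  | 0, μ => monomial (μ 0) 1
  | J + 1, μ => monomial (μ 0) 1 * bind₁ F (gQ F J fun j => μ (j + 1))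

/-- degrees of the adapted forms -/
def dl (b d : ℕ) : ℕ → ℕ
  | 0 => b
  | J + 1 => b + d * dl b d J

theorem gQ_hom {b d : ℕ} (F : ι → MvPolynomial ι A) (hF : ∀ i, (F i).IsHomogeneous d) (J : ℕ)
    (μ : ℕ → ι →₀ ℕ) (hμ : ∀ j, (μ j).degree = b) : (gQ F J μ).IsHomogeneous (dl b d J) := by
  induction J generalizing μ with
  | zero => exact isHomogeneous_monomial _ (hμ 0)
  | succ J ih =>
    have h1 := (ih (fun j => μ (j + 1)) fun j => hμ (j + 1)).aeval (S := A) F hF
    rw [aeval_eq_bind₁] at h1
    exact (isHomogeneous_monomial (R := A) 1 (hμ 0)).mul h1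

end adapted

section eval

variable {K : Type} [Field K] {ι : Type} [Fintype ι] (F : ι → MvPolynomial ι K)

theorem aeval_gQ {L : Type} [Field L] [Algebra K L] (J : ℕ) (μ : ℕ → ι →₀ ℕ) (z : ι → L) :
    aeval z (gQ F J μ) = ∏ j ∈ Finset.range (J + 1), ∏ i, ((gAct F L)^[j] z i) ^ (μ j i) := by
  induction J generalizing μ z with
  | zero =>
    simp only [gQ, zero_add, Finset.range_one, Finset.prod_singleton, Function.iterate_zero, id]
    rw [aeval_monomial, map_one, one_mul, Finsupp.prod_fintype _ _ (fun _ => pow_zero _)]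
  | succ J ih =>
    rw [gQ, map_mul, aeval_bind₁, aeval_monomial, map_one, one_mul,
      Finsupp.prod_fintype _ _ (fun _ => pow_zero _)]
    have h1 := ih (fun j => μ (j + 1)) (fun i => aeval z (F i))
    rw [h1, Finset.prod_range_succ' _ (J + 1), mul_comm]
    congr 1

theorem gQ_entry_le [Nonempty ι] {L : Type} [Field L] [Algebra K L] {W : Type*} [FunLike W L ℝ]
    [MonoidWithZeroHomClass W L ℝ] [NonnegHomClass W L ℝ] (w : W) {b : ℕ} (J : ℕ)
    (μ : ℕ → ι →₀ ℕ) (hμ : ∀ j, (μ j).degree = b) (z : ι → L) :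
    w (aeval z (gQ F J μ)) ≤
      ∏ j ∈ Finset.range (J + 1), (⨆ l, w ((gAct F L)^[j] z l)) ^ b := by
  rw [aeval_gQ, map_prod]
  refine Finset.prod_le_prod (fun j _ => apply_nonneg w _) fun j _ => ?_
  rw [map_prod]
  have h1 : ∀ l, w ((gAct F L)^[j] z l) ≤ ⨆ l, w ((gAct F L)^[j] z l) := fun l =>
    Finite.le_ciSup (fun l => w ((gAct F L)^[j] z l)) l
  have h2 : b = ∑ i, μ j i := by rw [← hμ j, Finsupp.degree_eq_sum]
  rw [h2, ← Finset.prod_pow_eq_pow_sum]
  refine Finset.prod_le_prod (fun i _ => apply_nonneg w _) fun i _ => ?_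
  rw [map_pow]
  exact pow_le_pow_left₀ (apply_nonneg w _) (h1 i) _

end eval

section span

variable {K : Type} [Field K] {ι : Type} [Fintype ι]

omit [Fintype ι] in
theorem hom_mem_span_monomial {G : MvPolynomial ι K} {n : ℕ} (hG : G.IsHomogeneous n)
    (V : Submodule K (MvPolynomial ι K))
    (h : ∀ t : ι →₀ ℕ, t.degree = n → monomial t (1 : K) ∈ V) : G ∈ V := by
  rw [← support_sum_monomial_coeff G]
  refine V.sum_mem fun t ht => ?_
  have h1 : t.degree = n := by
    by_contra hne
    exact (mem_support_iff.1 ht) (hG.coeff_eq_zero hne)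
  have h2 : monomial t (coeff t G) = coeff t G • monomial t (1 : K) := by
    rw [smul_monomial, smul_eq_mul, mul_one]
  rw [h2]
  exact V.smul_mem _ (h t h1)

/-- the spanning step -/
theorem span_step [NumberField K] (F : ι → MvPolynomial ι K) (d : ℕ)
    (hF : ∀ i, (F i).IsHomogeneous d)
    (hz : ∀ z : ι → AlgebraicClosure K, (∀ i, aeval z (F i) = 0) → z = 0) :
    ∃ b : ℕ, 1 ≤ b ∧ ∀ (n : ℕ) (G : MvPolynomial ι K), G.IsHomogeneous (b + d * n) →
      G ∈ Submodule.span K {Q : MvPolynomial ι K | ∃ (t : ι →₀ ℕ) (P : MvPolynomial ι K),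
        t.degree = b ∧ P.IsHomogeneous n ∧ Q = monomial t 1 * bind₁ F P} := by
  obtain ⟨M, G0, hG0, hGF⟩ := exists_cert F d hF hz
  refine ⟨Fintype.card ι * (M + d) + 1, by omega, ?_⟩
  set b := Fintype.card ι * (M + d) + 1 with hb
  intro n
  induction n with
  | zero =>
    intro G hG
    refine hom_mem_span_monomial hG _ fun t ht => Submodule.subset_span ⟨t, 1, ?_, ?_, ?_⟩
    · simpa using ht
    · exact isHomogeneous_one ι K
    · simp
  | succ n ih =>
    intro G hG
    refine hom_mem_span_monomial hG _ fun t ht => ?_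
    -- some exponent is large
    obtain ⟨k, hk⟩ : ∃ k, M + d ≤ t k := by
      by_contra hcon
      push Not at hcon
      have h1 : t.degree ≤ Fintype.card ι * (M + d) := by
        rw [Finsupp.degree_eq_sum]
        calc ∑ i, t i ≤ ∑ _i : ι, (M + d) := Finset.sum_le_sum fun i _ => (hcon i).le
          _ = Fintype.card ι * (M + d) := by simp
      rw [ht] at h1
      omega
    set t' := t - Finsupp.single k (M + d) with ht'
    have htt : t = Finsupp.single k (M + d) + t' := by
      rw [ht', add_tsub_cancel_of_le]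
      rwa [Finsupp.single_le_iff]
    have hdeg : t'.degree + (M + d) = b + d * (n + 1) := by
      rw [← ht, htt, map_add, Finsupp.degree_single]
      ring
    have h1 : (monomial t (1 : K)) = ∑ j, F j * (G0 (k, j) * monomial t' 1) := by
      have h2 : (monomial t (1 : K)) = X k ^ (M + d) * monomial t' 1 := by
        conv_lhs => rw [htt]
        rw [X_pow_eq_monomial, monomial_mul, one_mul]
      rw [h2, ← hGF k, Finset.sum_mul]
      exact Finset.sum_congr rfl fun j _ => by ring
    rw [h1]
    refine Submodule.sum_mem _ fun j _ => ?_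
    have h3 : (G0 (k, j) * monomial t' 1).IsHomogeneous (b + d * n) := by
      have h4 := (hG0 (k, j)).mul (isHomogeneous_monomial (R := K) (d := t') 1 rfl)
      convert h4 using 1
      have : d * (n + 1) = d * n + d := by ring
      omega
    have h4 := ih _ h3
    -- multiplication by `F j`
    have h5 : ∀ Q ∈ Submodule.span K {Q : MvPolynomial ι K | ∃ (t : ι →₀ ℕ)
        (P : MvPolynomial ι K), t.degree = b ∧ P.IsHomogeneous n ∧
        Q = monomial t 1 * bind₁ F P}, F j * Q ∈ Submodule.span K {Q : MvPolynomial ι K |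
        ∃ (t : ι →₀ ℕ) (P : MvPolynomial ι K), t.degree = b ∧ P.IsHomogeneous (n + 1) ∧
        Q = monomial t 1 * bind₁ F P} := by
      intro Q hQ
      induction hQ using Submodule.span_induction with
      | mem Q hQ =>
        obtain ⟨t, P, ht, hP, rfl⟩ := hQ
        refine Submodule.subset_span ⟨t, X j * P, ht, ?_, ?_⟩
        · rw [add_comm]; exact (isHomogeneous_X K j).mul hP
        · rw [map_mul, bind₁_X_right]; ring
      | zero => rw [mul_zero]; exact Submodule.zero_mem _
      | add a c _ _ ha hc => rw [mul_add]; exact Submodule.add_mem _ ha hc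
      | smul r a _ ha => rw [mul_smul_comm]; exact Submodule.smul_mem _ _ ha
    exact h5 _ h4

/-- **Adapted forms span.** -/
theorem span_adapted [NumberField K] (F : ι → MvPolynomial ι K) (d : ℕ)
    (hF : ∀ i, (F i).IsHomogeneous d)
    (hz : ∀ z : ι → AlgebraicClosure K, (∀ i, aeval z (F i) = 0) → z = 0) :
    ∃ b : ℕ, 1 ≤ b ∧ ∀ (J : ℕ) (G : MvPolynomial ι K), G.IsHomogeneous (dl b d J) →
      G ∈ Submodule.span K {Q : MvPolynomial ι K | ∃ μ : ℕ → ι →₀ ℕ,
        (∀ j, (μ j).degree = b) ∧ Q = gQ F J μ} := by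
  obtain ⟨b, hb, h⟩ := span_step F d hF hz
  refine ⟨b, hb, ?_⟩
  intro J
  induction J with
  | zero =>
    intro G hG
    refine hom_mem_span_monomial hG _ fun t ht => Submodule.subset_span ⟨fun _ => t, fun _ => ht, ?_⟩
    rfl
  | succ J ih =>
    intro G hG
    have h1 := h _ G hG
    refine (Submodule.span_le.2 ?_ : Submodule.span K {Q : MvPolynomial ι K |
      ∃ (t : ι →₀ ℕ) (P : MvPolynomial ι K), t.degree = b ∧ P.IsHomogeneous (dl b d J) ∧
        Q = monomial t 1 * bind₁ F P} ≤ _) h1
    rintro Q ⟨t, P, ht, hP, rfl⟩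
    have h2 := ih P hP
    clear hP h1
    induction h2 using Submodule.span_induction with
    | mem Q hQ =>
      obtain ⟨μ, hμ, rfl⟩ := hQ
      refine Submodule.subset_span ⟨fun j => if j = 0 then t else μ (j - 1), ?_, ?_⟩
      · intro j
        by_cases hj : j = 0
        · simp [hj, ht]
        · simp [hj, hμ]
      · simp [gQ]
    | zero => rw [map_zero, mul_zero]; exact Submodule.zero_mem _
    | add a c _ _ ha hc =>
      rw [map_add, mul_add]
      exact Submodule.add_mem _ ha hc
    | smul r a _ ha =>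
      rw [map_smul, mul_smul_comm]
      exact Submodule.smul_mem _ _ ha

end span

section minor

variable {K : Type} [Field K] [NumberField K] {ι : Type} [Fintype ι]

omit [NumberField K] [Fintype ι] in
/-- evaluation vectors of forms of degree `dl b d J` over `L` are combinations of evaluation
vectors of adapted forms -/
theorem eval_mem_span (F : ι → MvPolynomial ι K) {b d J : ℕ}
    (h : ∀ (G : MvPolynomial ι K), G.IsHomogeneous (dl b d J) →
      G ∈ Submodule.span K {Q : MvPolynomial ι K | ∃ μ : ℕ → ι →₀ ℕ,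
        (∀ j, (μ j).degree = b) ∧ Q = gQ F J μ})
    {L : Type} [Field L] [Algebra K L] {κ : Type} (z : κ → ι → L) (G : MvPolynomial ι L)
    (hG : G.IsHomogeneous (dl b d J)) :
    (fun a => eval (z a) G) ∈ Submodule.span L {y : κ → L | ∃ μ : ℕ → ι →₀ ℕ,
        (∀ j, (μ j).degree = b) ∧ y = fun a => aeval (z a) (gQ F J μ)} := by
  set V := Submodule.span L {y : κ → L | ∃ μ : ℕ → ι →₀ ℕ,
        (∀ j, (μ j).degree = b) ∧ y = fun a => aeval (z a) (gQ F J μ)} with hV
  -- forms over `K`
  have h1 : ∀ P : MvPolynomial ι K, P.IsHomogeneous (dl b d J) →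
      (fun a => aeval (z a) P) ∈ V := by
    intro P hP
    have h2 := h P hP
    clear hP
    induction h2 using Submodule.span_induction with
    | mem Q hQ =>
      obtain ⟨μ, hμ, rfl⟩ := hQ
      exact Submodule.subset_span ⟨μ, hμ, rfl⟩
    | zero =>
      have : (fun a => aeval (z a) (0 : MvPolynomial ι K)) = (0 : κ → L) := by
        funext a; simp
      rw [this]; exact V.zero_mem
    | add P Q _ _ hP hQ =>
      have : (fun a => aeval (z a) (P + Q)) =
          (fun a => aeval (z a) P) + fun a => aeval (z a) Q := by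
        funext a; simp
      rw [this]; exact V.add_mem hP hQ
    | smul r P _ hP =>
      have : (fun a => aeval (z a) (r • P)) =
          (algebraMap K L r) • fun a => aeval (z a) P := by
        funext a; simp [Algebra.smul_def]
      rw [this]; exact V.smul_mem _ hP
  have h2 : (fun a => eval (z a) G) =
      ∑ t ∈ G.support, coeff t G • fun a => aeval (z a) (monomial t (1 : K)) := by
    funext a
    rw [Finset.sum_apply, eval_eq]
    refine Finset.sum_congr rfl fun t _ => ?_
    simp only [Pi.smul_apply, smul_eq_mul]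
    rw [aeval_monomial, map_one, one_mul, Finsupp.prod]
  rw [h2]
  refine V.sum_mem fun t ht => V.smul_mem _ (h1 _ (isHomogeneous_monomial _ ?_))
  by_contra hne
  exact (mem_support_iff.1 ht) (hG.coeff_eq_zero hne)

/-- extraction of a nonzero determinant -/
theorem exists_det_ne_zero {L : Type} [Field L] {n : ℕ} (s : Set (Fin n → L))
    (hs : Submodule.span L s = ⊤) :
    ∃ f : Fin n → Fin n → L, (∀ a, f a ∈ s) ∧ (Matrix.of fun i a => f a i).det ≠ 0 := by
  obtain ⟨f, hf1, hf2, hf3⟩ := Submodule.exists_fun_fin_finrank_span_eq L s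
  have hr : Module.finrank L (Submodule.span L s) = n := by
    rw [hs, finrank_top, Module.finrank_fin_fun]
  refine ⟨fun a => f (Fin.cast hr.symm a), fun a => hf1 _, ?_⟩
  have h1 : LinearIndependent L (fun a => f (Fin.cast hr.symm a)) :=
    hf3.comp _ (Fin.cast_injective hr.symm)
  have h2 : IsUnit (Matrix.of fun a i => f (Fin.cast hr.symm a) i) :=
    Matrix.linearIndependent_rows_iff_isUnit.1 h1
  have h3 : (Matrix.of fun i a => f (Fin.cast hr.symm a) i) =
      (Matrix.of fun a i => f (Fin.cast hr.symm a) i).transpose := rfl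
  rw [h3, Matrix.det_transpose]
  exact ((Matrix.isUnit_iff_isUnit_det _).1 h2).ne_zero

/-- **Existence of a nonzero interpolation determinant of adapted forms**: general version. -/
theorem exists_gQ_det (F : ι → MvPolynomial ι K) {b d J : ℕ}
    (h : ∀ (G : MvPolynomial ι K), G.IsHomogeneous (dl b d J) →
      G ∈ Submodule.span K {Q : MvPolynomial ι K | ∃ μ : ℕ → ι →₀ ℕ,
        (∀ j, (μ j).degree = b) ∧ Q = gQ F J μ})
    {L : Type} [Field L] [Algebra K L] {n : ℕ} (z : Fin n → ι → L)
    (hsep : ∀ a, ∃ G : MvPolynomial ι L, G.IsHomogeneous (dl b d J) ∧ eval (z a) G ≠ 0 ∧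
      ∀ i, i ≠ a → eval (z i) G = 0) :
    ∃ μ : Fin n → ℕ → ι →₀ ℕ, (∀ a j, (μ a j).degree = b) ∧
      (Matrix.of fun i a => aeval (z i) (gQ F J (μ a))).det ≠ 0 := by
  have htop : Submodule.span L {y : Fin n → L | ∃ μ : ℕ → ι →₀ ℕ,
        (∀ j, (μ j).degree = b) ∧ y = fun a => aeval (z a) (gQ F J μ)} = ⊤ := by
    rw [eq_top_iff]
    intro y _
    rw [pi_eq_sum_univ' y]
    refine Submodule.sum_mem _ fun a _ => Submodule.smul_mem _ _ ?_
    obtain ⟨G, hG, hGa, hGi⟩ := hsep a
    have h1 := eval_mem_span F h z G hG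
    have h2 : (Pi.single a (1 : L) : Fin n → L) =
        (eval (z a) G)⁻¹ • fun i => eval (z i) G := by
      funext i
      simp only [Pi.smul_apply, smul_eq_mul]
      by_cases hia : i = a
      · rw [hia, Pi.single_eq_same, inv_mul_cancel₀ hGa]
      · rw [Pi.single_eq_of_ne hia, hGi i hia, mul_zero]
    rw [h2]
    exact Submodule.smul_mem _ _ h1
  obtain ⟨f, hf, hdet⟩ := exists_det_ne_zero _ htop
  choose μ hμ hfμ using hf
  refine ⟨μ, hμ, ?_⟩
  have h1 : (Matrix.of fun i a => aeval (z i) (gQ F J (μ a))) = Matrix.of fun i a => f a i := by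
    ext i a
    simp only [Matrix.of_apply]
    rw [hfμ a]
  rw [h1]
  exact hdet

omit [Fintype ι] in
/-- separation of distinct points by products of linear forms -/
theorem exists_sep {L : Type} [Field L] {n δ : ℕ} (hn : n ≤ δ + 1) (z : Fin n → ι → L)
    (hz : ∀ a, z a ≠ 0) (hzz : ∀ a i, i ≠ a → ∃ k l, z i k * z a l - z i l * z a k ≠ 0)
    (a : Fin n) : ∃ G : MvPolynomial ι L, G.IsHomogeneous δ ∧ eval (z a) G ≠ 0 ∧
      ∀ i, i ≠ a → eval (z i) G = 0 := by
  choose k l hkl using hzz a
  obtain ⟨k0, hk0⟩ := Function.ne_iff.1 (hz a)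
  set ℓ : Fin n → MvPolynomial ι L := fun i =>
    if h : i ≠ a then C (z i (k i h)) * X (l i h) - C (z i (l i h)) * X (k i h) else 1 with hℓ
  have hcard : (Finset.univ.filter fun i : Fin n => i ≠ a).card = n - 1 := by
    rw [Finset.filter_ne']
    simp
  have hn1 : 1 ≤ n := by have := a.2; omega
  refine ⟨(∏ i ∈ Finset.univ.filter (fun i => i ≠ a), ℓ i) * X k0 ^ (δ - (n - 1)), ?_, ?_, ?_⟩
  · have h1 : (∏ i ∈ Finset.univ.filter (fun i => i ≠ a), ℓ i).IsHomogeneous
        (∑ i ∈ Finset.univ.filter (fun i : Fin n => i ≠ a), 1) := by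
      refine IsHomogeneous.prod _ _ _ fun i hi => ?_
      have hia := (Finset.mem_filter.1 hi).2
      simp only [hℓ, dif_pos hia]
      exact (isHomogeneous_C_mul_X _ _).sub (isHomogeneous_C_mul_X _ _)
    rw [Finset.sum_const, hcard, smul_eq_mul, mul_one] at h1
    have h2 := h1.mul (isHomogeneous_X_pow (R := L) k0 (δ - (n - 1)))
    convert h2 using 1
    omega
  · rw [map_mul, map_prod, map_pow, eval_X]
    refine mul_ne_zero (Finset.prod_ne_zero_iff.2 fun i hi => ?_) (pow_ne_zero _ hk0)
    have hia := (Finset.mem_filter.1 hi).2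
    simp only [hℓ, dif_pos hia, map_sub, map_mul, eval_C, eval_X]
    exact hkl i hia
  · intro i hia
    rw [map_mul, map_prod]
    have h1 : ∏ j ∈ Finset.univ.filter (fun j => j ≠ a), eval (z i) (ℓ j) = 0 := by
      refine Finset.prod_eq_zero (Finset.mem_filter.2 ⟨Finset.mem_univ i, hia⟩) ?_
      simp only [hℓ, dif_pos hia, map_sub, map_mul, eval_C, eval_X]
      ring
    rw [h1, zero_mul]

end minor

end Pool.DynLehmer
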