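import Mathlib
import Pool.Agent.Lib.MP_2194ec_nt.GenSpan

set_option autoImplicit false

/-!
# Hilbert functions of finite families of points
-/

namespace Pool.DynLehmer
open MvPolynomial
open scoped Classical

section hil

variable {L : Type} [Field L] {ι : Type} {κ : Type}

/-- evaluation at a family of points -/
noncomputable def ev (z : κ → ι → L) : MvPolynomial ι L →ₗ[L] (κ → L) :=
  LinearMap.pi fun i => (aeval (z i) : MvPolynomial ι L →ₐ[L] L).toLinearMap

theorem ev_apply (z : κ → ι → L) (P : MvPolynomial ι L) (i : κ) : ev z P i = eval (z i) P := by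
  simp only [ev, LinearMap.pi_apply, AlgHom.toLinearMap_apply]
  rw [aeval_eq_eval]

/-- functions on a family of points given by forms of degree `t` -/
noncomputable def HV (z : κ → ι → L) (t : ℕ) : Submodule L (κ → L) :=
  Submodule.map (ev z) (homogeneousSubmodule ι L t)

/-- the Hilbert function of a family of points -/
noncomputable def HF (z : κ → ι → L) (t : ℕ) : ℕ := Module.finrank L (HV z t)

theorem mem_HV {z : κ → ι → L} {t : ℕ} {P : MvPolynomial ι L} (hP : P.IsHomogeneous t) :
    (fun i => eval (z i) P) ∈ HV z t := by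
  refine ⟨P, (mem_homogeneousSubmodule t P).2 hP, ?_⟩
  funext i
  rw [ev_apply]

theorem HV_succ {z : κ → ι → L} {k0 : ι} (hz : ∀ i, z i k0 = 1) (t : ℕ) :
    HV z t ≤ HV z (t + 1) := by
  rintro y ⟨P, hP, rfl⟩
  have hP' : P.IsHomogeneous t := (mem_homogeneousSubmodule t P).1 hP
  refine ⟨P * X k0, (mem_homogeneousSubmodule _ _).2 (hP'.mul (isHomogeneous_X _ _)), ?_⟩
  funext i
  rw [ev_apply, ev_apply, map_mul, eval_X, hz i, mul_one]

theorem HV_mono {z : κ → ι → L} {k0 : ι} (hz : ∀ i, z i k0 = 1) : Monotone (HV z) :=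
  monotone_nat_of_le_succ (HV_succ hz)

theorem HF_mono [Finite κ] {z : κ → ι → L} {k0 : ι} (hz : ∀ i, z i k0 = 1) :
    Monotone (HF z) := by
  intro s t hst
  exact Submodule.finrank_mono (HV_mono hz hst)

theorem HF_comp_le {κ' : Type} [Finite κ] (z : κ → ι → L) (e : κ' → κ) (t : ℕ) :
    HF (z ∘ e) t ≤ HF z t := by
  have h1 : HV (z ∘ e) t = Submodule.map (LinearMap.funLeft L L e) (HV z t) := by
    rw [HV, HV, ← Submodule.map_comp]
    congr 1
  rw [HF, h1]
  exact Submodule.finrank_map_le _ _

theorem HF_le_card [Fintype κ] (z : κ → ι → L) (t : ℕ) : HF z t ≤ Fintype.card κ := by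
  refine (Submodule.finrank_le (HV z t)).trans ?_
  rw [Module.finrank_fintype_fun_eq_card]

variable [Fintype ι]

/-- polynomial upper bound for the Hilbert function -/
theorem HF_le_pow {z : κ → ι → L} {k0 : ι} (hz : ∀ i, z i k0 = 1) (t : ℕ) :
    HF z t ≤ (t + 1) ^ (Fintype.card ι - 1) := by
  set g : ({k : ι // k ≠ k0} → Fin (t + 1)) → (κ → L) :=
    fun s i => ∏ k : {k : ι // k ≠ k0}, z i k ^ (s k : ℕ) with hg
  have hmon : ∀ s : ι →₀ ℕ, s.degree = t → ev z (monomial s 1) ∈ Submodule.span L (Set.range g) := by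
    intro s hs
    have h1 : ∀ k, s k < t + 1 := by
      intro k
      rw [Finsupp.degree_eq_sum] at hs
      have h3 : s k ≤ ∑ i, s i :=
        Finset.single_le_sum (f := fun i => s i) (fun _ _ => Nat.zero_le _) (Finset.mem_univ k)
      omega
    refine Submodule.subset_span ⟨fun k => ⟨s k, h1 k⟩, ?_⟩
    funext i
    rw [ev_apply, eval_monomial, one_mul, Finsupp.prod_fintype _ _ (fun _ => pow_zero _)]
    simp only [hg]
    rw [← Finset.mul_prod_erase Finset.univ (fun k => z i k ^ s k) (Finset.mem_univ k0), hz i,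
      one_pow, one_mul]
    symm
    apply Finset.prod_subtype
    intro k
    simp
  have hle : HV z t ≤ Submodule.span L (Set.range g) := by
    rintro y ⟨P, hP, rfl⟩
    have hP' : P.IsHomogeneous t := (mem_homogeneousSubmodule t P).1 hP
    rw [← Submodule.mem_comap]
    refine hom_mem_span_monomial hP' _ fun s hs => ?_
    rw [Submodule.mem_comap]
    exact hmon s hs
  have : FiniteDimensional L (Submodule.span L (Set.range g)) :=
    FiniteDimensional.span_of_finite L (Set.finite_range g)
  refine (Submodule.finrank_mono hle).trans ?_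
  refine (finrank_range_le_card g).trans ?_
  rw [Fintype.card_fun, Fintype.card_fin]
  apply le_of_eq
  congr 1
  rw [Fintype.card_subtype_compl, Fintype.card_subtype_eq]

omit [Fintype ι] in
/-- forms of degree `t` separate at most `t + 1` points -/
theorem HV_eq_top [Fintype κ] {z : κ → ι → L} (hzi : Function.Injective z) {k0 : ι}
    (hz : ∀ i, z i k0 = 1) {t : ℕ} (ht : Fintype.card κ ≤ t + 1) : HV z t = ⊤ := by
  rw [eq_top_iff]
  intro y _
  rw [pi_eq_sum_univ' y]
  refine Submodule.sum_mem _ fun i _ => Submodule.smul_mem _ _ ?_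
  -- separating form
  have hsep : ∀ j, ∃ ℓ : MvPolynomial ι L, ℓ.IsHomogeneous 1 ∧ (j ≠ i → eval (z j) ℓ = 0) ∧
      eval (z i) ℓ ≠ 0 := by
    intro j
    by_cases hj : j = i
    · refine ⟨X k0, isHomogeneous_X _ _, fun h => absurd hj h, ?_⟩
      rw [eval_X, hz i]
      exact one_ne_zero
    · obtain ⟨k, hk⟩ := Function.ne_iff.1 (fun h => hj (hzi h))
      refine ⟨X k - C (z j k) * X k0, ?_, fun _ => ?_, ?_⟩
      · exact (isHomogeneous_X _ _).sub (isHomogeneous_C_mul_X _ _)
      · rw [map_sub, map_mul, eval_X, eval_C, eval_X, hz j, mul_one, sub_self]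
      · rw [map_sub, map_mul, eval_X, eval_C, eval_X, hz i, mul_one]
        exact sub_ne_zero.2 fun h => hk h.symm
  choose ℓ hℓ1 hℓ2 hℓ3 using hsep
  set G : MvPolynomial ι L := ∏ j ∈ Finset.univ.erase i, ℓ j with hG
  have hGh : G.IsHomogeneous (Fintype.card κ - 1) := by
    have h1 := IsHomogeneous.prod (Finset.univ.erase i) ℓ (fun _ => 1) fun j _ => hℓ1 j
    rw [Finset.sum_const, smul_eq_mul, mul_one, Finset.card_erase_of_mem (Finset.mem_univ i),
      Finset.card_univ] at h1
    exact h1
  have hGi : eval (z i) G ≠ 0 := by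
    rw [hG, map_prod]
    exact Finset.prod_ne_zero_iff.2 fun j _ => hℓ3 j
  have hmem : (fun j => eval (z j) G) ∈ HV z t :=
    HV_mono hz (by omega) (mem_HV hGh)
  have h2 : (Pi.single i 1 : κ → L) = (eval (z i) G)⁻¹ • fun j => eval (z j) G := by
    funext j
    rw [Pi.smul_apply, smul_eq_mul]
    by_cases hj : j = i
    · rw [hj, Pi.single_eq_same, inv_mul_cancel₀ hGi]
    · rw [Pi.single_eq_of_ne hj]
      have h3 : eval (z j) G = 0 := by
        rw [hG, map_prod]
        exact Finset.prod_eq_zero (Finset.mem_erase.2 ⟨hj, Finset.mem_univ j⟩) (hℓ2 j hj)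
      rw [h3, mul_zero]
  rw [h2]
  exact Submodule.smul_mem _ _ hmem

omit [Fintype ι] in
theorem HF_lower [Fintype κ] {z : κ → ι → L} (hzi : Function.Injective z) {k0 : ι}
    (hz : ∀ i, z i k0 = 1) (t : ℕ) : HF z t = Fintype.card κ ∨ t + 1 ≤ HF z t := by
  by_cases h : Fintype.card κ ≤ t + 1
  · left
    rw [HF, HV_eq_top hzi hz h, finrank_top, Module.finrank_fintype_fun_eq_card]
  · right
    push Not at h
    obtain ⟨e⟩ : Nonempty (Fin (t + 1) ↪ κ) := by
      apply Function.Embedding.nonempty_of_card_le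
      rw [Fintype.card_fin]
      exact h.le
    have h1 := HF_comp_le z e t
    have h2 : HF (z ∘ e) t = t + 1 := by
      rw [HF, HV_eq_top (hzi.comp e.injective) (fun i => hz (e i)) (by rw [Fintype.card_fin]),
        finrank_top, Module.finrank_fin_fun]
    omega

end hil

section choose

variable {L : Type} [Field L] {κ : Type}

/-- a nonvanishing minor of maximal size -/
theorem exists_minor [Finite κ] (s : Set (κ → L)) {n : ℕ}
    (hn : Module.finrank L (Submodule.span L s) = n) :
    ∃ (f : Fin n → κ → L) (e : Fin n → κ), (∀ a, f a ∈ s) ∧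
      (Matrix.of fun i a => f a (e i)).det ≠ 0 := by
  have : Module.Finite L (Submodule.span L s) := inferInstance
  obtain ⟨f0, hf1, hf2, hf3⟩ := Submodule.exists_fun_fin_finrank_span_eq L s
  set f : Fin n → κ → L := fun a => f0 (Fin.cast hn.symm a) with hf
  have hfi : LinearIndependent L f := hf3.comp _ (Fin.cast_injective hn.symm)
  -- the columns span
  set c : κ → (Fin n → L) := fun i a => f a i with hc
  have htop : Submodule.span L (Set.range c) = ⊤ := by
    by_contra htop
    obtain ⟨g, hg0, hg⟩ := Submodule.exists_le_ker_of_lt_top _ (lt_top_iff_ne_top.2 htop)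
    apply hg0
    have h1 : ∑ a, g (Pi.single a 1) • f a = 0 := by
      funext i
      have h2 : g (c i) = 0 := hg (Submodule.subset_span ⟨i, rfl⟩)
      rw [pi_eq_sum_univ' (c i), map_sum] at h2
      rw [Finset.sum_apply, Pi.zero_apply, ← h2]
      refine Finset.sum_congr rfl fun a _ => ?_
      rw [Pi.smul_apply, map_smul, smul_eq_mul, smul_eq_mul, mul_comm]
    have h3 := Fintype.linearIndependent_iff.1 hfi _ h1
    apply LinearMap.pi_ext'
    intro a
    ext
    simp [h3 a]
  obtain ⟨g, hg, hdet⟩ := exists_det_ne_zero _ htop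
  choose e he using hg
  refine ⟨f, e, fun a => hf1 _, ?_⟩
  have h4 : (Matrix.of fun i a => f a (e i)) = (Matrix.of fun i a => g a i).transpose := by
    ext i a
    simp only [Matrix.of_apply, Matrix.transpose_apply]
    rw [← he i]
  rw [h4, Matrix.det_transpose]
  exact hdet

end choose

section adapted

variable {K : Type} [Field K] {ι : Type}

theorem HV_eq_span (F : ι → MvPolynomial ι K) {b d J : ℕ} (hF : ∀ i, (F i).IsHomogeneous d)
    (h : ∀ (G : MvPolynomial ι K), G.IsHomogeneous (dl b d J) →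
      G ∈ Submodule.span K {Q : MvPolynomial ι K | ∃ μ : ℕ → ι →₀ ℕ,
        (∀ j, (μ j).degree = b) ∧ Q = gQ F J μ})
    {L : Type} [Field L] [Algebra K L] {κ : Type} (z : κ → ι → L) :
    Submodule.span L {y : κ → L | ∃ μ : ℕ → ι →₀ ℕ,
        (∀ j, (μ j).degree = b) ∧ y = fun a => aeval (z a) (gQ F J μ)} = HV z (dl b d J) := by
  apply le_antisymm
  · rw [Submodule.span_le]
    rintro y ⟨μ, hμ, rfl⟩
    have h1 : (fun a => aeval (z a) (gQ F J μ)) =
        fun a => eval (z a) (map (algebraMap K L) (gQ F J μ)) := by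
      funext a
      rw [eval_map]; rfl
    rw [h1]
    exact mem_HV ((gQ_hom F hF J μ hμ).map _)
  · rintro y ⟨G, hG, rfl⟩
    have h1 := eval_mem_span F h z G ((mem_homogeneousSubmodule _ G).1 hG)
    convert h1 using 1
    funext a
    rw [ev_apply]

end adapted

end Pool.DynLehmer
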