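import Mathlib
import Pool.Agent.Lib.MP_2194ec_nt.GenMain

set_option autoImplicit false

/-!
# Commuting morphisms of projective space
-/

namespace Pool.DynLehmer
open MvPolynomial NumberField Filter Topology
open scoped Classical LinearAlgebra.Projectivization

section pm

variable {ι : Type}

theorem mk_eq_of_smul {L : Type} [Field L] {y y' : ι → L} (hy : y ≠ 0) (hy' : y' ≠ 0)
    {c : L} (h : y = c • y') :
    Projectivization.mk L y hy = Projectivization.mk L y' hy' := by
  rw [Projectivization.mk_eq_mk_iff']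
  exact ⟨c, h.symm⟩

theorem smul_of_mk_eq {L : Type} [Field L] {y y' : ι → L} (hy : y ≠ 0) (hy' : y' ≠ 0)
    (h : Projectivization.mk L y hy = Projectivization.mk L y' hy') :
    ∃ c : L, c ≠ 0 ∧ y = c • y' := by
  rw [Projectivization.mk_eq_mk_iff'] at h
  obtain ⟨c, hc⟩ := h
  refine ⟨c, ?_, hc.symm⟩
  rintro rfl
  rw [zero_smul] at hc
  exact hy hc.symm

theorem rep_spec {L : Type} [Field L] {y : ι → L} (hy : y ≠ 0) :
    ∃ c : L, c ≠ 0 ∧ (Projectivization.mk L y hy).rep = c • y := by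
  obtain ⟨a, ha⟩ := Projectivization.exists_smul_eq_mk_rep L y hy
  exact ⟨a, a.ne_zero, ha.symm⟩

variable {K : Type} [Field K]

/-- the map on projective points -/
noncomputable def pm (F : ι → MvPolynomial ι K) (L : Type) [Field L] [Algebra K L]
    (hne : ∀ z : ι → L, z ≠ 0 → gAct F L z ≠ 0) (u : ℙ L (ι → L)) : ℙ L (ι → L) :=
  Projectivization.mk L (gAct F L u.rep) (hne _ u.rep_nonzero)

theorem pm_mk {d : ℕ} (F : ι → MvPolynomial ι K) (hF : ∀ i, (F i).IsHomogeneous d)
    {L : Type} [Field L] [Algebra K L] (hne : ∀ z : ι → L, z ≠ 0 → gAct F L z ≠ 0)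
    (z : ι → L) (hz : z ≠ 0) :
    pm F L hne (Projectivization.mk L z hz) = Projectivization.mk L (gAct F L z) (hne z hz) := by
  obtain ⟨c, hc, h⟩ := rep_spec hz
  unfold pm
  refine mk_eq_of_smul _ _ (c := c ^ d) ?_
  rw [h, gAct_smul F hF]

theorem gIter_ne {F : ι → MvPolynomial ι K} {L : Type} [Field L] [Algebra K L]
    (hne : ∀ z : ι → L, z ≠ 0 → gAct F L z ≠ 0) (k : ℕ) (z : ι → L) (hz : z ≠ 0) :
    (gAct F L)^[k] z ≠ 0 := by
  induction k with
  | zero => exact hz
  | succ k ih => rw [Function.iterate_succ_apply']; exact hne _ ih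

theorem pm_iter_mk {d : ℕ} (F : ι → MvPolynomial ι K) (hF : ∀ i, (F i).IsHomogeneous d)
    {L : Type} [Field L] [Algebra K L] (hne : ∀ z : ι → L, z ≠ 0 → gAct F L z ≠ 0)
    (k : ℕ) (z : ι → L) (hz : z ≠ 0) :
    (pm F L hne)^[k] (Projectivization.mk L z hz) =
      Projectivization.mk L ((gAct F L)^[k] z) (gIter_ne hne k z hz) := by
  induction k with
  | zero => rfl
  | succ k ih =>
    rw [Function.iterate_succ_apply', ih, pm_mk F hF hne]
    congr 1
    rw [Function.iterate_succ_apply']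

theorem pm_commute {d q : ℕ} (F P : ι → MvPolynomial ι K) (hF : ∀ i, (F i).IsHomogeneous d)
    (hP : ∀ i, (P i).IsHomogeneous q) (L : Type) [Field L] [Algebra K L]
    (hneF : ∀ z : ι → L, z ≠ 0 → gAct F L z ≠ 0) (hneP : ∀ z : ι → L, z ≠ 0 → gAct P L z ≠ 0)
    (hc : ∀ i j, bind₁ P (F i) * bind₁ F (P j) = bind₁ P (F j) * bind₁ F (P i))
    (u : ℙ L (ι → L)) : pm P L hneP (pm F L hneF u) = pm F L hneF (pm P L hneP u) := by
  have h1 : pm P L hneP (pm F L hneF u) = Projectivization.mk L (gAct P L (gAct F L u.rep))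
      (hneP _ (hneF _ u.rep_nonzero)) := pm_mk P hP hneP _ _
  have h2 : pm F L hneF (pm P L hneP u) = Projectivization.mk L (gAct F L (gAct P L u.rep))
      (hneF _ (hneP _ u.rep_nonzero)) := pm_mk F hF hneF _ _
  rw [h1, h2]
  have h3 : ∀ (A B : ι → MvPolynomial ι K) (i : ι),
      aeval u.rep (bind₁ A (B i)) = gAct B L (gAct A L u.rep) i := by
    intro A B i
    rw [aeval_bind₁]
    rfl
  obtain ⟨c, -, hcc⟩ := prop_of_minors (hneP _ (hneF _ u.rep_nonzero))
    (hneF _ (hneP _ u.rep_nonzero)) (fun i j => by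
      have h4 := congrArg (aeval u.rep) (hc i j)
      rw [map_mul, map_mul, h3, h3, h3, h3] at h4
      linear_combination -h4)
  exact mk_eq_of_smul _ _ hcc

end pm

section heights

variable {ι : Type} [Fintype ι]

theorem logHeight_rep {L : Type} [Field L] [NumberField L] {y : ι → L} (hy : y ≠ 0) :
    Height.logHeight (Projectivization.mk L y hy).rep = Height.logHeight y := by
  obtain ⟨c, hc, h⟩ := rep_spec hy
  rw [h, Height.logHeight_smul_eq_logHeight _ hc]

/-- Northcott's theorem on projective space -/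
theorem northcott_proj (L : Type) [Field L] [NumberField L] (B : ℝ) :
    {u : ℙ L (ι → L) | Height.logHeight u.rep / (Module.finrank ℚ L : ℝ) ≤ B}.Finite := by
  have hLpos : (0 : ℝ) < Module.finrank ℚ L := by exact_mod_cast Module.finrank_pos
  set T : Set L := {x : L | Height.logHeight₁ x ≤ B * Module.finrank ℚ L} with hT
  have hTfin : T.Finite := NumberField.finite_setOfPred_logHeight₁_le L (B * Module.finrank ℚ L)
  have hpi : {f : ι → L | ∀ i, f i ∈ T}.Finite := Set.Finite.pi' fun _ => hTfin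
  have hA : {f : {f : ι → L // f ≠ 0} | ∀ i, f.1 i ∈ T}.Finite :=
    hpi.preimage Subtype.val_injective.injOn
  refine (hA.image (Projectivization.mk' L)).subset ?_
  intro u hu
  have hu' : Height.logHeight u.rep ≤ B * Module.finrank ℚ L := by
    rwa [Set.mem_ofPred_eq, div_le_iff₀ hLpos] at hu
  obtain ⟨j, hj⟩ := Function.ne_iff.1 u.rep_nonzero
  have hj' : u.rep j ≠ 0 := hj
  refine ⟨⟨(u.rep j)⁻¹ • u.rep, smul_ne_zero (inv_ne_zero hj') u.rep_nonzero⟩, ?_, ?_⟩
  · intro i
    have h1 : ((u.rep j)⁻¹ • u.rep) i = u.rep i / u.rep j := by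
      simp only [Pi.smul_apply, smul_eq_mul]
      rw [mul_comm, div_eq_mul_inv]
    change ((u.rep j)⁻¹ • u.rep) i ∈ T
    rw [h1, hT, Set.mem_ofPred_eq, Height.logHeight₁_div_eq_logHeight]
    have h2 : ![u.rep i, u.rep j] = u.rep ∘ ![i, j] := by
      funext l
      fin_cases l <;> rfl
    rw [h2]
    exact (Height.logHeight_comp_le _ _).trans hu'
  · rw [Projectivization.mk'_eq_mk]
    conv_rhs => rw [← Projectivization.mk_rep u]
    exact mk_eq_of_smul _ _ rfl

variable {K : Type} [Field K] [NumberField K]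

/-- height difference on points -/
theorem pm_height {d : ℕ} (F : ι → MvPolynomial ι K) {C : ℝ}
    (L : Type) [Field L] [NumberField L] [Algebra K L]
    (hne : ∀ z : ι → L, z ≠ 0 → gAct F L z ≠ 0)
    (hC : ∀ x : ι → L, |Height.logHeight (fun i => aeval x (F i)) - d * Height.logHeight x| ≤
      C * Module.finrank ℚ L) (u : ℙ L (ι → L)) :
    |Height.logHeight (pm F L hne u).rep / (Module.finrank ℚ L : ℝ) -
      d * (Height.logHeight u.rep / (Module.finrank ℚ L : ℝ))| ≤ C := by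
  have hLpos : (0 : ℝ) < Module.finrank ℚ L := by exact_mod_cast Module.finrank_pos
  have h1 : Height.logHeight (pm F L hne u).rep = Height.logHeight (gAct F L u.rep) :=
    logHeight_rep _
  rw [h1]
  have h5 : Height.logHeight (gAct F L u.rep) / (Module.finrank ℚ L : ℝ) -
      d * (Height.logHeight u.rep / Module.finrank ℚ L) =
      (Height.logHeight (gAct F L u.rep) -
        d * Height.logHeight u.rep) / Module.finrank ℚ L := by
    field_simp
  rw [h5, abs_div, abs_of_pos hLpos, div_le_iff₀ hLpos]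
  exact hC u.rep

/-- **Transfer between commuting morphisms.** -/
theorem commute_transfer {d q : ℕ} (hd : 2 ≤ d) (hq : 2 ≤ q)
    (F P : ι → MvPolynomial ι K) (hF : ∀ i, (F i).IsHomogeneous d)
    (hP : ∀ i, (P i).IsHomogeneous q)
    (hzF : ∀ z : ι → AlgebraicClosure K, (∀ i, aeval z (F i) = 0) → z = 0)
    (hzP : ∀ z : ι → AlgebraicClosure K, (∀ i, aeval z (P i) = 0) → z = 0)
    (hc : ∀ i j, bind₁ P (F i) * bind₁ F (P j) = bind₁ P (F j) * bind₁ F (P i))
    (L : Type) [Field L] [NumberField L] [Algebra K L] (x : ι → L) (hx : x ≠ 0)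
    (hwand : ¬ ∃ m n : ℕ, m ≠ n ∧ ∃ c : L, c ≠ 0 ∧ (gAct F L)^[n] x = c • (gAct F L)^[m] x) :
    (¬ ∃ m n : ℕ, m ≠ n ∧ ∃ c : L, c ≠ 0 ∧ (gAct P L)^[n] x = c • (gAct P L)^[m] x) ∧
    ∀ h : ℝ, Tendsto (fun n : ℕ => Height.logHeight ((gAct P L)^[n] x) /
        (Module.finrank ℚ L : ℝ) / (q : ℝ) ^ n) atTop (𝓝 h) →
      Tendsto (fun n : ℕ => Height.logHeight ((gAct F L)^[n] x) /
        (Module.finrank ℚ L : ℝ) / (d : ℝ) ^ n) atTop (𝓝 h) := by
  obtain ⟨C1, hC1, hH1⟩ := height_morphism P q hP hzP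
  obtain ⟨C2, hC2, hH2⟩ := height_morphism F d hF hzF
  have hneF : ∀ z : ι → L, z ≠ 0 → gAct F L z ≠ 0 := fun z hz => gAct_ne F hF hzF z hz
  have hneP : ∀ z : ι → L, z ≠ 0 → gAct P L z ≠ 0 := fun z hz => gAct_ne P hP hzP z hz
  have hq2 : (2 : ℝ) ≤ (q : ℝ) := by exact_mod_cast hq
  have hd2 : (2 : ℝ) ≤ (d : ℝ) := by exact_mod_cast hd
  set H : ℙ L (ι → L) → ℝ := fun u => Height.logHeight u.rep / (Module.finrank ℚ L : ℝ) with hH
  have hcomm : ∀ u, pm P L hneP (pm F L hneF u) = pm F L hneF (pm P L hneP u) :=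
    pm_commute F P hF hP L hneF hneP hc
  have hfP : ∀ u, |H (pm P L hneP u) - (q : ℝ) * H u| ≤ C1 := pm_height P L hneP (hH1 L)
  have hfF : ∀ u, |H (pm F L hneF u) - (d : ℝ) * H u| ≤ C2 := pm_height F L hneF (hH2 L)
  obtain ⟨hh, hlimP, hlimF, -, -, -⟩ := commuting_heights H (pm P L hneP) (pm F L hneF) hcomm
    hq2 hd2 hfP hfF
  set u := Projectivization.mk L x hx with hu
  have hinjF : Function.Injective fun n : ℕ => (pm F L hneF)^[n] u := by
    intro a b hab
    by_contra hne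
    simp only [hu, pm_iter_mk F hF hneF _ x hx] at hab
    obtain ⟨c, hc0, hcc⟩ := smul_of_mk_eq _ _ hab
    exact hwand ⟨b, a, Ne.symm hne, c, hc0, hcc⟩
  have hinjP := commuting_wandering H (pm P L hneP) (pm F L hneF) hcomm hq2 hd2 hfP hfF
    (northcott_proj L) u hinjF
  constructor
  · rintro ⟨m, n, hmn, c, hc0, hcc⟩
    apply hmn
    apply hinjP
    simp only [hu, pm_iter_mk P hP hneP _ x hx]
    exact (mk_eq_of_smul _ _ hcc).symm
  · intro h hlim
    have e1 : h = hh u := by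
      refine tendsto_nhds_unique hlim ((hlimP u).congr fun n => ?_)
      rw [hu, pm_iter_mk P hP hneP n x hx]
      simp only [hH]
      rw [logHeight_rep]
    rw [e1]
    refine (hlimF u).congr fun n => ?_
    rw [hu, pm_iter_mk F hF hneF n x hx]
    simp only [hH]
    rw [logHeight_rep]

end heights

end Pool.DynLehmer
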