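import Mathlib
import Pool.Agent.Lib.MP_2194ec_nt.GenCommute

set_option autoImplicit false

/-!
# Conjugates of points and stabilizers
-/

namespace Pool.DynLehmer
open MvPolynomial NumberField
open scoped Classical LinearAlgebra.Projectivization

section galact

variable {K N : Type} [Field K] [Field N] [Algebra K N] {ι : Type}

/-- the conjugate of a vector -/
def gal (σ : N ≃ₐ[K] N) (P : ι → N) : ι → N := fun t => σ (P t)

theorem gal_one (P : ι → N) : gal (1 : N ≃ₐ[K] N) P = P := rfl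

theorem gal_mul (σ τ : N ≃ₐ[K] N) (P : ι → N) : gal (σ * τ) P = gal σ (gal τ P) := rfl

theorem gal_smul (σ : N ≃ₐ[K] N) (c : N) (P : ι → N) : gal σ (c • P) = σ c • gal σ P := by
  funext t
  simp [gal]

theorem gal_ne (σ : N ≃ₐ[K] N) {P : ι → N} (hP : P ≠ 0) : gal σ P ≠ 0 := by
  intro h0
  apply hP
  funext t
  have := congrFun h0 t
  simpa [gal] using this

/-- the stabilizer of the projective point given by a vector -/
def stab (P : ι → N) : Subgroup (N ≃ₐ[K] N) where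
  carrier := {σ | ∃ c : N, c ≠ 0 ∧ gal σ P = c • P}
  mul_mem' := by
    rintro σ τ ⟨c, hc, h⟩ ⟨d, hd, h'⟩
    refine ⟨σ d * c, mul_ne_zero (by simpa using hd) hc, ?_⟩
    rw [gal_mul, h', gal_smul, h, smul_smul]
  one_mem' := ⟨1, one_ne_zero, by rw [gal_one, one_smul]⟩
  inv_mem' := by
    rintro σ ⟨c, hc, h⟩
    have hc' : (σ⁻¹ : N ≃ₐ[K] N) c ≠ 0 := by simpa using hc
    refine ⟨((σ⁻¹ : N ≃ₐ[K] N) c)⁻¹, inv_ne_zero hc', ?_⟩
    have h1 : gal (σ⁻¹ * σ) P = (σ⁻¹ : N ≃ₐ[K] N) c • gal σ⁻¹ P := by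
      rw [gal_mul, h, gal_smul]
    rw [inv_mul_cancel, gal_one] at h1
    rw [h1]
    conv_lhs => rw [← h1]
    rw [smul_smul, inv_mul_cancel₀ hc', one_smul]

theorem mem_stab {P : ι → N} {σ : N ≃ₐ[K] N} :
    σ ∈ stab P ↔ ∃ c : N, c ≠ 0 ∧ gal σ P = c • P := Iff.rfl

theorem mem_stab_gal {P : ι → N} {σ τ : N ≃ₐ[K] N} :
    σ⁻¹ * τ ∈ stab P ↔ ∃ c : N, c ≠ 0 ∧ gal τ P = c • gal σ P := by
  constructor
  · rintro ⟨c, hc, h⟩
    refine ⟨σ c, by simpa using hc, ?_⟩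
    have h1 : gal σ (gal (σ⁻¹ * τ) P) = σ c • gal σ P := by rw [h, gal_smul]
    rw [← gal_mul, mul_inv_cancel_left] at h1
    exact h1
  · rintro ⟨c, hc, h⟩
    refine ⟨(σ⁻¹ : N ≃ₐ[K] N) c, by simpa using hc, ?_⟩
    rw [gal_mul, h, gal_smul, ← gal_mul, inv_mul_cancel, gal_one]

theorem mem_stab_conj {P : ι → N} {σ τ : N ≃ₐ[K] N} :
    τ ∈ stab (gal σ P) ↔ σ⁻¹ * τ * σ ∈ stab P := by
  rw [mul_assoc, mem_stab_gal, mem_stab, gal_mul]

/-- the number of conjugates -/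
noncomputable def idx (H : Subgroup (N ≃ₐ[K] N)) (P : ι → N) : ℕ := (stab P).relIndex H

variable [FiniteDimensional K N]

theorem relIndex_pos' (S H : Subgroup (N ≃ₐ[K] N)) : S.relIndex H ≠ 0 := by
  have : Finite (H : Type) := inferInstance
  intro h0
  have h1 := Subgroup.relIndex_dvd_card S H
  rw [h0, zero_dvd_iff] at h1
  exact Nat.card_pos.ne' h1

theorem idx_ne_zero (H : Subgroup (N ≃ₐ[K] N)) (P : ι → N) : idx H P ≠ 0 :=
  relIndex_pos' _ _

theorem idx_pos (H : Subgroup (N ≃ₐ[K] N)) (P : ι → N) : 1 ≤ idx H P :=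
  Nat.one_le_iff_ne_zero.2 (idx_ne_zero H P)

theorem idx_mono (H : Subgroup (N ≃ₐ[K] N)) {P Q : ι → N} (h : stab (K := K) P ≤ stab Q) :
    idx H Q ≤ idx H P := Subgroup.relIndex_le_of_le_left h (idx_ne_zero H P)

theorem idx_cross {J Γ : Subgroup (N ≃ₐ[K] N)} (hJ : J ≤ Γ) {P Q : ι → N}
    (h : stab (K := K) P ≤ stab Q) : idx J P * idx Γ Q ≤ idx J Q * idx Γ P := by
  have key : ∀ H : Subgroup (N ≃ₐ[K] N),
      (stab P).relIndex (stab Q ⊓ H) * idx H Q = idx H P := by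
    intro H
    have := Subgroup.relIndex_inf_mul_relIndex (stab P) (stab Q) H
    rwa [inf_eq_left.2 h] at this
  rw [← key J, ← key Γ]
  have h1 : (stab P).relIndex (stab Q ⊓ J) ≤ (stab P).relIndex (stab Q ⊓ Γ) :=
    Subgroup.relIndex_le_of_le_right (inf_le_inf_left _ hJ) (relIndex_pos' _ _)
  calc (stab P).relIndex (stab Q ⊓ J) * idx J Q * idx Γ Q
      ≤ (stab P).relIndex (stab Q ⊓ Γ) * idx J Q * idx Γ Q := by gcongr
    _ = _ := by ring

/-- a subgroup as a finite set -/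
noncomputable def fin (H : Subgroup (N ≃ₐ[K] N)) : Finset (N ≃ₐ[K] N) :=
  Finset.univ.filter fun σ => σ ∈ H

theorem mem_fin {H : Subgroup (N ≃ₐ[K] N)} {σ : N ≃ₐ[K] N} : σ ∈ fin H ↔ σ ∈ H := by
  simp [fin]

theorem card_fin (H : Subgroup (N ≃ₐ[K] N)) : (fin H).card = Nat.card H := by
  rw [fin, ← Fintype.card_subtype, Nat.card_eq_fintype_card]

theorem card_fin_pos (H : Subgroup (N ≃ₐ[K] N)) : 0 < (fin H).card :=
  Finset.card_pos.2 ⟨1, mem_fin.2 H.one_mem⟩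

theorem card_mul_idx (H : Subgroup (N ≃ₐ[K] N)) (P : ι → N) :
    (fin (H ⊓ stab P)).card * idx H P = (fin H).card := by
  rw [card_fin, card_fin, idx, ← Subgroup.inf_relIndex_left, ← Subgroup.relIndex_bot_left,
    ← Subgroup.relIndex_bot_left]
  exact Subgroup.relIndex_mul_relIndex _ _ _ bot_le inf_le_left

theorem idx_gal {H : Subgroup (N ≃ₐ[K] N)} {σ : N ≃ₐ[K] N} (hσ : σ ∈ H) (P : ι → N) :
    idx H (gal σ P) = idx H P := by
  have h1 := card_mul_idx H P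
  have h2 := card_mul_idx H (gal σ P)
  have h3 : (fin (H ⊓ stab P)).card = (fin (H ⊓ stab (gal σ P))).card := by
    refine Finset.card_bij (fun τ _ => σ * τ * σ⁻¹) ?_ ?_ ?_
    · intro τ hτ
      rw [mem_fin] at hτ ⊢
      refine ⟨H.mul_mem (H.mul_mem hσ hτ.1) (H.inv_mem hσ), mem_stab_conj.2 ?_⟩
      have e1 : σ⁻¹ * (σ * τ * σ⁻¹) * σ = τ := by group
      rw [e1]
      exact hτ.2
    · intro a _ b _ hab
      exact mul_left_cancel (mul_right_cancel hab)
    · intro b hb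
      rw [mem_fin] at hb
      refine ⟨σ⁻¹ * b * σ, ?_, by group⟩
      rw [mem_fin]
      exact ⟨H.mul_mem (H.mul_mem (H.inv_mem hσ) hb.1) hσ, mem_stab_conj.1 hb.2⟩
  rw [← h3, ← h1] at h2
  exact Nat.eq_of_mul_eq_mul_left (card_fin_pos _) h2

/-- the fibres of the map to the conjugates -/
theorem fibre_card_le (H : Subgroup (N ≃ₐ[K] N)) (P : ι → N) (A : Finset (N ≃ₐ[K] N))
    (hA : ∀ σ ∈ A, σ ∈ H) (ρ : N ≃ₐ[K] N) (hρ : ∀ σ, gal (ρ * σ) P ≠ 0)
    (y : ℙ N (ι → N)) :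
    (A.filter fun σ => Projectivization.mk N (gal (ρ * σ) P) (hρ σ) = y).card ≤
      (fin (H ⊓ stab P)).card := by
  rcases (A.filter fun σ => Projectivization.mk N (gal (ρ * σ) P) (hρ σ) = y).eq_empty_or_nonempty
    with h0 | ⟨σ0, h0⟩
  · rw [h0]; simp
  · rw [Finset.mem_filter] at h0
    refine Finset.card_le_card_of_injOn (fun σ => σ0⁻¹ * σ) ?_ ?_
    · intro σ hσ
      rw [Finset.mem_coe, Finset.mem_filter] at hσ
      rw [Finset.mem_coe, mem_fin]
      have h1 := smul_of_mk_eq _ _ (hσ.2.trans h0.2.symm)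
      have e1 : σ0⁻¹ * σ = (ρ * σ0)⁻¹ * (ρ * σ) := by group
      have h2 : σ0⁻¹ * σ ∈ stab P := by
        rw [e1, mem_stab_gal]
        exact h1
      exact ⟨H.mul_mem (H.inv_mem (hA _ h0.1)) (hA _ hσ.1), h2⟩
    · intro a _ b _ hab
      exact mul_left_cancel hab

/-- **Density of the images.** -/
theorem density (H : Subgroup (N ≃ₐ[K] N)) (P : ι → N) (A : Finset (N ≃ₐ[K] N))
    (hA : ∀ σ ∈ A, σ ∈ H) (ρ : N ≃ₐ[K] N) (hρ : ∀ σ, gal (ρ * σ) P ≠ 0) :
    A.card * idx H P ≤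
      (A.image fun σ => Projectivization.mk N (gal (ρ * σ) P) (hρ σ)).card * (fin H).card := by
  have h1 : A.card ≤ (A.image fun σ => Projectivization.mk N (gal (ρ * σ) P) (hρ σ)).card *
      (fin (H ⊓ stab P)).card := by
    rw [mul_comm]
    exact Finset.card_le_mul_card_image _ _ fun y _ => fibre_card_le H P A hA ρ hρ y
  calc A.card * idx H P ≤ ((A.image fun σ => Projectivization.mk N (gal (ρ * σ) P)
      (hρ σ)).card * (fin (H ⊓ stab P)).card) * idx H P := by gcongr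
    _ = _ := by rw [mul_assoc, card_mul_idx]

theorem card_orbit (H : Subgroup (N ≃ₐ[K] N)) (P : ι → N) (ρ : N ≃ₐ[K] N)
    (hρ : ∀ σ, gal (ρ * σ) P ≠ 0) :
    ((fin H).image fun σ => Projectivization.mk N (gal (ρ * σ) P) (hρ σ)).card = idx H P := by
  apply le_antisymm
  · have h1 : ((fin H).image fun σ => Projectivization.mk N (gal (ρ * σ) P) (hρ σ)).card *
        (fin (H ⊓ stab P)).card ≤ (fin H).card := by
      rw [mul_comm]
      refine Finset.mul_card_image_le_card _ _ fun y hy => ?_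
      obtain ⟨σ0, h0, rfl⟩ := Finset.mem_image.1 hy
      refine Finset.card_le_card_of_injOn (fun τ => σ0 * τ) ?_ ?_
      · intro τ hτ
        rw [Finset.mem_coe, mem_fin] at hτ
        rw [Finset.mem_coe, Finset.mem_filter, mem_fin]
        refine ⟨H.mul_mem (mem_fin.1 h0) hτ.1, ?_⟩
        have h2 : (ρ * σ0)⁻¹ * (ρ * (σ0 * τ)) ∈ stab P := by
          have e1 : (ρ * σ0)⁻¹ * (ρ * (σ0 * τ)) = τ := by group
          rw [e1]; exact hτ.2
        obtain ⟨c, hc, h3⟩ := mem_stab_gal.1 h2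
        exact mk_eq_of_smul _ _ h3
      · intro a _ b _ hab
        exact mul_left_cancel hab
    rw [← card_mul_idx H P, mul_comm] at h1
    exact Nat.le_of_mul_le_mul_left h1 (card_fin_pos _)
  · have h1 := density H P (fin H) (fun σ hσ => mem_fin.1 hσ) ρ hρ
    rw [mul_comm] at h1
    exact Nat.le_of_mul_le_mul_right h1 (card_fin_pos H)

end galact

end Pool.DynLehmer
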