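import Mathlib
import Pool.Agent.Lib.MP_2194ec_nt.Energy

set_option autoImplicit false

/-!
# Taylor expansion of interpolation determinants at a finite place
-/

namespace Pool.DynLehmer
open MvPolynomial NumberField
open scoped Classical

section count

variable {ι : Type} [Fintype ι]

theorem card_small {α : Type} (B : Finset α) (f : α → ι →₀ ℕ) (hf : Set.InjOn f B) (j0 : ι)
    (h0 : ∀ i ∈ B, f i j0 = 0) (U : ℕ) :
    (B.filter fun i => (f i).degree < U).card ≤ U ^ (Fintype.card ι - 1) := by
  have h1 : (Fintype.piFinset fun _ : {k : ι // k ≠ j0} => Finset.range U).card =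
      U ^ (Fintype.card ι - 1) := by
    rw [Fintype.card_piFinset, Finset.prod_const, Finset.card_range, Finset.card_univ]
    congr 1
    rw [Fintype.card_subtype_compl, Fintype.card_subtype_eq]
  rw [← h1]
  refine Finset.card_le_card_of_injOn (fun i => fun k : {k : ι // k ≠ j0} => f i k) ?_ ?_
  · intro i hi
    rw [Finset.mem_coe, Finset.mem_filter] at hi
    rw [Finset.mem_coe, Fintype.mem_piFinset]
    intro k
    rw [Finset.mem_range]
    refine lt_of_le_of_lt ?_ hi.2
    rw [Finsupp.degree_eq_sum]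
    exact Finset.single_le_sum (f := fun k => f i k) (fun _ _ => Nat.zero_le _)
      (Finset.mem_univ k.1)
  · intro i hi i' hi' hii
    rw [Finset.mem_coe, Finset.mem_filter] at hi hi'
    apply hf hi.1 hi'.1
    ext k
    by_cases hk : k = j0
    · rw [hk, h0 i hi.1, h0 i' hi'.1]
    · exact congrFun hii ⟨k, hk⟩

theorem sum_degree_ge {α : Type} (B : Finset α) (f : α → ι →₀ ℕ) (hf : Set.InjOn f B) (j0 : ι)
    (h0 : ∀ i ∈ B, f i j0 = 0) (T : ℕ) (hB : 2 * (2 * T) ^ (Fintype.card ι - 1) ≤ B.card) :
    T * B.card ≤ ∑ i ∈ B, (f i).degree := by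
  have h1 := card_small B f hf j0 h0 (2 * T)
  have h2 : (B.filter fun i => ¬ (f i).degree < 2 * T).card +
      (B.filter fun i => (f i).degree < 2 * T).card = B.card := by
    rw [add_comm]; exact Finset.card_filter_add_card_filter_not _
  calc T * B.card ≤ (B.filter fun i => ¬ (f i).degree < 2 * T).card * (2 * T) := by nlinarith
    _ ≤ ∑ i ∈ B.filter (fun i => ¬ (f i).degree < 2 * T), (f i).degree := by
        rw [← smul_eq_mul]
        refine Finset.card_nsmul_le_sum _ _ _ fun i hi => ?_
        exact not_lt.1 (Finset.mem_filter.1 hi).2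
    _ ≤ ∑ i ∈ B, (f i).degree :=
        Finset.sum_le_sum_of_subset (Finset.filter_subset _ _)

end count

section taylor

variable {N : Type} [Field N] [NumberField N] (w : FinitePlace N) {ι : Type} [Fintype ι]

/-- Taylor expansion of a determinant of values. -/
theorem det_expand {A : Type*} [CommRing A] {n : ℕ} (Q : Fin n → MvPolynomial ι A)
    (u : Fin n → ι → A) (r : Fin n → Fin n) :
    ∃ (S : Finset (ι →₀ ℕ)) (c : Fin n → Fin n → (ι →₀ ℕ) → A),
      (Matrix.of fun i a => eval (u i) (Q a)).det =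
        ∑ s ∈ Fintype.piFinset (fun _ : Fin n => S),
          (∏ i, ∏ k, (u i k - u (r i) k) ^ (s i k)) *
            (Matrix.of fun i a => c a (r i) (s i)).det := by
  set sh : Fin n → MvPolynomial ι A →ₐ[A] MvPolynomial ι A := fun ρ =>
    bind₁ (fun k => X k + C (u ρ k)) with hsh
  set S : Finset (ι →₀ ℕ) := Finset.univ.biUnion fun a : Fin n =>
    Finset.univ.biUnion fun ρ : Fin n => (sh ρ (Q a)).support with hS
  refine ⟨S, fun a ρ α => coeff α (sh ρ (Q a)), ?_⟩
  have h1 : ∀ i a, eval (u i) (Q a) = ∑ α ∈ S, (∏ k, (u i k - u (r i) k) ^ (α k)) *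
      coeff α (sh (r i) (Q a)) := by
    intro i a
    have h2 : eval (u i) (Q a) = eval (fun k => u i k - u (r i) k) (sh (r i) (Q a)) := by
      rw [← coe_aeval_eq_eval, ← coe_aeval_eq_eval]
      simp only [hsh, RingHom.coe_coe]
      rw [aeval_bind₁]
      congr 2
      funext k
      simp
    rw [h2, eval_eq]
    have h3 : (sh (r i) (Q a)).support ⊆ S := by
      intro t ht
      rw [hS]
      exact Finset.mem_biUnion.2 ⟨a, Finset.mem_univ _,
        Finset.mem_biUnion.2 ⟨r i, Finset.mem_univ _, ht⟩⟩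
    refine (Finset.sum_subset h3 ?_).trans ?_
    · intro t _ ht
      rw [notMem_support_iff.1 ht]; simp
    · refine Finset.sum_congr rfl fun t _ => ?_
      rw [mul_comm]
      congr 1
      refine Finset.prod_subset (Finset.subset_univ _) fun k _ hk => ?_
      rw [Finsupp.notMem_support_iff.1 hk, pow_zero]
  have h4 : (Matrix.of fun i a => eval (u i) (Q a)) = fun i => ∑ α ∈ S,
      (∏ k, (u i k - u (r i) k) ^ (α k)) • (fun a => coeff α (sh (r i) (Q a))) := by
    funext i a
    simp only [Matrix.of_apply]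
    rw [h1, Finset.sum_apply]
    rfl
  change Matrix.detRowAlternating (Matrix.of fun i a => eval (u i) (Q a)) = _
  rw [h4]
  have h5 := (Matrix.detRowAlternating (R := A) (n := Fin n)).toMultilinearMap.map_sum_finset
    (fun i (α : ι →₀ ℕ) => (∏ k, (u i k - u (r i) k) ^ (α k)) •
      (fun a => coeff α (sh (r i) (Q a)))) (fun _ => S)
  refine h5.trans (Finset.sum_congr rfl fun s _ => ?_)
  rw [MultilinearMap.map_smul_univ]
  rfl

/-- **Gain from closeness at a finite place.** -/
theorem taylor_det {n : ℕ} (Q : Fin n → MvPolynomial ι (OW w)) (u : Fin n → ι → OW w)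
    (r : Fin n → Fin n) (chart : Fin n → ι) {t : ℝ} (ht0 : 0 ≤ t) (ht1 : t ≤ 1)
    (hchart : ∀ i, u i (chart (r i)) = u (r i) (chart (r i)))
    (hclose : ∀ i k, w ((u i k : N) - u (r i) k) ≤ t) (T : ℕ)
    (hcard : ∀ i, 2 * (2 * T) ^ (Fintype.card ι - 1) ≤
      (Finset.univ.filter fun i' => r i' = r i).card) :
    w ((Matrix.of fun i a => eval (u i) (Q a)).det : OW w) ≤ t ^ (T * n) := by
  obtain ⟨S, c, hdet⟩ := det_expand Q u r
  rw [hdet]
  rw [AddSubmonoidClass.coe_finsetSum]
  refine finitePlace_sum_le w _ _ _ (pow_nonneg ht0 _) fun s _ => ?_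
  by_cases h1 : ∃ i, s i (chart (r i)) ≠ 0
  · obtain ⟨i, hi⟩ := h1
    have h2 : ∏ i, ∏ k, (u i k - u (r i) k) ^ (s i k) = 0 := by
      refine Finset.prod_eq_zero (Finset.mem_univ i) ?_
      refine Finset.prod_eq_zero (Finset.mem_univ (chart (r i))) ?_
      rw [hchart i, sub_self, zero_pow hi]
    rw [h2, zero_mul]
    simpa using pow_nonneg ht0 _
  push Not at h1
  by_cases h2 : ∃ i i', i ≠ i' ∧ r i = r i' ∧ s i = s i'
  · obtain ⟨i, i', hne, hr, hs⟩ := h2
    have h3 : (Matrix.of fun i a => c a (r i) (s i)).det = 0 := by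
      refine Matrix.det_zero_of_row_eq hne ?_
      funext a
      simp only [Matrix.of_apply, hr, hs]
    rw [h3, mul_zero]
    simpa using pow_nonneg ht0 _
  push Not at h2
  -- the degrees
  have h3 : T * n ≤ ∑ i, (s i).degree := by
    have e1 : ∑ i, (s i).degree = ∑ ρ, ∑ i ∈ Finset.univ.filter (fun i => r i = ρ),
        (s i).degree := (Finset.sum_fiberwise _ _ _).symm
    have e2 : n = ∑ ρ : Fin n, (Finset.univ.filter (fun i => r i = ρ)).card := by
      have := Finset.card_eq_sum_card_fiberwise (f := r) (s := Finset.univ) (t := Finset.univ)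
        (fun _ _ => Finset.mem_coe.2 (Finset.mem_univ _))
      simpa using this
    conv_lhs => rw [e2]
    rw [e1, Finset.mul_sum]
    refine Finset.sum_le_sum fun ρ _ => ?_
    rcases (Finset.univ.filter (fun i => r i = ρ)).eq_empty_or_nonempty with h4 | ⟨i0, hi0⟩
    · rw [h4]; simp
    · have hr0 := (Finset.mem_filter.1 hi0).2
      refine sum_degree_ge _ _ ?_ (chart ρ) ?_ T ?_
      · intro i hi i' hi' hii
        rw [Finset.mem_coe, Finset.mem_filter] at hi hi'
        by_contra hne
        exact h2 i i' hne (hi.2.trans hi'.2.symm) hii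
      · intro i hi
        rw [Finset.mem_filter] at hi
        rw [← hi.2]
        exact h1 i
      · have := hcard i0
        rwa [hr0] at this
  have h4 : w (((Matrix.of fun i a => c a (r i) (s i)).det : OW w) : N) ≤ 1 :=
    ((Matrix.of fun i a => c a (r i) (s i)).det : OW w).2
  have h5 : w ((∏ i, ∏ k, (u i k - u (r i) k) ^ (s i k) : OW w) : N) ≤ t ^ (∑ i, (s i).degree) := by
    rw [SubmonoidClass.coe_finsetProd, map_prod, ← Finset.prod_pow_eq_pow_sum]
    refine Finset.prod_le_prod (fun i _ => apply_nonneg w _) fun i _ => ?_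
    rw [SubmonoidClass.coe_finsetProd, map_prod, Finsupp.degree_eq_sum,
      ← Finset.prod_pow_eq_pow_sum]
    refine Finset.prod_le_prod (fun i _ => apply_nonneg w _) fun k _ => ?_
    rw [SubmonoidClass.coe_pow, map_pow]
    refine pow_le_pow_left₀ (apply_nonneg w _) ?_ _
    simpa using hclose i k
  rw [Subring.coe_mul, map_mul]
  calc _ ≤ t ^ (∑ i, (s i).degree) * 1 :=
        mul_le_mul h5 h4 (apply_nonneg w _) (pow_nonneg ht0 _)
    _ ≤ t ^ (T * n) := by
        rw [mul_one]
        exact pow_le_pow_of_le_one ht0 ht1 h3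

end taylor

end Pool.DynLehmer
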