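import Mathlib
import Pool.Agent.Lib.MP_2194ec_nt.GenSpan
import Pool.Agent.Lib.MP_2194ec_nt.GenTaylor

set_option autoImplicit false

/-!
# Closeness classes and the energy inequality in projective space
-/

namespace Pool.DynLehmer
open MvPolynomial NumberField
open scoped Classical

section close

variable {N : Type} [Field N] [NumberField N] {w : FinitePlace N} {ι : Type}

theorem Close.refl' [Fintype ι] [Nonempty ι] {t : ℝ} (ht : 0 ≤ t) {z : ι → N} (hz : z ≠ 0) :
    Close w t z z := by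
  obtain ⟨a, u, ha, hzu, hu⟩ := gexists_prim (w := w) hz
  exact ⟨a, a, u, u, ha, ha, hzu, hzu, hu, hu, fun i => by simpa using ht⟩

theorem Close.symm' {t : ℝ} {z z' : ι → N} (h : Close w t z z') : Close w t z' z := by
  obtain ⟨a, b, u, u', ha, hb, hz, hz', hu, hu', hd⟩ := h
  refine ⟨b, a, u', u, hb, ha, hz', hz, hu', hu, fun i => ?_⟩
  rw [← map_neg_eq_map w, neg_sub]
  exact hd i

theorem prim_w_le {b b' : N} {u u' : ι → OW w} (hu : Prim w u)
    (h : (b • fun i => (u i : N)) = b' • fun i => (u' i : N)) : w b ≤ w b' := by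
  obtain ⟨i, hi⟩ := hu
  have h1 := congrFun h i
  simp only [Pi.smul_apply, smul_eq_mul] at h1
  have h2 := congrArg w h1
  rw [map_mul, map_mul, hi, mul_one] at h2
  rw [h2]
  calc w b' * w (u' i : N) ≤ w b' * 1 := mul_le_mul_of_nonneg_left (u' i).2 (apply_nonneg w _)
    _ = w b' := mul_one _

theorem Close.trans' {t : ℝ} {z z' z'' : ι → N} (h : Close w t z z')
    (h' : Close w t z' z'') : Close w t z z'' := by
  obtain ⟨a, b, u, u', ha, hb, hz, hz', hu, hu', hd⟩ := h
  obtain ⟨b', c, v', v, hb', hc, hz1, hz'', hv', hv, hd'⟩ := h'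
  have hwb : w b = w b' := by
    have h1 : (b • fun i => (u' i : N)) = b' • fun i => (v' i : N) := by rw [← hz', ← hz1]
    exact le_antisymm (prim_w_le hu' h1) (prim_w_le hv' h1.symm)
  have hwbpos : 0 < w b := FinitePlace.pos_iff.2 hb
  set κ : N := b' / b with hκ
  have hκ0 : κ ≠ 0 := div_ne_zero hb' hb
  have hκ1 : w κ = 1 := by rw [hκ, map_div₀, ← hwb, div_self hwbpos.ne']
  have hu'v' : ∀ i, (u' i : N) = κ * v' i := by
    intro i
    have h1 : b * (u' i : N) = b' * v' i := by
      have := congrFun (hz'.symm.trans hz1) i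
      simpa using this
    rw [hκ]
    field_simp
    linear_combination h1
  refine ⟨a, c / κ, u, fun i => ⟨κ * v i, by
    rw [mem_OW, map_mul, hκ1, one_mul]; exact (v i).2⟩, ha, div_ne_zero hc hκ0, hz, ?_, hu, ?_, ?_⟩
  · rw [hz'']
    funext i
    simp only [Pi.smul_apply, smul_eq_mul]
    field_simp
  · obtain ⟨i, hi⟩ := hv
    exact ⟨i, by simp only [map_mul, hκ1, one_mul, hi]⟩
  · intro i
    have h1 : (u i : N) - κ * v i = ((u i : N) - u' i) + κ * ((v' i : N) - v i) := by
      rw [hu'v' i]; ring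
    simp only
    rw [h1]
    refine (FinitePlace.add_le w _ _).trans (max_le (hd i) ?_)
    rw [map_mul, hκ1, one_mul]
    exact hd' i

/-- closeness in a chart -/
theorem Close.chart {t : ℝ} (ht1 : t < 1) {z z' : ι → N} (h : Close w t z z') {k0 : ι}
    (hk : ∀ l, w (z l) ≤ w (z k0)) :
    (∀ l, w (z' l) ≤ w (z' k0)) ∧ z k0 ≠ 0 ∧ z' k0 ≠ 0 ∧
      ∀ l, w (z l / z k0 - z' l / z' k0) ≤ t := by
  obtain ⟨a, b, u, u', ha, hb, hz, hz', hu, hu', hd⟩ := h
  have hwa : 0 < w a := FinitePlace.pos_iff.2 ha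
  have hwb : 0 < w b := FinitePlace.pos_iff.2 hb
  have hzl : ∀ l, z l = a * u l := fun l => by
    have := congrFun hz l
    simpa using this
  have hzl' : ∀ l, z' l = b * u' l := fun l => by
    have := congrFun hz' l
    simpa using this
  have hu1 : w (u k0 : N) = 1 := by
    obtain ⟨i, hi⟩ := hu
    apply le_antisymm (u k0).2
    have h1 := hk i
    rw [hzl, hzl, map_mul, map_mul, hi, mul_one] at h1
    by_contra hcon
    push Not at hcon
    nlinarith
  have hu1' : w (u' k0 : N) = 1 := by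
    apply le_antisymm (u' k0).2
    by_contra hcon
    push Not at hcon
    have h1 : (u k0 : N) = ((u k0 : N) - u' k0) + u' k0 := by ring
    have h2 : w (u k0 : N) < 1 := by
      rw [h1]
      exact (FinitePlace.add_le w _ _).trans_lt (max_lt ((hd k0).trans_lt ht1) hcon)
    linarith
  have hu0 : (u k0 : N) ≠ 0 := by
    intro h0; rw [h0, map_zero] at hu1; exact zero_ne_one hu1
  have hu0' : (u' k0 : N) ≠ 0 := by
    intro h0; rw [h0, map_zero] at hu1'; exact zero_ne_one hu1'
  refine ⟨fun l => ?_, ?_, ?_, fun l => ?_⟩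
  · rw [hzl', hzl', map_mul, map_mul, hu1']
    exact mul_le_mul_of_nonneg_left (u' l).2 hwb.le
  · rw [hzl]; exact mul_ne_zero ha hu0
  · rw [hzl']; exact mul_ne_zero hb hu0'
  · have h1 : z l / z k0 - z' l / z' k0 =
        ((u l : N) * (-((u k0 : N) - u' k0)) + (u k0 : N) * ((u l : N) - u' l)) /
          ((u k0 : N) * u' k0) := by
      rw [hzl, hzl, hzl', hzl']
      field_simp
      ring
    rw [h1, map_div₀, map_mul, hu1, hu1', mul_one, div_one]
    refine (FinitePlace.add_le w _ _).trans (max_le ?_ ?_)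
    · rw [map_mul, map_neg_eq_map]
      calc w (u l : N) * w ((u k0 : N) - u' k0) ≤ 1 * t :=
            mul_le_mul (u l).2 (hd k0) (apply_nonneg w _) zero_le_one
        _ = t := one_mul t
    · rw [map_mul, hu1, one_mul]
      exact hd l

end close

section forms

variable {A B : Type*} [CommRing A] [CommRing B] {ι : Type}

theorem map_gQ (F : ι → MvPolynomial ι A) (φ : A →+* B) (J : ℕ) (μ : ℕ → ι →₀ ℕ) :
    map φ (gQ F J μ) = gQ (fun i => map φ (F i)) J μ := by
  induction J generalizing μ with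
  | zero => simp [gQ]
  | succ J ih =>
    rw [gQ, gQ, map_mul, map_bind₁, ih]
    simp

theorem dl_eq (b q J : ℕ) : dl b q J = ∑ j ∈ Finset.range (J + 1), q ^ j * b := by
  induction J with
  | zero => simp [dl]
  | succ J ih =>
    rw [dl, ih, Finset.sum_range_succ' _ (J + 1), Finset.mul_sum, pow_zero, one_mul, add_comm]
    congr 1
    refine Finset.sum_congr rfl fun j _ => ?_
    ring

end forms

section gain

variable {K : Type} [Field K] [NumberField K] {N : Type} [Field N] [NumberField N] [Algebra K N]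
variable {p s : ℕ} {ι : Type} [Fintype ι] [DecidableEq ι] [Nonempty ι]
variable {v : FinitePlace K} {w : FinitePlace N} {e : ℕ} (Φ : GF (OW v) p s ι)

/-- **Local gain.** -/
theorem local_gain (h : Above v w e) (hϖ : v (Φ.ϖ : K) < 1)
    (F : ι → MvPolynomial ι K) (hΦF : ∀ i, map (OW v).subtype (Φ.F i) = F i)
    {n J b : ℕ} (μ : Fin n → ℕ → ι →₀ ℕ) (hμ : ∀ a j, (μ a j).degree = b)
    (z : Fin n → ι → N) (hz : ∀ i, z i ≠ 0) {t : ℝ} (ht0 : 0 ≤ t) (ht1 : t < 1) (T : ℕ)
    (hcard : ∀ i, 2 * (2 * T) ^ (Fintype.card ι - 1) ≤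
      (Finset.univ.filter fun i' => Close w t (z i) (z i')).card) :
    w (Matrix.of fun i a => aeval (z i) (gQ F J (μ a))).det ≤
      t ^ (T * n) * ∏ i, ∏ j ∈ Finset.range (J + 1), (⨆ l, w ((gAct F N)^[j] (z i) l)) ^ b := by
  -- classes
  set cl : Fin n → Finset (Fin n) := fun i => Finset.univ.filter fun i' => Close w t (z i) (z i')
    with hcl
  have hself : ∀ i, i ∈ cl i := fun i =>
    Finset.mem_filter.2 ⟨Finset.mem_univ _, Close.refl' ht0 (hz i)⟩
  have hcleq : ∀ i i', Close w t (z i) (z i') → cl i = cl i' := by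
    intro i i' hii
    ext k
    simp only [hcl, Finset.mem_filter, Finset.mem_univ, true_and]
    exact ⟨fun hk => hii.symm'.trans' hk, fun hk => hii.trans' hk⟩
  set r : Fin n → Fin n := fun i => (cl i).min' ⟨i, hself i⟩ with hr
  have hrc : ∀ i, Close w t (z i) (z (r i)) := fun i =>
    (Finset.mem_filter.1 ((cl i).min'_mem ⟨i, hself i⟩)).2
  have hreq : ∀ i i', Close w t (z i) (z i') → r i = r i' := by
    intro i i' hii
    simp only [hr]
    congr 1
    exact hcleq i i' hii
  have hrr : ∀ i, r (r i) = r i := fun i => (hreq i (r i) (hrc i)).symm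
  have hriff : ∀ i i', r i' = r i ↔ Close w t (z i) (z i') := by
    intro i i'
    refine ⟨fun hii => ?_, fun hii => (hreq i i' hii).symm⟩
    have h1 := hrc i
    rw [← hii] at h1
    exact h1.trans' (hrc i').symm'
  -- charts
  have hch : ∀ ρ, ∃ k0, ∀ l, w (z ρ l) ≤ w (z ρ k0) := fun ρ =>
    Finite.exists_max (fun l => w (z ρ l))
  choose chart hchart using hch
  have hcc := fun i => (hrc i).symm'.chart ht1 (hchart (r i))
  set c : Fin n → N := fun i => z i (chart (r i)) with hc
  have hc0 : ∀ i, c i ≠ 0 := fun i => (hcc i).2.2.1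
  have hmax : ∀ i l, w (z i l) ≤ w (c i) := fun i => (hcc i).1
  set u : Fin n → ι → OW w := fun i l => ⟨z i l / c i, by
    rw [mem_OW, map_div₀]
    exact div_le_one_of_le₀ (hmax i l) (apply_nonneg w _)⟩ with hu
  have hzu : ∀ i, z i = c i • fun l => (u i l : N) := by
    intro i
    funext l
    simp only [hu, Pi.smul_apply, smul_eq_mul]
    rw [mul_div_cancel₀ _ (hc0 i)]
  have huchart : ∀ i, (u i (chart (r i)) : OW w) = 1 := by
    intro i
    apply Subtype.ext
    simp only [hu]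
    change c i / c i = 1
    exact div_self (hc0 i)
  have hucharti : ∀ i, u i (chart (r i)) = u (r i) (chart (r i)) := by
    intro i
    have h1 := huchart (r i)
    rw [hrr] at h1
    rw [huchart i, h1]
  have hclose : ∀ i k, w ((u i k : N) - u (r i) k) ≤ t := by
    intro i k
    have h1 := (hcc i).2.2.2 k
    have h2 : (u (r i) k : N) = z (r i) k / z (r i) (chart (r i)) := by
      simp only [hu, hc, hrr]
    have h3 : (u i k : N) = z i k / z i (chart (r i)) := rfl
    rw [h2, h3, ← map_neg_eq_map w, neg_sub]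
    exact h1
  have hprim : ∀ i, Prim w (u i) := fun i => ⟨chart (r i), by rw [huchart i]; simp⟩
  -- the forms over the valuation ring
  set Ψ := Φ.map (toOW h) with hΨ
  have hΨF : ∀ i, map (OW w).subtype (Ψ.F i) = map (algebraMap K N) (F i) := by
    intro i
    rw [hΨ, GF.map_F, ← hΦF i, MvPolynomial.map_map, subtype_comp_toOW, toN,
      MvPolynomial.map_map]
  have hdet1 := taylor_det w (fun a => gQ Ψ.F J (μ a)) u r chart ht0 ht1.le hucharti hclose T
    (fun i => by
      have h1 : (Finset.univ.filter fun i' => r i' = r i) =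
          Finset.univ.filter fun i' => Close w t (z i) (z i') :=
        Finset.filter_congr fun i' _ => hriff i i'
      rw [h1]
      exact hcard i)
  have hentry : ∀ i a, aeval (z i) (gQ F J (μ a)) =
      c i ^ dl b (p ^ s) J * ((eval (u i) (gQ Ψ.F J (μ a)) : OW w) : N) := by
    intro i a
    have h1 : ((eval (u i) (gQ Ψ.F J (μ a)) : OW w) : N) =
        eval (fun l => (u i l : N)) (map (OW w).subtype (gQ Ψ.F J (μ a))) := by
      rw [eval_map]
      exact eval₂_comp (OW w).subtype (u i) (gQ Ψ.F J (μ a))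
    have h2 : map (OW w).subtype (gQ Ψ.F J (μ a)) = map (algebraMap K N) (gQ F J (μ a)) := by
      rw [map_gQ, map_gQ]
      congr 1
      funext i
      exact hΨF i
    have hFh : ∀ i, (map (algebraMap K N) (F i)).IsHomogeneous (p ^ s) := fun i => by
      rw [← hΨF i]; exact (Ψ.F_hom i).map _
    have h3 : (map (algebraMap K N) (gQ F J (μ a))).IsHomogeneous (dl b (p ^ s) J) := by
      rw [map_gQ]
      exact gQ_hom _ hFh J (μ a) (hμ a)
    rw [h1, h2, ← eval_smul_hom h3, ← hzu i, eval_map]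
    rfl
  have hdet2 : (Matrix.of fun i a => aeval (z i) (gQ F J (μ a))).det =
      (∏ i, c i ^ dl b (p ^ s) J) *
        (((Matrix.of fun i a => eval (u i) (gQ Ψ.F J (μ a))).det : OW w) : N) := by
    have h1 : (((Matrix.of fun i a => eval (u i) (gQ Ψ.F J (μ a))).det : OW w) : N) =
        (Matrix.of fun i a => ((eval (u i) (gQ Ψ.F J (μ a)) : OW w) : N)).det := by
      have := (OW w).subtype.map_det (Matrix.of fun i a => eval (u i) (gQ Ψ.F J (μ a)))
      exact this
    rw [h1, ← Matrix.det_mul_column]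
    congr 1
    ext i a
    simp only [Matrix.of_apply]
    exact hentry i a
  rw [hdet2, map_mul, map_prod, mul_comm]
  refine mul_le_mul hdet1 ?_ (Finset.prod_nonneg fun i _ => apply_nonneg w _)
    (pow_nonneg ht0 _)
  refine Finset.prod_le_prod (fun i _ => apply_nonneg w _) fun i _ => ?_
  rw [map_pow, dl_eq, ← Finset.prod_pow_eq_pow_sum]
  refine Finset.prod_le_prod (fun j _ => pow_nonneg (apply_nonneg w _) _) fun j _ => ?_
  rw [pow_mul]
  refine pow_le_pow_left₀ (pow_nonneg (apply_nonneg w _) _) ?_ b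
  -- the norm of the iterates
  have hact : (Φ.map (toN v N)).act = gAct F N := gact_eq_aeval Φ F hΦF N
  obtain ⟨l, hl⟩ := prim_act_iter Φ h hϖ j (u i) (hprim i)
  have h4 : (gAct F N)^[j] (z i) = (c i ^ ((p ^ s) ^ j)) •
      fun l => (((Φ.map (toOW h)).act^[j] (u i) l : OW w) : N) := by
    rw [← hact, hzu i, GF.act_iter_smul, ← gcoe_act_iter Φ h]
  have h5 : w ((gAct F N)^[j] (z i) l) = w (c i) ^ ((p ^ s) ^ j) := by
    rw [h4]
    simp only [Pi.smul_apply, smul_eq_mul, map_mul, map_pow]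
    rw [hl, mul_one]
  rw [← h5]
  exact Finite.le_ciSup (fun l => w ((gAct F N)^[j] (z i) l)) l

/-- **The energy inequality in projective space.** -/
theorem energy_PN (hϖ : v (Φ.ϖ : K) < 1)
    (F : ι → MvPolynomial ι K) (hF : ∀ i, (F i).IsHomogeneous (p ^ s))
    (hz0 : ∀ z : ι → AlgebraicClosure K, (∀ i, aeval z (F i) = 0) → z = 0)
    (hΦF : ∀ i, map (OW v).subtype (Φ.F i) = F i) {b : ℕ}
    (hb : ∀ (J : ℕ) (G : MvPolynomial ι K), G.IsHomogeneous (dl b (p ^ s) J) →
      G ∈ Submodule.span K {Q : MvPolynomial ι K | ∃ μ : ℕ → ι →₀ ℕ,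
        (∀ j, (μ j).degree = b) ∧ Q = gQ F J μ})
    (S : Finset (FinitePlace N)) (e : FinitePlace N → ℕ) (hS : ∀ w ∈ S, Above v w (e w))
    {n J : ℕ} (hn : n ≤ dl b (p ^ s) J + 1) (z : Fin n → ι → N) (hz : ∀ a, z a ≠ 0)
    (hzz : ∀ a i, i ≠ a → ∃ k l, z i k * z a l - z i l * z a k ≠ 0)
    (t : FinitePlace N → ℝ) (ht0 : ∀ w ∈ S, 0 < t w) (ht1 : ∀ w ∈ S, t w < 1) (T : ℕ)
    (hcard : ∀ w ∈ S, ∀ i, 2 * (2 * T) ^ (Fintype.card ι - 1) ≤
      (Finset.univ.filter fun i' => Close w (t w) (z i) (z i')).card) :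
    ∑ w ∈ S, ((T : ℝ) * n) * (- Real.log (t w)) ≤
      ∑ i, ∑ j ∈ Finset.range (J + 1), (b : ℝ) * Height.logHeight ((gAct F N)^[j] (z i)) +
      Module.finrank ℚ N * Real.log (n.factorial) := by
  obtain ⟨μ, hμ, hdet⟩ := exists_gQ_det F (hb J) z (exists_sep hn z hz hzz)
  set D := (Matrix.of fun i a => aeval (z i) (gQ F J (μ a))).det with hD
  have hne : ∀ (j : ℕ) i, (gAct F N)^[j] (z i) ≠ 0 := fun j i =>
    gAct_iter_ne F hF hz0 j (z i) (hz i)
  have hL := liouville (κ := Fin n × Fin (J + 1)) hdet (fun k => (gAct F N)^[k.2] (z k.1))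
    (fun k => hne k.2 k.1) (fun _ => b) (n.factorial : ℝ)
    (by exact_mod_cast Nat.one_le_iff_ne_zero.2 (Nat.factorial_ne_zero _))
    (fun w => by
      rw [Fintype.prod_prod_type]
      refine det_le_abv w.1 _ _ fun i a => ?_
      rw [Fin.prod_univ_eq_prod_range (fun j => (⨆ l, w ((gAct F N)^[j] (z i) l)) ^ b)]
      exact gQ_entry_le F w J (μ a) (hμ a) (z i))
    (fun w => by
      rw [Fintype.prod_prod_type]
      refine det_le_finite w _ _ (fun i => ?_) fun i a => ?_
      · refine Finset.prod_nonneg fun j _ => pow_nonneg ?_ _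
        exact Real.iSup_nonneg fun l => apply_nonneg w _
      · rw [Fin.prod_univ_eq_prod_range (fun j => (⨆ l, w ((gAct F N)^[j] (z i) l)) ^ b)]
        exact gQ_entry_le F w J (μ a) (hμ a) (z i)) S
  have hR : ∑ k : Fin n × Fin (J + 1), (b : ℝ) * Height.logHeight ((gAct F N)^[k.2] (z k.1)) =
      ∑ i, ∑ j ∈ Finset.range (J + 1), (b : ℝ) * Height.logHeight ((gAct F N)^[j] (z i)) := by
    rw [Fintype.sum_prod_type]
    refine Finset.sum_congr rfl fun i _ => ?_
    rw [Fin.sum_univ_eq_sum_range (fun j => (b : ℝ) * Height.logHeight ((gAct F N)^[j] (z i)))]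
  rw [← hR]
  refine le_trans (Finset.sum_le_sum fun w hw => ?_) hL
  have hg := local_gain Φ (hS w hw) hϖ F hΦF (J := J) μ hμ z hz (ht0 w hw).le (ht1 w hw) T
    (hcard w hw)
  rw [← hD] at hg
  have hpos : ∀ i, ∀ j ∈ Finset.range (J + 1), 0 < (⨆ l, w ((gAct F N)^[j] (z i) l)) ^ b :=
    fun i j _ => pow_pos (iSup_pos_of_ne w (hne j i)) _
  have h1 := Real.log_le_log (FinitePlace.pos_iff.2 hdet) hg
  rw [Real.log_mul (pow_pos (ht0 w hw) _).ne' (Finset.prod_ne_zero_iff.2 fun i _ =>
    (Finset.prod_pos (hpos i)).ne'), Real.log_pow,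
    Real.log_prod (fun i _ => (Finset.prod_pos (hpos i)).ne')] at h1
  have h2 : ∑ i, Real.log (∏ j ∈ Finset.range (J + 1), (⨆ l, w ((gAct F N)^[j] (z i) l)) ^ b) =
      ∑ k : Fin n × Fin (J + 1), (b : ℝ) * Real.log (⨆ l, w ((gAct F N)^[k.2] (z k.1) l)) := by
    rw [Fintype.sum_prod_type]
    refine Finset.sum_congr rfl fun i _ => ?_
    rw [Real.log_prod (fun j hj => (hpos i j hj).ne'),
      Fin.sum_univ_eq_sum_range (fun j => (b : ℝ) * Real.log (⨆ l, w ((gAct F N)^[j] (z i) l)))]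
    exact Finset.sum_congr rfl fun j _ => Real.log_pow _ _
  rw [h2] at h1
  push_cast at h1
  linarith

end gain

end Pool.DynLehmer
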