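import Mathlib
import Pool.Agent.Lib.MP_2194ec_nt.GenClose

set_option autoImplicit false

/-!
# Interpolation determinants whose rows are values of few polynomials
-/

namespace Pool.DynLehmer
open MvPolynomial NumberField
open scoped Classical

section det

variable {N : Type} [Field N] [NumberField N] (w : FinitePlace N)

/-- expansion of a determinant of values -/
theorem det_expand2 {A : Type*} [CommRing A] {κ : Type} [Fintype κ] {n : ℕ} (vv : Fin n → κ → A)
    (P : Fin n → Fin n → MvPolynomial κ A) (r : Fin n → Fin n) :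
    ∃ S : Finset (κ →₀ ℕ),
      (Matrix.of fun i a => eval (vv i) (P (r i) a)).det =
        ∑ s ∈ Fintype.piFinset (fun _ : Fin n => S),
          (∏ i, ∏ k, vv i k ^ (s i k)) *
            (Matrix.of fun i a => coeff (s i) (P (r i) a)).det := by
  set S : Finset (κ →₀ ℕ) := Finset.univ.biUnion fun a : Fin n =>
    Finset.univ.biUnion fun ρ : Fin n => (P ρ a).support with hS
  refine ⟨S, ?_⟩
  have h1 : ∀ i a, eval (vv i) (P (r i) a) = ∑ α ∈ S, (∏ k, vv i k ^ (α k)) *
      coeff α (P (r i) a) := by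
    intro i a
    rw [eval_eq]
    have h3 : (P (r i) a).support ⊆ S := by
      intro t ht
      rw [hS]
      exact Finset.mem_biUnion.2 ⟨a, Finset.mem_univ _,
        Finset.mem_biUnion.2 ⟨r i, Finset.mem_univ _, ht⟩⟩
    refine (Finset.sum_subset h3 ?_).trans ?_
    · intro t _ ht
      rw [notMem_support_iff.1 ht]; simp
    · refine Finset.sum_congr rfl fun t _ => ?_
      rw [mul_comm]
      congr 1
      refine Finset.prod_subset (Finset.subset_univ _) fun k _ hk => ?_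
      rw [Finsupp.notMem_support_iff.1 hk, pow_zero]
  have h4 : (Matrix.of fun i a => eval (vv i) (P (r i) a)) = fun i => ∑ α ∈ S,
      (∏ k, vv i k ^ (α k)) • (fun a => coeff α (P (r i) a)) := by
    funext i a
    simp only [Matrix.of_apply]
    rw [h1, Finset.sum_apply]
    rfl
  change Matrix.detRowAlternating (Matrix.of fun i a => eval (vv i) (P (r i) a)) = _
  rw [h4]
  have h5 := (Matrix.detRowAlternating (R := A) (n := Fin n)).toMultilinearMap.map_sum_finset
    (fun i (α : κ →₀ ℕ) => (∏ k, vv i k ^ (α k)) •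
      (fun a => coeff α (P (r i) a))) (fun _ => S)
  refine h5.trans (Finset.sum_congr rfl fun s _ => ?_)
  rw [MultilinearMap.map_smul_univ]
  rfl

/-- few exponents in each class -/
theorem card_bad {X : Type} {n : ℕ} (r : Fin n → Fin n) (s : Fin n → X)
    (hinj : ∀ i i', i ≠ i' → r i = r i' → s i ≠ s i') (𝓜 : Fin n → Finset X)
    (Good : Finset (Fin n))
    (hcard : ∀ i ∈ Good, 2 * (𝓜 (r i)).card ≤ (Good.filter fun i' => r i' = r i).card) :
    2 * (Good.filter fun i => s i ∈ 𝓜 (r i)).card ≤ Good.card := by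
  have e1 : Good.card = ∑ ρ ∈ Good.image r, (Good.filter fun i => r i = ρ).card :=
    Finset.card_eq_sum_card_fiberwise fun i hi => Finset.mem_coe.2 (Finset.mem_image_of_mem r hi)
  have e2 : (Good.filter fun i => s i ∈ 𝓜 (r i)).card =
      ∑ ρ ∈ Good.image r, ((Good.filter fun i => s i ∈ 𝓜 (r i)).filter fun i => r i = ρ).card :=
    Finset.card_eq_sum_card_fiberwise fun i hi =>
      Finset.mem_coe.2 (Finset.mem_image_of_mem r (Finset.mem_filter.1 hi).1)
  rw [e1, e2, Finset.mul_sum]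
  refine Finset.sum_le_sum fun ρ hρ => ?_
  obtain ⟨i0, hi0, rfl⟩ := Finset.mem_image.1 hρ
  refine le_trans ?_ (hcard i0 hi0)
  apply Nat.mul_le_mul_left
  refine Finset.card_le_card_of_injOn s ?_ ?_
  · intro i hi
    rw [Finset.mem_coe, Finset.mem_filter, Finset.mem_filter] at hi
    rw [Finset.mem_coe, ← hi.2]
    exact hi.1.2
  · intro i hi i' hi' hii
    rw [Finset.mem_coe, Finset.mem_filter] at hi hi'
    by_contra hne
    exact hinj i i' hne (hi.2.trans hi'.2.symm) hii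

/-- **Determinants whose rows are values of few polynomials.** -/
theorem class_det {κ : Type} [Fintype κ] {n : ℕ} (vv : Fin n → κ → OW w)
    (P : Fin n → Fin n → MvPolynomial κ (OW w)) (r : Fin n → Fin n)
    (𝓜 : Fin n → Finset (κ →₀ ℕ)) (Good : Finset (Fin n)) {ω : ℝ} (hω0 : 0 ≤ ω) (hω1 : ω ≤ 1)
    (hM : ∀ i ∈ Good, ∀ α, α ∉ 𝓜 (r i) → w ((∏ k, vv i k ^ α k : OW w) : N) ≤ ω)
    (hcard : ∀ i ∈ Good, 2 * (𝓜 (r i)).card ≤ (Good.filter fun i' => r i' = r i).card) :
    (w (((Matrix.of fun i a => eval (vv i) (P (r i) a)).det : OW w) : N)) ^ 2 ≤ ω ^ Good.card := by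
  have hpos : 0 ≤ ω ^ Good.card := pow_nonneg hω0 _
  rw [← Real.sq_sqrt hpos]
  refine pow_le_pow_left₀ (apply_nonneg w _) ?_ 2
  obtain ⟨S, hdet⟩ := det_expand2 vv P r
  rw [hdet]
  rw [AddSubmonoidClass.coe_finsetSum]
  refine finitePlace_sum_le w _ _ _ (Real.sqrt_nonneg _) fun s _ => ?_
  apply Real.le_sqrt_of_sq_le
  by_cases h2 : ∃ i i', i ≠ i' ∧ r i = r i' ∧ s i = s i'
  · obtain ⟨i, i', hne, hr, hs⟩ := h2
    have h3 : (Matrix.of fun i a => coeff (s i) (P (r i) a)).det = 0 := by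
      refine Matrix.det_zero_of_row_eq hne ?_
      funext a
      simp only [Matrix.of_apply, hr, hs]
    rw [h3, mul_zero]
    simpa using hpos
  push Not at h2
  have hbad : 2 * (Good.filter fun i => s i ∈ 𝓜 (r i)).card ≤ Good.card := by
    convert card_bad r s h2 𝓜 Good hcard
  set B := Good.filter fun i => ¬ (s i ∈ 𝓜 (r i)) with hB
  have hB2 : Good.card ≤ 2 * B.card := by
    have h3 : (Good.filter fun i => s i ∈ 𝓜 (r i)).card + B.card = Good.card :=
      Finset.card_filter_add_card_filter_not _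
    omega
  have h4 : w (((Matrix.of fun i a => coeff (s i) (P (r i) a)).det : OW w) : N) ≤ 1 :=
    ((Matrix.of fun i a => coeff (s i) (P (r i) a)).det : OW w).2
  have h5 : w ((∏ i, ∏ k, vv i k ^ (s i k) : OW w) : N) ≤ ω ^ B.card := by
    rw [SubmonoidClass.coe_finsetProd, map_prod]
    have h6 : ω ^ B.card = ∏ i, if i ∈ B then ω else 1 := by
      rw [Finset.prod_ite_mem, Finset.univ_inter, Finset.prod_const]
    rw [h6]
    refine Finset.prod_le_prod (fun i _ => apply_nonneg w _) fun i _ => ?_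
    split_ifs with hi
    · rw [hB, Finset.mem_filter] at hi
      exact hM i hi.1 _ hi.2
    · exact (∏ k, vv i k ^ (s i k) : OW w).2
  rw [Subring.coe_mul, map_mul]
  have h7 : w ((∏ i, ∏ k, vv i k ^ (s i k) : OW w) : N) *
      w (((Matrix.of fun i a => coeff (s i) (P (r i) a)).det : OW w) : N) ≤ ω ^ B.card := by
    calc _ ≤ ω ^ B.card * 1 := mul_le_mul h5 h4 (apply_nonneg w _) (pow_nonneg hω0 _)
      _ = _ := mul_one _
  calc _ ≤ (ω ^ B.card) ^ 2 := pow_le_pow_left₀
        (mul_nonneg (apply_nonneg w _) (apply_nonneg w _)) h7 2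
    _ = ω ^ (2 * B.card) := by rw [← pow_mul, mul_comm]
    _ ≤ ω ^ Good.card := pow_le_pow_of_le_one hω0 hω1 hB2

end det

section gain

variable {N : Type} [Field N] [NumberField N] {ι : Type}

/-- The rows in `Good` are values of few polynomials at small points. -/
def Gain (w : FinitePlace N) {n : ℕ} (z : Fin n → ι → N) (Good : Finset (Fin n)) (ω : ℝ) : Prop :=
  ∃ (κ : Type) (_ : Fintype κ) (r : Fin n → Fin n) (c : Fin n → N) (u : Fin n → ι → OW w)
    (vv : Fin n → κ → OW w) (Y : Fin n → ι → MvPolynomial κ (OW w))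
    (𝓜 : Fin n → Finset (κ →₀ ℕ)),
    (∀ i, c i ≠ 0) ∧ (∀ i, z i = c i • fun l => (u i l : N)) ∧ (∀ i, Prim w (u i)) ∧
    (∀ i j, u i j = eval (vv i) (Y (r i) j)) ∧
    (∀ i ∈ Good, ∀ α, α ∉ 𝓜 (r i) → w ((∏ k, vv i k ^ α k : OW w) : N) ≤ ω) ∧
    (∀ i ∈ Good, 2 * (𝓜 (r i)).card ≤ (Good.filter fun i' => r i' = r i).card)

variable {K : Type} [Field K] [NumberField K] [Algebra K N]
variable {p s : ℕ} [Fintype ι] [DecidableEq ι] [Nonempty ι]
variable {v : FinitePlace K} {w : FinitePlace N} {e : ℕ} (Φ : GF (OW v) p s ι)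

theorem gain_det (h : Above v w e) (hϖ : v (Φ.ϖ : K) < 1)
    (F : ι → MvPolynomial ι K) (hΦF : ∀ i, map (OW v).subtype (Φ.F i) = F i)
    {n J b : ℕ} (μ : Fin n → ℕ → ι →₀ ℕ) (hμ : ∀ a j, (μ a j).degree = b)
    (z : Fin n → ι → N) {Good : Finset (Fin n)} {ω : ℝ} (hω0 : 0 ≤ ω) (hω1 : ω ≤ 1)
    (hG : Gain w z Good ω) :
    (w (Matrix.of fun i a => aeval (z i) (gQ F J (μ a))).det) ^ 2 ≤
      ω ^ Good.card * (∏ i, ∏ j ∈ Finset.range (J + 1),
        (⨆ l, w ((gAct F N)^[j] (z i) l)) ^ b) ^ 2 := by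
  obtain ⟨κ, _, r, c, u, vv, Y, 𝓜, hc0, hzu, hprim, huv, hM, hcard⟩ := hG
  -- the forms over the valuation ring
  set Ψ := Φ.map (toOW h) with hΨ
  have hΨF : ∀ i, map (OW w).subtype (Ψ.F i) = map (algebraMap K N) (F i) := by
    intro i
    rw [hΨ, GF.map_F, ← hΦF i, MvPolynomial.map_map, subtype_comp_toOW, toN,
      MvPolynomial.map_map]
  have hdet1 := class_det w vv (fun ρ a => bind₁ (Y ρ) (gQ Ψ.F J (μ a))) r 𝓜 Good hω0 hω1 hM hcard
  have heq : (Matrix.of fun i a => eval (vv i) (bind₁ (Y (r i)) (gQ Ψ.F J (μ a)))) =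
      Matrix.of fun i a => eval (u i) (gQ Ψ.F J (μ a)) := by
    ext i a
    simp only [Matrix.of_apply]
    have h1 : (fun j => eval (vv i) (Y (r i) j)) = u i := funext fun j => (huv i j).symm
    have h2 : eval (vv i) (bind₁ (Y (r i)) (gQ Ψ.F J (μ a))) =
        eval (fun j => eval (vv i) (Y (r i) j)) (gQ Ψ.F J (μ a)) := by
      rw [← coe_aeval_eq_eval, ← coe_aeval_eq_eval]
      simp only [RingHom.coe_coe]
      rw [aeval_bind₁]
    rw [h2, h1]
  rw [heq] at hdet1
  have hentry : ∀ i a, aeval (z i) (gQ F J (μ a)) =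
      c i ^ dl b (p ^ s) J * ((eval (u i) (gQ Ψ.F J (μ a)) : OW w) : N) := by
    intro i a
    have h1 : ((eval (u i) (gQ Ψ.F J (μ a)) : OW w) : N) =
        eval (fun l => (u i l : N)) (map (OW w).subtype (gQ Ψ.F J (μ a))) := by
      rw [eval_map]
      exact eval₂_comp (OW w).subtype (u i) (gQ Ψ.F J (μ a))
    have h2 : map (OW w).subtype (gQ Ψ.F J (μ a)) = map (algebraMap K N) (gQ F J (μ a)) := by
      rw [map_gQ, map_gQ]
      congr 1
      funext i
      exact hΨF i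
    have hFh : ∀ i, (map (algebraMap K N) (F i)).IsHomogeneous (p ^ s) := fun i => by
      rw [← hΨF i]; exact (Ψ.F_hom i).map _
    have h3 : (map (algebraMap K N) (gQ F J (μ a))).IsHomogeneous (dl b (p ^ s) J) := by
      rw [map_gQ]
      exact gQ_hom _ hFh J (μ a) (hμ a)
    rw [h1, h2, ← eval_smul_hom h3, ← hzu i, eval_map]
    rfl
  have hdet2 : (Matrix.of fun i a => aeval (z i) (gQ F J (μ a))).det =
      (∏ i, c i ^ dl b (p ^ s) J) *
        (((Matrix.of fun i a => eval (u i) (gQ Ψ.F J (μ a))).det : OW w) : N) := by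
    have h1 : (((Matrix.of fun i a => eval (u i) (gQ Ψ.F J (μ a))).det : OW w) : N) =
        (Matrix.of fun i a => ((eval (u i) (gQ Ψ.F J (μ a)) : OW w) : N)).det := by
      have := (OW w).subtype.map_det (Matrix.of fun i a => eval (u i) (gQ Ψ.F J (μ a)))
      exact this
    rw [h1, ← Matrix.det_mul_column]
    congr 1
    ext i a
    simp only [Matrix.of_apply]
    exact hentry i a
  rw [hdet2, map_mul, map_prod, mul_comm, mul_pow]
  refine mul_le_mul hdet1 ?_ (sq_nonneg _) (pow_nonneg hω0 _)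
  refine pow_le_pow_left₀ (Finset.prod_nonneg fun i _ => apply_nonneg w _) ?_ 2
  refine Finset.prod_le_prod (fun i _ => apply_nonneg w _) fun i _ => ?_
  rw [map_pow, dl_eq, ← Finset.prod_pow_eq_pow_sum]
  refine Finset.prod_le_prod (fun j _ => pow_nonneg (apply_nonneg w _) _) fun j _ => ?_
  rw [pow_mul]
  refine pow_le_pow_left₀ (pow_nonneg (apply_nonneg w _) _) ?_ b
  -- the norm of the iterates
  have hact : (Φ.map (toN v N)).act = gAct F N := gact_eq_aeval Φ F hΦF N
  obtain ⟨l, hl⟩ := prim_act_iter Φ h hϖ j (u i) (hprim i)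
  have h4 : (gAct F N)^[j] (z i) = (c i ^ ((p ^ s) ^ j)) •
      fun l => (((Φ.map (toOW h)).act^[j] (u i) l : OW w) : N) := by
    rw [← hact, hzu i, GF.act_iter_smul, ← gcoe_act_iter Φ h]
  have h5 : w ((gAct F N)^[j] (z i) l) = w (c i) ^ ((p ^ s) ^ j) := by
    rw [h4]
    simp only [Pi.smul_apply, smul_eq_mul, map_mul, map_pow]
    rw [hl, mul_one]
  rw [← h5]
  exact Finite.le_ciSup (fun l => w ((gAct F N)^[j] (z i) l)) l

/-- **The energy inequality, second form.** -/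
theorem energy2 (hϖ : v (Φ.ϖ : K) < 1)
    (F : ι → MvPolynomial ι K) (hF : ∀ i, (F i).IsHomogeneous (p ^ s))
    (hz0 : ∀ z : ι → AlgebraicClosure K, (∀ i, aeval z (F i) = 0) → z = 0)
    (hΦF : ∀ i, map (OW v).subtype (Φ.F i) = F i) {b : ℕ}
    (hb : ∀ (J : ℕ) (G : MvPolynomial ι K), G.IsHomogeneous (dl b (p ^ s) J) →
      G ∈ Submodule.span K {Q : MvPolynomial ι K | ∃ μ : ℕ → ι →₀ ℕ,
        (∀ j, (μ j).degree = b) ∧ Q = gQ F J μ})
    (S : Finset (FinitePlace N)) (e : FinitePlace N → ℕ) (hS : ∀ w ∈ S, Above v w (e w))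
    {n J : ℕ} (hn : n ≤ dl b (p ^ s) J + 1) (z : Fin n → ι → N) (hz : ∀ a, z a ≠ 0)
    (hzz : ∀ a i, i ≠ a → ∃ k l, z i k * z a l - z i l * z a k ≠ 0)
    (Good : FinitePlace N → Finset (Fin n)) (ω : FinitePlace N → ℝ)
    (hω0 : ∀ w ∈ S, 0 < ω w) (hω1 : ∀ w ∈ S, ω w ≤ 1) (hG : ∀ w ∈ S, Gain w z (Good w) (ω w)) :
    ∑ w ∈ S, ((Good w).card / 2 : ℝ) * (- Real.log (ω w)) ≤
      ∑ i, ∑ j ∈ Finset.range (J + 1), (b : ℝ) * Height.logHeight ((gAct F N)^[j] (z i)) +
      Module.finrank ℚ N * Real.log (n.factorial) := by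
  obtain ⟨μ, hμ, hdet⟩ := exists_gQ_det F (hb J) z (exists_sep hn z hz hzz)
  set D := (Matrix.of fun i a => aeval (z i) (gQ F J (μ a))).det with hD
  have hne : ∀ (j : ℕ) i, (gAct F N)^[j] (z i) ≠ 0 := fun j i =>
    gAct_iter_ne F hF hz0 j (z i) (hz i)
  have hL := liouville (κ := Fin n × Fin (J + 1)) hdet (fun k => (gAct F N)^[k.2] (z k.1))
    (fun k => hne k.2 k.1) (fun _ => b) (n.factorial : ℝ)
    (by exact_mod_cast Nat.one_le_iff_ne_zero.2 (Nat.factorial_ne_zero _))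
    (fun w => by
      rw [Fintype.prod_prod_type]
      refine det_le_abv w.1 _ _ fun i a => ?_
      rw [Fin.prod_univ_eq_prod_range (fun j => (⨆ l, w ((gAct F N)^[j] (z i) l)) ^ b)]
      exact gQ_entry_le F w J (μ a) (hμ a) (z i))
    (fun w => by
      rw [Fintype.prod_prod_type]
      refine det_le_finite w _ _ (fun i => ?_) fun i a => ?_
      · refine Finset.prod_nonneg fun j _ => pow_nonneg ?_ _
        exact Real.iSup_nonneg fun l => apply_nonneg w _
      · rw [Fin.prod_univ_eq_prod_range (fun j => (⨆ l, w ((gAct F N)^[j] (z i) l)) ^ b)]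
        exact gQ_entry_le F w J (μ a) (hμ a) (z i)) S
  have hR : ∑ k : Fin n × Fin (J + 1), (b : ℝ) * Height.logHeight ((gAct F N)^[k.2] (z k.1)) =
      ∑ i, ∑ j ∈ Finset.range (J + 1), (b : ℝ) * Height.logHeight ((gAct F N)^[j] (z i)) := by
    rw [Fintype.sum_prod_type]
    refine Finset.sum_congr rfl fun i _ => ?_
    rw [Fin.sum_univ_eq_sum_range (fun j => (b : ℝ) * Height.logHeight ((gAct F N)^[j] (z i)))]
  rw [← hR]
  refine le_trans (Finset.sum_le_sum fun w hw => ?_) hL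
  have hg := gain_det Φ (hS w hw) hϖ F hΦF (J := J) μ hμ z (hω0 w hw).le (hω1 w hw) (hG w hw)
  rw [← hD] at hg
  have hpos : ∀ i, ∀ j ∈ Finset.range (J + 1), 0 < (⨆ l, w ((gAct F N)^[j] (z i) l)) ^ b :=
    fun i j _ => pow_pos (iSup_pos_of_ne w (hne j i)) _
  have hprodpos : 0 < ∏ i, ∏ j ∈ Finset.range (J + 1), (⨆ l, w ((gAct F N)^[j] (z i) l)) ^ b :=
    Finset.prod_pos fun i _ => Finset.prod_pos (hpos i)
  have h1 := Real.log_le_log (pow_pos (FinitePlace.pos_iff.2 hdet) 2) hg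
  rw [Real.log_pow, Real.log_mul (pow_pos (hω0 w hw) _).ne' (pow_pos hprodpos 2).ne', Real.log_pow,
    Real.log_pow, Real.log_prod (fun i _ => (Finset.prod_pos (hpos i)).ne')] at h1
  have h2 : ∑ i, Real.log (∏ j ∈ Finset.range (J + 1), (⨆ l, w ((gAct F N)^[j] (z i) l)) ^ b) =
      ∑ k : Fin n × Fin (J + 1), (b : ℝ) * Real.log (⨆ l, w ((gAct F N)^[k.2] (z k.1) l)) := by
    rw [Fintype.sum_prod_type]
    refine Finset.sum_congr rfl fun i _ => ?_
    rw [Real.log_prod (fun j hj => (hpos i j hj).ne'),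
      Fin.sum_univ_eq_sum_range (fun j => (b : ℝ) * Real.log (⨆ l, w ((gAct F N)^[j] (z i) l)))]
    exact Finset.sum_congr rfl fun j _ => Real.log_pow _ _
  rw [h2] at h1
  push_cast at h1
  linarith

end gain

end Pool.DynLehmer
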