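import Mathlib
import Pool.Agent.Lib.MP_2194ec_nt.RamA
import Pool.Agent.Lib.MP_2194ec_nt.RamC

set_option autoImplicit false

/-!
# Gain from closeness and gain from ramification
-/

namespace Pool.DynLehmer
open MvPolynomial NumberField
open scoped Classical

section close

variable {N : Type} [Field N] [NumberField N] {ι : Type} [Fintype ι] [Nonempty ι]
variable {w : FinitePlace N}

/-- the exponents of small degree outside a chart -/
noncomputable def smallExp (k0 : ι) (U : ℕ) : Finset (ι →₀ ℕ) :=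
  ((Finset.range U).biUnion fun d => Finset.finsuppAntidiag Finset.univ d).filter
    fun α => α k0 = 0

omit [Nonempty ι] in
theorem mem_smallExp {k0 : ι} {U : ℕ} {α : ι →₀ ℕ} :
    α ∈ smallExp k0 U ↔ α.degree < U ∧ α k0 = 0 := by
  rw [smallExp, Finset.mem_filter, Finset.mem_biUnion]
  constructor
  · rintro ⟨⟨d, hd, h1⟩, h2⟩
    rw [Finset.mem_finsuppAntidiag] at h1
    refine ⟨?_, h2⟩
    rw [Finsupp.degree_eq_sum, h1.1]
    exact Finset.mem_range.1 hd
  · rintro ⟨h1, h2⟩
    refine ⟨⟨α.degree, Finset.mem_range.2 h1, ?_⟩, h2⟩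
    rw [Finset.mem_finsuppAntidiag]
    exact ⟨(Finsupp.degree_eq_sum α).symm, Finset.subset_univ _⟩

omit [Nonempty ι] in
theorem card_smallExp (k0 : ι) (U : ℕ) :
    (smallExp k0 U).card ≤ U ^ (Fintype.card ι - 1) := by
  have h1 := card_small (smallExp k0 U) (fun α => α) (fun _ _ _ _ h => h) k0
    (fun α hα => (mem_smallExp.1 hα).2) U
  rwa [Finset.filter_true_of_mem fun α hα => (mem_smallExp.1 hα).1] at h1

/-- **Gain from closeness.** -/
theorem gain_close {n : ℕ} (z : Fin n → ι → N) (hz : ∀ i, z i ≠ 0) (Good : Finset (Fin n))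
    {t : ℝ} (ht0 : 0 ≤ t) (ht1 : t < 1) (T : ℕ)
    (hcard : ∀ i ∈ Good, 2 * (2 * T) ^ (Fintype.card ι - 1) ≤
      (Good.filter fun i' => Close w t (z i) (z i')).card) :
    Gain w z Good (t ^ (2 * T)) := by
  set cl : Fin n → Finset (Fin n) := fun i => Good.filter fun i' => Close w t (z i) (z i')
    with hcl
  have hself : ∀ i ∈ Good, i ∈ cl i := fun i hi =>
    Finset.mem_filter.2 ⟨hi, Close.refl' ht0 (hz i)⟩
  have hcleq : ∀ i i', Close w t (z i) (z i') → cl i = cl i' := by
    intro i i' hii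
    ext k
    simp only [hcl, Finset.mem_filter]
    exact ⟨fun hk => ⟨hk.1, hii.symm'.trans' hk.2⟩, fun hk => ⟨hk.1, hii.trans' hk.2⟩⟩
  set r : Fin n → Fin n := fun i => if h : i ∈ Good then (cl i).min' ⟨i, hself i h⟩ else i with hr
  have hrG : ∀ i (h : i ∈ Good), r i = (cl i).min' ⟨i, hself i h⟩ := fun i h => by
    simp only [hr]; rw [dif_pos h]
  have hrB : ∀ i, i ∉ Good → r i = i := fun i h => by simp only [hr]; rw [dif_neg h]
  have hrmem : ∀ i ∈ Good, r i ∈ cl i := fun i h => by
    rw [hrG i h]; exact Finset.min'_mem _ _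
  have hrc : ∀ i, Close w t (z i) (z (r i)) := by
    intro i
    by_cases h : i ∈ Good
    · exact (Finset.mem_filter.1 (hrmem i h)).2
    · rw [hrB i h]; exact Close.refl' ht0 (hz i)
  have hreq : ∀ i ∈ Good, ∀ i' ∈ Good, Close w t (z i) (z i') → r i = r i' := by
    intro i hi i' hi' hii
    rw [hrG i hi, hrG i' hi']
    congr 1
    exact hcleq i i' hii
  have hrr : ∀ i, r (r i) = r i := by
    intro i
    by_cases h : i ∈ Good
    · exact (hreq i h (r i) (Finset.mem_filter.1 (hrmem i h)).1 (hrc i)).symm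
    · rw [hrB i h, hrB i h]
  -- charts
  have hch : ∀ ρ, ∃ k0, ∀ l, w (z ρ l) ≤ w (z ρ k0) := fun ρ =>
    Finite.exists_max (fun l => w (z ρ l))
  choose chart hchart using hch
  have hcc := fun i => (hrc i).symm'.chart ht1 (hchart (r i))
  set c : Fin n → N := fun i => z i (chart (r i)) with hc
  have hc0 : ∀ i, c i ≠ 0 := fun i => (hcc i).2.2.1
  have hmax : ∀ i l, w (z i l) ≤ w (c i) := fun i => (hcc i).1
  set u : Fin n → ι → OW w := fun i l => ⟨z i l / c i, by
    rw [mem_OW, map_div₀]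
    exact div_le_one_of_le₀ (hmax i l) (apply_nonneg w _)⟩ with hu
  have hzu : ∀ i, z i = c i • fun l => (u i l : N) := by
    intro i
    funext l
    simp only [hu, Pi.smul_apply, smul_eq_mul]
    rw [mul_div_cancel₀ _ (hc0 i)]
  have huchart : ∀ i, (u i (chart (r i)) : OW w) = 1 := by
    intro i
    apply Subtype.ext
    simp only [hu]
    change c i / c i = 1
    exact div_self (hc0 i)
  have hucharti : ∀ i, u i (chart (r i)) = u (r i) (chart (r i)) := by
    intro i
    have h1 := huchart (r i)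
    rw [hrr] at h1
    rw [huchart i, h1]
  have hclose : ∀ i k, w ((u i k : N) - u (r i) k) ≤ t := by
    intro i k
    have h1 := (hcc i).2.2.2 k
    have h2 : (u (r i) k : N) = z (r i) k / z (r i) (chart (r i)) := by
      simp only [hu, hc, hrr]
    have h3 : (u i k : N) = z i k / z i (chart (r i)) := rfl
    rw [h2, h3, ← map_neg_eq_map w, neg_sub]
    exact h1
  have hprim : ∀ i, Prim w (u i) := fun i => ⟨chart (r i), by rw [huchart i]; simp⟩
  refine ⟨ι, inferInstance, r, c, u, fun i k => u i k - u (r i) k, fun ρ j => X j + C (u ρ j),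
    fun ρ => smallExp (chart ρ) (2 * T), hc0, hzu, hprim, ?_, ?_, ?_⟩
  · intro i j
    simp
  · intro i hi α hα
    rw [mem_smallExp, not_and_or, not_lt] at hα
    by_cases h0 : α (chart (r i)) = 0
    · have hdeg : 2 * T ≤ α.degree := hα.resolve_right (fun h => h h0)
      rw [SubmonoidClass.coe_finsetProd, map_prod]
      calc ∏ k, w (((u i k - u (r i) k) ^ α k : OW w) : N) ≤ ∏ k, t ^ α k := by
            refine Finset.prod_le_prod (fun k _ => apply_nonneg w _) fun k _ => ?_
            rw [SubmonoidClass.coe_pow, map_pow]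
            refine pow_le_pow_left₀ (apply_nonneg w _) ?_ _
            exact hclose i k
        _ = t ^ α.degree := by rw [Finset.prod_pow_eq_pow_sum, Finsupp.degree_eq_sum]
        _ ≤ t ^ (2 * T) := pow_le_pow_of_le_one ht0 ht1.le hdeg
    · have h2 : ∏ k, (u i k - u (r i) k) ^ α k = 0 := by
        refine Finset.prod_eq_zero (Finset.mem_univ (chart (r i))) ?_
        rw [hucharti i, sub_self, zero_pow h0]
      rw [h2]
      simpa using pow_nonneg ht0 _
  · intro i hi
    have h1 : (Good.filter fun i' => r i' = r i) =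
        Good.filter fun i' => Close w t (z i) (z i') := by
      refine Finset.filter_congr fun i' hi' => ?_
      constructor
      · intro h2
        have h3 := hrc i
        rw [← h2] at h3
        exact h3.trans' (hrc i').symm'
      · intro h2
        exact (hreq i hi i' hi' h2).symm
    rw [h1]
    exact (Nat.mul_le_mul_left 2 (card_smallExp _ _)).trans (hcard i hi)

end close

section orbit

variable {K N : Type} [Field K] [Field N] [NumberField N] [Algebra K N]
variable {ι : Type} [Fintype ι] {w : FinitePlace N}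

/-- a box of exponents -/
noncomputable def boxExp (ι : Type) [Fintype ι] (A V : ℕ) : Finset (Option ι →₀ ℕ) :=
  (Fintype.piFinset fun k : Option ι => Finset.range (Option.elim k A fun _ => V)).image
    Finsupp.equivFunOnFinite.symm

theorem mem_boxExp {A V : ℕ} {α : Option ι →₀ ℕ} :
    α ∈ boxExp ι A V ↔ α none < A ∧ ∀ j, α (some j) < V := by
  rw [boxExp, Finset.mem_image]
  constructor
  · rintro ⟨f, hf, rfl⟩
    rw [Fintype.mem_piFinset] at hf
    exact ⟨Finset.mem_range.1 (hf none), fun j => Finset.mem_range.1 (hf (some j))⟩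
  · rintro ⟨h1, h2⟩
    refine ⟨Finsupp.equivFunOnFinite α, ?_, by simp⟩
    rw [Fintype.mem_piFinset]
    rintro (_ | j)
    · exact Finset.mem_range.2 h1
    · exact Finset.mem_range.2 (h2 j)

theorem card_boxExp (A V : ℕ) : (boxExp ι A V).card ≤ A * V ^ Fintype.card ι := by
  refine Finset.card_image_le.trans ?_
  rw [Fintype.card_piFinset, Fintype.prod_option]
  simp

/-- **Gain from ramification.** -/
theorem gain_orbit [Nonempty ι] {J : Subgroup (N ≃ₐ[K] N)} (hJ1 : ∀ g ∈ J, ∀ a, w (g a) = w a) {n : ℕ}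
    (z : Fin n → ι → N) (hz : ∀ i, z i ≠ 0) (Good : Finset (Fin n)) (V : ℕ) {ω : ℝ}
    (hω0 : 0 ≤ ω)
    (hdata : ∀ i ∈ Good, ∃ (A nn : ℕ) (T : OW w) (cc : ι → ℕ → OW w) (b y : ι → OW w) (c0 : N),
      c0 ≠ 0 ∧ (z i = c0 • fun l => (y l : N)) ∧ Prim w y ∧
      (∀ j, y j = ∑ a ∈ Finset.range nn, cc j a * T ^ a + b j) ∧
      (∀ j a, ∀ g ∈ J, g (cc j a : N) = cc j a) ∧ w (T : N) ^ A ≤ ω ∧
      (∀ j, w (b j : N) ^ V ≤ ω) ∧ 2 * (A * V ^ Fintype.card ι) ≤
        (Good.filter fun i' => ∃ g ∈ J, ∃ c : N, c ≠ 0 ∧ z i' = c • gal g (z i)).card) :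
    Gain w z Good ω := by
  -- the equivalence relation
  set R : Fin n → Fin n → Prop := fun i i' => ∃ g ∈ J, ∃ c : N, c ≠ 0 ∧ z i' = c • gal g (z i)
    with hR
  have hRrefl : ∀ i, R i i := fun i => ⟨1, J.one_mem, 1, one_ne_zero, by rw [one_smul, gal_one]⟩
  have hRsymm : ∀ i i', R i i' → R i' i := by
    rintro i i' ⟨g, hg, c, hc, h⟩
    refine ⟨g⁻¹, J.inv_mem hg, (g⁻¹ c)⁻¹, inv_ne_zero (by simpa using hc), ?_⟩
    have hc' : g⁻¹ c ≠ 0 := by simpa using hc
    rw [h, gal_smul, ← gal_mul, inv_mul_cancel, gal_one, smul_smul, inv_mul_cancel₀ hc', one_smul]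
  have hRtrans : ∀ i i' i'', R i i' → R i' i'' → R i i'' := by
    rintro i i' i'' ⟨g, hg, c, hc, h⟩ ⟨g', hg', c', hc', h'⟩
    refine ⟨g' * g, J.mul_mem hg' hg, c' * g' c, mul_ne_zero hc' (by simpa using hc), ?_⟩
    rw [h', h, gal_smul, gal_mul, smul_smul]
  set cl : Fin n → Finset (Fin n) := fun i => Good.filter fun i' => R i i' with hcl
  have hself : ∀ i ∈ Good, i ∈ cl i := fun i hi => Finset.mem_filter.2 ⟨hi, hRrefl i⟩
  have hcleq : ∀ i i', R i i' → cl i = cl i' := by
    intro i i' hii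
    ext k
    simp only [hcl, Finset.mem_filter]
    exact ⟨fun hk => ⟨hk.1, hRtrans _ _ _ (hRsymm _ _ hii) hk.2⟩,
      fun hk => ⟨hk.1, hRtrans _ _ _ hii hk.2⟩⟩
  set r : Fin n → Fin n := fun i => if h : i ∈ Good then (cl i).min' ⟨i, hself i h⟩ else i with hr
  have hrG : ∀ i (h : i ∈ Good), r i = (cl i).min' ⟨i, hself i h⟩ := fun i h => by
    simp only [hr]; rw [dif_pos h]
  have hrB : ∀ i, i ∉ Good → r i = i := fun i h => by simp only [hr]; rw [dif_neg h]
  have hrmem : ∀ i ∈ Good, r i ∈ cl i := fun i h => by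
    rw [hrG i h]; exact Finset.min'_mem _ _
  have hrR : ∀ i, R (r i) i := by
    intro i
    by_cases h : i ∈ Good
    · exact hRsymm _ _ (Finset.mem_filter.1 (hrmem i h)).2
    · rw [hrB i h]; exact hRrefl i
  have hreq : ∀ i ∈ Good, ∀ i' ∈ Good, R i i' → r i = r i' := by
    intro i hi i' hi' hii
    rw [hrG i hi, hrG i' hi']
    congr 1
    exact hcleq i i' hii
  have hrGood : ∀ i ∈ Good, r i ∈ Good := fun i hi => (Finset.mem_filter.1 (hrmem i hi)).1
  -- data for all points
  have hdata' : ∀ i, ∃ (A nn : ℕ) (T : OW w) (cc : ι → ℕ → OW w) (b y : ι → OW w) (c0 : N),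
      c0 ≠ 0 ∧ (z i = c0 • fun l => (y l : N)) ∧ Prim w y ∧
      (∀ j, y j = ∑ a ∈ Finset.range nn, cc j a * T ^ a + b j) ∧
      (∀ j a, ∀ g ∈ J, g (cc j a : N) = cc j a) ∧ (i ∈ Good → w (T : N) ^ A ≤ ω ∧
      (∀ j, w (b j : N) ^ V ≤ ω) ∧ 2 * (A * V ^ Fintype.card ι) ≤ (cl i).card) := by
    intro i
    by_cases hi : i ∈ Good
    · obtain ⟨A, nn, T, cc, b, y, c0, h1, h2, h3, h4, h5, h6⟩ := hdata i hi
      exact ⟨A, nn, T, cc, b, y, c0, h1, h2, h3, h4, h5, fun _ => h6⟩
    · obtain ⟨a, u, ha, hzu, hu⟩ := gexists_prim (w := w) (hz i)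
      exact ⟨0, 0, 0, fun _ _ => 0, u, u, a, ha, hzu, hu, fun j => by simp,
        fun j a g _ => by simp, fun h => absurd h hi⟩
  choose A nn T cc b y c0 hc0 hzy hyprim hyeq hccfix hgood using hdata'
  choose g hg cg hcg hzg using hrR
  have hgint : ∀ i (a : OW w), w (g i (a : N)) ≤ 1 := fun i a => by
    rw [hJ1 (g i) (hg i)]; exact a.2
  set gO : ∀ i : Fin n, OW w →+* OW w := fun i =>
    { toFun := fun a => ⟨g i (a : N), hgint i a⟩
      map_one' := by apply Subtype.ext; simp
      map_mul' := fun a a' => by apply Subtype.ext; simp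
      map_zero' := by apply Subtype.ext; simp
      map_add' := fun a a' => by apply Subtype.ext; simp } with hgO
  have hgOcoe : ∀ i (a : OW w), ((gO i a : OW w) : N) = g i (a : N) := fun i a => rfl
  refine ⟨Option ι, inferInstance, r, fun i => cg i * g i (c0 (r i)),
    fun i l => gO i (y (r i) l),
    fun i k => Option.elim k (gO i (T (r i))) fun j => gO i (b (r i) j),
    fun ρ j => ∑ a ∈ Finset.range (nn ρ), C (cc ρ j a) * X none ^ a + X (some j),
    fun ρ => boxExp ι (A ρ) V, ?_, ?_, ?_, ?_, ?_, ?_⟩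
  · intro i
    exact mul_ne_zero (hcg i) (by simpa using hc0 (r i))
  · intro i
    rw [hzg i]
    conv_lhs => rw [hzy (r i), gal_smul, smul_smul]
    rfl
  · intro i
    obtain ⟨l, hl⟩ := hyprim (r i)
    refine ⟨l, ?_⟩
    rw [hgOcoe, hJ1 (g i) (hg i)]
    exact hl
  · intro i j
    have h1 : ∀ a, gO i (cc (r i) j a) = cc (r i) j a := fun a => by
      apply Subtype.ext
      rw [hgOcoe]
      exact hccfix (r i) j a (g i) (hg i)
    beta_reduce
    rw [hyeq (r i) j, map_add, map_sum]
    simp only [map_mul, map_pow, h1, map_add, map_sum, eval_C, eval_X, Option.elim_none,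
      Option.elim_some]
  · intro i hi α hα
    obtain ⟨hT, hb, -⟩ := hgood (r i) (hrGood i hi)
    rw [Fintype.prod_option, Subring.coe_mul, map_mul, SubmonoidClass.coe_finsetProd, map_prod]
    simp only [Option.elim_none, Option.elim_some]
    have hle1 : ∀ (a : OW w) (k : ℕ), w ((a ^ k : OW w) : N) ≤ 1 := fun a k => (a ^ k).2
    rw [mem_boxExp, not_and_or, not_lt] at hα
    rcases hα with h1 | h1
    · have h2 : w (((gO i (T (r i))) ^ α none : OW w) : N) ≤ ω := by
        rw [SubmonoidClass.coe_pow, map_pow, hgOcoe, hJ1 (g i) (hg i)]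
        exact (pow_le_pow_of_le_one (apply_nonneg w _) (T (r i)).2 h1).trans hT
      have h3 : ∏ j, w (((gO i (b (r i) j)) ^ α (some j) : OW w) : N) ≤ 1 :=
        Finset.prod_le_one (fun j _ => apply_nonneg w _) fun j _ => hle1 _ _
      calc _ ≤ ω * 1 := mul_le_mul h2 h3 (Finset.prod_nonneg fun j _ => apply_nonneg w _) hω0
        _ = ω := mul_one _
    · push Not at h1
      obtain ⟨j0, hj0⟩ := h1
      have h2 : w (((gO i (T (r i))) ^ α none : OW w) : N) ≤ 1 := hle1 _ _
      have h3 : ∏ j, w (((gO i (b (r i) j)) ^ α (some j) : OW w) : N) ≤ ω := by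
        rw [← Finset.mul_prod_erase _ _ (Finset.mem_univ j0)]
        have h4 : w (((gO i (b (r i) j0)) ^ α (some j0) : OW w) : N) ≤ ω := by
          rw [SubmonoidClass.coe_pow, map_pow, hgOcoe, hJ1 (g i) (hg i)]
          exact (pow_le_pow_of_le_one (apply_nonneg w _) (b (r i) j0).2 hj0).trans (hb j0)
        have h5 : ∏ j ∈ Finset.univ.erase j0, w (((gO i (b (r i) j)) ^ α (some j) : OW w) : N) ≤
            1 := Finset.prod_le_one (fun j _ => apply_nonneg w _) fun j _ => hle1 _ _
        calc _ ≤ ω * 1 := mul_le_mul h4 h5 (Finset.prod_nonneg fun j _ => apply_nonneg w _) hω0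
          _ = ω := mul_one _
      calc _ ≤ 1 * ω := mul_le_mul h2 h3 (Finset.prod_nonneg fun j _ => apply_nonneg w _)
            zero_le_one
        _ = ω := one_mul _
  · intro i hi
    have h1 : (Good.filter fun i' => r i' = r i) = cl (r i) := by
      simp only [hcl]
      refine Finset.filter_congr fun i' hi' => ?_
      have hi1 : R i (r i) := (Finset.mem_filter.1 (hrmem i hi)).2
      have hi2 : R i' (r i') := (Finset.mem_filter.1 (hrmem i' hi')).2
      constructor
      · intro h2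
        rw [← h2]
        exact hRsymm _ _ hi2
      · intro h2
        have h3 : R i i' := hRtrans _ _ _ hi1 h2
        exact (hreq i hi i' hi' h3).symm
    rw [h1]
    exact (Nat.mul_le_mul_left 2 (card_boxExp _ _)).trans (hgood (r i) (hrGood i hi)).2.2

end orbit

end Pool.DynLehmer
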