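import Mathlib
import Pool.Agent.Lib.MP_2194ec_nt.RamA

set_option autoImplicit false

/-!
# Local lemmas: uniformizers of fixed fields, expansions
-/

namespace Pool.DynLehmer
open MvPolynomial NumberField
open scoped Classical

section places

variable {N : Type} [Field N] [NumberField N] (w : FinitePlace N)

theorem exists_pow_unif {π : N} (hπ1 : w π < 1) (hπ0 : π ≠ 0)
    (hmax : ∀ a, w a < 1 → w a ≤ w π) {a : N} (ha : a ≠ 0) (ha1 : w a ≤ 1) :
    ∃ k : ℕ, w a = (w π) ^ k := by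
  have hpos : 0 < w a := FinitePlace.pos_iff.2 ha
  have hπpos : 0 < w π := FinitePlace.pos_iff.2 hπ0
  have hex : ∃ k : ℕ, (w π) ^ k < w a := exists_pow_lt_of_lt_one hpos hπ1
  have hk := Nat.find_spec hex
  have hmin : ∀ {j}, j < Nat.find hex → ¬ (w π) ^ j < w a := fun hj => Nat.find_min hex hj
  set k := Nat.find hex with hkdef
  rcases Nat.eq_zero_or_pos k with h0 | h0
  · rw [h0, pow_zero] at hk
    exact absurd hk (not_lt.2 ha1)
  · obtain ⟨j, hj⟩ : ∃ j, k = j + 1 := ⟨k - 1, by omega⟩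
    have h1 := not_lt.1 (hmin (show j < k by omega))
    refine ⟨j, le_antisymm h1 ?_⟩
    by_contra hcon
    push Not at hcon
    have h2 : w (a / π ^ j) < 1 := by
      rw [map_div₀, map_pow, div_lt_one (pow_pos hπpos j)]
      exact hcon
    have h3 := hmax _ h2
    rw [map_div₀, map_pow, div_le_iff₀ (pow_pos hπpos j), ← pow_succ', ← hj] at h3
    exact absurd hk (not_lt.2 h3)

theorem exists_max_lt_one (S : Set N) (hS : ∃ c ∈ S, c ≠ 0 ∧ w c < 1) :
    ∃ t ∈ S, t ≠ 0 ∧ w t < 1 ∧ ∀ a ∈ S, w a < 1 → w a ≤ w t := by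
  obtain ⟨π, hπ0, hπ1, hmax⟩ := exists_unif w
  have hex : ∃ k : ℕ, ∃ a ∈ S, a ≠ 0 ∧ w a < 1 ∧ w a = (w π) ^ k := by
    obtain ⟨c, hc, hc0, hc1⟩ := hS
    obtain ⟨k, hk⟩ := exists_pow_unif w hπ1 hπ0 hmax hc0 hc1.le
    exact ⟨k, c, hc, hc0, hc1, hk⟩
  obtain ⟨t, ht, ht0, ht1, htk⟩ := Nat.find_spec hex
  refine ⟨t, ht, ht0, ht1, ?_⟩
  intro a ha ha1
  rcases eq_or_ne a 0 with rfl | ha0
  · rw [map_zero]; exact apply_nonneg w t
  · obtain ⟨j, hj⟩ := exists_pow_unif w hπ1 hπ0 hmax ha0 ha1.le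
    have h1 : Nat.find hex ≤ j := Nat.find_min' hex ⟨a, ha, ha0, ha1, hj⟩
    rw [htk, hj]
    exact pow_le_pow_of_le_one (apply_nonneg w π) hπ1.le h1

variable {K : Type} [Field K] [Algebra K N]

/-- automorphisms of finite order which preserve the valuation ring preserve the place -/
theorem place_inv (σ : N ≃ₐ[K] N) {n : ℕ} (hn : 1 ≤ n) (hσ : σ ^ n = 1)
    (h : ∀ a, w a ≤ 1 → w (σ a) ≤ 1) (a : N) : w (σ a) = w a := by
  have hit : ∀ (k : ℕ) (a : N), w a ≤ 1 → w ((σ ^ k) a) ≤ 1 := by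
    intro k
    induction k with
    | zero => intro a ha; simpa using ha
    | succ k ih =>
      intro a ha
      rw [pow_succ', AlgEquiv.mul_apply]
      exact h _ (ih a ha)
  obtain ⟨m, rfl⟩ : ∃ m, n = m + 1 := ⟨n - 1, by omega⟩
  have hinv : ∀ a, (σ ^ m) (σ a) = a := by
    intro a
    rw [← AlgEquiv.mul_apply, ← pow_succ, hσ]
    rfl
  have hinv' : ∀ a, σ ((σ ^ m) a) = a := by
    intro a
    rw [← AlgEquiv.mul_apply, ← pow_succ', hσ]
    rfl
  have hback : ∀ a, w (σ a) ≤ 1 → w a ≤ 1 := by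
    intro a ha
    have := hit m _ ha
    rwa [hinv] at this
  have hback' : ∀ a, w ((σ ^ m) a) ≤ 1 → w a ≤ 1 := by
    intro a ha
    have := h _ ha
    rwa [hinv'] at this
  -- strict inequalities for maps with this property
  have hlt : ∀ (τ : N ≃ₐ[K] N), (∀ a, w a ≤ 1 → w (τ a) ≤ 1) → (∀ a, w (τ a) ≤ 1 → w a ≤ 1) →
      ∀ a, w a < 1 → w (τ a) < 1 := by
    intro τ h1 h2 a ha
    by_contra hcon
    push Not at hcon
    have hτa : τ a ≠ 0 := by
      intro h0
      rw [h0, map_zero] at hcon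
      linarith
    have ha0 : a ≠ 0 := by
      rintro rfl
      exact hτa (map_zero τ)
    have h3 : w (τ a⁻¹) ≤ 1 := by
      rw [map_inv₀ τ, map_inv₀ w]
      exact inv_le_one_of_one_le₀ hcon
    have h4 := h2 _ h3
    rw [map_inv₀ w] at h4
    have hpos : 0 < w a := FinitePlace.pos_iff.2 ha0
    have h5 := (inv_le_one₀ hpos).1 h4
    linarith
  have hunit : ∀ a, w a = 1 → w (σ a) = 1 := by
    intro a ha
    apply le_antisymm (h a ha.le)
    by_contra hcon
    push Not at hcon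
    have h1 := hlt (σ ^ m) (hit m) hback' _ hcon
    rw [hinv, ha] at h1
    exact lt_irrefl _ h1
  obtain ⟨π, hπ0, hπ1, hmax⟩ := exists_unif w
  have hπpos : 0 < w π := FinitePlace.pos_iff.2 hπ0
  have hσπ0 : σ π ≠ 0 := by simpa using hπ0
  have hσπpos : 0 < w (σ π) := FinitePlace.pos_iff.2 hσπ0
  have hπeq : w (σ π) = w π := by
    apply le_antisymm (hmax _ (hlt σ h hback _ hπ1))
    have h1 := hmax _ (hlt (σ ^ m) (hit m) hback' _ hπ1)
    have h2 : w ((σ ^ m) π / π) ≤ 1 := by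
      rw [map_div₀]
      exact div_le_one_of_le₀ h1 hπpos.le
    have h3 := h _ h2
    rw [map_div₀ σ, hinv', map_div₀ w, div_le_one hσπpos] at h3
    exact h3
  have hle : ∀ a, a ≠ 0 → w a ≤ 1 → w (σ a) = w a := by
    intro a ha0 ha
    obtain ⟨k, hk⟩ := exists_pow_unif w hπ1 hπ0 hmax ha0 ha
    have h1 : w (a / π ^ k) = 1 := by
      rw [map_div₀, map_pow, hk, div_self (pow_pos hπpos k).ne']
    have h2 := hunit _ h1
    rw [map_div₀ σ, map_pow σ, map_div₀ w, map_pow w, hπeq,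
      div_eq_one_iff_eq (pow_pos hπpos k).ne'] at h2
    rw [h2, hk]
  rcases eq_or_ne a 0 with rfl | ha0
  · simp
  · rcases le_total (w a) 1 with h1 | h1
    · exact hle a ha0 h1
    · have h2 : w a⁻¹ ≤ 1 := by rw [map_inv₀]; exact inv_le_one_of_one_le₀ h1
      have h3 := hle a⁻¹ (inv_ne_zero ha0) h2
      rw [map_inv₀ σ, map_inv₀ w, map_inv₀ w, inv_inj] at h3
      exact h3

end places

section orbit

variable {K N : Type} [Field K] [Field N] [NumberField N] [Algebra K N] [FiniteDimensional K N]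
variable {w : FinitePlace N}

omit [NumberField N] in
theorem card_mul_relIndex' (J H : Subgroup (N ≃ₐ[K] N)) :
    (fin (J ⊓ H)).card * H.relIndex J = (fin J).card := by
  rw [card_fin, card_fin, ← Subgroup.inf_relIndex_left, ← Subgroup.relIndex_bot_left,
    ← Subgroup.relIndex_bot_left]
  exact Subgroup.relIndex_mul_relIndex _ _ _ bot_le inf_le_left

/-- ramification over the fixed field of a smaller group -/
theorem orbit_bound {J : Subgroup (N ≃ₐ[K] N)} (hJ1 : ∀ g ∈ J, ∀ a, w (g a) = w a) {E : ℕ} {c : ℝ}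
    (hJ2 : ∀ a, (∀ g ∈ J, g a = a) → w a < 1 → (w a) ^ E ≤ c) (H : Subgroup (N ≃ₐ[K] N))
    {a : N} (ha : ∀ g ∈ J ⊓ H, g a = a) (hwa : w a < 1) :
    (w a) ^ (H.relIndex J * E) ≤ c := by
  set O : Finset N := (fin J).image fun g => g a with hO
  have hOmem : ∀ y ∈ O, w y = w a := by
    intro y hy
    obtain ⟨g, hg, rfl⟩ := Finset.mem_image.1 hy
    exact hJ1 g (mem_fin.1 hg) a
  have hOpos : 1 ≤ O.card := Finset.card_pos.2 (Finset.Nonempty.image ⟨1, mem_fin.2 J.one_mem⟩ _)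
  set b : N := ∏ y ∈ O, y with hb
  have hwb : w b = (w a) ^ O.card := by
    rw [hb, map_prod, Finset.prod_congr rfl hOmem, Finset.prod_const]
  have hfix : ∀ g ∈ J, g b = b := by
    intro g hg
    rw [hb, map_prod]
    have h1 : O.image g = O := by
      apply Finset.eq_of_subset_of_card_le
      · intro y hy
        obtain ⟨y', hy', rfl⟩ := Finset.mem_image.1 hy
        obtain ⟨g', hg', rfl⟩ := Finset.mem_image.1 hy'
        rw [hO, Finset.mem_image]
        exact ⟨g * g', mem_fin.2 (J.mul_mem hg (mem_fin.1 hg')), rfl⟩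
      · rw [Finset.card_image_of_injective _ g.injective]
    conv_rhs => rw [← h1, Finset.prod_image (fun x _ y _ h => g.injective h)]
  have hcard : O.card ≤ H.relIndex J := by
    have h1 : O.card * (fin (J ⊓ H)).card ≤ (fin J).card := by
      rw [mul_comm]
      refine Finset.mul_card_image_le_card _ _ fun y hy => ?_
      obtain ⟨g0, hg0, rfl⟩ := Finset.mem_image.1 hy
      refine Finset.card_le_card_of_injOn (fun g => g0 * g) ?_ ?_
      · intro g hg
        rw [Finset.mem_coe, mem_fin] at hg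
        rw [Finset.mem_coe, Finset.mem_filter, mem_fin]
        refine ⟨J.mul_mem (mem_fin.1 hg0) hg.1, ?_⟩
        rw [AlgEquiv.mul_apply, ha g hg]
      · intro x _ y _ hxy
        exact mul_left_cancel hxy
    rw [← card_mul_relIndex' J H, mul_comm] at h1
    exact Nat.le_of_mul_le_mul_left h1 (card_fin_pos _)
  have h1 : w b < 1 := by
    rw [hwb]; exact pow_lt_one₀ (apply_nonneg w a) hwa (by omega)
  have h2 := hJ2 b hfix h1
  rw [hwb, ← pow_mul] at h2
  refine le_trans ?_ h2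
  exact pow_le_pow_of_le_one (apply_nonneg w a) hwa.le (Nat.mul_le_mul_right _ hcard)

omit [FiniteDimensional K N] in
/-- expansions in a uniformizer -/
theorem expansion {J H : Subgroup (N ≃ₐ[K] N)} (hHJ : H ≤ J)
    (hJ3 : ∀ b, w b ≤ 1 → ∃ a, (∀ g ∈ J, g a = a) ∧ w a ≤ 1 ∧ w (b - a) < 1)
    {t : N} (ht0 : t ≠ 0) (htfix : ∀ g ∈ H, g t = t)
    (htmax : ∀ a, (∀ g ∈ H, g a = a) → w a < 1 → w a ≤ w t) (n : ℕ) :
    ∀ y : N, (∀ g ∈ H, g y = y) → w y ≤ 1 →
    ∃ a : ℕ → N, (∀ i, ∀ g ∈ J, g (a i) = a i) ∧ (∀ i, w (a i) ≤ 1) ∧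
      ∃ z, w z ≤ 1 ∧ y = ∑ i ∈ Finset.range n, a i * t ^ i + t ^ n * z := by
  induction n with
  | zero =>
    intro y _ hy1
    exact ⟨fun _ => 0, fun _ _ _ => map_zero _, fun _ => by simp, y, hy1, by simp⟩
  | succ n ih =>
    intro y hy hy1
    obtain ⟨a0, ha0, ha01, hya⟩ := hJ3 y hy1
    have hwt : 0 < w t := FinitePlace.pos_iff.2 ht0
    have hfix : ∀ g ∈ H, g (y - a0) = y - a0 := by
      intro g hg
      rw [map_sub, hy g hg, ha0 g (hHJ hg)]
    have h1 := htmax _ hfix hya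
    have h2 : w ((y - a0) / t) ≤ 1 := by
      rw [map_div₀]
      exact div_le_one_of_le₀ h1 hwt.le
    obtain ⟨a, ha, ha1, z, hz, hz'⟩ := ih ((y - a0) / t)
      (fun g hg => by rw [map_div₀, hfix g hg, htfix g hg]) h2
    refine ⟨fun i => Nat.casesOn i a0 a, ?_, ?_, z, hz, ?_⟩
    · rintro (_ | i) g hg
      · exact ha0 g hg
      · exact ha i g hg
    · rintro (_ | i)
      · exact ha01
      · exact ha1 i
    · rw [Finset.sum_range_succ']
      have h3 : y = a0 + t * ((y - a0) / t) := by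
        rw [mul_div_cancel₀ _ ht0]; ring
      rw [hz', mul_add, Finset.mul_sum] at h3
      conv_lhs => rw [h3]
      have h4 : ∑ i ∈ Finset.range n, t * (a i * t ^ i) =
          ∑ k ∈ Finset.range n, a k * t ^ (k + 1) :=
        Finset.sum_congr rfl fun i _ => by ring
      rw [h4]
      change _ = ∑ k ∈ Finset.range n, a k * t ^ (k + 1) + a0 * t ^ 0 + t ^ (n + 1) * z
      ring

end orbit

end Pool.DynLehmer
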