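import Mathlib
import Pool.Agent.Lib.MP_2194ec_nt.GenLocal

set_option autoImplicit false

/-!
# The normal form of the iterates modulo the uniformizer of the base
-/

namespace Pool.DynLehmer
open MvPolynomial NumberField
open scoped Classical

section normal

variable {K : Type} [Field K] [NumberField K] {N : Type} [Field N] [NumberField N] [Algebra K N]
variable {p s : ℕ} {ι : Type} [Fintype ι] [DecidableEq ι]
variable {v : FinitePlace K} {w : FinitePlace N} {e : ℕ} (Φ : GF (OW v) p s ι)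

theorem charP_quot (h : Above v w e) (hϖ : v (Φ.ϖ : K) < 1) (hp : p.Prime) :
    CharP (OW w ⧸ IW w (w (toN v N Φ.ϖ)) (apply_nonneg w _)) p := by
  have hnt : Nontrivial (OW w ⧸ IW w (w (toN v N Φ.ϖ)) (apply_nonneg w _)) := by
    apply Ideal.Quotient.nontrivial_iff.2
    intro h0
    have h1 : (1 : OW w) ∈ IW w (w (toN v N Φ.ϖ)) (apply_nonneg w _) := by rw [h0]; trivial
    rw [mem_IW] at h1
    have h2 := gw_unif Φ h hϖ
    simp only [OneMemClass.coe_one, map_one] at h1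
    linarith
  rw [CharP.charP_iff_prime_eq_zero hp]
  have h1 : ((p : ℕ) : OW w ⧸ IW w (w (toN v N Φ.ϖ)) (apply_nonneg w _)) =
      Ideal.Quotient.mk _ (toOW h ((p : ℕ) : OW v)) := by simp
  rw [h1, Ideal.Quotient.eq_zero_iff_mem, Φ.hp, map_mul]
  apply Ideal.mul_mem_right
  rw [mem_IW]
  exact le_rfl

theorem normal_form (h : Above v w e) (hϖ : v (Φ.ϖ : K) < 1) (hϖ0 : (Φ.ϖ : K) ≠ 0)
    (hp : p.Prime) (m : ℕ) (x : ι → OW w) {n : ℕ} (A : ι → ℕ → OW w) (t : OW w) (zz : ι → OW w)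
    (ht : w (t : N) ^ n ≤ w (toN v N Φ.ϖ))
    (hx : ∀ l, x l = ∑ a ∈ Finset.range n, A l a * t ^ a + t ^ n * zz l) :
    ∃ z : ι → OW w, ∀ j, (Φ.map (toOW h)).act^[m] x j =
      ∑ a ∈ Finset.range n, (∑ l, toOW h (gGk (p ^ s) Φ.g m j l) * (A l a) ^ ((p ^ s) ^ m)) *
        (t ^ ((p ^ s) ^ m)) ^ a + toOW h Φ.ϖ * z j := by
  have hchar := charP_quot Φ h hϖ hp
  have hfact : Fact p.Prime := ⟨hp⟩
  set I := IW w (w (toN v N Φ.ϖ)) (apply_nonneg w _) with hI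
  set mk := Ideal.Quotient.mk I with hmk
  have hϖI : mk (toOW h Φ.ϖ) = 0 := by
    rw [hmk, Ideal.Quotient.eq_zero_iff_mem, hI, mem_IW]
    exact le_rfl
  have hlin : ∀ z : ι → (OW w ⧸ I), (Φ.map (mk.comp (toOW h))).act z =
      glin (p ^ s) Φ.g (mk.comp (toOW h)) z := by
    intro z
    ext i
    rw [GF.act_apply]
    have h1 : (Φ.map (mk.comp (toOW h))).ϖ = 0 := hϖI
    rw [h1, zero_mul, add_zero]
    rfl
  have h1 : ∀ j, mk ((Φ.map (toOW h)).act^[m] x j) =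
      ∑ l, mk (toOW h (gGk (p ^ s) Φ.g m j l)) * mk (x l) ^ ((p ^ s) ^ m) := by
    intro j
    have h2 := congrFun ((Φ.map (toOW h)).map_act_iter mk m x) j
    rw [GF.map_map_act, show (Φ.map (mk.comp (toOW h))).act =
      glin (p ^ s) Φ.g (mk.comp (toOW h)) from funext hlin, glin_iter hp] at h2
    exact h2
  have ht' : mk (t ^ n) = 0 := by
    rw [hmk, Ideal.Quotient.eq_zero_iff_mem, hI, mem_IW, SubmonoidClass.coe_pow, map_pow]
    exact ht
  have hxm : ∀ l, mk (x l) ^ ((p ^ s) ^ m) =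
      ∑ a ∈ Finset.range n, mk (A l a) ^ ((p ^ s) ^ m) * (mk t ^ ((p ^ s) ^ m)) ^ a := by
    intro l
    rw [hx l, map_add, map_mul, ht', zero_mul, add_zero, map_sum, ← pow_mul, sum_pow_char_pow]
    refine Finset.sum_congr rfl fun a _ => ?_
    rw [map_mul, map_pow, mul_pow, ← pow_mul, ← pow_mul, mul_comm a]
  have hdiff : ∀ j, w ((((Φ.map (toOW h)).act^[m] x j -
      ∑ a ∈ Finset.range n, (∑ l, toOW h (gGk (p ^ s) Φ.g m j l) * (A l a) ^ ((p ^ s) ^ m)) *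
        (t ^ ((p ^ s) ^ m)) ^ a : OW w)) : N) ≤ w (toN v N Φ.ϖ) := by
    intro j
    have h3 : (Φ.map (toOW h)).act^[m] x j -
      ∑ a ∈ Finset.range n, (∑ l, toOW h (gGk (p ^ s) Φ.g m j l) * (A l a) ^ ((p ^ s) ^ m)) *
        (t ^ ((p ^ s) ^ m)) ^ a ∈ I := by
      rw [← Ideal.Quotient.mk_eq_mk_iff_sub_mem]
      change mk _ = mk _
      rw [h1 j, map_sum]
      simp_rw [hxm, Finset.mul_sum, map_mul, map_sum, map_mul, map_pow, Finset.sum_mul]
      rw [Finset.sum_comm]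
      refine Finset.sum_congr rfl fun a _ => Finset.sum_congr rfl fun l _ => ?_
      ring
    exact h3
  have hπ0 : toN v N Φ.ϖ ≠ 0 := by
    change algebraMap K N (Φ.ϖ : K) ≠ 0
    simpa using hϖ0
  have hwπ : 0 < w (toN v N Φ.ϖ) := FinitePlace.pos_iff.2 hπ0
  refine ⟨fun j => ⟨(((Φ.map (toOW h)).act^[m] x j -
      ∑ a ∈ Finset.range n, (∑ l, toOW h (gGk (p ^ s) Φ.g m j l) * (A l a) ^ ((p ^ s) ^ m)) *
        (t ^ ((p ^ s) ^ m)) ^ a : OW w) : N) / toN v N Φ.ϖ, ?_⟩, ?_⟩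
  · rw [mem_OW, map_div₀]
    exact div_le_one_of_le₀ (hdiff j) hwπ.le
  · intro j
    rw [← sub_eq_iff_eq_add']
    apply Subtype.ext
    rw [Subring.coe_mul]
    change _ = toN v N Φ.ϖ * _
    rw [mul_div_cancel₀ _ hπ0]

end normal

end Pool.DynLehmer
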