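import Mathlib
import Pool.Agent.Lib.MP_2194ec_nt.Local

set_option autoImplicit false

/-!
# Frobenius elements and finite places
-/

namespace Pool.DynLehmer
open NumberField IsDedekindDomain
open scoped Classical Pointwise

section places

variable {K : Type} [Field K] [NumberField K] {L : Type} [Field L] [NumberField L] [Algebra K L]

omit [NumberField K] [Algebra K L] in
theorem place_lt_one_iff (w : FinitePlace L) (x : 𝓞 L) :
    w (x : L) < 1 ↔ x ∈ w.maximalIdeal.asIdeal := by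
  rw [← FinitePlace.norm_lt_one_iff_mem L w.maximalIdeal x, FinitePlace.norm_embedding_eq]

omit [NumberField K] [Algebra K L] in
theorem place_int_le (w : FinitePlace L) (x : 𝓞 L) : w (x : L) ≤ 1 := int_le_one w x

omit [NumberField K] in
/-- a Frobenius congruence on integers extends to the valuation ring -/
theorem frob_place (σ : L ≃ₐ[K] L) (w : FinitePlace L) (Q : ℕ)
    (h : ∀ x : 𝓞 L, σ • x - x ^ Q ∈ w.maximalIdeal.asIdeal) :
    ∀ a : L, w a ≤ 1 → w (σ a - a ^ Q) < 1 := by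
  intro a ha
  have hval : (w.maximalIdeal).valuation L a ≤ 1 := by
    rw [← mk_le_one_iff, FinitePlace.mk_maximalIdeal]; exact ha
  obtain ⟨n, d, hnd⟩ := w.maximalIdeal.exists_primeCompl_mul_eq_of_integer a hval
  have hd : (d : 𝓞 L) ∉ w.maximalIdeal.asIdeal := d.2
  have hP := w.maximalIdeal.isPrime
  have hσd : σ • (d : 𝓞 L) ∉ w.maximalIdeal.asIdeal := by
    intro h0
    have h1 := Ideal.sub_mem _ h0 (h d)
    rw [sub_sub_cancel] at h1
    exact hd (hP.mem_of_pow_mem _ h1)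
  have hwd : w ((d : 𝓞 L) : L) = 1 :=
    le_antisymm (place_int_le w _) (not_lt.1 fun h0 => hd ((place_lt_one_iff w _).1 h0))
  have hwσd : w (σ ((d : 𝓞 L) : L)) = 1 :=
    le_antisymm (place_int_le w (σ • (d : 𝓞 L)))
      (not_lt.1 fun h0 => hσd ((place_lt_one_iff w (σ • (d : 𝓞 L))).1 h0))
  have hnd' : a * ((d : 𝓞 L) : L) = (n : L) := hnd
  have hσnd : σ a * σ ((d : 𝓞 L) : L) = σ (n : L) := by rw [← map_mul, hnd']
  have e1 : (σ a - a ^ Q) * (σ ((d : 𝓞 L) : L) * ((d : 𝓞 L) : L) ^ Q) =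
      ((((σ • n - n ^ Q) * (d : 𝓞 L) ^ Q + n ^ Q * ((d : 𝓞 L) ^ Q - σ • (d : 𝓞 L)) : 𝓞 L)) : L) := by
    have e2 : ((((σ • n - n ^ Q) * (d : 𝓞 L) ^ Q +
        n ^ Q * ((d : 𝓞 L) ^ Q - σ • (d : 𝓞 L)) : 𝓞 L)) : L) =
        (σ (n : L) - (n : L) ^ Q) * ((d : 𝓞 L) : L) ^ Q +
        (n : L) ^ Q * (((d : 𝓞 L) : L) ^ Q - σ ((d : 𝓞 L) : L)) := by
      simp only [map_add, map_mul, map_sub, map_pow]
      rfl
    rw [e2, ← hσnd, ← hnd']
    ring
  have h2 : w (((((σ • n - n ^ Q) * (d : 𝓞 L) ^ Q +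
      n ^ Q * ((d : 𝓞 L) ^ Q - σ • (d : 𝓞 L)) : 𝓞 L)) : L)) < 1 := by
    rw [place_lt_one_iff]
    refine Ideal.add_mem _ (Ideal.mul_mem_right _ _ (h n)) (Ideal.mul_mem_left _ _ ?_)
    have := Ideal.neg_mem_iff _ |>.2 (h d)
    rwa [neg_sub] at this
  rw [← e1, map_mul, map_mul, hwσd, map_pow, hwd, one_pow, mul_one, mul_one] at h2
  exact h2

variable {v : FinitePlace K} {w : FinitePlace L} {e : ℕ}

theorem above_under (h : Above v w e) :
    w.maximalIdeal.asIdeal.under (𝓞 K) = v.maximalIdeal.asIdeal := by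
  ext x
  rw [Ideal.mem_comap, ← place_lt_one_iff, ← place_lt_one_iff]
  have h1 : (((algebraMap (𝓞 K) (𝓞 L) x : 𝓞 L)) : L) = algebraMap K L (x : K) := rfl
  rw [h1, h.2]
  constructor
  · intro h2
    by_contra hcon
    push Not at hcon
    exact absurd h2 (not_lt.2 (one_le_pow₀ hcon))
  · intro h2
    exact pow_lt_one₀ (apply_nonneg v _) h2 h.1.ne'

theorem above_liesOver (h : Above v w e) :
    w.maximalIdeal.asIdeal.LiesOver v.maximalIdeal.asIdeal := ⟨(above_under h).symm⟩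

/-- the ramification bound -/
theorem ram_bound (h : Above v w e) {ϖ : K} (hϖ : ∀ a : K, v a < 1 → v a ≤ v ϖ) {E : ℕ}
    (hE : ¬ (v.maximalIdeal.asIdeal.map (algebraMap (𝓞 K) (𝓞 L)) ≤
      w.maximalIdeal.asIdeal ^ (E + 1))) (a : L) (ha : w a < 1) :
    (w a) ^ E ≤ w (algebraMap K L ϖ) := by
  have hlo := above_liesOver h
  set e' := Ideal.ramificationIdx' v.maximalIdeal.asIdeal w.maximalIdeal.asIdeal with he'
  have heE : e' ≤ E := by
    by_contra hcon
    push Not at hcon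
    exact hE (Ideal.le_pow_ramificationIdx'.trans (Ideal.pow_le_pow_right hcon))
  have hw : FinitePlace.mk w.maximalIdeal = w := FinitePlace.mk_maximalIdeal w
  have hv : FinitePlace.mk v.maximalIdeal = v := FinitePlace.mk_maximalIdeal v
  rw [← map_pow, ← hw, mk_le_iff, ← HeightOneSpectrum.valuation_liesOver L v.maximalIdeal]
  obtain ⟨π, hπ⟩ := v.maximalIdeal.valuation_exists_uniformizer K
  have h1 : v.maximalIdeal.valuation K π ≤ v.maximalIdeal.valuation K ϖ := by
    rw [← mk_le_iff, hv]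
    apply hϖ
    rw [← hv, mk_lt_one_iff, hπ, ← WithZero.exp_zero, WithZero.exp_lt_exp]
    norm_num
  have h2 : w.maximalIdeal.valuation L a ≤ WithZero.exp (-1 : ℤ) := by
    have h3 : w.maximalIdeal.valuation L a < 1 := by rw [← mk_lt_one_iff, hw]; exact ha
    rcases eq_or_ne (w.maximalIdeal.valuation L a) 0 with h0 | h0
    · rw [h0]; exact zero_le
    · rw [← WithZero.exp_log h0, ← WithZero.exp_zero, WithZero.exp_lt_exp] at h3
      rw [← WithZero.exp_log h0, WithZero.exp_le_exp]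
      omega
  rw [map_pow]
  calc (w.maximalIdeal.valuation L a) ^ E ≤ (WithZero.exp (-1 : ℤ)) ^ E :=
        pow_le_pow_left₀ zero_le h2 E
    _ ≤ (WithZero.exp (-1 : ℤ)) ^ e' := by
        apply pow_le_pow_right_of_le_one' _ heE
        rw [← WithZero.exp_zero, WithZero.exp_le_exp]; norm_num
    _ ≤ (v.maximalIdeal.valuation K ϖ) ^ e' := by
        rw [← hπ]
        exact pow_le_pow_left₀ zero_le h1 e'

end places

end Pool.DynLehmer
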