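import Mathlib
import Pool.Agent.Lib.MP_2194ec_nt.Local

set_option autoImplicit false

/-!
# From polynomials to `FF` data
-/

namespace Pool.DynLehmer
open MvPolynomial NumberField
open scoped Classical

section model

variable {K : Type} [Field K] [NumberField K]

theorem single_zero_ne (q : ℕ) (hq : q ≠ 0) :
    (Finsupp.single 0 q : Fin 2 →₀ ℕ) ≠ Finsupp.single 1 q := by
  intro h
  have := DFunLike.congr_fun h 0
  simp at this
  exact hq this

theorem exists_FF (v : FinitePlace K) {p s : ℕ} (hp : p.Prime)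
    (F : Fin 2 → MvPolynomial (Fin 2) K) (hF : ∀ i, (F i).IsHomogeneous (p ^ s))
    (hv : v (p : K) < 1) (hint : ∀ i t, v (coeff t (F i)) ≤ 1)
    (hred : ∀ i t, t ≠ Finsupp.single 0 (p ^ s) → t ≠ Finsupp.single 1 (p ^ s) →
      v (coeff t (F i)) < 1)
    (hdet : v (coeff (Finsupp.single 0 (p ^ s)) (F 0) * coeff (Finsupp.single 1 (p ^ s)) (F 1) -
      coeff (Finsupp.single 1 (p ^ s)) (F 0) * coeff (Finsupp.single 0 (p ^ s)) (F 1)) = 1) :
    ∃ Φ : FF (OW v) p s, (∀ i, map (OW v).subtype (Φ.F i) = F i) ∧ (Φ.ϖ : K) ≠ 0 ∧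
      v (Φ.ϖ : K) < 1 ∧ ∀ a : K, v a < 1 → v a ≤ v (Φ.ϖ : K) := by
  have hq : p ^ s ≠ 0 := pow_ne_zero _ hp.ne_zero
  obtain ⟨ϖ, hϖ0, hϖ1, hϖ⟩ := exists_unif v
  have hvϖ : 0 < v ϖ := FinitePlace.pos_iff.2 hϖ0
  set g : Matrix (Fin 2) (Fin 2) (OW v) := fun i j =>
    ⟨coeff (Finsupp.single j (p ^ s)) (F i), hint i _⟩ with hg
  -- determinant
  have hgdet : v ((g.det : OW v) : K) = 1 := by
    rw [Matrix.det_fin_two]
    simpa [hg] using hdet
  have hdet0 : ((g.det : OW v) : K) ≠ 0 := by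
    rw [← FinitePlace.pos_iff (w := v), hgdet]; exact one_pos
  set u : OW v := ⟨((g.det : OW v) : K)⁻¹, by rw [mem_OW, map_inv₀, hgdet, inv_one]⟩ with hu
  have hug : g.det * u = 1 := by
    ext
    simp only [hu, Subring.coe_mul, Subring.coe_one]
    exact mul_inv_cancel₀ hdet0
  -- error terms
  set EK : Fin 2 → MvPolynomial (Fin 2) K := fun i =>
    C ϖ⁻¹ * (F i - (C (coeff (Finsupp.single 0 (p ^ s)) (F i)) * X 0 ^ (p ^ s) +
      C (coeff (Finsupp.single 1 (p ^ s)) (F i)) * X 1 ^ (p ^ s))) with hEK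
  have hEKhom : ∀ i, (EK i).IsHomogeneous (p ^ s) := by
    intro i
    refine IsHomogeneous.C_mul ?_ _
    exact (hF i).sub ((isHomogeneous_C_mul_X_pow _ _ _).add (isHomogeneous_C_mul_X_pow _ _ _))
  have hEKint : ∀ i t, coeff t (EK i) ∈ OW v := by
    intro i t
    rw [mem_OW]
    simp only [hEK, coeff_C_mul, coeff_sub, coeff_add, coeff_X_pow]
    rw [map_mul, map_inv₀, inv_mul_le_iff₀ hvϖ, mul_one]
    apply hϖ
    by_cases h0 : t = Finsupp.single 0 (p ^ s)
    · subst h0
      rw [if_pos rfl, if_neg (single_zero_ne _ hq).symm]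
      simp
    · by_cases h1 : t = Finsupp.single 1 (p ^ s)
      · subst h1
        rw [if_pos rfl, if_neg (single_zero_ne _ hq)]
        simp
      · rw [if_neg (Ne.symm h0), if_neg (Ne.symm h1)]
        simpa using hred i t h0 h1
  have hEex : ∀ i, ∃ E : MvPolynomial (Fin 2) (OW v), map (OW v).subtype E = EK i := by
    intro i
    have h2 : EK i ∈ Set.range (map (σ := Fin 2) (OW v).subtype) := by
      rw [mem_range_map_iff_coeffs_subset]
      intro a ha
      rw [Finset.mem_coe, mem_coeffs_iff] at ha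
      obtain ⟨t, _, rfl⟩ := ha
      exact ⟨⟨_, hEKint i t⟩, rfl⟩
    exact h2
  choose E hE using hEex
  have hc : v ((p : K) / ϖ) ≤ 1 := by
    rw [map_div₀]
    exact div_le_one_of_le₀ (hϖ _ hv) hvϖ.le
  refine ⟨{
    g := g
    ginv := u • g.adjugate
    gg := by
      rw [Matrix.mul_smul, Matrix.mul_adjugate, smul_smul, mul_comm u, hug, one_smul]
    ϖ := ⟨ϖ, hϖ1.le⟩
    c := ⟨(p : K) / ϖ, hc⟩
    hp := by
      ext
      simp only [Subring.coe_mul]
      rw [mul_div_cancel₀ _ hϖ0]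
      simp
    E := E
    hE := fun i => IsHomogeneous.of_map (f := (OW v).subtype) Subtype.val_injective
      (by rw [hE i]; exact hEKhom i) }, ?_, hϖ0, hϖ1, hϖ⟩
  intro i
  rw [FF.F]
  simp only [map_add, map_mul, map_C, map_pow, map_X, hE]
  simp only [hg, hEK, Subring.subtype_apply]
  have h1 : ∀ a : MvPolynomial (Fin 2) K, C ϖ * (C ϖ⁻¹ * a) = a := by
    intro a
    rw [← mul_assoc, ← C_mul, mul_inv_cancel₀ hϖ0, C_1, one_mul]
  rw [h1]
  ring

theorem act_eq_aeval {v : FinitePlace K} {p s : ℕ} (Φ : FF (OW v) p s)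
    (F : Fin 2 → MvPolynomial (Fin 2) K) (h : ∀ i, map (OW v).subtype (Φ.F i) = F i)
    (N : Type) [Field N] [NumberField N] [Algebra K N] :
    (Φ.map (toN v N)).act = fun (y : Fin 2 → N) i => aeval y (F i) := by
  ext y i
  rw [FF.act, FF.map_F, ← h, toN, ← MvPolynomial.map_map, eval_map]
  rfl

/-- good reduction: no common zeros -/
theorem no_common_zero {v : FinitePlace K} {p s : ℕ} (hp : p.Prime) (Φ : FF (OW v) p s)
    (hϖ : v (Φ.ϖ : K) < 1)
    (F : Fin 2 → MvPolynomial (Fin 2) K) (h : ∀ i, map (OW v).subtype (Φ.F i) = F i)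
    (z : Fin 2 → AlgebraicClosure K) (hz : ∀ i, aeval z (F i) = 0) : z = 0 := by
  by_contra hne
  set N := IntermediateField.adjoin K (Set.range z) with hN
  have hfd : FiniteDimensional K N :=
    IntermediateField.finiteDimensional_adjoin fun x _ => Algebra.IsIntegral.isIntegral x
  have hnf : NumberField N := NumberField.of_module_finite K N
  set z' : Fin 2 → N := fun i => ⟨z i, IntermediateField.subset_adjoin K _ ⟨i, rfl⟩⟩ with hz'
  have hz'0 : z' ≠ 0 := by
    intro h0
    apply hne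
    ext i
    exact congrArg Subtype.val (congrFun h0 i)
  obtain ⟨S, e, he, hS, hsum⟩ := places_above (N := N) v.maximalIdeal
  have hne : S.Nonempty := by
    rw [Finset.nonempty_iff_ne_empty]
    intro h0
    rw [h0, Finset.sum_empty] at hsum
    exact (Module.finrank_pos (R := K) (M := N)).ne hsum
  obtain ⟨w, hw⟩ := hne
  have habove : Above v w (e w) := by
    refine ⟨he w hw, fun a => ?_⟩
    have := hS w hw a
    rwa [FinitePlace.mk_maximalIdeal] at this
  apply act_ne_zero Φ habove hϖ (pow_ne_zero _ hp.ne_zero) z' hz'0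
  rw [act_eq_aeval Φ F h N]
  funext i
  have h1 : algebraMap N (AlgebraicClosure K) (aeval z' (F i)) = aeval z (F i) := by
    rw [← MvPolynomial.aeval_algebraMap_apply]
    rfl
  rw [hz i] at h1
  exact (map_eq_zero (algebraMap N (AlgebraicClosure K))).1 h1

end model

end Pool.DynLehmer
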