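import Mathlib
import Pool.Agent.Lib.MP_2194ec_nt.Assemble
import Pool.Agent.Lib.MP_2194ec_nt.Core
import Pool.Agent.Lib.MP_2194ec_nt.Model
import Pool.Agent.Lib.MP_2194ec_nt.Morphism

set_option autoImplicit false

/-!
# The lower bound for one map
-/

namespace Pool.DynLehmer
open MvPolynomial NumberField Filter Topology
open scoped Classical

/-- the action of a pair of forms on vectors -/
noncomputable def fAct {K : Type} [Field K] (F : Fin 2 → MvPolynomial (Fin 2) K) (L : Type)
    [Field L] [Algebra K L] (y : Fin 2 → L) : Fin 2 → L := fun i => aeval y (F i)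

section general

variable {K : Type} [Field K] (F : Fin 2 → MvPolynomial (Fin 2) K)

theorem fAct_map {L N : Type} [Field L] [Field N] [Algebra K L] [Algebra K N] (φ : L →ₐ[K] N)
    (y : Fin 2 → L) : fAct F N (fun i => φ (y i)) = fun i => φ (fAct F L y i) := by
  funext i
  exact (comp_aeval_apply φ (f := y) (F i)).symm

theorem fAct_iter_map {L N : Type} [Field L] [Field N] [Algebra K L] [Algebra K N]
    (φ : L →ₐ[K] N) (k : ℕ) (y : Fin 2 → L) :
    (fAct F N)^[k] (fun i => φ (y i)) = fun i => φ ((fAct F L)^[k] y i) := by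
  induction k with
  | zero => rfl
  | succ k ih => rw [Function.iterate_succ_apply', Function.iterate_succ_apply', ih, fAct_map]

end general

variable {K : Type} [Field K] [NumberField K]

/-- orbit sizes are bounded by the degree -/
theorem card_orb_le {L N : Type} [Field L] [NumberField L] [Field N] [NumberField N]
    [Algebra K L] [Algebra K N] [Algebra L N] [IsScalarTower K L N] [IsGalois K N]
    (x : Fin 2 → L) (hx : x ≠ 0) :
    (orb (N ≃ₐ[K] N) (nz (fun i => algebraMap L N (x i)))).card ≤ Module.finrank K L := by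
  have hx' : (fun i => algebraMap L N (x i)) ≠ 0 := by
    intro h0
    apply hx
    funext i
    exact (map_eq_zero (algebraMap L N)).1 (congrFun h0 i)
  have hcard : Fintype.card (L →ₐ[K] N) ≤ Module.finrank K L := by
    have h1 := (linearIndependent_toLinearMap K L N).fintype_card_le_finrank
    rwa [Module.finrank_linearMap_self] at h1
  refine le_trans ?_ hcard
  rw [← Finset.card_univ]
  refine le_trans (Finset.card_le_card (t := Finset.univ.image
    (fun φ : L →ₐ[K] N => nz (fun i => φ (x i)))) ?_) Finset.card_image_le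
  intro y hy
  obtain ⟨σ, rfl⟩ := mem_orb.1 hy
  rw [Finset.mem_image]
  refine ⟨(σ : N →ₐ[K] N).comp (IsScalarTower.toAlgHom K L N), Finset.mem_univ _, ?_⟩
  obtain ⟨c, hc, h3⟩ := nz_spec hx'
  have h4 : (fun i => ((σ : N →ₐ[K] N).comp (IsScalarTower.toAlgHom K L N)) (x i)) =
      σ c • (σ • nz (fun i => algebraMap L N (x i))).val := by
    funext i
    change σ ((fun i => algebraMap L N (x i)) i) = _
    conv_lhs => rw [h3]
    change σ (c * _) = _
    rw [map_mul]
    rfl
  rw [h4, nz_smul (by simpa using hc) _ (Pt.ne_zero _), nz_val]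

/-- the places above `v` -/
theorem exists_above (v : FinitePlace K) (N : Type) [Field N] [NumberField N] [Algebra K N] :
    ∃ (S : Finset (FinitePlace N)) (e : FinitePlace N → ℕ), (∀ w ∈ S, Above v w (e w)) ∧
      ∑ w ∈ S, e w = Module.finrank K N := by
  obtain ⟨S, e, he, hS, hsum⟩ := places_above (N := N) v.maximalIdeal
  refine ⟨S, e, fun w hw => ⟨he w hw, fun a => ?_⟩, hsum⟩
  have := hS w hw a
  rwa [FinitePlace.mk_maximalIdeal] at this

theorem logHeight_nz {N : Type} [Field N] [NumberField N] {z : Fin 2 → N} (hz : z ≠ 0) :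
    Height.logHeight (nz z).val = Height.logHeight z := by
  obtain ⟨c, hc, h⟩ := nz_spec hz
  conv_rhs => rw [h]
  rw [Height.logHeight_smul_eq_logHeight _ hc]

theorem nz_eq_iff_br {N : Type} [Field N] {z z' : Fin 2 → N} (hz : z ≠ 0) (hz' : z' ≠ 0) :
    nz z = nz z' ↔ br z z' = 0 := by
  obtain ⟨c, hc, h⟩ := nz_spec hz
  obtain ⟨c', hc', h'⟩ := nz_spec hz'
  rw [← Pt.br_eq_zero]
  conv_rhs => rw [h, h']
  rw [br_smul_smul]
  simp [hc, hc']

/-- **The lower bound for a map with purely inseparable good reduction.** -/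
theorem core_bound {p s : ℕ} (hp : p.Prime) (hs : 1 ≤ s) (v : FinitePlace K)
    (Φ : FF (OW v) p s) (hϖ : v (Φ.ϖ : K) < 1) (hϖ0 : (Φ.ϖ : K) ≠ 0)
    (hunif : ∀ a : K, v a < 1 → v a ≤ v (Φ.ϖ : K))
    (F : Fin 2 → MvPolynomial (Fin 2) K) (hF : ∀ i, (F i).IsHomogeneous (p ^ s))
    (hΦF : ∀ i, map (OW v).subtype (Φ.F i) = F i) :
    ∃ A B : ℝ, 0 < A ∧ 0 < B ∧ ∀ (L : Type) [Field L] [NumberField L] [Algebra K L]
      (x : Fin 2 → L), x ≠ 0 →
      (∀ m n : ℕ, m ≠ n → br ((fAct F L)^[m] x) ((fAct F L)^[n] x) ≠ 0) →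
      ∃ h : ℝ, Tendsto (fun n : ℕ => Height.logHeight ((fAct F L)^[n] x) /
        (Module.finrank ℚ L : ℝ) / ((p ^ s : ℕ) : ℝ) ^ n) atTop (𝓝 h) ∧
        A / (Module.finrank K L : ℝ) *
          Real.exp (-(B * √(Real.log (Module.finrank K L : ℝ)))) ≤ h := by
  have hq2 : 2 ≤ p ^ s := hp.two_le.trans (Nat.le_self_pow (by omega) p)
  obtain ⟨m, hm1, hm⟩ := exists_goodExp Φ hϖ hp
  obtain ⟨C, hC0, hC⟩ := height_morphism F (p ^ s) hF (no_common_zero hp Φ hϖ F hΦF)
  set Λ : ℝ := - Real.log (v (Φ.ϖ : K)) / Module.finrank ℚ K with hΛ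
  have hKpos : (0 : ℝ) < Module.finrank ℚ K := by exact_mod_cast Module.finrank_pos
  have hΛ0 : 0 < Λ := div_pos (neg_pos.2 (Real.log_neg (FinitePlace.pos_iff.2 hϖ0) hϖ)) hKpos
  have hA := EData.Ac_pos (C := C) (Λ := Λ) hq2 hC0 hΛ0
  have hB1 := EData.B1_ge_one (C := C) (Λ := Λ) hq2 hC0 hΛ0
  have hB2 : 0 ≤ EData.B2 (p ^ s) m C Λ := by
    unfold EData.B2
    positivity
  refine ⟨EData.Ac (p ^ s) C Λ * Real.exp (-(EData.B2 (p ^ s) m C Λ + 2)),
    EData.B2 (p ^ s) m C Λ + 2, by positivity, by linarith, ?_⟩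
  intro L _ _ _ x hx hwand
  -- the Galois closure
  let N := IntermediateField.normalClosure K L (AlgebraicClosure L)
  have hfdKL : FiniteDimensional K L := Module.Finite.of_restrictScalars_finite ℚ K L
  have hfd : FiniteDimensional K N := normalClosure.is_finiteDimensional K L (AlgebraicClosure L)
  have hNnf : NumberField N := NumberField.of_module_finite K N
  have hnormal : Normal K N := normalClosure.normal K L (AlgebraicClosure L)
  have hgal : IsGalois K N := ⟨⟩
  obtain ⟨S, e, hS, hsum⟩ := exists_above v N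
  have hact : (Φ.map (toN v N)).act = fAct F N := act_eq_aeval Φ F hΦF N
  have hCN : ∀ z : Fin 2 → N, |Height.logHeight ((Φ.map (toN v N)).act z) -
      ((p ^ s : ℕ) : ℝ) * Height.logHeight z| ≤ C * Module.finrank ℚ N := by
    intro z
    rw [hact]
    exact hC N z
  obtain ⟨D, hDf, hDh⟩ := exists_EData (N := N) Φ hϖ hϖ0 hunif hp hs hm S e hS hsum C hCN
  have hne : S.Nonempty := by
    rw [Finset.nonempty_iff_ne_empty]
    intro h0
    rw [h0, Finset.sum_empty] at hsum
    exact (Module.finrank_pos (R := K) (M := N)).ne hsum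
  obtain ⟨w0, hw0⟩ := hne
  have hΨ0 := hΨ (hS w0 hw0) hϖ hp
  -- the point
  set x' : Fin 2 → N := fun i => algebraMap L N (x i) with hx'def
  have hx' : x' ≠ 0 := by
    intro h0
    apply hx
    funext i
    exact (map_eq_zero (algebraMap L N)).1 (congrFun h0 i)
  have hiter : ∀ n : ℕ, (Φ.map (toN v N)).act^[n] x' =
      fun i => algebraMap L N ((fAct F L)^[n] x i) := by
    intro n
    rw [hact]
    exact fAct_iter_map F (IsScalarTower.toAlgHom K L N) n x
  have hiterne : ∀ n : ℕ, (Φ.map (toN v N)).act^[n] x' ≠ 0 := fun n =>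
    act_iter_ne _ hΨ0 n x' hx'
  have hpt : ∀ n : ℕ, D.f^[n] (nz x') = nz ((Φ.map (toN v N)).act^[n] x') := by
    intro n
    rw [hDf]
    exact fpt_iter_nz _ hΨ0 n x' hx'
  have hinj : Function.Injective fun n : ℕ => D.f^[n] (nz x') := by
    intro a b hab
    simp only [hpt] at hab
    by_contra hne
    rw [nz_eq_iff_br (hiterne a) (hiterne b), hiter, hiter] at hab
    apply hwand a b hne
    have h1 := br_map (algebraMap L N) ((fAct F L)^[a] x) ((fAct F L)^[b] x)
    rw [hab] at h1
    exact (map_eq_zero (algebraMap L N)).1 h1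
  have hmain := D.main hq2 hm1 hΛ0 hinj
  refine ⟨D.hhat hq2 (nz x'), ?_, ?_⟩
  · have h1 := D.tendsto_hhat hq2 (nz x')
    refine h1.congr fun n => ?_
    have hNpos : (0 : ℝ) < Module.finrank ℚ N := by exact_mod_cast Module.finrank_pos
    have hLpos : (0 : ℝ) < Module.finrank ℚ L := by exact_mod_cast Module.finrank_pos
    have htower : (Module.finrank ℚ L : ℝ) * Module.finrank L N = Module.finrank ℚ N := by
      exact_mod_cast Module.finrank_mul_finrank ℚ L N
    rw [hpt, hDh]
    simp only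
    rw [logHeight_nz (hiterne n), hiter, logHeight_algebraMap, ← htower]
    have hLN : (Module.finrank L N : ℝ) ≠ 0 := by
      intro h0
      rw [h0, mul_zero] at htower
      exact hNpos.ne htower
    congr 1
    rw [mul_comm (Module.finrank ℚ L : ℝ), mul_div_mul_left _ _ hLN]
  · refine le_trans ?_ hmain
    have hcard := card_orb_le (K := K) (N := N) x hx
    set d := (orb (N ≃ₐ[K] N) (nz x')).card with hd
    have hdpos : 0 < d := card_orb_pos _
    have hd1 : (1 : ℝ) ≤ d := by exact_mod_cast hdpos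
    have hdD : (d : ℝ) ≤ Module.finrank K L := by exact_mod_cast hcard
    have hlog : Real.log d ≤ Real.log (Module.finrank K L) := Real.log_le_log (by linarith) hdD
    have hsq : √(Real.log d) ≤ √(Real.log (Module.finrank K L)) := Real.sqrt_le_sqrt hlog
    have hexp : Real.exp (-((EData.B2 (p ^ s) m C Λ + 2) * √(Real.log (Module.finrank K L)))) ≤
        Real.exp (-((EData.B2 (p ^ s) m C Λ + 2) * √(Real.log d))) := by
      apply Real.exp_le_exp.2
      have : (EData.B2 (p ^ s) m C Λ + 2) * √(Real.log d) ≤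
        (EData.B2 (p ^ s) m C Λ + 2) * √(Real.log (Module.finrank K L)) :=
        mul_le_mul_of_nonneg_left hsq (by linarith)
      linarith
    have hA' : 0 ≤ EData.Ac (p ^ s) C Λ * Real.exp (-(EData.B2 (p ^ s) m C Λ + 2)) := by
      positivity
    apply mul_le_mul _ hexp (Real.exp_nonneg _) (div_nonneg hA' (by linarith))
    exact div_le_div_of_nonneg_left hA' (by linarith) hdD

end Pool.DynLehmer
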