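import Mathlib
import Pool.Agent.Lib.MP_2194ec_nt.GenMain
import Pool.Agent.Lib.MP_2194ec_nt.Main

set_option autoImplicit false

/-!
# From polynomials to `GF` data
-/

namespace Pool.DynLehmer
open MvPolynomial NumberField
open scoped Classical

section model

variable {K : Type} [Field K] [NumberField K] {ι : Type} [Fintype ι] [DecidableEq ι]

omit [Fintype ι] [DecidableEq ι] in
theorem single_inj' {q : ℕ} (hq : q ≠ 0) {i j : ι}
    (h : (Finsupp.single i q : ι →₀ ℕ) = Finsupp.single j q) : i = j :=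
  Finsupp.single_left_injective hq h

theorem exists_GF (v : FinitePlace K) {p s : ℕ} (hp : p.Prime)
    (F : ι → MvPolynomial ι K) (hF : ∀ i, (F i).IsHomogeneous (p ^ s))
    (hv : v (p : K) < 1) (hint : ∀ i t, v (coeff t (F i)) ≤ 1)
    (hred : ∀ i t, (∀ j, t ≠ Finsupp.single j (p ^ s)) → v (coeff t (F i)) < 1)
    (hdet : v (Matrix.det (Matrix.of fun i j => coeff (Finsupp.single j (p ^ s)) (F i))) = 1) :
    ∃ Φ : GF (OW v) p s ι, (∀ i, map (OW v).subtype (Φ.F i) = F i) ∧ (Φ.ϖ : K) ≠ 0 ∧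
      v (Φ.ϖ : K) < 1 ∧ ∀ a : K, v a < 1 → v a ≤ v (Φ.ϖ : K) := by
  have hq : p ^ s ≠ 0 := pow_ne_zero _ hp.ne_zero
  obtain ⟨ϖ, hϖ0, hϖ1, hϖ⟩ := exists_unif v
  have hvϖ : 0 < v ϖ := FinitePlace.pos_iff.2 hϖ0
  set g : Matrix ι ι (OW v) := Matrix.of fun i j =>
    ⟨coeff (Finsupp.single j (p ^ s)) (F i), hint i _⟩ with hg
  -- determinant
  have hgdet : v ((g.det : OW v) : K) = 1 := by
    have h1 : ((g.det : OW v) : K) = (OW v).subtype g.det := rfl
    rw [h1, RingHom.map_det]
    rw [← hdet]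
    rfl
  have hdet0 : ((g.det : OW v) : K) ≠ 0 := by
    rw [← FinitePlace.pos_iff (w := v), hgdet]; exact one_pos
  set u : OW v := ⟨((g.det : OW v) : K)⁻¹, by rw [mem_OW, map_inv₀, hgdet, inv_one]⟩ with hu
  have hug : g.det * u = 1 := by
    ext
    simp only [hu, Subring.coe_mul, Subring.coe_one]
    exact mul_inv_cancel₀ hdet0
  -- error terms
  set EK : ι → MvPolynomial ι K := fun i =>
    C ϖ⁻¹ * (F i - ∑ j, C (coeff (Finsupp.single j (p ^ s)) (F i)) * X j ^ (p ^ s)) with hEK
  have hEKhom : ∀ i, (EK i).IsHomogeneous (p ^ s) := by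
    intro i
    refine IsHomogeneous.C_mul ?_ _
    exact (hF i).sub (IsHomogeneous.sum _ _ _ fun j _ => isHomogeneous_C_mul_X_pow _ j _)
  have hEKint : ∀ i t, coeff t (EK i) ∈ OW v := by
    intro i t
    rw [mem_OW]
    simp only [hEK, coeff_C_mul, coeff_sub, coeff_sum, coeff_X_pow]
    rw [map_mul, map_inv₀, inv_mul_le_iff₀ hvϖ, mul_one]
    apply hϖ
    by_cases h0 : ∃ j, t = Finsupp.single j (p ^ s)
    · obtain ⟨j, rfl⟩ := h0
      rw [Finset.sum_eq_single j]
      · rw [if_pos rfl]; simp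
      · intro l _ hl
        rw [if_neg (fun h => hl (single_inj' hq h))]; simp
      · intro h; exact absurd (Finset.mem_univ _) h
    · push Not at h0
      rw [Finset.sum_eq_zero]
      · rw [sub_zero]; exact hred i t h0
      · intro l _
        rw [if_neg (fun h => h0 l h.symm)]; simp
  have hEex : ∀ i, ∃ E : MvPolynomial ι (OW v), map (OW v).subtype E = EK i := by
    intro i
    have h2 : EK i ∈ Set.range (map (σ := ι) (OW v).subtype) := by
      rw [mem_range_map_iff_coeffs_subset]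
      intro a ha
      rw [Finset.mem_coe, mem_coeffs_iff] at ha
      obtain ⟨t, _, rfl⟩ := ha
      exact ⟨⟨_, hEKint i t⟩, rfl⟩
    exact h2
  choose E hE using hEex
  have hc : v ((p : K) / ϖ) ≤ 1 := by
    rw [map_div₀]
    exact div_le_one_of_le₀ (hϖ _ hv) hvϖ.le
  refine ⟨{
    g := g
    ginv := u • g.adjugate
    gg := by
      rw [Matrix.mul_smul, Matrix.mul_adjugate, smul_smul, mul_comm u, hug, one_smul]
    ϖ := ⟨ϖ, hϖ1.le⟩
    c := ⟨(p : K) / ϖ, hc⟩
    hp := by
      ext
      simp only [Subring.coe_mul]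
      rw [mul_div_cancel₀ _ hϖ0]
      simp
    E := E
    hE := fun i => IsHomogeneous.of_map (f := (OW v).subtype) Subtype.val_injective
      (by rw [hE i]; exact hEKhom i) }, ?_, hϖ0, hϖ1, hϖ⟩
  intro i
  rw [GF.F]
  simp only [map_add, map_sum, map_mul, map_C, map_pow, map_X, hE]
  simp only [hg, hEK, Subring.subtype_apply, Matrix.of_apply]
  have h1 : ∀ a : MvPolynomial ι K, C ϖ * (C ϖ⁻¹ * a) = a := by
    intro a
    rw [← mul_assoc, ← C_mul, mul_inv_cancel₀ hϖ0, C_1, one_mul]
  rw [h1]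
  ring

/-- good reduction: no common zeros -/
theorem gno_common_zero {v : FinitePlace K} {p s : ℕ} (_hp : p.Prime) (Φ : GF (OW v) p s ι)
    (hϖ : v (Φ.ϖ : K) < 1)
    (F : ι → MvPolynomial ι K) (h : ∀ i, map (OW v).subtype (Φ.F i) = F i)
    (z : ι → AlgebraicClosure K) (hz : ∀ i, aeval z (F i) = 0) : z = 0 := by
  by_contra hne
  have hnι : Nonempty ι := by
    obtain ⟨i, _⟩ := Function.ne_iff.1 hne
    exact ⟨i⟩
  set N := IntermediateField.adjoin K (Set.range z) with hN
  have hfd : FiniteDimensional K N :=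
    IntermediateField.finiteDimensional_adjoin fun x _ => Algebra.IsIntegral.isIntegral x
  have hnf : NumberField N := NumberField.of_module_finite K N
  set z' : ι → N := fun i => ⟨z i, IntermediateField.subset_adjoin K _ ⟨i, rfl⟩⟩ with hz'
  have hz'0 : z' ≠ 0 := by
    intro h0
    apply hne
    ext i
    exact congrArg Subtype.val (congrFun h0 i)
  obtain ⟨S, e, hS, hsum⟩ := exists_above v N
  have hne : S.Nonempty := by
    rw [Finset.nonempty_iff_ne_empty]
    intro h0
    rw [h0, Finset.sum_empty] at hsum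
    exact (Module.finrank_pos (R := K) (M := N)).ne hsum
  obtain ⟨w, hw⟩ := hne
  have habove := hS w hw
  -- primitive representative
  obtain ⟨c, u, hc, hzu, hu⟩ := gexists_prim (w := w) hz'0
  obtain ⟨i, hi⟩ := prim_act Φ habove hϖ u hu
  have h1 : (Φ.map (toN v N)).act z' = c ^ (p ^ s) •
      (fun i => (((Φ.map (toOW habove)).act u i : OW w) : N)) := by
    rw [hzu, GF.act_smul, gcoe_act Φ habove]
  have h2 : (Φ.map (toN v N)).act z' = 0 := by
    rw [gact_eq_aeval Φ F h N]
    funext i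
    have h1 : algebraMap N (AlgebraicClosure K) (aeval z' (F i)) = aeval z (F i) := by
      rw [← MvPolynomial.aeval_algebraMap_apply]
      rfl
    rw [hz i] at h1
    exact (map_eq_zero (algebraMap N (AlgebraicClosure K))).1 h1
  rw [h2] at h1
  have h3 := congrFun h1 i
  simp only [Pi.zero_apply, Pi.smul_apply, smul_eq_mul] at h3
  have h4 : (((Φ.map (toOW habove)).act u i : OW w) : N) = 0 :=
    (mul_eq_zero.1 h3.symm).resolve_left (pow_ne_zero _ hc)
  rw [h4, map_zero] at hi
  exact zero_ne_one hi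

end model

end Pool.DynLehmer
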