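import Mathlib
import Pool.Agent.Lib.MP_2194ec_nt.GaloisFrob
import Pool.Agent.Lib.MP_2194ec_nt.GenCommute
import Pool.Agent.Lib.MP_2194ec_nt.GenModel

set_option autoImplicit false

/-!
# The bound over Galois fields with few conjugates of Frobenius powers
-/

namespace Pool.DynLehmer
open NumberField IsDedekindDomain MvPolynomial Filter Topology
open scoped Classical Pointwise

section results

variable {K : Type} [Field K] [NumberField K]

/-- cardinality of the residue field -/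
theorem exists_card_eq (v : FinitePlace K) {p : ℕ} (hp : p.Prime) (hv : v (p : K) < 1) :
    ∃ f : ℕ, 1 ≤ f ∧ Nat.card (𝓞 K ⧸ v.maximalIdeal.asIdeal) = p ^ f := by
  set P := v.maximalIdeal.asIdeal with hP
  have hmax : P.IsMaximal := v.maximalIdeal.isMaximal
  have hfin : Finite (𝓞 K ⧸ P) := Ideal.finiteQuotientOfFreeOfNeBot _ v.maximalIdeal.ne_bot
  let _ : Field (𝓞 K ⧸ P) := Ideal.Quotient.field P
  have _ := Fintype.ofFinite (𝓞 K ⧸ P)
  have hchar : CharP (𝓞 K ⧸ P) p := by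
    rw [CharP.charP_iff_prime_eq_zero hp]
    have h1 : ((p : ℕ) : 𝓞 K ⧸ P) = Ideal.Quotient.mk P ((p : ℕ) : 𝓞 K) := by simp
    rw [h1, Ideal.Quotient.eq_zero_iff_mem, hP, ← place_lt_one_iff]
    simpa using hv
  obtain ⟨n, -, hn⟩ := FiniteField.card (𝓞 K ⧸ P) p
  exact ⟨n, n.pos, by rw [Nat.card_eq_fintype_card, hn]⟩

/-- a weighted pigeonhole principle -/
theorem pigeonhole {α β : Type} (S : Finset α) (e : α → ℕ) (φ : α → β) (m : ℕ)
    (hm : (S.image φ).card ≤ m) (hS : S.Nonempty) :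
    ∃ b, ∑ a ∈ S, e a ≤ m * ∑ a ∈ S.filter (fun a => φ a = b), e a := by
  obtain ⟨b, hb, hmax⟩ := Finset.exists_max_image (S.image φ)
    (fun b => ∑ a ∈ S.filter (fun a => φ a = b), e a) (hS.image φ)
  refine ⟨b, ?_⟩
  calc ∑ a ∈ S, e a = ∑ b ∈ S.image φ, ∑ a ∈ S.filter (fun a => φ a = b), e a :=
        (Finset.sum_fiberwise_of_maps_to (fun a ha => Finset.mem_image_of_mem φ ha) e).symm
    _ ≤ (S.image φ).card • ∑ a ∈ S.filter (fun a => φ a = b), e a :=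
        Finset.sum_le_card_nsmul _ _ _ hmax
    _ ≤ m * ∑ a ∈ S.filter (fun a => φ a = b), e a := by
        rw [smul_eq_mul]; exact Nat.mul_le_mul_right _ hm

variable {ι : Type} [Fintype ι] [DecidableEq ι]

/-- **The Galois bound.** -/
theorem galois_bound [Nonempty ι] {d p s : ℕ} (hd : 2 ≤ d)
    (F : ι → MvPolynomial ι K) (hF : ∀ i, (F i).IsHomogeneous d)
    (hz : ∀ z : ι → AlgebraicClosure K, (∀ i, aeval z (F i) = 0) → z = 0)
    (hp : p.Prime) (hs : 1 ≤ s) (v : FinitePlace K)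
    (P : ι → MvPolynomial ι K) (hP : ∀ i, (P i).IsHomogeneous (p ^ s))
    (hv : v (p : K) < 1) (hint : ∀ i t, v (coeff t (P i)) ≤ 1)
    (hred : ∀ i t, (∀ j, t ≠ Finsupp.single j (p ^ s)) → v (coeff t (P i)) < 1)
    (hdet : v (Matrix.det (Matrix.of fun i j => coeff (Finsupp.single j (p ^ s)) (P i))) = 1)
    (hc : ∀ i j, bind₁ P (F i) * bind₁ F (P j) = bind₁ P (F j) * bind₁ F (P i))
    (r m : ℕ) (hr : 1 ≤ r) (hm : 1 ≤ m) :
    ∃ c : ℝ, 0 < c ∧ ∀ (L : Type) [Field L] [NumberField L] [Algebra K L] [IsGalois K L],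
      (∀ g : L ≃ₐ[K] L, {h | IsConj (g ^ r) h}.ncard ≤ m) →
      ∀ E : ℕ, 1 ≤ E →
      (∀ Q : Ideal (𝓞 L), Q.IsPrime → Q.LiesOver v.maximalIdeal.asIdeal →
        ¬ (v.maximalIdeal.asIdeal.map (algebraMap (𝓞 K) (𝓞 L)) ≤ Q ^ (E + 1))) →
      ∀ x : ι → L, x ≠ 0 →
      (¬ ∃ m n : ℕ, m ≠ n ∧ ∃ c : L, c ≠ 0 ∧ (gAct F L)^[n] x = c • (gAct F L)^[m] x) →
      ∃ h : ℝ, Tendsto (fun n : ℕ => Height.logHeight ((gAct F L)^[n] x) /
        (Module.finrank ℚ L : ℝ) / (d : ℝ) ^ n) atTop (𝓝 h) ∧ c / E ≤ h := by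
  obtain ⟨Φ, hΦP, hϖ0, hϖ, hunif⟩ := exists_GF v hp P hP hv hint hred hdet
  have hzP := gno_common_zero hp Φ hϖ P hΦP
  obtain ⟨f, hf1, hf⟩ := exists_card_eq v hp hv
  obtain ⟨c, hc0, hbound⟩ := gen_bound hp hs v Φ hϖ hϖ0 P hP hzP hΦP (f * r) m
    (Nat.mul_pos hf1 hr) hm
  refine ⟨c, hc0, ?_⟩
  intro L _ _ _ _ hconj E hE hram x hx hwand
  have hq2 : 2 ≤ p ^ s := hp.two_le.trans (Nat.le_self_pow (by omega) p)
  obtain ⟨hwandP, htrans⟩ := commute_transfer hd hq2 F P hF hP hz hzP hc L x hx hwand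
  have hfd : FiniteDimensional K L := Module.Finite.of_restrictScalars_finite ℚ K L
  obtain ⟨S, e, hS, hsum⟩ := exists_above v L
  have hne : S.Nonempty := by
    rw [Finset.nonempty_iff_ne_empty]
    intro h0
    rw [h0, Finset.sum_empty] at hsum
    exact (Module.finrank_pos (R := K) (M := L)).ne hsum
  obtain ⟨w0, hw0⟩ := hne
  -- the reference Frobenius
  have hprime : ∀ w : FinitePlace L, w.maximalIdeal.asIdeal.IsPrime := fun w =>
    w.maximalIdeal.isPrime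
  have hfinq : Finite (𝓞 L ⧸ w0.maximalIdeal.asIdeal) :=
    Ideal.finiteQuotientOfFreeOfNeBot _ w0.maximalIdeal.ne_bot
  obtain ⟨σ0, hσ0⟩ := IsArithFrobAt.exists_of_isInvariant (𝓞 K) (L ≃ₐ[K] L)
    w0.maximalIdeal.asIdeal
  have hτ : ∀ w ∈ S, ∃ τ : L ≃ₐ[K] L, w.maximalIdeal.asIdeal = τ • w0.maximalIdeal.asIdeal := by
    intro w hw
    exact Algebra.IsInvariant.exists_smul_of_under_eq (𝓞 K) (𝓞 L) (L ≃ₐ[K] L)
      w0.maximalIdeal.asIdeal w.maximalIdeal.asIdeal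
      (by rw [above_under (hS w0 hw0), above_under (hS w hw)])
  choose! τ hτ using hτ
  set φ : FinitePlace L → (L ≃ₐ[K] L) := fun w => (τ w * σ0 * (τ w)⁻¹) ^ r with hφ
  have hφfrob : ∀ w ∈ S, ∀ a : L, w a ≤ 1 → w (φ w a - a ^ (p ^ (f * r))) < 1 := by
    intro w hw
    have h1 : ∀ x : 𝓞 L, (τ w * σ0 * (τ w)⁻¹) • x - x ^ (p ^ f) ∈ w.maximalIdeal.asIdeal := by
      intro x
      have h2 := (hσ0.conj (τ w)) x
      rw [← hτ w hw, above_under (hS w hw), hf] at h2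
      exact h2
    have h3 := frob_pow (τ w * σ0 * (τ w)⁻¹) w (p ^ f) (frob_place _ w _ h1) r
    intro a ha
    have h4 := h3 a ha
    rw [← pow_mul] at h4
    exact h4
  have hcardφ : (S.image φ).card ≤ m := by
    refine le_trans ?_ (hconj σ0)
    rw [← Set.ncard_coe_finset]
    apply Set.ncard_le_ncard _ (Set.toFinite _)
    intro g hg
    rw [Finset.coe_image] at hg
    obtain ⟨w, _, rfl⟩ := hg
    change IsConj (σ0 ^ r) ((τ w * σ0 * (τ w)⁻¹) ^ r)
    rw [isConj_iff]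
    exact ⟨τ w, by rw [conj_pow]⟩
  obtain ⟨σ, hσ⟩ := pigeonhole S e φ m hcardφ ⟨w0, hw0⟩
  obtain ⟨h, hlim, hle⟩ := hbound L σ (S.filter fun w => φ w = σ) e E hE
    (fun w hw => hS w (Finset.mem_filter.1 hw).1) (by rw [← hsum]; exact hσ)
    (fun w hw => by
      obtain ⟨hwS, hwφ⟩ := Finset.mem_filter.1 hw
      rw [← hwφ]
      exact hφfrob w hwS)
    (fun w hw => by
      obtain ⟨hwS, hwφ⟩ := Finset.mem_filter.1 hw
      exact ram_bound (hS w hwS) hunif (hram _ (hprime w) (above_liesOver (hS w hwS))))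
    x hx hwandP
  exact ⟨h, htrans h hlim, hle⟩

/-- **The bound for bounded residue fields.** -/
theorem residue_bound [Nonempty ι] {d p s : ℕ} (hd : 2 ≤ d)
    (F : ι → MvPolynomial ι K) (hF : ∀ i, (F i).IsHomogeneous d)
    (hz : ∀ z : ι → AlgebraicClosure K, (∀ i, aeval z (F i) = 0) → z = 0)
    (hp : p.Prime) (hs : 1 ≤ s) (v : FinitePlace K)
    (P : ι → MvPolynomial ι K) (hP : ∀ i, (P i).IsHomogeneous (p ^ s))
    (hv : v (p : K) < 1) (hint : ∀ i t, v (coeff t (P i)) ≤ 1)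
    (hred : ∀ i t, (∀ j, t ≠ Finsupp.single j (p ^ s)) → v (coeff t (P i)) < 1)
    (hdet : v (Matrix.det (Matrix.of fun i j => coeff (Finsupp.single j (p ^ s)) (P i))) = 1)
    (hc : ∀ i j, bind₁ P (F i) * bind₁ F (P j) = bind₁ P (F j) * bind₁ F (P i))
    (R m : ℕ) (hm : 1 ≤ m) :
    ∃ c : ℝ, 0 < c ∧ ∀ (L : Type) [Field L] [NumberField L] [Algebra K L]
      (S : Finset (FinitePlace L)) (e : FinitePlace L → ℕ) (E : ℕ), 1 ≤ E →
      (∀ w ∈ S, ∀ a : K, w (algebraMap K L a) = (v a) ^ e w) →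
      Module.finrank K L ≤ m * ∑ w ∈ S, e w →
      (∀ w ∈ S, Nat.card (𝓞 L ⧸ w.maximalIdeal.asIdeal) ≤ R) →
      (∀ w ∈ S, ¬ (v.maximalIdeal.asIdeal.map (algebraMap (𝓞 K) (𝓞 L)) ≤
        w.maximalIdeal.asIdeal ^ (E + 1))) →
      ∀ x : ι → L, x ≠ 0 →
      (¬ ∃ m n : ℕ, m ≠ n ∧ ∃ c : L, c ≠ 0 ∧ (gAct F L)^[n] x = c • (gAct F L)^[m] x) →
      ∃ h : ℝ, Tendsto (fun n : ℕ => Height.logHeight ((gAct F L)^[n] x) /
        (Module.finrank ℚ L : ℝ) / (d : ℝ) ^ n) atTop (𝓝 h) ∧ c / E ≤ h := by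
  obtain ⟨Φ, hΦP, hϖ0, hϖ, hunif⟩ := exists_GF v hp P hP hv hint hred hdet
  have hzP := gno_common_zero hp Φ hϖ P hΦP
  obtain ⟨c, hc0, hbound⟩ := gen_bound hp hs v Φ hϖ hϖ0 P hP hzP hΦP (R.factorial) m
    (Nat.factorial_pos R) hm
  refine ⟨c, hc0, ?_⟩
  intro L _ _ _ S e E hE hS0 hcard hres hram x hx hwand
  have hq2 : 2 ≤ p ^ s := hp.two_le.trans (Nat.le_self_pow (by omega) p)
  obtain ⟨hwandP, htrans⟩ := commute_transfer hd hq2 F P hF hP hz hzP hc L x hx hwand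
  have hS : ∀ w ∈ S, Above v w (e w) := by
    intro w hw
    refine ⟨?_, hS0 w hw⟩
    rw [Nat.pos_iff_ne_zero]
    intro h0
    have := hS0 w hw 0
    rw [h0] at this
    simp at this
  obtain ⟨h, hlim, hle⟩ := hbound L AlgEquiv.refl S e E hE hS hcard
    (fun w hw => by
      obtain ⟨f, hf1, hf⟩ := exists_card_eq w hp (by
        have := hS0 w hw (p : K)
        rw [map_natCast] at this
        rw [this]
        exact pow_lt_one₀ (apply_nonneg v _) hv (hS w hw).1.ne')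
      have hfR : f ≤ R := by
        have h1 := hres w hw
        rw [hf] at h1
        exact (Nat.lt_pow_self hp.one_lt).le.trans h1
      have h2 : ∀ x : 𝓞 L, (1 : L ≃ₐ[K] L) • x - x ^ (p ^ f) ∈ w.maximalIdeal.asIdeal := by
        intro x
        rw [one_smul]
        set Q := w.maximalIdeal.asIdeal with hQ
        have hmax : Q.IsMaximal := w.maximalIdeal.isMaximal
        have hfin : Finite (𝓞 L ⧸ Q) :=
          Ideal.finiteQuotientOfFreeOfNeBot _ w.maximalIdeal.ne_bot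
        let _ : Field (𝓞 L ⧸ Q) := Ideal.Quotient.field Q
        have _ := Fintype.ofFinite (𝓞 L ⧸ Q)
        rw [← Ideal.Quotient.mk_eq_mk_iff_sub_mem, map_pow]
        have h3 := FiniteField.pow_card (Ideal.Quotient.mk Q x)
        rw [← Nat.card_eq_fintype_card, hf] at h3
        exact h3.symm
      have h3 := frob_place 1 w (p ^ f) h2
      have h4 := frob_pow 1 w (p ^ f) h3 (R.factorial / f)
      intro a ha
      have h5 := h4 a ha
      rw [one_pow, ← pow_mul, Nat.mul_div_cancel' (Nat.dvd_factorial hf1 hfR)] at h5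
      exact h5)
    (fun w hw => ram_bound (hS w hw) hunif (hram w hw))
    x hx hwandP
  exact ⟨h, htrans h hlim, hle⟩

end results

end Pool.DynLehmer
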