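import Mathlib
import Pool.Agent.Lib.MP_2194ec_nt.GenClose
import Pool.Agent.Lib.MP_2194ec_nt.GenResults

set_option autoImplicit false

/-!
# Closeness of conjugates and of the levels
-/

namespace Pool.DynLehmer
open MvPolynomial NumberField Filter Topology
open scoped Classical LinearAlgebra.Projectivization

section basic

variable {N : Type} [Field N] [NumberField N] {w : FinitePlace N} {ι : Type}

theorem Close.smul_left {t : ℝ} {z z' : ι → N} (h : Close w t z z') {c : N} (hc : c ≠ 0) :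
    Close w t (c • z) z' := by
  obtain ⟨a, b, u, u', ha, hb, hz, hz', hu, hu', hd⟩ := h
  exact ⟨c * a, b, u, u', mul_ne_zero hc ha, hb, by rw [hz, smul_smul], hz', hu, hu', hd⟩

theorem Close.smul_right {t : ℝ} {z z' : ι → N} (h : Close w t z z') {c : N} (hc : c ≠ 0) :
    Close w t z (c • z') := (h.symm'.smul_left hc).symm'

/-- exponents fixing the residue field -/
theorem exists_fix (w : FinitePlace N) {p : ℕ} (hp : p.Prime) (hw : w (p : N) < 1) :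
    ∃ f : ℕ, 1 ≤ f ∧ ∀ a : N, w a ≤ 1 → w (a - a ^ (p ^ f)) < 1 := by
  obtain ⟨f, hf1, hf⟩ := exists_card_eq w hp hw
  refine ⟨f, hf1, ?_⟩
  have h2 : ∀ x : 𝓞 N, (1 : N ≃ₐ[N] N) • x - x ^ (p ^ f) ∈ w.maximalIdeal.asIdeal := by
    intro x
    rw [one_smul]
    set Q := w.maximalIdeal.asIdeal with hQ
    have hmax : Q.IsMaximal := w.maximalIdeal.isMaximal
    have hfin : Finite (𝓞 N ⧸ Q) :=
      Ideal.finiteQuotientOfFreeOfNeBot _ w.maximalIdeal.ne_bot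
    let _ : Field (𝓞 N ⧸ Q) := Ideal.Quotient.field Q
    have _ := Fintype.ofFinite (𝓞 N ⧸ Q)
    rw [← Ideal.Quotient.mk_eq_mk_iff_sub_mem, map_pow]
    have h3 := FiniteField.pow_card (Ideal.Quotient.mk Q x)
    rw [← Nat.card_eq_fintype_card, hf] at h3
    exact h3.symm
  exact frob_place (1 : N ≃ₐ[N] N) w (p ^ f) h2

/-- heights under embeddings -/
theorem logHeight_hom {L : Type} [Field L] [NumberField L] [Finite ι] (φ : L →+* N)
    (x : ι → L) : Height.logHeight (fun i => φ (x i)) / (Module.finrank ℚ N : ℝ) =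
      Height.logHeight x / (Module.finrank ℚ L : ℝ) := by
  let _ : Algebra L N := φ.toAlgebra
  have h1 : Height.logHeight (fun i => φ (x i)) = Module.finrank L N * Height.logHeight x :=
    logHeight_algebraMap (N := N) x
  have hNpos : (0 : ℝ) < Module.finrank ℚ N := by exact_mod_cast Module.finrank_pos
  have hLpos : (0 : ℝ) < Module.finrank ℚ L := by exact_mod_cast Module.finrank_pos
  have htower : (Module.finrank ℚ L : ℝ) * Module.finrank L N = Module.finrank ℚ N := by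
    exact_mod_cast Module.finrank_mul_finrank ℚ L N
  have hLN : (Module.finrank L N : ℝ) ≠ 0 := by
    intro h0
    rw [h0, mul_zero] at htower
    exact hNpos.ne htower
  rw [h1, ← htower, mul_comm (Module.finrank ℚ L : ℝ), mul_div_mul_left _ _ hLN]

end basic

section disc

variable {K : Type} [Field K] [NumberField K] {N : Type} [Field N] [NumberField N] [Algebra K N]
variable {L : Type} [Field L] [NumberField L] [Algebra K L]
variable {p s : ℕ} {ι : Type} [Fintype ι] [DecidableEq ι] [Nonempty ι]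
variable {v : FinitePlace K} {w : FinitePlace N} {e : ℕ} (Φ : GF (OW v) p s ι)

theorem disc1 (h : Above v w e) (hϖ : v (Φ.ϖ : K) < 1) (hp : p.Prime)
    (F : ι → MvPolynomial ι K) (hΦF : ∀ i, map (OW v).subtype (Φ.F i) = F i)
    (φ : L →ₐ[K] N) (x : ι → L) (hx : x ≠ 0) {k : ℕ} (hk : GGoodExp Φ k)
    (hfix : ∀ a : N, w a ≤ 1 → w (a - a ^ ((p ^ s) ^ k)) < 1) {E : ℕ}
    (hE : ∀ a : L, w (φ a) < 1 → (w (φ a)) ^ E ≤ w (toN v N Φ.ϖ)) :
    ∃ t : ℝ, 0 ≤ t ∧ t ^ E ≤ w (toN v N Φ.ϖ) ∧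
      Close w t ((gAct F N)^[k] (fun i => φ (x i))) (fun i => φ (x i)) := by
  have hactN : (Φ.map (toN v N)).act = gAct F N := gact_eq_aeval Φ F hΦF N
  obtain ⟨i0, hi0⟩ := Finite.exists_max (fun i => w (φ (x i)))
  obtain ⟨j, hj⟩ := Function.ne_iff.1 hx
  have hj' : φ (x j) ≠ 0 := by simpa using hj
  have hpos : 0 < w (φ (x i0)) := (FinitePlace.pos_iff.2 hj').trans_le (hi0 j)
  have hc : φ (x i0) ≠ 0 := by rwa [← FinitePlace.pos_iff (w := w)]
  set y : ι → L := fun l => x l / x i0 with hy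
  have hyle : ∀ l, w (φ (y l)) ≤ 1 := by
    intro l
    simp only [hy, map_div₀]
    exact div_le_one_of_le₀ (hi0 l) hpos.le
  set u : ι → OW w := fun l => ⟨φ (y l), hyle l⟩ with hu
  have hxu : (fun i => φ (x i)) = φ (x i0) • fun l => (u l : N) := by
    funext l
    simp only [hu, hy, Pi.smul_apply, smul_eq_mul, map_div₀]
    rw [mul_div_cancel₀ _ hc]
  have hprim : Prim w u := ⟨i0, by
    simp only [hu, hy, map_div₀]
    rw [div_self hpos.ne']⟩
  set U := (Φ.map (toOW h)).act^[k] u with hU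
  have hUcoe : ∀ l, (U l : N) = φ ((gAct F L)^[k] y l) := by
    intro l
    have h1 := congrFun (gcoe_act_iter Φ h k u) l
    rw [hactN] at h1
    have h2 := congrFun (gAct_iter_map F φ k y) l
    rw [hU, h1]
    exact h2
  have hdiff : ∀ l, w (φ ((gAct F L)^[k] y l - y l)) < 1 := by
    intro l
    have h1 := giter_mod Φ h hϖ hp hk u l
    rw [← map_pow, Ideal.Quotient.mk_eq_mk_iff_sub_mem, mem_MW] at h1
    have h2 : φ ((gAct F L)^[k] y l - y l) = ((U l - u l ^ ((p ^ s) ^ k) : OW w) : N) +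
        - ((u l : N) - (u l : N) ^ ((p ^ s) ^ k)) := by
      have h3 : ((U l - u l ^ ((p ^ s) ^ k) : OW w) : N) = (U l : N) - (u l : N) ^ ((p ^ s) ^ k) := by
        simp
      rw [map_sub, ← hUcoe, h3]
      change (U l : N) - (u l : N) = _
      ring
    rw [h2]
    refine (FinitePlace.add_le w _ _).trans_lt (max_lt h1 ?_)
    rw [map_neg_eq_map]
    exact hfix _ (u l).2
  obtain ⟨l0, hl0⟩ := Finite.exists_max (fun l => w (φ ((gAct F L)^[k] y l - y l)))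
  refine ⟨w (φ ((gAct F L)^[k] y l0 - y l0)), apply_nonneg w _, hE _ (hdiff l0),
    φ (x i0) ^ ((p ^ s) ^ k), φ (x i0), U, u, pow_ne_zero _ hc, hc, ?_, hxu,
    prim_act_iter Φ h hϖ k u hprim, hprim, ?_⟩
  · rw [← hactN, hxu, GF.act_iter_smul, ← gcoe_act_iter Φ h]
  · intro l
    have h1 : (U l : N) - u l = φ ((gAct F L)^[k] y l - y l) := by
      rw [map_sub, ← hUcoe]
    rw [h1]
    exact hl0 l

/-- **Two congruent points with coordinates in fields of small ramification are close.** -/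
theorem disc (h : Above v w e) (hϖ : v (Φ.ϖ : K) < 1) (hϖ0 : (Φ.ϖ : K) ≠ 0) (hp : p.Prime)
    (hs : 1 ≤ s)
    (F : ι → MvPolynomial ι K) (hΦF : ∀ i, map (OW v).subtype (Φ.F i) = F i)
    (φ₁ φ₂ : L →ₐ[K] N) (x₁ x₂ : ι → L) (hx₁ : x₁ ≠ 0) (hx₂ : x₂ ≠ 0) {E : ℕ} (hE1 : 1 ≤ E)
    (hE₁ : ∀ a : L, w (φ₁ a) < 1 → (w (φ₁ a)) ^ E ≤ w (toN v N Φ.ϖ))
    (hE₂ : ∀ a : L, w (φ₂ a) < 1 → (w (φ₂ a)) ^ E ≤ w (toN v N Φ.ϖ))
    {t : ℝ} (ht0 : 0 ≤ t) (ht1 : t < 1)
    (hc : Close w t (fun i => φ₁ (x₁ i)) (fun i => φ₂ (x₂ i))) :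
    ∃ t' : ℝ, 0 ≤ t' ∧ t' ^ E ≤ w (toN v N Φ.ϖ) ∧
      Close w t' (fun i => φ₁ (x₁ i)) (fun i => φ₂ (x₂ i)) := by
  have hactN : (Φ.map (toN v N)).act = gAct F N := gact_eq_aeval Φ F hΦF N
  have hq2 : 2 ≤ p ^ s := hp.two_le.trans (Nat.le_self_pow (by omega) p)
  obtain ⟨m0, hm01, hm0⟩ := exists_ggoodExp Φ hϖ hp
  have hπ1 : w (toN v N Φ.ϖ) < 1 := gw_unif Φ h hϖ
  have hπ0 : 0 < w (toN v N Φ.ϖ) := by
    rw [FinitePlace.pos_iff]
    change algebraMap K N (Φ.ϖ : K) ≠ 0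
    simpa using hϖ0
  have hpw : w (p : N) < 1 := by
    have h1 : ((p : ℕ) : N) = toN v N Φ.ϖ * toN v N Φ.c := by
      rw [← map_mul, ← Φ.hp, map_natCast]
    rw [h1, map_mul]
    have h2 : w (toN v N Φ.c) ≤ 1 := by
      have := (toOW h Φ.c).2
      exact this
    calc w (toN v N Φ.ϖ) * w (toN v N Φ.c) ≤ w (toN v N Φ.ϖ) * 1 :=
          mul_le_mul_of_nonneg_left h2 hπ0.le
      _ < 1 := by rwa [mul_one]
  obtain ⟨f, hf1, hf⟩ := exists_fix w hp hpw
  obtain ⟨M, hM⟩ := exists_pow_lt_of_lt_one hπ0 ht1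
  set k := m0 * f * M with hk
  have hgood : GGoodExp Φ k := hm0 k ⟨f * M, by rw [hk]; ring⟩
  have hfix : ∀ a : N, w a ≤ 1 → w (a - a ^ ((p ^ s) ^ k)) < 1 := by
    intro a ha
    have h1 := frob_pow (1 : N ≃ₐ[N] N) w (p ^ f) hf (s * m0 * M) a ha
    have h2 : (p ^ f) ^ (s * m0 * M) = (p ^ s) ^ k := by
      rw [hk, ← pow_mul, ← pow_mul]; congr 1; ring
    rw [one_pow, h2] at h1
    exact h1
  obtain ⟨t₁, ht₁0, ht₁E, hc₁⟩ := disc1 Φ h hϖ hp F hΦF φ₁ x₁ hx₁ hgood hfix hE₁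
  obtain ⟨t₂, ht₂0, ht₂E, hc₂⟩ := disc1 Φ h hϖ hp F hΦF φ₂ x₂ hx₂ hgood hfix hE₂
  have hc₃ := Close.act_iter Φ h hϖ hp ht0 ht1.le hc k
  rw [hactN] at hc₃
  have hbig : t ^ ((p ^ s) ^ k) ≤ w (toN v N Φ.ϖ) := by
    refine le_trans ?_ hM.le
    apply pow_le_pow_of_le_one ht0 ht1.le
    calc M ≤ k := by
          rw [hk]
          exact Nat.le_mul_of_pos_left _ (Nat.mul_pos hm01 hf1)
      _ ≤ (p ^ s) ^ k := (Nat.lt_pow_self (by omega)).le
  have hc₃' := hc₃.mono (max_le hbig le_rfl)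
  set t' := max (max t₁ t₂) (w (toN v N Φ.ϖ)) with ht'
  refine ⟨t', le_max_of_le_right hπ0.le, ?_, ?_⟩
  · rcases max_cases (max t₁ t₂) (w (toN v N Φ.ϖ)) with ⟨h1, -⟩ | ⟨h1, -⟩
    · rw [ht', h1]
      rcases max_cases t₁ t₂ with ⟨h2, -⟩ | ⟨h2, -⟩
      · rw [h2]; exact ht₁E
      · rw [h2]; exact ht₂E
    · rw [ht', h1]
      calc w (toN v N Φ.ϖ) ^ E ≤ w (toN v N Φ.ϖ) ^ 1 :=
            pow_le_pow_of_le_one hπ0.le hπ1.le hE1
        _ = _ := pow_one _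
  · have h1 := hc₁.mono (show t₁ ≤ t' from (le_max_left _ _).trans (le_max_left _ _))
    have h2 := hc₂.mono (show t₂ ≤ t' from (le_max_right _ _).trans (le_max_left _ _))
    have h3 := hc₃'.mono (show w (toN v N Φ.ϖ) ≤ t' from le_max_right _ _)
    exact (h1.symm'.trans' h3).trans' h2

/-- **Closeness of the levels.** -/
theorem level_close (h : Above v w e) (hϖ : v (Φ.ϖ : K) < 1) (hϖ0 : (Φ.ϖ : K) ≠ 0)
    (hp : p.Prime) (hs : 1 ≤ s)
    (F : ι → MvPolynomial ι K) (hF : ∀ i, (F i).IsHomogeneous (p ^ s))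
    (hz : ∀ z : ι → AlgebraicClosure K, (∀ i, aeval z (F i) = 0) → z = 0)
    (hΦF : ∀ i, map (OW v).subtype (Φ.F i) = F i) {k : ℕ}
    (hk : ∀ l, GGoodExp Φ (k * l)) (τ : N ≃ₐ[K] N)
    (hτ : ∀ a : N, w a ≤ 1 → w (τ a - a ^ ((p ^ s) ^ k)) < 1)
    {E : ℕ} (hE1 : 1 ≤ E)
    {j0 : ℕ} (hj0 : E ≤ (p ^ s) ^ j0) (x : ι → L) (hx : x ≠ 0) (l i : ℕ) (φ ψ : L →ₐ[K] N)
    (hEφ : ∀ a : L, w (φ a) < 1 → (w (φ a)) ^ E ≤ w (toN v N Φ.ϖ))
    (hEψ : ∀ a : L, w (ψ a) < 1 → (w (ψ a)) ^ E ≤ w (toN v N Φ.ϖ))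
    (hψ : ∀ a, ψ a = (τ ^ l) (φ a)) :
    Close w ((w (toN v N Φ.ϖ)) ^ (i + 1)) ((gAct F N)^[j0 + i + k * l] (fun t => φ (x t)))
      ((gAct F N)^[j0 + i] (fun t => ψ (x t))) := by
  have hactN : (Φ.map (toN v N)).act = gAct F N := gact_eq_aeval Φ F hΦF N
  have hπ1 : w (toN v N Φ.ϖ) < 1 := gw_unif Φ h hϖ
  have hφx : (fun t => φ (x t)) ≠ 0 := by
    intro h0
    apply hx
    funext t
    have := congrFun h0 t
    simpa using this
  have hfrob : ∀ a : N, w a ≤ 1 → w ((τ ^ l) a - a ^ ((p ^ s) ^ (k * l))) < 1 := by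
    intro a ha
    have h1 := frob_pow τ w _ hτ l a ha
    rw [← pow_mul] at h1
    exact h1
  obtain ⟨b, hb1, hb⟩ := close_frob Φ h hϖ hp (hk l) ((τ ^ l : N ≃ₐ[K] N) : N →+* N) hfrob
    (fun t => φ (x t)) hφx
  rw [hactN, gAct_iter_map F φ (k * l) x] at hb
  have hψx : (fun t => ((τ ^ l : N ≃ₐ[K] N) : N →+* N) (φ (x t))) = fun t => ψ (x t) := by
    funext t
    exact (hψ (x t)).symm
  rw [hψx] at hb
  obtain ⟨t', ht'0, ht'E, hc⟩ := disc Φ h hϖ hϖ0 hp hs F hΦF φ ψ ((gAct F L)^[k * l] x) x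
    (gAct_iter_ne F hF hz _ x hx) hx hE1 hEφ hEψ (apply_nonneg w b) hb1 hb
  have ht'1 : t' ≤ 1 := by
    by_contra hcon
    push Not at hcon
    have h1 : 1 ≤ t' ^ E := one_le_pow₀ hcon.le
    linarith
  have h1 := Close.act_iter Φ h hϖ hp ht'0 ht'1 hc j0
  have h2 : t' ^ ((p ^ s) ^ j0) ≤ w (toN v N Φ.ϖ) :=
    (pow_le_pow_of_le_one ht'0 ht'1 hj0).trans ht'E
  have h3 := h1.mono (max_le h2 le_rfl)
  have h4 := Close.act_iter' Φ h hϖ hp hs h3 i
  rw [hactN] at h4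
  have h5 : ∀ z, (gAct F N)^[i] ((gAct F N)^[j0] z) = (gAct F N)^[j0 + i] z := fun z => by
    rw [add_comm, Function.iterate_add_apply]
  rw [h5, h5, ← gAct_iter_map F φ (k * l) x, ← Function.iterate_add_apply] at h4
  exact h4

end disc

section height0

variable {K : Type} [Field K] [NumberField K] {ι : Type} [Fintype ι]

/-- the canonical height of a wandering point does not vanish -/
theorem hhat_ne_zero {d : ℕ} (hd : 2 ≤ d) (F : ι → MvPolynomial ι K)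
    (hF : ∀ i, (F i).IsHomogeneous d)
    (hz : ∀ z : ι → AlgebraicClosure K, (∀ i, aeval z (F i) = 0) → z = 0)
    (L : Type) [Field L] [NumberField L] [Algebra K L] (x : ι → L) (hx : x ≠ 0)
    (hwand : ¬ ∃ m n : ℕ, m ≠ n ∧ ∃ c : L, c ≠ 0 ∧ (gAct F L)^[n] x = c • (gAct F L)^[m] x)
    (h : ℝ) (hlim : Tendsto (fun n : ℕ => Height.logHeight ((gAct F L)^[n] x) /
        (Module.finrank ℚ L : ℝ) / (d : ℝ) ^ n) atTop (𝓝 h)) : h ≠ 0 := by
  obtain ⟨C, hC, hH⟩ := height_morphism F d hF hz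
  have hne : ∀ z : ι → L, z ≠ 0 → gAct F L z ≠ 0 := fun z hz' => gAct_ne F hF hz z hz'
  have hd2 : (2 : ℝ) ≤ (d : ℝ) := by exact_mod_cast hd
  set H : ℙ L (ι → L) → ℝ := fun u => Height.logHeight u.rep / (Module.finrank ℚ L : ℝ) with hHd
  have hf : ∀ u, |H (pm F L hne u) - (d : ℝ) * H u| ≤ C := pm_height F L hne (hH L)
  obtain ⟨hh, hlim', -, hdiff, hmul, -⟩ := commuting_heights H (pm F L hne) (pm F L hne)
    (fun _ => rfl) hd2 hd2 hf hf
  set u := Projectivization.mk L x hx with hu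
  have hinj : Function.Injective fun n : ℕ => (pm F L hne)^[n] u := by
    intro a b hab
    by_contra hne'
    simp only [hu, pm_iter_mk F hF hne _ x hx] at hab
    obtain ⟨c, hc0, hcc⟩ := smul_of_mk_eq _ _ hab
    exact hwand ⟨b, a, Ne.symm hne', c, hc0, hcc⟩
  have e1 : h = hh u := by
    refine tendsto_nhds_unique hlim ((hlim' u).congr fun n => ?_)
    rw [hu, pm_iter_mk F hF hne n x hx]
    simp only [hHd]
    rw [logHeight_rep]
  intro h0
  rw [e1] at h0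
  have hgn : ∀ n : ℕ, hh ((pm F L hne)^[n] u) = (d : ℝ) ^ n * hh u := by
    intro n
    induction n with
    | zero => simp
    | succ n ih => rw [Function.iterate_succ_apply', hmul, ih, pow_succ]; ring
  have h1 : Set.range (fun n : ℕ => (pm F L hne)^[n] u) ⊆ {y | H y ≤ C} := by
    rintro _ ⟨n, rfl⟩
    have h2 := hdiff ((pm F L hne)^[n] u)
    rw [hgn n, h0, mul_zero, sub_zero] at h2
    exact (le_abs_self _).trans h2
  exact Set.infinite_range_of_injective hinj ((northcott_proj L C).subset h1)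

end height0

end Pool.DynLehmer
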