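import Mathlib
import Pool.Agent.Lib.MP_2194ec_nt.RamB
import Pool.Agent.Lib.MP_2194ec_nt.RamE
import Pool.Agent.Lib.MP_2194ec_nt.RelLevels

set_option autoImplicit false

/-!
# Local data of points of small and large ramification
-/

namespace Pool.DynLehmer
open MvPolynomial NumberField
open scoped Classical

section norm

variable {K N : Type} [Field K] [Field N] [Algebra K N] {ι : Type}

/-- normalized coordinates are fixed by the stabilizer -/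
theorem stab_fix {Q : ι → N} {g : N ≃ₐ[K] N} (hg : g ∈ stab Q) (k l : ι) :
    g (Q l / Q k) = Q l / Q k := by
  obtain ⟨c, hc, h⟩ := hg
  have h1 : ∀ l, g (Q l) = c * Q l := fun l => by
    have := congrFun h l
    simpa [gal] using this
  rw [map_div₀, h1, h1]
  rcases eq_or_ne (Q k) 0 with h0 | h0
  · rw [h0]; simp
  · field_simp

end norm

section data

variable {K : Type} [Field K] [NumberField K] {N : Type} [Field N] [NumberField N] [Algebra K N]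
variable {p s : ℕ} {ι : Type} [Fintype ι] [DecidableEq ι] [Nonempty ι]
variable {v : FinitePlace K} {w : FinitePlace N} {e : ℕ} (Φ : GF (OW v) p s ι)

/-- data of the iterates of a point -/
theorem high_data (h : Above v w e) (hϖ : v (Φ.ϖ : K) < 1) (hϖ0 : (Φ.ϖ : K) ≠ 0)
    (hp : p.Prime) (F : ι → MvPolynomial ι K) (hΦF : ∀ i, map (OW v).subtype (Φ.F i) = F i)
    {J : Subgroup (N ≃ₐ[K] N)} (hJ1 : ∀ g ∈ J, ∀ a, w (g a) = w a) {E : ℕ}
    (hJ2 : ∀ a, (∀ g ∈ J, g a = a) → w a < 1 → (w a) ^ E ≤ w (toN v N Φ.ϖ))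
    (hJ3 : ∀ b, w b ≤ 1 → ∃ a, (∀ g ∈ J, g a = a) ∧ w a ≤ 1 ∧ w (b - a) < 1)
    (Q : ι → N) (hQ : Q ≠ 0) (m V : ℕ) {A : ℕ} (hA : V * (idx J Q * E) ≤ A * (p ^ s) ^ m) :
    ∃ (nn : ℕ) (T : OW w) (cc : ι → ℕ → OW w) (b y : ι → OW w) (c0 : N),
      c0 ≠ 0 ∧ ((gAct F N)^[m] Q = c0 • fun l => (y l : N)) ∧ Prim w y ∧
      (∀ j, y j = ∑ a ∈ Finset.range nn, cc j a * T ^ a + b j) ∧
      (∀ j a, ∀ g ∈ J, g (cc j a : N) = cc j a) ∧ w (T : N) ^ A ≤ (w (toN v N Φ.ϖ)) ^ V ∧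
      (∀ j, w (b j : N) ^ V ≤ (w (toN v N Φ.ϖ)) ^ V) := by
  have : FiniteDimensional K N := Module.Finite.of_restrictScalars_finite ℚ K N
  have hactN : (Φ.map (toN v N)).act = gAct F N := gact_eq_aeval Φ F hΦF N
  have hπ0 : toN v N Φ.ϖ ≠ 0 := by
    change algebraMap K N (Φ.ϖ : K) ≠ 0
    simpa using hϖ0
  have hπ1 : w (toN v N Φ.ϖ) < 1 := gw_unif Φ h hϖ
  obtain ⟨k0, hk0⟩ := Finite.exists_max (fun l => w (Q l))
  obtain ⟨j0, hj0⟩ := Function.ne_iff.1 hQ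
  have hc : Q k0 ≠ 0 := by
    rw [← FinitePlace.pos_iff (w := w)]
    exact (FinitePlace.pos_iff.2 hj0).trans_le (hk0 j0)
  have hcpos : 0 < w (Q k0) := FinitePlace.pos_iff.2 hc
  set H := J ⊓ stab Q with hH
  obtain ⟨t, htS, ht0, ht1, htmax⟩ := exists_max_lt_one w {a : N | ∀ g ∈ H, g a = a}
    ⟨toN v N Φ.ϖ, fun g _ => g.commutes (Φ.ϖ : K), hπ0, hπ1⟩
  set n := idx J Q * E with hn
  have htn : w t ^ n ≤ w (toN v N Φ.ϖ) :=
    orbit_bound hJ1 hJ2 (stab Q) (fun g hg => htS g hg) ht1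
  set x : ι → OW w := fun l => ⟨Q l / Q k0, by
    rw [mem_OW, map_div₀]; exact div_le_one_of_le₀ (hk0 l) hcpos.le⟩ with hx
  have hQx : Q = Q k0 • fun l => (x l : N) := by
    funext l
    simp only [hx, Pi.smul_apply, smul_eq_mul]
    rw [mul_div_cancel₀ _ hc]
  have hprim : Prim w x := ⟨k0, by
    simp only [hx]
    rw [div_self hc, map_one]⟩
  have hex : ∀ l, ∃ (a : ℕ → OW w) (z : OW w), (∀ i, ∀ g ∈ J, g (a i : N) = a i) ∧
      x l = ∑ i ∈ Finset.range n, a i * (⟨t, ht1.le⟩ : OW w) ^ i +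
        (⟨t, ht1.le⟩ : OW w) ^ n * z := by
    intro l
    obtain ⟨a, ha1, ha2, z, hz, hz'⟩ := expansion (w := w) (J := J) (H := H) inf_le_left hJ3 ht0
      (fun g hg => htS g hg) (fun a ha => htmax a ha) n (Q l / Q k0)
      (fun g hg => stab_fix hg.2 k0 l) (x l).2
    refine ⟨fun i => ⟨a i, ha2 i⟩, ⟨z, hz⟩, ha1, ?_⟩
    apply Subtype.ext
    push_cast
    exact hz'
  choose a zz hafix hxa using hex
  obtain ⟨z, hz⟩ := normal_form Φ h hϖ hϖ0 hp m x a ⟨t, ht1.le⟩ zz htn hxa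
  refine ⟨n, (⟨t, ht1.le⟩ : OW w) ^ ((p ^ s) ^ m),
    fun j i => ∑ l, toOW h (gGk (p ^ s) Φ.g m j l) * (a l i) ^ ((p ^ s) ^ m),
    fun j => toOW h Φ.ϖ * z j, (Φ.map (toOW h)).act^[m] x, Q k0 ^ ((p ^ s) ^ m),
    pow_ne_zero _ hc, ?_, prim_act_iter Φ h hϖ m x hprim, hz, ?_, ?_, ?_⟩
  · conv_lhs => rw [← hactN, hQx, GF.act_iter_smul, ← gcoe_act_iter Φ h]
  · intro j i g hg
    rw [AddSubmonoidClass.coe_finsetSum, map_sum]
    refine Finset.sum_congr rfl fun l _ => ?_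
    rw [Subring.coe_mul, SubmonoidClass.coe_pow, map_mul, map_pow, hafix l i g hg]
    congr 1
    exact g.commutes _
  · rw [SubmonoidClass.coe_pow, map_pow, ← pow_mul]
    calc w t ^ ((p ^ s) ^ m * A) ≤ w t ^ (n * V) := by
          apply pow_le_pow_of_le_one (apply_nonneg w t) ht1.le
          linarith
      _ = (w t ^ n) ^ V := pow_mul _ _ _
      _ ≤ _ := pow_le_pow_left₀ (pow_nonneg (apply_nonneg w t) _) htn V
  · intro j
    apply pow_le_pow_left₀ (apply_nonneg w _)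
    rw [Subring.coe_mul, map_mul]
    calc w (toN v N Φ.ϖ) * w (z j : N) ≤ w (toN v N Φ.ϖ) * 1 :=
          mul_le_mul_of_nonneg_left (z j).2 (apply_nonneg w _)
      _ = _ := mul_one _

/-- closeness of the levels for points of small ramification -/
theorem low_close (h : Above v w e) (hϖ : v (Φ.ϖ : K) < 1) (hϖ0 : (Φ.ϖ : K) ≠ 0)
    (hp : p.Prime) (hs : 1 ≤ s)
    (F : ι → MvPolynomial ι K) (hF : ∀ i, (F i).IsHomogeneous (p ^ s))
    (hz : ∀ z : ι → AlgebraicClosure K, (∀ i, aeval z (F i) = 0) → z = 0)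
    (hΦF : ∀ i, map (OW v).subtype (Φ.F i) = F i)
    {J : Subgroup (N ≃ₐ[K] N)} (hJ1 : ∀ g ∈ J, ∀ a, w (g a) = w a) {E : ℕ} (hE1 : 1 ≤ E)
    (hJ2 : ∀ a, (∀ g ∈ J, g a = a) → w a < 1 → (w a) ^ E ≤ w (toN v N Φ.ϖ))
    {k : ℕ} (hk : ∀ l, GGoodExp Φ (k * l)) (τ : N ≃ₐ[K] N)
    (hτ : ∀ a : N, w a ≤ 1 → w (τ a - a ^ ((p ^ s) ^ k)) < 1) (hτw : ∀ a, w (τ a) = w a)
    (Q : ι → N) (hQ : Q ≠ 0) {m : ℕ} (hm : idx J Q * E ≤ (p ^ s) ^ m) (l i : ℕ) :
    Close w ((w (toN v N Φ.ϖ)) ^ (i + 1)) ((gAct F N)^[m + i + k * l] (gal (τ ^ l)⁻¹ Q))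
      ((gAct F N)^[m + i] Q) := by
  have : FiniteDimensional K N := Module.Finite.of_restrictScalars_finite ℚ K N
  obtain ⟨k0, hk0⟩ := Finite.exists_max (fun l => w (Q l))
  obtain ⟨j0, hj0⟩ := Function.ne_iff.1 hQ
  have hc : Q k0 ≠ 0 := by
    rw [← FinitePlace.pos_iff (w := w)]
    exact (FinitePlace.pos_iff.2 hj0).trans_le (hk0 j0)
  set H := J ⊓ stab Q with hH
  let L' : IntermediateField K N := IntermediateField.fixedField H
  have hfd : FiniteDimensional K L' := inferInstance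
  have hNF : NumberField L' := NumberField.of_module_finite K L'
  have hfix : ∀ l, Q l / Q k0 ∈ L' := by
    intro l
    rw [IntermediateField.mem_fixedField_iff]
    intro g hg
    exact stab_fix hg.2 k0 l
  set x : ι → L' := fun l => ⟨Q l / Q k0, hfix l⟩ with hx
  have hx0 : x ≠ 0 := by
    intro h0
    have h1 := congrArg (fun y : L' => (y : N)) (congrFun h0 k0)
    simp only [hx] at h1
    rw [div_self hc] at h1
    exact one_ne_zero h1
  have hτlw : ∀ (l : ℕ) (a : N), w ((τ ^ l) a) = w a := by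
    intro l
    induction l with
    | zero => intro a; simp
    | succ l ih => intro a; rw [pow_succ', AlgEquiv.mul_apply, hτw, ih]
  have hτlw' : ∀ a : N, w ((τ ^ l)⁻¹ a) = w a := by
    intro a
    have h1 := hτlw l ((τ ^ l)⁻¹ a)
    rw [← AlgEquiv.mul_apply, mul_inv_cancel] at h1
    exact h1.symm
  set ψ : L' →ₐ[K] N := L'.val with hψ
  set φ : L' →ₐ[K] N := (((τ ^ l)⁻¹ : N ≃ₐ[K] N) : N →ₐ[K] N).comp ψ with hφ
  have hEψ : ∀ a : L', w (ψ a) < 1 → (w (ψ a)) ^ (idx J Q * E) ≤ w (toN v N Φ.ϖ) := by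
    intro a ha
    refine orbit_bound hJ1 hJ2 (stab Q) (fun g hg => ?_) ha
    have := a.2
    rw [IntermediateField.mem_fixedField_iff] at this
    exact this g hg
  have hφw : ∀ a : L', w (φ a) = w (ψ a) := fun a => hτlw' _
  have hmain := level_close Φ h hϖ hϖ0 hp hs F hF hz hΦF hk τ hτ
    (E := idx J Q * E) (Nat.mul_pos (idx_pos J Q) hE1) hm x hx0 l i φ ψ
    (fun a ha => by rw [hφw] at ha ⊢; exact hEψ a ha) hEψ (fun a => by
      change _ = (τ ^ l) ((τ ^ l)⁻¹ (ψ a))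
      rw [← AlgEquiv.mul_apply, mul_inv_cancel]
      rfl)
  have hψx : (fun t => ψ (x t)) = (Q k0)⁻¹ • Q := by
    funext t
    change Q t / Q k0 = (Q k0)⁻¹ * Q t
    rw [div_eq_mul_inv, mul_comm]
  have hφx : (fun t => φ (x t)) = ((τ ^ l)⁻¹ (Q k0)⁻¹) • gal (τ ^ l)⁻¹ Q := by
    rw [← gal_smul, ← hψx]
    rfl
  have hc' : (τ ^ l)⁻¹ (Q k0)⁻¹ ≠ 0 := by simpa using hc
  rw [hφx, hψx, gAct_iter_smul F hF, gAct_iter_smul F hF] at hmain
  have h1 := hmain.smul_left (inv_ne_zero (pow_ne_zero ((p ^ s) ^ (m + i + k * l)) hc'))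
  have h2 := h1.smul_right (inv_ne_zero (pow_ne_zero ((p ^ s) ^ (m + i)) (inv_ne_zero hc)))
  rw [smul_smul, smul_smul, inv_mul_cancel₀ (pow_ne_zero _ hc'), inv_mul_cancel₀
    (pow_ne_zero _ (inv_ne_zero hc)), one_smul, one_smul] at h2
  exact h2

end data

end Pool.DynLehmer
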