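import Mathlib
import Pool.Agent.Lib.MP_2194ec_nt.RelLevels

set_option autoImplicit false

/-!
# The relative lower bound in projective space
-/

namespace Pool.DynLehmer
open MvPolynomial NumberField Filter Topology
open scoped Classical LinearAlgebra.Projectivization

section endgame

theorem rpow_aux {y : ℝ} (hy : 1 ≤ y) (N' : ℕ) :
    (y ^ (1 / ((N' : ℝ) + 1))) ^ (N' + 1) = y ∧
    (y ^ (1 / ((N' : ℝ) + 1))) ^ N' = y ^ ((N' : ℝ) / ((N' : ℝ) + 1)) ∧
    1 ≤ y ^ (1 / ((N' : ℝ) + 1)) := by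
  have h0 : (0 : ℝ) ≤ y := by linarith
  have hN : ((N' : ℝ) + 1) ≠ 0 := by positivity
  refine ⟨?_, ?_, ?_⟩
  · rw [← Real.rpow_natCast, ← Real.rpow_mul h0]
    push_cast
    rw [one_div, inv_mul_cancel₀ hN, Real.rpow_one]
  · rw [← Real.rpow_natCast, ← Real.rpow_mul h0]
    congr 1
    ring
  · exact Real.one_le_rpow hy (by positivity)

/-- the choice of the parameters -/
theorem endgame {lam C1 D : ℝ} (hlam : 0 < lam) (hC1 : 0 ≤ C1) (hD : 1 ≤ D) (N' : ℕ) :
    ∃ T : ℕ, 1 ≤ T ∧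
      C1 * (1 + Real.log (((2 * (2 * T) ^ N' : ℕ) : ℝ) * D)) ≤
        lam / 2 * ((T : ℝ) * ((2 * (2 * T) ^ N' : ℕ) : ℝ)) ∧
      ((2 * (2 * T) ^ N' : ℕ) : ℝ) ≤
        2 * (4 * max 1 (C1 * (2 + 2 * N') / lam)) ^ N' *
          (1 + Real.log D) ^ ((N' : ℝ) / ((N' : ℝ) + 1)) := by
  set B1 := max 1 (C1 * (2 + 2 * N') / lam) with hB1
  have hB11 : 1 ≤ B1 := le_max_left _ _
  have hB12 : C1 * (2 + 2 * N') ≤ lam * B1 := by
    have h1 : C1 * (2 + 2 * N') / lam ≤ B1 := le_max_right _ _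
    rw [div_le_iff₀ hlam] at h1
    linarith
  have hlogD : 0 ≤ Real.log D := Real.log_nonneg hD
  set y := 1 + Real.log D with hy
  have hy1 : 1 ≤ y := by linarith
  obtain ⟨e1, e2, e3⟩ := rpow_aux hy1 N'
  set r := y ^ (1 / ((N' : ℝ) + 1)) with hr
  set T := ⌈B1 * r⌉₊ with hT
  have hTge : B1 * r ≤ T := Nat.le_ceil _
  have hBr : 1 ≤ B1 * r := one_le_mul_of_one_le_of_one_le hB11 e3
  have hT1 : (1 : ℝ) ≤ T := hBr.trans hTge
  have hTle : (T : ℝ) ≤ 2 * (B1 * r) := by
    have := (Nat.ceil_lt_add_one (a := B1 * r) (by linarith)).le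
    rw [← hT] at this
    linarith
  refine ⟨T, by exact_mod_cast hT1, ?_, ?_⟩
  · -- the main estimate
    set X : ℝ := (T : ℝ) ^ (N' + 1) with hX
    have hBT : B1 ≤ T := by
      calc B1 = B1 * 1 := (mul_one _).symm
        _ ≤ B1 * r := by gcongr
        _ ≤ T := hTge
    have hX1 : B1 * y ≤ X := by
      calc B1 * y = B1 ^ 1 * r ^ (N' + 1) := by rw [e1, pow_one]
        _ ≤ B1 ^ (N' + 1) * r ^ (N' + 1) :=
            mul_le_mul_of_nonneg_right (pow_le_pow_right₀ hB11 (by omega)) (by positivity)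
        _ = (B1 * r) ^ (N' + 1) := (mul_pow _ _ _).symm
        _ ≤ X := pow_le_pow_left₀ (by linarith) hTge _
    have hX2 : B1 * ((N' : ℝ) * T) ≤ N' * X := by
      rcases Nat.eq_zero_or_pos N' with h0 | h0
      · rw [h0]; simp
      · have h1 : B1 ≤ (T : ℝ) ^ N' := by
          calc B1 ≤ (T : ℝ) ^ 1 := by rw [pow_one]; exact hBT
            _ ≤ (T : ℝ) ^ N' := pow_le_pow_right₀ hT1 h0
        have h2 : X = (T : ℝ) ^ N' * T := pow_succ _ _
        rw [h2]
        have h3 : B1 * (N' * T) = (N' : ℝ) * (B1 * T) := by ring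
        rw [h3]
        gcongr
    have hB1X : B1 ≤ X := by
      calc B1 = B1 * 1 := (mul_one _).symm
        _ ≤ B1 * y := by gcongr
        _ ≤ X := hX1
    have hTpos : (0 : ℝ) < T := by linarith
    have hLvpos : (0 : ℝ) < ((2 * (2 * T) ^ N' : ℕ) : ℝ) := by
      push_cast; positivity
    have hlogLv : Real.log ((2 * (2 * T) ^ N' : ℕ) : ℝ) ≤ 1 + 2 * (N' * T) := by
      push_cast
      rw [Real.log_mul (by norm_num) (by positivity), Real.log_pow]
      have h1 : Real.log 2 ≤ 1 := by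
        have := Real.log_two_lt_d9; linarith
      have h2 : Real.log (2 * (T : ℝ)) ≤ 2 * T := by
        have := Real.log_le_sub_one_of_pos (show (0 : ℝ) < 2 * T by positivity)
        linarith
      have h3 : (N' : ℝ) * Real.log (2 * T) ≤ N' * (2 * T) := by gcongr
      linarith
    have hlog : B1 * (1 + Real.log (((2 * (2 * T) ^ N' : ℕ) : ℝ) * D)) ≤ (2 + 2 * N') * X := by
      rw [Real.log_mul hLvpos.ne' (by linarith)]
      have h1 : 1 + (Real.log ((2 * (2 * T) ^ N' : ℕ) : ℝ) + Real.log D) ≤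
          y + 1 + 2 * (N' * T) := by linarith
      calc B1 * (1 + (Real.log ((2 * (2 * T) ^ N' : ℕ) : ℝ) + Real.log D))
          ≤ B1 * (y + 1 + 2 * (N' * T)) := by gcongr
        _ = B1 * y + B1 + 2 * (B1 * (N' * T)) := by ring
        _ ≤ X + X + 2 * (N' * X) := by linarith
        _ = (2 + 2 * N') * X := by ring
    have hTL : 2 * X ≤ (T : ℝ) * ((2 * (2 * T) ^ N' : ℕ) : ℝ) := by
      push_cast
      have h1 : (T : ℝ) * (2 * (2 * T) ^ N') = 2 * (2 ^ N' * X) := by
        rw [hX, mul_pow, pow_succ]; ring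
      rw [h1]
      have h2 : (1 : ℝ) ≤ 2 ^ N' := one_le_pow₀ (by norm_num)
      nlinarith
    have hfin : B1 * (C1 * (1 + Real.log (((2 * (2 * T) ^ N' : ℕ) : ℝ) * D))) ≤
        B1 * (lam / 2 * ((T : ℝ) * ((2 * (2 * T) ^ N' : ℕ) : ℝ))) := by
      calc B1 * (C1 * (1 + Real.log (((2 * (2 * T) ^ N' : ℕ) : ℝ) * D)))
          = C1 * (B1 * (1 + Real.log (((2 * (2 * T) ^ N' : ℕ) : ℝ) * D))) := by ring
        _ ≤ C1 * ((2 + 2 * N') * X) := by gcongr
        _ = (C1 * (2 + 2 * N')) * X := by ring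
        _ ≤ (lam * B1) * X := by gcongr
        _ = B1 * (lam / 2 * (2 * X)) := by ring
        _ ≤ B1 * (lam / 2 * ((T : ℝ) * ((2 * (2 * T) ^ N' : ℕ) : ℝ))) := by gcongr
    exact le_of_mul_le_mul_left hfin (by linarith)
  · push_cast
    rw [← e2]
    have h1 : (2 * (T : ℝ)) ^ N' ≤ (4 * B1) ^ N' * r ^ N' := by
      rw [← mul_pow]
      apply pow_le_pow_left₀ (by positivity)
      linarith
    calc 2 * (2 * (T : ℝ)) ^ N' ≤ 2 * ((4 * B1) ^ N' * r ^ N') := by gcongr
      _ = _ := by ring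

theorem sum_geom_le {q : ℝ} (hq : 2 ≤ q) (J : ℕ) :
    ∑ j ∈ Finset.range (J + 1), q ^ j ≤ 2 * q ^ J := by
  induction J with
  | zero => simp
  | succ J ih =>
    rw [Finset.sum_range_succ, pow_succ]
    have : 0 ≤ q ^ J := by positivity
    nlinarith

theorem rpow_one_add_le {y : ℝ} (hy : 0 ≤ y) {θ : ℝ} (h0 : 0 ≤ θ) (h1 : θ ≤ 1) :
    (1 + y) ^ θ ≤ 1 + y ^ θ := by
  have := Real.rpow_add_le_add_rpow zero_le_one hy h0 h1
  rwa [Real.one_rpow] at this

end endgame

theorem relmain_jlog (J : ℕ) (q n : ℝ) (hq2r : 2 ≤ q) (hn1r : 1 ≤ n) (hqJ : q ^ J ≤ q * n) :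
    (J : ℝ) + 1 ≤ 2 + 2 * Real.log n := by
  have hq0 : 0 < q := by linarith
  have hn0 : 0 < n := by linarith
  have hlogn : 0 ≤ Real.log n := Real.log_nonneg hn1r
  have h1 : Real.log (q ^ J) ≤ Real.log (q * n) := Real.log_le_log (pow_pos hq0 _) hqJ
  rw [Real.log_pow, Real.log_mul hq0.ne' hn0.ne'] at h1
  have h2 : (1 / 2 : ℝ) ≤ Real.log q := by
    have h3 : Real.log 2 ≤ Real.log q := Real.log_le_log (by norm_num) hq2r
    linarith [Real.log_two_gt_d9]
  have h3 : ((J : ℝ) - 1) * Real.log q ≤ Real.log n := by linarith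
  rcases le_or_gt (J : ℝ) 1 with h4 | h4
  · linarith
  · have h5 := mul_le_mul_of_nonneg_left h2 (show 0 ≤ (J : ℝ) - 1 by linarith)
    linarith

section core

variable {K : Type} [Field K] [NumberField K] {p s : ℕ} {ι : Type} [Fintype ι] [DecidableEq ι]

/-- **The relative lower bound**, abstract form. -/
theorem rel_core [Nonempty ι] (hp : p.Prime) (hs : 1 ≤ s) (v : FinitePlace K)
    (Φ : GF (OW v) p s ι) (hϖ : v (Φ.ϖ : K) < 1) (hϖ0 : (Φ.ϖ : K) ≠ 0)
    (F : ι → MvPolynomial ι K) (hF : ∀ i, (F i).IsHomogeneous (p ^ s))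
    (hz : ∀ z : ι → AlgebraicClosure K, (∀ i, aeval z (F i) = 0) → z = 0)
    (hΦF : ∀ i, map (OW v).subtype (Φ.F i) = F i) (m : ℕ) (hm : 1 ≤ m) :
    ∃ A B : ℝ, 0 < A ∧ 0 < B ∧ ∀ (L N : Type) [Field L] [NumberField L] [Algebra K L]
      [Field N] [NumberField N] [Algebra K N] (f' : ℕ) (A' : Finset (L →ₐ[K] N))
      (s0 : N ≃ₐ[K] N)
      (S : Finset (FinitePlace N)) (e : FinitePlace N → ℕ) (τ : FinitePlace N → (N ≃ₐ[K] N))
      (E : ℕ), 1 ≤ f' → A'.Nonempty → 1 ≤ E →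
      (∀ w ∈ S, Above v w (e w)) → (Module.finrank K N ≤ m * ∑ w ∈ S, e w) →
      (∀ w ∈ S, ∀ a : N, w a ≤ 1 → w (τ w a - a ^ (p ^ f')) < 1) →
      (∀ w ∈ S, ∀ l : ℕ, ∀ φ ∈ A', ∀ a : L, w ((s0 ^ l)⁻¹ (φ a)) < 1 →
        (w ((s0 ^ l)⁻¹ (φ a))) ^ E ≤ w (toN v N Φ.ϖ)) →
      (∀ w ∈ S, ∀ l : ℕ, ∀ φ ∈ A',
        (((τ w) ^ l * (s0 ^ l)⁻¹ : N ≃ₐ[K] N) : N →ₐ[K] N).comp φ ∈ A') →
      ∀ x : ι → L, x ≠ 0 →
      (¬ ∃ m n : ℕ, m ≠ n ∧ ∃ c : L, c ≠ 0 ∧ (gAct F L)^[n] x = c • (gAct F L)^[m] x) →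
      ∃ h : ℝ, Tendsto (fun n : ℕ => Height.logHeight ((gAct F L)^[n] x) /
        (Module.finrank ℚ L : ℝ) / ((p ^ s : ℕ) : ℝ) ^ n) atTop (𝓝 h) ∧
        A / ((A'.card : ℝ) * E) * Real.exp (-(B * f' * (1 + (Real.log A'.card) ^
          (((Fintype.card ι - 1 : ℕ) : ℝ) / (((Fintype.card ι - 1 : ℕ) : ℝ) + 1))))) ≤ h := by
  have hq2 : 2 ≤ p ^ s := hp.two_le.trans (Nat.le_self_pow (by omega) p)
  have hq2r : (2 : ℝ) ≤ ((p ^ s : ℕ) : ℝ) := by exact_mod_cast hq2
  obtain ⟨m0, hm01, hm0⟩ := exists_ggoodExp Φ hϖ hp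
  obtain ⟨C, hC0, hC⟩ := height_morphism F (p ^ s) hF hz
  obtain ⟨b, hb1, hb⟩ := span_adapted F (p ^ s) hF hz
  set Λ : ℝ := - Real.log (v (Φ.ϖ : K)) with hΛ
  have hΛ0 : 0 < Λ := neg_pos.2 (Real.log_neg (FinitePlace.pos_iff.2 hϖ0) hϖ)
  have hKpos : (0 : ℝ) < Module.finrank ℚ K := by exact_mod_cast Module.finrank_pos
  have hmpos : (0 : ℝ) < m := by exact_mod_cast hm
  set q : ℝ := ((p ^ s : ℕ) : ℝ) with hq
  have hq0 : 0 < q := by linarith
  set N' := Fintype.card ι - 1 with hN'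
  set lam : ℝ := Λ / (m * Module.finrank ℚ K) with hlam
  have hlam0 : 0 < lam := by positivity
  set C1 : ℝ := 2 * b * C + 1 with hC1
  have hC10 : 0 ≤ C1 := by positivity
  have hbpos : (0 : ℝ) < b := by exact_mod_cast hb1
  set B2 : ℝ := 2 * m0 * Real.log q * (2 * (4 * max 1 (C1 * (2 + 2 * N') / lam)) ^ N') with hB2
  have hm0pos : (0 : ℝ) < m0 := by exact_mod_cast hm01
  have hlogq : 0 < Real.log q := Real.log_pos (by linarith)
  have hmax1 : (1 : ℝ) ≤ max 1 (C1 * (2 + 2 * N') / lam) := le_max_left _ _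
  have hB20 : 0 < B2 := by positivity
  refine ⟨lam / (4 * b * q ^ 2), B2, by positivity, hB20, ?_⟩
  intro L N _ _ _ _ _ _ f' A' s0 S e τ E hf' hA' hE1 hS hcard hfrob hram hclosed x hx hwand
  set k := m0 * f' with hk
  have hkpos : 1 ≤ k := Nat.mul_pos hm01 hf'
  have hNpos : (0 : ℝ) < Module.finrank ℚ N := by exact_mod_cast Module.finrank_pos
  have htower : (Module.finrank ℚ K : ℝ) * Module.finrank K N = Module.finrank ℚ N := by
    exact_mod_cast Module.finrank_mul_finrank ℚ K N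
  have hact : (Φ.map (toN v N)).act = gAct F N := gact_eq_aeval Φ F hΦF N
  -- heights on `N`
  set H : (ι → N) → ℝ := fun z => Height.logHeight z / (Module.finrank ℚ N : ℝ) with hH
  have hHact : ∀ z, |H (gAct F N z) - q * H z| ≤ C := by
    intro z
    simp only [hH]
    have h5 : Height.logHeight (gAct F N z) / (Module.finrank ℚ N : ℝ) -
        q * (Height.logHeight z / Module.finrank ℚ N) =
        (Height.logHeight (gAct F N z) - q * Height.logHeight z) / Module.finrank ℚ N := by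
      field_simp
    rw [h5, abs_div, abs_of_pos hNpos, div_le_iff₀ hNpos]
    exact hC N z
  obtain ⟨hh, hlim, -, hdiff, hmul, -⟩ := commuting_heights H (gAct F N) (gAct F N)
    (fun _ => rfl) hq2r hq2r hHact hHact
  have hmuln : ∀ (n : ℕ) z, hh ((gAct F N)^[n] z) = q ^ n * hh z := by
    intro n z
    induction n with
    | zero => simp
    | succ n ih => rw [Function.iterate_succ_apply', hmul, ih, pow_succ]; ring
  have hhsmul : ∀ (c : N) z, c ≠ 0 → hh (c • z) = hh z := by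
    intro c z hc
    refine tendsto_nhds_unique (hlim (c • z)) ((hlim z).congr fun n => ?_)
    rw [gAct_iter_smul F hF]
    simp only [hH]
    rw [Height.logHeight_smul_eq_logHeight _ (pow_ne_zero _ hc)]
  -- the canonical height of `x`
  obtain ⟨φ0, hφ0⟩ := hA'
  have hφiter : ∀ (φ : L →ₐ[K] N) (n : ℕ), H ((gAct F N)^[n] (fun t => φ (x t))) =
      Height.logHeight ((gAct F L)^[n] x) / (Module.finrank ℚ L : ℝ) := by
    intro φ n
    simp only [hH]
    rw [gAct_iter_map F φ n x]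
    exact logHeight_hom (φ : L →+* N) _
  set hx' := hh (fun t => φ0 (x t)) with hhx'
  have hlimx : Tendsto (fun n : ℕ => Height.logHeight ((gAct F L)^[n] x) /
        (Module.finrank ℚ L : ℝ) / ((p ^ s : ℕ) : ℝ) ^ n) atTop (𝓝 hx') := by
    refine (hlim (fun t => φ0 (x t))).congr fun n => ?_
    rw [hφiter]
  have hhφ : ∀ φ : L →ₐ[K] N, hh (fun t => φ (x t)) = hx' := by
    intro φ
    refine tendsto_nhds_unique (hlim _) (hlimx.congr fun n => ?_)
    rw [hφiter]
  refine ⟨hx', hlimx, ?_⟩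
  have hx'ne : hx' ≠ 0 := hhat_ne_zero hq2 F hF hz L x hx hwand hx' hlimx
  have hx'nn : 0 ≤ hx' :=
    ge_of_tendsto' hlimx fun n => div_nonneg (div_nonneg (Height.logHeight_nonneg _)
      (Nat.cast_nonneg _)) (pow_nonneg hq0.le _)
  have hx'pos : 0 < hx' := lt_of_le_of_ne hx'nn (Ne.symm hx'ne)
  have hφx : ∀ φ : L →ₐ[K] N, (fun t => φ (x t)) ≠ 0 := by
    intro φ h0
    apply hx
    funext t
    have := congrFun h0 t
    simpa using this
  -- parameters
  set D : ℕ := A'.card with hD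
  have hDpos : 1 ≤ D := Finset.card_pos.2 ⟨φ0, hφ0⟩
  have hD1 : (1 : ℝ) ≤ D := by exact_mod_cast hDpos
  obtain ⟨T, hT1, hT2, hT3⟩ := endgame hlam0 hC10 hD1 N'
  set Lv : ℕ := 2 * (2 * T) ^ N' with hLv
  have hLv1 : 1 ≤ Lv := Nat.mul_pos two_pos (pow_pos (by omega) _)
  obtain ⟨j0, hj01, hj02⟩ := exists_pow_between hq2 hE1
  obtain ⟨i0, hi0⟩ : ∃ i0, Lv = i0 + 1 := ⟨Lv - 1, by omega⟩
  set c := s * m0 with hc
  have hcpos : 1 ≤ c := Nat.mul_pos (by omega) hm01
  -- the points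
  set tw : ℕ → (L →ₐ[K] N) → (L →ₐ[K] N) := fun l φ =>
    (((s0 ^ (c * l))⁻¹ : N ≃ₐ[K] N) : N →ₐ[K] N).comp φ with htw
  set Z : ℕ × (L →ₐ[K] N) → (ι → N) := fun a =>
    (gAct F N)^[j0 + i0 + k * a.1] (fun t => tw a.1 a.2 (x t)) with hZ
  have hZne : ∀ a, Z a ≠ 0 := fun a => gAct_iter_ne F hF hz _ _ (hφx _)
  have hhZ : ∀ a, hh (Z a) = q ^ (j0 + i0 + k * a.1) * hx' := by
    intro a
    simp only [hZ]
    rw [hmuln, hhφ]
  have hlev : ∀ a a', (∃ c : N, c ≠ 0 ∧ Z a = c • Z a') → a.1 = a'.1 := by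
    rintro a a' ⟨c, hc, h⟩
    have h1 := congrArg hh h
    rw [hhsmul _ _ hc, hhZ, hhZ] at h1
    have h2 := mul_right_cancel₀ hx'ne h1
    have h3 := pow_right_injective₀ hq0 (by linarith) h2
    have h4 : k * a.1 = k * a'.1 := by omega
    exact Nat.eq_of_mul_eq_mul_left (by omega) h4
  set I : Finset (ℕ × (L →ₐ[K] N)) := Finset.range Lv ×ˢ A' with hI
  set O : Finset (ℙ N (ι → N)) := I.image fun a => Projectivization.mk N (Z a) (hZne a) with hO
  set n := O.card with hn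
  have hnle : n ≤ Lv * D := by
    refine Finset.card_image_le.trans ?_
    rw [hI, Finset.card_product, Finset.card_range]
  have hIne : I.Nonempty := ⟨(0, φ0), Finset.mem_product.2 ⟨Finset.mem_range.2 hLv1, hφ0⟩⟩
  have hn1 : 1 ≤ n := Finset.card_pos.2 (hIne.image _)
  set en := O.equivFin.symm with hen
  have hpre : ∀ a : Fin n, ∃ y ∈ I, Projectivization.mk N (Z y) (hZne y) = (en a : ℙ N (ι → N)) :=
    fun a => by
      obtain ⟨y, hy, hy'⟩ := Finset.mem_image.1 (en a).2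
      exact ⟨y, hy, hy'⟩
  choose pre hpreI hpre using hpre
  set z : Fin n → (ι → N) := fun a => Z (pre a) with hzdef
  have hz0 : ∀ a, z a ≠ 0 := fun a => hZne _
  have hzz : ∀ a i, i ≠ a → ∃ k l, z i k * z a l - z i l * z a k ≠ 0 := by
    intro a i hia
    by_contra hcon
    push Not at hcon
    obtain ⟨c, hc, h⟩ := prop_of_minors (hz0 i) (hz0 a) hcon
    apply hia
    apply en.injective
    apply Subtype.ext
    rw [← hpre i, ← hpre a]
    exact mk_eq_of_smul _ _ h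
  have hcover : ∀ y ∈ I, ∃ a : Fin n, ∃ c : N, c ≠ 0 ∧ z a = c • Z y := by
    intro y hy
    have h1 : Projectivization.mk N (Z y) (hZne y) ∈ O := Finset.mem_image_of_mem _ hy
    refine ⟨en.symm ⟨_, h1⟩, ?_⟩
    apply smul_of_mk_eq (hz0 _) (hZne y)
    have h2 := hpre (en.symm ⟨_, h1⟩)
    rw [Equiv.apply_symm_apply] at h2
    exact h2
  -- closeness
  set π : FinitePlace N → ℝ := fun w => w (toN v N Φ.ϖ) with hπ
  have hπ0 : ∀ w, 0 < π w := by
    intro w
    rw [hπ, FinitePlace.pos_iff]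
    change algebraMap K N (Φ.ϖ : K) ≠ 0
    simpa using hϖ0
  have hπ1 : ∀ w ∈ S, π w < 1 := fun w hw => gw_unif Φ (hS w hw) hϖ
  have hkey : ∀ w ∈ S, ∀ a : Fin n,
      Lv ≤ (Finset.univ.filter fun a' => Close w (π w ^ Lv) (z a) (z a')).card := by
    intro w hw a
    obtain ⟨hl, hφ⟩ := Finset.mem_product.1 (hpreI a)
    set l := (pre a).1 with hldef
    set φ := (pre a).2 with hφdef
    have hfr : ∀ y : N, w y ≤ 1 → w ((τ w ^ c) y - y ^ ((p ^ s) ^ k)) < 1 := by
      intro y hy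
      have h1 := frob_pow (τ w) w (p ^ f') (hfrob w hw) c y hy
      have h2 : (p ^ f') ^ c = (p ^ s) ^ k := by
        rw [hk, hc, ← pow_mul, ← pow_mul]; congr 1; ring
      rw [h2] at h1
      exact h1
    set g : ℕ → (L →ₐ[K] N) → (L →ₐ[K] N) := fun l φ =>
      (((τ w) ^ (c * l) * (s0 ^ (c * l))⁻¹ : N ≃ₐ[K] N) : N →ₐ[K] N).comp φ with hg
    have hgA : ∀ l, ∀ φ ∈ A', g l φ ∈ A' := fun l φ hφ => hclosed w hw (c * l) φ hφ
    have hginj : ∀ l, Function.Injective (g l) := by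
      intro l φ₁ φ₂ h12
      ext y
      have h1 := congrArg (fun ψ : L →ₐ[K] N => ψ y) h12
      exact ((τ w) ^ (c * l) * (s0 ^ (c * l))⁻¹ : N ≃ₐ[K] N).injective h1
    have hgsurj : ∀ l, ∀ ψ ∈ A', ∃ φ ∈ A', g l φ = ψ := by
      intro l ψ hψ
      have h1 : A'.image (g l) = A' := by
        apply Finset.eq_of_subset_of_card_le
        · intro ψ' hψ'
          obtain ⟨φ', hφ', rfl⟩ := Finset.mem_image.1 hψ'
          exact hgA l φ' hφ'
        · rw [Finset.card_image_of_injective _ (hginj l)]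
      rw [← h1] at hψ
      obtain ⟨φ', hφ', h2⟩ := Finset.mem_image.1 hψ
      exact ⟨φ', hφ', h2⟩
    have hlc : ∀ (l : ℕ) (φ : L →ₐ[K] N), φ ∈ A' → Close w (π w ^ Lv) (Z (l, φ))
        ((gAct F N)^[j0 + i0] (fun t => g l φ (x t))) := by
      intro l φ hφ
      have h1 := level_close Φ (hS w hw) hϖ hϖ0 hp hs F hF hz hΦF (k := k)
        (fun l => hm0 (k * l) ⟨f' * l, by rw [hk]; ring⟩) (τ w ^ c) hfr hE1 hj01 x hx
        l i0 (tw l φ) (g l φ) (fun a => hram w hw (c * l) φ hφ a)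
        (fun a => by
          have := hram w hw 0 (g l φ) (hgA l φ hφ) a
          simpa using this) (fun y => by
          simp only [hg, htw]
          rw [← pow_mul]
          rfl)
      rw [← hi0] at h1
      exact h1
    have hψ : g l φ ∈ A' := hgA l φ hφ
    have hex : ∀ l' : Fin Lv, ∃ (φ' : L →ₐ[K] N) (a' : Fin n), φ' ∈ A' ∧
        (∃ c : N, c ≠ 0 ∧ z a' = c • Z (l', φ')) ∧ Close w (π w ^ Lv) (z a) (z a') := by
      intro l'
      obtain ⟨φ', hφ', h1⟩ := hgsurj l' (g l φ) hψ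
      obtain ⟨a', c', hc', h2⟩ := hcover (l', φ')
        (Finset.mem_product.2 ⟨Finset.mem_range.2 l'.2, hφ'⟩)
      refine ⟨φ', a', hφ', ⟨c', hc', h2⟩, ?_⟩
      have h3 := hlc l φ hφ
      have h4 := hlc l' φ' hφ'
      rw [h1] at h4
      have h5 := h3.trans' h4.symm'
      have h6 := h5.smul_right hc'
      rw [← h2] at h6
      exact h6
    choose φ' a' hφ'A hza' hcl using hex
    have hinj : Function.Injective a' := by
      intro l₁ l₂ h12
      obtain ⟨c₁, hc₁, e₁⟩ := hza' l₁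
      obtain ⟨c₂, hc₂, e₂⟩ := hza' l₂
      rw [h12, e₂] at e₁
      have h1 : Z (l₂, φ' l₂) = (c₂⁻¹ * c₁) • Z (l₁, φ' l₁) := by
        rw [mul_smul, ← e₁, smul_smul, inv_mul_cancel₀ hc₂, one_smul]
      have h2 := hlev _ _ ⟨_, mul_ne_zero (inv_ne_zero hc₂) hc₁, h1⟩
      exact (Fin.ext h2).symm
    calc Lv = (Finset.univ.image a').card := by
          rw [Finset.card_image_of_injective _ hinj, Finset.card_univ, Fintype.card_fin]
      _ ≤ _ := by
          apply Finset.card_le_card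
          intro y hy
          obtain ⟨l', _, rfl⟩ := Finset.mem_image.1 hy
          exact Finset.mem_filter.2 ⟨Finset.mem_univ _, hcl l'⟩
  -- the energy inequality
  obtain ⟨J, hJ1, hJ2⟩ := exists_pow_between hq2 hn1
  have hdl : n ≤ dl b (p ^ s) J + 1 := by
    have h1 : (p ^ s) ^ J ≤ dl b (p ^ s) J := by
      rw [dl_eq]
      calc (p ^ s) ^ J ≤ (p ^ s) ^ J * b := Nat.le_mul_of_pos_right _ hb1
        _ ≤ _ := Finset.single_le_sum (f := fun j => (p ^ s) ^ j * b) (fun _ _ => Nat.zero_le _)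
            (Finset.mem_range.2 (Nat.lt_succ_self J))
    omega
  have hen' := energy_PN Φ hϖ F hF hz hΦF hb S e hS hdl z hz0 hzz (fun w => π w ^ Lv)
    (fun w hw => pow_pos (hπ0 w) _) (fun w hw => pow_lt_one₀ (hπ0 w).le (hπ1 w hw) (by omega)) T
    (fun w hw a => by
      have := hkey w hw a
      rw [hLv] at this ⊢
      exact this)
  -- left side
  set Hm : ℝ := q ^ (j0 + (k + 1) * Lv) * hx' with hHm
  have hHmz : ∀ a, hh (z a) ≤ Hm := by
    intro a
    simp only [hzdef]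
    rw [hhZ, hHm]
    have hl : (pre a).1 < Lv := Finset.mem_range.1 (Finset.mem_product.1 (hpreI a)).1
    apply mul_le_mul_of_nonneg_right _ hx'nn
    apply pow_le_pow_right₀ (by linarith)
    have h1 : k * (pre a).1 ≤ k * Lv := Nat.mul_le_mul_left k hl.le
    have h2 : (k + 1) * Lv = k * Lv + Lv := by ring
    omega
  have hHm0 : 0 < Hm := by positivity
  have hleft : (T : ℝ) * n * (Lv * (lam * Module.finrank ℚ N)) ≤
      ∑ w ∈ S, ((T : ℝ) * n) * (- Real.log (π w ^ Lv)) := by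
    have h1 : ∑ w ∈ S, ((T : ℝ) * n) * (- Real.log (π w ^ Lv)) =
        (T : ℝ) * n * (Lv * (Λ * ∑ w ∈ S, (e w : ℝ))) := by
      rw [Finset.mul_sum, Finset.mul_sum, Finset.mul_sum]
      refine Finset.sum_congr rfl fun w hw => ?_
      have h2 : Real.log (π w) = - (e w * Λ) := by
        change Real.log (w (algebraMap K N (Φ.ϖ : K))) = _
        rw [(hS w hw).2, Real.log_pow, hΛ]
        ring
      rw [Real.log_pow, h2]
      ring
    rw [h1]
    have h2 : (Module.finrank K N : ℝ) ≤ m * ∑ w ∈ S, (e w : ℝ) := by exact_mod_cast hcard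
    have h3 : lam * Module.finrank ℚ N ≤ Λ * ∑ w ∈ S, (e w : ℝ) := by
      rw [← htower, hlam]
      have h4 : Λ / (m * Module.finrank ℚ K) * ((Module.finrank ℚ K : ℝ) * Module.finrank K N) =
          Λ / m * Module.finrank K N := by
        field_simp
      rw [h4]
      calc Λ / m * Module.finrank K N ≤ Λ / m * (m * ∑ w ∈ S, (e w : ℝ)) :=
            mul_le_mul_of_nonneg_left h2 (div_nonneg hΛ0.le hmpos.le)
        _ = Λ * ∑ w ∈ S, (e w : ℝ) := by field_simp
    exact mul_le_mul_of_nonneg_left (mul_le_mul_of_nonneg_left h3 (Nat.cast_nonneg _))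
      (mul_nonneg (Nat.cast_nonneg _) (Nat.cast_nonneg _))
  -- right side
  have hright : ∑ i, ∑ j ∈ Finset.range (J + 1), (b : ℝ) *
      Height.logHeight ((gAct F N)^[j] (z i)) + Module.finrank ℚ N * Real.log (n.factorial) ≤
      n * (Module.finrank ℚ N * (2 * b * q * n * Hm + C1 * (1 + Real.log n))) := by
    have hn1r : (1 : ℝ) ≤ n := by exact_mod_cast hn1
    have hlogn : 0 ≤ Real.log n := Real.log_nonneg hn1r
    have hqJ : q ^ J ≤ q * n := by rw [hq]; exact_mod_cast hJ2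
    have hJlog : (J : ℝ) + 1 ≤ 2 + 2 * Real.log n := relmain_jlog J q n hq2r hn1r hqJ
    have h1 : ∀ i, ∑ j ∈ Finset.range (J + 1), (b : ℝ) *
        Height.logHeight ((gAct F N)^[j] (z i)) ≤
        Module.finrank ℚ N * (2 * b * q * n * Hm + b * C * (2 + 2 * Real.log n)) := by
      intro i
      have h2 : ∀ j ∈ Finset.range (J + 1), (b : ℝ) * Height.logHeight ((gAct F N)^[j] (z i)) ≤
          Module.finrank ℚ N * (b * (q ^ j * Hm + C)) := by
        intro j _
        have h3 : Height.logHeight ((gAct F N)^[j] (z i)) =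
            Module.finrank ℚ N * H ((gAct F N)^[j] (z i)) := by
          simp only [hH]
          field_simp
        have h4 : H ((gAct F N)^[j] (z i)) ≤ q ^ j * Hm + C := by
          have h5 := abs_le.1 (hdiff ((gAct F N)^[j] (z i)))
          rw [hmuln] at h5
          have h6 : q ^ j * hh (z i) ≤ q ^ j * Hm :=
            mul_le_mul_of_nonneg_left (hHmz i) (by positivity)
          linarith [h5.2]
        rw [h3]
        calc (b : ℝ) * (Module.finrank ℚ N * H ((gAct F N)^[j] (z i)))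
            = Module.finrank ℚ N * (b * H ((gAct F N)^[j] (z i))) := by ring
          _ ≤ _ := by gcongr
      refine (Finset.sum_le_sum h2).trans ?_
      rw [← Finset.mul_sum, ← Finset.mul_sum, Finset.sum_add_distrib, ← Finset.sum_mul,
        Finset.sum_const, Finset.card_range, nsmul_eq_mul]
      apply mul_le_mul_of_nonneg_left _ hNpos.le
      have h3 : (∑ j ∈ Finset.range (J + 1), q ^ j) ≤ 2 * (q * n) :=
        (sum_geom_le hq2r J).trans (by linarith)
      push_cast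
      calc (b : ℝ) * ((∑ j ∈ Finset.range (J + 1), q ^ j) * Hm + ((J : ℝ) + 1) * C)
          ≤ b * ((2 * (q * n)) * Hm + (2 + 2 * Real.log n) * C) := by gcongr
        _ = _ := by ring
    have h2 : Real.log (n.factorial) ≤ n * Real.log n := EData.log_factorial_le n
    calc ∑ i, ∑ j ∈ Finset.range (J + 1), (b : ℝ) *
          Height.logHeight ((gAct F N)^[j] (z i)) + Module.finrank ℚ N * Real.log (n.factorial)
        ≤ ∑ _i : Fin n, (Module.finrank ℚ N *
            (2 * b * q * n * Hm + b * C * (2 + 2 * Real.log n)) : ℝ) +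
            Module.finrank ℚ N * (n * Real.log n) := by
          gcongr with i _
          exact h1 i
      _ = n * (Module.finrank ℚ N * (2 * b * q * n * Hm + b * C * (2 + 2 * Real.log n)
            + Real.log n)) := by
          rw [Finset.sum_const, Finset.card_univ, Fintype.card_fin, nsmul_eq_mul]
          ring
      _ ≤ n * (Module.finrank ℚ N * (2 * b * q * n * Hm + C1 * (1 + Real.log n))) := by
          have h3 : b * C * (2 + 2 * Real.log n) + Real.log n ≤ C1 * (1 + Real.log n) := by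
            rw [hC1]; linarith
          have h4 : 2 * b * q * n * Hm + b * C * (2 + 2 * Real.log n) + Real.log n ≤
              2 * b * q * n * Hm + C1 * (1 + Real.log n) := by linarith
          exact mul_le_mul_of_nonneg_left (mul_le_mul_of_nonneg_left h4 hNpos.le)
            (Nat.cast_nonneg _)
  have hmain := (hleft.trans hen').trans hright
  have hn1r : (1 : ℝ) ≤ n := by exact_mod_cast hn1
  have hnpos : (0 : ℝ) < n := by linarith
  have hmain2 : lam * (T * Lv) ≤ 2 * b * q * n * Hm + C1 * (1 + Real.log n) := by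
    have h1 : (n * (Module.finrank ℚ N : ℝ)) * (lam * (T * Lv)) ≤
        (n * (Module.finrank ℚ N : ℝ)) * (2 * b * q * n * Hm + C1 * (1 + Real.log n)) := by
      calc (n * (Module.finrank ℚ N : ℝ)) * (lam * (T * Lv)) =
          (T : ℝ) * n * (Lv * (lam * Module.finrank ℚ N)) := by ring
        _ ≤ _ := hmain
        _ = _ := by ring
    exact le_of_mul_le_mul_left h1 (mul_pos hnpos hNpos)
  have hnLD : (n : ℝ) ≤ Lv * D := by exact_mod_cast hnle
  have hlogn2 : C1 * (1 + Real.log n) ≤ lam / 2 * (T * Lv) := by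
    refine le_trans ?_ hT2
    have : Real.log n ≤ Real.log (Lv * D) := Real.log_le_log hnpos hnLD
    gcongr
  have hLvpos : (0 : ℝ) < Lv := by exact_mod_cast hLv1
  have hDposr : (0 : ℝ) < D := by linarith
  have hT1r : (1 : ℝ) ≤ T := by exact_mod_cast hT1
  have hmain3 : lam ≤ 4 * b * q * D * Hm := by
    have h1 : lam / 2 * (T * Lv) ≤ 2 * b * q * (Lv * D) * Hm := by
      have h2 : 2 * b * q * n * Hm ≤ 2 * b * q * (Lv * D) * Hm := by gcongr
      linarith
    have h2 : Lv * (lam / 2) ≤ Lv * (2 * b * q * D * Hm) := by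
      calc Lv * (lam / 2) = lam / 2 * (1 * Lv) := by ring
        _ ≤ lam / 2 * (T * Lv) := by gcongr
        _ ≤ 2 * b * q * (Lv * D) * Hm := h1
        _ = Lv * (2 * b * q * D * Hm) := by ring
    have h3 := le_of_mul_le_mul_left h2 hLvpos
    linarith
  -- conclusion
  have hqj0 : q ^ j0 ≤ q * E := by rw [hq]; exact_mod_cast hj02
  have hEpos : (0 : ℝ) < E := by exact_mod_cast hE1
  have hlogDnn : 0 ≤ Real.log D := Real.log_nonneg hD1
  set θ : ℝ := (N' : ℝ) / ((N' : ℝ) + 1) with hθ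
  have hθ0 : 0 ≤ θ := by positivity
  have hθ1 : θ ≤ 1 := by
    rw [hθ, div_le_one (by positivity)]; linarith
  have hexp : q ^ ((k + 1) * Lv) ≤ Real.exp (B2 * f' * (1 + (Real.log D) ^ θ)) := by
    rw [← Real.exp_log (show (0 : ℝ) < q ^ ((k + 1) * Lv) by positivity), Real.log_pow]
    apply Real.exp_le_exp.2
    push_cast
    have h1 : (1 + Real.log D) ^ θ ≤ 1 + (Real.log D) ^ θ := rpow_one_add_le hlogDnn hθ0 hθ1
    have h2 : (Lv : ℝ) ≤ 2 * (4 * max 1 (C1 * (2 + 2 * N') / lam)) ^ N' *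
        (1 + (Real.log D) ^ θ) := by
      refine hT3.trans ?_
      gcongr
    have hk2 : ((k : ℝ) + 1) ≤ 2 * (m0 * f') := by
      have h3 : (1 : ℝ) ≤ k := by exact_mod_cast hkpos
      have h4 : (k : ℝ) = m0 * f' := by rw [hk]; push_cast; ring
      linarith
    have hyp : 0 ≤ 1 + (Real.log D) ^ θ := by positivity
    calc ((k : ℝ) + 1) * Lv * Real.log q = ((k : ℝ) + 1) * Real.log q * Lv := by ring
      _ ≤ (2 * (m0 * f')) * Real.log q * (2 * (4 * max 1 (C1 * (2 + 2 * N') / lam)) ^ N' *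
        (1 + (Real.log D) ^ θ)) := by gcongr
      _ = _ := by rw [hB2]; ring
  have hfin : lam ≤ 4 * b * q ^ 2 * (D * E) * Real.exp (B2 * f' * (1 + (Real.log D) ^ θ)) *
      hx' := by
    refine hmain3.trans ?_
    rw [hHm, pow_add]
    calc 4 * b * q * D * (q ^ j0 * q ^ ((k + 1) * Lv) * hx')
        ≤ 4 * b * q * D * ((q * E) * Real.exp (B2 * f' * (1 + (Real.log D) ^ θ)) * hx') :=
          mul_le_mul_of_nonneg_left (mul_le_mul_of_nonneg_right
            (mul_le_mul hqj0 hexp (pow_nonneg hq0.le _) (mul_nonneg hq0.le hEpos.le)) hx'nn)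
            (mul_nonneg (mul_nonneg (mul_nonneg (by norm_num) hbpos.le) hq0.le) hDposr.le)
      _ = _ := by ring
  calc lam / (4 * b * q ^ 2) / ((D : ℝ) * E) *
        Real.exp (-(B2 * f' * (1 + (Real.log D) ^ θ)))
      = lam / (4 * b * q ^ 2 * (D * E) * Real.exp (B2 * f' * (1 + (Real.log D) ^ θ))) := by
        rw [Real.exp_neg, ← div_eq_mul_inv, div_div, div_div]
        congr 1
        ring
    _ ≤ hx' := by
        rw [div_le_iff₀ (mul_pos (mul_pos (mul_pos (mul_pos four_pos hbpos) (pow_pos hq0 2))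
          (mul_pos hDposr hEpos)) (Real.exp_pos _))]
        calc lam ≤ _ := hfin
          _ = _ := by ring

end core

end Pool.DynLehmer
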