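import Mathlib
import Pool.Agent.Lib.MP_2194ec_nt.RamC
import Pool.Agent.Lib.MP_2194ec_nt.RelMain

set_option autoImplicit false

/-!
# The height inequality from gain at the places above `v`
-/

namespace Pool.DynLehmer
open MvPolynomial NumberField Filter Topology
open scoped Classical LinearAlgebra.Projectivization

section main

variable {K : Type} [Field K] [NumberField K] {p s : ℕ} {ι : Type} [Fintype ι] [DecidableEq ι]

theorem gain_main [Nonempty ι] (hp : p.Prime) (hs : 1 ≤ s) (v : FinitePlace K)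
    (Φ : GF (OW v) p s ι) (hϖ : v (Φ.ϖ : K) < 1) (hϖ0 : (Φ.ϖ : K) ≠ 0)
    (F : ι → MvPolynomial ι K) (hF : ∀ i, (F i).IsHomogeneous (p ^ s))
    (hz : ∀ z : ι → AlgebraicClosure K, (∀ i, aeval z (F i) = 0) → z = 0)
    (hΦF : ∀ i, map (OW v).subtype (Φ.F i) = F i) {b : ℕ} (hb1 : 1 ≤ b)
    (hb : ∀ (J : ℕ) (G : MvPolynomial ι K), G.IsHomogeneous (dl b (p ^ s) J) →
      G ∈ Submodule.span K {Q : MvPolynomial ι K | ∃ μ : ℕ → ι →₀ ℕ,
        (∀ j, (μ j).degree = b) ∧ Q = gQ F J μ})
    {C : ℝ} (hC0 : 0 ≤ C) {m : ℕ} (hm : 1 ≤ m)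
    {N : Type} [Field N] [NumberField N] [Algebra K N] (hh : (ι → N) → ℝ)
    (hdiff : ∀ z, |Height.logHeight z / (Module.finrank ℚ N : ℝ) - hh z| ≤ C)
    (hmul : ∀ z, hh (gAct F N z) = ((p ^ s : ℕ) : ℝ) * hh z)
    (S : Finset (FinitePlace N)) (e : FinitePlace N → ℕ) (hS : ∀ w ∈ S, Above v w (e w))
    (hcard : Module.finrank K N ≤ m * ∑ w ∈ S, e w)
    {n : ℕ} (hn1 : 1 ≤ n) (z : Fin n → ι → N) (hz0 : ∀ a, z a ≠ 0)
    (hzz : ∀ a i, i ≠ a → ∃ k l, z i k * z a l - z i l * z a k ≠ 0)
    {Hm : ℝ} (hHmz : ∀ a, hh (z a) ≤ Hm)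
    (Good : FinitePlace N → Finset (Fin n)) (U : ℕ)
    (hG : ∀ w ∈ S, Gain w (z) (Good w) ((w (toN v N Φ.ϖ)) ^ U))
    (hgood : n * ∑ w ∈ S, e w ≤ 2 * ∑ w ∈ S, e w * (Good w).card) :
    (- Real.log (v (Φ.ϖ : K))) / (m * Module.finrank ℚ K) / 4 * U ≤
      2 * b * ((p ^ s : ℕ) : ℝ) * n * Hm + (2 * b * C + 1) * (1 + Real.log n) := by
  have hq2 : 2 ≤ p ^ s := hp.two_le.trans (Nat.le_self_pow (by omega) p)
  have hq2r : (2 : ℝ) ≤ ((p ^ s : ℕ) : ℝ) := by exact_mod_cast hq2
  set Λ : ℝ := - Real.log (v (Φ.ϖ : K)) with hΛ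
  have hΛ0 : 0 < Λ := neg_pos.2 (Real.log_neg (FinitePlace.pos_iff.2 hϖ0) hϖ)
  have hKpos : (0 : ℝ) < Module.finrank ℚ K := by exact_mod_cast Module.finrank_pos
  have hNpos : (0 : ℝ) < Module.finrank ℚ N := by exact_mod_cast Module.finrank_pos
  have hmpos : (0 : ℝ) < m := by exact_mod_cast hm
  have htower : (Module.finrank ℚ K : ℝ) * Module.finrank K N = Module.finrank ℚ N := by
    exact_mod_cast Module.finrank_mul_finrank ℚ K N
  set q : ℝ := ((p ^ s : ℕ) : ℝ) with hq
  have hq0 : 0 < q := by linarith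
  set lam : ℝ := Λ / (m * Module.finrank ℚ K) with hlam
  have hlam0 : 0 < lam := by positivity
  set C1 : ℝ := 2 * b * C + 1 with hC1
  have hC10 : 0 ≤ C1 := by positivity
  have hbpos : (0 : ℝ) < b := by exact_mod_cast hb1
  set H : (ι → N) → ℝ := fun z => Height.logHeight z / (Module.finrank ℚ N : ℝ) with hH
  have hmuln : ∀ (n : ℕ) z, hh ((gAct F N)^[n] z) = q ^ n * hh z := by
    intro n z
    induction n with
    | zero => simp
    | succ n ih => rw [Function.iterate_succ_apply', hmul, ih, pow_succ]; ring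
  set π : FinitePlace N → ℝ := fun w => w (toN v N Φ.ϖ) with hπ
  have hπ0 : ∀ w, 0 < π w := by
    intro w
    rw [hπ, FinitePlace.pos_iff]
    change algebraMap K N (Φ.ϖ : K) ≠ 0
    simpa using hϖ0
  have hπ1 : ∀ w ∈ S, π w < 1 := fun w hw => gw_unif Φ (hS w hw) hϖ
  -- the energy inequality
  obtain ⟨J, hJ1, hJ2⟩ := exists_pow_between hq2 hn1
  have hdl : n ≤ dl b (p ^ s) J + 1 := by
    have h1 : (p ^ s) ^ J ≤ dl b (p ^ s) J := by
      rw [dl_eq]
      calc (p ^ s) ^ J ≤ (p ^ s) ^ J * b := Nat.le_mul_of_pos_right _ hb1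
        _ ≤ _ := Finset.single_le_sum (f := fun j => (p ^ s) ^ j * b) (fun _ _ => Nat.zero_le _)
            (Finset.mem_range.2 (Nat.lt_succ_self J))
    omega
  have hen' := energy2 Φ hϖ F hF hz hΦF hb S e hS hdl z hz0 hzz Good (fun w => π w ^ U)
    (fun w _ => pow_pos (hπ0 w) _) (fun w hw => pow_le_one₀ (hπ0 w).le (hπ1 w hw).le) hG
  -- left side
  have hleft : (n : ℝ) * (Module.finrank ℚ N) * (lam / 4 * U) ≤
      ∑ w ∈ S, ((Good w).card / 2 : ℝ) * (- Real.log (π w ^ U)) := by
    have h1 : ∑ w ∈ S, ((Good w).card / 2 : ℝ) * (- Real.log (π w ^ U)) =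
        U * Λ / 2 * ∑ w ∈ S, (e w : ℝ) * (Good w).card := by
      rw [Finset.mul_sum]
      refine Finset.sum_congr rfl fun w hw => ?_
      have h2 : Real.log (π w) = - (e w * Λ) := by
        change Real.log (w (algebraMap K N (Φ.ϖ : K))) = _
        rw [(hS w hw).2, Real.log_pow, hΛ]
        ring
      rw [Real.log_pow, h2]
      ring
    rw [h1]
    have h2 : (Module.finrank K N : ℝ) ≤ m * ∑ w ∈ S, (e w : ℝ) := by exact_mod_cast hcard
    have h3 : lam * Module.finrank ℚ N ≤ Λ * ∑ w ∈ S, (e w : ℝ) := by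
      rw [← htower, hlam]
      have h4 : Λ / (m * Module.finrank ℚ K) * ((Module.finrank ℚ K : ℝ) * Module.finrank K N) =
          Λ / m * Module.finrank K N := by
        field_simp
      rw [h4]
      calc Λ / m * Module.finrank K N ≤ Λ / m * (m * ∑ w ∈ S, (e w : ℝ)) := by gcongr
        _ = Λ * ∑ w ∈ S, (e w : ℝ) := by field_simp
    have h4 : (n : ℝ) * ∑ w ∈ S, (e w : ℝ) ≤ 2 * ∑ w ∈ S, (e w : ℝ) * (Good w).card := by
      exact_mod_cast hgood
    have hU : (0 : ℝ) ≤ U := Nat.cast_nonneg _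
    have hn0 : (0 : ℝ) ≤ n := Nat.cast_nonneg _
    calc (n : ℝ) * (Module.finrank ℚ N) * (lam / 4 * U)
        = U * n / 4 * (lam * Module.finrank ℚ N) := by ring
      _ ≤ U * n / 4 * (Λ * ∑ w ∈ S, (e w : ℝ)) := by gcongr
      _ = U * Λ / 4 * (n * ∑ w ∈ S, (e w : ℝ)) := by ring
      _ ≤ U * Λ / 4 * (2 * ∑ w ∈ S, (e w : ℝ) * (Good w).card) := by gcongr
      _ = _ := by ring
  -- right side
  have hright : ∑ i, ∑ j ∈ Finset.range (J + 1), (b : ℝ) *
      Height.logHeight ((gAct F N)^[j] (z i)) + Module.finrank ℚ N * Real.log (n.factorial) ≤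
      n * (Module.finrank ℚ N * (2 * b * q * n * Hm + C1 * (1 + Real.log n))) := by
    have hn1r : (1 : ℝ) ≤ n := by exact_mod_cast hn1
    have hlogn : 0 ≤ Real.log n := Real.log_nonneg hn1r
    have hqJ : q ^ J ≤ q * n := by rw [hq]; exact_mod_cast hJ2
    have hJlog : (J : ℝ) + 1 ≤ 2 + 2 * Real.log n := by
      have h1 : Real.log (q ^ J) ≤ Real.log (q * n) := Real.log_le_log (by positivity) hqJ
      rw [Real.log_pow, Real.log_mul (by positivity) (by positivity)] at h1
      have h2 : (1 / 2 : ℝ) ≤ Real.log q := by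
        have h3 : Real.log 2 ≤ Real.log q := Real.log_le_log (by norm_num) hq2r
        linarith [Real.log_two_gt_d9]
      have h3 : ((J : ℝ) - 1) * Real.log q ≤ Real.log n := by linarith
      rcases le_or_gt (J : ℝ) 1 with h4 | h4
      · linarith
      · nlinarith
    have hHm0 : 0 ≤ Hm := by
      -- the canonical height is nonnegative
      have h1 : ∀ y : ι → N, 0 ≤ hh y := by
        intro y
        have h2 : ∀ k : ℕ, - C ≤ q ^ k * hh y := by
          intro k
          have h3 := abs_le.1 (hdiff ((gAct F N)^[k] y))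
          rw [hmuln] at h3
          have h4 : 0 ≤ Height.logHeight ((gAct F N)^[k] y) / (Module.finrank ℚ N : ℝ) :=
            div_nonneg (Height.logHeight_nonneg _) hNpos.le
          linarith [h3.2]
        by_contra hcon
        push Not at hcon
        obtain ⟨k, hk⟩ := pow_unbounded_of_one_lt (C / (- hh y)) (show (1 : ℝ) < q by linarith)
        rw [div_lt_iff₀ (by linarith)] at hk
        have := h2 k
        linarith
      exact (h1 _).trans (hHmz ⟨0, hn1⟩)
    have h1 : ∀ i, ∑ j ∈ Finset.range (J + 1), (b : ℝ) *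
        Height.logHeight ((gAct F N)^[j] (z i)) ≤
        Module.finrank ℚ N * (2 * b * q * n * Hm + b * C * (2 + 2 * Real.log n)) := by
      intro i
      have h2 : ∀ j ∈ Finset.range (J + 1), (b : ℝ) * Height.logHeight ((gAct F N)^[j] (z i)) ≤
          Module.finrank ℚ N * (b * (q ^ j * Hm + C)) := by
        intro j _
        have h3 : Height.logHeight ((gAct F N)^[j] (z i)) =
            Module.finrank ℚ N * H ((gAct F N)^[j] (z i)) := by
          simp only [hH]
          field_simp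
        have h4 : H ((gAct F N)^[j] (z i)) ≤ q ^ j * Hm + C := by
          have h5 := abs_le.1 (hdiff ((gAct F N)^[j] (z i)))
          rw [hmuln] at h5
          have h6 : q ^ j * hh (z i) ≤ q ^ j * Hm :=
            mul_le_mul_of_nonneg_left (hHmz i) (by positivity)
          linarith [h5.2]
        rw [h3]
        calc (b : ℝ) * (Module.finrank ℚ N * H ((gAct F N)^[j] (z i)))
            = Module.finrank ℚ N * (b * H ((gAct F N)^[j] (z i))) := by ring
          _ ≤ _ := by gcongr
      refine (Finset.sum_le_sum h2).trans ?_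
      rw [← Finset.mul_sum, ← Finset.mul_sum, Finset.sum_add_distrib, ← Finset.sum_mul,
        Finset.sum_const, Finset.card_range, nsmul_eq_mul]
      apply mul_le_mul_of_nonneg_left _ hNpos.le
      have h3 : (∑ j ∈ Finset.range (J + 1), q ^ j) ≤ 2 * (q * n) :=
        (sum_geom_le hq2r J).trans (by linarith)
      push_cast
      calc (b : ℝ) * ((∑ j ∈ Finset.range (J + 1), q ^ j) * Hm + ((J : ℝ) + 1) * C)
          ≤ b * ((2 * (q * n)) * Hm + (2 + 2 * Real.log n) * C) := by gcongr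
        _ = _ := by ring
    have h2 : Real.log (n.factorial) ≤ n * Real.log n := EData.log_factorial_le n
    calc ∑ i, ∑ j ∈ Finset.range (J + 1), (b : ℝ) *
          Height.logHeight ((gAct F N)^[j] (z i)) + Module.finrank ℚ N * Real.log (n.factorial)
        ≤ ∑ _i : Fin n, (Module.finrank ℚ N *
            (2 * b * q * n * Hm + b * C * (2 + 2 * Real.log n)) : ℝ) +
            Module.finrank ℚ N * (n * Real.log n) := by
          gcongr with i _
          exact h1 i
      _ = n * (Module.finrank ℚ N * (2 * b * q * n * Hm + b * C * (2 + 2 * Real.log n)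
            + Real.log n)) := by
          rw [Finset.sum_const, Finset.card_univ, Fintype.card_fin, nsmul_eq_mul]
          ring
      _ ≤ n * (Module.finrank ℚ N * (2 * b * q * n * Hm + C1 * (1 + Real.log n))) := by
          have h3 : b * C * (2 + 2 * Real.log n) + Real.log n ≤ C1 * (1 + Real.log n) := by
            rw [hC1]; nlinarith
          have h4 : 2 * b * q * n * Hm + b * C * (2 + 2 * Real.log n) + Real.log n ≤
              2 * b * q * n * Hm + C1 * (1 + Real.log n) := by linarith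
          gcongr
  have hmain := (hleft.trans hen').trans hright
  have hn1r : (1 : ℝ) ≤ n := by exact_mod_cast hn1
  have h1 : ((n : ℝ) * (Module.finrank ℚ N : ℝ)) * (lam / 4 * U) ≤
      (n * (Module.finrank ℚ N : ℝ)) * (2 * b * q * n * Hm + C1 * (1 + Real.log n)) := by
    calc _ ≤ _ := hmain
      _ = _ := by ring
  exact le_of_mul_le_mul_left h1 (by positivity)

end main

end Pool.DynLehmer
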