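import Mathlib
import Pool.Agent.Lib.MP_2194ec_nt.RamD
import Pool.Agent.Lib.MP_2194ec_nt.RamF
import Pool.Agent.Lib.MP_2194ec_nt.RamG

set_option autoImplicit false

/-!
# The case of large ramification
-/

namespace Pool.DynLehmer
open MvPolynomial NumberField Filter Topology
open scoped Classical LinearAlgebra.Projectivization

section rows

variable {N : Type} [Field N] {ι : Type}

/-- representatives of a finite set of projective points -/
theorem exists_rows {α : Type} (I : Finset α) (hI : I.Nonempty) (Z : α → ι → N)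
    (hZ : ∀ a, Z a ≠ 0) :
    ∃ (n : ℕ) (z : Fin n → ι → N) (pre : Fin n → α), 1 ≤ n ∧
      n = (I.image fun a => Projectivization.mk N (Z a) (hZ a)).card ∧
      (∀ a, pre a ∈ I ∧ z a = Z (pre a)) ∧ (∀ a, z a ≠ 0) ∧
      (∀ a i, i ≠ a → ∃ k l, z i k * z a l - z i l * z a k ≠ 0) ∧
      (∀ y ∈ I, ∃ a : Fin n, ∃ c : N, c ≠ 0 ∧ z a = c • Z y) := by
  set O := I.image fun a => Projectivization.mk N (Z a) (hZ a) with hO
  set n := O.card with hn
  set en := O.equivFin.symm with hen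
  have hpre : ∀ a : Fin n, ∃ y ∈ I, Projectivization.mk N (Z y) (hZ y) = (en a : ℙ N (ι → N)) :=
    fun a => by
      obtain ⟨y, hy, hy'⟩ := Finset.mem_image.1 (en a).2
      exact ⟨y, hy, hy'⟩
  choose pre hpreI hpre using hpre
  refine ⟨n, fun a => Z (pre a), pre, Finset.card_pos.2 (hI.image _), rfl,
    fun a => ⟨hpreI a, rfl⟩, fun a => hZ _, ?_, ?_⟩
  · intro a i hia
    by_contra hcon
    push Not at hcon
    obtain ⟨c, hc, h⟩ := prop_of_minors (hZ (pre i)) (hZ (pre a)) hcon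
    apply hia
    apply en.injective
    apply Subtype.ext
    rw [← hpre i, ← hpre a]
    exact mk_eq_of_smul _ _ h
  · intro y hy
    have h1 : Projectivization.mk N (Z y) (hZ y) ∈ O := Finset.mem_image_of_mem _ hy
    refine ⟨en.symm ⟨_, h1⟩, ?_⟩
    apply smul_of_mk_eq (hZ _) (hZ y)
    have h2 := hpre (en.symm ⟨_, h1⟩)
    rw [Equiv.apply_symm_apply] at h2
    exact h2

/-- counting projective points by rows -/
theorem card_le_rows {α : Type} {n : ℕ} (z : Fin n → ι → N) (hz : ∀ a, z a ≠ 0)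
    (A : Finset α) (Z : α → ι → N) (hZ : ∀ a, Z a ≠ 0) (G : Finset (Fin n))
    (h : ∀ y ∈ A, ∃ a ∈ G, ∃ c : N, c ≠ 0 ∧ z a = c • Z y) :
    (A.image fun y => Projectivization.mk N (Z y) (hZ y)).card ≤ G.card := by
  have h1 : (A.image fun y => Projectivization.mk N (Z y) (hZ y)) ⊆
      G.image fun a => Projectivization.mk N (z a) (hz a) := by
    intro x hx
    obtain ⟨y, hy, rfl⟩ := Finset.mem_image.1 hx
    obtain ⟨a, ha, c, hc, h2⟩ := h y hy
    exact Finset.mem_image.2 ⟨a, ha, mk_eq_of_smul _ _ h2⟩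
  exact (Finset.card_le_card h1).trans Finset.card_image_le

theorem choose_m {q X : ℕ} (hq : 2 ≤ q) (hX : 1 ≤ X) (D : ℕ → ℕ) (hD1 : ∀ j, 1 ≤ D j)
    (hD : ∀ j, D (j + 1) ≤ D j) :
    ∃ m, X * D 0 ≤ q ^ m * D m ∧ q ^ m * D m ≤ q * X * D 0 := by
  have hex : ∃ m, X * D 0 ≤ q ^ m * D m := by
    refine ⟨X * D 0, ?_⟩
    calc X * D 0 ≤ q ^ (X * D 0) := (Nat.lt_pow_self (by omega)).le
      _ ≤ q ^ (X * D 0) * D (X * D 0) := Nat.le_mul_of_pos_right _ (hD1 _)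
  refine ⟨Nat.find hex, Nat.find_spec hex, ?_⟩
  rcases Nat.eq_zero_or_pos (Nat.find hex) with h0 | h0
  · rw [h0, pow_zero, one_mul]
    have h1 : 1 ≤ q * X := Nat.mul_pos (by omega) hX
    exact Nat.le_mul_of_pos_left _ h1
  · obtain ⟨j, hj⟩ : ∃ j, Nat.find hex = j + 1 := ⟨Nat.find hex - 1, by omega⟩
    have h1 := Nat.find_min hex (show j < Nat.find hex by omega)
    push Not at h1
    rw [hj, pow_succ]
    calc q ^ j * q * D (j + 1) ≤ q ^ j * q * D j := Nat.mul_le_mul_left _ (hD j)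
      _ = q * (q ^ j * D j) := by ring
      _ ≤ q * (X * D 0) := Nat.mul_le_mul_left _ h1.le
      _ = _ := by ring

theorem log_one_add_le {y θ : ℝ} (hy : 0 ≤ y) (hθ : 1 / 2 ≤ θ) :
    Real.log (1 + y) ≤ 2 * (1 + y ^ θ) := by
  have h0 : 0 < 1 + y := by linarith
  have h1 : Real.log (1 + y) = 2 * Real.log (Real.sqrt (1 + y)) := by
    rw [Real.log_sqrt h0.le]; ring
  have h2 : Real.log (Real.sqrt (1 + y)) ≤ Real.sqrt (1 + y) - 1 :=
    Real.log_le_sub_one_of_pos (Real.sqrt_pos.2 h0)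
  have h3 : Real.sqrt (1 + y) ≤ 1 + Real.sqrt y := by
    rw [Real.sqrt_le_left (by positivity)]
    have := Real.sq_sqrt hy
    nlinarith [Real.sqrt_nonneg y]
  have h4 : Real.sqrt y ≤ 1 + y ^ θ := by
    rcases le_total y 1 with h5 | h5
    · have : Real.sqrt y ≤ 1 := Real.sqrt_le_one.2 h5
      have := Real.rpow_nonneg hy θ
      linarith
    · rw [Real.sqrt_eq_rpow]
      have := Real.rpow_le_rpow_of_exponent_le h5 hθ
      linarith
  linarith

end rows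

section galh

variable {K : Type} [Field K] {N : Type} [Field N] [Algebra K N] {ι : Type}

theorem gal_act (F : ι → MvPolynomial ι K) (σ : N ≃ₐ[K] N) (k : ℕ) (P : ι → N) :
    (gAct F N)^[k] (gal σ P) = gal σ ((gAct F N)^[k] P) :=
  gAct_iter_map F (σ : N →ₐ[K] N) k P

theorem stab_act {d : ℕ} (F : ι → MvPolynomial ι K) (hF : ∀ i, (F i).IsHomogeneous d) (k : ℕ)
    (P : ι → N) : stab (K := K) P ≤ stab ((gAct F N)^[k] P) := by
  rintro σ ⟨c, hc, h⟩
  refine ⟨c ^ (d ^ k), pow_ne_zero _ hc, ?_⟩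
  rw [← gal_act, h, gAct_iter_smul F hF]

end galh

section high

variable {K : Type} [Field K] [NumberField K] {p s : ℕ} {ι : Type} [Fintype ι] [DecidableEq ι]

theorem high_case [Nonempty ι] (hp : p.Prime) (hs : 1 ≤ s) (v : FinitePlace K)
    (Φ : GF (OW v) p s ι) (hϖ : v (Φ.ϖ : K) < 1) (hϖ0 : (Φ.ϖ : K) ≠ 0)
    (F : ι → MvPolynomial ι K) (hF : ∀ i, (F i).IsHomogeneous (p ^ s))
    (hz : ∀ z : ι → AlgebraicClosure K, (∀ i, aeval z (F i) = 0) → z = 0)
    (hΦF : ∀ i, map (OW v).subtype (Φ.F i) = F i) {b : ℕ} (hb1 : 1 ≤ b)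
    (hb : ∀ (J : ℕ) (G : MvPolynomial ι K), G.IsHomogeneous (dl b (p ^ s) J) →
      G ∈ Submodule.span K {Q : MvPolynomial ι K | ∃ μ : ℕ → ι →₀ ℕ,
        (∀ j, (μ j).degree = b) ∧ Q = gQ F J μ})
    {C : ℝ} (hC0 : 0 ≤ C) {m' : ℕ} (hm' : 1 ≤ m')
    {N : Type} [Field N] [NumberField N] [Algebra K N] (hh : (ι → N) → ℝ)
    (hdiff : ∀ z, |Height.logHeight z / (Module.finrank ℚ N : ℝ) - hh z| ≤ C)
    (hmul : ∀ z, hh (gAct F N z) = ((p ^ s : ℕ) : ℝ) * hh z)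
    (S : Finset (FinitePlace N)) (e : FinitePlace N → ℕ) (hS : ∀ w ∈ S, Above v w (e w))
    (hcard : Module.finrank K N ≤ m' * ∑ w ∈ S, e w)
    (Γ : Subgroup (N ≃ₐ[K] N)) (J : FinitePlace N → Subgroup (N ≃ₐ[K] N)) {E : ℕ}
    (hJΓ : ∀ w ∈ S, J w ≤ Γ) (hJ1 : ∀ w ∈ S, ∀ g ∈ J w, ∀ a, w (g a) = w a)
    (hJ2 : ∀ w ∈ S, ∀ a, (∀ g ∈ J w, g a = a) → w a < 1 → (w a) ^ E ≤ w (toN v N Φ.ϖ))
    (hJ3 : ∀ w ∈ S, ∀ b, w b ≤ 1 → ∃ a, (∀ g ∈ J w, g a = a) ∧ w a ≤ 1 ∧ w (b - a) < 1)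
    (P : ι → N) (hP : P ≠ 0) (hhgal : ∀ σ : N ≃ₐ[K] N, hh (gal σ P) = hh P)
    {m V : ℕ} (hV : 1 ≤ V)
    (hX : 4 * V ^ (Fintype.card ι + 1) * E * idx Γ P ≤ (p ^ s) ^ m * idx Γ ((gAct F N)^[m] P))
    (hhigh : (fin Γ).card * ∑ w ∈ S, e w ≤ 2 * ∑ w ∈ S, e w *
      ((fin Γ).filter fun σ => ¬ (idx (J w) (gal σ P) * E ≤ (p ^ s) ^ m)).card) :
    (- Real.log (v (Φ.ϖ : K))) / (m' * Module.finrank ℚ K) / 4 * V ≤
      2 * b * ((p ^ s : ℕ) : ℝ) * (idx Γ ((gAct F N)^[m] P) : ℝ) *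
        (((p ^ s : ℕ) : ℝ) ^ m * hh P) +
      (2 * b * C + 1) * (1 + Real.log (idx Γ ((gAct F N)^[m] P) : ℝ)) := by
  have hfd : FiniteDimensional K N := Module.Finite.of_restrictScalars_finite ℚ K N
  have hq0 : 0 < p ^ s := pow_pos hp.pos s
  have hmuln : ∀ (n : ℕ) z, hh ((gAct F N)^[n] z) = ((p ^ s : ℕ) : ℝ) ^ n * hh z := by
    intro n z
    induction n with
    | zero => simp
    | succ n ih => rw [Function.iterate_succ_apply', hmul, ih, pow_succ]; ring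
  set Z : (N ≃ₐ[K] N) → ι → N := fun σ => (gAct F N)^[m] (gal σ P) with hZ
  have hZne : ∀ σ, Z σ ≠ 0 := fun σ => gAct_iter_ne F hF hz _ _ (gal_ne σ hP)
  have hZgal : ∀ σ, Z σ = gal σ ((gAct F N)^[m] P) := fun σ => gal_act F σ m P
  obtain ⟨n, z, pre, hn1, hn, hpre, hz0, hzz, hcover⟩ := exists_rows (fin Γ)
    ⟨1, mem_fin.2 Γ.one_mem⟩ Z hZne
  have hne1 : ∀ σ : N ≃ₐ[K] N, gal (1 * σ) ((gAct F N)^[m] P) ≠ 0 := fun σ => by
    rw [one_mul, ← hZgal]; exact hZne σ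
  have hnidx : n = idx Γ ((gAct F N)^[m] P) := by
    rw [hn, ← card_orbit Γ ((gAct F N)^[m] P) 1 hne1]
    congr 1
    refine Finset.image_congr fun σ _ => ?_
    congr 1
    rw [one_mul]
    exact hZgal σ
  set low : FinitePlace N → (N ≃ₐ[K] N) → Prop := fun w σ =>
    idx (J w) (gal σ P) * E ≤ (p ^ s) ^ m with hlow
  set Good : FinitePlace N → Finset (Fin n) := fun w => Finset.univ.filter fun a =>
    ∃ σ ∈ Γ, ¬ low w σ ∧ ∃ c : N, c ≠ 0 ∧ z a = c • Z σ with hGood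
  have hcount : ∀ w ∈ S, ((fin Γ).filter fun σ => ¬ low w σ).card * n ≤
      (Good w).card * (fin Γ).card := by
    intro w hw
    have h1 := density Γ ((gAct F N)^[m] P) ((fin Γ).filter fun σ => ¬ low w σ)
      (fun σ hσ => mem_fin.1 (Finset.mem_filter.1 hσ).1) 1 hne1
    rw [← hnidx] at h1
    refine h1.trans (Nat.mul_le_mul_right _ ?_)
    refine card_le_rows z hz0 _ (fun σ => gal (1 * σ) ((gAct F N)^[m] P)) hne1 _ ?_
    intro σ hσ
    rw [Finset.mem_filter] at hσ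
    obtain ⟨a, c, hc, h2⟩ := hcover σ hσ.1
    refine ⟨a, ?_, c, hc, by rw [h2, one_mul, hZgal]⟩
    rw [hGood, Finset.mem_filter]
    exact ⟨Finset.mem_univ _, σ, mem_fin.1 hσ.1, hσ.2, c, hc, h2⟩
  have hgood : n * ∑ w ∈ S, e w ≤ 2 * ∑ w ∈ S, e w * (Good w).card := by
    have h1 : (fin Γ).card * (n * ∑ w ∈ S, e w) ≤
        (fin Γ).card * (2 * ∑ w ∈ S, e w * (Good w).card) := by
      calc (fin Γ).card * (n * ∑ w ∈ S, e w) = n * ((fin Γ).card * ∑ w ∈ S, e w) := by ring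
        _ ≤ n * (2 * ∑ w ∈ S, e w * ((fin Γ).filter fun σ => ¬ low w σ).card) :=
            Nat.mul_le_mul_left _ hhigh
        _ = 2 * ∑ w ∈ S, e w * (((fin Γ).filter fun σ => ¬ low w σ).card * n) := by
            rw [Finset.mul_sum, Finset.mul_sum, Finset.mul_sum]
            exact Finset.sum_congr rfl fun w _ => by ring
        _ ≤ 2 * ∑ w ∈ S, e w * ((Good w).card * (fin Γ).card) := by
            apply Nat.mul_le_mul_left
            exact Finset.sum_le_sum fun w hw => Nat.mul_le_mul_left _ (hcount w hw)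
        _ = _ := by
            rw [Finset.mul_sum, Finset.mul_sum, Finset.mul_sum]
            exact Finset.sum_congr rfl fun w _ => by ring
    exact Nat.le_of_mul_le_mul_left h1 (card_fin_pos Γ)
  have hHmz : ∀ a, hh (z a) ≤ ((p ^ s : ℕ) : ℝ) ^ m * hh P := by
    intro a
    rw [(hpre a).2, hZ, hmuln, hhgal]
  have hG : ∀ w ∈ S, Gain w z (Good w) ((w (toN v N Φ.ϖ)) ^ V) := by
    intro w hw
    refine gain_orbit (hJ1 w hw) z hz0 (Good w) V (pow_nonneg (apply_nonneg w _) _) ?_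
    intro i hi
    rw [hGood, Finset.mem_filter] at hi
    obtain ⟨-, σ, hσ, hhi, c, hc, hzi⟩ := hi
    set Q := gal σ P with hQ
    have hQ0 : Q ≠ 0 := gal_ne σ hP
    set A := V * (idx (J w) Q * E) / (p ^ s) ^ m + 1 with hA
    have hqm : 0 < (p ^ s) ^ m := pow_pos hq0 m
    have hA1 : V * (idx (J w) Q * E) ≤ A * (p ^ s) ^ m := by
      have h1 := Nat.lt_div_mul_add (a := V * (idx (J w) Q * E)) hqm
      rw [hA, add_mul, one_mul]
      exact h1.le
    have hA2 : A * (p ^ s) ^ m ≤ 2 * (V * (idx (J w) Q * E)) := by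
      have h1 := Nat.div_mul_le_self (V * (idx (J w) Q * E)) ((p ^ s) ^ m)
      have h2 : (p ^ s) ^ m ≤ V * (idx (J w) Q * E) := by
        have h3 : (p ^ s) ^ m < idx (J w) Q * E := not_le.1 hhi
        calc (p ^ s) ^ m ≤ idx (J w) Q * E := h3.le
          _ ≤ _ := Nat.le_mul_of_pos_left _ hV
      rw [hA, add_mul, one_mul]
      omega
    obtain ⟨nn, T, cc, bb, y, c0, hc0, hy, hyp, hyeq, hccf, hTA, hbV⟩ :=
      high_data Φ (hS w hw) hϖ hϖ0 hp F hΦF (hJ1 w hw) (hJ2 w hw) (hJ3 w hw) Q hQ0 m V hA1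
    refine ⟨A, nn, T, cc, bb, y, c * c0, mul_ne_zero hc hc0, ?_, hyp, hyeq, hccf, hTA, hbV, ?_⟩
    · rw [hzi, mul_smul, ← hy]
    · -- the size of the class
      set Qm := (gAct F N)^[m] Q with hQm
      have hQmne : Qm ≠ 0 := hZne σ
      have hcls : idx (J w) Qm ≤ ((Good w).filter fun i' => ∃ g ∈ J w, ∃ c : N, c ≠ 0 ∧
          z i' = c • gal g (z i)).card := by
        have hne2 : ∀ g : N ≃ₐ[K] N, gal (1 * g) Qm ≠ 0 := fun g => gal_ne _ hQmne
        rw [← card_orbit (J w) Qm 1 hne2]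
        refine card_le_rows z hz0 _ (fun g => gal (1 * g) Qm) hne2 _ ?_
        intro g hg
        have hgJ := mem_fin.1 hg
        obtain ⟨a, d, hd, h2⟩ := hcover (g * σ) (mem_fin.2 (Γ.mul_mem (hJΓ w hw hgJ) hσ))
        have h3 : Z (g * σ) = gal g Qm := by
          rw [hZgal, hQm, hQ, gal_act, ← gal_mul]
        refine ⟨a, ?_, d, hd, by rw [h2, h3, one_mul]⟩
        rw [Finset.mem_filter, hGood, Finset.mem_filter]
        refine ⟨⟨Finset.mem_univ _, g * σ, Γ.mul_mem (hJΓ w hw hgJ) hσ, ?_, d, hd, h2⟩,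
          g, hgJ, d * (g c)⁻¹, mul_ne_zero hd (inv_ne_zero (by simpa using hc)), ?_⟩
        · simp only [hlow]
          rw [gal_mul, idx_gal hgJ]
          exact hhi
        · have hgc : g c ≠ 0 := by simpa using hc
          rw [h2, h3, hzi, gal_smul, smul_smul, mul_assoc, inv_mul_cancel₀ hgc, mul_one]
      refine le_trans ?_ (hcls.trans (le_of_eq (by congr)))
      -- arithmetic
      have hcross := idx_cross (hJΓ w hw) (stab_act F hF m Q)
      have e1 : idx Γ Qm = idx Γ ((gAct F N)^[m] P) := by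
        rw [hQm, hQ, gal_act, idx_gal hσ]
      have e2 : idx Γ Q = idx Γ P := idx_gal hσ P
      rw [← hQm, e1, e2] at hcross
      -- hcross : idx J Q * idx Γ Pm ≤ idx J Qm * idx Γ P
      set Dm := idx Γ ((gAct F N)^[m] P) with hDm
      set D0 := idx Γ P with hD0
      have hD0pos : 1 ≤ D0 := idx_pos Γ P
      have h5 : (2 * (A * V ^ Fintype.card ι)) * ((p ^ s) ^ m * D0) ≤
          idx (J w) Qm * ((p ^ s) ^ m * D0) := by
        calc (2 * (A * V ^ Fintype.card ι)) * ((p ^ s) ^ m * D0)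
            = 2 * V ^ Fintype.card ι * D0 * (A * (p ^ s) ^ m) := by ring
          _ ≤ 2 * V ^ Fintype.card ι * D0 * (2 * (V * (idx (J w) Q * E))) :=
              Nat.mul_le_mul_left _ hA2
          _ = idx (J w) Q * (4 * V ^ (Fintype.card ι + 1) * E * D0) := by ring
          _ ≤ idx (J w) Q * ((p ^ s) ^ m * Dm) := Nat.mul_le_mul_left _ hX
          _ = (p ^ s) ^ m * (idx (J w) Q * Dm) := by ring
          _ ≤ (p ^ s) ^ m * (idx (J w) Qm * D0) := Nat.mul_le_mul_left _ hcross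
          _ = _ := by ring
      exact Nat.le_of_mul_le_mul_right h5 (Nat.mul_pos hqm hD0pos)
  have hmain := gain_main hp hs v Φ hϖ hϖ0 F hF hz hΦF hb1 hb hC0 hm' hh hdiff hmul S e hS hcard
    hn1 z hz0 hzz hHmz Good V hG hgood
  rw [hnidx] at hmain
  exact hmain

end high

end Pool.DynLehmer
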