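import Mathlib
import Pool.Agent.Lib.MP_2194ec_nt.RamH

set_option autoImplicit false

/-!
# Forms of small degree separating the conjugates of a point
-/

namespace Pool.DynLehmer
open MvPolynomial NumberField
open scoped Classical LinearAlgebra.Projectivization

section sep

variable {L : Type} [Field L] {ι : Type}

/-- separating forms of degree `δ` give separating forms of every degree at least `δ` -/
theorem sep_pad {n δ δ' : ℕ} (hδ : δ ≤ δ') (z : Fin n → ι → L) (hz : ∀ a, z a ≠ 0)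
    (hsep : ∀ a, ∃ G : MvPolynomial ι L, G.IsHomogeneous δ ∧ eval (z a) G ≠ 0 ∧
      ∀ i, i ≠ a → eval (z i) G = 0) (a : Fin n) :
    ∃ G : MvPolynomial ι L, G.IsHomogeneous δ' ∧ eval (z a) G ≠ 0 ∧
      ∀ i, i ≠ a → eval (z i) G = 0 := by
  obtain ⟨G, hG, hGa, hGi⟩ := hsep a
  obtain ⟨k0, hk0⟩ := Function.ne_iff.1 (hz a)
  refine ⟨G * X k0 ^ (δ' - δ), ?_, ?_, ?_⟩
  · have h1 := hG.mul (isHomogeneous_X_pow (R := L) k0 (δ' - δ))
    rwa [Nat.add_sub_cancel' hδ] at h1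
  · rw [map_mul, map_pow, eval_X]
    exact mul_ne_zero hGa (pow_ne_zero _ hk0)
  · intro i hi
    rw [map_mul, hGi i hi, zero_mul]

/-- a form of degree `δ + 1` vanishing at the rows and not at another point -/
theorem sep_vanish {n δ : ℕ} (z : Fin n → ι → L)
    (hsep : ∀ a, ∃ G : MvPolynomial ι L, G.IsHomogeneous δ ∧ eval (z a) G ≠ 0 ∧
      ∀ i, i ≠ a → eval (z i) G = 0)
    (y : ι → L) (hy : y ≠ 0) (hyz : ∀ a, ∃ k l, y k * z a l - y l * z a k ≠ 0) :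
    ∃ B : MvPolynomial ι L, B.IsHomogeneous (δ + 1) ∧ eval y B ≠ 0 ∧ ∀ a, eval (z a) B = 0 := by
  choose G hG hGa hGi using hsep
  choose k l hkl using hyz
  obtain ⟨k0, hk0⟩ := Function.ne_iff.1 hy
  set ℓ : Fin n → MvPolynomial ι L := fun a => C (y (k a)) * X (l a) - C (y (l a)) * X (k a)
    with hℓ
  have hℓy : ∀ a, eval y (ℓ a) = 0 := by
    intro a
    simp only [hℓ, map_sub, map_mul, eval_C, eval_X]
    ring
  have hℓz : ∀ a, eval (z a) (ℓ a) ≠ 0 := by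
    intro a
    simp only [hℓ, map_sub, map_mul, eval_C, eval_X]
    exact hkl a
  set c : Fin n → L := fun a => (z a k0) ^ (δ + 1) / (eval (z a) (G a) * eval (z a) (ℓ a)) with hc
  refine ⟨X k0 ^ (δ + 1) - ∑ a, C (c a) * (G a * ℓ a), ?_, ?_, ?_⟩
  · refine (isHomogeneous_X_pow k0 (δ + 1)).sub (IsHomogeneous.sum _ _ _ fun a _ => ?_)
    have h1 : (ℓ a).IsHomogeneous 1 := (isHomogeneous_C_mul_X _ _).sub (isHomogeneous_C_mul_X _ _)
    have h2 := (isHomogeneous_C ι (c a)).mul ((hG a).mul h1)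
    rwa [zero_add] at h2
  · rw [map_sub, map_pow, eval_X, map_sum]
    have h1 : ∑ a, eval y (C (c a) * (G a * ℓ a)) = 0 := by
      refine Finset.sum_eq_zero fun a _ => ?_
      rw [map_mul, map_mul, hℓy, mul_zero, mul_zero]
    rw [h1, sub_zero]
    exact pow_ne_zero _ hk0
  · intro a
    rw [map_sub, map_pow, eval_X, map_sum, Finset.sum_eq_single a]
    · rw [map_mul, map_mul, eval_C]
      simp only [hc]
      rw [div_mul_cancel₀ _ (mul_ne_zero (hGa a) (hℓz a)), sub_self]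
    · intro b _ hb
      rw [map_mul, map_mul, hGi b a (Ne.symm hb), zero_mul, mul_zero]
    · intro h
      exact absurd (Finset.mem_univ a) h

end sep

section orb

variable {K N : Type} [Field K] [Field N] [Algebra K N] {ι : Type}

theorem eval_gal_map (σ : N ≃ₐ[K] N) (P : ι → N) (G : MvPolynomial ι N) :
    eval (gal σ P) (map ((σ : N →ₐ[K] N) : N →+* N) G) = σ (eval P G) := by
  rw [eval_map]
  have h := eval₂_comp ((σ : N →ₐ[K] N) : N →+* N) P G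
  exact h.symm

/-- forms of degree `δ` separate the conjugates of `P` -/
def OrbSep (K : Type) {N : Type} [Field K] [Field N] [Algebra K N] {ι : Type} (δ : ℕ)
    (P : ι → N) : Prop :=
  ∃ G : MvPolynomial ι N, G.IsHomogeneous δ ∧ eval P G ≠ 0 ∧
    ∀ σ : N ≃ₐ[K] N, σ ∉ stab P → eval (gal σ P) G = 0

theorem OrbSep.conj {δ : ℕ} {P : ι → N} (h : OrbSep K δ P) (σ : N ≃ₐ[K] N) :
    ∃ G : MvPolynomial ι N, G.IsHomogeneous δ ∧ eval (gal σ P) G ≠ 0 ∧
      ∀ τ : N ≃ₐ[K] N, (¬ ∃ c : N, c ≠ 0 ∧ gal τ P = c • gal σ P) → eval (gal τ P) G = 0 := by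
  obtain ⟨G, hG, hG1, hG2⟩ := h
  refine ⟨map ((σ : N →ₐ[K] N) : N →+* N) G, hG.map _, ?_, ?_⟩
  · rw [eval_gal_map]
    simpa using hG1
  · intro τ hτ
    have h1 : gal τ P = gal σ (gal (σ⁻¹ * τ) P) := by rw [← gal_mul, mul_inv_cancel_left]
    rw [h1, eval_gal_map, hG2 (σ⁻¹ * τ) (fun h2 => hτ (mem_stab_gal.1 h2)), map_zero]

theorem OrbSep.mono {δ δ' : ℕ} (hδ : δ ≤ δ') {P : ι → N} (h : OrbSep K δ P) (hP : P ≠ 0) :
    OrbSep K δ' P := by
  obtain ⟨G, hG, hG1, hG2⟩ := h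
  obtain ⟨k0, hk0⟩ := Function.ne_iff.1 hP
  refine ⟨G * X k0 ^ (δ' - δ), ?_, ?_, ?_⟩
  · have h1 := hG.mul (isHomogeneous_X_pow (R := N) k0 (δ' - δ))
    rwa [Nat.add_sub_cancel' hδ] at h1
  · rw [map_mul, map_pow, eval_X]
    exact mul_ne_zero hG1 (pow_ne_zero _ hk0)
  · intro i hi
    rw [map_mul, hG2 i hi, zero_mul]

theorem eval_zero_of_smul {G : MvPolynomial ι N} {δ : ℕ} (hG : G.IsHomogeneous δ) {y z : ι → N}
    {c : N} (hc : c ≠ 0) (h : z = c • y) : eval z G = 0 ↔ eval y G = 0 := by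
  rw [h, eval_smul_hom hG]
  constructor
  · intro h1
    exact (mul_eq_zero.1 h1).resolve_left (pow_ne_zero _ hc)
  · intro h1
    rw [h1, mul_zero]

/-- rows of the orbit are separated -/
theorem OrbSep.rows {δ : ℕ} {P : ι → N} (h : OrbSep K δ P)
    {n : ℕ} (z : Fin n → ι → N) (pre : Fin n → (N ≃ₐ[K] N)) (hpre : ∀ a, z a = gal (pre a) P)
    (hzz : ∀ a i, i ≠ a → ∃ k l, z i k * z a l - z i l * z a k ≠ 0) (a : Fin n) :
    ∃ G : MvPolynomial ι N, G.IsHomogeneous δ ∧ eval (z a) G ≠ 0 ∧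
      ∀ i, i ≠ a → eval (z i) G = 0 := by
  obtain ⟨G, hG, hG1, hG2⟩ := h.conj (pre a)
  refine ⟨G, hG, by rw [hpre a]; exact hG1, fun i hi => ?_⟩
  rw [hpre i]
  refine hG2 _ ?_
  rintro ⟨c, hc, h1⟩
  obtain ⟨k, l, hkl⟩ := hzz a i hi
  apply hkl
  rw [hpre i, hpre a, h1]
  simp only [Pi.smul_apply, smul_eq_mul]
  ring

/-- a form of degree `δ + 1` vanishing at the conjugates of `P` and not at another point -/
theorem OrbSep.vanish [FiniteDimensional K N] {δ : ℕ} {P : ι → N} (h : OrbSep K δ P)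
    (hP : P ≠ 0) (y : ι → N) (hy : y ≠ 0)
    (hne : ∀ σ : N ≃ₐ[K] N, ¬ ∃ c : N, c ≠ 0 ∧ y = c • gal σ P) :
    ∃ B : MvPolynomial ι N, B.IsHomogeneous (δ + 1) ∧ eval y B ≠ 0 ∧
      ∀ σ : N ≃ₐ[K] N, eval (gal σ P) B = 0 := by
  obtain ⟨n, z, pre, hn1, hn, hpre, hz0, hzz, hcover⟩ := exists_rows
    (fin (⊤ : Subgroup (N ≃ₐ[K] N))) ⟨1, mem_fin.2 (Subgroup.mem_top _)⟩ (fun σ => gal σ P)
    (fun σ => gal_ne σ hP)
  obtain ⟨B, hB, hB1, hB2⟩ := sep_vanish z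
    (h.rows z pre (fun a => (hpre a).2) hzz) y hy (fun a => by
      by_contra hcon
      push Not at hcon
      obtain ⟨c, hc, h1⟩ := prop_of_minors hy (hz0 a) hcon
      exact hne (pre a) ⟨c, hc, by rw [h1, (hpre a).2]⟩)
  refine ⟨B, hB, hB1, fun σ => ?_⟩
  obtain ⟨a, c, hc, h1⟩ := hcover σ (mem_fin.2 (Subgroup.mem_top _))
  exact (eval_zero_of_smul hB hc h1).1 (hB2 a)

end orb

end Pool.DynLehmer
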