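import Mathlib
import Pool.Agent.Lib.MP_2194ec_nt.GenLocal

set_option autoImplicit false

/-!
# The reduction of a curve and its iterates
-/

namespace Pool.DynLehmer
open MvPolynomial NumberField
open scoped Classical

section radical

variable {k : Type} [Field k]

theorem totalDegree_pos_of_prime {a : MvPolynomial (Fin 3) k} (ha : Prime a) :
    1 ≤ a.totalDegree := by
  by_contra hcon
  have h1 := totalDegree_eq_zero_iff_eq_C.1 (show a.totalDegree = 0 by omega)
  apply ha.not_isUnit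
  rw [h1]
  refine (Ne.isUnit ?_).map C
  intro h2
  rw [h2, map_zero] at h1
  exact ha.ne_zero h1

theorem card_le_totalDegree (f : Multiset (MvPolynomial (Fin 3) k)) (hf : ∀ x ∈ f, Prime x) :
    Multiset.card f ≤ f.prod.totalDegree := by
  induction f using Multiset.induction_on with
  | empty => simp
  | cons a s ih =>
    have h1 := ih fun x hx => hf x (Multiset.mem_cons_of_mem hx)
    have ha := hf a (Multiset.mem_cons_self a s)
    have hs0 : s.prod ≠ 0 := by
      refine Multiset.prod_ne_zero fun h0 => ?_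
      exact (hf 0 (Multiset.mem_cons_of_mem h0)).ne_zero rfl
    rw [Multiset.card_cons, Multiset.prod_cons, totalDegree_mul_of_isDomain ha.ne_zero hs0]
    have := totalDegree_pos_of_prime ha
    omega

theorem prod_dvd_pow_card {M : Type} [CommMonoid M] (f : Multiset M) (h : M)
    (hf : ∀ x ∈ f, x ∣ h) : f.prod ∣ h ^ Multiset.card f := by
  induction f using Multiset.induction_on with
  | empty => simp
  | cons a s ih =>
    rw [Multiset.card_cons, Multiset.prod_cons, pow_succ, mul_comm a]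
    exact mul_dvd_mul (ih fun x hx => hf x (Multiset.mem_cons_of_mem hx))
      (hf a (Multiset.mem_cons_self a s))

theorem dvd_pow_of_dvd_pow' {g h : MvPolynomial (Fin 3) k} {w0 Q : ℕ} (hg : g.totalDegree ≤ w0)
    (hg0 : g ≠ 0) (hgh : g ∣ h ^ Q) : g ∣ h ^ w0 := by
  obtain ⟨f, hf, hfg⟩ := UniqueFactorizationMonoid.exists_prime_factors g hg0
  have h1 : ∀ x ∈ f, x ∣ h := by
    intro x hx
    exact (hf x hx).dvd_of_dvd_pow (((Multiset.dvd_prod hx).trans hfg.dvd).trans hgh)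
  have h2 := prod_dvd_pow_card f h h1
  obtain ⟨y, hy⟩ := hfg.dvd
  have hy0 : f.prod ≠ 0 ∧ y ≠ 0 := mul_ne_zero_iff.1 (hy ▸ hg0)
  have h3 : Multiset.card f ≤ w0 := by
    refine (card_le_totalDegree f hf).trans (le_trans ?_ hg)
    rw [hy, totalDegree_mul_of_isDomain hy0.1 hy0.2]
    exact Nat.le_add_right _ _
  exact (hfg.symm.dvd.trans h2).trans (pow_dvd_pow h h3)

theorem hom_pos_not_unit {g : MvPolynomial (Fin 3) k} {d : ℕ} (hd : 1 ≤ d)
    (hg : g.IsHomogeneous d) : ¬ IsUnit g := by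
  intro hu
  obtain ⟨c, hc, h⟩ := MvPolynomial.isUnit_iff_eq_C_of_isReduced.1 hu
  have h0 : g.IsHomogeneous 0 := by rw [h]; exact isHomogeneous_C _ _
  have := hg.inj_right h0 hu.ne_zero
  omega

theorem exists_radical (m : MonomialOrder (Fin 3)) {g : MvPolynomial (Fin 3) k} {w0 : ℕ}
    (hg : g.IsHomogeneous w0) (hg0 : g ≠ 0) (hw0 : 1 ≤ w0) :
    ∃ (d : ℕ) (G : MvPolynomial (Fin 3) k), 1 ≤ d ∧ d ≤ w0 ∧ G.IsHomogeneous d ∧ m.Monic G ∧
      g ∣ G ^ w0 ∧ ∀ (b : ℕ) (h : MvPolynomial (Fin 3) k) (Q : ℕ), h.IsHomogeneous b → h ≠ 0 →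
        g ∣ h ^ Q → d ≤ b := by
  have hex : ∃ d : ℕ, ∃ G : MvPolynomial (Fin 3) k, G.IsHomogeneous d ∧ G ≠ 0 ∧ g ∣ G ^ w0 :=
    ⟨w0, g, hg, hg0, dvd_pow_self g (by omega)⟩
  obtain ⟨G, hG, hG0, hgG⟩ := Nat.find_spec hex
  have hmin : ∀ b, (∃ G : MvPolynomial (Fin 3) k, G.IsHomogeneous b ∧ G ≠ 0 ∧ g ∣ G ^ w0) →
      Nat.find hex ≤ b := fun b h => Nat.find_min' hex h
  set d := Nat.find hex with hd
  have hd1 : 1 ≤ d := by
    by_contra hcon
    have hd0 : d = 0 := by omega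
    rw [hd0] at hG
    have h1 := totalDegree_eq_zero_iff_eq_C.1 (Nat.le_zero.1 (hG.totalDegree_le))
    have h2 : IsUnit G := by
      rw [h1]
      refine (Ne.isUnit ?_).map C
      intro h2
      rw [h2, map_zero] at h1
      exact hG0 h1
    exact hom_pos_not_unit hw0 hg (isUnit_of_dvd_unit hgG (h2.pow w0))
  have hlc : m.leadingCoeff G ≠ 0 := m.leadingCoeff_ne_zero_iff.2 hG0
  refine ⟨d, C (m.leadingCoeff G)⁻¹ * G, hd1, hmin w0 ⟨g, hg, hg0, dvd_pow_self g (by omega)⟩,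
    hG.C_mul _, ?_, ?_, ?_⟩
  · have h1 : m.degree (C (m.leadingCoeff G)⁻¹ * G) = m.degree G := by
      rw [← smul_eq_C_mul]
      exact m.degree_smul_of_isRegular (IsRegular.of_ne_zero (inv_ne_zero hlc))
    rw [MonomialOrder.Monic, MonomialOrder.leadingCoeff, h1, coeff_C_mul]
    exact inv_mul_cancel₀ hlc
  · rw [mul_pow]
    exact hgG.mul_left _
  · intro b h Q hh hh0 hgh
    refine hmin b ⟨h, hh, hh0, dvd_pow_of_dvd_pow' ?_ hg0 hgh⟩
    exact hg.totalDegree_le

end radical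

section ints

variable {K : Type} [Field K] [NumberField K] (v : FinitePlace K)

instance MW_max : (MW v).IsMaximal :=
  Ideal.Quotient.maximal_of_isField _ (Finite.isField_of_domain _)

/-- the reduction of polynomials -/
noncomputable def redP : MvPolynomial (Fin 3) (OW v) →+* MvPolynomial (Fin 3) (OW v ⧸ MW v) :=
  MvPolynomial.map (Ideal.Quotient.mk (MW v))

theorem coeff_redP (f : MvPolynomial (Fin 3) (OW v)) (t : Fin 3 →₀ ℕ) :
    coeff t (redP v f) = Ideal.Quotient.mk (MW v) (coeff t f) := coeff_map _ _ _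

theorem exists_prim_poly {f : MvPolynomial (Fin 3) K} (hf : f ≠ 0) :
    ∃ c : K, c ≠ 0 ∧ ∃ f' : MvPolynomial (Fin 3) (OW v),
      map (OW v).subtype f' = C c * f ∧ redP v f' ≠ 0 := by
  have hne : f.support.Nonempty := by
    rw [Finset.nonempty_iff_ne_empty]
    intro h
    exact hf (support_eq_empty.1 h)
  obtain ⟨t0, ht0, hmax⟩ := Finset.exists_max_image f.support (fun t => v (coeff t f)) hne
  have hc0 : coeff t0 f ≠ 0 := mem_support_iff.1 ht0
  have hv0 : 0 < v (coeff t0 f) := FinitePlace.pos_iff.2 hc0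
  have hint : ∀ t, coeff t (C (coeff t0 f)⁻¹ * f) ∈ OW v := by
    intro t
    rw [mem_OW, coeff_C_mul, map_mul, map_inv₀, inv_mul_le_iff₀ hv0, mul_one]
    by_cases ht : t ∈ f.support
    · exact hmax t ht
    · rw [notMem_support_iff.1 ht, map_zero]
      exact hv0.le
  have h2 : C (coeff t0 f)⁻¹ * f ∈ Set.range (map (σ := Fin 3) (OW v).subtype) := by
    rw [mem_range_map_iff_coeffs_subset]
    intro a ha
    rw [Finset.mem_coe, mem_coeffs_iff] at ha
    obtain ⟨t, _, rfl⟩ := ha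
    exact ⟨⟨_, hint t⟩, rfl⟩
  obtain ⟨f', hf'⟩ := h2
  refine ⟨(coeff t0 f)⁻¹, inv_ne_zero hc0, f', hf', ?_⟩
  intro h0
  have h3 := congrArg (coeff t0) h0
  rw [coeff_redP, coeff_zero, Ideal.Quotient.eq_zero_iff_mem, mem_MW] at h3
  have h4 := congrArg (coeff t0) hf'
  rw [coeff_map, coeff_C_mul, inv_mul_cancel₀ hc0] at h4
  have h5 : ((coeff t0 f' : OW v) : K) = 1 := h4
  rw [h5, map_one] at h3
  exact lt_irrefl _ h3

theorem map_subtype_inj : Function.Injective (map (σ := Fin 3) (OW v).subtype) :=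
  MvPolynomial.map_injective _ Subtype.val_injective

theorem red_dvd {g h : MvPolynomial (Fin 3) (OW v)} (hg : redP v g ≠ 0)
    (hgh : map (OW v).subtype g ∣ map (OW v).subtype h) : redP v g ∣ redP v h := by
  obtain ⟨y, hy⟩ := hgh
  by_cases hy0 : y = 0
  · rw [hy0, mul_zero] at hy
    have h0 : h = 0 := map_subtype_inj v (by rw [hy, map_zero])
    rw [h0, map_zero]
    exact dvd_zero _
  obtain ⟨c, hc, y', hy', hyr⟩ := exists_prim_poly v hy0
  have key : C c * map (OW v).subtype h = map (OW v).subtype (g * y') := by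
    rw [map_mul, hy', hy]; ring
  rcases le_or_gt (v c) 1 with h1 | h1
  · set c' : OW v := ⟨c, h1⟩ with hc'
    have h2 : C c' * h = g * y' := by
      apply map_subtype_inj v
      rw [← key, map_mul, map_C]
      rfl
    have h3 := congrArg (redP v) h2
    rw [map_mul, map_mul] at h3
    have h4 : redP v (C c') ≠ 0 := by
      intro h0
      rw [h0, zero_mul] at h3
      exact mul_ne_zero hg hyr h3.symm
    have h5 : redP v (C c') = C (Ideal.Quotient.mk (MW v) c') := map_C _ _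
    have h6 : IsUnit (redP v (C c')) := by
      rw [h5]
      have h7 : Ideal.Quotient.mk (MW v) c' ≠ 0 := by
        intro h0
        rw [h5, h0, map_zero] at h4
        exact h4 rfl
      let _ := Ideal.Quotient.field (MW v)
      exact (Ne.isUnit h7).map C
    rw [← h6.dvd_mul_left, h3]
    exact Dvd.intro _ rfl
  · have h2 : v c⁻¹ < 1 := by rw [map_inv₀]; exact inv_lt_one_of_one_lt₀ h1
    set c' : OW v := ⟨c⁻¹, h2.le⟩ with hc'
    have h3 : h = C c' * (g * y') := by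
      apply map_subtype_inj v
      rw [map_mul, map_C, ← key, ← mul_assoc]
      change _ = C c⁻¹ * C c * _
      rw [← C_mul, inv_mul_cancel₀ hc, C_1, one_mul]
    have h4 : redP v (C c') = 0 := by
      have h5 : redP v (C c') = C (Ideal.Quotient.mk (MW v) c') := map_C _ _
      rw [h5, Ideal.Quotient.eq_zero_iff_mem.2 (mem_MW.2 h2), map_zero]
    rw [h3, map_mul, h4, zero_mul]
    exact dvd_zero _

/-- lifting monic forms -/
theorem exists_lift_monic (m : MonomialOrder (Fin 3)) {d : ℕ}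
    {G : MvPolynomial (Fin 3) (OW v ⧸ MW v)} (hG : G.IsHomogeneous d) (hGm : m.Monic G) :
    ∃ G' : MvPolynomial (Fin 3) (OW v), redP v G' = G ∧ G'.IsHomogeneous d ∧ m.Monic G' := by
  have hsec : ∀ c : OW v ⧸ MW v, ∃ x : OW v, Ideal.Quotient.mk (MW v) x = c ∧
      (c = 0 → x = 0) ∧ (c = 1 → x = 1) := by
    intro c
    by_cases h0 : c = 0
    · refine ⟨0, by rw [h0, map_zero], fun _ => rfl, fun h1 => ?_⟩
      rw [h0] at h1
      exact absurd h1 zero_ne_one
    by_cases h1 : c = 1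
    · exact ⟨1, by rw [h1, map_one], fun h => absurd h h0, fun _ => rfl⟩
    · obtain ⟨x, hx⟩ := Ideal.Quotient.mk_surjective c
      exact ⟨x, hx, fun h => absurd h h0, fun h => absurd h h1⟩
  choose r hr hr0 hr1 using hsec
  set G' : MvPolynomial (Fin 3) (OW v) := ∑ t ∈ G.support, monomial t (r (coeff t G)) with hG'
  have hcoeff : ∀ t, coeff t G' = r (coeff t G) := by
    intro t
    rw [hG', coeff_sum]
    simp only [coeff_monomial]
    rw [Finset.sum_ite_eq']
    split_ifs with h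
    · rfl
    · rw [notMem_support_iff.1 h, hr0 0 rfl]
  have hsupp : G'.support = G.support := by
    ext t
    rw [mem_support_iff, mem_support_iff, hcoeff, not_iff_not]
    constructor
    · intro h
      rw [← hr (coeff t G), h, map_zero]
    · exact hr0 _
  have hdeg : m.degree G' = m.degree G := by
    rw [MonomialOrder.degree, MonomialOrder.degree, hsupp]
  refine ⟨G', ?_, ?_, ?_⟩
  · ext t
    rw [coeff_redP, hcoeff, hr]
  · intro t ht
    rw [hcoeff] at ht
    apply hG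
    intro h0
    exact ht (hr0 _ h0)
  · rw [MonomialOrder.Monic, MonomialOrder.leadingCoeff, hdeg, hcoeff]
    exact hr1 _ hGm.coeff_degree

end ints

section abs

variable {A : Type} [CommRing A] {p s : ℕ}

/-- evaluation of iterated substitutions -/
theorem eval_bind_iter (Φ : GF A p s (Fin 3)) {B : Type} [CommRing B] (χ : A →+* B) (j : ℕ)
    (u : Fin 3 → B) (h : MvPolynomial (Fin 3) A) :
    eval₂ χ u ((bind₁ Φ.F)^[j] h) = eval₂ χ ((Φ.map χ).act^[j] u) h := by
  induction j generalizing h with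
  | zero => rfl
  | succ j ih =>
    rw [Function.iterate_succ_apply, ih, Function.iterate_succ_apply']
    have h1 : (eval₂Hom χ ((Φ.map χ).act^[j] u)) (bind₁ Φ.F h) =
        (eval₂Hom χ fun i => (eval₂Hom χ ((Φ.map χ).act^[j] u)) (Φ.F i)) h :=
      eval₂Hom_bind₁ _ _ _ _
    have h2 : (fun i => (eval₂Hom χ ((Φ.map χ).act^[j] u)) (Φ.F i)) =
        (Φ.map χ).act ((Φ.map χ).act^[j] u) := by
      funext i
      rw [GF.act, GF.map_F, eval_map]
      rfl
    rw [h2] at h1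
    exact h1

variable {κ : Type} [CommRing κ] [CharP κ p]

theorem frob_map (hp : p.Prime) (mk : A →+* κ) (n : ℕ) (hc : ∀ c : κ, c ^ (p ^ n) = c)
    (h : MvPolynomial (Fin 3) A) :
    eval₂ (C.comp mk) (fun i => (X i : MvPolynomial (Fin 3) κ) ^ (p ^ n)) h =
      (map mk h) ^ (p ^ n) := by
  have hfact : Fact p.Prime := ⟨hp⟩
  have h3 : (eval₂Hom (C.comp mk) fun i => (X i : MvPolynomial (Fin 3) κ) ^ (p ^ n)) =
      (iterateFrobenius (MvPolynomial (Fin 3) κ) p n).comp (map mk) := by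
    apply MvPolynomial.ringHom_ext
    · intro r
      simp only [coe_eval₂Hom, eval₂_C, RingHom.comp_apply, iterateFrobenius_def, map_C]
      rw [← map_pow, hc]
    · intro i
      simp only [coe_eval₂Hom, eval₂_X, RingHom.comp_apply, iterateFrobenius_def, map_X]
  have h4 := congrArg (fun φ : MvPolynomial (Fin 3) A →+* MvPolynomial (Fin 3) κ => φ h) h3
  simp only [coe_eval₂Hom, RingHom.comp_apply, iterateFrobenius_def] at h4
  exact h4

theorem map_bind_iter (hp : p.Prime) (Φ : GF A p s (Fin 3)) (mk : A →+* κ) (h0 : mk Φ.ϖ = 0)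
    {j : ℕ} (hgood : ∀ (R : Type) [CommRing R] [CharP R p] (ψ : κ →+* R) (z : Fin 3 → R),
      (glin (p ^ s) (Φ.g.map mk) ψ)^[j] z = fun i => z i ^ ((p ^ s) ^ j))
    (hc : ∀ c : κ, c ^ ((p ^ s) ^ j) = c)
    (h : MvPolynomial (Fin 3) A) :
    map mk ((bind₁ Φ.F)^[j] h) = (map mk h) ^ ((p ^ s) ^ j) := by
  have hredeq : ∀ f : MvPolynomial (Fin 3) A, map mk f = eval₂ (C.comp mk) X f := by
    intro f
    rw [← eval₂_map, eval₂_eta]
  have hact : (Φ.map (C.comp mk)).act = glin (p ^ s) (Φ.g.map mk)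
      (C : κ →+* MvPolynomial (Fin 3) κ) := by
    funext z i
    rw [GF.act_apply]
    have h1 : (Φ.map ((C : κ →+* MvPolynomial (Fin 3) κ).comp mk)).ϖ = 0 := by
      change C (mk Φ.ϖ) = 0
      rw [h0, map_zero]
    rw [h1, zero_mul, add_zero]
    rfl
  rw [hredeq, eval_bind_iter, hact, hgood (MvPolynomial (Fin 3) κ) C X]
  have hQ : (p ^ s) ^ j = p ^ (s * j) := (pow_mul p s j).symm
  rw [hQ] at hc ⊢
  exact frob_map hp mk _ hc h

end abs

section iter

variable {K : Type} [Field K] [NumberField K] {v : FinitePlace K} {p s : ℕ}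
  (Φ : GF (OW v) p s (Fin 3))

/-- good exponents -/
def GoodJ (Φ : GF (OW v) p s (Fin 3)) (j : ℕ) : Prop :=
  GGoodExp Φ j ∧ ∀ c : OW v ⧸ MW v, c ^ ((p ^ s) ^ j) = c

theorem exists_goodJ (hϖ : v (Φ.ϖ : K) < 1) (hp : p.Prime) :
    ∃ k, 1 ≤ k ∧ ∀ j, k ∣ j → GoodJ Φ j := by
  obtain ⟨m, hm, h⟩ := exists_ggoodExp Φ hϖ hp
  have hchar := gcharP Φ hϖ hp
  have hfact : Fact p.Prime := ⟨hp⟩
  let _ := Ideal.Quotient.field (MW v)
  have _ := Fintype.ofFinite (OW v ⧸ MW v)
  obtain ⟨n, -, hn⟩ := FiniteField.card (OW v ⧸ MW v) p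
  refine ⟨m * n, Nat.mul_pos hm n.pos, fun j hj => ⟨h j (dvd_of_mul_right_dvd hj), ?_⟩⟩
  intro c
  obtain ⟨t, rfl⟩ := dvd_of_mul_left_dvd hj
  have h1 : (p ^ s) ^ ((n : ℕ) * t) = Fintype.card (OW v ⧸ MW v) ^ (s * t) := by
    rw [hn, ← pow_mul, ← pow_mul]
    congr 1
    ring
  rw [h1]
  exact FiniteField.pow_card_pow _ _

/-- the reduction of iterated substitutions -/
theorem red_bind_iter (hϖ : v (Φ.ϖ : K) < 1) (hp : p.Prime) {j : ℕ} (hj : GoodJ Φ j)
    (h : MvPolynomial (Fin 3) (OW v)) :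
    redP v ((bind₁ Φ.F)^[j] h) = (redP v h) ^ ((p ^ s) ^ j) := by
  have hchar := gcharP Φ hϖ hp
  exact map_bind_iter hp Φ (Ideal.Quotient.mk (MW v))
    (Ideal.Quotient.eq_zero_iff_mem.2 (mem_MW.2 hϖ)) hj.1 hj.2 h

/-- multiples of the uniformizer -/
theorem dvd_of_red_zero (hϖ0 : (Φ.ϖ : K) ≠ 0) (hmax : ∀ a : K, v a < 1 → v a ≤ v (Φ.ϖ : K))
    {f : MvPolynomial (Fin 3) (OW v)} (hf : redP v f = 0) : C Φ.ϖ ∣ f := by
  rw [C_dvd_iff_dvd_coeff]
  intro t
  have h1 := congrArg (coeff t) hf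
  rw [coeff_redP, coeff_zero, Ideal.Quotient.eq_zero_iff_mem, mem_MW] at h1
  have h2 := hmax _ h1
  have h3 : 0 < v (Φ.ϖ : K) := FinitePlace.pos_iff.2 hϖ0
  refine ⟨⟨((coeff t f : OW v) : K) / (Φ.ϖ : K), ?_⟩, ?_⟩
  · rw [mem_OW, map_div₀]
    exact div_le_one_of_le₀ h2 h3.le
  · ext
    rw [Subring.coe_mul]
    change _ = (Φ.ϖ : K) * (((coeff t f : OW v) : K) / (Φ.ϖ : K))
    rw [mul_div_cancel₀ _ hϖ0]

/-- **The local curve lemma.** -/
theorem curve_local (hϖ : v (Φ.ϖ : K) < 1) (hϖ0 : (Φ.ϖ : K) ≠ 0) (hp : p.Prime)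
    (hmax : ∀ a : K, v a < 1 → v a ≤ v (Φ.ϖ : K))
    (F : Fin 3 → MvPolynomial (Fin 3) K) (hΦF : ∀ i, map (OW v).subtype (Φ.F i) = F i)
    (m : MonomialOrder (Fin 3)) {g : MvPolynomial (Fin 3) K} {w0 : ℕ}
    (hg : g.IsHomogeneous w0) (hg0 : g ≠ 0) (hw0 : 1 ≤ w0) :
    ∃ (d : ℕ) (G g' : MvPolynomial (Fin 3) (OW v)) (c : K), c ≠ 0 ∧
      map (OW v).subtype g' = C c * g ∧ 1 ≤ d ∧ d ≤ w0 ∧ G.IsHomogeneous d ∧ m.Monic G ∧
      (∀ j, GoodJ Φ j → w0 ≤ (p ^ s) ^ j → ∀ (B : Type) [CommRing B] (χ : OW v →+* B)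
        (u : Fin 3 → B), eval₂ χ u g' = 0 →
        χ Φ.ϖ ∣ eval₂ χ ((Φ.map χ).act^[j] u) G) ∧
      (∀ j, GoodJ Φ j → ∀ (b : ℕ) (h : MvPolynomial (Fin 3) K), h.IsHomogeneous b → h ≠ 0 →
        g ∣ (bind₁ F)^[j] h → d ≤ b) := by
  let _ := Ideal.Quotient.field (MW v)
  obtain ⟨c, hc, g', hg', hgr⟩ := exists_prim_poly v hg0
  have hg'h : g'.IsHomogeneous w0 := by
    refine IsHomogeneous.of_map (f := (OW v).subtype) Subtype.val_injective ?_
    rw [hg']
    exact hg.C_mul _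
  have hgrh : (redP v g').IsHomogeneous w0 := hg'h.map _
  obtain ⟨d, Gb, hd1, hd2, hGb, hGbm, hdvd, hmin⟩ := exists_radical m hgrh hgr hw0
  obtain ⟨G, hGr, hGh, hGm⟩ := exists_lift_monic v m hGb hGbm
  refine ⟨d, G, g', c, hc, hg', hd1, hd2, hGh, hGm, ?_, ?_⟩
  · intro j hj hQ B _ χ u hu
    obtain ⟨Bb, hBb⟩ := hdvd
    obtain ⟨B', hB'⟩ := MvPolynomial.map_surjective _ (Ideal.Quotient.mk_surjective (I := MW v)) Bb
    have h1 : redP v (G ^ w0 - g' * B') = 0 := by
      rw [map_sub, map_pow, map_mul, hGr, hBb]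
      change _ - _ * map (Ideal.Quotient.mk (MW v)) B' = 0
      rw [hB', sub_self]
    obtain ⟨r1, hr1⟩ := dvd_of_red_zero Φ hϖ0 hmax h1
    have h2 : redP v ((bind₁ Φ.F)^[j] G - G ^ ((p ^ s) ^ j)) = 0 := by
      rw [map_sub, map_pow, red_bind_iter Φ hϖ hp hj, sub_self]
    obtain ⟨r2, hr2⟩ := dvd_of_red_zero Φ hϖ0 hmax h2
    have h3 : χ Φ.ϖ ∣ (eval₂ χ u G) ^ w0 := by
      have h4 := congrArg (eval₂Hom χ u) hr1
      simp only [map_sub, map_mul, map_pow, coe_eval₂Hom, eval₂_C] at h4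
      rw [hu, zero_mul, sub_zero] at h4
      exact ⟨_, h4⟩
    have h4 := congrArg (eval₂Hom χ u) hr2
    simp only [map_sub, map_mul, map_pow, coe_eval₂Hom, eval₂_C] at h4
    rw [eval_bind_iter] at h4
    have h5 : eval₂ χ ((Φ.map χ).act^[j] u) G =
        (eval₂ χ u G) ^ ((p ^ s) ^ j) + χ Φ.ϖ * eval₂ χ u r2 := by
      rw [← h4]; ring
    rw [h5]
    exact dvd_add (h3.trans (pow_dvd_pow _ hQ)) (Dvd.intro _ rfl)
  · intro j hj b h hh hh0 hgh
    obtain ⟨c', hc', h', hh', hhr⟩ := exists_prim_poly v hh0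
    have hh'h : h'.IsHomogeneous b := by
      refine IsHomogeneous.of_map (f := (OW v).subtype) Subtype.val_injective ?_
      rw [hh']
      exact hh.C_mul _
    refine hmin b (redP v h') ((p ^ s) ^ j) (hh'h.map _) hhr ?_
    rw [← red_bind_iter Φ hϖ hp hj]
    apply red_dvd v hgr
    have hmapiter : ∀ (n : ℕ) (f : MvPolynomial (Fin 3) (OW v)),
        map (OW v).subtype ((bind₁ Φ.F)^[n] f) = (bind₁ F)^[n] (map (OW v).subtype f) := by
      intro n
      induction n with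
      | zero => intro f; rfl
      | succ n ih =>
        intro f
        have hFF : (fun i => map (OW v).subtype (Φ.F i)) = F := funext hΦF
        rw [Function.iterate_succ_apply, Function.iterate_succ_apply, ih, map_bind₁, hFF]
    have hCiter : ∀ (n : ℕ) (a : K) (f : MvPolynomial (Fin 3) K),
        (bind₁ F)^[n] (C a * f) = C a * (bind₁ F)^[n] f := by
      intro n
      induction n with
      | zero => intro a f; rfl
      | succ n ih =>
        intro a f
        rw [Function.iterate_succ_apply, Function.iterate_succ_apply, map_mul, bind₁_C_right, ih]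
    rw [hmapiter, hh', hg', hCiter]
    have hu : IsUnit (C c : MvPolynomial (Fin 3) K) := (Ne.isUnit hc).map C
    rw [hu.mul_left_dvd]
    exact hgh.mul_left _

end iter

end Pool.DynLehmer
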