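import Mathlib
import Pool.Agent.Lib.MP_2194ec_nt.HilB
import Pool.Agent.Lib.MP_2194ec_nt.PlA

set_option autoImplicit false

/-!
# Common zeros of two ternary forms are separated by forms of degree `a + b - 2`
-/

namespace Pool.DynLehmer
open MvPolynomial
open scoped Classical

section univ

variable {Ω : Type} [Field Ω]

theorem bin_aux {G H f : Polynomial Ω} {a b n : ℕ} (hcop : IsCoprime G H)
    (hGa : G.natDegree = a) (hG0 : G ≠ 0) (hHb : H.natDegree ≤ b) (hf : f.natDegree ≤ n)
    (hb : 1 ≤ b) (hn : a + b ≤ n + 1) :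
    ∃ u v : Polynomial Ω, f = G * u + H * v ∧ u.natDegree ≤ n - a ∧ v.natDegree ≤ n - b := by
  obtain ⟨α, β, hαβ⟩ := hcop
  set r := (β * f) % G with hr
  set qq := (β * f) / G with hqq
  have h1 : β * f = G * qq + r := (EuclideanDomain.div_add_mod (β * f) G).symm
  have hrdeg : r.degree < G.degree := EuclideanDomain.mod_lt _ hG0
  have hf1 : f = G * (α * f + qq * H) + H * r := by
    calc f = (α * G + β * H) * f := by rw [hαβ, one_mul]
      _ = α * f * G + H * (β * f) := by ring
      _ = _ := by rw [h1]; ring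
  have hrn : r.natDegree ≤ n - b := by
    by_cases hr0 : r = 0
    · rw [hr0]; simp
    · have := Polynomial.natDegree_lt_natDegree hr0 hrdeg
      omega
  refine ⟨α * f + qq * H, r, hf1, ?_, hrn⟩
  set u := α * f + qq * H with hu
  by_cases hu0 : u = 0
  · rw [hu0]; simp
  have h2 : G * u = f - H * r := by rw [hf1]; ring
  have h3 : (G * u).natDegree = a + u.natDegree := by
    rw [Polynomial.natDegree_mul hG0 hu0, hGa]
  have h4 : (f - H * r).natDegree ≤ n := by
    refine (Polynomial.natDegree_sub_le _ _).trans (max_le hf ?_)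
    by_cases hr0 : r = 0
    · rw [hr0, mul_zero]; simp
    · have h5 := Polynomial.natDegree_lt_natDegree hr0 hrdeg
      have h6 := Polynomial.natDegree_mul_le (p := H) (q := r)
      omega
  rw [← h2, h3] at h4
  omega

end univ

section line

variable {Ω : Type} [Field Ω]

/-- the line `X 0 = - s * X 1 - s ^ 2 * X 2` -/
noncomputable def lineT (s : Ω) : MvPolynomial (Fin 3) Ω →ₐ[Ω] Polynomial Ω :=
  aeval ![-(Polynomial.C s * Polynomial.X + Polynomial.C (s ^ 2)), Polynomial.X, 1]

/-- binary forms in `X 1`, `X 2` -/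
noncomputable def liftT (n : ℕ) (p : Polynomial Ω) : MvPolynomial (Fin 3) Ω :=
  ∑ j ∈ Finset.range (n + 1), C (p.coeff j) * (X 1 ^ j * X 2 ^ (n - j))

/-- the linear form -/
noncomputable def linT (s : Ω) : MvPolynomial (Fin 3) Ω := X 0 + C s * X 1 + C (s ^ 2) * X 2

theorem liftT_hom (n : ℕ) (p : Polynomial Ω) : (liftT n p).IsHomogeneous n := by
  refine IsHomogeneous.sum _ _ _ fun j hj => ?_
  refine IsHomogeneous.C_mul ?_ _
  have h1 := (isHomogeneous_X_pow (R := Ω) (1 : Fin 3) j).mul
    (isHomogeneous_X_pow (R := Ω) (2 : Fin 3) (n - j))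
  rw [Finset.mem_range] at hj
  rwa [show j + (n - j) = n by omega] at h1

theorem linT_hom (s : Ω) : (linT s).IsHomogeneous 1 :=
  ((isHomogeneous_X _ _).add (isHomogeneous_C_mul_X _ _)).add (isHomogeneous_C_mul_X _ _)

theorem liftT_add (n : ℕ) (p r : Polynomial Ω) : liftT n (p + r) = liftT n p + liftT n r := by
  rw [liftT, liftT, liftT, ← Finset.sum_add_distrib]
  refine Finset.sum_congr rfl fun j _ => ?_
  rw [Polynomial.coeff_add, map_add]; ring

theorem liftT_C_mul (n : ℕ) (c : Ω) (p : Polynomial Ω) :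
    liftT n (Polynomial.C c * p) = C c * liftT n p := by
  rw [liftT, liftT, Finset.mul_sum]
  refine Finset.sum_congr rfl fun j _ => ?_
  rw [Polynomial.coeff_C_mul, map_mul]; ring

theorem liftT_X (n : ℕ) (p : Polynomial Ω) : liftT (n + 1) (Polynomial.X * p) =
    X 1 * liftT n p := by
  rw [liftT, liftT, Finset.sum_range_succ', Finset.mul_sum]
  have h0 : (Polynomial.X * p).coeff 0 = 0 := by simp
  rw [h0, map_zero, zero_mul, add_zero]
  refine Finset.sum_congr rfl fun j _ => ?_
  rw [Polynomial.coeff_X_mul, show n + 1 - (j + 1) = n - j by omega]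
  ring

theorem liftT_succ (n : ℕ) {p : Polynomial Ω} (hp : p.natDegree ≤ n) : liftT (n + 1) p =
    X 2 * liftT n p := by
  rw [liftT, liftT, Finset.sum_range_succ, Finset.mul_sum,
    Polynomial.coeff_eq_zero_of_natDegree_lt (show p.natDegree < n + 1 by omega), map_zero,
    zero_mul, add_zero]
  refine Finset.sum_congr rfl fun j hj => ?_
  rw [Finset.mem_range] at hj
  rw [show n + 1 - j = (n - j) + 1 by omega]
  ring

theorem lineT_X0 (s : Ω) : lineT s (X 0) = -(Polynomial.C s * Polynomial.X +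
    Polynomial.C (s ^ 2)) := by
  simp [lineT]

theorem lineT_X1 (s : Ω) : lineT s (X 1) = Polynomial.X := by
  simp [lineT]

theorem lineT_X2 (s : Ω) : lineT s (X 2) = 1 := by
  simp [lineT]

theorem lineT_C (s c : Ω) : lineT s (C c) = Polynomial.C c := by
  rw [lineT, aeval_C]; rfl

theorem lineT_linT (s : Ω) : lineT s (linT s) = 0 := by
  rw [linT, map_add, map_add, map_mul, map_mul, lineT_C, lineT_C, lineT_X0, lineT_X1, lineT_X2]
  ring

theorem lineT_liftT (s : Ω) {n : ℕ} {p : Polynomial Ω} (hp : p.natDegree ≤ n) :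
    lineT s (liftT n p) = p := by
  rw [liftT, map_sum]
  conv_rhs => rw [p.as_sum_range' (n + 1) (by omega)]
  refine Finset.sum_congr rfl fun j _ => ?_
  rw [map_mul, map_mul, map_pow, map_pow, lineT_C, lineT_X1, lineT_X2, one_pow, mul_one,
    Polynomial.C_mul_X_pow_eq_monomial]

/-- the decomposition of forms modulo the linear form -/
def DecT (s : Ω) (n : ℕ) (f : MvPolynomial (Fin 3) Ω) : Prop :=
  (lineT s f).natDegree ≤ n ∧ ∃ f' : MvPolynomial (Fin 3) Ω, f'.IsHomogeneous (n - 1) ∧
    (n = 0 → f' = 0) ∧ f = linT s * f' + liftT n (lineT s f)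

theorem decT_X1 {s : Ω} {n : ℕ} {f : MvPolynomial (Fin 3) Ω} (h : DecT s n f) :
    DecT s (n + 1) (X 1 * f) := by
  obtain ⟨h1, f', h2, h3, h4⟩ := h
  have e1 : lineT s (X 1 * f) = Polynomial.X * lineT s f := by rw [map_mul, lineT_X1]
  refine ⟨?_, X 1 * f', ?_, fun h => by omega, ?_⟩
  · rw [e1]
    refine (Polynomial.natDegree_mul_le).trans ?_
    have := Polynomial.natDegree_X_le (R := Ω)
    omega
  · rcases Nat.eq_zero_or_pos n with h0 | h0
    · rw [h3 h0, mul_zero]; exact isHomogeneous_zero _ _ _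
    · have := (isHomogeneous_X Ω (1 : Fin 3)).mul h2
      rwa [show 1 + (n - 1) = n + 1 - 1 by omega] at this
  · rw [e1, liftT_X]
    conv_lhs => rw [h4]
    ring

theorem decT_X2 {s : Ω} {n : ℕ} {f : MvPolynomial (Fin 3) Ω} (h : DecT s n f) :
    DecT s (n + 1) (X 2 * f) := by
  obtain ⟨h1, f', h2, h3, h4⟩ := h
  have e1 : lineT s (X 2 * f) = lineT s f := by rw [map_mul, lineT_X2, one_mul]
  refine ⟨?_, X 2 * f', ?_, fun h => by omega, ?_⟩
  · rw [e1]; omega
  · rcases Nat.eq_zero_or_pos n with h0 | h0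
    · rw [h3 h0, mul_zero]; exact isHomogeneous_zero _ _ _
    · have := (isHomogeneous_X Ω (2 : Fin 3)).mul h2
      rwa [show 1 + (n - 1) = n + 1 - 1 by omega] at this
  · rw [e1, liftT_succ n h1]
    conv_lhs => rw [h4]
    ring

theorem decT_X0 {s : Ω} {n : ℕ} {f : MvPolynomial (Fin 3) Ω} (h : DecT s n f) :
    DecT s (n + 1) (X 0 * f) := by
  obtain ⟨h1, f', h2, h3, h4⟩ := h
  have e1 : lineT s (X 0 * f) = Polynomial.X * (Polynomial.C (-s) * lineT s f) +
      Polynomial.C (-s ^ 2) * lineT s f := by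
    rw [map_mul, lineT_X0, Polynomial.C_neg, Polynomial.C_neg]; ring
  have hd : (Polynomial.C (-s ^ 2) * lineT s f).natDegree ≤ n :=
    (Polynomial.natDegree_C_mul_le _ _).trans h1
  refine ⟨?_, X 0 * f' + liftT n (lineT s f), ?_, fun h => by omega, ?_⟩
  · rw [e1]
    refine (Polynomial.natDegree_add_le _ _).trans (max_le ?_ (by omega))
    refine (Polynomial.natDegree_mul_le).trans ?_
    have := Polynomial.natDegree_X_le (R := Ω)
    have := Polynomial.natDegree_C_mul_le (-s) (lineT s f)
    omega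
  · have h5 := liftT_hom n (lineT s f)
    rw [show n + 1 - 1 = n by omega]
    refine IsHomogeneous.add ?_ h5
    rcases Nat.eq_zero_or_pos n with h0 | h0
    · rw [h3 h0, mul_zero]; exact isHomogeneous_zero _ _ _
    · have := (isHomogeneous_X Ω (0 : Fin 3)).mul h2
      rwa [show 1 + (n - 1) = n by omega] at this
  · rw [e1, liftT_add, liftT_X, liftT_C_mul, liftT_succ n hd, liftT_C_mul]
    conv_lhs => rw [h4]
    rw [linT, map_neg, map_neg, map_pow]
    ring

theorem decT_add {s : Ω} {n : ℕ} {f g : MvPolynomial (Fin 3) Ω} (hf : DecT s n f)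
    (hg : DecT s n g) : DecT s n (f + g) := by
  obtain ⟨h1, f', h2, h3, h4⟩ := hf
  obtain ⟨k1, g', k2, k3, k4⟩ := hg
  refine ⟨?_, f' + g', h2.add k2, fun h => by rw [h3 h, k3 h, add_zero], ?_⟩
  · rw [map_add]
    exact (Polynomial.natDegree_add_le _ _).trans (max_le h1 k1)
  · rw [map_add, liftT_add]
    conv_lhs => rw [h4, k4]
    ring

theorem decT_C {s c : Ω} : DecT s 0 (C c) := by
  refine ⟨by rw [lineT_C]; simp, 0, isHomogeneous_zero _ _ _, fun _ => rfl, ?_⟩
  rw [lineT_C, mul_zero, zero_add, liftT]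
  simp

theorem decT_zero {s : Ω} (n : ℕ) : DecT s n 0 := by
  refine ⟨by simp, 0, isHomogeneous_zero _ _ _, fun _ => rfl, ?_⟩
  simp [liftT]

theorem decT_monomial {s : Ω} (c : Ω) (n : ℕ) : ∀ m : Fin 3 →₀ ℕ, m.degree = n →
    DecT s n (monomial m c) := by
  induction n with
  | zero =>
    intro m hm
    have : m = 0 := by
      rwa [Finsupp.degree_eq_zero_iff] at hm
    rw [this]
    exact decT_C
  | succ n ih =>
    intro m hm
    obtain ⟨i, hi⟩ : ∃ i, 1 ≤ m i := by
      by_contra hcon
      push Not at hcon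
      have : m = 0 := by
        ext i
        have := hcon i
        simp only [Finsupp.coe_zero, Pi.zero_apply]
        omega
      rw [this] at hm
      simp at hm
    set m' := m - Finsupp.single i 1 with hm'
    have hmm : m = Finsupp.single i 1 + m' := by
      rw [hm', add_tsub_cancel_of_le]
      rwa [Finsupp.single_le_iff]
    have hdeg : m'.degree = n := by
      have := congrArg Finsupp.degree hmm
      rw [map_add, Finsupp.degree_single, hm] at this
      omega
    have h1 := ih m' hdeg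
    have h2 : monomial m c = X i * monomial m' c := by
      rw [X, monomial_mul, one_mul, ← hmm]
    rw [h2]
    fin_cases i
    · exact decT_X0 h1
    · exact decT_X1 h1
    · exact decT_X2 h1

theorem decT_hom {s : Ω} {n : ℕ} {f : MvPolynomial (Fin 3) Ω} (hf : f.IsHomogeneous n) :
    DecT s n f := by
  have h1 : ∀ S : Finset (Fin 3 →₀ ℕ), S ⊆ f.support →
      DecT s n (∑ m ∈ S, monomial m (coeff m f)) := by
    intro S
    induction S using Finset.induction_on with
    | empty => intro _; rw [Finset.sum_empty]; exact decT_zero n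
    | insert m S hm ih =>
      intro hS
      rw [Finset.sum_insert hm]
      refine decT_add (decT_monomial _ n m ?_) (ih fun x hx => hS (Finset.mem_insert_of_mem hx))
      by_contra hne
      exact (mem_support_iff.1 (hS (Finset.mem_insert_self m S))) (hf.coeff_eq_zero hne)
  have h2 := h1 f.support (Finset.Subset.refl _)
  rwa [support_sum_monomial_coeff] at h2

theorem lineT_eval (s x : Ω) (f : MvPolynomial (Fin 3) Ω) :
    (lineT s f).eval x = eval ![-(s * x + s ^ 2), x, 1] f := by
  have h1 : ((Polynomial.evalRingHom x).comp (lineT s).toRingHom : MvPolynomial (Fin 3) Ω →+* Ω) =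
      eval ![-(s * x + s ^ 2), x, 1] := by
    apply MvPolynomial.ringHom_ext
    · intro r
      simp only [AlgHom.toRingHom_eq_coe, RingHom.coe_comp, RingHom.coe_coe, Function.comp_apply,
        lineT_C, Polynomial.coe_evalRingHom, Polynomial.eval_C, eval_C]
    · intro i
      simp only [AlgHom.toRingHom_eq_coe, RingHom.coe_comp, RingHom.coe_coe, Function.comp_apply,
        Polynomial.coe_evalRingHom, eval_X]
      fin_cases i
      · simp [lineT]
      · simp [lineT]
      · simp [lineT]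
  exact congrArg (fun φ : MvPolynomial (Fin 3) Ω →+* Ω => φ f) h1

/-- the leading coefficient on the line -/
theorem lineT_coeff (s : Ω) {n : ℕ} {f : MvPolynomial (Fin 3) Ω} (hf : f.IsHomogeneous n) :
    (lineT s f).coeff n = eval ![-s, 1, 0] f := by
  obtain ⟨h1, f', h2, h3, h4⟩ := decT_hom (s := s) hf
  conv_rhs => rw [h4]
  rw [map_add, map_mul]
  have h5 : eval ![-s, 1, 0] (linT s) = 0 := by
    simp [linT]
  rw [h5, zero_mul, zero_add, liftT, map_sum, Finset.sum_range_succ]
  rw [Finset.sum_eq_zero]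
  · simp
  · intro j hj
    rw [Finset.mem_range] at hj
    simp [show n - j ≠ 0 by omega]

end line

section sep

variable {Ω : Type} [Field Ω] [IsAlgClosed Ω]

omit [IsAlgClosed Ω] in
theorem line_surj_aux {g h : MvPolynomial (Fin 3) Ω} {a b : ℕ} (hg : g.IsHomogeneous a)
    (hh : h.IsHomogeneous b) (ha : 1 ≤ a) (hb : 1 ≤ b) (s : Ω)
    (hcop : IsCoprime (lineT s g) (lineT s h)) (hlead : (lineT s g).coeff a ≠ 0)
    {n : ℕ} (hn : a + b ≤ n + 1) {f : MvPolynomial (Fin 3) Ω} (hf : f.IsHomogeneous n) :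
    ∃ f' u v : MvPolynomial (Fin 3) Ω, f'.IsHomogeneous (n - 1) ∧
      f = linT s * f' + g * u + h * v := by
  obtain ⟨hfd, f', hf', -, hfe⟩ := decT_hom (s := s) hf
  have hGd := (decT_hom (s := s) hg).1
  have hHd := (decT_hom (s := s) hh).1
  have hG0 : lineT s g ≠ 0 := by
    intro h0; rw [h0, Polynomial.coeff_zero] at hlead; exact hlead rfl
  have hGa : (lineT s g).natDegree = a :=
    le_antisymm hGd (Polynomial.le_natDegree_of_ne_zero hlead)
  obtain ⟨u, v, huv, hu, hv⟩ := bin_aux hcop hGa hG0 hHd hfd hb hn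
  set k := g * liftT (n - a) u + h * liftT (n - b) v with hk
  have hkh : k.IsHomogeneous n := by
    have h1 := hg.mul (liftT_hom (n - a) u)
    have h2 := hh.mul (liftT_hom (n - b) v)
    rw [show a + (n - a) = n by omega] at h1
    rw [show b + (n - b) = n by omega] at h2
    exact h1.add h2
  have hkT : lineT s k = lineT s f := by
    rw [hk, map_add, map_mul, map_mul, lineT_liftT s hu, lineT_liftT s hv, huv]
  obtain ⟨-, k', hk', -, hke⟩ := decT_hom (s := s) hkh
  refine ⟨f' - k', liftT (n - a) u, liftT (n - b) v, hf'.sub hk', ?_⟩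
  rw [hkT] at hke
  calc f = linT s * f' + liftT n (lineT s f) := hfe
    _ = linT s * f' + (k - linT s * k') := by rw [hke]; ring
    _ = _ := by rw [hk]; ring

theorem line_surj {g h : MvPolynomial (Fin 3) Ω} {a b : ℕ} (hg : g.IsHomogeneous a)
    (hh : h.IsHomogeneous b) (ha : 1 ≤ a) (hb : 1 ≤ b) (s : Ω)
    (hs : ∀ z : Fin 3 → Ω, z ≠ 0 → eval z g = 0 → eval z h = 0 → eval z (linT s) ≠ 0)
    {n : ℕ} (hn : a + b ≤ n + 1) {f : MvPolynomial (Fin 3) Ω} (hf : f.IsHomogeneous n) :
    ∃ f' u v : MvPolynomial (Fin 3) Ω, f'.IsHomogeneous (n - 1) ∧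
      f = linT s * f' + g * u + h * v := by
  have hcop : IsCoprime (lineT s g) (lineT s h) := by
    rw [Polynomial.isCoprime_iff_aeval_ne_zero_of_isAlgClosed Ω Ω]
    intro x
    by_contra hcon
    push Not at hcon
    obtain ⟨h1, h2⟩ := hcon
    rw [Polynomial.coe_aeval_eq_eval, lineT_eval] at h1 h2
    refine hs _ ?_ h1 h2 ?_
    · intro h0
      have := congrFun h0 2
      simp at this
    · rw [← lineT_eval, lineT_linT, Polynomial.eval_zero]
  have hlead : (lineT s g).coeff a ≠ 0 ∨ (lineT s h).coeff b ≠ 0 := by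
    by_contra hcon
    push Not at hcon
    obtain ⟨h1, h2⟩ := hcon
    rw [lineT_coeff s hg] at h1
    rw [lineT_coeff s hh] at h2
    refine hs _ ?_ h1 h2 ?_
    · intro h0
      have := congrFun h0 1
      simp at this
    · simp [linT]
  rcases hlead with h1 | h1
  · exact line_surj_aux hg hh ha hb s hcop h1 hn hf
  · obtain ⟨f', u, v, hf', he⟩ := line_surj_aux hh hg hb ha s hcop.symm h1 (by omega) hf
    exact ⟨f', v, u, hf', by rw [he]; ring⟩

/-- **Separation** of common zeros over an algebraically closed field. -/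
theorem sep_alg {g h : MvPolynomial (Fin 3) Ω} {a b : ℕ} (hg : g.IsHomogeneous a)
    (hh : h.IsHomogeneous b) (ha : 1 ≤ a) (hb : 1 ≤ b) (s : Ω)
    (hs : ∀ z : Fin 3 → Ω, z ≠ 0 → eval z g = 0 → eval z h = 0 → eval z (linT s) ≠ 0)
    {n : ℕ} (z : Fin n → Fin 3 → Ω) (hz : ∀ i, z i ≠ 0)
    (hzz : ∀ a i, i ≠ a → ∃ k l, z i k * z a l - z i l * z a k ≠ 0)
    (hgz : ∀ i, eval (z i) g = 0) (hhz : ∀ i, eval (z i) h = 0) {t : ℕ} (ht : a + b ≤ t + 2) :
    HV z t = ⊤ := by
  set D : (Fin n → Ω) →ₗ[Ω] (Fin n → Ω) :=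
    LinearMap.pi fun i => (eval (z i) (linT s)) • LinearMap.proj i with hD
  have hstep : ∀ r, t ≤ r → HV z (r + 1) ≤ (HV z r).map D := by
    rintro r hr y ⟨f, hf, rfl⟩
    obtain ⟨f', u, v, hf', he⟩ := line_surj hg hh ha hb s hs (n := r + 1) (by omega)
      ((mem_homogeneousSubmodule _ _).1 hf)
    rw [show r + 1 - 1 = r by omega] at hf'
    refine ⟨_, mem_HV hf', ?_⟩
    funext i
    rw [ev_apply, he, map_add, map_add, map_mul, map_mul, map_mul, hgz i, hhz i, zero_mul, zero_mul,
      add_zero, add_zero]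
    simp [hD]
  have hrank : ∀ k, HF z (t + k) ≤ HF z t := by
    intro k
    induction k with
    | zero => exact le_rfl
    | succ k ih =>
      refine le_trans ?_ ih
      have h1 := hstep (t + k) (by omega)
      exact (Submodule.finrank_mono h1).trans (Submodule.finrank_map_le D _)
  have hbig : HV z (t + n) = ⊤ := by
    rw [eq_top_iff]
    intro y _
    rw [pi_eq_sum_univ' y]
    refine Submodule.sum_mem _ fun i _ => Submodule.smul_mem _ _ ?_
    obtain ⟨G, hG, hGa, hGi⟩ := exists_sep (δ := t + n) (by omega) z hz hzz i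
    have h2 : (Pi.single i (1 : Ω) : Fin n → Ω) =
        (eval (z i) G)⁻¹ • fun j => eval (z j) G := by
      funext j
      simp only [Pi.smul_apply, smul_eq_mul]
      by_cases hia : j = i
      · rw [hia, Pi.single_eq_same, inv_mul_cancel₀ hGa]
      · rw [Pi.single_eq_of_ne hia, hGi j hia, mul_zero]
    rw [h2]
    exact Submodule.smul_mem _ _ (mem_HV hG)
  have h3 : Module.finrank Ω (Fin n → Ω) ≤ Module.finrank Ω (HV z t) := by
    have := hrank n
    rw [HF, HF, hbig, finrank_top] at this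
    exact this
  exact Submodule.eq_top_of_finrank_eq (le_antisymm (Submodule.finrank_le _) h3)

end sep

section descend

/-- finitely many points avoid some line of the family -/
theorem exists_line {Ω : Type} [Field Ω] [Infinite Ω] {n : ℕ} (z : Fin n → Fin 3 → Ω)
    (hz : ∀ i, z i ≠ 0) : ∃ s : Ω, ∀ i, eval (z i) (linT s) ≠ 0 := by
  set p : Polynomial Ω := ∏ i, (Polynomial.C (z i 0) + Polynomial.C (z i 1) * Polynomial.X +
    Polynomial.C (z i 2) * Polynomial.X ^ 2) with hp
  have hp0 : p ≠ 0 := by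
    rw [hp, Finset.prod_ne_zero_iff]
    intro i _ h0
    apply hz i
    have c0 := congrArg (fun r : Polynomial Ω => r.coeff 0) h0
    have c1 := congrArg (fun r : Polynomial Ω => r.coeff 1) h0
    have c2 := congrArg (fun r : Polynomial Ω => r.coeff 2) h0
    simp [Polynomial.coeff_X, Polynomial.coeff_X_pow, Polynomial.coeff_C] at c0 c1 c2
    funext j
    fin_cases j
    · exact c0
    · exact c1
    · exact c2
  obtain ⟨s, hs⟩ : ∃ s, p.eval s ≠ 0 := by
    by_contra hcon
    push Not at hcon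
    exact hp0 (Polynomial.funext fun x => by rw [hcon x, Polynomial.eval_zero])
  refine ⟨s, fun i => ?_⟩
  rw [hp, Polynomial.eval_prod, Finset.prod_ne_zero_iff] at hs
  have h1 := hs i (Finset.mem_univ i)
  have h2 : eval (z i) (linT s) = (Polynomial.C (z i 0) + Polynomial.C (z i 1) * Polynomial.X +
    Polynomial.C (z i 2) * Polynomial.X ^ 2).eval s := by
    simp [linT]; ring
  rwa [h2]

variable {K : Type} [Field K]

/-- the common zeros of two forms avoid some line -/
theorem exists_avoid {Ω : Type} [Field Ω] [IsAlgClosed Ω] [Algebra K Ω]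
    {g h : MvPolynomial (Fin 3) K} {a b : ℕ}
    (hg : g.IsHomogeneous a) (hh : h.IsHomogeneous b) (hgp : Prime g) (hgh : ¬ g ∣ h) :
    ∃ s : Ω, ∀ z : Fin 3 → Ω, z ≠ 0 → aeval z g = 0 → aeval z h = 0 →
      eval z (linT s) ≠ 0 := by
  have hinf : Infinite Ω := IsAlgClosed.instInfinite
  let Q : ℕ → Prop := fun n => ∃ z : Fin n → Fin 3 → Ω, (∀ i, z i ≠ 0) ∧
    (∀ a i, i ≠ a → ∃ k l, z i k * z a l - z i l * z a k ≠ 0) ∧
    (∀ i, aeval (z i) g = 0) ∧ ∀ i, aeval (z i) h = 0
  have hQ : ∀ n, Q n → n ≤ a * b := by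
    rintro n ⟨z, h1, h2, h3, h4⟩
    exact bezout_points hg hh hgp hgh z h1 h2 h3 h4
  have hQ0 : Q 0 := ⟨fun i => i.elim0, fun i => i.elim0, fun i => i.elim0, fun i => i.elim0,
    fun i => i.elim0⟩
  obtain ⟨m, hm, hmg⟩ : ∃ m, Q m ∧ ¬ Q (m + 1) := by
    refine ⟨Nat.findGreatest Q (a * b), Nat.findGreatest_spec (P := Q) (Nat.zero_le (a * b)) hQ0,
      fun h => ?_⟩
    exact absurd h (Nat.findGreatest_is_greatest (P := Q) (Nat.lt_succ_self _) (hQ _ h))
  obtain ⟨z, h1, h2, h3, h4⟩ := hm
  obtain ⟨s, hs⟩ := exists_line z h1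
  refine ⟨s, fun y hy hyg hyh hy0 => ?_⟩
  have hnp : ∀ i, ∃ k l, z i k * y l - z i l * y k ≠ 0 := by
    intro i
    by_contra hcon
    push Not at hcon
    obtain ⟨k, hk⟩ := Function.ne_iff.1 hy
    have hk' : y k ≠ 0 := hk
    have h5 : ∀ l, z i l = z i k / y k * y l := by
      intro l
      have := hcon k l
      field_simp
      linear_combination -this
    apply hs i
    have h6 : eval (z i) (linT s) = z i k / y k * eval y (linT s) := by
      simp only [linT, map_add, map_mul, eval_X, eval_C]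
      rw [h5 0, h5 1, h5 2]
      ring
    rw [h6, hy0, mul_zero]
  have hQ1 : Q (m + 1) := by
    refine ⟨Fin.snoc z y, ?_, ?_, ?_, ?_⟩
    · intro i
      refine Fin.lastCases ?_ (fun i => ?_) i
      · rw [Fin.snoc_last]; exact hy
      · rw [Fin.snoc_castSucc]; exact h1 i
    · intro a i
      refine Fin.lastCases ?_ (fun a => ?_) a
      · refine Fin.lastCases ?_ (fun i => ?_) i
        · intro h; exact absurd rfl h
        · intro _
          rw [Fin.snoc_last, Fin.snoc_castSucc]
          exact hnp i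
      · refine Fin.lastCases ?_ (fun i => ?_) i
        · intro _
          rw [Fin.snoc_last, Fin.snoc_castSucc]
          obtain ⟨k, l, hkl⟩ := hnp a
          exact ⟨l, k, fun h0 => hkl (by linear_combination h0)⟩
        · intro hne
          rw [Fin.snoc_castSucc, Fin.snoc_castSucc]
          exact h2 a i fun h => hne (congrArg _ h)
    · intro i
      refine Fin.lastCases ?_ (fun i => ?_) i
      · rw [Fin.snoc_last]; exact hyg
      · rw [Fin.snoc_castSucc]; exact h3 i
    · intro i
      refine Fin.lastCases ?_ (fun i => ?_) i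
      · rw [Fin.snoc_last]; exact hyh
      · rw [Fin.snoc_castSucc]; exact h4 i
  exact hmg hQ1

/-- the space of values descends -/
theorem HV_descend {N Ω : Type} [Field N] [Field Ω] [Algebra N Ω] {κ ι : Type} [Finite κ]
    (z : κ → ι → N) (t : ℕ)
    (h : HV (fun i j => algebraMap N Ω (z i j)) t = ⊤) : HV z t = ⊤ := by
  have := Fintype.ofFinite κ
  by_contra hne
  obtain ⟨φ, hφ, hφ0⟩ := Submodule.exists_le_ker_of_lt_top (HV z t) (lt_top_iff_ne_top.2 hne)
  apply hφ
  set c : κ → N := fun i => φ (Pi.single i 1) with hc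
  have hφc : ∀ y, φ y = ∑ i, y i * c i := by
    intro y
    conv_lhs => rw [pi_eq_sum_univ' y]
    rw [map_sum]
    refine Finset.sum_congr rfl fun i _ => ?_
    rw [map_smul, smul_eq_mul]
  have hmon : ∀ m : ι →₀ ℕ, m.degree = t →
      ∑ i, (m.prod fun j e => z i j ^ e) * c i = 0 := by
    intro m hm
    have h1 : (fun i => eval (z i) (monomial m (1 : N))) ∈ HV z t :=
      mem_HV (isHomogeneous_monomial _ hm)
    have h2 := hφ0 h1
    rw [LinearMap.mem_ker, hφc] at h2
    rw [← h2]
    refine Finset.sum_congr rfl fun i _ => ?_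
    rw [eval_monomial, one_mul]
  have hΩ : ∀ G : MvPolynomial ι Ω, G.IsHomogeneous t →
      ∑ i, eval (fun j => algebraMap N Ω (z i j)) G * algebraMap N Ω (c i) = 0 := by
    intro G hG
    have h1 : ∀ i, eval (fun j => algebraMap N Ω (z i j)) G * algebraMap N Ω (c i) =
        ∑ m ∈ G.support, coeff m G * algebraMap N Ω ((m.prod fun j e => z i j ^ e) * c i) := by
      intro i
      rw [eval_eq, Finset.sum_mul]
      refine Finset.sum_congr rfl fun m _ => ?_
      rw [map_mul, Finsupp.prod, map_prod]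
      simp only [map_pow]
      ring
    rw [Finset.sum_congr rfl fun i _ => h1 i, Finset.sum_comm]
    refine Finset.sum_eq_zero fun m hm => ?_
    rw [← Finset.mul_sum, ← map_sum, hmon m, map_zero, mul_zero]
    by_contra hne
    exact (mem_support_iff.1 hm) (hG.coeff_eq_zero hne)
  have hc0 : ∀ i, c i = 0 := by
    intro i
    have h1 : (Pi.single i (1 : Ω) : κ → Ω) ∈ HV (fun i j => algebraMap N Ω (z i j)) t := by
      rw [h]; trivial
    obtain ⟨G, hG, hGe⟩ := h1
    have h2 := hΩ G ((mem_homogeneousSubmodule _ _).1 hG)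
    have h3 : ∀ j, eval (fun k => algebraMap N Ω (z j k)) G = (Pi.single i (1 : Ω) : κ → Ω) j := by
      intro j
      rw [← hGe, ev_apply]
    rw [Finset.sum_congr rfl fun j _ => by rw [h3 j], Finset.sum_eq_single i] at h2
    · rw [Pi.single_eq_same, one_mul] at h2
      exact (map_eq_zero (algebraMap N Ω)).1 h2
    · intro j _ hj
      rw [Pi.single_eq_of_ne hj, zero_mul]
    · intro hi; exact absurd (Finset.mem_univ i) hi
  refine LinearMap.ext fun y => ?_
  rw [hφc]
  simp only [hc0, mul_zero, Finset.sum_const_zero, LinearMap.zero_apply]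

/-- **Separation** of common zeros of two forms over a subfield. -/
theorem sep_plane {N : Type} [Field N] [Algebra K N] {g h : MvPolynomial (Fin 3) K} {a b : ℕ}
    (hg : g.IsHomogeneous a) (hh : h.IsHomogeneous b) (ha : 1 ≤ a) (hb : 1 ≤ b)
    (hgp : Prime g) (hgh : ¬ g ∣ h) {n : ℕ} (z : Fin n → Fin 3 → N)
    (hz : ∀ a, z a ≠ 0) (hzz : ∀ a i, i ≠ a → ∃ k l, z i k * z a l - z i l * z a k ≠ 0)
    (hgz : ∀ i, aeval (z i) g = 0) (hhz : ∀ i, aeval (z i) h = 0) {t : ℕ} (ht : a + b ≤ t + 2) :
    HV z t = ⊤ := by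
  let Ω := AlgebraicClosure N
  obtain ⟨s, hs⟩ := exists_avoid (Ω := Ω) hg hh hgp hgh
  apply HV_descend (Ω := Ω)
  have hev : ∀ (f : MvPolynomial (Fin 3) K) (y : Fin 3 → Ω),
      eval y (map (algebraMap K Ω) f) = aeval y f := by
    intro f y
    rw [eval_map, aeval_def]
  have hNev : ∀ (f : MvPolynomial (Fin 3) K) (y : Fin 3 → N),
      aeval (fun j => algebraMap N Ω (y j)) f = algebraMap N Ω (aeval y f) := by
    intro f y
    exact (aeval_algebraMap_apply (B := Ω) y f)
  refine sep_alg (g := map (algebraMap K Ω) g) (h := map (algebraMap K Ω) h)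
    (hg.map _) (hh.map _) ha hb s ?_ (fun i j => algebraMap N Ω (z i j)) ?_ ?_ ?_ ?_ ht
  · intro y hy h1 h2
    rw [hev] at h1 h2
    exact hs y hy h1 h2
  · intro i h0
    apply hz i
    funext j
    have := congrFun h0 j
    exact (map_eq_zero (algebraMap N Ω)).1 this
  · intro a i hia
    obtain ⟨k, l, hkl⟩ := hzz a i hia
    refine ⟨k, l, fun h0 => hkl ?_⟩
    rw [← map_mul, ← map_mul, ← map_sub] at h0
    exact (map_eq_zero (algebraMap N Ω)).1 h0
  · intro i
    rw [hev, hNev, hgz, map_zero]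
  · intro i
    rw [hev, hNev, hhz, map_zero]

end descend

end Pool.DynLehmer
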