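import Mathlib
import Pool.Agent.Lib.MP_2194ec_nt.GenMain

set_option autoImplicit false

/-!
# Morphisms at an archimedean place
-/

namespace Pool.DynLehmer
open MvPolynomial NumberField
open scoped Classical

section bounds

variable {K : Type} [Field K] [NumberField K] {ι : Type}

/-- polynomials are bounded and Lipschitz on polydiscs, uniformly over all archimedean places -/
theorem poly_bound (P : MvPolynomial ι K) : ∃ C : ℝ, 0 ≤ C ∧ ∀ (L : Type) [Field L]
    [NumberField L] [Algebra K L] (w : InfinitePlace L) (y y' : ι → L) (δ : ℝ), 0 ≤ δ →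
    (∀ k, w (y k) ≤ 2) → (∀ k, w (y' k) ≤ 2) → (∀ k, w (y k - y' k) ≤ δ) →
    w (aeval y P) ≤ C ∧ w (aeval y P - aeval y' P) ≤ C * δ := by
  induction P using MvPolynomial.induction_on with
  | C a =>
    refine ⟨∑ v : InfinitePlace K, v a, Finset.sum_nonneg fun v _ => apply_nonneg v a, ?_⟩
    intro L _ _ _ w y y' δ hδ _ _ _
    have h1 : w (algebraMap K L a) ≤ ∑ v : InfinitePlace K, v a := by
      have h2 : w (algebraMap K L a) = (w.comap (algebraMap K L)) a := rfl
      rw [h2]
      exact Finset.single_le_sum (f := fun v : InfinitePlace K => v a)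
        (fun v _ => apply_nonneg v a) (Finset.mem_univ _)
    constructor
    · simpa using h1
    · simp only [algHom_C, sub_self, map_zero]
      exact mul_nonneg (Finset.sum_nonneg fun v _ => apply_nonneg v a) hδ
  | add P Q hP hQ =>
    obtain ⟨C₁, hC₁, h₁⟩ := hP
    obtain ⟨C₂, hC₂, h₂⟩ := hQ
    refine ⟨C₁ + C₂, by positivity, ?_⟩
    intro L _ _ _ w y y' δ hδ hy hy' hyy
    obtain ⟨a₁, b₁⟩ := h₁ L w y y' δ hδ hy hy' hyy
    obtain ⟨a₂, b₂⟩ := h₂ L w y y' δ hδ hy hy' hyy
    constructor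
    · rw [map_add]
      exact (w.1.add_le _ _).trans (add_le_add a₁ a₂)
    · have h3 : aeval y (P + Q) - aeval y' (P + Q) =
          (aeval y P - aeval y' P) + (aeval y Q - aeval y' Q) := by
        rw [map_add, map_add]; ring
      rw [h3, add_mul]
      exact (w.1.add_le _ _).trans (add_le_add b₁ b₂)
  | mul_X P i hP =>
    obtain ⟨C₁, hC₁, h₁⟩ := hP
    refine ⟨3 * C₁, by positivity, ?_⟩
    intro L _ _ _ w y y' δ hδ hy hy' hyy
    obtain ⟨a₁, b₁⟩ := h₁ L w y y' δ hδ hy hy' hyy
    obtain ⟨a₂, _⟩ := h₁ L w y' y δ hδ hy' hy (fun k => by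
      have h3 : w (y' k - y k) = w (y k - y' k) := w.1.map_sub _ _
      rw [h3]; exact hyy k)
    constructor
    · rw [map_mul, aeval_X, map_mul]
      calc w (aeval y P) * w (y i) ≤ C₁ * 2 :=
            mul_le_mul a₁ (hy i) (apply_nonneg w _) hC₁
        _ ≤ 3 * C₁ := by linarith
    · have h3 : aeval y (P * X i) - aeval y' (P * X i) =
          (aeval y P - aeval y' P) * y i + aeval y' P * (y i - y' i) := by
        rw [map_mul, map_mul, aeval_X, aeval_X]; ring
      rw [h3]
      refine (w.1.add_le _ _).trans ?_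
      have h4 : w ((aeval y P - aeval y' P) * y i) ≤ C₁ * δ * 2 := by
        rw [map_mul]
        exact mul_le_mul b₁ (hy i) (apply_nonneg w _) (by positivity)
      have h5 : w (aeval y' P * (y i - y' i)) ≤ C₁ * δ := by
        rw [map_mul]
        exact mul_le_mul a₂ (hyy i) (apply_nonneg w _) hC₁
      have h6 : 3 * C₁ * δ = C₁ * δ * 2 + C₁ * δ := by ring
      rw [h6]
      exact add_le_add h4 h5

omit [NumberField K] in
theorem aeval_smul_hom {P : MvPolynomial ι K} {d : ℕ} (hP : P.IsHomogeneous d)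
    {L : Type} [Field L] [Algebra K L] (c : L) (z : ι → L) :
    aeval (c • z) P = c ^ d * aeval z P := by
  have h0 : ∀ (y : ι → L), aeval y P = eval y (map (algebraMap K L) P) := by
    intro y
    rw [eval_map]; rfl
  rw [h0, h0, eval_smul_hom (hP.map _)]

variable [Fintype ι]

/-- sup norm -/
noncomputable def nv {L : Type} [Field L] (w : InfinitePlace L) (y : ι → L) : ℝ :=
  ⨆ k, w (y k)

omit [NumberField K] in
theorem nv_le {L : Type} [Field L] (w : InfinitePlace L) (y : ι → L) (k : ι) :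
    w (y k) ≤ nv w y := Finite.le_ciSup (fun k => w (y k)) k

omit [NumberField K] in
theorem nv_pos {L : Type} [Field L] (w : InfinitePlace L) {y : ι → L} (hy : y ≠ 0) :
    0 < nv w y := iSup_pos_of_ne w hy

omit [NumberField K] in
/-- normalization by the largest coordinate -/
theorem exists_norm {L : Type} [Field L] (w : InfinitePlace L) {y : ι → L} (hy : y ≠ 0) :
    ∃ k0, y k0 ≠ 0 ∧ w (y k0) = nv w y ∧ (∀ k, w (y k / y k0) ≤ 1) := by
  obtain ⟨j, hj⟩ := Function.ne_iff.1 hy
  have : Nonempty ι := ⟨j⟩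
  obtain ⟨k0, hk0⟩ := Finite.exists_max (fun k => w (y k))
  have h1 : w (y k0) = nv w y := le_antisymm (nv_le w y k0) (ciSup_le hk0)
  have h2 : 0 < w (y k0) := by rw [h1]; exact nv_pos w hy
  refine ⟨k0, ?_, h1, fun k => ?_⟩
  · intro h0; rw [h0, map_zero] at h2; exact lt_irrefl _ h2
  · rw [map_div₀]
    exact div_le_one_of_le₀ (hk0 k) h2.le

theorem up_bound {P : MvPolynomial ι K} {d : ℕ} (hP : P.IsHomogeneous d) :
    ∃ C : ℝ, 0 ≤ C ∧ ∀ (L : Type) [Field L] [NumberField L] [Algebra K L] (w : InfinitePlace L)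
      (y : ι → L), y ≠ 0 → w (aeval y P) ≤ C * nv w y ^ d := by
  obtain ⟨C, hC, h⟩ := poly_bound P
  refine ⟨C, hC, ?_⟩
  intro L _ _ _ w y hy
  obtain ⟨k0, hk0, hk1, hk2⟩ := exists_norm w hy
  set y1 : ι → L := fun k => y k / y k0 with hy1
  have e1 : y = y k0 • y1 := by
    funext k
    simp only [hy1, Pi.smul_apply, smul_eq_mul]
    rw [mul_div_cancel₀ _ hk0]
  obtain ⟨h1, _⟩ := h L w y1 y1 0 le_rfl (fun k => (hk2 k).trans (by norm_num))
    (fun k => (hk2 k).trans (by norm_num)) (fun k => by simp)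
  rw [e1, aeval_smul_hom hP, map_mul, map_pow, ← e1, hk1, mul_comm]
  exact mul_le_mul_of_nonneg_right h1 (pow_nonneg (nv_pos w hy).le _)

variable (F : ι → MvPolynomial ι K)

/-- two-sided growth -/
theorem growth {d : ℕ} (hF : ∀ i, (F i).IsHomogeneous d)
    (hz : ∀ z : ι → AlgebraicClosure K, (∀ i, aeval z (F i) = 0) → z = 0) :
    ∃ C : ℝ, 1 ≤ C ∧ ∀ (L : Type) [Field L] [NumberField L] [Algebra K L] (w : InfinitePlace L)
      (y : ι → L), y ≠ 0 → nv w (gAct F L y) ≤ C * nv w y ^ d ∧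
        nv w y ^ d ≤ C * nv w (gAct F L y) := by
  choose C₁ hC₁ h₁ using fun i => up_bound (hF i)
  obtain ⟨M, G, hG, hGF⟩ := exists_cert F d hF hz
  choose C₂ hC₂ h₂ using fun a => up_bound (hG a)
  set c₁ := ∑ i, C₁ i with hc₁
  set c₂ := ∑ a, C₂ a with hc₂
  have hc₁0 : 0 ≤ c₁ := Finset.sum_nonneg fun i _ => hC₁ i
  have hc₂0 : 0 ≤ c₂ := Finset.sum_nonneg fun a _ => hC₂ a
  refine ⟨1 + c₁ + c₂ * Fintype.card ι, ?_, ?_⟩
  · have : 0 ≤ c₂ * Fintype.card ι := by positivity
    linarith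
  intro L _ _ _ w y hy
  obtain ⟨k0, hk0, hk1, hk2⟩ := exists_norm w hy
  have : Nonempty ι := ⟨k0⟩
  have hnv := nv_pos w hy
  have hne := morph_ne_zero F d hF hz y hy
  have hnvF : 0 < nv w (gAct F L y) := nv_pos w hne
  constructor
  · apply ciSup_le
    intro i
    have h3 := h₁ i L w y hy
    have h4 : C₁ i ≤ c₁ := Finset.single_le_sum (fun i _ => hC₁ i) (Finset.mem_univ i)
    have h5 : 0 ≤ c₂ * Fintype.card ι := by positivity
    calc w (gAct F L y i) ≤ C₁ i * nv w y ^ d := h3
      _ ≤ (1 + c₁ + c₂ * Fintype.card ι) * nv w y ^ d := by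
          apply mul_le_mul_of_nonneg_right _ (by positivity)
          linarith
  · have h3 := congrArg (aeval y) (hGF k0)
    rw [map_sum] at h3
    simp_rw [map_mul] at h3
    rw [map_pow, aeval_X] at h3
    have h4 : w (y k0) ^ (M + d) ≤ ∑ j, w (aeval y (G (k0, j)) * aeval y (F j)) := by
      rw [← map_pow, ← h3]
      exact w.1.sum_le _ _
    have h5 : ∀ j, w (aeval y (G (k0, j)) * aeval y (F j)) ≤
        c₂ * nv w y ^ M * nv w (gAct F L y) := by
      intro j
      rw [map_mul]
      have h6 : C₂ (k0, j) ≤ c₂ := Finset.single_le_sum (fun a _ => hC₂ a) (Finset.mem_univ _)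
      refine mul_le_mul ((h₂ (k0, j) L w y hy).trans ?_) (nv_le w (gAct F L y) j)
        (apply_nonneg w _) (by positivity)
      exact mul_le_mul_of_nonneg_right h6 (by positivity)
    have h6 : nv w y ^ (M + d) ≤ Fintype.card ι * (c₂ * nv w y ^ M * nv w (gAct F L y)) := by
      rw [← hk1]
      refine h4.trans ((Finset.sum_le_sum fun j _ => h5 j).trans ?_)
      rw [Finset.sum_const, Finset.card_univ, nsmul_eq_mul, hk1]
    have h7 : nv w y ^ M * nv w y ^ d ≤
        nv w y ^ M * ((c₂ * Fintype.card ι) * nv w (gAct F L y)) := by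
      rw [← pow_add]
      refine h6.trans (le_of_eq ?_)
      ring
    have h8 := le_of_mul_le_mul_left h7 (by positivity)
    refine h8.trans ?_
    apply mul_le_mul_of_nonneg_right _ hnvF.le
    linarith

/-- growth of the iterates -/
theorem growth_iter {d : ℕ} (hd : 2 ≤ d) (hF : ∀ i, (F i).IsHomogeneous d)
    (hz : ∀ z : ι → AlgebraicClosure K, (∀ i, aeval z (F i) = 0) → z = 0) :
    ∃ C : ℝ, 0 ≤ C ∧ ∀ (L : Type) [Field L] [NumberField L] [Algebra K L] (w : InfinitePlace L)
      (y : ι → L), y ≠ 0 → ∀ m : ℕ,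
        |Real.log (nv w ((gAct F L)^[m] y)) - (d : ℝ) ^ m * Real.log (nv w y)| ≤
          C * (d : ℝ) ^ m := by
  obtain ⟨C₂, hC₂, h₂⟩ := growth F hF hz
  have hlogC : 0 ≤ Real.log C₂ := Real.log_nonneg hC₂
  have hd2 : (2 : ℝ) ≤ d := by exact_mod_cast hd
  refine ⟨Real.log C₂, hlogC, ?_⟩
  intro L _ _ _ w y hy m
  have hstep : ∀ y : ι → L, y ≠ 0 →
      |Real.log (nv w (gAct F L y)) - (d : ℝ) * Real.log (nv w y)| ≤ Real.log C₂ := by
    intro y hy
    obtain ⟨h3, h4⟩ := h₂ L w y hy
    have hnv := nv_pos w hy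
    have hne := morph_ne_zero F d hF hz y hy
    have hnvF : 0 < nv w (gAct F L y) := nv_pos w hne
    have h5 := Real.log_le_log hnvF h3
    have h6 := Real.log_le_log (by positivity) h4
    rw [Real.log_mul (by positivity) (by positivity), Real.log_pow] at h5
    rw [Real.log_mul (by positivity) (by positivity), Real.log_pow] at h6
    rw [abs_le]
    constructor <;> linarith
  have key : |Real.log (nv w ((gAct F L)^[m] y)) - (d : ℝ) ^ m * Real.log (nv w y)| ≤
      Real.log C₂ * ((d : ℝ) ^ m - 1) := by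
    induction m with
    | zero => simp
    | succ m ih =>
      rw [Function.iterate_succ_apply']
      have h3 := hstep _ (gAct_iter_ne F hF hz m y hy)
      set a := Real.log (nv w (gAct F L ((gAct F L)^[m] y)))
      set b := Real.log (nv w ((gAct F L)^[m] y))
      have h4 : a - (d : ℝ) ^ (m + 1) * Real.log (nv w y) =
          (a - d * b) + d * (b - (d : ℝ) ^ m * Real.log (nv w y)) := by
        rw [pow_succ]; ring
      rw [h4]
      refine (abs_add_le _ _).trans ?_
      rw [abs_mul, abs_of_nonneg (by linarith : (0 : ℝ) ≤ d)]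
      have h5 : (d : ℝ) * |b - (d : ℝ) ^ m * Real.log (nv w y)| ≤
          d * (Real.log C₂ * ((d : ℝ) ^ m - 1)) := by gcongr
      have h6 : Real.log C₂ * ((d : ℝ) ^ (m + 1) - 1) =
          Real.log C₂ + d * (Real.log C₂ * ((d : ℝ) ^ m - 1)) + Real.log C₂ * (d - 2) := by
        rw [pow_succ]; ring
      rw [h6]
      have h7 : 0 ≤ Real.log C₂ * ((d : ℝ) - 2) := mul_nonneg hlogC (by linarith)
      linarith
  refine key.trans ?_
  have : Real.log C₂ * ((d : ℝ) ^ m - 1) = Real.log C₂ * (d : ℝ) ^ m - Real.log C₂ := by ring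
  linarith

end bounds

end Pool.DynLehmer
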