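import Mathlib
import Pool.Agent.Lib.MP_2194ec_nt.PlB
import Pool.Agent.Lib.MP_2194ec_nt.RamH
import Pool.Agent.Lib.MP_2194ec_nt.SmallA

set_option autoImplicit false

/-!
# Conjugates of a point of the plane: a curve of small degree or separation in small degree
-/

namespace Pool.DynLehmer
open MvPolynomial
open scoped Classical LinearAlgebra.Projectivization

section rank

variable {K : Type} [Field K]

theorem rank_null {W : Type} [AddCommGroup W] [Module K W]
    (φ : MvPolynomial (Fin 3) K →ₗ[K] W) (t : ℕ) :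
    Module.finrank K ((homogeneousSubmodule (Fin 3) K t).map φ) +
      Module.finrank K (homogeneousSubmodule (Fin 3) K t ⊓ LinearMap.ker φ :
        Submodule K (MvPolynomial (Fin 3) K)) = (t + 2).choose 2 := by
  have hrn := LinearMap.finrank_range_add_finrank_ker
    (φ.domRestrict (homogeneousSubmodule (Fin 3) K t))
  have hr1 : LinearMap.range (φ.domRestrict (homogeneousSubmodule (Fin 3) K t)) =
      (homogeneousSubmodule (Fin 3) K t).map φ := by
    rw [LinearMap.range_domRestrict]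
  have hr2 : Module.finrank K (LinearMap.ker
      (φ.domRestrict (homogeneousSubmodule (Fin 3) K t))) =
      Module.finrank K (homogeneousSubmodule (Fin 3) K t ⊓ LinearMap.ker φ :
        Submodule K (MvPolynomial (Fin 3) K)) := by
    rw [LinearMap.ker_domRestrict, ← Submodule.map_comap_subtype,
      Submodule.finrank_map_subtype_eq]
  rw [hr1, hr2, finrank_hom] at hrn
  exact hrn

end rank

section conj

variable {K N : Type} [Field K] [Field N] [Algebra K N] [FiniteDimensional K N] [IsGalois K N]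

omit [IsGalois K N] in
theorem card_eq_idx_mul (P : Fin 3 → N) :
    Nat.card (stab (K := K) P) * idx (⊤ : Subgroup (N ≃ₐ[K] N)) P = Nat.card (N ≃ₐ[K] N) := by
  have h := card_mul_idx (⊤ : Subgroup (N ≃ₐ[K] N)) P
  rw [card_fin, card_fin, top_inf_eq, Subgroup.card_top] at h
  exact h

/-- values of forms over `K` at a point span a space of dimension at most the number of
conjugates -/
theorem finrank_values_le (P : Fin 3 → N) (hP : P ≠ 0) (t : ℕ) :
    Module.finrank K ((homogeneousSubmodule (Fin 3) K t).map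
      (aeval P : MvPolynomial (Fin 3) K →ₐ[K] N).toLinearMap) ≤ idx (⊤ : Subgroup (N ≃ₐ[K] N)) P := by
  obtain ⟨k0, hk0⟩ := Function.ne_iff.1 hP
  have hk0' : P k0 ≠ 0 := hk0
  set P' : Fin 3 → N := (P k0)⁻¹ • P with hP'
  set E := IntermediateField.fixedField (stab (K := K) P) with hE
  have hmem : ∀ i, P' i ∈ E := by
    intro i
    rw [hE, IntermediateField.mem_fixedField_iff]
    intro σ hσ
    obtain ⟨c, hc, h⟩ := hσ
    have h1 : σ (P i) = c * P i := congrFun h i
    have h2 : σ (P k0) = c * P k0 := congrFun h k0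
    rw [hP', Pi.smul_apply, smul_eq_mul, map_mul, map_inv₀, h1, h2]
    field_simp
  have hfE : Module.finrank K E = idx (⊤ : Subgroup (N ≃ₐ[K] N)) P := by
    have h1 := Module.finrank_mul_finrank K E N
    have h2 : Module.finrank E N = Nat.card (stab (K := K) P) :=
      IntermediateField.finrank_fixedField_eq_card _
    have h3 := card_eq_idx_mul (K := K) P
    have h4 : Nat.card (N ≃ₐ[K] N) = Module.finrank K N := IsGalois.card_aut_eq_finrank K N
    rw [h2, ← h4, ← h3, mul_comm] at h1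
    exact Nat.eq_of_mul_eq_mul_left Nat.card_pos h1
  have hle : (homogeneousSubmodule (Fin 3) K t).map
      (aeval P : MvPolynomial (Fin 3) K →ₐ[K] N).toLinearMap ≤
      (Subalgebra.toSubmodule E.toSubalgebra).map (LinearMap.mulLeft K ((P k0) ^ t)) := by
    rintro x ⟨F, hF, rfl⟩
    have hFh := (mem_homogeneousSubmodule _ _).1 hF
    refine ⟨aeval P' F, ?_, ?_⟩
    · have h1 : aeval P' F = algebraMap E N (aeval (fun i => (⟨P' i, hmem i⟩ : E)) F) := by
        rw [← aeval_algebraMap_apply]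
        rfl
      rw [h1]
      exact (aeval (fun i => (⟨P' i, hmem i⟩ : E)) F : E).2
    · rw [LinearMap.mulLeft_apply, AlgHom.toLinearMap_apply]
      have h2 : P = (P k0) • P' := by
        rw [hP', smul_smul, mul_inv_cancel₀ hk0', one_smul]
      have h3 : aeval ((P k0) • P') F = (P k0) ^ t * aeval P' F := by
        have := eval_smul_hom (hFh.map (algebraMap K N)) (P k0) P'
        rw [eval_map, eval_map] at this
        exact this
      conv_rhs => rw [h2]
      rw [h3]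
  have hfd : FiniteDimensional K (Subalgebra.toSubmodule E.toSubalgebra) :=
    inferInstanceAs (FiniteDimensional K E)
  refine (Submodule.finrank_mono hle).trans ((Submodule.finrank_map_le _ _).trans ?_)
  exact le_of_eq hfE

/-- the second form at a point on a curve -/
theorem exists_second {P : Fin 3 → N} (hP : P ≠ 0) {a : ℕ} (ha : 1 ≤ a)
    {g : MvPolynomial (Fin 3) K} (hg : g.IsHomogeneous a) (hg0 : g ≠ 0) :
    ∃ h : MvPolynomial (Fin 3) K,
      h.IsHomogeneous (a + idx (⊤ : Subgroup (N ≃ₐ[K] N)) P / a) ∧ aeval P h = 0 ∧ ¬ g ∣ h := by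
  set n := idx (⊤ : Subgroup (N ≃ₐ[K] N)) P with hn
  set r := n / a with hr
  by_contra hcon
  push Not at hcon
  set φ := (aeval P : MvPolynomial (Fin 3) K →ₐ[K] N).toLinearMap with hφ
  have h1 := rank_null φ (a + r)
  have h2 := finrank_values_le (K := K) P hP (a + r)
  rw [← hφ, ← hn] at h2
  have h3 : (homogeneousSubmodule (Fin 3) K (a + r) ⊓ LinearMap.ker φ :
      Submodule K (MvPolynomial (Fin 3) K)) ≤ (homogeneousSubmodule (Fin 3) K r).map (mulL g) := by
    rintro x ⟨hx1, hx2⟩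
    have hxh := (mem_homogeneousSubmodule _ _).1 hx1
    obtain ⟨y, hy⟩ := hcon x hxh hx2
    by_cases hx0 : x = 0
    · rw [hx0]; exact Submodule.zero_mem _
    · rw [hy] at hxh hx0
      have h4 := hom_quot hxh hg hx0
      refine ⟨y, ?_, by rw [mulL_apply, hy]⟩
      rw [SetLike.mem_coe, mem_homogeneousSubmodule]
      have := h4.2
      rwa [Nat.add_sub_cancel_left] at this
  have h4 := Submodule.finrank_mono h3
  rw [finrank_map_mul hg0, finrank_hom] at h4
  have h5 := two_choose (a + r)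
  have h6 := two_choose r
  have h7 : n < a * (r + 1) := by
    rw [hr]
    exact Nat.lt_mul_div_succ n (by omega)
  nlinarith

/-- the form of minimal degree at a point -/
theorem exists_min_form {P : Fin 3 → N} (hP : P ≠ 0) :
    ∃ (a : ℕ) (g : MvPolynomial (Fin 3) K), 1 ≤ a ∧ g.IsHomogeneous a ∧ Prime g ∧
      aeval P g = 0 ∧ a * (a + 1) ≤ 2 * idx (⊤ : Subgroup (N ≃ₐ[K] N)) P ∧
      (∀ b h, MvPolynomial.IsHomogeneous (R := K) h b → h ≠ 0 → aeval P h = 0 → a ≤ b) := by
  set n := idx (⊤ : Subgroup (N ≃ₐ[K] N)) P with hn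
  set φ := (aeval P : MvPolynomial (Fin 3) K →ₐ[K] N).toLinearMap with hφ
  -- existence of forms
  have hex : ∀ t : ℕ, n < (t + 2).choose 2 → ∃ h : MvPolynomial (Fin 3) K, h.IsHomogeneous t ∧
      h ≠ 0 ∧ aeval P h = 0 := by
    intro t ht
    have h1 := rank_null φ t
    have h2 := finrank_values_le (K := K) P hP t
    rw [← hφ, ← hn] at h2
    have h3 : (homogeneousSubmodule (Fin 3) K t ⊓ LinearMap.ker φ :
      Submodule K (MvPolynomial (Fin 3) K)) ≠ ⊥ := by
      intro h0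
      rw [h0, finrank_bot] at h1
      omega
    obtain ⟨x, ⟨hx1, hx2⟩, hx0⟩ := Submodule.exists_mem_ne_zero_of_ne_bot h3
    exact ⟨x, (mem_homogeneousSubmodule _ _).1 hx1, hx0, hx2⟩
  have hex' : ∃ t : ℕ, ∃ h : MvPolynomial (Fin 3) K, h.IsHomogeneous t ∧
      h ≠ 0 ∧ aeval P h = 0 := by
    refine ⟨n, hex n ?_⟩
    have h5 := two_choose n
    nlinarith
  obtain ⟨g, hg, hg0, hgP⟩ := Nat.find_spec hex'
  have hmin : ∀ b (h : MvPolynomial (Fin 3) K), h.IsHomogeneous b → h ≠ 0 → aeval P h = 0 →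
      Nat.find hex' ≤ b := fun b h h1 h2 h3 => Nat.find_min' hex' ⟨h, h1, h2, h3⟩
  set a := Nat.find hex' with ha
  have ha1 : 1 ≤ a := by
    by_contra hcon
    have ha0 : a = 0 := by omega
    rw [ha0] at hg
    have h1 := totalDegree_eq_zero_iff_eq_C.1 (Nat.le_zero.1 (hg.totalDegree_le))
    rw [h1, aeval_C] at hgP
    have h2 : coeff 0 g = 0 := (map_eq_zero (algebraMap K N)).1 hgP
    rw [h2, map_zero] at h1
    exact hg0 h1
  have hirr : Irreducible g := by
    refine ⟨?_, ?_⟩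
    · intro hu
      have h1 : ∃ c : K, c ≠ 0 ∧ g = C c := by
        obtain ⟨c, hc, h⟩ := MvPolynomial.isUnit_iff_eq_C_of_isReduced.1 hu
        exact ⟨c, hc.ne_zero, h⟩
      obtain ⟨c, hc, rfl⟩ := h1
      rw [aeval_C] at hgP
      exact hc ((map_eq_zero (algebraMap K N)).1 hgP)
    · intro x y hxy
      rw [hxy] at hg hg0 hgP
      obtain ⟨hx0, hy0⟩ := mul_ne_zero_iff.1 hg0
      obtain ⟨i, j, hij, hi, hj⟩ := hom_of_mul hg hg0
      rw [map_mul, mul_eq_zero] at hgP
      have hunit : ∀ (u : MvPolynomial (Fin 3) K), u ≠ 0 → u.IsHomogeneous 0 → IsUnit u := by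
        intro u hu0 hu
        have h1 := totalDegree_eq_zero_iff_eq_C.1 (Nat.le_zero.1 (hu.totalDegree_le))
        rw [h1]
        refine (Ne.isUnit ?_).map C
        intro h2
        rw [h2, map_zero] at h1
        exact hu0 h1
      rcases hgP with h1 | h1
      · right
        have h2 := hmin i x hi hx0 h1
        have h3 : j = 0 := by omega
        rw [h3] at hj
        exact hunit y hy0 hj
      · left
        have h2 := hmin j y hj hy0 h1
        have h3 : i = 0 := by omega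
        rw [h3] at hi
        exact hunit x hx0 hi
  refine ⟨a, g, ha1, hg, hirr.prime, hgP, ?_, hmin⟩
  -- the bound
  obtain ⟨b, hb⟩ : ∃ b, a = b + 1 := ⟨a - 1, by omega⟩
  have h1 : (b + 2).choose 2 ≤ n := by
    by_contra hcon
    obtain ⟨h, h1, h2, h3⟩ := hex b (by omega)
    have := hmin b h h1 h2 h3
    omega
  have h5 := two_choose b
  rw [hb]
  nlinarith

omit [IsGalois K N] in
/-- the family of all conjugates -/
theorem exists_conj_rows {P : Fin 3 → N} (hP : P ≠ 0) :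
    ∃ (n : ℕ) (z : Fin n → Fin 3 → N), n = idx (⊤ : Subgroup (N ≃ₐ[K] N)) P ∧
      (∀ i, ∃ σ : N ≃ₐ[K] N, z i = gal σ P) ∧ (∀ a, z a ≠ 0) ∧
      (∀ a i, i ≠ a → ∃ k l, z i k * z a l - z i l * z a k ≠ 0) := by
  have hne : ∀ σ : N ≃ₐ[K] N, gal (1 * σ) P ≠ 0 := fun σ => gal_ne _ hP
  obtain ⟨n, z, pre, hn1, hn, hpre, hz0, hzz, -⟩ := exists_rows
    (fin (⊤ : Subgroup (N ≃ₐ[K] N))) ⟨1, mem_fin.2 (Subgroup.one_mem _)⟩
    (fun σ => gal (1 * σ) P) hne
  refine ⟨n, z, ?_, fun i => ⟨1 * pre i, (hpre i).2⟩, hz0, hzz⟩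
  rw [hn, ← card_orbit (⊤ : Subgroup (N ≃ₐ[K] N)) P 1 hne]

omit [FiniteDimensional K N] [IsGalois K N] in
theorem aeval_gal (σ : N ≃ₐ[K] N) (P : Fin 3 → N) (f : MvPolynomial (Fin 3) K) :
    aeval (gal σ P) f = σ (aeval P f) := by
  have h : (aeval (gal σ P) : MvPolynomial (Fin 3) K →ₐ[K] N) =
      (σ : N →ₐ[K] N).comp (aeval P) := by
    apply MvPolynomial.algHom_ext
    intro i
    simp [gal]
  rw [h]; rfl

omit [IsGalois K N] in
/-- **Bezout** for a point: a form of small degree vanishing at `P` is a multiple of `g`. -/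
theorem dvd_of_vanish {P : Fin 3 → N} (hP : P ≠ 0) {g h : MvPolynomial (Fin 3) K} {a b : ℕ}
    (hg : g.IsHomogeneous a) (hgp : Prime g) (hgP : aeval P g = 0) (hh : h.IsHomogeneous b)
    (hhP : aeval P h = 0) (hlt : a * b < idx (⊤ : Subgroup (N ≃ₐ[K] N)) P) : g ∣ h := by
  by_contra hcon
  obtain ⟨n, z, hn, hz, hz0, hzz⟩ := exists_conj_rows (K := K) hP
  have h1 := bezout_points hg hh hgp hcon z hz0 hzz
    (fun i => by obtain ⟨σ, hσ⟩ := hz i; rw [hσ, aeval_gal, hgP, map_zero])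
    (fun i => by obtain ⟨σ, hσ⟩ := hz i; rw [hσ, aeval_gal, hhP, map_zero])
  omega

/-- **Separation of the conjugates of a point of the plane.** There is an irreducible form `g`
of degree `a` vanishing at `P`, of minimal degree, `a (a + 1) ≤ 2 n`, `n` the number of
conjugates, and forms of degree `t ≥ 2 a + n / a - 2` separate the conjugates. -/
theorem sep_or_curve {P : Fin 3 → N} (hP : P ≠ 0) :
    ∃ (a : ℕ) (g : MvPolynomial (Fin 3) K), 1 ≤ a ∧ g.IsHomogeneous a ∧ Prime g ∧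
      aeval P g = 0 ∧ a * (a + 1) ≤ 2 * idx (⊤ : Subgroup (N ≃ₐ[K] N)) P ∧
      (∀ b h, MvPolynomial.IsHomogeneous (R := K) h b → h ≠ 0 → aeval P h = 0 → a ≤ b) ∧
      ∀ (m : ℕ) (z : Fin m → Fin 3 → N), (∀ i, z i ≠ 0) →
        (∀ i, ∃ σ : N ≃ₐ[K] N, ∃ c : N, z i = c • gal σ P) →
        (∀ a i, i ≠ a → ∃ k l, z i k * z a l - z i l * z a k ≠ 0) →
        ∀ t : ℕ, 2 * a + idx (⊤ : Subgroup (N ≃ₐ[K] N)) P / a ≤ t + 2 → HV z t = ⊤ := by
  obtain ⟨a, g, ha, hg, hgp, hgP, hb, hmin⟩ := exists_min_form (K := K) hP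
  obtain ⟨h, hh, hhP, hgh⟩ := exists_second (K := K) hP ha hg hgp.ne_zero
  refine ⟨a, g, ha, hg, hgp, hgP, hb, hmin, ?_⟩
  intro m z hz0 hz hzz t ht
  refine sep_plane hg hh ha (by have := Nat.zero_le (idx (⊤ : Subgroup (N ≃ₐ[K] N)) P / a); omega)
    hgp hgh z hz0 hzz ?_ ?_ (by omega)
  · intro i
    obtain ⟨σ, c, hσ⟩ := hz i
    rw [hσ, aeval_smul_hom hg, aeval_gal, hgP, map_zero, mul_zero]
  · intro i
    obtain ⟨σ, c, hσ⟩ := hz i
    rw [hσ, aeval_smul_hom hh, aeval_gal, hhP, map_zero, mul_zero]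

theorem sep_of_HV {L : Type} [Field L] {n t : ℕ} {z : Fin n → Fin 3 → L} (h : HV z t = ⊤)
    (a : Fin n) : ∃ G : MvPolynomial (Fin 3) L, G.IsHomogeneous t ∧ eval (z a) G ≠ 0 ∧
      ∀ i, i ≠ a → eval (z i) G = 0 := by
  have h1 : (Pi.single a (1 : L) : Fin n → L) ∈ HV z t := by rw [h]; trivial
  obtain ⟨G, hG, hGe⟩ := h1
  have h3 : ∀ j, eval (z j) G = (Pi.single a (1 : L) : Fin n → L) j := by
    intro j
    rw [← hGe, ev_apply]
  refine ⟨G, (mem_homogeneousSubmodule _ _).1 hG, ?_, fun i hi => ?_⟩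
  · rw [h3, Pi.single_eq_same]; exact one_ne_zero
  · rw [h3, Pi.single_eq_of_ne hi]

/-- **Separation** when no form of degree `≤ γ` vanishes at the point. -/
theorem planeA {P : Fin 3 → N} (hP : P ≠ 0) {γ t : ℕ}
    (hγ : ∀ b ≤ γ, ∀ h : MvPolynomial (Fin 3) K, h.IsHomogeneous b → aeval P h = 0 → h = 0)
    (ht : idx (⊤ : Subgroup (N ≃ₐ[K] N)) P / (γ + 1) +
      3 * Nat.sqrt (idx (⊤ : Subgroup (N ≃ₐ[K] N)) P) + 1 ≤ t)
    {m : ℕ} (z : Fin m → Fin 3 → N) (hz0 : ∀ i, z i ≠ 0)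
    (hz : ∀ i, ∃ σ : N ≃ₐ[K] N, ∃ c : N, z i = c • gal σ P)
    (hzz : ∀ a i, i ≠ a → ∃ k l, z i k * z a l - z i l * z a k ≠ 0) (a : Fin m) :
    ∃ G : MvPolynomial (Fin 3) N, G.IsHomogeneous t ∧ eval (z a) G ≠ 0 ∧
      ∀ i, i ≠ a → eval (z i) G = 0 := by
  obtain ⟨d, g, hd, hg, hgp, hgP, hb, -, hsep⟩ := sep_or_curve (K := K) hP
  refine sep_of_HV (hsep m z hz0 hz hzz t ?_) a
  set n := idx (⊤ : Subgroup (N ≃ₐ[K] N)) P with hn
  have h1 : γ + 1 ≤ d := by
    by_contra hcon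
    exact hgp.ne_zero (hγ d (by omega) g hg hgP)
  have h2 : n / d ≤ n / (γ + 1) := Nat.div_le_div_left h1 (Nat.succ_pos _)
  have h3 : 2 * d ≤ 3 * Nat.sqrt n + 3 := by
    have h4 := Nat.lt_succ_sqrt n
    set s := Nat.sqrt n with hs
    by_contra hcon
    push Not at hcon
    have h5 : n + 1 ≤ (s + 1) * (s + 1) := h4
    nlinarith
  omega

end conj

end Pool.DynLehmer
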