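import Mathlib
import Pool.Agent.Lib.MP_2194ec_nt.PlC

set_option autoImplicit false

/-!
# No form of small degree vanishes on many levels
-/

namespace Pool.DynLehmer
open MvPolynomial
open scoped Classical LinearAlgebra.Projectivization

section iter

variable {K : Type} [Field K] (F : Fin 3 → MvPolynomial (Fin 3) K)

theorem aeval_bind_iter {N : Type} [Field N] [Algebra K N] (j : ℕ) (R : Fin 3 → N)
    (h : MvPolynomial (Fin 3) K) :
    aeval R ((bind₁ F)^[j] h) = aeval ((gAct F N)^[j] R) h := by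
  induction j generalizing h with
  | zero => rfl
  | succ j ih =>
    rw [Function.iterate_succ_apply, ih, Function.iterate_succ_apply', aeval_bind₁]
    rfl

theorem hom_bind_iter {q : ℕ} (hF : ∀ i, (F i).IsHomogeneous q) (j : ℕ) {b : ℕ}
    {h : MvPolynomial (Fin 3) K} (hh : h.IsHomogeneous b) :
    ((bind₁ F)^[j] h).IsHomogeneous (b * q ^ j) := by
  induction j generalizing h b with
  | zero => simpa using hh
  | succ j ih =>
    rw [Function.iterate_succ_apply]
    have h1 : (bind₁ F h).IsHomogeneous (q * b) := hh.aeval F hF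
    have h2 := ih h1
    rwa [show q * b * q ^ j = b * q ^ (j + 1) by ring] at h2

end iter

section noform

variable {K : Type} [Field K]

theorem totalDegree_prod_aux {ι : Type} (S : Finset ι) (h : ι → MvPolynomial (Fin 3) K)
    (h0 : ∀ i ∈ S, h i ≠ 0) : (∏ i ∈ S, h i).totalDegree = ∑ i ∈ S, (h i).totalDegree := by
  induction S using Finset.induction_on with
  | empty => simp
  | insert i S hi ih =>
    rw [Finset.prod_insert hi, Finset.sum_insert hi,
      totalDegree_mul_of_isDomain (h0 i (Finset.mem_insert_self i S))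
        (Finset.prod_ne_zero_iff.2 fun j hj => h0 j (Finset.mem_insert_of_mem hj)),
      ih fun j hj => h0 j (Finset.mem_insert_of_mem hj)]

theorem sum_hom_le {A : MvPolynomial (Fin 3) K} {T : ℕ} (hA : A.IsHomogeneous T) (hA0 : A ≠ 0)
    {ι : Type} (S : Finset ι) (h : ι → MvPolynomial (Fin 3) K) (d : ℕ)
    (hp : ∀ i ∈ S, Prime (h i)) (hd : ∀ i ∈ S, h i ∣ A)
    (hdeg : ∀ i ∈ S, ∀ b, (h i).IsHomogeneous b → d ≤ b)
    (hna : ∀ i ∈ S, ∀ j ∈ S, i ≠ j → ¬ Associated (h i) (h j)) : S.card * d ≤ T := by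
  have hprod : ∏ i ∈ S, h i ∣ A := by
    induction S using Finset.induction_on with
    | empty => simp
    | insert i S hi ih =>
      rw [Finset.prod_insert hi]
      obtain ⟨y, hy⟩ := ih (fun j hj => hp j (Finset.mem_insert_of_mem hj))
        (fun j hj => hd j (Finset.mem_insert_of_mem hj))
        (fun j hj => hdeg j (Finset.mem_insert_of_mem hj))
        (fun j hj k hk => hna j (Finset.mem_insert_of_mem hj) k (Finset.mem_insert_of_mem hk))
      have h1 : h i ∣ (∏ j ∈ S, h j) * y := by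
        rw [← hy]; exact hd i (Finset.mem_insert_self i S)
      have hpi := hp i (Finset.mem_insert_self i S)
      have h2 : ¬ h i ∣ ∏ j ∈ S, h j := by
        intro h3
        obtain ⟨j, hj, h4⟩ := (hpi.dvd_finsetProd_iff _).1 h3
        exact hna i (Finset.mem_insert_self i S) j (Finset.mem_insert_of_mem hj)
          (fun h5 => hi (h5 ▸ hj))
          ((hpi.dvd_prime_iff_associated (hp j (Finset.mem_insert_of_mem hj))).1 h4)
      obtain ⟨z, hz⟩ := (hpi.dvd_or_dvd h1).resolve_left h2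
      rw [hy, hz]
      exact ⟨z, by ring⟩
  have hhom : ∀ i ∈ S, ∃ b, (h i).IsHomogeneous b := fun i hi => by
    obtain ⟨b, -, hb⟩ := hom_of_dvd hA hA0 (hd i hi)
    exact ⟨b, hb⟩
  have h0 : ∏ i ∈ S, h i ≠ 0 := by
    intro h0
    rw [h0, zero_dvd_iff] at hprod
    exact hA0 hprod
  have hdeg2 : S.card * d ≤ (∏ i ∈ S, h i).totalDegree := by
    rw [totalDegree_prod_aux S h (fun i hi => (hp i hi).ne_zero)]
    rw [← smul_eq_mul]
    refine Finset.card_nsmul_le_sum _ _ _ fun i hi => ?_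
    obtain ⟨b, hb⟩ := hhom i hi
    rw [hb.totalDegree (hp i hi).ne_zero]
    exact hdeg i hi b hb
  obtain ⟨y, hy⟩ := hprod
  have hy0 : y ≠ 0 := by
    rintro rfl
    rw [mul_zero] at hy
    exact hA0 hy
  have h1 := hA.totalDegree hA0
  rw [hy, totalDegree_mul_of_isDomain h0 hy0] at h1
  omega

variable {N : Type} [Field N] [Algebra K N] [FiniteDimensional K N]

/-- a form of small degree does not vanish on all levels -/
theorem no_form (F : Fin 3 → MvPolynomial (Fin 3) K) {q : ℕ} (hF : ∀ i, (F i).IsHomogeneous q)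
    {R : Fin 3 → N} (hR : R ≠ 0) {g : MvPolynomial (Fin 3) K} {w0 : ℕ}
    (hg : g.IsHomogeneous w0) (hgp : Prime g) (hgR : aeval R g = 0) {d L T : ℕ} (J : ℕ → ℕ)
    (hJ : ∀ l l', l < l' → J l < J l')
    (hdeg : ∀ l < L, ∀ (b : ℕ) (h : MvPolynomial (Fin 3) K), h.IsHomogeneous b → h ≠ 0 →
      g ∣ (bind₁ F)^[J l] h → d ≤ b)
    (hnp : ¬ ∃ l l' : ℕ, l < l' ∧ ∃ (h : MvPolynomial (Fin 3) K) (b : ℕ), h.IsHomogeneous b ∧
      Prime h ∧ g ∣ (bind₁ F)^[l] h ∧ g ∣ (bind₁ F)^[l'] h)
    (hT : T < L * d) (hbig : ∀ l < L, w0 * (T * q ^ J l) < idx (⊤ : Subgroup (N ≃ₐ[K] N)) R)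
    {A : MvPolynomial (Fin 3) K} (hA : A.IsHomogeneous T)
    (hv : ∀ l < L, aeval ((gAct F N)^[J l] R) A = 0) : A = 0 := by
  by_contra hA0
  have hq : ∀ l, l < L → ∀ b ≤ T, w0 * (b * q ^ J l) < idx (⊤ : Subgroup (N ≃ₐ[K] N)) R := by
    intro l hl b hb
    refine lt_of_le_of_lt ?_ (hbig l hl)
    exact Nat.mul_le_mul_left _ (Nat.mul_le_mul_right _ hb)
  have hex : ∀ l : ℕ, ∃ h : MvPolynomial (Fin 3) K, l < L → (Prime h ∧ h ∣ A ∧
      g ∣ (bind₁ F)^[J l] h) := by
    intro l
    by_cases hl : l < L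
    · obtain ⟨f, hf, hfA⟩ := UniqueFactorizationMonoid.exists_prime_factors A hA0
      obtain ⟨u, hu⟩ := hfA
      have h1 := hv l hl
      rw [← hu, map_mul, mul_eq_zero] at h1
      have h2 : aeval ((gAct F N)^[J l] R) (u : MvPolynomial (Fin 3) K) ≠ 0 :=
        (u.isUnit.map (aeval ((gAct F N)^[J l] R))).ne_zero
      have h3 := h1.resolve_right h2
      rw [map_multiset_prod, Multiset.prod_eq_zero_iff, Multiset.mem_map] at h3
      obtain ⟨h, hh, hh0⟩ := h3
      have hdv : h ∣ A := (Multiset.dvd_prod hh).trans ⟨u, hu.symm⟩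
      obtain ⟨b, hb, hbh⟩ := hom_of_dvd hA hA0 hdv
      refine ⟨h, fun _ => ⟨hf h hh, hdv, ?_⟩⟩
      refine dvd_of_vanish (K := K) hR hg hgp hgR (hom_bind_iter F hF (J l) hbh) ?_ (hq l hl b hb)
      rw [aeval_bind_iter]
      exact hh0
    · exact ⟨0, fun h => absurd h hl⟩
  choose h hh using hex
  have h1 := sum_hom_le hA hA0 (Finset.range L) h d
    (fun i hi => (hh i (Finset.mem_range.1 hi)).1)
    (fun i hi => (hh i (Finset.mem_range.1 hi)).2.1)
    (fun i hi b hb => hdeg i (Finset.mem_range.1 hi) b (h i) hb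
      (hh i (Finset.mem_range.1 hi)).1.ne_zero (hh i (Finset.mem_range.1 hi)).2.2)
    (fun i hi j hj hij hass => by
      rw [Finset.mem_range] at hi hj
      obtain ⟨p1, d1, g1⟩ := hh i hi
      obtain ⟨p2, d2, g2⟩ := hh j hj
      obtain ⟨b, -, hb⟩ := hom_of_dvd hA hA0 d1
      have g3 : g ∣ (bind₁ F)^[J j] (h i) := by
        refine g2.trans ?_
        have h4 : ∀ (n : ℕ) (x y : MvPolynomial (Fin 3) K), x ∣ y →
            (bind₁ F)^[n] x ∣ (bind₁ F)^[n] y := by
          intro n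
          induction n with
          | zero => intro x y hxy; exact hxy
          | succ n ih =>
            intro x y hxy
            rw [Function.iterate_succ_apply, Function.iterate_succ_apply]
            exact ih _ _ (map_dvd (bind₁ F) hxy)
        exact h4 _ _ _ hass.symm.dvd
      rcases lt_or_gt_of_ne hij with h5 | h5
      · exact hnp ⟨J i, J j, hJ _ _ h5, h i, b, hb, p1, g1, g3⟩
      · exact hnp ⟨J j, J i, hJ _ _ h5, h i, b, hb, p1, g3, g1⟩)
  rw [Finset.card_range] at h1
  omega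

/-- forms over `N` by the trace -/
theorem no_form_N [IsGalois K N] {T : ℕ} {α : Type} (y : α → Fin 3 → N)
    (hno : ∀ A : MvPolynomial (Fin 3) K, A.IsHomogeneous T → (∀ l, aeval (y l) A = 0) → A = 0)
    {f : MvPolynomial (Fin 3) N} (hf : f.IsHomogeneous T)
    (hv : ∀ (σ : N ≃ₐ[K] N) l, eval (gal σ (y l)) f = 0) : f = 0 := by
  by_contra hf0
  obtain ⟨t0, ht0⟩ := exists_coeff_ne_zero hf0
  obtain ⟨lam, hlam⟩ : ∃ lam : N, Algebra.trace K N (lam * coeff t0 f) ≠ 0 := by
    by_contra hcon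
    push Not at hcon
    have h1 := (traceForm_nondegenerate K N).1 (coeff t0 f) fun x => by
      rw [Algebra.traceForm_apply, mul_comm]
      exact hcon x
    exact ht0 h1
  set A : MvPolynomial (Fin 3) K := ∑ t ∈ f.support, monomial t
    (Algebra.trace K N (lam * coeff t f)) with hA
  have hcoeff : ∀ t, coeff t A = Algebra.trace K N (lam * coeff t f) := by
    intro t
    rw [hA, coeff_sum]
    simp only [coeff_monomial]
    rw [Finset.sum_ite_eq']
    split_ifs with h
    · rfl
    · rw [notMem_support_iff.1 h, mul_zero, map_zero]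
  have hAh : A.IsHomogeneous T := by
    intro t ht
    rw [hcoeff] at ht
    apply hf
    intro h0
    rw [h0, mul_zero, map_zero] at ht
    exact ht rfl
  have hA0 : A ≠ 0 := by
    intro h0
    apply hlam
    rw [← hcoeff, h0, coeff_zero]
  apply hA0
  apply hno A hAh
  intro l
  -- `A(y) = ∑ σ, σ (lam * f (σ⁻¹ y))`
  have h1 : aeval (y l) A = ∑ σ : N ≃ₐ[K] N, σ (lam * eval (gal σ⁻¹ (y l)) f) := by
    rw [hA, map_sum]
    have h2 : ∀ t ∈ f.support, aeval (y l) (monomial t
        (Algebra.trace K N (lam * coeff t f))) =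
        ∑ σ : N ≃ₐ[K] N, σ (lam * coeff t f) * ∏ i ∈ t.support, (y l i) ^ t i := by
      intro t _
      rw [aeval_monomial, trace_eq_sum_automorphisms, Finset.sum_mul]
      rfl
    rw [Finset.sum_congr rfl h2, Finset.sum_comm]
    refine Finset.sum_congr rfl fun σ _ => ?_
    rw [eval_eq, Finset.mul_sum, map_sum]
    refine Finset.sum_congr rfl fun t _ => ?_
    have h3 : σ (lam * (coeff t f * ∏ i ∈ t.support, gal σ⁻¹ (y l) i ^ t i)) =
        σ (lam * coeff t f) * ∏ i ∈ t.support, σ (gal σ⁻¹ (y l) i ^ t i) := by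
      rw [← mul_assoc, map_mul σ (lam * coeff t f), map_prod]
    rw [h3]
    congr 1
    refine Finset.prod_congr rfl fun i _ => ?_
    rw [map_pow]
    congr 1
    change _ = σ ((σ⁻¹ : N ≃ₐ[K] N) (y l i))
    rw [← AlgEquiv.mul_apply, mul_inv_cancel]
    rfl
  rw [h1]
  refine Finset.sum_eq_zero fun σ _ => ?_
  rw [hv, mul_zero, map_zero]

end noform

end Pool.DynLehmer
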