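import Mathlib

set_option autoImplicit false

/-!
# Determinants of ternary forms at points where a monic form is small
-/

namespace Pool.DynLehmer
open MvPolynomial
open scoped Classical

/-- the exponents of degree `t` -/
noncomputable def mons (t : ℕ) : Finset (Fin 3 →₀ ℕ) :=
  (Finset.univ : Finset (Fin 3)).finsuppAntidiag t

theorem mem_mons {t : ℕ} {β : Fin 3 →₀ ℕ} : β ∈ mons t ↔ β.degree = t := by
  simp [mons, Finsupp.degree_eq_sum]

theorem card_mons (t : ℕ) : (mons t).card = (t + 2).choose 2 := by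
  rw [mons, Finset.card_finsuppAntidiag_nat_eq_choose]
  simp only [Finset.card_univ, Fintype.card_fin]
  rw [show 3 + t - 1 = t + 2 by omega, ← Nat.choose_symm_add]

section span

variable {A : Type} [CommRing A]

theorem monic_span (m : MonomialOrder (Fin 3)) {T : ℕ}
    (e : (Fin 3 →₀ ℕ) → MvPolynomial (Fin 3) A) (he1 : ∀ β ∈ mons T, (e β).IsHomogeneous T)
    (he2 : ∀ β ∈ mons T, m.Monic (e β)) (he3 : ∀ β ∈ mons T, m.degree (e β) = β)
    (f : MvPolynomial (Fin 3) A) (hf : f.IsHomogeneous T) :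
    ∃ c : (Fin 3 →₀ ℕ) → A, f = ∑ β ∈ mons T, C (c β) * e β := by
  have key : ∀ (y : m.syn) (f : MvPolynomial (Fin 3) A), f.IsHomogeneous T →
      m.toSyn (m.degree f) = y → ∃ c : (Fin 3 →₀ ℕ) → A, f = ∑ β ∈ mons T, C (c β) * e β := by
    intro y
    induction y using WellFoundedLT.induction with
    | ind y ih =>
    intro f hf hy
    by_cases hf0 : f = 0
    · exact ⟨0, by rw [hf0]; simp⟩
    set β := m.degree f with hβ
    have hcoeff : coeff β f ≠ 0 := m.coeff_degree_ne_zero_iff.2 hf0
    have hβT : β ∈ mons T := by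
      rw [mem_mons]
      by_contra hne
      exact hcoeff (hf.coeff_eq_zero hne)
    set f' := f - C (coeff β f) * e β with hf'
    have hfh : f'.IsHomogeneous T := hf.sub ((he1 β hβT).C_mul _)
    have hadd : ∀ c' : (Fin 3 →₀ ℕ) → A, f' = ∑ β ∈ mons T, C (c' β) * e β →
        ∃ c : (Fin 3 →₀ ℕ) → A, f = ∑ β ∈ mons T, C (c β) * e β := by
      intro c' hc'
      refine ⟨fun γ => c' γ + if γ = β then coeff β f else 0, ?_⟩
      have h1 : f = f' + C (coeff β f) * e β := by rw [hf']; ring
      have h2 : ∀ γ ∈ mons T, C (c' γ + if γ = β then coeff β f else 0) * e γ =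
          C (c' γ) * e γ + if γ = β then C (coeff β f) * e β else 0 := by
        intro γ _
        split_ifs with h
        · rw [h, map_add]; ring
        · rw [add_zero, add_zero]
      rw [Finset.sum_congr rfl h2, Finset.sum_add_distrib, Finset.sum_ite_eq', if_pos hβT, ← hc',
        ← h1]
    by_cases hf'0 : f' = 0
    · exact hadd 0 (by rw [hf'0]; simp)
    have hcoeff' : coeff β f' = 0 := by
      have h1 := (he2 β hβT).coeff_degree
      rw [he3 β hβT] at h1
      rw [hf', coeff_sub, coeff_C_mul, h1, mul_one, sub_self]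
    have hne : m.degree f' ≠ β := by
      intro h
      rw [← h] at hcoeff'
      exact (m.coeff_degree_ne_zero_iff.2 hf'0) hcoeff'
    have hle : m.toSyn (m.degree f') ≤ y := by
      refine (m.degree_sub_le).trans ?_
      rw [← hy, ← hβ]
      refine sup_le le_rfl ?_
      rw [← smul_eq_C_mul]
      refine (m.degree_smul_le).trans ?_
      rw [he3 β hβT]
    have hlt : m.toSyn (m.degree f') < y := by
      refine lt_of_le_of_ne hle fun h => hne ?_
      rw [← hy] at h
      exact m.toSyn.injective h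
    obtain ⟨c', hc'⟩ := ih _ hlt f' hfh rfl
    exact hadd c' hc'
  exact key _ f hf rfl

/-- the adapted basis -/
noncomputable def adap (G : MvPolynomial (Fin 3) A) (k : ℕ) (μ β : Fin 3 →₀ ℕ) :
    MvPolynomial (Fin 3) A :=
  if k • μ ≤ β then G ^ k * monomial (β - k • μ) 1 else monomial β 1

theorem degree_nsmul' (k : ℕ) (μ : Fin 3 →₀ ℕ) : (k • μ).degree = k * μ.degree := by
  rw [map_nsmul, smul_eq_mul]

theorem adap_hom {G : MvPolynomial (Fin 3) A} {d : ℕ} (hG : G.IsHomogeneous d) (k : ℕ)
    {μ β : Fin 3 →₀ ℕ} (hμ : μ.degree = d) {T : ℕ} (hβ : β.degree = T) :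
    (adap G k μ β).IsHomogeneous T := by
  rw [adap]
  split_ifs with h
  · have h1 : k • μ + (β - k • μ) = β := add_tsub_cancel_of_le h
    have h2 := congrArg Finsupp.degree h1
    rw [map_add, degree_nsmul', hμ, hβ] at h2
    have h3 := (hG.pow k).mul (isHomogeneous_monomial (σ := Fin 3) (R := A) (1 : A)
      (rfl : (β - k • μ).degree = (β - k • μ).degree))
    rw [← h2, mul_comm k d]
    exact h3
  · exact isHomogeneous_monomial _ hβ

theorem adap_monic (m : MonomialOrder (Fin 3)) {G : MvPolynomial (Fin 3) A} (hG : m.Monic G)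
    (k : ℕ) (β : Fin 3 →₀ ℕ) : m.Monic (adap G k (m.degree G) β) := by
  rw [adap]
  split_ifs with h
  · exact hG.pow.mul (m.monic_monomial_one)
  · exact m.monic_monomial_one

theorem adap_degree [Nontrivial A] (m : MonomialOrder (Fin 3)) {G : MvPolynomial (Fin 3) A}
    (hG : m.Monic G) (k : ℕ) (β : Fin 3 →₀ ℕ) : m.degree (adap G k (m.degree G) β) = β := by
  have hpow : m.degree (G ^ k) = k • m.degree G := by
    apply m.degree_pow_of_pow_leadingCoeff_ne_zero
    rw [hG.leadingCoeff_eq_one, one_pow]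
    exact one_ne_zero
  rw [adap]
  split_ifs with h
  · rw [m.degree_mul_of_mul_leadingCoeff_ne_zero, hpow, m.degree_monomial, if_neg one_ne_zero,
      add_tsub_cancel_of_le h]
    rw [(hG.pow (n := k)).leadingCoeff_eq_one, m.leadingCoeff_monomial, one_mul]
    exact one_ne_zero
  · rw [m.degree_monomial, if_neg one_ne_zero]

theorem card_adap {k T : ℕ} {μ : Fin 3 →₀ ℕ} (h : k * μ.degree ≤ T) :
    ((mons T).filter fun β => k • μ ≤ β).card = (T - k * μ.degree + 2).choose 2 := by
  rw [← card_mons]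
  refine Finset.card_bij (fun β _ => β - k • μ) ?_ ?_ ?_
  · intro β hβ
    rw [Finset.mem_filter, mem_mons] at hβ
    have h1 : k • μ + (β - k • μ) = β := add_tsub_cancel_of_le hβ.2
    have h2 := congrArg Finsupp.degree h1
    rw [map_add, degree_nsmul', hβ.1] at h2
    rw [mem_mons]
    omega
  · intro β hβ γ hγ hbg
    rw [Finset.mem_filter] at hβ hγ
    rw [← add_tsub_cancel_of_le hβ.2, ← add_tsub_cancel_of_le hγ.2, hbg]
  · intro γ hγ
    rw [mem_mons] at hγ
    refine ⟨k • μ + γ, ?_, ?_⟩
    · rw [Finset.mem_filter, mem_mons, map_add, degree_nsmul', hγ]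
      exact ⟨by omega, le_self_add⟩
    · rw [add_tsub_cancel_left]

end span

section det

variable {A B : Type} [CommRing A] [CommRing B] [Nontrivial A] (ψ : A →+* B)

/-- **The determinant is divisible by a high power.** -/
theorem det_dvd_of_small (m : MonomialOrder (Fin 3)) {G : MvPolynomial (Fin 3) A} {d : ℕ}
    (hGh : G.IsHomogeneous d) (hG : m.Monic G) {M T k : ℕ} (hM : M = (T + 2).choose 2)
    (hk : k * d ≤ T) (Q : Fin M → MvPolynomial (Fin 3) A) (hQ : ∀ a, (Q a).IsHomogeneous T)
    (u : Fin M → Fin 3 → B) {π : B} (hu : ∀ i, π ∣ eval₂ ψ (u i) G) :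
    π ^ (k * (T - k * d + 2).choose 2) ∣ (Matrix.of fun i a => eval₂ ψ (u i) (Q a)).det := by
  have hμ : (m.degree G).degree = d := by
    by_contra hne
    have h1 := hGh.coeff_eq_zero hne
    rw [hG.coeff_degree] at h1
    exact one_ne_zero h1
  set μ := m.degree G with hμd
  set e := adap G k μ with he
  have hspan := fun a => monic_span m (T := T) e
    (fun β hβ => adap_hom hGh k hμ (mem_mons.1 hβ))
    (fun β _ => adap_monic m hG k β) (fun β _ => adap_degree m hG k β) (Q a) (hQ a)
  choose c hc using hspan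
  have hcard : Fintype.card (Fin M) = Fintype.card {β // β ∈ mons T} := by
    rw [Fintype.card_fin, Fintype.card_coe, card_mons, hM]
  set E : Fin M ≃ {β // β ∈ mons T} := Fintype.equivOfCardEq hcard with hE
  -- values of the adapted basis
  have hval : ∀ (b : Fin M) (i : Fin M), ∃ t : B, eval₂ ψ (u i) (e (E b)) =
      (if k • μ ≤ (E b : Fin 3 →₀ ℕ) then π ^ k else 1) * t := by
    intro b i
    rw [he]
    simp only [adap]
    split_ifs with h
    · obtain ⟨t, ht⟩ := hu i
      refine ⟨t ^ k * eval₂ ψ (u i) (monomial ((E b : Fin 3 →₀ ℕ) - k • μ) 1), ?_⟩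
      rw [eval₂_mul, eval₂_pow, ht, mul_pow]; ring
    · exact ⟨_, (one_mul _).symm⟩
  choose t ht using hval
  have hmat : (Matrix.of fun i a => eval₂ ψ (u i) (Q a)) =
      (Matrix.of fun i b => (if k • μ ≤ (E b : Fin 3 →₀ ℕ) then π ^ k else 1) * t b i) *
        (Matrix.of fun b a => ψ (c a (E b))) := by
    ext i a
    rw [Matrix.mul_apply, Matrix.of_apply, hc a, eval₂_sum]
    simp only [Matrix.of_apply]
    rw [← Finset.sum_coe_sort (mons T), ← E.sum_comp]
    refine Finset.sum_congr rfl fun b _ => ?_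
    rw [eval₂_mul, eval₂_C, ht b i]
    ring
  rw [hmat, Matrix.det_mul]
  have hcol := Matrix.det_mul_row (fun b : Fin M =>
    (if k • μ ≤ (E b : Fin 3 →₀ ℕ) then π ^ k else 1)) (Matrix.of fun i b => t b i)
  have hcol' : (Matrix.of fun i b => (if k • μ ≤ (E b : Fin 3 →₀ ℕ) then π ^ k else 1) * t b i).det
      = (∏ b : Fin M, (if k • μ ≤ (E b : Fin 3 →₀ ℕ) then π ^ k else 1)) *
        (Matrix.of fun i b => t b i).det := by
    rw [← hcol]
    rfl
  rw [hcol']
  have hprod : (∏ b : Fin M, (if k • μ ≤ (E b : Fin 3 →₀ ℕ) then π ^ k else 1)) =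
      π ^ (k * (T - k * d + 2).choose 2) := by
    rw [E.prod_comp (fun β : {β // β ∈ mons T} => if k • μ ≤ (β : Fin 3 →₀ ℕ) then π ^ k else 1),
      Finset.prod_coe_sort (mons T) (fun β => if k • μ ≤ β then π ^ k else 1),
      Finset.prod_ite, Finset.prod_const_one, mul_one, Finset.prod_const, ← pow_mul,
      card_adap (by rw [hμ]; exact hk), hμ]
  rw [hprod, mul_assoc]
  exact Dvd.intro _ rfl

end det

end Pool.DynLehmer
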