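import Mathlib
import Pool.Agent.Lib.MP_2194ec_nt.GenClose
import Pool.Agent.Lib.MP_2194ec_nt.HilB
import Pool.Agent.Lib.MP_2194ec_nt.PlA
import Pool.Agent.Lib.MP_2194ec_nt.PlD

set_option autoImplicit false

/-!
# The determinant for points of a plane curve
-/

namespace Pool.DynLehmer
open MvPolynomial NumberField Filter Topology
open scoped Classical LinearAlgebra.Projectivization

section gain

variable {N : Type} [Field N] [NumberField N]
variable {K : Type} [Field K] [NumberField K] [Algebra K N]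
variable {p s : ℕ} {v : FinitePlace K} {w : FinitePlace N} {e : ℕ} (Φ : GF (OW v) p s (Fin 3))

/-- a representative of a point close to the curve -/
def SmallAt (G : MvPolynomial (Fin 3) (OW v)) (h : Above v w e) (z : Fin 3 → N) : Prop :=
  ∃ (c : N) (u : Fin 3 → OW w), c ≠ 0 ∧ (z = c • fun l => (u l : N)) ∧ Prim w u ∧
    toOW h Φ.ϖ ∣ eval₂ (toOW h) u G

theorem curve_gain_det (h : Above v w e) (hϖ : v (Φ.ϖ : K) < 1)
    (F : Fin 3 → MvPolynomial (Fin 3) K) (hΦF : ∀ i, map (OW v).subtype (Φ.F i) = F i)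
    (m : MonomialOrder (Fin 3)) {G : MvPolynomial (Fin 3) (OW v)} {d : ℕ}
    (hGh : G.IsHomogeneous d) (hG : m.Monic G) {M J b k : ℕ}
    (hM : M = (dl b (p ^ s) J + 2).choose 2) (hk : k * d ≤ dl b (p ^ s) J)
    (μ : Fin M → ℕ → (Fin 3 →₀ ℕ)) (hμ : ∀ a j, (μ a j).degree = b)
    (z : Fin M → Fin 3 → N) (hz : ∀ i, SmallAt Φ G h (z i)) :
    w (Matrix.of fun i a => aeval (z i) (gQ F J (μ a))).det ≤
      (w (toN v N Φ.ϖ)) ^ (k * (dl b (p ^ s) J - k * d + 2).choose 2) *
        ∏ i, ∏ j ∈ Finset.range (J + 1), (⨆ l, w ((gAct F N)^[j] (z i) l)) ^ b := by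
  choose c u hc0 hzu hprim hdvd using hz
  set Ψ := Φ.map (toOW h) with hΨ
  have hΨF : ∀ i, map (OW w).subtype (Ψ.F i) = map (algebraMap K N) (F i) := by
    intro i
    rw [hΨ, GF.map_F, ← hΦF i, MvPolynomial.map_map, subtype_comp_toOW, toN,
      MvPolynomial.map_map]
  -- divisibility
  have hdet1 := det_dvd_of_small (toOW h) m hGh hG hM hk (fun a => gQ Φ.F J (μ a))
    (fun a => gQ_hom _ (fun i => Φ.F_hom i) J (μ a) (hμ a)) u hdvd
  have heq : (Matrix.of fun i a => eval₂ (toOW h) (u i) (gQ Φ.F J (μ a))) =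
      Matrix.of fun i a => eval (u i) (gQ Ψ.F J (μ a)) := by
    ext i a
    simp only [Matrix.of_apply]
    have h1 : gQ Ψ.F J (μ a) = map (toOW h) (gQ Φ.F J (μ a)) := by
      rw [map_gQ]
      congr 1
      funext i
      rw [hΨ, GF.map_F]
    rw [h1, eval_map]
  rw [heq] at hdet1
  obtain ⟨t, ht⟩ := hdet1
  have hentry : ∀ i a, aeval (z i) (gQ F J (μ a)) =
      c i ^ dl b (p ^ s) J * ((eval (u i) (gQ Ψ.F J (μ a)) : OW w) : N) := by
    intro i a
    have h1 : ((eval (u i) (gQ Ψ.F J (μ a)) : OW w) : N) =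
        eval (fun l => (u i l : N)) (map (OW w).subtype (gQ Ψ.F J (μ a))) := by
      rw [eval_map]
      exact eval₂_comp (OW w).subtype (u i) (gQ Ψ.F J (μ a))
    have h2 : map (OW w).subtype (gQ Ψ.F J (μ a)) = map (algebraMap K N) (gQ F J (μ a)) := by
      rw [map_gQ, map_gQ]
      congr 1
      funext i
      exact hΨF i
    have hFh : ∀ i, (map (algebraMap K N) (F i)).IsHomogeneous (p ^ s) := fun i => by
      rw [← hΨF i]; exact (Ψ.F_hom i).map _
    have h3 : (map (algebraMap K N) (gQ F J (μ a))).IsHomogeneous (dl b (p ^ s) J) := by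
      rw [map_gQ]
      exact gQ_hom _ hFh J (μ a) (hμ a)
    rw [h1, h2, ← eval_smul_hom h3, ← hzu i, eval_map]
    rfl
  have hdet2 : (Matrix.of fun i a => aeval (z i) (gQ F J (μ a))).det =
      (∏ i, c i ^ dl b (p ^ s) J) *
        (((Matrix.of fun i a => eval (u i) (gQ Ψ.F J (μ a))).det : OW w) : N) := by
    have h1 : (((Matrix.of fun i a => eval (u i) (gQ Ψ.F J (μ a))).det : OW w) : N) =
        (Matrix.of fun i a => ((eval (u i) (gQ Ψ.F J (μ a)) : OW w) : N)).det := by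
      have := (OW w).subtype.map_det (Matrix.of fun i a => eval (u i) (gQ Ψ.F J (μ a)))
      exact this
    rw [h1, ← Matrix.det_mul_column]
    congr 1
    ext i a
    simp only [Matrix.of_apply]
    exact hentry i a
  rw [hdet2, map_mul, map_prod, mul_comm, ht, Subring.coe_mul, map_mul, Subring.coe_pow, map_pow]
  have hw1 : w ((t : OW w) : N) ≤ 1 := t.2
  have hA : w (((toOW h Φ.ϖ : OW w) : N)) = w (toN v N Φ.ϖ) := rfl
  rw [hA]
  refine mul_le_mul ?_ ?_ (Finset.prod_nonneg fun i _ => apply_nonneg w _)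
    (pow_nonneg (apply_nonneg w _) _)
  · calc (w (toN v N Φ.ϖ)) ^ (k * (dl b (p ^ s) J - k * d + 2).choose 2) * w ((t : OW w) : N)
        ≤ (w (toN v N Φ.ϖ)) ^ (k * (dl b (p ^ s) J - k * d + 2).choose 2) * 1 :=
          mul_le_mul_of_nonneg_left hw1 (pow_nonneg (apply_nonneg w _) _)
      _ = _ := mul_one _
  refine Finset.prod_le_prod (fun i _ => apply_nonneg w _) fun i _ => ?_
  rw [map_pow, dl_eq, ← Finset.prod_pow_eq_pow_sum]
  refine Finset.prod_le_prod (fun j _ => pow_nonneg (apply_nonneg w _) _) fun j _ => ?_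
  rw [pow_mul]
  refine pow_le_pow_left₀ (pow_nonneg (apply_nonneg w _) _) ?_ b
  -- the norm of the iterates
  have hact : (Φ.map (toN v N)).act = gAct F N := gact_eq_aeval Φ F hΦF N
  obtain ⟨l, hl⟩ := prim_act_iter Φ h hϖ j (u i) (hprim i)
  have h4 : (gAct F N)^[j] (z i) = (c i ^ ((p ^ s) ^ j)) •
      fun l => (((Φ.map (toOW h)).act^[j] (u i) l : OW w) : N) := by
    rw [← hact, hzu i, GF.act_iter_smul, ← gcoe_act_iter Φ h]
  have h5 : w ((gAct F N)^[j] (z i) l) = w (c i) ^ ((p ^ s) ^ j) := by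
    rw [h4]
    simp only [Pi.smul_apply, smul_eq_mul, map_mul, map_pow]
    rw [hl, mul_one]
  rw [← h5]
  exact Finite.le_ciSup (fun l => w ((gAct F N)^[j] (z i) l)) l

end gain

section energy

variable {N : Type} [Field N] [NumberField N]
variable {K : Type} [Field K] [NumberField K] [Algebra K N]
variable {p s : ℕ} {v : FinitePlace K} (Φ : GF (OW v) p s (Fin 3))

/-- **The energy inequality on curves.** -/
theorem curve_energy (hϖ : v (Φ.ϖ : K) < 1) (hϖ0 : (Φ.ϖ : K) ≠ 0)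
    (F : Fin 3 → MvPolynomial (Fin 3) K) (hF : ∀ i, (F i).IsHomogeneous (p ^ s))
    (hz0 : ∀ z : Fin 3 → AlgebraicClosure K, (∀ i, aeval z (F i) = 0) → z = 0)
    (hΦF : ∀ i, map (OW v).subtype (Φ.F i) = F i) {b : ℕ}
    (hb : ∀ (J : ℕ) (G : MvPolynomial (Fin 3) K), G.IsHomogeneous (dl b (p ^ s) J) →
      G ∈ Submodule.span K {Q : MvPolynomial (Fin 3) K | ∃ μ : ℕ → (Fin 3 →₀ ℕ),
        (∀ j, (μ j).degree = b) ∧ Q = gQ F J μ})
    (S : Finset (FinitePlace N)) (e : FinitePlace N → ℕ) (hS : ∀ w ∈ S, Above v w (e w))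
    (m : MonomialOrder (Fin 3)) {G : MvPolynomial (Fin 3) (OW v)} {d : ℕ}
    (hGh : G.IsHomogeneous d) (hG : m.Monic G) {J k : ℕ}
    (hk : k * d ≤ dl b (p ^ s) J)
    {α : Type} [Finite α] (Z : α → Fin 3 → N) (hZ : ∀ a, Z a ≠ 0)
    (hno : ∀ f : MvPolynomial (Fin 3) N, f.IsHomogeneous (dl b (p ^ s) J) →
      (∀ a, eval (Z a) f = 0) → f = 0)
    (hsmall : ∀ w (hw : w ∈ S), ∀ a, SmallAt Φ G (hS w hw) (Z a)) :
    ∃ y : Fin ((dl b (p ^ s) J + 2).choose 2) → α,
    ∑ w ∈ S, ((k * (dl b (p ^ s) J - k * d + 2).choose 2 : ℕ) : ℝ) *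
      (- Real.log (w (toN v N Φ.ϖ))) ≤
      ∑ i, ∑ j ∈ Finset.range (J + 1), (b : ℝ) *
        Height.logHeight ((gAct F N)^[j] (Z (y i))) +
      Module.finrank ℚ N * Real.log (((dl b (p ^ s) J + 2).choose 2).factorial) := by
  set T := dl b (p ^ s) J with hT
  set M := (T + 2).choose 2 with hM
  -- the rank
  have hrank : Module.finrank N (HV Z T) = M := by
    have hinj : Function.Injective ((ev Z).domRestrict (homogeneousSubmodule (Fin 3) N T)) := by
      rw [← LinearMap.ker_eq_bot, LinearMap.ker_eq_bot']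
      rintro ⟨f, hf⟩ hf0
      apply Subtype.ext
      refine hno f ((mem_homogeneousSubmodule _ _).1 hf) fun a => ?_
      have := congrFun hf0 a
      rw [LinearMap.domRestrict_apply, ev_apply] at this
      exact this
    have h1 := LinearMap.finrank_range_of_inj hinj
    rw [LinearMap.range_domRestrict, finrank_hom] at h1
    exact h1
  have hspan := HV_eq_span F hF (hb J) Z
  rw [← hT] at hspan
  rw [← hspan] at hrank
  obtain ⟨f, y, hf, hdet⟩ := exists_minor _ hrank
  choose μ hμ hfμ using hf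
  refine ⟨y, ?_⟩
  have hdet' : (Matrix.of fun i a => aeval (Z (y i)) (gQ F J (μ a))).det ≠ 0 := by
    have h1 : (Matrix.of fun i a => f a (y i)) =
        Matrix.of fun i a => aeval (Z (y i)) (gQ F J (μ a)) := by
      ext i a
      simp only [Matrix.of_apply]
      rw [hfμ a]
    rw [← h1]
    exact hdet
  set z : Fin M → Fin 3 → N := fun i => Z (y i) with hz
  have hzne : ∀ i, z i ≠ 0 := fun i => hZ _
  set D := (Matrix.of fun i a => aeval (z i) (gQ F J (μ a))).det with hD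
  have hne : ∀ (j : ℕ) i, (gAct F N)^[j] (z i) ≠ 0 := fun j i =>
    gAct_iter_ne F hF hz0 j (z i) (hzne i)
  have hL := liouville (κ := Fin M × Fin (J + 1)) hdet' (fun k => (gAct F N)^[k.2] (z k.1))
    (fun k => hne k.2 k.1) (fun _ => b) (M.factorial : ℝ)
    (by exact_mod_cast Nat.one_le_iff_ne_zero.2 (Nat.factorial_ne_zero _))
    (fun w => by
      rw [Fintype.prod_prod_type]
      refine det_le_abv w.1 _ _ fun i a => ?_
      rw [Fin.prod_univ_eq_prod_range (fun j => (⨆ l, w ((gAct F N)^[j] (z i) l)) ^ b)]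
      exact gQ_entry_le F w J (μ a) (hμ a) (z i))
    (fun w => by
      rw [Fintype.prod_prod_type]
      refine det_le_finite w _ _ (fun i => ?_) fun i a => ?_
      · refine Finset.prod_nonneg fun j _ => pow_nonneg ?_ _
        exact Real.iSup_nonneg fun l => apply_nonneg w _
      · rw [Fin.prod_univ_eq_prod_range (fun j => (⨆ l, w ((gAct F N)^[j] (z i) l)) ^ b)]
        exact gQ_entry_le F w J (μ a) (hμ a) (z i)) S
  have hR : ∑ k : Fin M × Fin (J + 1), (b : ℝ) * Height.logHeight ((gAct F N)^[k.2] (z k.1)) =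
      ∑ i, ∑ j ∈ Finset.range (J + 1), (b : ℝ) * Height.logHeight ((gAct F N)^[j] (z i)) := by
    rw [Fintype.sum_prod_type]
    refine Finset.sum_congr rfl fun i _ => ?_
    rw [Fin.sum_univ_eq_sum_range (fun j => (b : ℝ) * Height.logHeight ((gAct F N)^[j] (z i)))]
  rw [← hR]
  refine le_trans (Finset.sum_le_sum fun w hw => ?_) hL
  have hg := curve_gain_det Φ (hS w hw) hϖ F hΦF m hGh hG hM hk μ hμ z
    (fun i => hsmall w hw (y i))
  rw [← hD] at hg
  have hϖN : 0 < w (toN v N Φ.ϖ) := by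
    rw [FinitePlace.pos_iff]
    change algebraMap K N (Φ.ϖ : K) ≠ 0
    simpa using hϖ0
  have hpos : ∀ i, ∀ j ∈ Finset.range (J + 1), 0 < (⨆ l, w ((gAct F N)^[j] (z i) l)) ^ b :=
    fun i j _ => pow_pos (iSup_pos_of_ne w (hne j i)) _
  have hprodpos : 0 < ∏ i, ∏ j ∈ Finset.range (J + 1), (⨆ l, w ((gAct F N)^[j] (z i) l)) ^ b :=
    Finset.prod_pos fun i _ => Finset.prod_pos (hpos i)
  have h1 := Real.log_le_log (FinitePlace.pos_iff.2 hdet') hg
  rw [Real.log_mul (pow_pos hϖN _).ne' hprodpos.ne', Real.log_pow,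
    Real.log_prod (fun i _ => (Finset.prod_pos (hpos i)).ne')] at h1
  have h2 : ∑ i, Real.log (∏ j ∈ Finset.range (J + 1), (⨆ l, w ((gAct F N)^[j] (z i) l)) ^ b) =
      ∑ k : Fin M × Fin (J + 1), (b : ℝ) * Real.log (⨆ l, w ((gAct F N)^[k.2] (z k.1) l)) := by
    rw [Fintype.sum_prod_type]
    refine Finset.sum_congr rfl fun i _ => ?_
    rw [Real.log_prod (fun j hj => (hpos i j hj).ne'),
      Fin.sum_univ_eq_sum_range (fun j => (b : ℝ) * Real.log (⨆ l, w ((gAct F N)^[j] (z i) l)))]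
    exact Finset.sum_congr rfl fun j _ => Real.log_pow _ _
  rw [h2] at h1
  linarith

end energy

end Pool.DynLehmer
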