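import Mathlib
import Pool.Agent.Lib.MP_2194ec_nt.PlG
import Pool.Agent.Lib.MP_2194ec_nt.RelMain

set_option autoImplicit false

/-!
# The height inequality for points of a plane curve
-/

namespace Pool.DynLehmer
open MvPolynomial NumberField Filter Topology
open scoped Classical LinearAlgebra.Projectivization

theorem choose_quarter {T x : ℕ} (h : T ≤ 2 * x) : (T + 2).choose 2 ≤ 4 * (x + 2).choose 2 := by
  have h1 := two_choose T
  have h2 := two_choose x
  nlinarith

section main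

variable {K : Type} [Field K] [NumberField K] {p s : ℕ}

theorem curve_main (hp : p.Prime) (hs : 1 ≤ s) (v : FinitePlace K)
    (Φ : GF (OW v) p s (Fin 3)) (hϖ : v (Φ.ϖ : K) < 1) (hϖ0 : (Φ.ϖ : K) ≠ 0)
    (F : Fin 3 → MvPolynomial (Fin 3) K) (hF : ∀ i, (F i).IsHomogeneous (p ^ s))
    (hz : ∀ z : Fin 3 → AlgebraicClosure K, (∀ i, aeval z (F i) = 0) → z = 0)
    (hΦF : ∀ i, map (OW v).subtype (Φ.F i) = F i) {b : ℕ} (hb1 : 1 ≤ b)
    (hb : ∀ (J : ℕ) (G : MvPolynomial (Fin 3) K), G.IsHomogeneous (dl b (p ^ s) J) →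
      G ∈ Submodule.span K {Q : MvPolynomial (Fin 3) K | ∃ μ : ℕ → (Fin 3 →₀ ℕ),
        (∀ j, (μ j).degree = b) ∧ Q = gQ F J μ})
    {C : ℝ} {m' : ℕ} (hm' : 1 ≤ m')
    {N : Type} [Field N] [NumberField N] [Algebra K N] (hh : (Fin 3 → N) → ℝ)
    (hdiff : ∀ z, |Height.logHeight z / (Module.finrank ℚ N : ℝ) - hh z| ≤ C)
    (hmul : ∀ z, hh (gAct F N z) = ((p ^ s : ℕ) : ℝ) * hh z)
    (S : Finset (FinitePlace N)) (e : FinitePlace N → ℕ) (hS : ∀ w ∈ S, Above v w (e w))
    (hcard : Module.finrank K N ≤ m' * ∑ w ∈ S, e w)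
    (m : MonomialOrder (Fin 3)) {G : MvPolynomial (Fin 3) (OW v)} {d : ℕ}
    (hGh : G.IsHomogeneous d) (hG : m.Monic G) {J k : ℕ}
    (hk : 2 * (k * d) ≤ dl b (p ^ s) J)
    {α : Type} [Finite α] (Z : α → Fin 3 → N) (hZ : ∀ a, Z a ≠ 0)
    (hno : ∀ f : MvPolynomial (Fin 3) N, f.IsHomogeneous (dl b (p ^ s) J) →
      (∀ a, eval (Z a) f = 0) → f = 0)
    (hsmall : ∀ w (hw : w ∈ S), ∀ a, SmallAt Φ G (hS w hw) (Z a))
    {Hm : ℝ} (hHm0 : 0 ≤ Hm) (hHm : ∀ a, hh (Z a) ≤ Hm) :
    (- Real.log (v (Φ.ϖ : K))) / (m' * Module.finrank ℚ K) / 4 * k ≤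
      2 * b * (((p ^ s : ℕ) : ℝ) ^ J) * Hm + b * C * ((J : ℝ) + 1) +
        Real.log ((dl b (p ^ s) J + 2).choose 2 : ℕ) := by
  have hq2 : 2 ≤ p ^ s := hp.two_le.trans (Nat.le_self_pow (by omega) p)
  have hq2r : (2 : ℝ) ≤ ((p ^ s : ℕ) : ℝ) := by exact_mod_cast hq2
  set Λ : ℝ := - Real.log (v (Φ.ϖ : K)) with hΛ
  have hΛ0 : 0 < Λ := neg_pos.2 (Real.log_neg (FinitePlace.pos_iff.2 hϖ0) hϖ)
  have hKpos : (0 : ℝ) < Module.finrank ℚ K := by exact_mod_cast Module.finrank_pos
  have hNpos : (0 : ℝ) < Module.finrank ℚ N := by exact_mod_cast Module.finrank_pos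
  have hmpos : (0 : ℝ) < m' := by exact_mod_cast hm'
  have htower : (Module.finrank ℚ K : ℝ) * Module.finrank K N = Module.finrank ℚ N := by
    exact_mod_cast Module.finrank_mul_finrank ℚ K N
  set q : ℝ := ((p ^ s : ℕ) : ℝ) with hq
  have hq0 : 0 < q := by linarith
  set lam : ℝ := Λ / (m' * Module.finrank ℚ K) with hlam
  have hlam0 : 0 < lam := by positivity
  have hbpos : (0 : ℝ) < b := by exact_mod_cast hb1
  set H : (Fin 3 → N) → ℝ := fun z => Height.logHeight z / (Module.finrank ℚ N : ℝ) with hH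
  have hmuln : ∀ (n : ℕ) z, hh ((gAct F N)^[n] z) = q ^ n * hh z := by
    intro n z
    induction n with
    | zero => simp
    | succ n ih => rw [Function.iterate_succ_apply', hmul, ih, pow_succ]; ring
  set T := dl b (p ^ s) J with hT
  set M := (T + 2).choose 2 with hM
  set M' := (T - k * d + 2).choose 2 with hM'
  have hMpos : 1 ≤ M := Nat.choose_pos (by omega)
  have hMr : (0 : ℝ) < M := by exact_mod_cast hMpos
  have hMM' : M ≤ 4 * M' := choose_quarter (by omega)
  obtain ⟨y, hen⟩ := curve_energy Φ hϖ hϖ0 F hF hz hΦF hb S e hS m hGh hG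
    (show k * d ≤ dl b (p ^ s) J by omega) Z hZ hno hsmall
  -- left side
  have hleft : (M : ℝ) * (Module.finrank ℚ N) * (lam / 4 * k) ≤
      ∑ w ∈ S, ((k * M' : ℕ) : ℝ) * (- Real.log (w (toN v N Φ.ϖ))) := by
    have h1 : ∑ w ∈ S, ((k * M' : ℕ) : ℝ) * (- Real.log (w (toN v N Φ.ϖ))) =
        k * M' * Λ * ∑ w ∈ S, (e w : ℝ) := by
      rw [Finset.mul_sum]
      refine Finset.sum_congr rfl fun w hw => ?_
      have h2 : Real.log (w (toN v N Φ.ϖ)) = - (e w * Λ) := by
        change Real.log (w (algebraMap K N (Φ.ϖ : K))) = _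
        rw [(hS w hw).2, Real.log_pow, hΛ]
        ring
      rw [h2]
      push_cast
      ring
    rw [h1]
    have h2 : (Module.finrank K N : ℝ) ≤ m' * ∑ w ∈ S, (e w : ℝ) := by exact_mod_cast hcard
    have h3 : lam * Module.finrank ℚ N ≤ Λ * ∑ w ∈ S, (e w : ℝ) := by
      rw [← htower, hlam]
      have h4 : Λ / (m' * Module.finrank ℚ K) * ((Module.finrank ℚ K : ℝ) * Module.finrank K N) =
          Λ / m' * Module.finrank K N := by
        field_simp
      rw [h4]
      calc Λ / m' * Module.finrank K N ≤ Λ / m' * (m' * ∑ w ∈ S, (e w : ℝ)) := by gcongr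
        _ = Λ * ∑ w ∈ S, (e w : ℝ) := by field_simp
    have h5 : (M : ℝ) ≤ 4 * M' := by exact_mod_cast hMM'
    calc (M : ℝ) * (Module.finrank ℚ N) * (lam / 4 * k)
        = M / 4 * k * (lam * Module.finrank ℚ N) := by ring
      _ ≤ (4 * M') / 4 * k * (lam * Module.finrank ℚ N) := by gcongr
      _ = k * M' * (lam * Module.finrank ℚ N) := by ring
      _ ≤ k * M' * (Λ * ∑ w ∈ S, (e w : ℝ)) := by gcongr
      _ = _ := by ring
  -- right side
  have hright : ∑ i : Fin M, ∑ j ∈ Finset.range (J + 1), (b : ℝ) *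
      Height.logHeight ((gAct F N)^[j] (Z (y i))) + Module.finrank ℚ N * Real.log (M.factorial) ≤
      M * (Module.finrank ℚ N) * (2 * b * q ^ J * Hm + b * C * ((J : ℝ) + 1) + Real.log M) := by
    have h1 : ∀ i : Fin M, ∑ j ∈ Finset.range (J + 1), (b : ℝ) *
        Height.logHeight ((gAct F N)^[j] (Z (y i))) ≤
        Module.finrank ℚ N * (2 * b * q ^ J * Hm + b * C * ((J : ℝ) + 1)) := by
      intro i
      have h2 : ∀ j ∈ Finset.range (J + 1), (b : ℝ) *
          Height.logHeight ((gAct F N)^[j] (Z (y i))) ≤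
          Module.finrank ℚ N * (b * (q ^ j * Hm + C)) := by
        intro j _
        have h3 : Height.logHeight ((gAct F N)^[j] (Z (y i))) =
            Module.finrank ℚ N * H ((gAct F N)^[j] (Z (y i))) := by
          simp only [hH]
          field_simp
        have h4 : H ((gAct F N)^[j] (Z (y i))) ≤ q ^ j * Hm + C := by
          have h5 := abs_le.1 (hdiff ((gAct F N)^[j] (Z (y i))))
          rw [hmuln] at h5
          have h6 : q ^ j * hh (Z (y i)) ≤ q ^ j * Hm :=
            mul_le_mul_of_nonneg_left (hHm (y i)) (by positivity)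
          linarith [h5.2]
        rw [h3]
        calc (b : ℝ) * (Module.finrank ℚ N * H ((gAct F N)^[j] (Z (y i))))
            = Module.finrank ℚ N * (b * H ((gAct F N)^[j] (Z (y i)))) := by ring
          _ ≤ _ := by gcongr
      refine (Finset.sum_le_sum h2).trans ?_
      rw [← Finset.mul_sum, ← Finset.mul_sum, Finset.sum_add_distrib, ← Finset.sum_mul,
        Finset.sum_const, Finset.card_range, nsmul_eq_mul]
      apply mul_le_mul_of_nonneg_left _ hNpos.le
      have h3 : (∑ j ∈ Finset.range (J + 1), q ^ j) ≤ 2 * q ^ J := sum_geom_le hq2r J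
      push_cast
      calc (b : ℝ) * ((∑ j ∈ Finset.range (J + 1), q ^ j) * Hm + ((J : ℝ) + 1) * C)
          ≤ b * ((2 * q ^ J) * Hm + ((J : ℝ) + 1) * C) := by gcongr
        _ = _ := by ring
    have h2 : Real.log (M.factorial) ≤ M * Real.log M := EData.log_factorial_le M
    calc ∑ i : Fin M, ∑ j ∈ Finset.range (J + 1), (b : ℝ) *
          Height.logHeight ((gAct F N)^[j] (Z (y i))) + Module.finrank ℚ N * Real.log (M.factorial)
        ≤ ∑ _i : Fin M, (Module.finrank ℚ N *
            (2 * b * q ^ J * Hm + b * C * ((J : ℝ) + 1)) : ℝ) +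
            Module.finrank ℚ N * (M * Real.log M) := by
          gcongr with i _
          exact h1 i
      _ = _ := by
          rw [Finset.sum_const, Finset.card_univ, Fintype.card_fin, nsmul_eq_mul]
          ring
  have hmain := (hleft.trans hen).trans hright
  exact le_of_mul_le_mul_left hmain (by positivity)

end main

end Pool.DynLehmer
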