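import Mathlib
import Pool.Agent.Lib.MP_2194ec_nt.PlC
import Pool.Agent.Lib.MP_2194ec_nt.PlG

set_option autoImplicit false

/-!
# Points of a plane curve of small degree: the parameters
-/

namespace Pool.DynLehmer
open MvPolynomial NumberField Filter Topology
open scoped Classical LinearAlgebra.Projectivization

section small

variable {N : Type} [Field N] [NumberField N]
variable {K : Type} [Field K] [NumberField K] [Algebra K N]
variable {p s : ℕ} {v : FinitePlace K} {w : FinitePlace N} {e : ℕ} (Φ : GF (OW v) p s (Fin 3))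

theorem small_at (h : Above v w e) (hϖ : v (Φ.ϖ : K) < 1)
    (F : Fin 3 → MvPolynomial (Fin 3) K) (hΦF : ∀ i, map (OW v).subtype (Φ.F i) = F i)
    {G g' : MvPolynomial (Fin 3) (OW v)} {g : MvPolynomial (Fin 3) K} {c : K} {w0 j : ℕ}
    (hg : g.IsHomogeneous w0) (hg' : map (OW v).subtype g' = C c * g)
    (hG : ∀ (B : Type) [CommRing B] (χ : OW v →+* B) (u : Fin 3 → B), eval₂ χ u g' = 0 →
        χ Φ.ϖ ∣ eval₂ χ ((Φ.map χ).act^[j] u) G)
    {R : Fin 3 → N} (hR : R ≠ 0) (hgR : aeval R g = 0) (σ : N ≃ₐ[K] N) :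
    SmallAt Φ G h (gal σ ((gAct F N)^[j] R)) := by
  have hR' : gal σ R ≠ 0 := gal_ne σ hR
  obtain ⟨a, u, ha, hau, hu⟩ := gexists_prim (w := w) hR'
  have h1 : aeval (gal σ R) g = 0 := by rw [aeval_gal, hgR, map_zero]
  have h2 : aeval (fun l => (u l : N)) g = 0 := by
    rw [hau, aeval_smul_hom hg] at h1
    exact (mul_eq_zero.1 h1).resolve_left (pow_ne_zero _ ha)
  have h3 : eval₂ (toOW h) u g' = 0 := by
    apply Subtype.val_injective
    have h4 : ((eval₂ (toOW h) u g' : OW w) : N) =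
        eval₂ ((OW w).subtype.comp (toOW h)) (fun l => (u l : N)) g' := by
      have := eval₂_comp_left (OW w).subtype (toOW h) u g'
      exact this
    have h5 : eval₂ ((OW w).subtype.comp (toOW h)) (fun l => (u l : N)) g' =
        aeval (fun l => (u l : N)) (map (OW v).subtype g') := by
      rw [aeval_def, eval₂_map]
      rfl
    rw [h4, h5, hg', map_mul, h2, mul_zero]
    rfl
  have hact : (Φ.map (toN v N)).act = gAct F N := gact_eq_aeval Φ F hΦF N
  refine ⟨a ^ ((p ^ s) ^ j), (Φ.map (toOW h)).act^[j] u, pow_ne_zero _ ha, ?_,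
    prim_act_iter Φ h hϖ j u hu, hG _ (toOW h) u h3⟩
  rw [← gal_act, hau, ← hact, GF.act_iter_smul, ← gcoe_act_iter Φ h]

end small

theorem exists_C3 {lam C6 C7 : ℝ} (hlam : 0 < lam) (h6 : 0 ≤ C6) (h7 : 0 ≤ C7) :
    ∃ C3 : ℕ, 1 ≤ C3 ∧ C6 + C7 * Real.log C3 ≤ lam / 8 * C3 := by
  obtain ⟨n, hn⟩ := exists_nat_ge (max 1 (8 * (C6 + 2 * C7) / lam))
  have hn1 : (1 : ℝ) ≤ n := (le_max_left _ _).trans hn
  have hn2 : 8 * (C6 + 2 * C7) / lam ≤ n := (le_max_right _ _).trans hn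
  have hn3 : 1 ≤ n := by exact_mod_cast hn1
  refine ⟨n ^ 2, Nat.one_le_pow _ _ hn3, ?_⟩
  push_cast
  rw [Real.log_pow]
  have h1 : Real.log n ≤ n := by
    have := Real.log_le_sub_one_of_pos (show (0 : ℝ) < n by linarith)
    linarith
  rw [div_le_iff₀ hlam] at hn2
  push_cast
  have h2 : C6 ≤ C6 * n := le_mul_of_one_le_right h6 hn1
  calc C6 + C7 * (2 * Real.log n) ≤ C6 * n + C7 * (2 * n) := by gcongr
    _ = (C6 + 2 * C7) * n := by ring
    _ ≤ lam / 8 * (n : ℝ) ^ 2 := by nlinarith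

theorem dl_bounds {b q : ℕ} (hb : 1 ≤ b) (hq : 2 ≤ q) (J : ℕ) :
    q ^ J ≤ dl b q J ∧ dl b q J ≤ 2 * b * q ^ J := by
  constructor
  · rw [dl_eq]
    calc q ^ J ≤ q ^ J * b := Nat.le_mul_of_pos_right _ hb
      _ ≤ _ := Finset.single_le_sum (f := fun j => q ^ j * b) (fun _ _ => Nat.zero_le _)
          (Finset.mem_range.2 (Nat.lt_succ_self J))
  · have h1 := sum_geom_le (show (2 : ℝ) ≤ (q : ℝ) by exact_mod_cast hq) J
    rw [dl_eq, ← Finset.sum_mul]
    have h2 : (∑ j ∈ Finset.range (J + 1), q ^ j) ≤ 2 * q ^ J := by exact_mod_cast h1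
    calc (∑ j ∈ Finset.range (J + 1), q ^ j) * b ≤ (2 * q ^ J) * b := Nat.mul_le_mul_right _ h2
      _ = _ := by ring

end Pool.DynLehmer
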