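import Mathlib
import Pool.Agent.Lib.MP_2194ec_nt.PlE
import Pool.Agent.Lib.MP_2194ec_nt.PlF
import Pool.Agent.Lib.MP_2194ec_nt.PlH
import Pool.Agent.Lib.MP_2194ec_nt.PlI

set_option autoImplicit false

/-!
# The height of points on plane curves which are not preperiodic
-/

namespace Pool.DynLehmer
open MvPolynomial NumberField Filter Topology
open scoped Classical LinearAlgebra.Projectivization

section planeB

variable {K : Type} [Field K] [NumberField K] {p s : ℕ}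

/-- **The curve case.** -/
theorem planeB (hp : p.Prime) (hs : 1 ≤ s) (v : FinitePlace K)
    (Φ : GF (OW v) p s (Fin 3)) (hϖ : v (Φ.ϖ : K) < 1) (hϖ0 : (Φ.ϖ : K) ≠ 0)
    (hmax : ∀ a : K, v a < 1 → v a ≤ v (Φ.ϖ : K))
    (F : Fin 3 → MvPolynomial (Fin 3) K) (hF : ∀ i, (F i).IsHomogeneous (p ^ s))
    (hz : ∀ z : Fin 3 → AlgebraicClosure K, (∀ i, aeval z (F i) = 0) → z = 0)
    (hΦF : ∀ i, map (OW v).subtype (Φ.F i) = F i) (m' : ℕ) (hm' : 1 ≤ m') :
    ∃ C1 C2 : ℕ, ∀ (N : Type) [Field N] [NumberField N] [Algebra K N] [IsGalois K N]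
      (S : Finset (FinitePlace N)) (e : FinitePlace N → ℕ), (∀ w ∈ S, Above v w (e w)) →
      (Module.finrank K N ≤ m' * ∑ w ∈ S, e w) →
      ∀ (R : Fin 3 → N), R ≠ 0 → ∀ (g : MvPolynomial (Fin 3) K) (w0 : ℕ), 1 ≤ w0 →
      g.IsHomogeneous w0 → Prime g → aeval R g = 0 →
      C2 * w0 ^ C2 ≤ idx (⊤ : Subgroup (N ≃ₐ[K] N)) R →
      ∀ h : ℝ, Tendsto (fun n : ℕ => Height.logHeight ((gAct F N)^[n] R) /
        (Module.finrank ℚ N : ℝ) / ((p ^ s : ℕ) : ℝ) ^ n) atTop (𝓝 h) →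
      (1 ≤ (C1 : ℝ) * (w0 : ℝ) ^ C1 * h) ∨
      ∃ l l' : ℕ, l < l' ∧ ∃ (f : MvPolynomial (Fin 3) K) (n : ℕ), f.IsHomogeneous n ∧
        Prime f ∧ g ∣ (bind₁ F)^[l] f ∧ g ∣ (bind₁ F)^[l'] f := by
  have hq2 : 2 ≤ p ^ s := hp.two_le.trans (Nat.le_self_pow (by omega) p)
  have hq2r : (2 : ℝ) ≤ ((p ^ s : ℕ) : ℝ) := by exact_mod_cast hq2
  obtain ⟨k0, hk01, hk0⟩ := exists_goodJ Φ hϖ hp
  obtain ⟨C, hC0, hC⟩ := height_morphism F (p ^ s) hF hz
  obtain ⟨b, hb1, hb⟩ := span_adapted F (p ^ s) hF hz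
  set Λ : ℝ := - Real.log (v (Φ.ϖ : K)) with hΛ
  have hΛ0 : 0 < Λ := neg_pos.2 (Real.log_neg (FinitePlace.pos_iff.2 hϖ0) hϖ)
  have hKpos : (0 : ℝ) < Module.finrank ℚ K := by exact_mod_cast Module.finrank_pos
  have hmpos : (0 : ℝ) < m' := by exact_mod_cast hm'
  set qn : ℕ := p ^ s with hqn
  set q : ℝ := ((p ^ s : ℕ) : ℝ) with hq
  have hq0 : 0 < q := by linarith
  set lam : ℝ := Λ / (m' * Module.finrank ℚ K) with hlam
  have hlam0 : 0 < lam := by positivity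
  have hbpos : (0 : ℝ) < b := by exact_mod_cast hb1
  have hb1r : (1 : ℝ) ≤ b := by exact_mod_cast hb1
  have hlog2q : 0 ≤ Real.log (2 * q) := Real.log_nonneg (by linarith)
  have hlog8bq : 0 ≤ Real.log (8 * b * q) := Real.log_nonneg (by nlinarith)
  set C6 : ℝ := b * C * (5 + 2 * Real.log (2 * q)) + 2 * Real.log (8 * b * q) + 4 with hC6
  set C7 : ℝ := 2 * b * C + 2 with hC7
  have hC60 : 0 ≤ C6 := by positivity
  have hC70 : 0 ≤ C7 := by positivity
  obtain ⟨C3, hC31, hC3⟩ := exists_C3 hlam0 hC60 hC70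
  set c' : ℕ := (qn ^ k0) ^ (4 * b * qn * C3) with hc'
  set C2' : ℕ := 8 * b * qn * C3 * qn ^ k0 * 2 ^ c' with hC2'
  obtain ⟨C1', hC1'⟩ := exists_nat_ge (32 * b * q * q ^ k0 * 2 ^ c' / lam)
  refine ⟨C1' + c' + 2, C2' + c' + 5, ?_⟩
  intro N _ _ _ _ S e hS hcard R hR g w0 hw0 hg hgp hgR hidx h hlimR
  by_cases hnp : ∃ l l' : ℕ, l < l' ∧ ∃ (f : MvPolynomial (Fin 3) K) (n : ℕ),
      f.IsHomogeneous n ∧ Prime f ∧ g ∣ (bind₁ F)^[l] f ∧ g ∣ (bind₁ F)^[l'] f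
  · exact Or.inr hnp
  left
  have hfd : FiniteDimensional K N := Module.Finite.of_restrictScalars_finite ℚ K N
  have hNpos : (0 : ℝ) < Module.finrank ℚ N := by exact_mod_cast Module.finrank_pos
  -- heights on `N`
  set H : (Fin 3 → N) → ℝ := fun z => Height.logHeight z / (Module.finrank ℚ N : ℝ) with hH
  have hHact : ∀ z, |H (gAct F N z) - q * H z| ≤ C := by
    intro z
    simp only [hH]
    have h5 : Height.logHeight (gAct F N z) / (Module.finrank ℚ N : ℝ) -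
        q * (Height.logHeight z / Module.finrank ℚ N) =
        (Height.logHeight (gAct F N z) - q * Height.logHeight z) / Module.finrank ℚ N := by
      field_simp
    rw [h5, abs_div, abs_of_pos hNpos, div_le_iff₀ hNpos]
    exact hC N z
  obtain ⟨hh, hlim, -, hdiff, hmul, -⟩ := commuting_heights H (gAct F N) (gAct F N)
    (fun _ => rfl) hq2r hq2r hHact hHact
  have hmuln : ∀ (n : ℕ) z, hh ((gAct F N)^[n] z) = q ^ n * hh z := by
    intro n z
    induction n with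
    | zero => simp
    | succ n ih => rw [Function.iterate_succ_apply', hmul, ih, pow_succ]; ring
  have hhR : hh R = h := tendsto_nhds_unique (hlim R) hlimR
  have hhnn : ∀ z, 0 ≤ hh z := fun z =>
    ge_of_tendsto' (hlim z) fun n => div_nonneg (div_nonneg (Height.logHeight_nonneg _)
      (Nat.cast_nonneg _)) (pow_nonneg hq0.le _)
  have hhgal : ∀ (σ : N ≃ₐ[K] N) (P : Fin 3 → N), hh (gal σ P) = hh P := by
    intro σ P
    refine tendsto_nhds_unique (hlim (gal σ P)) ((hlim P).congr fun n => ?_)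
    rw [gal_act F σ n P]
    simp only [hH]
    rw [show Height.logHeight (gal σ ((gAct F N)^[n] P)) / (Module.finrank ℚ N : ℝ) =
      Height.logHeight ((gAct F N)^[n] P) / (Module.finrank ℚ N : ℝ) from
      logHeight_hom (σ : N →+* N) _]
  -- the parameters
  set ℓ : ℕ := Nat.log 2 w0 + 1 with hℓ
  have hℓ1 : 1 ≤ ℓ := by omega
  have hwℓ : w0 ≤ 2 ^ ℓ := (Nat.lt_pow_succ_log_self (by norm_num) w0).le
  have hℓw : 2 ^ ℓ ≤ 2 * w0 := by
    rw [hℓ, pow_succ, mul_comm]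
    exact Nat.mul_le_mul_left _ (Nat.pow_log_le_self 2 (by omega))
  have hℓ2 : ℓ ≤ 2 ^ ℓ := (Nat.lt_two_pow_self).le
  set L1 : ℕ := C3 * ℓ with hL1
  have hL11 : 1 ≤ L1 := Nat.mul_pos hC31 hℓ1
  obtain ⟨d, G, g', c, hc, hg', hd1, hdw, hGh, hGm, hval, hdeg⟩ :=
    curve_local Φ hϖ hϖ0 hp hmax F hΦF MonomialOrder.lex hg hgp.ne_zero hw0
  obtain ⟨J, hJ1, hJ2⟩ := exists_pow_between hq2 (show 1 ≤ 2 * d * L1 from
    Nat.mul_pos (Nat.mul_pos two_pos hd1) hL11)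
  set T := dl b qn J with hT
  obtain ⟨hT1, hT2⟩ := dl_bounds hb1 hq2 J
  rw [← hT] at hT1 hT2
  have hTlow : 2 * (L1 * d) ≤ T := by
    calc 2 * (L1 * d) = 2 * d * L1 := by ring
      _ ≤ qn ^ J := hJ1
      _ ≤ T := hT1
  have hTup : T ≤ 4 * b * qn * L1 * d := by
    calc T ≤ 2 * b * qn ^ J := hT2
      _ ≤ 2 * b * (qn * (2 * d * L1)) := Nat.mul_le_mul_left _ hJ2
      _ = _ := by ring
  set L : ℕ := 4 * b * qn * L1 + 1 with hL
  have hTL : T < L * d := by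
    calc T ≤ 4 * b * qn * L1 * d := hTup
      _ < (4 * b * qn * L1 + 1) * d := by
        rw [add_mul, one_mul]; omega
  have hqk2 : 2 ≤ qn ^ k0 := hq2.trans (Nat.le_self_pow (by omega) _)
  obtain ⟨a0, ha01, ha02⟩ := exists_pow_between hqk2 hw0
  set Jl : ℕ → ℕ := fun l => k0 * (a0 + l) with hJl
  have hJlgood : ∀ l, GoodJ Φ (Jl l) := fun l => hk0 _ (Dvd.intro _ rfl)
  have hJlmono : ∀ l l', l < l' → Jl l < Jl l' := by
    intro l l' hll
    exact Nat.mul_lt_mul_of_pos_left (by omega) hk01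
  have hJlow : ∀ l, w0 ≤ qn ^ Jl l := by
    intro l
    calc w0 ≤ (qn ^ k0) ^ a0 := ha01
      _ ≤ (qn ^ k0) ^ (a0 + l) := Nat.pow_le_pow_right (by omega) (by omega)
      _ = qn ^ Jl l := (pow_mul qn k0 (a0 + l)).symm
  set Q : ℕ := qn ^ k0 * w0 * (2 * w0) ^ c' with hQ
  have hJup : ∀ l < L, qn ^ Jl l ≤ Q := by
    intro l hl
    have h1 : (qn ^ k0) ^ l ≤ (2 * w0) ^ c' := by
      calc (qn ^ k0) ^ l ≤ (qn ^ k0) ^ (4 * b * qn * L1) :=
            Nat.pow_le_pow_right (by omega) (by omega)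
        _ = ((qn ^ k0) ^ (4 * b * qn * C3)) ^ ℓ := by
            rw [← pow_mul (qn ^ k0), hL1]
            congr 1
            ring
        _ ≤ (2 ^ c') ^ ℓ := by
            apply Nat.pow_le_pow_left
            rw [← hc']
            exact (Nat.lt_two_pow_self).le
        _ = (2 ^ ℓ) ^ c' := by rw [← pow_mul 2 c', ← pow_mul 2 ℓ, mul_comm]
        _ ≤ (2 * w0) ^ c' := Nat.pow_le_pow_left hℓw _
    calc qn ^ Jl l = (qn ^ k0) ^ a0 * (qn ^ k0) ^ l := by
          rw [← pow_add (qn ^ k0)]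
          exact pow_mul qn k0 (a0 + l)
      _ ≤ (qn ^ k0 * w0) * (2 * w0) ^ c' := Nat.mul_le_mul ha02 h1
      _ = Q := by rw [hQ]
  have hTw : T ≤ 8 * b * qn * C3 * w0 ^ 2 := by
    calc T ≤ 4 * b * qn * L1 * d := hTup
      _ = 4 * b * qn * C3 * (ℓ * d) := by rw [hL1]; ring
      _ ≤ 4 * b * qn * C3 * ((2 * w0) * w0) := by
          apply Nat.mul_le_mul_left
          exact Nat.mul_le_mul (hℓ2.trans hℓw) hdw
      _ = _ := by ring
  have hbig0 : w0 * (T * Q) < idx (⊤ : Subgroup (N ≃ₐ[K] N)) R := by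
    have h1 : w0 * (T * Q) ≤ C2' * w0 ^ (c' + 4) := by
      calc w0 * (T * Q) ≤ w0 * ((8 * b * qn * C3 * w0 ^ 2) * Q) := by gcongr
        _ = C2' * w0 ^ (c' + 4) := by
            rw [hQ, hC2', mul_pow]; ring
    have h2 : C2' * w0 ^ (c' + 4) < (C2' + c' + 5) * w0 ^ (C2' + c' + 5) := by
      have h3 : w0 ^ (c' + 4) ≤ w0 ^ (C2' + c' + 5) := Nat.pow_le_pow_right hw0 (by omega)
      have h4 : 0 < w0 ^ (c' + 4) := pow_pos hw0 _
      calc C2' * w0 ^ (c' + 4) < (C2' + c' + 5) * w0 ^ (c' + 4) :=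
            Nat.mul_lt_mul_of_pos_right (by omega) h4
        _ ≤ _ := Nat.mul_le_mul_left _ h3
    omega
  -- the points
  set Z : (N ≃ₐ[K] N) × Fin L → Fin 3 → N := fun x =>
    gal x.1 ((gAct F N)^[Jl x.2] R) with hZ
  have hZ0 : ∀ x, Z x ≠ 0 := fun x => gal_ne _ (gAct_iter_ne F hF hz _ _ hR)
  have hnoK : ∀ A : MvPolynomial (Fin 3) K, A.IsHomogeneous T →
      (∀ l : Fin L, aeval ((gAct F N)^[Jl l] R) A = 0) → A = 0 := by
    intro A hA hv
    refine no_form F hF hR hg hgp hgR Jl hJlmono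
      (fun l hl bb f hf hf0 hgf => hdeg _ (hJlgood l) bb f hf hf0 hgf) hnp hTL ?_ hA
      (fun l hl => hv ⟨l, hl⟩)
    intro l hl
    refine lt_of_le_of_lt ?_ hbig0
    exact Nat.mul_le_mul_left _ (Nat.mul_le_mul_left _ (hJup l hl))
  have hno : ∀ f : MvPolynomial (Fin 3) N, f.IsHomogeneous T →
      (∀ x, eval (Z x) f = 0) → f = 0 := by
    intro f hf hv
    exact no_form_N (fun l : Fin L => (gAct F N)^[Jl l] R) hnoK hf
      (fun σ l => hv (σ, l))
  have hsmall : ∀ w (hw : w ∈ S), ∀ x, SmallAt Φ G (hS w hw) (Z x) := by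
    intro w hw x
    exact small_at Φ (hS w hw) hϖ F hΦF hg hg'
      (fun B _ χ u hu => hval _ (hJlgood x.2) (hJlow x.2) B χ u hu) hR hgR x.1
  have hQ0 : (0 : ℝ) ≤ Q := Nat.cast_nonneg _
  have hHm : ∀ x, hh (Z x) ≤ Q * h := by
    intro x
    rw [hZ]
    simp only
    rw [hhgal, hmuln, hhR]
    have h1 : q ^ Jl x.2 ≤ Q := by
      rw [hq]; exact_mod_cast hJup x.2 x.2.2
    have h2 : 0 ≤ h := by rw [← hhR]; exact hhnn R
    gcongr
  have hh0 : 0 ≤ h := by rw [← hhR]; exact hhnn R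
  have hmain := curve_main hp hs v Φ hϖ hϖ0 F hF hz hΦF hb1 hb hm' hh hdiff hmul S e hS hcard
    MonomialOrder.lex hGh hGm (J := J) (k := L1) hTlow Z hZ0 hno hsmall
    (mul_nonneg hQ0 hh0) hHm
  rw [← hΛ, ← hlam, ← hq] at hmain
  rw [← hT] at hmain
  -- the error terms
  have hqq : q = (qn : ℝ) := rfl
  have hqJ : q ^ J ≤ 2 * q * d * L1 := by
    rw [hqq]
    have h1 : qn ^ J ≤ 2 * qn * d * L1 := hJ2.trans (le_of_eq (by ring))
    exact_mod_cast h1
  have hℓr : (1 : ℝ) ≤ ℓ := by exact_mod_cast hℓ1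
  have hC3r : (1 : ℝ) ≤ C3 := by exact_mod_cast hC31
  have hlogC3 : 0 ≤ Real.log C3 := Real.log_nonneg hC3r
  have hdr : (1 : ℝ) ≤ d := by exact_mod_cast hd1
  have hdw' : (d : ℝ) ≤ w0 := by exact_mod_cast hdw
  have hwr : (1 : ℝ) ≤ w0 := by exact_mod_cast hw0
  have hlog2 : Real.log 2 ≤ 1 := by linarith [Real.log_two_lt_d9]
  have hdL : Real.log (d * L1) ≤ 2 * ℓ + Real.log C3 := by
    have h1 : (d : ℝ) * L1 ≤ 2 ^ ℓ * (C3 * 2 ^ ℓ) := by
      have h2 : d * L1 ≤ 2 ^ ℓ * (C3 * 2 ^ ℓ) := by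
        rw [hL1]
        exact Nat.mul_le_mul (hdw.trans hwℓ) (Nat.mul_le_mul_left _ hℓ2)
      exact_mod_cast h2
    have h3 : (0 : ℝ) < d * L1 := by
      have : (1 : ℝ) ≤ L1 := by exact_mod_cast hL11
      positivity
    have h4 := Real.log_le_log h3 h1
    have h6 : Real.log (2 ^ ℓ * (C3 * 2 ^ ℓ)) = ℓ * Real.log 2 +
        (Real.log C3 + ℓ * Real.log 2) := by
      rw [Real.log_mul (by positivity) (by positivity),
        Real.log_mul (by positivity) (by positivity), Real.log_pow]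
    have h5 : (ℓ : ℝ) * Real.log 2 ≤ ℓ * 1 := by gcongr
    linarith
  have hL1r : (1 : ℝ) ≤ L1 := by exact_mod_cast hL11
  have hJb : (J : ℝ) + 1 ≤ ℓ * (5 + 2 * Real.log (2 * q) + 2 * Real.log C3) := by
    have h1 : (J : ℝ) * Real.log q ≤ Real.log (2 * q) + (2 * ℓ + Real.log C3) := by
      rw [← Real.log_pow]
      have h2 : Real.log (q ^ J) ≤ Real.log (2 * q * (d * L1)) := by
        apply Real.log_le_log (by positivity)
        linarith
      rw [Real.log_mul (by positivity) (by positivity)] at h2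
      linarith
    have h2 : (1 / 2 : ℝ) ≤ Real.log q := by
      have h3 : Real.log 2 ≤ Real.log q := Real.log_le_log (by norm_num) hq2r
      linarith [Real.log_two_gt_d9]
    have h3 : (J : ℝ) * (1 / 2) ≤ J * Real.log q := by gcongr
    have h4 : (J : ℝ) ≤ 2 * (Real.log (2 * q) + (2 * ℓ + Real.log C3)) := by linarith
    nlinarith
  have hMb : Real.log ((T + 2).choose 2 : ℕ) ≤
      ℓ * (2 * Real.log (8 * b * q) + 4 + 2 * Real.log C3) := by
    have hM1 : (((T + 2).choose 2 : ℕ) : ℝ) ≤ ((T : ℝ) + 1) ^ 2 := by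
      have h1 := two_choose T
      have h2 : (T + 2).choose 2 ≤ (T + 1) ^ 2 := by nlinarith
      exact_mod_cast h2
    have hTr : (T : ℝ) + 1 ≤ 8 * b * q * (d * L1) := by
      have h1 : (T : ℝ) ≤ 4 * b * q * L1 * d := by
        rw [hqq]; exact_mod_cast hTup
      have h2 : (1 : ℝ) ≤ 4 * b * q * L1 * d := by
        have h3 : 1 ≤ 4 * b * qn * L1 * d := Nat.mul_pos (Nat.mul_pos (Nat.mul_pos
          (Nat.mul_pos (by norm_num) hb1) (by omega)) hL11) hd1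
        rw [hqq]; exact_mod_cast h3
      linarith
    have hM2 : (0 : ℝ) < ((T + 2).choose 2 : ℕ) := by
      exact_mod_cast Nat.choose_pos (by omega)
    have h1 : Real.log ((T + 2).choose 2 : ℕ) ≤ 2 * Real.log ((T : ℝ) + 1) := by
      have := Real.log_le_log hM2 hM1
      rwa [Real.log_pow, Nat.cast_ofNat] at this
    have h2 : Real.log ((T : ℝ) + 1) ≤ Real.log (8 * b * q) + (2 * ℓ + Real.log C3) := by
      have h3 := Real.log_le_log (show (0 : ℝ) < (T : ℝ) + 1 by positivity) hTr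
      rw [Real.log_mul (by positivity) (by positivity)] at h3
      linarith
    nlinarith
  have herr : b * C * ((J : ℝ) + 1) + Real.log ((T + 2).choose 2 : ℕ) ≤ lam / 8 * L1 := by
    have h1 : b * C * ((J : ℝ) + 1) ≤
        b * C * (ℓ * (5 + 2 * Real.log (2 * q) + 2 * Real.log C3)) := by gcongr
    have h2 : b * C * (ℓ * (5 + 2 * Real.log (2 * q) + 2 * Real.log C3)) +
        ℓ * (2 * Real.log (8 * b * q) + 4 + 2 * Real.log C3) =
        ℓ * (C6 + C7 * Real.log C3) := by rw [hC6, hC7]; ring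
    have h3 : (ℓ : ℝ) * (C6 + C7 * Real.log C3) ≤ ℓ * (lam / 8 * C3) := by gcongr
    have h4 : (ℓ : ℝ) * (lam / 8 * C3) = lam / 8 * L1 := by rw [hL1]; push_cast; ring
    linarith
  have h10 : lam / 8 * L1 ≤ 2 * b * q ^ J * (Q * h) := by
    linarith
  have h11 : lam / 8 * L1 ≤ (4 * b * q * w0 * (Q * h)) * L1 := by
    have h12 : 0 ≤ Q * h := mul_nonneg hQ0 hh0
    calc lam / 8 * L1 ≤ 2 * b * q ^ J * (Q * h) := h10
      _ ≤ 2 * b * (2 * q * d * L1) * (Q * h) := by gcongr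
      _ ≤ 2 * b * (2 * q * w0 * L1) * (Q * h) := by gcongr
      _ = _ := by ring
  have h12 : lam / 8 ≤ 4 * b * q * w0 * (Q * h) := le_of_mul_le_mul_right h11 (by linarith)
  have h13 : (1 : ℝ) ≤ (32 * b * q * q ^ k0 * 2 ^ c' / lam) * (w0 : ℝ) ^ (c' + 2) * h := by
    have h14 : 4 * b * q * w0 * (Q * h) =
        lam / 8 * ((32 * b * q * q ^ k0 * 2 ^ c' / lam) * (w0 : ℝ) ^ (c' + 2) * h) := by
      have hQr : (Q : ℝ) = q ^ k0 * w0 * (2 * w0) ^ c' := by
        rw [hQ, hqq]; push_cast; ring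
      rw [hQr, mul_pow]
      field_simp
      ring
    rw [h14] at h12
    have h15 : 0 < lam / 8 := by positivity
    by_contra hcon
    push Not at hcon
    nlinarith
  refine h13.trans ?_
  have h16 : (w0 : ℝ) ^ (c' + 2) ≤ (w0 : ℝ) ^ (C1' + c' + 2) :=
    pow_le_pow_right₀ hwr (by omega)
  have h17 : 32 * b * q * q ^ k0 * 2 ^ c' / lam ≤ ((C1' + c' + 2 : ℕ) : ℝ) := by
    push_cast
    have : (0 : ℝ) ≤ c' := Nat.cast_nonneg _
    linarith
  gcongr

end planeB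

end Pool.DynLehmer
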