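import Mathlib
import Pool.Agent.Lib.MP_2194ec_nt.PlD
import Pool.Agent.Lib.MP_2194ec_nt.PlF

set_option autoImplicit false

/-!
# Uniqueness of the image of a plane curve
-/

namespace Pool.DynLehmer
open MvPolynomial NumberField
open scoped Classical LinearAlgebra.Projectivization

section dim

variable {K : Type} [Field K]

/-- the space of values of forms modulo `g` grows -/
theorem growth_mod {g : MvPolynomial (Fin 3) K} {w : ℕ} (hw : 1 ≤ w) (hg : g.IsHomogeneous w)
    (hg0 : g ≠ 0) (t : ℕ) :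
    t + 1 ≤ Module.finrank K ((homogeneousSubmodule (Fin 3) K t).map
      (Ideal.Quotient.mkₐ K (Ideal.span {g})).toLinearMap) := by
  set φ := (Ideal.Quotient.mkₐ K (Ideal.span {g})).toLinearMap with hφ
  have h1 := rank_null φ t
  have h2 : Module.finrank K (homogeneousSubmodule (Fin 3) K t ⊓ LinearMap.ker φ :
      Submodule K (MvPolynomial (Fin 3) K)) ≤ (t + 1).choose 2 := by
    have hker : ∀ x, x ∈ LinearMap.ker φ → g ∣ x := by
      intro x hx
      have h3 : Ideal.Quotient.mk (Ideal.span {g}) x = 0 := hx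
      rw [Ideal.Quotient.eq_zero_iff_mem, Ideal.mem_span_singleton] at h3
      exact h3
    rcases Nat.lt_or_ge t w with h3 | h3
    · have h4 : (homogeneousSubmodule (Fin 3) K t ⊓ LinearMap.ker φ :
          Submodule K (MvPolynomial (Fin 3) K)) = ⊥ := by
        rw [eq_bot_iff]
        rintro x ⟨hx1, hx2⟩
        rw [Submodule.mem_bot]
        by_contra hx0
        have hxh := (mem_homogeneousSubmodule _ _).1 hx1
        obtain ⟨y, rfl⟩ := hker x hx2
        have := (hom_quot hxh hg hx0).1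
        omega
      rw [h4, finrank_bot]
      exact Nat.zero_le _
    · have h4 : (homogeneousSubmodule (Fin 3) K t ⊓ LinearMap.ker φ :
          Submodule K (MvPolynomial (Fin 3) K)) ≤
          (homogeneousSubmodule (Fin 3) K (t - w)).map (mulL g) := by
        rintro x ⟨hx1, hx2⟩
        by_cases hx0 : x = 0
        · rw [hx0]; exact Submodule.zero_mem _
        have hxh := (mem_homogeneousSubmodule _ _).1 hx1
        obtain ⟨y, rfl⟩ := hker x hx2
        refine ⟨y, ?_, rfl⟩
        rw [SetLike.mem_coe, mem_homogeneousSubmodule]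
        exact (hom_quot hxh hg hx0).2
      have h5 := Submodule.finrank_mono h4
      rw [finrank_map_mul hg0, finrank_hom] at h5
      refine h5.trans ?_
      exact Nat.choose_le_choose 2 (by omega)
  have h3 := two_choose t
  have h4 : 2 * (t + 1).choose 2 = (t + 1) * t := by
    rcases Nat.eq_zero_or_pos t with h5 | h5
    · rw [h5]; rfl
    · have := two_choose (t - 1)
      rw [show t - 1 + 2 = t + 1 by omega, show t - 1 + 1 = t by omega] at this
      exact this
  nlinarith

/-- dimension of a sum of multiples -/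
theorem finrank_sum_mul_le {A : Type} [CommRing A] [Algebra K A] (V : Submodule K A)
    [FiniteDimensional K V] {ι : Type} (S : Finset ι) (x : ι → A) {W : Submodule K A}
    (hW : ∀ y ∈ W, ∃ c : ι → A, (∀ i ∈ S, c i ∈ V) ∧ y = ∑ i ∈ S, x i * c i) :
    Module.finrank K W ≤ S.card * Module.finrank K V := by
  have h1 : W ≤ LinearMap.range (∑ i : S, (LinearMap.mulLeft K (x i)).comp
      (V.subtype.comp (LinearMap.proj (R := K) (φ := fun _ : S => V) i))) := by
    intro y hy
    obtain ⟨c, hc, rfl⟩ := hW y hy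
    refine ⟨fun i => ⟨c i, hc i i.2⟩, ?_⟩
    rw [LinearMap.sum_apply, ← Finset.sum_coe_sort S]
    refine Finset.sum_congr rfl fun i _ => ?_
    rfl
  refine (Submodule.finrank_mono h1).trans ((LinearMap.finrank_range_le _).trans ?_)
  rw [Module.finrank_pi_fintype]
  simp

end dim

section image

variable {K : Type} [Field K] [NumberField K]

omit [NumberField K] in
theorem exists_decomp (F : Fin 3 → MvPolynomial (Fin 3) K) {b d : ℕ}
    (hF : ∀ i, (F i).IsHomogeneous d) (J : ℕ) (G : MvPolynomial (Fin 3) K)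
    (hG : G ∈ Submodule.span K {Q : MvPolynomial (Fin 3) K | ∃ μ : ℕ → (Fin 3 →₀ ℕ),
        (∀ j, (μ j).degree = b) ∧ Q = gQ F (J + 1) μ}) :
    ∃ c : (Fin 3 →₀ ℕ) → MvPolynomial (Fin 3) K, (∀ β, (c β).IsHomogeneous (dl b d J)) ∧
      G = ∑ β ∈ mons b, monomial β 1 * bind₁ F (c β) := by
  induction hG using Submodule.span_induction with
  | mem x hx =>
    obtain ⟨μ, hμ, rfl⟩ := hx
    refine ⟨fun β => if β = μ 0 then gQ F J (fun j => μ (j + 1)) else 0, ?_, ?_⟩
    · intro β
      simp only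
      split_ifs
      · exact gQ_hom F hF J _ fun j => hμ (j + 1)
      · exact isHomogeneous_zero _ _ _
    · rw [Finset.sum_eq_single (μ 0)]
      · simp only [if_true]; rfl
      · intro β _ hβ
        simp only [if_neg hβ, map_zero, mul_zero]
      · intro h
        exact absurd (mem_mons.2 (hμ 0)) h
  | zero => exact ⟨0, fun β => isHomogeneous_zero _ _ _, by simp⟩
  | add x y _ _ hx hy =>
    obtain ⟨c1, h1, e1⟩ := hx
    obtain ⟨c2, h2, e2⟩ := hy
    refine ⟨fun β => c1 β + c2 β, fun β => (h1 β).add (h2 β), ?_⟩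
    rw [e1, e2, ← Finset.sum_add_distrib]
    refine Finset.sum_congr rfl fun β _ => ?_
    rw [map_add, mul_add]
  | smul a x _ hx =>
    obtain ⟨c1, h1, e1⟩ := hx
    refine ⟨fun β => C a * c1 β, fun β => (h1 β).C_mul _, ?_⟩
    rw [e1, smul_eq_C_mul, Finset.mul_sum]
    refine Finset.sum_congr rfl fun β _ => ?_
    rw [map_mul, bind₁_C_right]
    ring

theorem le_dl {b d : ℕ} (hb : 1 ≤ b) (hd : 1 ≤ d) (J : ℕ) : J + 1 ≤ dl b d J := by
  induction J with
  | zero => exact hb
  | succ J ih =>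
    have h1 : dl b d J ≤ d * dl b d J := Nat.le_mul_of_pos_left _ hd
    change J + 1 + 1 ≤ b + d * dl b d J
    omega

/-- **The image of a curve is defined by one form.** -/
theorem image_unique (F : Fin 3 → MvPolynomial (Fin 3) K) {d : ℕ} (hd : 1 ≤ d)
    (hF : ∀ i, (F i).IsHomogeneous d)
    (hz : ∀ z : Fin 3 → AlgebraicClosure K, (∀ i, aeval z (F i) = 0) → z = 0)
    {g f h : MvPolynomial (Fin 3) K} {w m n : ℕ} (hw : 1 ≤ w) (hg : g.IsHomogeneous w)
    (hg0 : g ≠ 0) (hf : f.IsHomogeneous m) (hfp : Prime f) (hh : h.IsHomogeneous n)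
    (hgf : g ∣ bind₁ F f) (hgh : g ∣ bind₁ F h) : f ∣ h := by
  by_contra hcon
  have hh0 : h ≠ 0 := fun h0 => hcon (h0 ▸ dvd_zero f)
  obtain ⟨b, hb1, hb⟩ := span_adapted F d hF hz
  set π := Ideal.Quotient.mkₐ K (Ideal.span {g}) with hπ
  have hπ0 : ∀ x : MvPolynomial (Fin 3) K, g ∣ x → π x = 0 := by
    intro x hx
    change Ideal.Quotient.mk (Ideal.span {g}) x = 0
    rw [Ideal.Quotient.eq_zero_iff_mem, Ideal.mem_span_singleton]
    exact hx
  set φ := (π.comp (bind₁ F)).toLinearMap with hφ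
  have hbz : ∀ t, m + n ≤ t →
      Module.finrank K ((homogeneousSubmodule (Fin 3) K t).map φ) ≤ m * n := by
    intro t ht
    refine bezout_dim hf hh hfp.ne_zero hh0 (rel_of_prime hfp hcon) ht φ ?_ ?_
    · intro u
      change π (bind₁ F (f * u)) = 0
      rw [map_mul]
      exact hπ0 _ (hgf.mul_right _)
    · intro u
      change π (bind₁ F (h * u)) = 0
      rw [map_mul]
      exact hπ0 _ (hgh.mul_right _)
  have hgrow : ∀ J, m + n ≤ dl b d J →
      dl b d (J + 1) + 1 ≤ (mons b).card * (m * n) := by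
    intro J hJ
    refine (growth_mod hw hg hg0 (dl b d (J + 1))).trans ?_
    have hfin : FiniteDimensional K ((homogeneousSubmodule (Fin 3) K (dl b d J)).map φ) :=
      inferInstance
    refine (finrank_sum_mul_le ((homogeneousSubmodule (Fin 3) K (dl b d J)).map φ) (mons b)
      (fun β => π (monomial β 1)) ?_).trans (Nat.mul_le_mul_left _ (hbz _ hJ))
    rintro y ⟨G, hG, rfl⟩
    obtain ⟨c, hc, hGc⟩ := exists_decomp F hF J G
      (hb (J + 1) G ((mem_homogeneousSubmodule _ _).1 hG))
    refine ⟨fun β => φ (c β), fun β _ => ⟨c β, (mem_homogeneousSubmodule _ _).2 (hc β), rfl⟩, ?_⟩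
    change π G = _
    rw [hGc, map_sum]
    refine Finset.sum_congr rfl fun β _ => ?_
    rw [map_mul]
    rfl
  have h1 := le_dl hb1 hd (m + n + (mons b).card * (m * n))
  have h2 := hgrow (m + n + (mons b).card * (m * n)) (by omega)
  have h3 := le_dl hb1 hd (m + n + (mons b).card * (m * n) + 1)
  omega

omit [NumberField K] in
/-- the iterated forms -/
theorem bind_iter_eq (F : Fin 3 → MvPolynomial (Fin 3) K) (l : ℕ)
    (h : MvPolynomial (Fin 3) K) :
    bind₁ (fun i => (bind₁ F)^[l] (X i)) h = (bind₁ F)^[l] h := by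
  have key : ∀ l : ℕ, ∃ ψ : MvPolynomial (Fin 3) K →ₐ[K] MvPolynomial (Fin 3) K,
      ∀ x, ψ x = (bind₁ F)^[l] x := by
    intro l
    induction l with
    | zero => exact ⟨AlgHom.id K _, fun x => rfl⟩
    | succ l ih =>
      obtain ⟨ψ, hψ⟩ := ih
      exact ⟨ψ.comp (bind₁ F), fun x => by
        rw [Function.iterate_succ_apply, ← hψ]; rfl⟩
  obtain ⟨ψ, hψ⟩ := key l
  have h1 : bind₁ (fun i => (bind₁ F)^[l] (X i)) = ψ := by
    apply MvPolynomial.algHom_ext
    intro i
    rw [bind₁_X_right, hψ]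
  rw [h1, hψ]

/-- **PlaneC**: from two coincidences to a periodic form. -/
theorem planeC (F : Fin 3 → MvPolynomial (Fin 3) K) {d : ℕ} (hd : 1 ≤ d)
    (hF : ∀ i, (F i).IsHomogeneous d)
    (hz : ∀ z : Fin 3 → AlgebraicClosure K, (∀ i, aeval z (F i) = 0) → z = 0)
    {g f : MvPolynomial (Fin 3) K} {w m l l' : ℕ} (hw : 1 ≤ w) (hg : g.IsHomogeneous w)
    (hg0 : g ≠ 0) (hf : f.IsHomogeneous m) (hfp : Prime f) (hll : l < l')
    (hgf : g ∣ (bind₁ F)^[l] f) (hgf' : g ∣ (bind₁ F)^[l'] f) : f ∣ (bind₁ F)^[l' - l] f := by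
  refine image_unique (fun i => (bind₁ F)^[l] (X i)) (Nat.one_le_pow l d hd) ?_ ?_ hw hg hg0 hf hfp
    (hom_bind_iter F hF (l' - l) hf) ?_ ?_
  · intro i
    have := hom_bind_iter F hF l (isHomogeneous_X K i)
    rwa [one_mul] at this
  · intro z hzz
    by_contra hne
    have h1 := gAct_iter_ne F hF hz (L := AlgebraicClosure K) l z hne
    apply h1
    funext i
    have h2 := hzz i
    rw [aeval_bind_iter, aeval_X] at h2
    exact h2
  · rw [bind_iter_eq]; exact hgf
  · rw [bind_iter_eq, ← Function.iterate_add_apply, show l + (l' - l) = l' by omega]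
    exact hgf'

end image

end Pool.DynLehmer
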