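import Mathlib
import Pool.Agent.Lib.MP_2194ec_nt.RamH

set_option autoImplicit false

/-!
# The case of small ramification
-/

namespace Pool.DynLehmer
open MvPolynomial NumberField Filter Topology
open scoped Classical LinearAlgebra.Projectivization

section low

variable {K : Type} [Field K] [NumberField K] {p s : ℕ} {ι : Type} [Fintype ι] [DecidableEq ι]

theorem low_case [Nonempty ι] (hp : p.Prime) (hs : 1 ≤ s) (v : FinitePlace K)
    (Φ : GF (OW v) p s ι) (hϖ : v (Φ.ϖ : K) < 1) (hϖ0 : (Φ.ϖ : K) ≠ 0)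
    (F : ι → MvPolynomial ι K) (hF : ∀ i, (F i).IsHomogeneous (p ^ s))
    (hz : ∀ z : ι → AlgebraicClosure K, (∀ i, aeval z (F i) = 0) → z = 0)
    (hΦF : ∀ i, map (OW v).subtype (Φ.F i) = F i) {b : ℕ} (hb1 : 1 ≤ b)
    (hb : ∀ (J : ℕ) (G : MvPolynomial ι K), G.IsHomogeneous (dl b (p ^ s) J) →
      G ∈ Submodule.span K {Q : MvPolynomial ι K | ∃ μ : ℕ → ι →₀ ℕ,
        (∀ j, (μ j).degree = b) ∧ Q = gQ F J μ})
    {C : ℝ} (hC0 : 0 ≤ C) {m' : ℕ} (hm' : 1 ≤ m')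
    {N : Type} [Field N] [NumberField N] [Algebra K N] (hh : (ι → N) → ℝ)
    (hdiff : ∀ z, |Height.logHeight z / (Module.finrank ℚ N : ℝ) - hh z| ≤ C)
    (hmul : ∀ z, hh (gAct F N z) = ((p ^ s : ℕ) : ℝ) * hh z)
    (hsmul : ∀ (c : N) z, c ≠ 0 → hh (c • z) = hh z)
    (S : Finset (FinitePlace N)) (e : FinitePlace N → ℕ) (hS : ∀ w ∈ S, Above v w (e w))
    (hcard : Module.finrank K N ≤ m' * ∑ w ∈ S, e w)
    (Γ : Subgroup (N ≃ₐ[K] N)) (J : FinitePlace N → Subgroup (N ≃ₐ[K] N)) {E : ℕ} (hE1 : 1 ≤ E)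
    (hJ1 : ∀ w ∈ S, ∀ g ∈ J w, ∀ a, w (g a) = w a)
    (hJ2 : ∀ w ∈ S, ∀ a, (∀ g ∈ J w, g a = a) → w a < 1 → (w a) ^ E ≤ w (toN v N Φ.ϖ))
    {k c : ℕ} (hk1 : 1 ≤ k) (hk : ∀ l, GGoodExp Φ (k * l)) (s0 : N ≃ₐ[K] N)
    (τ : FinitePlace N → (N ≃ₐ[K] N))
    (hτ : ∀ w ∈ S, ∀ a : N, w a ≤ 1 → w ((τ w ^ c) a - a ^ ((p ^ s) ^ k)) < 1)
    (hτw : ∀ w ∈ S, ∀ a : N, w (τ w a) = w a)
    (hτΓ : ∀ w ∈ S, ∀ l : ℕ, (τ w) ^ l * (s0 ^ l)⁻¹ ∈ Γ)
    (P : ι → N) (hP : P ≠ 0) (hhgal : ∀ σ : N ≃ₐ[K] N, hh (gal σ P) = hh P) (hhP : 0 < hh P)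
    {m T : ℕ} (hT : 1 ≤ T)
    (hlow : (fin Γ).card * ∑ w ∈ S, e w ≤ 2 * ∑ w ∈ S, e w *
      ((fin Γ).filter fun σ => idx (J w) (gal σ P) * E ≤ (p ^ s) ^ m).card) :
    ∃ n : ℕ, 1 ≤ n ∧
      n ≤ (2 * (2 * T) ^ (Fintype.card ι - 1)) * idx Γ ((gAct F N)^[m] P) ∧
    (- Real.log (v (Φ.ϖ : K))) / (m' * Module.finrank ℚ K) / 4 *
      (((2 * (2 * T) ^ (Fintype.card ι - 1)) * (2 * T) : ℕ) : ℝ) ≤
      2 * b * ((p ^ s : ℕ) : ℝ) * (n : ℝ) *
        (((p ^ s : ℕ) : ℝ) ^ (m + (k + 1) * (2 * (2 * T) ^ (Fintype.card ι - 1))) * hh P) +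
      (2 * b * C + 1) * (1 + Real.log (n : ℝ)) := by
  have hfd : FiniteDimensional K N := Module.Finite.of_restrictScalars_finite ℚ K N
  have hq2 : 2 ≤ p ^ s := hp.two_le.trans (Nat.le_self_pow (by omega) p)
  have hq2r : (2 : ℝ) ≤ ((p ^ s : ℕ) : ℝ) := by exact_mod_cast hq2
  have hq0r : (0 : ℝ) < ((p ^ s : ℕ) : ℝ) := by linarith
  have hmuln : ∀ (n : ℕ) z, hh ((gAct F N)^[n] z) = ((p ^ s : ℕ) : ℝ) ^ n * hh z := by
    intro n z
    induction n with
    | zero => simp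
    | succ n ih => rw [Function.iterate_succ_apply', hmul, ih, pow_succ]; ring
  set Lv : ℕ := 2 * (2 * T) ^ (Fintype.card ι - 1) with hLv
  have hLv1 : 1 ≤ Lv := Nat.mul_pos two_pos (pow_pos (by omega) _)
  obtain ⟨i0, hi0⟩ : ∃ i0, Lv = i0 + 1 := ⟨Lv - 1, by omega⟩
  -- iterates of conjugates
  set W : ℕ → (N ≃ₐ[K] N) → (ι → N) := fun l g => (gAct F N)^[m + i0 + k * l] (gal g P) with hW
  have hWne : ∀ l g, W l g ≠ 0 := fun l g => gAct_iter_ne F hF hz _ _ (gal_ne g hP)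
  have hWgal : ∀ l g, W l g = gal g ((gAct F N)^[m + i0 + k * l] P) := fun l g =>
    gal_act F g _ P
  have hhW : ∀ l g, hh (W l g) = ((p ^ s : ℕ) : ℝ) ^ (m + i0 + k * l) * hh P := by
    intro l g
    simp only [hW]
    rw [hmuln, hhgal]
  have hlev : ∀ l g l' g', (∃ c : N, c ≠ 0 ∧ W l g = c • W l' g') → l = l' := by
    rintro l g l' g' ⟨c, hc, h⟩
    have h1 := congrArg hh h
    rw [hsmul _ _ hc, hhW, hhW] at h1
    have h2 := mul_right_cancel₀ hhP.ne' h1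
    have h3 := pow_right_injective₀ hq0r (by linarith) h2
    have h4 : k * l = k * l' := by omega
    exact Nat.eq_of_mul_eq_mul_left (by omega) h4
  set Z : ℕ × (N ≃ₐ[K] N) → ι → N := fun y => W y.1 ((s0 ^ (c * y.1))⁻¹ * y.2) with hZ
  have hZne : ∀ y, Z y ≠ 0 := fun y => hWne _ _
  obtain ⟨n, z, pre, hn1, hn, hpre, hz0, hzz, hcover⟩ := exists_rows (Finset.range Lv ×ˢ fin Γ)
    ⟨(0, 1), Finset.mem_product.2 ⟨Finset.mem_range.2 hLv1, mem_fin.2 Γ.one_mem⟩⟩ Z hZne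
  -- rows of the twisted conjugates
  have hcov : ∀ w ∈ S, ∀ l < Lv, ∀ σ ∈ Γ, ∃ a : Fin n, ∃ d : N, d ≠ 0 ∧
      z a = d • W l ((τ w ^ (c * l))⁻¹ * σ) := by
    intro w hw l hl σ hσ
    obtain ⟨a, d, hd, h⟩ := hcover (l, s0 ^ (c * l) * (τ w ^ (c * l))⁻¹ * σ)
      (Finset.mem_product.2 ⟨Finset.mem_range.2 hl, mem_fin.2 (Γ.mul_mem (by
        have h1 := Γ.inv_mem (hτΓ w hw (c * l))
        rwa [mul_inv_rev, inv_inv] at h1) hσ)⟩)
    refine ⟨a, d, hd, ?_⟩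
    have e1 : (s0 ^ (c * l))⁻¹ * (s0 ^ (c * l) * (τ w ^ (c * l))⁻¹ * σ) =
        (τ w ^ (c * l))⁻¹ * σ := by
      rw [mul_assoc (s0 ^ (c * l)), inv_mul_cancel_left]
    rw [h]
    simp only [hZ]
    rw [e1]
  set low : FinitePlace N → (N ≃ₐ[K] N) → Prop := fun w σ =>
    idx (J w) (gal σ P) * E ≤ (p ^ s) ^ m with hlowd
  set Gl : FinitePlace N → ℕ → Finset (Fin n) := fun w l => Finset.univ.filter fun a =>
    ∃ σ ∈ Γ, low w σ ∧ ∃ d : N, d ≠ 0 ∧ z a = d • W l ((τ w ^ (c * l))⁻¹ * σ) with hGl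
  set Good : FinitePlace N → Finset (Fin n) := fun w => (Finset.range Lv).biUnion (Gl w)
    with hGood
  have hdisj : ∀ w, ∀ l ∈ Finset.range Lv, ∀ l' ∈ Finset.range Lv, l ≠ l' →
      Disjoint (Gl w l) (Gl w l') := by
    intro w l _ l' _ hne
    rw [Finset.disjoint_left]
    intro a ha ha'
    rw [hGl, Finset.mem_filter] at ha ha'
    obtain ⟨-, σ, _, _, d, hd, h⟩ := ha
    obtain ⟨-, σ', _, _, d', hd', h'⟩ := ha'
    apply hne
    refine hlev l ((τ w ^ (c * l))⁻¹ * σ) l' ((τ w ^ (c * l'))⁻¹ * σ')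
      ⟨d⁻¹ * d', mul_ne_zero (inv_ne_zero hd) hd', ?_⟩
    rw [mul_smul, ← h', h, smul_smul, inv_mul_cancel₀ hd, one_smul]
  have hnle : n ≤ ∑ l ∈ Finset.range Lv, idx Γ ((gAct F N)^[m + i0 + k * l] P) := by
    rw [hn]
    have h1 : ((Finset.range Lv ×ˢ fin Γ).image fun a => Projectivization.mk N (Z a) (hZne a)) ⊆
        (Finset.range Lv).biUnion fun l => (fin Γ).image fun σ =>
          Projectivization.mk N (Z (l, σ)) (hZne (l, σ)) := by
      intro x hx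
      obtain ⟨y, hy, rfl⟩ := Finset.mem_image.1 hx
      obtain ⟨h2, h3⟩ := Finset.mem_product.1 hy
      exact Finset.mem_biUnion.2 ⟨y.1, h2, Finset.mem_image.2 ⟨y.2, h3, rfl⟩⟩
    refine (Finset.card_le_card h1).trans (Finset.card_biUnion_le.trans ?_)
    refine Finset.sum_le_sum fun l _ => le_of_eq ?_
    have hne1 : ∀ σ : N ≃ₐ[K] N, gal ((s0 ^ (c * l))⁻¹ * σ) ((gAct F N)^[m + i0 + k * l] P) ≠ 0 :=
      fun σ => by rw [← hWgal]; exact hWne _ _
    rw [← card_orbit Γ ((gAct F N)^[m + i0 + k * l] P) (s0 ^ (c * l))⁻¹ hne1]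
    congr 1
    refine Finset.image_congr fun σ _ => ?_
    congr 1
    exact hWgal _ _
  have hcount : ∀ w ∈ S, ((fin Γ).filter fun σ => low w σ).card * n ≤
      (Good w).card * (fin Γ).card := by
    intro w hw
    calc ((fin Γ).filter fun σ => low w σ).card * n
        ≤ ((fin Γ).filter fun σ => low w σ).card *
          ∑ l ∈ Finset.range Lv, idx Γ ((gAct F N)^[m + i0 + k * l] P) :=
          Nat.mul_le_mul_left _ hnle
      _ = ∑ l ∈ Finset.range Lv, ((fin Γ).filter fun σ => low w σ).card *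
          idx Γ ((gAct F N)^[m + i0 + k * l] P) := Finset.mul_sum _ _ _
      _ ≤ ∑ l ∈ Finset.range Lv, (Gl w l).card * (fin Γ).card := by
          refine Finset.sum_le_sum fun l hl => ?_
          have hne1 : ∀ σ : N ≃ₐ[K] N, gal ((τ w ^ (c * l))⁻¹ * σ)
              ((gAct F N)^[m + i0 + k * l] P) ≠ 0 := fun σ => by rw [← hWgal]; exact hWne _ _
          have h1 := density Γ ((gAct F N)^[m + i0 + k * l] P)
            ((fin Γ).filter fun σ => low w σ)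
            (fun σ hσ => mem_fin.1 (Finset.mem_filter.1 hσ).1) (τ w ^ (c * l))⁻¹ hne1
          refine h1.trans (Nat.mul_le_mul_right _ ?_)
          refine card_le_rows z hz0 _ (fun σ => gal ((τ w ^ (c * l))⁻¹ * σ)
            ((gAct F N)^[m + i0 + k * l] P)) hne1 _ ?_
          intro σ hσ
          rw [Finset.mem_filter] at hσ
          obtain ⟨a, d, hd, h2⟩ := hcov w hw l (Finset.mem_range.1 hl) σ (mem_fin.1 hσ.1)
          refine ⟨a, ?_, d, hd, by rw [h2, hWgal]⟩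
          rw [hGl, Finset.mem_filter]
          exact ⟨Finset.mem_univ _, σ, mem_fin.1 hσ.1, hσ.2, d, hd, h2⟩
      _ = (Good w).card * (fin Γ).card := by
          rw [hGood, Finset.card_biUnion (hdisj w), Finset.sum_mul]
  have hgood : n * ∑ w ∈ S, e w ≤ 2 * ∑ w ∈ S, e w * (Good w).card := by
    have h1 : (fin Γ).card * (n * ∑ w ∈ S, e w) ≤
        (fin Γ).card * (2 * ∑ w ∈ S, e w * (Good w).card) := by
      calc (fin Γ).card * (n * ∑ w ∈ S, e w) = n * ((fin Γ).card * ∑ w ∈ S, e w) := by ring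
        _ ≤ n * (2 * ∑ w ∈ S, e w * ((fin Γ).filter fun σ => low w σ).card) :=
            Nat.mul_le_mul_left _ hlow
        _ = 2 * ∑ w ∈ S, e w * (((fin Γ).filter fun σ => low w σ).card * n) := by
            rw [Finset.mul_sum, Finset.mul_sum, Finset.mul_sum]
            exact Finset.sum_congr rfl fun w _ => by ring
        _ ≤ 2 * ∑ w ∈ S, e w * ((Good w).card * (fin Γ).card) := by
            apply Nat.mul_le_mul_left
            exact Finset.sum_le_sum fun w hw => Nat.mul_le_mul_left _ (hcount w hw)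
        _ = _ := by
            rw [Finset.mul_sum, Finset.mul_sum, Finset.mul_sum]
            exact Finset.sum_congr rfl fun w _ => by ring
    exact Nat.le_of_mul_le_mul_left h1 (card_fin_pos Γ)
  have hHmz : ∀ a, hh (z a) ≤ ((p ^ s : ℕ) : ℝ) ^ (m + (k + 1) * Lv) * hh P := by
    intro a
    rw [(hpre a).2]
    simp only [hZ]
    rw [hhW]
    have hl : (pre a).1 < Lv := Finset.mem_range.1 (Finset.mem_product.1 (hpre a).1).1
    apply mul_le_mul_of_nonneg_right _ hhP.le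
    apply pow_le_pow_right₀ (by linarith)
    have h1 : k * (pre a).1 ≤ k * Lv := Nat.mul_le_mul_left k hl.le
    have h2 : (k + 1) * Lv = k * Lv + Lv := by ring
    omega
  have hπ0 : ∀ w : FinitePlace N, 0 < w (toN v N Φ.ϖ) := by
    intro w
    rw [FinitePlace.pos_iff]
    change algebraMap K N (Φ.ϖ : K) ≠ 0
    simpa using hϖ0
  have hG : ∀ w ∈ S, Gain w z (Good w) ((w (toN v N Φ.ϖ)) ^ (Lv * (2 * T))) := by
    intro w hw
    rw [pow_mul]
    have hπ1 := gw_unif Φ (hS w hw) hϖ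
    refine gain_close z hz0 (Good w) (pow_nonneg (apply_nonneg w _) _)
      (pow_lt_one₀ (apply_nonneg w _) hπ1 (by omega)) T ?_
    intro i hi
    rw [hGood, Finset.mem_biUnion] at hi
    obtain ⟨l, hl, hi⟩ := hi
    rw [hGl, Finset.mem_filter] at hi
    obtain ⟨-, σ, hσ, hlo, d, hd, hzi⟩ := hi
    have hcl : ∀ l', Close w ((w (toN v N Φ.ϖ)) ^ Lv) (W l' ((τ w ^ (c * l'))⁻¹ * σ))
        ((gAct F N)^[m + i0] (gal σ P)) := by
      intro l'
      have h1 := low_close Φ (hS w hw) hϖ hϖ0 hp hs F hF hz hΦF (hJ1 w hw) hE1 (hJ2 w hw) hk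
        (τ w ^ c) (hτ w hw) (fun a => by
          have : ∀ (j : ℕ) (a : N), w ((τ w ^ j) a) = w a := by
            intro j
            induction j with
            | zero => intro a; simp
            | succ j ih => intro a; rw [pow_succ', AlgEquiv.mul_apply, hτw w hw, ih]
          exact this c a) (gal σ P) (gal_ne σ hP) hlo l' i0
      rw [← hi0, ← pow_mul, ← gal_mul] at h1
      exact h1
    have hex : ∀ l' : Fin Lv, ∃ a : Fin n, a ∈ Good w ∧
        (∃ d : N, d ≠ 0 ∧ z a = d • W l' ((τ w ^ (c * l'))⁻¹ * σ)) ∧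
        Close w ((w (toN v N Φ.ϖ)) ^ Lv) (z i) (z a) := by
      intro l'
      obtain ⟨a, d', hd', h2⟩ := hcov w hw l' l'.2 σ hσ
      refine ⟨a, ?_, ⟨d', hd', h2⟩, ?_⟩
      · rw [hGood, Finset.mem_biUnion]
        refine ⟨l', Finset.mem_range.2 l'.2, ?_⟩
        rw [hGl, Finset.mem_filter]
        exact ⟨Finset.mem_univ _, σ, hσ, hlo, d', hd', h2⟩
      · rw [hzi, h2]
        exact (((hcl l).trans' (hcl l').symm').smul_left hd).smul_right hd'
    choose a' ha'G hza' hcla using hex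
    have hinj : Function.Injective a' := by
      intro l₁ l₂ h12
      obtain ⟨c₁, hc₁, e₁⟩ := hza' l₁
      obtain ⟨c₂, hc₂, e₂⟩ := hza' l₂
      rw [h12, e₂] at e₁
      apply Fin.ext
      refine (hlev l₂ ((τ w ^ (c * (l₂ : ℕ)))⁻¹ * σ) l₁ ((τ w ^ (c * (l₁ : ℕ)))⁻¹ * σ)
        ⟨c₂⁻¹ * c₁, mul_ne_zero (inv_ne_zero hc₂) hc₁, ?_⟩).symm
      rw [mul_smul, ← e₁, smul_smul, inv_mul_cancel₀ hc₂, one_smul]
    calc 2 * (2 * T) ^ (Fintype.card ι - 1) = (Finset.univ.image a').card := by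
          rw [Finset.card_image_of_injective _ hinj, Finset.card_univ, Fintype.card_fin]
      _ ≤ _ := by
          apply Finset.card_le_card
          intro y hy
          obtain ⟨l', _, rfl⟩ := Finset.mem_image.1 hy
          exact Finset.mem_filter.2 ⟨ha'G l', hcla l'⟩
  have hmain := gain_main hp hs v Φ hϖ hϖ0 F hF hz hΦF hb1 hb hC0 hm' hh hdiff hmul S e hS hcard
    hn1 z hz0 hzz hHmz Good (Lv * (2 * T)) hG hgood
  refine ⟨n, hn1, ?_, hmain⟩
  refine hnle.trans ?_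
  calc ∑ l ∈ Finset.range Lv, idx Γ ((gAct F N)^[m + i0 + k * l] P)
      ≤ ∑ _l ∈ Finset.range Lv, idx Γ ((gAct F N)^[m] P) := by
        refine Finset.sum_le_sum fun l _ => idx_mono Γ ?_
        have h1 : m + i0 + k * l = (i0 + k * l) + m := by ring
        rw [h1, Function.iterate_add_apply]
        exact stab_act F hF _ _
    _ = _ := by rw [Finset.sum_const, Finset.card_range, smul_eq_mul]

end low

end Pool.DynLehmer
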