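import Mathlib
import Pool.Agent.Lib.MP_2194ec_nt.RamI

set_option autoImplicit false

/-!
# The relative lower bound without ramification
-/

namespace Pool.DynLehmer
open MvPolynomial NumberField Filter Topology
open scoped Classical LinearAlgebra.Projectivization

section num

/-- numeric part of the low case -/
theorem ramj_low {lam b q VV E D Dm hP : ℝ} {n T Lv m e1 : ℕ} (hlam0 : 0 < lam) (hb : 0 < b)
    (hq : 0 < q) (hVV : 1 ≤ VV) (hE : 0 < E) (hD : 0 < D) (hhP : 0 < hP)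
    (hT : (1 : ℝ) ≤ T) (hLv : (0 : ℝ) < Lv) (hn : (n : ℝ) ≤ Lv * Dm)
    (hm : q ^ m * Dm ≤ q * (4 * VV * E) * D)
    (h2 : lam / 4 * (T * Lv) ≤ 2 * b * q * n * (q ^ (m + e1) * hP)) :
    lam ≤ 64 * b * q ^ 2 * VV * E * D * q ^ e1 * hP := by
  have hVV0 : 0 < VV := by linarith
  have h3 : 2 * b * q * n * (q ^ (m + e1) * hP) ≤
      Lv * (8 * b * q ^ 2 * VV * E * D * q ^ e1 * hP) := by
    calc 2 * b * q * n * (q ^ (m + e1) * hP)
        ≤ 2 * b * q * (Lv * Dm) * (q ^ (m + e1) * hP) := by gcongr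
      _ = 2 * b * q * Lv * (q ^ m * Dm) * (q ^ e1 * hP) := by
          rw [pow_add]; ring
      _ ≤ 2 * b * q * Lv * (q * (4 * VV * E) * D) * (q ^ e1 * hP) := by gcongr
      _ = _ := by ring
  have h4 : Lv * (lam / 4) ≤ Lv * (8 * b * q ^ 2 * VV * E * D * q ^ e1 * hP) := by
    calc (Lv : ℝ) * (lam / 4) = lam / 4 * (1 * Lv) := by ring
      _ ≤ lam / 4 * (T * Lv) := by gcongr
      _ ≤ _ := h2.trans h3
  have h5 := le_of_mul_le_mul_left h4 hLv
  have h6 : 0 ≤ 8 * b * q ^ 2 * VV * E * D * q ^ e1 * hP := by positivity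
  linarith

/-- numeric part of the high case -/
theorem ramj_high {lam b q VV E D Dm V qe hP : ℝ} {m : ℕ} (hlam0 : 0 < lam) (hb : 0 < b)
    (hq : 0 < q) (hVV : 1 ≤ VV) (hE : 0 < E) (hD : 0 < D) (hhP : 0 < hP) (hV : 1 ≤ V)
    (hqe : 1 ≤ qe)
    (hm : q ^ m * Dm ≤ q * (4 * VV * E) * D)
    (h2 : lam / 8 * V ≤ 2 * b * q * Dm * (q ^ m * hP)) :
    lam ≤ 64 * b * q ^ 2 * VV * E * D * qe * hP := by
  have hVV0 : 0 < VV := by linarith
  have h3 : 2 * b * q * Dm * (q ^ m * hP) ≤ 8 * b * q ^ 2 * VV * E * D * hP := by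
    calc 2 * b * q * Dm * (q ^ m * hP) = 2 * b * q * (q ^ m * Dm) * hP := by ring
      _ ≤ 2 * b * q * (q * (4 * VV * E) * D) * hP := by gcongr
      _ = _ := by ring
  have h4 : lam / 8 ≤ 8 * b * q ^ 2 * VV * E * D * hP := by
    calc lam / 8 = lam / 8 * 1 := (mul_one _).symm
      _ ≤ lam / 8 * V := by gcongr
      _ ≤ _ := h2.trans h3
  have h5 : 8 * b * q ^ 2 * VV * E * D * hP ≤ 8 * b * q ^ 2 * VV * E * D * qe * hP := by
    calc 8 * b * q ^ 2 * VV * E * D * hP = 8 * b * q ^ 2 * VV * E * D * 1 * hP := by ring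
      _ ≤ _ := by gcongr
  linarith

theorem ramj_exp {q C2 B2 lD θ : ℝ} {m0 f' k Lv N' : ℕ} (hq : 2 ≤ q) (hm0 : 1 ≤ m0)
    (hf' : 1 ≤ f') (hk : k = m0 * f') (hB2 : B2 = 2 * m0 * Real.log q * (2 * C2 ^ N'))
    (hC2 : 0 < C2) (hlD : 0 ≤ lD) (hθ0 : 0 ≤ θ) (hθ1 : θ ≤ 1)
    (hT3 : (Lv : ℝ) ≤ 2 * C2 ^ N' * (1 + lD) ^ θ) :
    q ^ ((k + 1) * Lv) ≤ Real.exp (B2 * f' * (1 + lD ^ θ)) := by
  have hq0 : 0 < q := by linarith
  have hlogq : 0 < Real.log q := Real.log_pos (by linarith)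
  rw [← Real.exp_log (show (0 : ℝ) < q ^ ((k + 1) * Lv) by positivity), Real.log_pow]
  apply Real.exp_le_exp.2
  push_cast
  have h1 : (1 + lD) ^ θ ≤ 1 + lD ^ θ := rpow_one_add_le hlD hθ0 hθ1
  have h2 : (Lv : ℝ) ≤ 2 * C2 ^ N' * (1 + lD ^ θ) := by
    refine hT3.trans ?_
    gcongr
  have hkpos : 1 ≤ k := by rw [hk]; exact Nat.mul_pos hm0 hf'
  have hk2 : ((k : ℝ) + 1) ≤ 2 * (m0 * f') := by
    have h3 : (1 : ℝ) ≤ k := by exact_mod_cast hkpos
    have h4 : (k : ℝ) = m0 * f' := by rw [hk]; push_cast; ring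
    linarith
  calc ((k : ℝ) + 1) * Lv * Real.log q = ((k : ℝ) + 1) * Real.log q * Lv := by ring
    _ ≤ (2 * (m0 * f')) * Real.log q * (2 * C2 ^ N' * (1 + lD ^ θ)) := by gcongr
    _ = _ := by rw [hB2]; ring

theorem ramj_vv {C3 B3 lD θ : ℝ} {V c f' : ℕ} (hV : (1 : ℝ) ≤ V) (hC3 : 1 ≤ C3)
    (hVle : (V : ℝ) ≤ C3 * (1 + lD)) (hlD : 0 ≤ lD) (hθ2 : 1 / 2 ≤ θ)
    (hf' : (1 : ℝ) ≤ f') (hB3 : B3 = (c + 1) * (Real.log C3 + 2)) :
    (V : ℝ) ^ (c + 1) ≤ Real.exp (B3 * f' * (1 + lD ^ θ)) := by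
  have hVpos : (0 : ℝ) < V := by linarith
  have hlogC3 : 0 ≤ Real.log C3 := Real.log_nonneg hC3
  have hrp : 0 ≤ lD ^ θ := Real.rpow_nonneg hlD θ
  rw [← Real.exp_log (show (0 : ℝ) < (V : ℝ) ^ (c + 1) by positivity), Real.log_pow]
  apply Real.exp_le_exp.2
  have h1 : Real.log V ≤ (Real.log C3 + 2) * (1 + lD ^ θ) := by
    have h2 : Real.log V ≤ Real.log C3 + Real.log (1 + lD) := by
      rw [← Real.log_mul (by positivity) (by positivity)]
      exact Real.log_le_log hVpos hVle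
    have h3 := log_one_add_le hlD hθ2
    have h4 : Real.log C3 ≤ Real.log C3 * (1 + lD ^ θ) :=
      le_mul_of_one_le_right hlogC3 (by linarith)
    calc Real.log V ≤ Real.log C3 + Real.log (1 + lD) := h2
      _ ≤ Real.log C3 * (1 + lD ^ θ) + 2 * (1 + lD ^ θ) := by linarith
      _ = _ := by ring
  have hB30 : 0 ≤ B3 := by rw [hB3]; positivity
  push_cast
  calc ((c : ℝ) + 1) * Real.log V
      ≤ ((c : ℝ) + 1) * ((Real.log C3 + 2) * (1 + lD ^ θ)) := by gcongr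
    _ = B3 * 1 * (1 + lD ^ θ) := by rw [hB3]; ring
    _ ≤ B3 * f' * (1 + lD ^ θ) := by gcongr

theorem ramj_fin {lam b q VV E D hP B2 B3 f' y : ℝ} {e1 : ℕ} (hb : 0 < b)
    (hq : 0 < q) (hVV : 0 ≤ VV) (hE : 0 < E) (hD : 0 < D) (hhP : 0 < hP)
    (hmain : lam ≤ 64 * b * q ^ 2 * VV * E * D * q ^ e1 * hP)
    (hexp : q ^ e1 ≤ Real.exp (B2 * f' * y)) (hVVexp : VV ≤ Real.exp (B3 * f' * y)) :
    lam / (64 * b * q ^ 2) / (D * E) * Real.exp (-((B2 + B3) * f' * y)) ≤ hP := by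
  have hfin : lam ≤ 64 * b * q ^ 2 * (D * E) * Real.exp ((B2 + B3) * f' * y) * hP := by
    refine hmain.trans ?_
    have h1 : VV * q ^ e1 ≤ Real.exp ((B2 + B3) * f' * y) := by
      have h2 : (B2 + B3) * f' * y = B3 * f' * y + B2 * f' * y := by ring
      rw [h2, Real.exp_add]
      exact mul_le_mul hVVexp hexp (by positivity) (Real.exp_nonneg _)
    calc 64 * b * q ^ 2 * VV * E * D * q ^ e1 * hP
        = 64 * b * q ^ 2 * (D * E) * (VV * q ^ e1) * hP := by ring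
      _ ≤ _ := by gcongr
  calc lam / (64 * b * q ^ 2) / (D * E) * Real.exp (-((B2 + B3) * f' * y))
      = lam / (64 * b * q ^ 2 * (D * E) * Real.exp ((B2 + B3) * f' * y)) := by
        rw [Real.exp_neg, ← div_eq_mul_inv, div_div, div_div]
        congr 1
        ring
    _ ≤ hP := by
        rw [div_le_iff₀ (by positivity)]
        calc lam ≤ _ := hfin
          _ = _ := by ring

/-- the parameter `V` -/
theorem ramj_V {C1 C3 lam lD : ℝ} {V : ℕ} (hlam0 : 0 < lam) (hC10 : 0 ≤ C1) (hlD : 0 ≤ lD)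
    (hC3 : C3 = 8 * C1 / lam + 2) (hV : V = ⌈8 * C1 * (1 + lD) / lam⌉₊ + 1) :
    8 * C1 * (1 + lD) ≤ V * lam ∧ (V : ℝ) ≤ C3 * (1 + lD) := by
  constructor
  · have h1 := Nat.le_ceil (8 * C1 * (1 + lD) / lam)
    rw [← div_le_iff₀ hlam0, hV]
    push_cast; linarith
  · have h1 := (Nat.ceil_lt_add_one (a := 8 * C1 * (1 + lD) / lam) (by positivity)).le
    rw [hV]; push_cast
    have h2 : C3 * (1 + lD) = 8 * C1 * (1 + lD) / lam + 2 * (1 + lD) := by
      rw [hC3]; ring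
    rw [h2]
    linarith

end num

section core

variable {K : Type} [Field K] [NumberField K] {p s : ℕ} {ι : Type} [Fintype ι] [DecidableEq ι]

/-- **The relative lower bound, independent of the ramification of the point.** -/
theorem rel_core2 [Nonempty ι] (hι : 2 ≤ Fintype.card ι) (hp : p.Prime) (hs : 1 ≤ s)
    (v : FinitePlace K)
    (Φ : GF (OW v) p s ι) (hϖ : v (Φ.ϖ : K) < 1) (hϖ0 : (Φ.ϖ : K) ≠ 0)
    (F : ι → MvPolynomial ι K) (hF : ∀ i, (F i).IsHomogeneous (p ^ s))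
    (hz : ∀ z : ι → AlgebraicClosure K, (∀ i, aeval z (F i) = 0) → z = 0)
    (hΦF : ∀ i, map (OW v).subtype (Φ.F i) = F i) (m' : ℕ) (hm' : 1 ≤ m') :
    ∃ A B : ℝ, 0 < A ∧ 0 < B ∧ ∀ (N : Type) [Field N] [NumberField N] [Algebra K N] (f' : ℕ)
      (Γ : Subgroup (N ≃ₐ[K] N)) (s0 : N ≃ₐ[K] N)
      (S : Finset (FinitePlace N)) (e : FinitePlace N → ℕ) (τ : FinitePlace N → (N ≃ₐ[K] N))
      (J : FinitePlace N → Subgroup (N ≃ₐ[K] N)) (E : ℕ), 1 ≤ f' → 1 ≤ E →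
      (∀ w ∈ S, Above v w (e w)) → (Module.finrank K N ≤ m' * ∑ w ∈ S, e w) →
      (∀ w ∈ S, ∀ a : N, w a ≤ 1 → w (τ w a - a ^ (p ^ f')) < 1) →
      (∀ w ∈ S, ∀ a : N, w (τ w a) = w a) →
      (∀ w ∈ S, ∀ l : ℕ, (τ w) ^ l * (s0 ^ l)⁻¹ ∈ Γ) →
      (∀ w ∈ S, J w ≤ Γ) → (∀ w ∈ S, ∀ g ∈ J w, ∀ a, w (g a) = w a) →
      (∀ w ∈ S, ∀ a, (∀ g ∈ J w, g a = a) → w a < 1 → (w a) ^ E ≤ w (toN v N Φ.ϖ)) →
      (∀ w ∈ S, ∀ b, w b ≤ 1 → ∃ a, (∀ g ∈ J w, g a = a) ∧ w a ≤ 1 ∧ w (b - a) < 1) →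
      ∀ P : ι → N, P ≠ 0 →
      (¬ ∃ m n : ℕ, m ≠ n ∧ ∃ c : N, c ≠ 0 ∧ (gAct F N)^[n] P = c • (gAct F N)^[m] P) →
      ∃ h : ℝ, Tendsto (fun n : ℕ => Height.logHeight ((gAct F N)^[n] P) /
        (Module.finrank ℚ N : ℝ) / ((p ^ s : ℕ) : ℝ) ^ n) atTop (𝓝 h) ∧
        A / ((idx Γ P : ℝ) * E) * Real.exp (-(B * f' * (1 + (Real.log (idx Γ P)) ^
          (((Fintype.card ι - 1 : ℕ) : ℝ) / (((Fintype.card ι - 1 : ℕ) : ℝ) + 1))))) ≤ h := by
  have hq2 : 2 ≤ p ^ s := hp.two_le.trans (Nat.le_self_pow (by omega) p)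
  have hq2r : (2 : ℝ) ≤ ((p ^ s : ℕ) : ℝ) := by exact_mod_cast hq2
  obtain ⟨m0, hm01, hm0⟩ := exists_ggoodExp Φ hϖ hp
  obtain ⟨C, hC0, hC⟩ := height_morphism F (p ^ s) hF hz
  obtain ⟨b, hb1, hb⟩ := span_adapted F (p ^ s) hF hz
  set Λ : ℝ := - Real.log (v (Φ.ϖ : K)) with hΛ
  have hΛ0 : 0 < Λ := neg_pos.2 (Real.log_neg (FinitePlace.pos_iff.2 hϖ0) hϖ)
  have hKpos : (0 : ℝ) < Module.finrank ℚ K := by exact_mod_cast Module.finrank_pos
  have hmpos : (0 : ℝ) < m' := by exact_mod_cast hm'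
  set q : ℝ := ((p ^ s : ℕ) : ℝ) with hq
  have hq0 : 0 < q := by linarith
  set N' := Fintype.card ι - 1 with hN'
  have hN'1 : 1 ≤ N' := by omega
  set lam : ℝ := Λ / (m' * Module.finrank ℚ K) with hlam
  have hlam0 : 0 < lam := by positivity
  set C1 : ℝ := 2 * b * C + 1 with hC1
  have hC10 : 0 ≤ C1 := by positivity
  have hC11 : 1 ≤ C1 := by
    rw [hC1]
    have : 0 ≤ 2 * (b : ℝ) * C := by positivity
    linarith
  have hbpos : (0 : ℝ) < b := by exact_mod_cast hb1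
  set C2 : ℝ := 4 * max 1 (C1 * (2 + 2 * N') / (lam / 2)) with hC2
  set B2 : ℝ := 2 * m0 * Real.log q * (2 * C2 ^ N') with hB2
  set C3 : ℝ := 8 * C1 / lam + 2 with hC3
  set B3 : ℝ := (Fintype.card ι + 1) * (Real.log C3 + 2) with hB3
  have hm0pos : (0 : ℝ) < m0 := by exact_mod_cast hm01
  have hlogq : 0 < Real.log q := Real.log_pos (by linarith)
  have hmax1 : (1 : ℝ) ≤ max 1 (C1 * (2 + 2 * N') / (lam / 2)) := le_max_left _ _
  have hC20 : 0 < C2 := by positivity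
  have hB20 : 0 < B2 := by positivity
  have hC31 : 1 ≤ C3 := by
    have : 0 ≤ 8 * C1 / lam := by positivity
    linarith
  have hlogC3 : 0 ≤ Real.log C3 := Real.log_nonneg hC31
  have hB30 : 0 < B3 := by positivity
  refine ⟨lam / (64 * b * q ^ 2), B2 + B3, by positivity, by positivity, ?_⟩
  intro N _ _ _ f' Γ s0 S e τ J E hf' hE1 hS hcard hfrob hτw hτΓ hJΓ hJ1 hJ2 hJ3 P hP hwand
  have hfd : FiniteDimensional K N := Module.Finite.of_restrictScalars_finite ℚ K N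
  set k := m0 * f' with hk
  have hkpos : 1 ≤ k := Nat.mul_pos hm01 hf'
  have hNpos : (0 : ℝ) < Module.finrank ℚ N := by exact_mod_cast Module.finrank_pos
  -- heights on `N`
  set H : (ι → N) → ℝ := fun z => Height.logHeight z / (Module.finrank ℚ N : ℝ) with hH
  have hHact : ∀ z, |H (gAct F N z) - q * H z| ≤ C := by
    intro z
    simp only [hH]
    have h5 : Height.logHeight (gAct F N z) / (Module.finrank ℚ N : ℝ) -
        q * (Height.logHeight z / Module.finrank ℚ N) =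
        (Height.logHeight (gAct F N z) - q * Height.logHeight z) / Module.finrank ℚ N := by
      field_simp
    rw [h5, abs_div, abs_of_pos hNpos, div_le_iff₀ hNpos]
    exact hC N z
  obtain ⟨hh, hlim, -, hdiff, hmul, -⟩ := commuting_heights H (gAct F N) (gAct F N)
    (fun _ => rfl) hq2r hq2r hHact hHact
  have hhsmul : ∀ (c : N) z, c ≠ 0 → hh (c • z) = hh z := by
    intro c z hc
    refine tendsto_nhds_unique (hlim (c • z)) ((hlim z).congr fun n => ?_)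
    rw [gAct_iter_smul F hF]
    simp only [hH]
    rw [Height.logHeight_smul_eq_logHeight _ (pow_ne_zero _ hc)]
  have hhgal : ∀ σ : N ≃ₐ[K] N, hh (gal σ P) = hh P := by
    intro σ
    refine tendsto_nhds_unique (hlim (gal σ P)) ((hlim P).congr fun n => ?_)
    rw [gal_act F σ n P]
    simp only [hH]
    rw [show Height.logHeight (gal σ ((gAct F N)^[n] P)) / (Module.finrank ℚ N : ℝ) =
      Height.logHeight ((gAct F N)^[n] P) / (Module.finrank ℚ N : ℝ) from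
      logHeight_hom (σ : N →+* N) _]
  refine ⟨hh P, hlim P, ?_⟩
  have hx'ne : hh P ≠ 0 := hhat_ne_zero hq2 F hF hz N P hP hwand (hh P) (hlim P)
  have hx'nn : 0 ≤ hh P :=
    ge_of_tendsto' (hlim P) fun n => div_nonneg (div_nonneg (Height.logHeight_nonneg _)
      (Nat.cast_nonneg _)) (pow_nonneg hq0.le _)
  have hx'pos : 0 < hh P := lt_of_le_of_ne hx'nn (Ne.symm hx'ne)
  -- parameters
  set D : ℕ := idx Γ P with hD
  have hDpos : 1 ≤ D := idx_pos Γ P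
  have hD1 : (1 : ℝ) ≤ D := by exact_mod_cast hDpos
  have hDposr : (0 : ℝ) < D := by linarith
  have hlogDnn : 0 ≤ Real.log D := Real.log_nonneg hD1
  obtain ⟨T, hT1, hT2, hT3⟩ := endgame (show 0 < lam / 2 by positivity) hC10 hD1 N'
  set Lv : ℕ := 2 * (2 * T) ^ N' with hLv
  have hLv1 : 1 ≤ Lv := Nat.mul_pos two_pos (pow_pos (by omega) _)
  have hLvpos : (0 : ℝ) < Lv := by exact_mod_cast hLv1
  have hT1r : (1 : ℝ) ≤ T := by exact_mod_cast hT1
  set V : ℕ := ⌈8 * C1 * (1 + Real.log D) / lam⌉₊ + 1 with hV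
  have hV1 : 1 ≤ V := by omega
  have hV1r : (1 : ℝ) ≤ V := by exact_mod_cast hV1
  obtain ⟨hVge, hVle⟩ := ramj_V hlam0 hC10 hlogDnn hC3 hV
  have hEpos : (0 : ℝ) < E := by exact_mod_cast hE1
  have hX1 : 1 ≤ 4 * V ^ (Fintype.card ι + 1) * E :=
    Nat.mul_pos (Nat.mul_pos (by norm_num) (pow_pos hV1 _)) hE1
  obtain ⟨m, hm1, hm2⟩ := choose_m hq2 hX1 (fun j => idx Γ ((gAct F N)^[j] P))
    (fun j => idx_pos Γ _) (fun j => by
      apply idx_mono
      rw [Function.iterate_succ_apply']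
      exact stab_act F hF 1 _)
  simp only [Function.iterate_zero, id_eq] at hm1 hm2
  rw [← hD] at hm1 hm2
  set Dm := idx Γ ((gAct F N)^[m] P) with hDm
  have hDm1 : 1 ≤ Dm := idx_pos Γ _
  have hDmD : Dm ≤ D := idx_mono Γ (stab_act F hF m P)
  have hDm1r : (1 : ℝ) ≤ Dm := by exact_mod_cast hDm1
  have hDmDr : (Dm : ℝ) ≤ D := by exact_mod_cast hDmD
  have hm2r : q ^ m * Dm ≤ q * (4 * (V : ℝ) ^ (Fintype.card ι + 1) * E) * D := by
    rw [hq]; exact_mod_cast hm2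
  set low : FinitePlace N → (N ≃ₐ[K] N) → Prop := fun w σ =>
    idx (J w) (gal σ P) * E ≤ (p ^ s) ^ m with hlowd
  have hsplit : ∀ w, ((fin Γ).filter fun σ => low w σ).card +
      ((fin Γ).filter fun σ => ¬ low w σ).card = (fin Γ).card := fun w =>
    Finset.card_filter_add_card_filter_not _
  have hqk : 1 ≤ q ^ ((k + 1) * Lv) := one_le_pow₀ (by linarith)
  set VV : ℝ := (V : ℝ) ^ (Fintype.card ι + 1) with hVV
  have hVV1 : 1 ≤ VV := one_le_pow₀ hV1r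
  -- the main inequality in both cases
  have hmain : lam ≤ 64 * b * q ^ 2 * VV * E * D * q ^ ((k + 1) * Lv) * hh P := by
    by_cases hcase : (fin Γ).card * ∑ w ∈ S, e w ≤ 2 * ∑ w ∈ S, e w *
      ((fin Γ).filter fun σ => low w σ).card
    · -- small ramification
      obtain ⟨n, hn1, hn2, hn3⟩ := low_case hp hs v Φ hϖ hϖ0 F hF hz hΦF hb1 hb hC0 hm' hh hdiff
        hmul hhsmul S e hS hcard Γ J hE1 hJ1 hJ2 (k := k) (c := s * m0) hkpos
        (fun l => hm0 (k * l) ⟨f' * l, by rw [hk]; ring⟩) s0 τ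
        (fun w hw a ha => by
          have h1 := frob_pow (τ w) w (p ^ f') (hfrob w hw) (s * m0) a ha
          have h2 : (p ^ f') ^ (s * m0) = (p ^ s) ^ k := by
            rw [hk, ← pow_mul, ← pow_mul]; congr 1; ring
          rw [h2] at h1
          exact h1) hτw hτΓ P hP hhgal hx'pos hT1 hcase
      rw [← hN', ← hLv, ← hΛ, ← hlam, ← hC1, ← hq] at hn3
      rw [← hN', ← hLv, ← hDm] at hn2
      have hn1r : (1 : ℝ) ≤ n := by exact_mod_cast hn1
      have hn2r : (n : ℝ) ≤ Lv * Dm := by exact_mod_cast hn2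
      have hnD : (n : ℝ) ≤ Lv * D := hn2r.trans (by gcongr)
      have h1 : C1 * (1 + Real.log n) ≤ lam / 4 * (T * Lv) := by
        refine le_trans ?_ (hT2.trans (le_of_eq (by ring)))
        have : Real.log n ≤ Real.log (Lv * D) := Real.log_le_log (by linarith) hnD
        gcongr
      have h2 : lam / 4 * (T * Lv) ≤ 2 * b * q * n * (q ^ (m + (k + 1) * Lv) * hh P) := by
        have h3 : lam / 4 * ((Lv * (2 * T) : ℕ) : ℝ) = 2 * (lam / 4 * (T * Lv)) := by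
          push_cast; ring
        linarith
      exact ramj_low hlam0 hbpos hq0 hVV1 hEpos hDposr hx'pos hT1r hLvpos hn2r hm2r h2
    · -- large ramification
      have hhigh : (fin Γ).card * ∑ w ∈ S, e w ≤ 2 * ∑ w ∈ S, e w *
          ((fin Γ).filter fun σ => ¬ low w σ).card := by
        have h1 : ∑ w ∈ S, e w * ((fin Γ).filter fun σ => low w σ).card +
            ∑ w ∈ S, e w * ((fin Γ).filter fun σ => ¬ low w σ).card =
            (fin Γ).card * ∑ w ∈ S, e w := by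
          rw [← Finset.sum_add_distrib, Finset.mul_sum]
          refine Finset.sum_congr rfl fun w _ => ?_
          rw [← mul_add, hsplit]
          ring
        omega
      have hn3 := high_case hp hs v Φ hϖ hϖ0 F hF hz hΦF hb1 hb hC0 hm' hh hdiff
        hmul S e hS hcard Γ J hJΓ hJ1 hJ2 hJ3 P hP hhgal hV1 hm1 hhigh
      rw [← hΛ, ← hlam, ← hC1, ← hq, ← hDm] at hn3
      have h1 : C1 * (1 + Real.log Dm) ≤ lam / 8 * V := by
        have h2 : Real.log Dm ≤ Real.log D := Real.log_le_log (by linarith) hDmDr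
        have h4 : C1 * (1 + Real.log Dm) ≤ C1 * (1 + Real.log D) :=
          mul_le_mul_of_nonneg_left (by linarith only [h2]) hC10
        linarith only [h4, hVge]
      have h2 : lam / 8 * V ≤ 2 * b * q * Dm * (q ^ m * hh P) := by
        linarith only [hn3, h1]
      exact ramj_high hlam0 hbpos hq0 hVV1 hEpos hDposr hx'pos hV1r hqk hm2r h2
  -- conclusion
  set θ : ℝ := (N' : ℝ) / ((N' : ℝ) + 1) with hθ
  have hN'r : (1 : ℝ) ≤ N' := by exact_mod_cast hN'1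
  have hθ0 : 0 ≤ θ := by positivity
  have hθ1 : θ ≤ 1 := by
    rw [hθ, div_le_one (by positivity)]; linarith
  have hθ2 : 1 / 2 ≤ θ := by
    rw [hθ, div_le_div_iff₀ (by norm_num) (by positivity)]; linarith
  have hf'r : (1 : ℝ) ≤ f' := by exact_mod_cast hf'
  exact ramj_fin hbpos hq0 (by linarith only [hVV1]) hEpos hDposr hx'pos hmain
    (ramj_exp hq2r hm01 hf' hk hB2 hC20 hlogDnn hθ0 hθ1 hT3)
    (ramj_vv hV1r hC31 hVle hlogDnn hθ2 hf'r hB3)

end core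

end Pool.DynLehmer
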