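import Mathlib
import Pool.Agent.Lib.MP_2194ec_nt.RelMain

set_option autoImplicit false

/-!
# The relative lower bounds
-/

namespace Pool.DynLehmer
open MvPolynomial NumberField IsDedekindDomain Filter Topology
open scoped Classical Pointwise

section places

variable {K : Type} [Field K] [NumberField K] {L : Type} [Field L] [NumberField L] [Algebra K L]
variable {N : Type} [Field N] [NumberField N] [Algebra K N]

/-- the place induced by an embedding -/
theorem place_comap {v : FinitePlace K} {w : FinitePlace N} {e : ℕ} (h : Above v w e)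
    (φ : L →ₐ[K] N) : ∃ (u : FinitePlace L) (e₁ e₂ : ℕ), 0 < e₂ ∧ Above v u e₁ ∧
      ∀ a : L, w (φ a) = (u a) ^ e₂ := by
  let _ : Algebra L N := (φ : L →+* N).toAlgebra
  set P := w.maximalIdeal with hP
  set Q : HeightOneSpectrum (𝓞 L) := P.under (𝓞 L) with hQ
  have hlo : P.asIdeal.LiesOver Q.asIdeal := ⟨rfl⟩
  set e₂ := Ideal.ramificationIdx' Q.asIdeal P.asIdeal * Ideal.inertiaDeg' Q.asIdeal P.asIdeal
    with he₂
  have he₂pos : 0 < e₂ := by
    have := Q.isMaximal
    have := P.isMaximal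
    exact Nat.mul_pos (Nat.pos_of_ne_zero
      (Ideal.IsDedekindDomain.ramificationIdx'_ne_zero_of_liesOver _ Q.ne_bot))
      (Nat.pos_of_ne_zero (Ideal.inertiaDeg'_ne_zero _ _))
  have hφ : ∀ a : L, w (φ a) = (FinitePlace.mk Q a) ^ e₂ := by
    intro a
    have h1 := mk_liesOver Q P a
    rw [hP, FinitePlace.mk_maximalIdeal] at h1
    exact h1
  have hKa : ∀ a : K, (FinitePlace.mk Q (algebraMap K L a)) ^ e₂ = (v a) ^ e := by
    intro a
    rw [← hφ, φ.commutes, h.2]
  have hlo2 : Q.asIdeal.LiesOver v.maximalIdeal.asIdeal := by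
    constructor
    ext x
    rw [Ideal.mem_comap, ← place_lt_one_iff]
    have h1 : FinitePlace.mk Q ((algebraMap (𝓞 K) (𝓞 L) x : 𝓞 L) : L) < 1 ↔
        (algebraMap (𝓞 K) (𝓞 L) x) ∈ Q.asIdeal := by
      rw [place_lt_one_iff, FinitePlace.maximalIdeal_mk]
    rw [← h1]
    have h2 : (((algebraMap (𝓞 K) (𝓞 L) x : 𝓞 L)) : L) = algebraMap K L (x : K) := rfl
    rw [h2]
    have h3 := hKa (x : K)
    constructor
    · intro hv
      by_contra hcon
      push Not at hcon
      have h4 : (1 : ℝ) ≤ (FinitePlace.mk Q (algebraMap K L (x : K))) ^ e₂ := one_le_pow₀ hcon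
      rw [h3] at h4
      exact absurd (pow_lt_one₀ (apply_nonneg v _) hv h.1.ne') (not_lt.2 h4)
    · intro hq
      by_contra hcon
      push Not at hcon
      have h4 : (1 : ℝ) ≤ (v (x : K)) ^ e := one_le_pow₀ hcon
      rw [← h3] at h4
      exact absurd (pow_lt_one₀ (apply_nonneg _ _) hq he₂pos.ne') (not_lt.2 h4)
  refine ⟨FinitePlace.mk Q, Ideal.ramificationIdx' v.maximalIdeal.asIdeal Q.asIdeal *
    Ideal.inertiaDeg' v.maximalIdeal.asIdeal Q.asIdeal, e₂, he₂pos, ⟨?_, ?_⟩, hφ⟩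
  · have := Q.isMaximal
    have := v.maximalIdeal.isMaximal
    exact Nat.mul_pos (Nat.pos_of_ne_zero
      (Ideal.IsDedekindDomain.ramificationIdx'_ne_zero_of_liesOver _ v.maximalIdeal.ne_bot))
      (Nat.pos_of_ne_zero (Ideal.inertiaDeg'_ne_zero _ _))
  · intro a
    have h1 := mk_liesOver v.maximalIdeal Q a
    rw [FinitePlace.mk_maximalIdeal] at h1
    exact h1

/-- the ramification bound for an embedding -/
theorem ram_embedding {v : FinitePlace K} {w : FinitePlace N} {e : ℕ} (h : Above v w e)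
    {ϖ : K} (hϖ : ∀ a : K, v a < 1 → v a ≤ v ϖ) (φ : L →ₐ[K] N) {E : ℕ}
    (hE : ∀ u : FinitePlace L, ∀ e₁, Above v u e₁ → (∃ e₂, 0 < e₂ ∧ ∀ a : L, w (φ a) = (u a) ^ e₂) →
      ¬ (v.maximalIdeal.asIdeal.map (algebraMap (𝓞 K) (𝓞 L)) ≤ u.maximalIdeal.asIdeal ^ (E + 1)))
    (a : L) (ha : w (φ a) < 1) : (w (φ a)) ^ E ≤ w (algebraMap K N ϖ) := by
  obtain ⟨u, e₁, e₂, he₂, hu, hφ⟩ := place_comap h φ
  have h1 : u a < 1 := by
    by_contra hcon
    push Not at hcon
    rw [hφ] at ha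
    exact absurd ha (not_lt.2 (one_le_pow₀ hcon))
  have h2 := ram_bound hu hϖ (hE u e₁ hu ⟨e₂, he₂, hφ⟩) a h1
  rw [← φ.commutes, hφ, hφ, ← pow_mul, mul_comm, pow_mul]
  exact pow_le_pow_left₀ (pow_nonneg (apply_nonneg _ _) _) h2 e₂

end places

section embeddings

variable {K : Type} [Field K] [NumberField K] {M : Type} [Field M] [NumberField M] [Algebra K M]
variable {L : Type} [Field L] [NumberField L] [Algebra K L] [Algebra M L] [IsScalarTower K M L]
variable {N : Type} [Field N] [NumberField N] [Algebra K N] [Algebra L N] [IsScalarTower K L N]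

/-- the embeddings which agree with the given one on `M` -/
noncomputable def relEmb (K M L N : Type) [Field K] [NumberField K] [Field M] [NumberField M]
    [Algebra K M] [Field L] [NumberField L] [Algebra K L] [Algebra M L] [IsScalarTower K M L]
    [Field N] [NumberField N] [Algebra K N] [Algebra L N] [IsScalarTower K L N] :
    Finset (L →ₐ[K] N) :=
  have : FiniteDimensional K L := Module.Finite.of_restrictScalars_finite ℚ K L
  Finset.univ.filter fun φ => ∀ a : M, φ (algebraMap M L a) = algebraMap L N (algebraMap M L a)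

theorem mem_relEmb {φ : L →ₐ[K] N} : φ ∈ relEmb K M L N ↔
    ∀ a : M, φ (algebraMap M L a) = algebraMap L N (algebraMap M L a) := by
  simp [relEmb]

theorem self_mem_relEmb : IsScalarTower.toAlgHom K L N ∈ relEmb K M L N := by
  rw [mem_relEmb]
  intro a
  rfl

theorem card_relEmb : (relEmb K M L N).card ≤ Module.finrank M L := by
  let _ : Algebra M N := ((algebraMap L N).comp (algebraMap M L)).toAlgebra
  have _ : IsScalarTower M L N := IsScalarTower.of_algebraMap_eq fun _ => rfl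
  have _ : FiniteDimensional M L := Module.Finite.of_restrictScalars_finite ℚ M L
  have hcard : Fintype.card (L →ₐ[M] N) ≤ Module.finrank M L := by
    have _ : FiniteDimensional M N := Module.Finite.of_restrictScalars_finite ℚ M N
    have h1 := (linearIndependent_toLinearMap M L N).fintype_card_le_finrank
    rwa [Module.finrank_linearMap_self] at h1
  refine le_trans ?_ hcard
  rw [← Finset.card_univ]
  have hM : ∀ φ ∈ relEmb K M L N, ∀ a : M, (φ : L →+* N) (algebraMap M L a) = algebraMap M N a :=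
    fun φ hφ a => mem_relEmb.1 hφ a
  refine Finset.card_le_card_of_injOn
    (fun φ => if h : φ ∈ relEmb K M L N then
      ({ (φ : L →+* N) with commutes' := hM φ h } : L →ₐ[M] N) else
      IsScalarTower.toAlgHom M L N) (fun _ _ => Finset.mem_coe.2 (Finset.mem_univ _)) ?_
  intro φ hφ ψ hψ h
  have hφ' : φ ∈ relEmb K M L N := hφ
  have hψ' : ψ ∈ relEmb K M L N := hψ
  simp only [dif_pos hφ', dif_pos hψ'] at h
  ext a
  exact congrArg (fun f : L →ₐ[M] N => f a) h

end embeddings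

section results

theorem bound_mono_card {A c D D' E θ : ℝ} (hA : 0 ≤ A) (hc : 0 ≤ c) (hD : 1 ≤ D) (hDD : D ≤ D')
    (hE : 0 < E) (hθ : 0 ≤ θ) :
    A / (D' * E) * Real.exp (-(c * (1 + (Real.log D') ^ θ))) ≤
      A / (D * E) * Real.exp (-(c * (1 + (Real.log D) ^ θ))) := by
  have h0 : 0 ≤ Real.log D := Real.log_nonneg hD
  have h1 : Real.log D ≤ Real.log D' := Real.log_le_log (by linarith) hDD
  have h2 : (Real.log D) ^ θ ≤ (Real.log D') ^ θ := Real.rpow_le_rpow h0 h1 hθ
  have h3 : c * (1 + (Real.log D) ^ θ) ≤ c * (1 + (Real.log D') ^ θ) := by gcongr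
  have h4 : Real.exp (-(c * (1 + (Real.log D') ^ θ))) ≤
      Real.exp (-(c * (1 + (Real.log D) ^ θ))) := Real.exp_le_exp.2 (by linarith)
  have h5 : A / (D' * E) ≤ A / (D * E) := by
    apply div_le_div_of_nonneg_left hA (by nlinarith)
    nlinarith
  exact mul_le_mul h5 h4 (Real.exp_nonneg _) (div_nonneg hA (by nlinarith))

variable {K : Type} [Field K] [NumberField K] {ι : Type} [Fintype ι] [DecidableEq ι]

/-- **The relative bound over Galois fields.** -/
theorem rel_galois [Nonempty ι] {d p s : ℕ} (hd : 2 ≤ d)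
    (F : ι → MvPolynomial ι K) (hF : ∀ i, (F i).IsHomogeneous d)
    (hz : ∀ z : ι → AlgebraicClosure K, (∀ i, aeval z (F i) = 0) → z = 0)
    (hp : p.Prime) (hs : 1 ≤ s) (v : FinitePlace K)
    (P : ι → MvPolynomial ι K) (hP : ∀ i, (P i).IsHomogeneous (p ^ s))
    (hv : v (p : K) < 1) (hint : ∀ i t, v (coeff t (P i)) ≤ 1)
    (hred : ∀ i t, (∀ j, t ≠ Finsupp.single j (p ^ s)) → v (coeff t (P i)) < 1)
    (hdet : v (Matrix.det (Matrix.of fun i j => coeff (Finsupp.single j (p ^ s)) (P i))) = 1)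
    (hc : ∀ i j, bind₁ P (F i) * bind₁ F (P j) = bind₁ P (F j) * bind₁ F (P i))
    (m : ℕ) (hm : 1 ≤ m) :
    ∃ A B : ℝ, 0 < A ∧ 0 < B ∧ ∀ (r : ℕ), 1 ≤ r → ∀ (M : Type) [Field M] [NumberField M]
      [Algebra K M] [IsGalois K M],
      (∀ g : M ≃ₐ[K] M, {h | IsConj (g ^ r) h}.ncard ≤ m) →
      ∀ (L : Type) [Field L] [NumberField L] [Algebra K L] [Algebra M L] [IsScalarTower K M L]
      (E : ℕ), 1 ≤ E →
      (∀ Q : Ideal (𝓞 L), Q.IsPrime → Q.LiesOver v.maximalIdeal.asIdeal →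
        ¬ (v.maximalIdeal.asIdeal.map (algebraMap (𝓞 K) (𝓞 L)) ≤ Q ^ (E + 1))) →
      ∀ x : ι → L, x ≠ 0 →
      (¬ ∃ m n : ℕ, m ≠ n ∧ ∃ c : L, c ≠ 0 ∧ (gAct F L)^[n] x = c • (gAct F L)^[m] x) →
      ∃ h : ℝ, Tendsto (fun n : ℕ => Height.logHeight ((gAct F L)^[n] x) /
        (Module.finrank ℚ L : ℝ) / (d : ℝ) ^ n) atTop (𝓝 h) ∧
        A / ((Module.finrank M L : ℝ) * E) * Real.exp (-(B * r *
          (1 + (Real.log (Module.finrank M L)) ^
          (((Fintype.card ι - 1 : ℕ) : ℝ) / (((Fintype.card ι - 1 : ℕ) : ℝ) + 1))))) ≤ h := by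
  obtain ⟨Φ, hΦP, hϖ0, hϖ, hunif⟩ := exists_GF v hp P hP hv hint hred hdet
  have hzP := gno_common_zero hp Φ hϖ P hΦP
  obtain ⟨f, hf1, hf⟩ := exists_card_eq v hp hv
  obtain ⟨A, B, hA, hB, hbound⟩ := rel_core hp hs v Φ hϖ hϖ0 P hP hzP hΦP m hm
  have hfpos : (0 : ℝ) < f := by exact_mod_cast hf1
  refine ⟨A, B * f, hA, by positivity, ?_⟩
  intro r hr M _ _ _ _ hconj L _ _ _ _ _ E hE hram x hx hwand
  have hq2 : 2 ≤ p ^ s := hp.two_le.trans (Nat.le_self_pow (by omega) p)
  obtain ⟨hwandP, htrans⟩ := commute_transfer hd hq2 F P hF hP hz hzP hc L x hx hwand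
  -- the Galois closure
  let N := IntermediateField.normalClosure K L (AlgebraicClosure L)
  have hfdKL : FiniteDimensional K L := Module.Finite.of_restrictScalars_finite ℚ K L
  have hfd : FiniteDimensional K N := normalClosure.is_finiteDimensional K L (AlgebraicClosure L)
  have hNnf : NumberField N := NumberField.of_module_finite K N
  have hnormal : Normal K N := normalClosure.normal K L (AlgebraicClosure L)
  have hgal : IsGalois K N := ⟨⟩
  let _ : Algebra M N := ((algebraMap L N).comp (algebraMap M L)).toAlgebra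
  have htow : IsScalarTower K M N := by
    refine IsScalarTower.of_algebraMap_eq fun a => ?_
    change algebraMap K N a = algebraMap L N (algebraMap M L (algebraMap K M a))
    rw [← IsScalarTower.algebraMap_apply K M L, ← IsScalarTower.algebraMap_apply K L N]
  obtain ⟨S, e, hS, hsum⟩ := exists_above v N
  have hne : S.Nonempty := by
    rw [Finset.nonempty_iff_ne_empty]
    intro h0
    rw [h0, Finset.sum_empty] at hsum
    exact (Module.finrank_pos (R := K) (M := N)).ne hsum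
  obtain ⟨w0, hw0⟩ := hne
  -- the reference Frobenius
  have hprime : ∀ w : FinitePlace N, w.maximalIdeal.asIdeal.IsPrime := fun w =>
    w.maximalIdeal.isPrime
  have hfinq : Finite (𝓞 N ⧸ w0.maximalIdeal.asIdeal) :=
    Ideal.finiteQuotientOfFreeOfNeBot _ w0.maximalIdeal.ne_bot
  obtain ⟨σ0, hσ0⟩ := IsArithFrobAt.exists_of_isInvariant (𝓞 K) (N ≃ₐ[K] N)
    w0.maximalIdeal.asIdeal
  have hτ : ∀ w ∈ S, ∃ τ : N ≃ₐ[K] N, w.maximalIdeal.asIdeal = τ • w0.maximalIdeal.asIdeal := by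
    intro w hw
    exact Algebra.IsInvariant.exists_smul_of_under_eq (𝓞 K) (𝓞 N) (N ≃ₐ[K] N)
      w0.maximalIdeal.asIdeal w.maximalIdeal.asIdeal
      (by rw [above_under (hS w0 hw0), above_under (hS w hw)])
  choose! τ hτ using hτ
  set φ : FinitePlace N → (N ≃ₐ[K] N) := fun w => (τ w * σ0 * (τ w)⁻¹) ^ r with hφ
  have hφfrob : ∀ w ∈ S, ∀ a : N, w a ≤ 1 → w (φ w a - a ^ (p ^ (f * r))) < 1 := by
    intro w hw
    have h1 : ∀ x : 𝓞 N, (τ w * σ0 * (τ w)⁻¹) • x - x ^ (p ^ f) ∈ w.maximalIdeal.asIdeal := by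
      intro x
      have h2 := (hσ0.conj (τ w)) x
      rw [← hτ w hw, above_under (hS w hw), hf] at h2
      exact h2
    have h3 := frob_pow (τ w * σ0 * (τ w)⁻¹) w (p ^ f) (frob_place _ w _ h1) r
    intro a ha
    have h4 := h3 a ha
    rw [← pow_mul] at h4
    exact h4
  -- restriction to `M`
  set R : (N ≃ₐ[K] N) →* (M ≃ₐ[K] M) := AlgEquiv.restrictNormalHom M with hR
  have hRc : ∀ (σ : N ≃ₐ[K] N) (a : M), algebraMap M N (R σ a) = σ (algebraMap M N a) :=
    fun σ a => AlgEquiv.restrictNormal_commutes σ M a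
  have hcardφ : (S.image fun w => R (φ w)).card ≤ m := by
    refine le_trans ?_ (hconj (R σ0))
    have hfinM : Finite (M ≃ₐ[K] M) := by
      have : FiniteDimensional K M := Module.Finite.of_restrictScalars_finite ℚ K M
      infer_instance
    rw [← Set.ncard_coe_finset]
    apply Set.ncard_le_ncard _ (Set.toFinite _)
    intro g hg
    rw [Finset.coe_image] at hg
    obtain ⟨w, _, rfl⟩ := hg
    change IsConj ((R σ0) ^ r) (R ((τ w * σ0 * (τ w)⁻¹) ^ r))
    rw [isConj_iff]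
    exact ⟨R (τ w), by rw [conj_pow, map_mul, map_mul, map_inv, map_pow]⟩
  obtain ⟨β, hβ⟩ := pigeonhole S e (fun w => R (φ w)) m hcardφ ⟨w0, hw0⟩
  set S' := S.filter fun w => R (φ w) = β with hS'
  have hne' : S'.Nonempty := by
    rw [Finset.nonempty_iff_ne_empty]
    intro h0
    rw [h0, Finset.sum_empty, mul_zero, hsum] at hβ
    exact absurd (Module.finrank_pos (R := K) (M := N)) (not_lt.2 hβ)
  obtain ⟨w1, hw1⟩ := hne'
  have hfr1 : 1 ≤ f * r := Nat.mul_pos hf1 hr
  obtain ⟨h, hlim, hle⟩ := hbound L N (f * r) (relEmb K M L N) (φ w1) S' e φ E hfr1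
    ⟨_, self_mem_relEmb⟩ hE (fun w hw => hS w (Finset.mem_filter.1 hw).1)
    (by rw [← hsum]; exact hβ)
    (fun w hw => hφfrob w (Finset.mem_filter.1 hw).1)
    (fun w hw l ψ hψ a ha => by
      have hwS := (Finset.mem_filter.1 hw).1
      exact ram_embedding (hS w hwS) hunif
        (((((φ w1) ^ l)⁻¹ : N ≃ₐ[K] N) : N →ₐ[K] N).comp ψ)
        (fun u e₁ hu _ => hram _ u.maximalIdeal.isPrime (above_liesOver hu)) a ha)
    (fun w hw l ψ hψ => by
      rw [mem_relEmb]
      intro a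
      have hwS : R (φ w) = β := (Finset.mem_filter.1 hw).2
      have hw1S : R (φ w1) = β := (Finset.mem_filter.1 hw1).2
      have e4 : ∀ σ : N ≃ₐ[K] N, R (σ ^ l) = (R σ) ^ l := fun σ => map_pow R σ l
      change ((φ w) ^ l * ((φ w1) ^ l)⁻¹ : N ≃ₐ[K] N) (ψ (algebraMap M L a)) = _
      rw [mem_relEmb.1 hψ a]
      change ((φ w) ^ l * ((φ w1) ^ l)⁻¹ : N ≃ₐ[K] N) (algebraMap M N a) = algebraMap M N a
      rw [← hRc, map_mul, map_inv, e4, e4, hwS, hw1S, mul_inv_cancel]
      rfl)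
    x hx hwandP
  refine ⟨h, htrans h hlim, le_trans ?_ hle⟩
  have hcard1 : (1 : ℝ) ≤ (relEmb K M L N).card := by
    exact_mod_cast Finset.card_pos.2 ⟨_, self_mem_relEmb⟩
  have hcard2 : ((relEmb K M L N).card : ℝ) ≤ Module.finrank M L := by exact_mod_cast card_relEmb
  have hEpos : (0 : ℝ) < E := by exact_mod_cast hE
  have hrpos : (0 : ℝ) < r := by exact_mod_cast hr
  have h1 := bound_mono_card (c := B * ((f * r : ℕ) : ℝ)) hA.le (by positivity) hcard1 hcard2
    hEpos (show (0 : ℝ) ≤ ((Fintype.card ι - 1 : ℕ) : ℝ) /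
      (((Fintype.card ι - 1 : ℕ) : ℝ) + 1) by positivity)
  refine le_trans (le_of_eq ?_) h1
  push_cast
  ring_nf

/-- a place of `M` is determined by a place above it -/
theorem base_unique {M N : Type} [Field M] [NumberField M] [Field N] [NumberField N] [Algebra M N]
    {w₁ w₂ : FinitePlace M} {w : FinitePlace N} {e₁ e₂ : ℕ} (h₁ : Above w₁ w e₁)
    (h₂ : Above w₂ w e₂) : w₁ = w₂ := by
  have h3 : w₁.maximalIdeal.asIdeal = w₂.maximalIdeal.asIdeal := by
    rw [← above_under h₁, ← above_under h₂]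
  have h4 : w₁.maximalIdeal = w₂.maximalIdeal := HeightOneSpectrum.ext h3
  rw [← FinitePlace.mk_maximalIdeal w₁, ← FinitePlace.mk_maximalIdeal w₂, h4]

/-- **The relative bound for fields with small residue degrees.** -/
theorem rel_residue [Nonempty ι] {d p s : ℕ} (hd : 2 ≤ d)
    (F : ι → MvPolynomial ι K) (hF : ∀ i, (F i).IsHomogeneous d)
    (hz : ∀ z : ι → AlgebraicClosure K, (∀ i, aeval z (F i) = 0) → z = 0)
    (hp : p.Prime) (hs : 1 ≤ s) (v : FinitePlace K)
    (P : ι → MvPolynomial ι K) (hP : ∀ i, (P i).IsHomogeneous (p ^ s))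
    (hv : v (p : K) < 1) (hint : ∀ i t, v (coeff t (P i)) ≤ 1)
    (hred : ∀ i t, (∀ j, t ≠ Finsupp.single j (p ^ s)) → v (coeff t (P i)) < 1)
    (hdet : v (Matrix.det (Matrix.of fun i j => coeff (Finsupp.single j (p ^ s)) (P i))) = 1)
    (hc : ∀ i j, bind₁ P (F i) * bind₁ F (P j) = bind₁ P (F j) * bind₁ F (P i))
    (m : ℕ) (hm : 1 ≤ m) :
    ∃ A B : ℝ, 0 < A ∧ 0 < B ∧ ∀ (f : ℕ), 1 ≤ f → ∀ (M : Type) [Field M] [NumberField M]
      [Algebra K M] (S : Finset (FinitePlace M)) (e : FinitePlace M → ℕ),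
      (∀ w ∈ S, ∀ a : K, w (algebraMap K M a) = (v a) ^ e w) →
      Module.finrank K M ≤ m * ∑ w ∈ S, e w →
      (∀ w ∈ S, ∃ g, g ∣ f ∧ Nat.card (𝓞 M ⧸ w.maximalIdeal.asIdeal) = p ^ g) →
      ∀ (L : Type) [Field L] [NumberField L] [Algebra K L] [Algebra M L] [IsScalarTower K M L]
      (E : ℕ), 1 ≤ E →
      (∀ w ∈ S, ∀ Q : Ideal (𝓞 L), Q.IsPrime → Q.LiesOver w.maximalIdeal.asIdeal →
        ¬ (v.maximalIdeal.asIdeal.map (algebraMap (𝓞 K) (𝓞 L)) ≤ Q ^ (E + 1))) →
      ∀ x : ι → L, x ≠ 0 →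
      (¬ ∃ m n : ℕ, m ≠ n ∧ ∃ c : L, c ≠ 0 ∧ (gAct F L)^[n] x = c • (gAct F L)^[m] x) →
      ∃ h : ℝ, Tendsto (fun n : ℕ => Height.logHeight ((gAct F L)^[n] x) /
        (Module.finrank ℚ L : ℝ) / (d : ℝ) ^ n) atTop (𝓝 h) ∧
        A / ((Module.finrank M L : ℝ) * E) * Real.exp (-(B * f *
          (1 + (Real.log (Module.finrank M L)) ^
          (((Fintype.card ι - 1 : ℕ) : ℝ) / (((Fintype.card ι - 1 : ℕ) : ℝ) + 1))))) ≤ h := by
  obtain ⟨Φ, hΦP, hϖ0, hϖ, hunif⟩ := exists_GF v hp P hP hv hint hred hdet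
  have hzP := gno_common_zero hp Φ hϖ P hΦP
  obtain ⟨A, B, hA, hB, hbound⟩ := rel_core hp hs v Φ hϖ hϖ0 P hP hzP hΦP m hm
  refine ⟨A, B, hA, hB, ?_⟩
  intro f hf M _ _ _ S e hS0 hcard hres L _ _ _ _ _ E hE hram x hx hwand
  have hq2 : 2 ≤ p ^ s := hp.two_le.trans (Nat.le_self_pow (by omega) p)
  obtain ⟨hwandP, htrans⟩ := commute_transfer hd hq2 F P hF hP hz hzP hc L x hx hwand
  have hSab : ∀ w ∈ S, Above v w (e w) := by
    intro w hw
    refine ⟨?_, hS0 w hw⟩
    rw [Nat.pos_iff_ne_zero]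
    intro h0
    have := hS0 w hw 0
    rw [h0] at this
    simp at this
  -- the Galois closure
  let N := IntermediateField.normalClosure K L (AlgebraicClosure L)
  have hfdKL : FiniteDimensional K L := Module.Finite.of_restrictScalars_finite ℚ K L
  have hfd : FiniteDimensional K N := normalClosure.is_finiteDimensional K L (AlgebraicClosure L)
  have hNnf : NumberField N := NumberField.of_module_finite K N
  have hnormal : Normal K N := normalClosure.normal K L (AlgebraicClosure L)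
  have hgal : IsGalois K N := ⟨⟩
  let _ : Algebra M N := ((algebraMap L N).comp (algebraMap M L)).toAlgebra
  have htow : IsScalarTower K M N := by
    refine IsScalarTower.of_algebraMap_eq fun a => ?_
    change algebraMap K N a = algebraMap L N (algebraMap M L (algebraMap K M a))
    rw [← IsScalarTower.algebraMap_apply K M L, ← IsScalarTower.algebraMap_apply K L N]
  have hgalM : IsGalois M N := IsGalois.tower_top_of_isGalois K M N
  -- the places of `N` above `S`
  have hT : ∀ w : FinitePlace M, ∃ (T : Finset (FinitePlace N)) (g : FinitePlace N → ℕ),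
      (∀ w' ∈ T, Above w w' (g w')) ∧ ∑ w' ∈ T, g w' = Module.finrank M N :=
    fun w => exists_above w N
  choose T g hTg hTsum using hT
  set S' : Finset (FinitePlace N) := S.biUnion T with hS'
  set e' : FinitePlace N → ℕ := fun w' => ∑ w ∈ S, if w' ∈ T w then g w w' * e w else 0 with he'
  have he'eq : ∀ w ∈ S, ∀ w' ∈ T w, e' w' = g w w' * e w := by
    intro w hw w' hw'
    simp only [he']
    rw [Finset.sum_eq_single w]
    · rw [if_pos hw']
    · intro w₂ hw₂ hne
      rw [if_neg]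
      intro hcon
      exact hne (base_unique (hTg w₂ w' hcon) (hTg w w' hw'))
    · intro h; exact absurd hw h
  have hS'ab : ∀ w' ∈ S', Above v w' (e' w') := by
    intro w' hw'
    obtain ⟨w, hw, hww'⟩ := Finset.mem_biUnion.1 hw'
    rw [he'eq w hw w' hww']
    refine ⟨Nat.mul_pos (hTg w w' hww').1 (hSab w hw).1, fun a => ?_⟩
    rw [IsScalarTower.algebraMap_apply K M N, (hTg w w' hww').2, (hSab w hw).2, ← pow_mul,
      mul_comm]
  have hsum' : ∑ w' ∈ S', e' w' = Module.finrank M N * ∑ w ∈ S, e w := by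
    simp only [he']
    rw [Finset.sum_comm, Finset.mul_sum]
    refine Finset.sum_congr rfl fun w hw => ?_
    rw [← Finset.sum_filter]
    have h1 : S'.filter (fun w' => w' ∈ T w) = T w := by
      ext w'
      rw [Finset.mem_filter]
      exact ⟨fun h => h.2, fun h => ⟨Finset.mem_biUnion.2 ⟨w, hw, h⟩, h⟩⟩
    rw [h1, ← Finset.sum_mul, hTsum]
  have hcard' : Module.finrank K N ≤ m * ∑ w' ∈ S', e' w' := by
    rw [hsum', ← Module.finrank_mul_finrank K M N]
    calc Module.finrank K M * Module.finrank M N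
        ≤ (m * ∑ w ∈ S, e w) * Module.finrank M N := Nat.mul_le_mul_right _ hcard
      _ = m * (Module.finrank M N * ∑ w ∈ S, e w) := by ring
  -- Frobenius elements over `M`
  have hfrob : ∀ w' ∈ S', ∃ τ : N ≃ₐ[K] N, (∀ a : N, w' a ≤ 1 → w' (τ a - a ^ (p ^ f)) < 1) ∧
      ∀ a : M, τ (algebraMap M N a) = algebraMap M N a := by
    intro w' hw'
    obtain ⟨w, hw, hww'⟩ := Finset.mem_biUnion.1 hw'
    have hprime : w'.maximalIdeal.asIdeal.IsPrime := w'.maximalIdeal.isPrime
    have hfinq : Finite (𝓞 N ⧸ w'.maximalIdeal.asIdeal) :=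
      Ideal.finiteQuotientOfFreeOfNeBot _ w'.maximalIdeal.ne_bot
    obtain ⟨σ, hσ⟩ := IsArithFrobAt.exists_of_isInvariant (𝓞 M) (N ≃ₐ[M] N)
      w'.maximalIdeal.asIdeal
    obtain ⟨g₀, hg₀, hg₁⟩ := hres w hw
    have h1 : ∀ x : 𝓞 N, σ • x - x ^ (p ^ g₀) ∈ w'.maximalIdeal.asIdeal := by
      intro x
      have h2 := hσ x
      rw [above_under (hTg w w' hww'), hg₁] at h2
      exact h2
    have h3 := frob_pow σ w' (p ^ g₀) (frob_place σ w' _ h1) (f / g₀)
    refine ⟨(σ ^ (f / g₀)).restrictScalars K, ?_, ?_⟩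
    · intro a ha
      have h4 := h3 a ha
      rw [← pow_mul, Nat.mul_div_cancel' hg₀] at h4
      exact h4
    · intro a
      exact (σ ^ (f / g₀)).commutes a
  choose! τ hτ hτM using hfrob
  obtain ⟨h, hlim, hle⟩ := hbound L N f (relEmb K M L N) 1 S' e' τ E hf
    ⟨_, self_mem_relEmb⟩ hE hS'ab hcard' hτ
    (fun w' hw' l ψ hψ a ha => by
      obtain ⟨w, hw, hww'⟩ := Finset.mem_biUnion.1 hw'
      rw [one_pow, inv_one] at ha ⊢
      refine ram_embedding (hS'ab w' hw') hunif ψ ?_ a ha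
      rintro u e₁ hu ⟨e₂, he₂, hue₂⟩
      refine hram w hw _ u.maximalIdeal.isPrime ?_
      constructor
      ext y
      rw [Ideal.mem_comap, ← place_lt_one_iff, ← place_lt_one_iff]
      have h1 : (((algebraMap (𝓞 M) (𝓞 L) y : 𝓞 L)) : L) = algebraMap M L (y : M) := rfl
      rw [h1]
      have h2 : (u (algebraMap M L (y : M))) ^ e₂ = (w (y : M)) ^ (g w w') := by
        rw [← hue₂, mem_relEmb.1 hψ, ← (hTg w w' hww').2]
        rfl
      constructor
      · intro hv
        by_contra hcon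
        push Not at hcon
        have h4 : (1 : ℝ) ≤ (u (algebraMap M L (y : M))) ^ e₂ := one_le_pow₀ hcon
        rw [h2] at h4
        exact absurd (pow_lt_one₀ (apply_nonneg _ _) hv (hTg w w' hww').1.ne') (not_lt.2 h4)
      · intro hq
        by_contra hcon
        push Not at hcon
        have h4 : (1 : ℝ) ≤ (w (y : M)) ^ (g w w') := one_le_pow₀ hcon
        rw [← h2] at h4
        exact absurd (pow_lt_one₀ (apply_nonneg _ _) hq he₂.ne') (not_lt.2 h4))
    (fun w' hw' l ψ hψ => by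
      rw [mem_relEmb]
      intro a
      change ((τ w') ^ l * (1 ^ l)⁻¹ : N ≃ₐ[K] N) (ψ (algebraMap M L a)) = _
      rw [mem_relEmb.1 hψ a]
      change ((τ w') ^ l * (1 ^ l)⁻¹ : N ≃ₐ[K] N) (algebraMap M N a) = algebraMap M N a
      rw [one_pow, inv_one, mul_one]
      induction l with
      | zero => rfl
      | succ l ih => rw [pow_succ, AlgEquiv.mul_apply, hτM w' hw', ih])
    x hx hwandP
  refine ⟨h, htrans h hlim, le_trans ?_ hle⟩
  have hcard1 : (1 : ℝ) ≤ (relEmb K M L N).card := by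
    exact_mod_cast Finset.card_pos.2 ⟨_, self_mem_relEmb⟩
  have hcard2 : ((relEmb K M L N).card : ℝ) ≤ Module.finrank M L := by exact_mod_cast card_relEmb
  have hEpos : (0 : ℝ) < E := by exact_mod_cast hE
  exact bound_mono_card (c := B * (f : ℝ)) hA.le (by positivity) hcard1 hcard2
    hEpos (show (0 : ℝ) ≤ ((Fintype.card ι - 1 : ℕ) : ℝ) /
      (((Fintype.card ι - 1 : ℕ) : ℝ) + 1) by positivity)

end results

end Pool.DynLehmer
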