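import Mathlib
import Pool.Agent.Lib.MP_2194ec_nt.RamB
import Pool.Agent.Lib.MP_2194ec_nt.RelResults

set_option autoImplicit false

/-!
# Inertia groups and finite places
-/

namespace Pool.DynLehmer
open NumberField IsDedekindDomain
open scoped Classical Pointwise

section mathlib

variable {M : Type} [Field M] [NumberField M] {N : Type} [Field N] [NumberField N] [Algebra M N]

/-- the prime of the inertia field is unramified, with trivial residue extension above -/
theorem inertia_field [IsGalois M N] (P : Ideal (𝓞 N)) [P.IsMaximal] (hP : P ≠ ⊥) :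
    ∃ (T : IntermediateField M N) (_ : NumberField T),
      (∀ a : N, a ∈ T ↔ ∀ σ ∈ Ideal.inertia (N ≃ₐ[M] N) P, σ a = a) ∧
      (P.under (𝓞 T)).ramificationIdx (𝓞 M) = 1 ∧
      ∀ b : 𝓞 N, ∃ a : 𝓞 T, b - algebraMap (𝓞 T) (𝓞 N) a ∈ P := by
  set H := Ideal.inertia (N ≃ₐ[M] N) P with hH
  let T : IntermediateField M N := FixedPoints.intermediateField H
  have hfd : FiniteDimensional M N := Module.Finite.of_restrictScalars_finite ℚ M N
  have hNF : NumberField T := NumberField.of_module_finite M T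
  have hG : IsGaloisGroup H T N := IsGaloisGroup.subgroup (N ≃ₐ[M] N) M N H
  have hG' : IsGaloisGroup H (𝓞 T) (𝓞 N) := IsGaloisGroup.of_isFractionRing H (𝓞 T) (𝓞 N) T N
  set Q := P.under (𝓞 T) with hQ
  set p := P.under (𝓞 M) with hp
  have hPp : P.IsPrime := Ideal.IsMaximal.isPrime inferInstance
  have hQm : Q.IsMaximal := Ideal.IsMaximal.under (𝓞 T) P
  have hpm : p.IsMaximal := Ideal.IsMaximal.under (𝓞 M) P
  have hQp : Q.LiesOver p := inferInstance
  have hQ0 : Q ≠ ⊥ := by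
    intro h0
    exact hP (Ideal.eq_bot_of_comap_eq_bot h0)
  have hp0 : p ≠ ⊥ := by
    intro h0
    exact hP (Ideal.eq_bot_of_comap_eq_bot h0)
  have hfQ : Finite (𝓞 T ⧸ Q) := Ideal.finiteQuotientOfFreeOfNeBot _ hQ0
  have hfp : Finite (𝓞 M ⧸ p) := Ideal.finiteQuotientOfFreeOfNeBot _ hp0
  have h1 : Nat.card (Ideal.inertia (N ≃ₐ[M] N) P) = P.ramificationIdx (𝓞 M) := by
    rw [Ideal.card_inertia_eq_ramificationIdxIn (R := 𝓞 M) p P,
      Ideal.ramificationIdxIn_eq_ramificationIdx p P (N ≃ₐ[M] N)]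
  have h2 : Nat.card (Ideal.inertia H P) = P.ramificationIdx (𝓞 T) := by
    rw [Ideal.card_inertia_eq_ramificationIdxIn (R := 𝓞 T) Q P,
      Ideal.ramificationIdxIn_eq_ramificationIdx Q P H]
  have h3 : Ideal.inertia H P = ⊤ := by
    rw [eq_top_iff]
    intro σ _
    exact σ.2
  have h4 : Nat.card (Ideal.inertia H P) = Nat.card H := by
    rw [h3]
    exact Nat.card_congr Subgroup.topEquiv.toEquiv
  have h5 : P.ramificationIdx (𝓞 T) = P.ramificationIdx (𝓞 M) := by
    rw [← h2, h4, ← h1]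
  have h6 : P.ramificationIdx (𝓞 M) = Q.ramificationIdx (𝓞 M) * P.ramificationIdx (𝓞 T) :=
    Ideal.ramificationIdx_tower Q P
  have hpos : 0 < P.ramificationIdx (𝓞 M) := by
    rw [← h1]; exact Nat.card_pos
  refine ⟨T, hNF, ?_, ?_, ?_⟩
  · intro a
    constructor
    · intro ha σ hσ
      exact ha ⟨σ, hσ⟩
    · intro ha σ
      exact ha σ.1 σ.2
  · rw [h5] at h6
    exact (Nat.eq_of_mul_eq_mul_right hpos (by rw [one_mul]; exact h6)).symm
  · have h7 := Ideal.card_stabilizer_eq (G := H) (R := 𝓞 T) Q P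
    rw [Ideal.ramificationIdxIn_eq_ramificationIdx Q P H,
      Ideal.inertiaDegIn_eq_inertiaDeg Q P H] at h7
    have h8 : P.ramificationIdx (𝓞 T) * P.inertiaDeg (𝓞 T) ≤ P.ramificationIdx (𝓞 T) := by
      rw [← h7]
      conv_rhs => rw [← h2, h4]
      exact Subgroup.card_le_card_group _
    have h9 : P.inertiaDeg (𝓞 T) = 1 := by
      have hpos' : 0 < P.inertiaDeg (𝓞 T) := Ideal.inertiaDeg_pos P (𝓞 T)
      have hpos2 : 0 < P.ramificationIdx (𝓞 T) := by rw [h5]; exact hpos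
      have h10 : P.inertiaDeg (𝓞 T) ≤ 1 := by
        by_contra hcon
        push Not at hcon
        nlinarith
      omega
    rw [Ideal.inertiaDeg_eq_of_isMaximal Q P] at h9
    intro b
    let _ : Field (𝓞 T ⧸ Q) := Ideal.Quotient.field Q
    have h10 := (finrank_eq_one_iff_of_nonzero' (K := 𝓞 T ⧸ Q) (1 : 𝓞 N ⧸ P) one_ne_zero).1 h9
      (Ideal.Quotient.mk P b)
    obtain ⟨c, hc⟩ := h10
    obtain ⟨a, rfl⟩ := Ideal.Quotient.mk_surjective c
    refine ⟨a, ?_⟩
    rw [← Ideal.Quotient.mk_eq_mk_iff_sub_mem, ← hc, Algebra.smul_def, mul_one]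
    rfl

end mathlib

section places

variable {K : Type} [Field K] [NumberField K] {L : Type} [Field L] [NumberField L] [Algebra K L]
variable {v : FinitePlace K} {w : FinitePlace L} {e : ℕ}

/-- the ramification bound, with the ramification index -/
theorem ram_bound' {ϖ : K} (hϖ : ∀ a : K, v a < 1 → v a ≤ v ϖ) (h : Above v w e) {E : ℕ}
    (heE : Ideal.ramificationIdx' v.maximalIdeal.asIdeal w.maximalIdeal.asIdeal ≤ E)
    (a : L) (ha : w a < 1) : (w a) ^ E ≤ w (algebraMap K L ϖ) := by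
  have hlo := above_liesOver h
  set e' := Ideal.ramificationIdx' v.maximalIdeal.asIdeal w.maximalIdeal.asIdeal with he'
  have hw : FinitePlace.mk w.maximalIdeal = w := FinitePlace.mk_maximalIdeal w
  have hv : FinitePlace.mk v.maximalIdeal = v := FinitePlace.mk_maximalIdeal v
  rw [← map_pow, ← hw, mk_le_iff, ← HeightOneSpectrum.valuation_liesOver L v.maximalIdeal]
  obtain ⟨π, hπ⟩ := v.maximalIdeal.valuation_exists_uniformizer K
  have h1 : v.maximalIdeal.valuation K π ≤ v.maximalIdeal.valuation K ϖ := by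
    rw [← mk_le_iff, hv]
    apply hϖ
    rw [← hv, mk_lt_one_iff, hπ, ← WithZero.exp_zero, WithZero.exp_lt_exp]
    norm_num
  have h2 : w.maximalIdeal.valuation L a ≤ WithZero.exp (-1 : ℤ) := by
    have h3 : w.maximalIdeal.valuation L a < 1 := by rw [← mk_lt_one_iff, hw]; exact ha
    rcases eq_or_ne (w.maximalIdeal.valuation L a) 0 with h0 | h0
    · rw [h0]; exact zero_le
    · rw [← WithZero.exp_log h0, ← WithZero.exp_zero, WithZero.exp_lt_exp] at h3
      rw [← WithZero.exp_log h0, WithZero.exp_le_exp]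
      omega
  rw [map_pow]
  calc (w.maximalIdeal.valuation L a) ^ E ≤ (WithZero.exp (-1 : ℤ)) ^ E :=
        pow_le_pow_left₀ zero_le h2 E
    _ ≤ (WithZero.exp (-1 : ℤ)) ^ e' := by
        apply pow_le_pow_right_of_le_one' _ heE
        rw [← WithZero.exp_zero, WithZero.exp_le_exp]; norm_num
    _ ≤ (v.maximalIdeal.valuation K ϖ) ^ e' := by
        rw [← hπ]
        exact pow_le_pow_left₀ zero_le h1 e'

end places

section groups

/-- the automorphisms over `K` which fix `M` -/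
def fixGroup (K M N : Type) [Field K] [Field M] [Field N] [Algebra K N] [Algebra M N] :
    Subgroup (N ≃ₐ[K] N) where
  carrier := {σ | ∀ a : M, σ (algebraMap M N a) = algebraMap M N a}
  mul_mem' := by
    intro σ τ hσ hτ a
    rw [AlgEquiv.mul_apply, hτ a, hσ a]
  one_mem' := fun _ => rfl
  inv_mem' := by
    intro σ hσ a
    conv_lhs => rw [← hσ a]
    rw [← AlgEquiv.mul_apply, inv_mul_cancel]
    rfl

/-- the inertia group of a place -/
noncomputable def inert (K : Type) {N : Type} [Field K] [Field N] [NumberField N] [Algebra K N]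
    (w : FinitePlace N) : Subgroup (N ≃ₐ[K] N) where
  carrier := {σ | (∀ a, w (σ a) = w a) ∧ ∀ a, w a ≤ 1 → w (σ a - a) < 1}
  mul_mem' := by
    rintro σ τ ⟨h1, h2⟩ ⟨h3, h4⟩
    refine ⟨fun a => by rw [AlgEquiv.mul_apply, h1, h3], fun a ha => ?_⟩
    have h5 : (σ * τ) a - a = (σ (τ a) - τ a) + (τ a - a) := by
      rw [AlgEquiv.mul_apply]; ring
    rw [h5]
    exact (FinitePlace.add_le w _ _).trans_lt (max_lt (h2 _ (by rw [h3]; exact ha)) (h4 a ha))
  one_mem' := ⟨fun _ => rfl, fun a _ => by simp⟩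
  inv_mem' := by
    rintro σ ⟨h1, h2⟩
    have h3 : ∀ a, w ((σ⁻¹ : N ≃ₐ[K] N) a) = w a := by
      intro a
      rw [← h1 ((σ⁻¹ : N ≃ₐ[K] N) a), ← AlgEquiv.mul_apply, mul_inv_cancel]
      rfl
    refine ⟨h3, fun a ha => ?_⟩
    have h4 := h2 ((σ⁻¹ : N ≃ₐ[K] N) a) (by rw [h3]; exact ha)
    rw [← AlgEquiv.mul_apply, mul_inv_cancel, ← map_neg_eq_map w, neg_sub] at h4
    exact h4

variable {K : Type} [Field K] [NumberField K] {M : Type} [Field M] [NumberField M] [Algebra K M]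
variable {N : Type} [Field N] [NumberField N] [Algebra K N] [Algebra M N] [IsScalarTower K M N]

/-- **The inertia group of a place of `N` over `M`.** -/
theorem inert_data [IsGalois M N] {v : FinitePlace K} {w : FinitePlace N} {e : ℕ}
    (h : Above v w e) {ϖ : K} (hϖ : ∀ a : K, v a < 1 → v a ≤ v ϖ) {E : ℕ}
    (hE : ∀ (u : FinitePlace M) (e₁ e₂ : ℕ), Above v u e₁ → Above u w e₂ →
      ¬ (v.maximalIdeal.asIdeal.map (algebraMap (𝓞 K) (𝓞 M)) ≤ u.maximalIdeal.asIdeal ^ (E + 1))) :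
    (∀ a, (∀ g ∈ fixGroup K M N ⊓ inert K w, g a = a) → w a < 1 →
      (w a) ^ E ≤ w (algebraMap K N ϖ)) ∧
    (∀ b, w b ≤ 1 → ∃ a, (∀ g ∈ fixGroup K M N ⊓ inert K w, g a = a) ∧ w a ≤ 1 ∧
      w (b - a) < 1) := by
  obtain ⟨uM, e₁, e₂, he₂, huM, hφ⟩ := place_comap h (IsScalarTower.toAlgHom K M N)
  have hMw : Above uM w e₂ := ⟨he₂, hφ⟩
  set P := w.maximalIdeal.asIdeal with hP
  have hPm : P.IsMaximal := w.maximalIdeal.isMaximal
  obtain ⟨T, hNF, hT, hram, hres⟩ := inertia_field (M := M) P w.maximalIdeal.ne_bot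
  have hfdK : FiniteDimensional K N := Module.Finite.of_restrictScalars_finite ℚ K N
  -- elements of the inertia group
  have hin1 : ∀ σ ∈ Ideal.inertia (N ≃ₐ[M] N) P,
      σ.restrictScalars K ∈ fixGroup K M N ⊓ inert K w := by
    intro σ hσ
    have h1 : ∀ a : N, w a ≤ 1 → w (σ a - a) < 1 := by
      intro a ha
      have h2 := frob_place σ w 1 (fun x => by rw [pow_one]; exact hσ x) a ha
      rwa [pow_one] at h2
    refine ⟨fun a => σ.commutes a, ?_, h1⟩
    refine place_inv w (σ.restrictScalars K) (n := orderOf (σ.restrictScalars K))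
      (orderOf_pos _) (pow_orderOf_eq_one _) ?_
    intro a ha
    have h3 : (σ.restrictScalars K) a = (σ a - a) + a := by
      change σ a = _
      ring
    rw [h3]
    exact (FinitePlace.add_le w _ _).trans (max_le (h1 a ha).le ha)
  have hin2 : ∀ g ∈ fixGroup K M N ⊓ inert K w, ∀ a ∈ T, g a = a := by
    rintro g ⟨hg1, hg2⟩ a ha
    let g' : N ≃ₐ[M] N := AlgEquiv.ofRingEquiv (f := g.toRingEquiv) hg1
    have hg' : g' ∈ Ideal.inertia (N ≃ₐ[M] N) P := by
      intro x
      change g' • x - x ∈ P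
      rw [hP, ← place_lt_one_iff]
      exact hg2.2 (x : N) (place_int_le w x)
    exact (hT a).1 ha g' hg'
  refine ⟨?_, ?_⟩
  · intro a ha hwa
    have haT : a ∈ T := (hT a).2 fun σ hσ => ha _ (hin1 σ hσ)
    obtain ⟨uT, e₃, e₄, he₄, huT, hφ'⟩ := place_comap hMw T.val
    have hTw : Above uT w e₄ := ⟨he₄, hφ'⟩
    have h1 : uT.maximalIdeal.asIdeal = P.under (𝓞 T) := (above_under hTw).symm
    have hlo := above_liesOver huT
    have h2 : Ideal.ramificationIdx' uM.maximalIdeal.asIdeal uT.maximalIdeal.asIdeal ≤ 1 := by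
      have hpr := uT.maximalIdeal.isPrime
      rw [Ideal.ramificationIdx'_eq_ramificationIdx _ _ uM.maximalIdeal.ne_bot, h1]
      exact hram.le
    obtain ⟨c, hc0, hc1, hcmax⟩ := exists_unif uM
    have h3 : uT (⟨a, haT⟩ : T) < 1 := by
      by_contra hcon
      push Not at hcon
      have h4 := hφ' (⟨a, haT⟩ : T)
      have h5 : (1 : ℝ) ≤ w (T.val ⟨a, haT⟩) := by rw [h4]; exact one_le_pow₀ hcon
      exact absurd hwa (not_lt.2 h5)
    have h4 := ram_bound' hcmax huT h2 (⟨a, haT⟩ : T) h3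
    rw [pow_one] at h4
    have h5 : w a ≤ w (algebraMap M N c) := by
      have e1 : w a = (uT (⟨a, haT⟩ : T)) ^ e₄ := hφ' (⟨a, haT⟩ : T)
      have e2 : w (algebraMap M N c) = (uT (algebraMap M T c)) ^ e₄ := hφ' (algebraMap M T c)
      rw [e1, e2]
      exact pow_le_pow_left₀ (apply_nonneg _ _) h4 e₄
    have h6 := ram_bound huM hϖ (hE uM e₁ e₂ huM hMw) c hc1
    have h7 : (w (algebraMap M N c)) ^ E ≤ w (algebraMap K N ϖ) := by
      have e1 : w (algebraMap M N c) = (uM c) ^ e₂ := hφ c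
      have e2 : w (algebraMap K N ϖ) = (uM (algebraMap K M ϖ)) ^ e₂ := by
        rw [IsScalarTower.algebraMap_apply K M N]
        exact hφ _
      rw [e1, e2, ← pow_mul, mul_comm, pow_mul]
      exact pow_le_pow_left₀ (pow_nonneg (apply_nonneg _ _) _) h6 e₂
    exact (pow_le_pow_left₀ (apply_nonneg _ _) h5 E).trans h7
  · intro b hb
    obtain ⟨b', hb'⟩ := approx w hb
    obtain ⟨a, ha⟩ := hres b'
    refine ⟨((algebraMap (𝓞 T) (𝓞 N) a : 𝓞 N) : N), ?_, place_int_le w _, ?_⟩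
    · intro g hg
      refine hin2 g hg _ ?_
      change algebraMap T N (a : T) ∈ T
      exact (a : T).2
    · have h1 : b - ((algebraMap (𝓞 T) (𝓞 N) a : 𝓞 N) : N) =
          (b - (b' : N)) + ((b' - algebraMap (𝓞 T) (𝓞 N) a : 𝓞 N) : N) := by
        have h0 : ((b' - algebraMap (𝓞 T) (𝓞 N) a : 𝓞 N) : N) =
          (b' : N) - ((algebraMap (𝓞 T) (𝓞 N) a : 𝓞 N) : N) := rfl
        rw [h0]; ring
      rw [h1]
      refine (FinitePlace.add_le w _ _).trans_lt (max_lt hb' ?_)
      rw [place_lt_one_iff]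
      exact ha

end groups

end Pool.DynLehmer
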