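import Mathlib
import Pool.Agent.Lib.MP_2194ec_nt.RamK

set_option autoImplicit false

/-!
# Places, Frobenius elements and inertia groups of a Galois extension
-/

namespace Pool.DynLehmer
open MvPolynomial NumberField IsDedekindDomain Filter Topology
open scoped Classical Pointwise LinearAlgebra.Projectivization

section mid

variable {K : Type} [Field K] [NumberField K]

/-- automorphisms lifting a power of Frobenius preserve the place -/
theorem frob_inv {N : Type} [Field N] [NumberField N] [Algebra K N] (w : FinitePlace N)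
    (τ : N ≃ₐ[K] N) {Q : ℕ} (h : ∀ a : N, w a ≤ 1 → w (τ a - a ^ Q) < 1) (a : N) :
    w (τ a) = w a := by
  have hfd : FiniteDimensional K N := Module.Finite.of_restrictScalars_finite ℚ K N
  refine place_inv w τ (n := orderOf τ) (orderOf_pos _) (pow_orderOf_eq_one _) ?_ a
  intro a ha
  have h1 : τ a = (τ a - a ^ Q) + a ^ Q := by ring
  rw [h1]
  refine (FinitePlace.add_le w _ _).trans (max_le (h a ha).le ?_)
  rw [map_pow]
  exact pow_le_one₀ (apply_nonneg w _) ha

end mid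

section data

variable {K : Type} [Field K] [NumberField K]

/-- the places, Frobenius elements and inertia groups of a Galois extension -/
theorem galois_data {p : ℕ} (hp : p.Prime) (v : FinitePlace K) (hv : v (p : K) < 1) {ϖ : K}
    (hunif : ∀ a : K, v a < 1 → v a ≤ v ϖ) :
    ∃ f : ℕ, 1 ≤ f ∧ ∀ (N : Type) [Field N] [NumberField N] [Algebra K N] [IsGalois K N],
      ∃ (S : Finset (FinitePlace N)) (e : FinitePlace N → ℕ)
        (τ : FinitePlace N → (N ≃ₐ[K] N)) (J : FinitePlace N → Subgroup (N ≃ₐ[K] N)),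
        (∀ w ∈ S, Above v w (e w)) ∧ Module.finrank K N ≤ 1 * ∑ w ∈ S, e w ∧
        (∀ w ∈ S, ∀ a, w a ≤ 1 → w (τ w a - a ^ (p ^ f)) < 1) ∧
        (∀ w ∈ S, ∀ a, w (τ w a) = w a) ∧
        (∀ w ∈ S, ∀ g ∈ J w, ∀ a, w (g a) = w a) ∧
        (∀ w ∈ S, ∀ a, (∀ g ∈ J w, g a = a) → w a < 1 → (w a) ^ 1 ≤ w (algebraMap K N ϖ)) ∧
        (∀ w ∈ S, ∀ b, w b ≤ 1 → ∃ a, (∀ g ∈ J w, g a = a) ∧ w a ≤ 1 ∧ w (b - a) < 1) := by
  obtain ⟨f, hf1, hf⟩ := exists_card_eq v hp hv
  refine ⟨f, hf1, ?_⟩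
  intro N _ _ _ _
  obtain ⟨S, e, hS, hsum⟩ := exists_above v N
  have hfd : FiniteDimensional K N := Module.Finite.of_restrictScalars_finite ℚ K N
  have hprime : ∀ w : FinitePlace N, w.maximalIdeal.asIdeal.IsPrime := fun w =>
    w.maximalIdeal.isPrime
  have hfrob : ∀ w ∈ S, ∃ τ : N ≃ₐ[K] N, ∀ a : N, w a ≤ 1 → w (τ a - a ^ (p ^ f)) < 1 := by
    intro w hw
    have hfinq : Finite (𝓞 N ⧸ w.maximalIdeal.asIdeal) :=
      Ideal.finiteQuotientOfFreeOfNeBot _ w.maximalIdeal.ne_bot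
    obtain ⟨σ0, hσ0⟩ := IsArithFrobAt.exists_of_isInvariant (𝓞 K) (N ≃ₐ[K] N)
      w.maximalIdeal.asIdeal
    refine ⟨σ0, frob_place σ0 w _ fun x => ?_⟩
    have h2 := hσ0 x
    rw [above_under (hS w hw), hf] at h2
    exact h2
  choose! τ hτ using hfrob
  have hid : ∀ (u : FinitePlace K) (e₁ : ℕ), Above v u e₁ →
      ¬ (v.maximalIdeal.asIdeal.map (algebraMap (𝓞 K) (𝓞 K)) ≤
        u.maximalIdeal.asIdeal ^ (1 + 1)) := by
    intro u e₁ hu hle
    have h1 : u.maximalIdeal.asIdeal = v.maximalIdeal.asIdeal := by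
      rw [← above_under hu]
      rfl
    rw [h1, Algebra.algebraMap_self, Ideal.map_id] at hle
    have hpr := v.maximalIdeal.isPrime
    have h2 := Ideal.pow_succ_lt_pow v.maximalIdeal.ne_bot 1
    rw [pow_one] at h2
    exact absurd (hle.trans_lt h2) (lt_irrefl _)
  refine ⟨S, e, τ, fun w => fixGroup K K N ⊓ inert K w, hS, ?_, hτ, fun w hw =>
    frob_inv w (τ w) (hτ w hw), fun w _ g hg => hg.2.1, fun w hw => ?_, fun w hw => ?_⟩
  · rw [hsum, one_mul]
  · exact (inert_data (M := K) (hS w hw) hunif (fun u e₁ _ hu _ => hid u e₁ hu)).1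
  · exact (inert_data (M := K) (hS w hw) hunif (fun u e₁ _ hu _ => hid u e₁ hu)).2

end data

section core

variable {K : Type} [Field K] [NumberField K] {p s : ℕ} {ι : Type} [Fintype ι] [DecidableEq ι]

theorem v_p_lt {v : FinitePlace K} (Φ : GF (OW v) p s ι) (hϖ : v (Φ.ϖ : K) < 1) :
    v (p : K) < 1 := by
  have h1 : (p : K) = (Φ.ϖ : K) * (Φ.c : K) := by
    have := congrArg (fun a : OW v => (a : K)) Φ.hp
    simpa using this
  rw [h1, map_mul]
  calc v (Φ.ϖ : K) * v (Φ.c : K) ≤ v (Φ.ϖ : K) * 1 :=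
        mul_le_mul_of_nonneg_left Φ.c.2 (apply_nonneg v _)
    _ < 1 := by rwa [mul_one]

end core

end Pool.DynLehmer
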