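import Mathlib
import Pool.Agent.Lib.MP_2194ec_nt.RamJ
import Pool.Agent.Lib.MP_2194ec_nt.SepE0

set_option autoImplicit false

/-!
# The relative lower bounds without ramification
-/

namespace Pool.DynLehmer
open MvPolynomial NumberField IsDedekindDomain Filter Topology
open scoped Classical Pointwise LinearAlgebra.Projectivization

section lift

variable {K : Type} [Field K] [NumberField K] {ι : Type} [Fintype ι]

/-- wandering points stay wandering in extensions -/
theorem wand_lift {d : ℕ} (F : ι → MvPolynomial ι K) (hF : ∀ i, (F i).IsHomogeneous d)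
    (hz : ∀ z : ι → AlgebraicClosure K, (∀ i, aeval z (F i) = 0) → z = 0)
    {L N : Type} [Field L] [Field N] [Algebra K L] [Algebra K N] (φ : L →ₐ[K] N)
    (x : ι → L) (hx : x ≠ 0)
    (hw : ¬ ∃ m n : ℕ, m ≠ n ∧ ∃ c : L, c ≠ 0 ∧ (gAct F L)^[n] x = c • (gAct F L)^[m] x) :
    ¬ ∃ m n : ℕ, m ≠ n ∧ ∃ c : N, c ≠ 0 ∧
      (gAct F N)^[n] (fun t => φ (x t)) = c • (gAct F N)^[m] (fun t => φ (x t)) := by
  rintro ⟨m, n, hmn, c, hc, h⟩
  apply hw
  rw [gAct_iter_map F φ, gAct_iter_map F φ] at h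
  have hne : ∀ k, (gAct F L)^[k] x ≠ 0 := fun k => gAct_iter_ne F hF hz k x hx
  obtain ⟨d, hd, h1⟩ := prop_of_minors (hne n) (hne m) (fun i j => by
    apply φ.toRingHom.injective
    have h2 := congrFun h i
    have h3 := congrFun h j
    simp only [Pi.smul_apply, smul_eq_mul] at h2 h3
    change φ _ = φ 0
    rw [map_sub, map_mul, map_mul, map_zero, h2, h3]
    ring)
  exact ⟨m, n, hmn, d, hd, h1⟩

end lift

section index

variable {K : Type} [Field K] [NumberField K] {M : Type} [Field M] [NumberField M] [Algebra K M]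
variable {L : Type} [Field L] [NumberField L] [Algebra K L] [Algebra M L] [IsScalarTower K M L]
variable {N : Type} [Field N] [NumberField N] [Algebra K N] [Algebra L N] [IsScalarTower K L N]
variable [Algebra M N] [IsScalarTower M L N] {ι : Type}

theorem idx_le_finrank (x : ι → L) (hx : x ≠ 0) :
    idx (fixGroup K M N) (fun t => algebraMap L N (x t)) ≤ Module.finrank M L := by
  have hfd : FiniteDimensional K N := Module.Finite.of_restrictScalars_finite ℚ K N
  have hfdL : FiniteDimensional K L := Module.Finite.of_restrictScalars_finite ℚ K L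
  have hPne : ∀ φ : L →ₐ[K] N, (fun t => φ (x t)) ≠ 0 := by
    intro φ h0
    apply hx
    funext t
    have := congrFun h0 t
    simpa using this
  have hP0 : (fun t => algebraMap L N (x t)) ≠ 0 := hPne (IsScalarTower.toAlgHom K L N)
  have hne : ∀ σ : N ≃ₐ[K] N, gal (1 * σ) (fun t => algebraMap L N (x t)) ≠ 0 := fun σ =>
    gal_ne _ hP0
  rw [← card_orbit (fixGroup K M N) (fun t => algebraMap L N (x t)) 1 hne]
  have h1 : ((fin (fixGroup K M N)).image fun σ =>
      Projectivization.mk N (gal (1 * σ) (fun t => algebraMap L N (x t))) (hne σ)) ⊆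
      (relEmb K M L N).image fun φ => Projectivization.mk N (fun t => φ (x t)) (hPne φ) := by
    intro y hy
    obtain ⟨σ, hσ, rfl⟩ := Finset.mem_image.1 hy
    have hσ' : ∀ a : M, σ (algebraMap M N a) = algebraMap M N a := mem_fin.1 hσ
    refine Finset.mem_image.2 ⟨(σ : N →ₐ[K] N).comp (IsScalarTower.toAlgHom K L N), ?_, rfl⟩
    rw [mem_relEmb]
    intro a
    change σ (algebraMap L N (algebraMap M L a)) = _
    rw [← IsScalarTower.algebraMap_apply M L N, hσ']
  exact (Finset.card_le_card h1).trans (Finset.card_image_le.trans card_relEmb)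

end index

section mid

variable {K : Type} [Field K] [NumberField K] {p s : ℕ} {ι : Type} [Fintype ι] [DecidableEq ι]

theorem rel_mid [Nonempty ι] (hι : 2 ≤ Fintype.card ι) (hp : p.Prime) (hs : 1 ≤ s)
    (v : FinitePlace K)
    (Φ : GF (OW v) p s ι) (hϖ : v (Φ.ϖ : K) < 1) (hϖ0 : (Φ.ϖ : K) ≠ 0)
    (hunif : ∀ a : K, v a < 1 → v a ≤ v (Φ.ϖ : K))
    (F : ι → MvPolynomial ι K) (hF : ∀ i, (F i).IsHomogeneous (p ^ s))
    (hz : ∀ z : ι → AlgebraicClosure K, (∀ i, aeval z (F i) = 0) → z = 0)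
    (hΦF : ∀ i, map (OW v).subtype (Φ.F i) = F i) (m' : ℕ) (hm' : 1 ≤ m') :
    ∃ A B : ℝ, 0 < A ∧ 0 < B ∧ ∀ (M L N : Type) [Field M] [NumberField M] [Algebra K M]
      [Field L] [NumberField L] [Algebra K L] [Algebra M L] [IsScalarTower K M L]
      [Field N] [NumberField N] [Algebra K N] [Algebra L N] [IsScalarTower K L N]
      [Algebra M N] [IsScalarTower M L N] [IsScalarTower K M N] [IsGalois M N] (f' : ℕ)
      (s0 : N ≃ₐ[K] N)
      (S : Finset (FinitePlace N)) (e : FinitePlace N → ℕ) (τ : FinitePlace N → (N ≃ₐ[K] N))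
      (E : ℕ), 1 ≤ f' → 1 ≤ E →
      (∀ w ∈ S, Above v w (e w)) → (Module.finrank K N ≤ m' * ∑ w ∈ S, e w) →
      (∀ w ∈ S, ∀ a : N, w a ≤ 1 → w (τ w a - a ^ (p ^ f')) < 1) →
      (∀ w ∈ S, ∀ l : ℕ, (τ w) ^ l * (s0 ^ l)⁻¹ ∈ fixGroup K M N) →
      (∀ w ∈ S, ∀ (u : FinitePlace M) (e₁ e₂ : ℕ), Above v u e₁ → Above u w e₂ →
        ¬ (v.maximalIdeal.asIdeal.map (algebraMap (𝓞 K) (𝓞 M)) ≤
          u.maximalIdeal.asIdeal ^ (E + 1))) →
      ∀ x : ι → L, x ≠ 0 →
      (¬ ∃ m n : ℕ, m ≠ n ∧ ∃ c : L, c ≠ 0 ∧ (gAct F L)^[n] x = c • (gAct F L)^[m] x) →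
      ∃ h : ℝ, Tendsto (fun n : ℕ => Height.logHeight ((gAct F L)^[n] x) /
        (Module.finrank ℚ L : ℝ) / ((p ^ s : ℕ) : ℝ) ^ n) atTop (𝓝 h) ∧
        A / ((Module.finrank M L : ℝ) * E) * Real.exp (-(B * f' *
          (1 + (Real.log (Module.finrank M L)) ^
          (((Fintype.card ι - 1 : ℕ) : ℝ) / (((Fintype.card ι - 1 : ℕ) : ℝ) + 1))))) ≤ h := by
  obtain ⟨A, B, hA, hB, hbound⟩ := rel_core2 hι hp hs v Φ hϖ hϖ0 F hF hz hΦF m' hm'
  refine ⟨A, B, hA, hB, ?_⟩
  intro M L N _ _ _ _ _ _ _ _ _ _ _ _ _ _ _ _ _ f' s0 S e τ E hf' hE1 hS hcard hfrob hτΓ hE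
    x hx hwand
  have hφ0 := wand_lift F hF hz (IsScalarTower.toAlgHom K L N) x hx hwand
  have hP0 : (fun t => IsScalarTower.toAlgHom K L N (x t)) ≠ 0 := by
    intro h0
    apply hx
    funext t
    have := congrFun h0 t
    simpa using this
  obtain ⟨h, hlim, hle⟩ := hbound N f' (fixGroup K M N) s0 S e τ
    (fun w => fixGroup K M N ⊓ inert K w) E hf' hE1 hS hcard hfrob
    (fun w hw => frob_inv w (τ w) (hfrob w hw)) hτΓ (fun w _ => inf_le_left)
    (fun w _ g hg => hg.2.1)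
    (fun w hw => (inert_data (M := M) (hS w hw) hunif (hE w hw)).1)
    (fun w hw => (inert_data (M := M) (hS w hw) hunif (hE w hw)).2)
    (fun t => IsScalarTower.toAlgHom K L N (x t)) hP0 hφ0
  refine ⟨h, ?_, le_trans ?_ hle⟩
  · refine hlim.congr fun n => ?_
    rw [gAct_iter_map F (IsScalarTower.toAlgHom K L N) n x]
    rw [show Height.logHeight (fun i => (IsScalarTower.toAlgHom K L N) ((gAct F L)^[n] x i)) /
      (Module.finrank ℚ N : ℝ) = Height.logHeight ((gAct F L)^[n] x) / (Module.finrank ℚ L : ℝ)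
      from logHeight_hom ((IsScalarTower.toAlgHom K L N : L →ₐ[K] N) : L →+* N) _]
  · have hfd : FiniteDimensional K N := Module.Finite.of_restrictScalars_finite ℚ K N
    have h1 : idx (fixGroup K M N) (fun t => IsScalarTower.toAlgHom K L N (x t)) ≤
        Module.finrank M L := idx_le_finrank x hx
    have h2 : (1 : ℝ) ≤ idx (fixGroup K M N) (fun t => IsScalarTower.toAlgHom K L N (x t)) := by
      exact_mod_cast idx_pos _ _
    have hEpos : (0 : ℝ) < E := by exact_mod_cast hE1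
    exact bound_mono_card (c := B * (f' : ℝ)) hA.le (by positivity) h2 (by exact_mod_cast h1)
      hEpos (by positivity)

end mid

section results

variable {K : Type} [Field K] [NumberField K] {ι : Type} [Fintype ι] [DecidableEq ι]

omit [DecidableEq ι] in
/-- there are no wandering points in dimension zero -/
theorem card_two_of_wand [Nonempty ι] (F : ι → MvPolynomial ι K) {d : ℕ}
    (hF : ∀ i, (F i).IsHomogeneous d)
    (hz : ∀ z : ι → AlgebraicClosure K, (∀ i, aeval z (F i) = 0) → z = 0)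
    {L : Type} [Field L] [Algebra K L] (x : ι → L) (hx : x ≠ 0)
    (hw : ¬ ∃ m n : ℕ, m ≠ n ∧ ∃ c : L, c ≠ 0 ∧ (gAct F L)^[n] x = c • (gAct F L)^[m] x) :
    2 ≤ Fintype.card ι := by
  by_contra hcon
  have h1 : Fintype.card ι = 1 := by
    have := Fintype.card_pos (α := ι)
    omega
  obtain ⟨i0, hi0⟩ := Fintype.card_eq_one_iff.1 h1
  apply hw
  have hne : ∀ k, (gAct F L)^[k] x ≠ 0 := fun k => gAct_iter_ne F hF hz k x hx
  obtain ⟨c, hc, h⟩ := prop_of_minors (hne 1) (hne 0) (fun i j => by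
    rw [hi0 i, hi0 j]; ring)
  exact ⟨0, 1, by norm_num, c, hc, h⟩

/-- **The relative bound over Galois fields, without ramification.** -/
theorem rel_galois2 [Nonempty ι] (hι : 2 ≤ Fintype.card ι) {d p s : ℕ} (hd : 2 ≤ d)
    (F : ι → MvPolynomial ι K) (hF : ∀ i, (F i).IsHomogeneous d)
    (hz : ∀ z : ι → AlgebraicClosure K, (∀ i, aeval z (F i) = 0) → z = 0)
    (hp : p.Prime) (hs : 1 ≤ s) (v : FinitePlace K)
    (P : ι → MvPolynomial ι K) (hP : ∀ i, (P i).IsHomogeneous (p ^ s))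
    (hv : v (p : K) < 1) (hint : ∀ i t, v (coeff t (P i)) ≤ 1)
    (hred : ∀ i t, (∀ j, t ≠ Finsupp.single j (p ^ s)) → v (coeff t (P i)) < 1)
    (hdet : v (Matrix.det (Matrix.of fun i j => coeff (Finsupp.single j (p ^ s)) (P i))) = 1)
    (hc : ∀ i j, bind₁ P (F i) * bind₁ F (P j) = bind₁ P (F j) * bind₁ F (P i))
    (m : ℕ) (hm : 1 ≤ m) :
    ∃ A B : ℝ, 0 < A ∧ 0 < B ∧ ∀ (r : ℕ), 1 ≤ r → ∀ (M : Type) [Field M] [NumberField M]
      [Algebra K M] [IsGalois K M],
      (∀ g : M ≃ₐ[K] M, {h | IsConj (g ^ r) h}.ncard ≤ m) →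
      ∀ E : ℕ, 1 ≤ E →
      (∀ Q : Ideal (𝓞 M), Q.IsPrime → Q.LiesOver v.maximalIdeal.asIdeal →
        ¬ (v.maximalIdeal.asIdeal.map (algebraMap (𝓞 K) (𝓞 M)) ≤ Q ^ (E + 1))) →
      ∀ (L : Type) [Field L] [NumberField L] [Algebra K L] [Algebra M L] [IsScalarTower K M L],
      ∀ x : ι → L, x ≠ 0 →
      (¬ ∃ m n : ℕ, m ≠ n ∧ ∃ c : L, c ≠ 0 ∧ (gAct F L)^[n] x = c • (gAct F L)^[m] x) →
      ∃ h : ℝ, Tendsto (fun n : ℕ => Height.logHeight ((gAct F L)^[n] x) /
        (Module.finrank ℚ L : ℝ) / (d : ℝ) ^ n) atTop (𝓝 h) ∧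
        A / ((Module.finrank M L : ℝ) * E) * Real.exp (-(B * r *
          (1 + (Real.log (Module.finrank M L)) ^
          (((Fintype.card ι - 1 : ℕ) : ℝ) / (((Fintype.card ι - 1 : ℕ) : ℝ) + 1))))) ≤ h := by
  obtain ⟨Φ, hΦP, hϖ0, hϖ, hunif⟩ := exists_GF v hp P hP hv hint hred hdet
  have hzP := gno_common_zero hp Φ hϖ P hΦP
  obtain ⟨f, hf1, hf⟩ := exists_card_eq v hp hv
  obtain ⟨A, B, hA, hB, hbound⟩ := rel_mid hι hp hs v Φ hϖ hϖ0 hunif P hP hzP hΦP m hm
  have hfpos : (0 : ℝ) < f := by exact_mod_cast hf1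
  refine ⟨A, B * f, hA, by positivity, ?_⟩
  intro r hr M _ _ _ _ hconj E hE hram L _ _ _ _ _ x hx hwand
  have hq2 : 2 ≤ p ^ s := hp.two_le.trans (Nat.le_self_pow (by omega) p)
  obtain ⟨hwandP, htrans⟩ := commute_transfer hd hq2 F P hF hP hz hzP hc L x hx hwand
  -- the Galois closure
  let N := IntermediateField.normalClosure K L (AlgebraicClosure L)
  have hfdKL : FiniteDimensional K L := Module.Finite.of_restrictScalars_finite ℚ K L
  have hfd : FiniteDimensional K N := normalClosure.is_finiteDimensional K L (AlgebraicClosure L)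
  have hNnf : NumberField N := NumberField.of_module_finite K N
  have hnormal : Normal K N := normalClosure.normal K L (AlgebraicClosure L)
  have hgal : IsGalois K N := ⟨⟩
  let _ : Algebra M N := ((algebraMap L N).comp (algebraMap M L)).toAlgebra
  have htowM : IsScalarTower M L N := IsScalarTower.of_algebraMap_eq fun _ => rfl
  have htow : IsScalarTower K M N := by
    refine IsScalarTower.of_algebraMap_eq fun a => ?_
    change algebraMap K N a = algebraMap L N (algebraMap M L (algebraMap K M a))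
    rw [← IsScalarTower.algebraMap_apply K M L, ← IsScalarTower.algebraMap_apply K L N]
  have hgalM : IsGalois M N := IsGalois.tower_top_of_isGalois K M N
  obtain ⟨S, e, hS, hsum⟩ := exists_above v N
  have hne : S.Nonempty := by
    rw [Finset.nonempty_iff_ne_empty]
    intro h0
    rw [h0, Finset.sum_empty] at hsum
    exact (Module.finrank_pos (R := K) (M := N)).ne hsum
  obtain ⟨w0, hw0⟩ := hne
  -- the reference Frobenius
  have hprime : ∀ w : FinitePlace N, w.maximalIdeal.asIdeal.IsPrime := fun w =>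
    w.maximalIdeal.isPrime
  have hfinq : Finite (𝓞 N ⧸ w0.maximalIdeal.asIdeal) :=
    Ideal.finiteQuotientOfFreeOfNeBot _ w0.maximalIdeal.ne_bot
  obtain ⟨σ0, hσ0⟩ := IsArithFrobAt.exists_of_isInvariant (𝓞 K) (N ≃ₐ[K] N)
    w0.maximalIdeal.asIdeal
  have hτ : ∀ w ∈ S, ∃ τ : N ≃ₐ[K] N, w.maximalIdeal.asIdeal = τ • w0.maximalIdeal.asIdeal := by
    intro w hw
    exact Algebra.IsInvariant.exists_smul_of_under_eq (𝓞 K) (𝓞 N) (N ≃ₐ[K] N)
      w0.maximalIdeal.asIdeal w.maximalIdeal.asIdeal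
      (by rw [above_under (hS w0 hw0), above_under (hS w hw)])
  choose! τ hτ using hτ
  set φ : FinitePlace N → (N ≃ₐ[K] N) := fun w => (τ w * σ0 * (τ w)⁻¹) ^ r with hφ
  have hφfrob : ∀ w ∈ S, ∀ a : N, w a ≤ 1 → w (φ w a - a ^ (p ^ (f * r))) < 1 := by
    intro w hw
    have h1 : ∀ x : 𝓞 N, (τ w * σ0 * (τ w)⁻¹) • x - x ^ (p ^ f) ∈ w.maximalIdeal.asIdeal := by
      intro x
      have h2 := (hσ0.conj (τ w)) x
      rw [← hτ w hw, above_under (hS w hw), hf] at h2
      exact h2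
    have h3 := frob_pow (τ w * σ0 * (τ w)⁻¹) w (p ^ f) (frob_place _ w _ h1) r
    intro a ha
    have h4 := h3 a ha
    rw [← pow_mul] at h4
    exact h4
  -- restriction to `M`
  set R : (N ≃ₐ[K] N) →* (M ≃ₐ[K] M) := AlgEquiv.restrictNormalHom M with hR
  have hRc : ∀ (σ : N ≃ₐ[K] N) (a : M), algebraMap M N (R σ a) = σ (algebraMap M N a) :=
    fun σ a => AlgEquiv.restrictNormal_commutes σ M a
  have hcardφ : (S.image fun w => R (φ w)).card ≤ m := by
    refine le_trans ?_ (hconj (R σ0))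
    have hfinM : Finite (M ≃ₐ[K] M) := by
      have : FiniteDimensional K M := Module.Finite.of_restrictScalars_finite ℚ K M
      infer_instance
    rw [← Set.ncard_coe_finset]
    apply Set.ncard_le_ncard _ (Set.toFinite _)
    intro g hg
    rw [Finset.coe_image] at hg
    obtain ⟨w, _, rfl⟩ := hg
    change IsConj ((R σ0) ^ r) (R ((τ w * σ0 * (τ w)⁻¹) ^ r))
    rw [isConj_iff]
    exact ⟨R (τ w), by rw [conj_pow, map_mul, map_mul, map_inv, map_pow]⟩
  obtain ⟨β, hβ⟩ := pigeonhole S e (fun w => R (φ w)) m hcardφ ⟨w0, hw0⟩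
  set S' := S.filter fun w => R (φ w) = β with hS'
  have hne' : S'.Nonempty := by
    rw [Finset.nonempty_iff_ne_empty]
    intro h0
    rw [h0, Finset.sum_empty, mul_zero, hsum] at hβ
    exact absurd (Module.finrank_pos (R := K) (M := N)) (not_lt.2 hβ)
  obtain ⟨w1, hw1⟩ := hne'
  have hfr1 : 1 ≤ f * r := Nat.mul_pos hf1 hr
  obtain ⟨h, hlim, hle⟩ := hbound M L N (f * r) (φ w1) S' e φ E hfr1
    hE (fun w hw => hS w (Finset.mem_filter.1 hw).1)
    (by rw [← hsum]; exact hβ)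
    (fun w hw => hφfrob w (Finset.mem_filter.1 hw).1)
    (fun w hw l a => by
      have hwS : R (φ w) = β := (Finset.mem_filter.1 hw).2
      have hw1S : R (φ w1) = β := (Finset.mem_filter.1 hw1).2
      have e4 : ∀ σ : N ≃ₐ[K] N, R (σ ^ l) = (R σ) ^ l := fun σ => map_pow R σ l
      rw [← hRc, map_mul, map_inv, e4, e4, hwS, hw1S, mul_inv_cancel]
      rfl)
    (fun w _ u e₁ e₂ hu _ => hram _ u.maximalIdeal.isPrime (above_liesOver hu))
    x hx hwandP
  refine ⟨h, htrans h hlim, le_trans (le_of_eq ?_) hle⟩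
  push_cast
  ring_nf

/-- **The relative bound for fields with small residue degrees, without ramification.** -/
theorem rel_residue2 [Nonempty ι] (hι : 2 ≤ Fintype.card ι) {d p s : ℕ} (hd : 2 ≤ d)
    (F : ι → MvPolynomial ι K) (hF : ∀ i, (F i).IsHomogeneous d)
    (hz : ∀ z : ι → AlgebraicClosure K, (∀ i, aeval z (F i) = 0) → z = 0)
    (hp : p.Prime) (hs : 1 ≤ s) (v : FinitePlace K)
    (P : ι → MvPolynomial ι K) (hP : ∀ i, (P i).IsHomogeneous (p ^ s))
    (hv : v (p : K) < 1) (hint : ∀ i t, v (coeff t (P i)) ≤ 1)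
    (hred : ∀ i t, (∀ j, t ≠ Finsupp.single j (p ^ s)) → v (coeff t (P i)) < 1)
    (hdet : v (Matrix.det (Matrix.of fun i j => coeff (Finsupp.single j (p ^ s)) (P i))) = 1)
    (hc : ∀ i j, bind₁ P (F i) * bind₁ F (P j) = bind₁ P (F j) * bind₁ F (P i))
    (m : ℕ) (hm : 1 ≤ m) :
    ∃ A B : ℝ, 0 < A ∧ 0 < B ∧ ∀ (f : ℕ), 1 ≤ f → ∀ (M : Type) [Field M] [NumberField M]
      [Algebra K M] (S : Finset (FinitePlace M)) (e : FinitePlace M → ℕ),
      (∀ w ∈ S, ∀ a : K, w (algebraMap K M a) = (v a) ^ e w) →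
      Module.finrank K M ≤ m * ∑ w ∈ S, e w →
      (∀ w ∈ S, ∃ g, g ∣ f ∧ Nat.card (𝓞 M ⧸ w.maximalIdeal.asIdeal) = p ^ g) →
      ∀ E : ℕ, 1 ≤ E →
      (∀ w ∈ S, ¬ (v.maximalIdeal.asIdeal.map (algebraMap (𝓞 K) (𝓞 M)) ≤
        w.maximalIdeal.asIdeal ^ (E + 1))) →
      ∀ (L : Type) [Field L] [NumberField L] [Algebra K L] [Algebra M L] [IsScalarTower K M L],
      ∀ x : ι → L, x ≠ 0 →
      (¬ ∃ m n : ℕ, m ≠ n ∧ ∃ c : L, c ≠ 0 ∧ (gAct F L)^[n] x = c • (gAct F L)^[m] x) →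
      ∃ h : ℝ, Tendsto (fun n : ℕ => Height.logHeight ((gAct F L)^[n] x) /
        (Module.finrank ℚ L : ℝ) / (d : ℝ) ^ n) atTop (𝓝 h) ∧
        A / ((Module.finrank M L : ℝ) * E) * Real.exp (-(B * f *
          (1 + (Real.log (Module.finrank M L)) ^
          (((Fintype.card ι - 1 : ℕ) : ℝ) / (((Fintype.card ι - 1 : ℕ) : ℝ) + 1))))) ≤ h := by
  obtain ⟨Φ, hΦP, hϖ0, hϖ, hunif⟩ := exists_GF v hp P hP hv hint hred hdet
  have hzP := gno_common_zero hp Φ hϖ P hΦP
  obtain ⟨A, B, hA, hB, hbound⟩ := rel_mid hι hp hs v Φ hϖ hϖ0 hunif P hP hzP hΦP m hm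
  refine ⟨A, B, hA, hB, ?_⟩
  intro f hf M _ _ _ S e hS0 hcard hres E hE hram L _ _ _ _ _ x hx hwand
  have hq2 : 2 ≤ p ^ s := hp.two_le.trans (Nat.le_self_pow (by omega) p)
  obtain ⟨hwandP, htrans⟩ := commute_transfer hd hq2 F P hF hP hz hzP hc L x hx hwand
  have hSab : ∀ w ∈ S, Above v w (e w) := by
    intro w hw
    refine ⟨?_, hS0 w hw⟩
    rw [Nat.pos_iff_ne_zero]
    intro h0
    have := hS0 w hw 0
    rw [h0] at this
    simp at this
  -- the Galois closure
  let N := IntermediateField.normalClosure K L (AlgebraicClosure L)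
  have hfdKL : FiniteDimensional K L := Module.Finite.of_restrictScalars_finite ℚ K L
  have hfd : FiniteDimensional K N := normalClosure.is_finiteDimensional K L (AlgebraicClosure L)
  have hNnf : NumberField N := NumberField.of_module_finite K N
  have hnormal : Normal K N := normalClosure.normal K L (AlgebraicClosure L)
  have hgal : IsGalois K N := ⟨⟩
  let _ : Algebra M N := ((algebraMap L N).comp (algebraMap M L)).toAlgebra
  have htowM : IsScalarTower M L N := IsScalarTower.of_algebraMap_eq fun _ => rfl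
  have htow : IsScalarTower K M N := by
    refine IsScalarTower.of_algebraMap_eq fun a => ?_
    change algebraMap K N a = algebraMap L N (algebraMap M L (algebraMap K M a))
    rw [← IsScalarTower.algebraMap_apply K M L, ← IsScalarTower.algebraMap_apply K L N]
  have hgalM : IsGalois M N := IsGalois.tower_top_of_isGalois K M N
  -- the places of `N` above `S`
  have hT : ∀ w : FinitePlace M, ∃ (T : Finset (FinitePlace N)) (g : FinitePlace N → ℕ),
      (∀ w' ∈ T, Above w w' (g w')) ∧ ∑ w' ∈ T, g w' = Module.finrank M N :=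
    fun w => exists_above w N
  choose T g hTg hTsum using hT
  set S' : Finset (FinitePlace N) := S.biUnion T with hS'
  set e' : FinitePlace N → ℕ := fun w' => ∑ w ∈ S, if w' ∈ T w then g w w' * e w else 0 with he'
  have he'eq : ∀ w ∈ S, ∀ w' ∈ T w, e' w' = g w w' * e w := by
    intro w hw w' hw'
    simp only [he']
    rw [Finset.sum_eq_single w]
    · rw [if_pos hw']
    · intro w₂ hw₂ hne
      rw [if_neg]
      intro hcon
      exact hne (base_unique (hTg w₂ w' hcon) (hTg w w' hw'))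
    · intro h; exact absurd hw h
  have hS'ab : ∀ w' ∈ S', Above v w' (e' w') := by
    intro w' hw'
    obtain ⟨w, hw, hww'⟩ := Finset.mem_biUnion.1 hw'
    rw [he'eq w hw w' hww']
    refine ⟨Nat.mul_pos (hTg w w' hww').1 (hSab w hw).1, fun a => ?_⟩
    rw [IsScalarTower.algebraMap_apply K M N, (hTg w w' hww').2, (hSab w hw).2, ← pow_mul,
      mul_comm]
  have hsum' : ∑ w' ∈ S', e' w' = Module.finrank M N * ∑ w ∈ S, e w := by
    simp only [he']
    rw [Finset.sum_comm, Finset.mul_sum]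
    refine Finset.sum_congr rfl fun w hw => ?_
    rw [← Finset.sum_filter]
    have h1 : S'.filter (fun w' => w' ∈ T w) = T w := by
      ext w'
      rw [Finset.mem_filter]
      exact ⟨fun h => h.2, fun h => ⟨Finset.mem_biUnion.2 ⟨w, hw, h⟩, h⟩⟩
    rw [h1, ← Finset.sum_mul, hTsum]
  have hcard' : Module.finrank K N ≤ m * ∑ w' ∈ S', e' w' := by
    rw [hsum', ← Module.finrank_mul_finrank K M N]
    calc Module.finrank K M * Module.finrank M N
        ≤ (m * ∑ w ∈ S, e w) * Module.finrank M N := Nat.mul_le_mul_right _ hcard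
      _ = m * (Module.finrank M N * ∑ w ∈ S, e w) := by ring
  -- Frobenius elements over `M`
  have hfrob : ∀ w' ∈ S', ∃ τ : N ≃ₐ[K] N, (∀ a : N, w' a ≤ 1 → w' (τ a - a ^ (p ^ f)) < 1) ∧
      ∀ a : M, τ (algebraMap M N a) = algebraMap M N a := by
    intro w' hw'
    obtain ⟨w, hw, hww'⟩ := Finset.mem_biUnion.1 hw'
    have hprime : w'.maximalIdeal.asIdeal.IsPrime := w'.maximalIdeal.isPrime
    have hfinq : Finite (𝓞 N ⧸ w'.maximalIdeal.asIdeal) :=
      Ideal.finiteQuotientOfFreeOfNeBot _ w'.maximalIdeal.ne_bot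
    obtain ⟨σ, hσ⟩ := IsArithFrobAt.exists_of_isInvariant (𝓞 M) (N ≃ₐ[M] N)
      w'.maximalIdeal.asIdeal
    obtain ⟨g₀, hg₀, hg₁⟩ := hres w hw
    have h1 : ∀ x : 𝓞 N, σ • x - x ^ (p ^ g₀) ∈ w'.maximalIdeal.asIdeal := by
      intro x
      have h2 := hσ x
      rw [above_under (hTg w w' hww'), hg₁] at h2
      exact h2
    have h3 := frob_pow σ w' (p ^ g₀) (frob_place σ w' _ h1) (f / g₀)
    refine ⟨(σ ^ (f / g₀)).restrictScalars K, ?_, ?_⟩
    · intro a ha
      have h4 := h3 a ha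
      rw [← pow_mul, Nat.mul_div_cancel' hg₀] at h4
      exact h4
    · intro a
      exact (σ ^ (f / g₀)).commutes a
  choose! τ hτ hτM using hfrob
  obtain ⟨h, hlim, hle⟩ := hbound M L N f 1 S' e' τ E hf hE hS'ab hcard' hτ
    (fun w' hw' l => by
      rw [one_pow, inv_one, mul_one]
      exact Subgroup.pow_mem (fixGroup K M N) (show τ w' ∈ fixGroup K M N from hτM w' hw') l)
    (fun w' hw' u e₁ e₂ hu huw => by
      obtain ⟨w, hw, hww'⟩ := Finset.mem_biUnion.1 hw'
      rw [base_unique huw (hTg w w' hww')]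
      exact hram w hw)
    x hx hwandP
  exact ⟨h, htrans h hlim, hle⟩

end results

end Pool.DynLehmer
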