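import Mathlib
import Pool.Agent.Lib.MP_2194ec_nt.SepA

set_option autoImplicit false

/-!
# The height inequality with separating forms of given degree
-/

namespace Pool.DynLehmer
open MvPolynomial NumberField Filter Topology
open scoped Classical LinearAlgebra.Projectivization

section energy

variable {N : Type} [Field N] [NumberField N] {ι : Type}
variable {K : Type} [Field K] [NumberField K] [Algebra K N]
variable {p s : ℕ} [Fintype ι] [DecidableEq ι] [Nonempty ι]
variable {v : FinitePlace K} (Φ : GF (OW v) p s ι)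

/-- **The energy inequality, with separating forms of given degree.** -/
theorem energy3 (hϖ : v (Φ.ϖ : K) < 1)
    (F : ι → MvPolynomial ι K) (hF : ∀ i, (F i).IsHomogeneous (p ^ s))
    (hz0 : ∀ z : ι → AlgebraicClosure K, (∀ i, aeval z (F i) = 0) → z = 0)
    (hΦF : ∀ i, map (OW v).subtype (Φ.F i) = F i) {b : ℕ}
    (hb : ∀ (J : ℕ) (G : MvPolynomial ι K), G.IsHomogeneous (dl b (p ^ s) J) →
      G ∈ Submodule.span K {Q : MvPolynomial ι K | ∃ μ : ℕ → ι →₀ ℕ,
        (∀ j, (μ j).degree = b) ∧ Q = gQ F J μ})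
    (S : Finset (FinitePlace N)) (e : FinitePlace N → ℕ) (hS : ∀ w ∈ S, Above v w (e w))
    {n J : ℕ} (z : Fin n → ι → N) (hz : ∀ a, z a ≠ 0)
    (hsep : ∀ a, ∃ G : MvPolynomial ι N, G.IsHomogeneous (dl b (p ^ s) J) ∧
      eval (z a) G ≠ 0 ∧ ∀ i, i ≠ a → eval (z i) G = 0)
    (Good : FinitePlace N → Finset (Fin n)) (ω : FinitePlace N → ℝ)
    (hω0 : ∀ w ∈ S, 0 < ω w) (hω1 : ∀ w ∈ S, ω w ≤ 1) (hG : ∀ w ∈ S, Gain w z (Good w) (ω w)) :
    ∑ w ∈ S, ((Good w).card / 2 : ℝ) * (- Real.log (ω w)) ≤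
      ∑ i, ∑ j ∈ Finset.range (J + 1), (b : ℝ) * Height.logHeight ((gAct F N)^[j] (z i)) +
      Module.finrank ℚ N * Real.log (n.factorial) := by
  obtain ⟨μ, hμ, hdet⟩ := exists_gQ_det F (hb J) z hsep
  set D := (Matrix.of fun i a => aeval (z i) (gQ F J (μ a))).det with hD
  have hne : ∀ (j : ℕ) i, (gAct F N)^[j] (z i) ≠ 0 := fun j i =>
    gAct_iter_ne F hF hz0 j (z i) (hz i)
  have hL := liouville (κ := Fin n × Fin (J + 1)) hdet (fun k => (gAct F N)^[k.2] (z k.1))
    (fun k => hne k.2 k.1) (fun _ => b) (n.factorial : ℝ)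
    (by exact_mod_cast Nat.one_le_iff_ne_zero.2 (Nat.factorial_ne_zero _))
    (fun w => by
      rw [Fintype.prod_prod_type]
      refine det_le_abv w.1 _ _ fun i a => ?_
      rw [Fin.prod_univ_eq_prod_range (fun j => (⨆ l, w ((gAct F N)^[j] (z i) l)) ^ b)]
      exact gQ_entry_le F w J (μ a) (hμ a) (z i))
    (fun w => by
      rw [Fintype.prod_prod_type]
      refine det_le_finite w _ _ (fun i => ?_) fun i a => ?_
      · refine Finset.prod_nonneg fun j _ => pow_nonneg ?_ _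
        exact Real.iSup_nonneg fun l => apply_nonneg w _
      · rw [Fin.prod_univ_eq_prod_range (fun j => (⨆ l, w ((gAct F N)^[j] (z i) l)) ^ b)]
        exact gQ_entry_le F w J (μ a) (hμ a) (z i)) S
  have hR : ∑ k : Fin n × Fin (J + 1), (b : ℝ) * Height.logHeight ((gAct F N)^[k.2] (z k.1)) =
      ∑ i, ∑ j ∈ Finset.range (J + 1), (b : ℝ) * Height.logHeight ((gAct F N)^[j] (z i)) := by
    rw [Fintype.sum_prod_type]
    refine Finset.sum_congr rfl fun i _ => ?_
    rw [Fin.sum_univ_eq_sum_range (fun j => (b : ℝ) * Height.logHeight ((gAct F N)^[j] (z i)))]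
  rw [← hR]
  refine le_trans (Finset.sum_le_sum fun w hw => ?_) hL
  have hg := gain_det Φ (hS w hw) hϖ F hΦF (J := J) μ hμ z (hω0 w hw).le (hω1 w hw) (hG w hw)
  rw [← hD] at hg
  have hpos : ∀ i, ∀ j ∈ Finset.range (J + 1), 0 < (⨆ l, w ((gAct F N)^[j] (z i) l)) ^ b :=
    fun i j _ => pow_pos (iSup_pos_of_ne w (hne j i)) _
  have hprodpos : 0 < ∏ i, ∏ j ∈ Finset.range (J + 1), (⨆ l, w ((gAct F N)^[j] (z i) l)) ^ b :=
    Finset.prod_pos fun i _ => Finset.prod_pos (hpos i)
  have h1 := Real.log_le_log (pow_pos (FinitePlace.pos_iff.2 hdet) 2) hg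
  rw [Real.log_pow, Real.log_mul (pow_pos (hω0 w hw) _).ne' (pow_pos hprodpos 2).ne', Real.log_pow,
    Real.log_pow, Real.log_prod (fun i _ => (Finset.prod_pos (hpos i)).ne')] at h1
  have h2 : ∑ i, Real.log (∏ j ∈ Finset.range (J + 1), (⨆ l, w ((gAct F N)^[j] (z i) l)) ^ b) =
      ∑ k : Fin n × Fin (J + 1), (b : ℝ) * Real.log (⨆ l, w ((gAct F N)^[k.2] (z k.1) l)) := by
    rw [Fintype.sum_prod_type]
    refine Finset.sum_congr rfl fun i _ => ?_
    rw [Real.log_prod (fun j hj => (hpos i j hj).ne'),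
      Fin.sum_univ_eq_sum_range (fun j => (b : ℝ) * Real.log (⨆ l, w ((gAct F N)^[j] (z i) l)))]
    exact Finset.sum_congr rfl fun j _ => Real.log_pow _ _
  rw [h2] at h1
  push_cast at h1
  linarith

end energy

section main

variable {K : Type} [Field K] [NumberField K] {p s : ℕ} {ι : Type} [Fintype ι] [DecidableEq ι]

theorem gain_main3 [Nonempty ι] (hp : p.Prime) (hs : 1 ≤ s) (v : FinitePlace K)
    (Φ : GF (OW v) p s ι) (hϖ : v (Φ.ϖ : K) < 1) (hϖ0 : (Φ.ϖ : K) ≠ 0)
    (F : ι → MvPolynomial ι K) (hF : ∀ i, (F i).IsHomogeneous (p ^ s))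
    (hz : ∀ z : ι → AlgebraicClosure K, (∀ i, aeval z (F i) = 0) → z = 0)
    (hΦF : ∀ i, map (OW v).subtype (Φ.F i) = F i) {b : ℕ} (hb1 : 1 ≤ b)
    (hb : ∀ (J : ℕ) (G : MvPolynomial ι K), G.IsHomogeneous (dl b (p ^ s) J) →
      G ∈ Submodule.span K {Q : MvPolynomial ι K | ∃ μ : ℕ → ι →₀ ℕ,
        (∀ j, (μ j).degree = b) ∧ Q = gQ F J μ})
    {C : ℝ} (hC0 : 0 ≤ C) {m : ℕ} (hm : 1 ≤ m)
    {N : Type} [Field N] [NumberField N] [Algebra K N] (hh : (ι → N) → ℝ)
    (hdiff : ∀ z, |Height.logHeight z / (Module.finrank ℚ N : ℝ) - hh z| ≤ C)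
    (hmul : ∀ z, hh (gAct F N z) = ((p ^ s : ℕ) : ℝ) * hh z)
    (S : Finset (FinitePlace N)) (e : FinitePlace N → ℕ) (hS : ∀ w ∈ S, Above v w (e w))
    (hcard : Module.finrank K N ≤ m * ∑ w ∈ S, e w)
    {n δ : ℕ} (hn1 : 1 ≤ n) (hδ1 : 1 ≤ δ) (z : Fin n → ι → N) (hz0 : ∀ a, z a ≠ 0)
    (hsep : ∀ a, ∃ G : MvPolynomial ι N, G.IsHomogeneous δ ∧ eval (z a) G ≠ 0 ∧
      ∀ i, i ≠ a → eval (z i) G = 0)
    {Hm : ℝ} (hHmz : ∀ a, hh (z a) ≤ Hm)
    (Good : FinitePlace N → Finset (Fin n)) (U : ℕ)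
    (hG : ∀ w ∈ S, Gain w (z) (Good w) ((w (toN v N Φ.ϖ)) ^ U))
    (hgood : n * ∑ w ∈ S, e w ≤ 2 * ∑ w ∈ S, e w * (Good w).card) :
    (- Real.log (v (Φ.ϖ : K))) / (m * Module.finrank ℚ K) / 4 * U ≤
      2 * b * ((p ^ s : ℕ) : ℝ) * δ * Hm + (2 * b * C + 1) * (1 + Real.log n + Real.log δ) := by
  have hq2 : 2 ≤ p ^ s := hp.two_le.trans (Nat.le_self_pow (by omega) p)
  have hq2r : (2 : ℝ) ≤ ((p ^ s : ℕ) : ℝ) := by exact_mod_cast hq2
  set Λ : ℝ := - Real.log (v (Φ.ϖ : K)) with hΛ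
  have hΛ0 : 0 < Λ := neg_pos.2 (Real.log_neg (FinitePlace.pos_iff.2 hϖ0) hϖ)
  have hKpos : (0 : ℝ) < Module.finrank ℚ K := by exact_mod_cast Module.finrank_pos
  have hNpos : (0 : ℝ) < Module.finrank ℚ N := by exact_mod_cast Module.finrank_pos
  have hmpos : (0 : ℝ) < m := by exact_mod_cast hm
  have htower : (Module.finrank ℚ K : ℝ) * Module.finrank K N = Module.finrank ℚ N := by
    exact_mod_cast Module.finrank_mul_finrank ℚ K N
  set q : ℝ := ((p ^ s : ℕ) : ℝ) with hq
  have hq0 : 0 < q := by linarith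
  set lam : ℝ := Λ / (m * Module.finrank ℚ K) with hlam
  have hlam0 : 0 < lam := by positivity
  set C1 : ℝ := 2 * b * C + 1 with hC1
  have hC10 : 0 ≤ C1 := by positivity
  have hbpos : (0 : ℝ) < b := by exact_mod_cast hb1
  set H : (ι → N) → ℝ := fun z => Height.logHeight z / (Module.finrank ℚ N : ℝ) with hH
  have hmuln : ∀ (n : ℕ) z, hh ((gAct F N)^[n] z) = q ^ n * hh z := by
    intro n z
    induction n with
    | zero => simp
    | succ n ih => rw [Function.iterate_succ_apply', hmul, ih, pow_succ]; ring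
  set π : FinitePlace N → ℝ := fun w => w (toN v N Φ.ϖ) with hπ
  have hπ0 : ∀ w, 0 < π w := by
    intro w
    rw [hπ, FinitePlace.pos_iff]
    change algebraMap K N (Φ.ϖ : K) ≠ 0
    simpa using hϖ0
  have hπ1 : ∀ w ∈ S, π w < 1 := fun w hw => gw_unif Φ (hS w hw) hϖ
  -- the energy inequality
  obtain ⟨J, hJ1, hJ2⟩ := exists_pow_between hq2 hδ1
  have hdl : δ ≤ dl b (p ^ s) J := by
    have h1 : (p ^ s) ^ J ≤ dl b (p ^ s) J := by
      rw [dl_eq]
      calc (p ^ s) ^ J ≤ (p ^ s) ^ J * b := Nat.le_mul_of_pos_right _ hb1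
        _ ≤ _ := Finset.single_le_sum (f := fun j => (p ^ s) ^ j * b) (fun _ _ => Nat.zero_le _)
            (Finset.mem_range.2 (Nat.lt_succ_self J))
    omega
  have hen' := energy3 Φ hϖ F hF hz hΦF hb S e hS z hz0 (sep_pad hdl z hz0 hsep) Good
    (fun w => π w ^ U)
    (fun w _ => pow_pos (hπ0 w) _) (fun w hw => pow_le_one₀ (hπ0 w).le (hπ1 w hw).le) hG
  -- left side
  have hleft : (n : ℝ) * (Module.finrank ℚ N) * (lam / 4 * U) ≤
      ∑ w ∈ S, ((Good w).card / 2 : ℝ) * (- Real.log (π w ^ U)) := by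
    have h1 : ∑ w ∈ S, ((Good w).card / 2 : ℝ) * (- Real.log (π w ^ U)) =
        U * Λ / 2 * ∑ w ∈ S, (e w : ℝ) * (Good w).card := by
      rw [Finset.mul_sum]
      refine Finset.sum_congr rfl fun w hw => ?_
      have h2 : Real.log (π w) = - (e w * Λ) := by
        change Real.log (w (algebraMap K N (Φ.ϖ : K))) = _
        rw [(hS w hw).2, Real.log_pow, hΛ]
        ring
      rw [Real.log_pow, h2]
      ring
    rw [h1]
    have h2 : (Module.finrank K N : ℝ) ≤ m * ∑ w ∈ S, (e w : ℝ) := by exact_mod_cast hcard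
    have h3 : lam * Module.finrank ℚ N ≤ Λ * ∑ w ∈ S, (e w : ℝ) := by
      rw [← htower, hlam]
      have h4 : Λ / (m * Module.finrank ℚ K) * ((Module.finrank ℚ K : ℝ) * Module.finrank K N) =
          Λ / m * Module.finrank K N := by
        field_simp
      rw [h4]
      calc Λ / m * Module.finrank K N ≤ Λ / m * (m * ∑ w ∈ S, (e w : ℝ)) := by gcongr
        _ = Λ * ∑ w ∈ S, (e w : ℝ) := by field_simp
    have h4 : (n : ℝ) * ∑ w ∈ S, (e w : ℝ) ≤ 2 * ∑ w ∈ S, (e w : ℝ) * (Good w).card := by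
      exact_mod_cast hgood
    have hU : (0 : ℝ) ≤ U := Nat.cast_nonneg _
    have hn0 : (0 : ℝ) ≤ n := Nat.cast_nonneg _
    calc (n : ℝ) * (Module.finrank ℚ N) * (lam / 4 * U)
        = U * n / 4 * (lam * Module.finrank ℚ N) := by ring
      _ ≤ U * n / 4 * (Λ * ∑ w ∈ S, (e w : ℝ)) := by gcongr
      _ = U * Λ / 4 * (n * ∑ w ∈ S, (e w : ℝ)) := by ring
      _ ≤ U * Λ / 4 * (2 * ∑ w ∈ S, (e w : ℝ) * (Good w).card) := by gcongr
      _ = _ := by ring
  -- right side
  have hright : ∑ i, ∑ j ∈ Finset.range (J + 1), (b : ℝ) *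
      Height.logHeight ((gAct F N)^[j] (z i)) + Module.finrank ℚ N * Real.log (n.factorial) ≤
      n * (Module.finrank ℚ N * (2 * b * q * δ * Hm +
        C1 * (1 + Real.log n + Real.log δ))) := by
    have hn1r : (1 : ℝ) ≤ n := by exact_mod_cast hn1
    have hδ1r : (1 : ℝ) ≤ δ := by exact_mod_cast hδ1
    have hlogn : 0 ≤ Real.log n := Real.log_nonneg hn1r
    have hlogδ : 0 ≤ Real.log δ := Real.log_nonneg hδ1r
    have hqJ : q ^ J ≤ q * δ := by rw [hq]; exact_mod_cast hJ2
    have hJlog : (J : ℝ) + 1 ≤ 2 + 2 * Real.log δ := relmain_jlog J q δ hq2r hδ1r hqJ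
    have hHm0 : 0 ≤ Hm := by
      -- the canonical height is nonnegative
      have h1 : ∀ y : ι → N, 0 ≤ hh y := by
        intro y
        have h2 : ∀ k : ℕ, - C ≤ q ^ k * hh y := by
          intro k
          have h3 := abs_le.1 (hdiff ((gAct F N)^[k] y))
          rw [hmuln] at h3
          have h4 : 0 ≤ Height.logHeight ((gAct F N)^[k] y) / (Module.finrank ℚ N : ℝ) :=
            div_nonneg (Height.logHeight_nonneg _) hNpos.le
          linarith [h3.2]
        by_contra hcon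
        push Not at hcon
        obtain ⟨k, hk⟩ := pow_unbounded_of_one_lt (C / (- hh y)) (show (1 : ℝ) < q by linarith)
        rw [div_lt_iff₀ (by linarith)] at hk
        have := h2 k
        linarith
      exact (h1 _).trans (hHmz ⟨0, hn1⟩)
    have h1 : ∀ i, ∑ j ∈ Finset.range (J + 1), (b : ℝ) *
        Height.logHeight ((gAct F N)^[j] (z i)) ≤
        Module.finrank ℚ N * (2 * b * q * δ * Hm + b * C * (2 + 2 * Real.log δ)) := by
      intro i
      have h2 : ∀ j ∈ Finset.range (J + 1), (b : ℝ) * Height.logHeight ((gAct F N)^[j] (z i)) ≤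
          Module.finrank ℚ N * (b * (q ^ j * Hm + C)) := by
        intro j _
        have h3 : Height.logHeight ((gAct F N)^[j] (z i)) =
            Module.finrank ℚ N * H ((gAct F N)^[j] (z i)) := by
          simp only [hH]
          field_simp
        have h4 : H ((gAct F N)^[j] (z i)) ≤ q ^ j * Hm + C := by
          have h5 := abs_le.1 (hdiff ((gAct F N)^[j] (z i)))
          rw [hmuln] at h5
          have h6 : q ^ j * hh (z i) ≤ q ^ j * Hm :=
            mul_le_mul_of_nonneg_left (hHmz i) (by positivity)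
          linarith [h5.2]
        rw [h3]
        calc (b : ℝ) * (Module.finrank ℚ N * H ((gAct F N)^[j] (z i)))
            = Module.finrank ℚ N * (b * H ((gAct F N)^[j] (z i))) := by ring
          _ ≤ _ := by gcongr
      refine (Finset.sum_le_sum h2).trans ?_
      rw [← Finset.mul_sum, ← Finset.mul_sum, Finset.sum_add_distrib, ← Finset.sum_mul,
        Finset.sum_const, Finset.card_range, nsmul_eq_mul]
      apply mul_le_mul_of_nonneg_left _ hNpos.le
      have h3 : (∑ j ∈ Finset.range (J + 1), q ^ j) ≤ 2 * (q * δ) :=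
        (sum_geom_le hq2r J).trans (by linarith)
      push_cast
      calc (b : ℝ) * ((∑ j ∈ Finset.range (J + 1), q ^ j) * Hm + ((J : ℝ) + 1) * C)
          ≤ b * ((2 * (q * δ)) * Hm + (2 + 2 * Real.log δ) * C) := by gcongr
        _ = _ := by ring
    have h2 : Real.log (n.factorial) ≤ n * Real.log n := EData.log_factorial_le n
    calc ∑ i, ∑ j ∈ Finset.range (J + 1), (b : ℝ) *
          Height.logHeight ((gAct F N)^[j] (z i)) + Module.finrank ℚ N * Real.log (n.factorial)
        ≤ ∑ _i : Fin n, (Module.finrank ℚ N *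
            (2 * b * q * δ * Hm + b * C * (2 + 2 * Real.log δ)) : ℝ) +
            Module.finrank ℚ N * (n * Real.log n) := by
          gcongr with i _
          exact h1 i
      _ = n * (Module.finrank ℚ N * (2 * b * q * δ * Hm + b * C * (2 + 2 * Real.log δ)
            + Real.log n)) := by
          rw [Finset.sum_const, Finset.card_univ, Fintype.card_fin, nsmul_eq_mul]
          ring
      _ ≤ n * (Module.finrank ℚ N * (2 * b * q * δ * Hm +
            C1 * (1 + Real.log n + Real.log δ))) := by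
          have h3 : b * C * (2 + 2 * Real.log δ) + Real.log n ≤
              C1 * (1 + Real.log n + Real.log δ) := by
            have h5 : 0 ≤ b * C := by positivity
            have h6 : C1 * (1 + Real.log n + Real.log δ) =
                (b * C * (2 + 2 * Real.log δ) + Real.log n) + (2 * (b * C) * Real.log n) +
                (1 + Real.log δ) := by rw [hC1]; ring
            have h7 : 0 ≤ 2 * (b * C) * Real.log n := by positivity
            linarith
          have h4 : 2 * b * q * δ * Hm + b * C * (2 + 2 * Real.log δ) + Real.log n ≤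
              2 * b * q * δ * Hm + C1 * (1 + Real.log n + Real.log δ) := by linarith
          gcongr
  have hmain := (hleft.trans hen').trans hright
  have hn1r : (1 : ℝ) ≤ n := by exact_mod_cast hn1
  have h1 : ((n : ℝ) * (Module.finrank ℚ N : ℝ)) * (lam / 4 * U) ≤
      (n * (Module.finrank ℚ N : ℝ)) * (2 * b * q * δ * Hm +
        C1 * (1 + Real.log n + Real.log δ)) := by
    calc _ ≤ _ := hmain
      _ = _ := by ring
  exact le_of_mul_le_mul_left h1 (by positivity)

end main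

end Pool.DynLehmer
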