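import Mathlib
import Pool.Agent.Lib.MP_2194ec_nt.RamH

set_option autoImplicit false

/-!
# Fibres of a morphism, and the degrees of the iterates of a point
-/

namespace Pool.DynLehmer
open MvPolynomial NumberField Filter Topology
open scoped Classical LinearAlgebra.Projectivization

theorem lt_dl {b d : ℕ} (hb : 1 ≤ b) (hd : 1 ≤ d) (J : ℕ) : J < dl b d J := by
  induction J with
  | zero => exact hb
  | succ J ih =>
    have h1 : dl b d J ≤ d * dl b d J := Nat.le_mul_of_pos_left _ hd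
    change J + 1 < b + d * dl b d J
    omega

section fibre

variable {K : Type} [Field K] [NumberField K] {ι : Type} [Fintype ι]

/-- the fibres of the morphism are bounded -/
theorem fibre_card (F : ι → MvPolynomial ι K) {b d : ℕ} (hF : ∀ i, (F i).IsHomogeneous d)
    (hd : 1 ≤ d) (hb1 : 1 ≤ b)
    (hb : ∀ (J : ℕ) (G : MvPolynomial ι K), G.IsHomogeneous (dl b d J) →
      G ∈ Submodule.span K {Q : MvPolynomial ι K | ∃ μ : ℕ → ι →₀ ℕ,
        (∀ j, (μ j).degree = b) ∧ Q = gQ F J μ})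
    {N : Type} [Field N] [Algebra K N] {n : ℕ} (z : Fin n → ι → N) (hz : ∀ a, z a ≠ 0)
    (hzz : ∀ a i, i ≠ a → ∃ k l, z i k * z a l - z i l * z a k ≠ 0)
    (R : ι → N) (hR : ∀ i, ∃ c : N, gAct F N (z i) = c • R) :
    n ≤ (b + 1) ^ Fintype.card ι := by
  have hn : n ≤ dl b d (n + 1) + 1 := by
    have := lt_dl hb1 hd (n + 1)
    omega
  obtain ⟨μ, hμ, hdet⟩ := exists_gQ_det F (hb (n + 1)) z (exists_sep hn z hz hzz)
  choose c hc using hR
  have hinj : Function.Injective fun a => μ a 0 := by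
    intro a a' haa
    by_contra hne
    apply hdet
    have h1 : (Matrix.of fun i a => aeval (z i) (gQ F (n + 1) (μ a))) =
        Matrix.of fun i a => (aeval R (gQ F n fun j => μ a (j + 1))) *
          (Matrix.of (fun i a => c i ^ dl b d n * ∏ k, z i k ^ (μ a 0 k)) : Matrix _ _ N) i a := by
      ext i a
      simp only [Matrix.of_apply]
      rw [gQ, map_mul, aeval_bind₁, aeval_monomial, map_one, one_mul,
        Finsupp.prod_fintype _ _ (fun _ => pow_zero _)]
      have h2 : (fun i_1 => (aeval (z i)) (F i_1)) = c i • R := hc i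
      rw [h2]
      have h3 := gQ_hom F hF n (fun j => μ a (j + 1)) fun j => hμ a (j + 1)
      have h4 : aeval (c i • R) (gQ F n fun j => μ a (j + 1)) =
          c i ^ dl b d n * aeval R (gQ F n fun j => μ a (j + 1)) := by
        have h5 := eval_smul_hom (h3.map (algebraMap K N)) (c i) R
        rw [eval_map, eval_map] at h5
        exact h5
      rw [h4]
      ring
    rw [h1, Matrix.det_mul_row, Matrix.det_zero_of_column_eq hne, mul_zero]
    intro i
    simp only [Matrix.of_apply]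
    rw [show μ a 0 = μ a' 0 from haa]
  have hle : ∀ a k, μ a 0 k ≤ b := by
    intro a k
    rw [← hμ a 0, Finsupp.degree_eq_sum]
    exact Finset.single_le_sum (f := fun k => μ a 0 k) (fun _ _ => Nat.zero_le _)
      (Finset.mem_univ k)
  have h1 := Fintype.card_le_of_injective
    (fun (a : Fin n) (k : ι) => (⟨μ a 0 k, Nat.lt_succ_of_le (hle a k)⟩ : Fin (b + 1))) (by
      intro a a' h
      apply hinj
      apply Finsupp.ext
      intro k
      have h2 := congrFun h k
      simpa using h2)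
  simpa using h1

end fibre

section step

variable {K : Type} [Field K] [NumberField K] {ι : Type} [Fintype ι]

/-- the degree of the image of a point -/
theorem idx_step (F : ι → MvPolynomial ι K) {b d : ℕ} (hF : ∀ i, (F i).IsHomogeneous d)
    (hd : 1 ≤ d) (hb1 : 1 ≤ b)
    (hb : ∀ (J : ℕ) (G : MvPolynomial ι K), G.IsHomogeneous (dl b d J) →
      G ∈ Submodule.span K {Q : MvPolynomial ι K | ∃ μ : ℕ → ι →₀ ℕ,
        (∀ j, (μ j).degree = b) ∧ Q = gQ F J μ})
    {N : Type} [Field N] [Algebra K N] [FiniteDimensional K N] (H : Subgroup (N ≃ₐ[K] N))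
    (Q : ι → N) (hQ : Q ≠ 0) :
    idx H Q ≤ (b + 1) ^ Fintype.card ι * idx H (gAct F N Q) := by
  have hst : stab (K := K) Q ≤ stab (gAct F N Q) := stab_act F hF 1 Q
  have key : (stab Q).relIndex (stab (gAct F N Q) ⊓ H) * idx H (gAct F N Q) = idx H Q := by
    have := Subgroup.relIndex_inf_mul_relIndex (stab Q) (stab (gAct F N Q)) H
    rwa [inf_eq_left.2 hst] at this
  rw [← key]
  apply Nat.mul_le_mul_right
  set H' := stab (gAct F N Q) ⊓ H with hH'
  have hne : ∀ σ : N ≃ₐ[K] N, gal (1 * σ) Q ≠ 0 := fun σ => gal_ne _ hQ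
  obtain ⟨n, z, pre, hn1, hn, hpre, hz1, hzz, -⟩ := exists_rows (fin H')
    ⟨1, mem_fin.2 H'.one_mem⟩ (fun σ => gal (1 * σ) Q) hne
  have h1 : n = idx H' Q := by rw [hn, card_orbit H' Q 1 hne]
  have h2 : idx H' Q = (stab Q).relIndex H' := rfl
  rw [← h2, ← h1]
  refine fibre_card F hF hd hb1 hb z hz1 hzz (gAct F N Q) fun i => ?_
  have h3 : pre i ∈ stab (gAct F N Q) := (mem_fin.1 (hpre i).1).1
  obtain ⟨c, hc, h4⟩ := mem_stab.1 h3
  refine ⟨c, ?_⟩
  rw [(hpre i).2, ← h4, one_mul]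
  exact gal_act F (pre i) 1 Q

theorem idx_step_iter (F : ι → MvPolynomial ι K) {b d : ℕ} (hF : ∀ i, (F i).IsHomogeneous d)
    (hz0 : ∀ z : ι → AlgebraicClosure K, (∀ i, aeval z (F i) = 0) → z = 0)
    (hd : 1 ≤ d) (hb1 : 1 ≤ b)
    (hb : ∀ (J : ℕ) (G : MvPolynomial ι K), G.IsHomogeneous (dl b d J) →
      G ∈ Submodule.span K {Q : MvPolynomial ι K | ∃ μ : ℕ → ι →₀ ℕ,
        (∀ j, (μ j).degree = b) ∧ Q = gQ F J μ})
    {N : Type} [Field N] [Algebra K N] [FiniteDimensional K N] (H : Subgroup (N ≃ₐ[K] N))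
    (Q : ι → N) (hQ : Q ≠ 0) (l : ℕ) :
    idx H Q ≤ ((b + 1) ^ Fintype.card ι) ^ l * idx H ((gAct F N)^[l] Q) := by
  induction l with
  | zero => simp
  | succ l ih =>
    refine ih.trans ?_
    rw [Function.iterate_succ_apply', pow_succ, mul_assoc]
    exact Nat.mul_le_mul_left _ (idx_step F hF hd hb1 hb H _
      (gAct_iter_ne F hF hz0 l Q hQ))

end step

section choose

theorem choose_m' {q cb : ℕ} (hq : 2 ≤ q) (X : ℕ → ℕ) (hX1 : ∀ j, 1 ≤ X j)
    (hX : Monotone X) (D : ℕ → ℕ) (hD1 : ∀ j, 1 ≤ D j)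
    (hD : ∀ j, D (j + 1) ≤ D j) (hD' : ∀ j, D j ≤ cb * D (j + 1)) :
    ∃ m, X (D m) * D 0 ≤ q ^ m * D m ∧ q ^ m * D m ≤ q * X (cb * D m) * D 0 := by
  have hanti : ∀ j, D j ≤ D 0 := by
    intro j
    induction j with
    | zero => exact le_refl _
    | succ j ih => exact (hD j).trans ih
  have hex : ∃ m, X (D m) * D 0 ≤ q ^ m * D m := by
    refine ⟨X (D 0) * D 0, ?_⟩
    calc X (D (X (D 0) * D 0)) * D 0 ≤ X (D 0) * D 0 := Nat.mul_le_mul_right _ (hX (hanti _))
      _ ≤ q ^ (X (D 0) * D 0) := (Nat.lt_pow_self (by omega)).le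
      _ ≤ q ^ (X (D 0) * D 0) * D (X (D 0) * D 0) := Nat.le_mul_of_pos_right _ (hD1 _)
  refine ⟨Nat.find hex, Nat.find_spec hex, ?_⟩
  rcases Nat.eq_zero_or_pos (Nat.find hex) with h0 | h0
  · rw [h0, pow_zero, one_mul]
    have h1 : 1 ≤ q * X (cb * D 0) := Nat.mul_pos (by omega) (hX1 _)
    exact Nat.le_mul_of_pos_left _ h1
  · obtain ⟨j, hj⟩ : ∃ j, Nat.find hex = j + 1 := ⟨Nat.find hex - 1, by omega⟩
    have h1 := Nat.find_min hex (show j < Nat.find hex by omega)
    push Not at h1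
    rw [hj, pow_succ]
    calc q ^ j * q * D (j + 1) ≤ q ^ j * q * D j := Nat.mul_le_mul_left _ (hD j)
      _ = q * (q ^ j * D j) := by ring
      _ ≤ q * (X (D j) * D 0) := Nat.mul_le_mul_left _ h1.le
      _ ≤ q * (X (cb * D (j + 1)) * D 0) :=
          Nat.mul_le_mul_left _ (Nat.mul_le_mul_right _ (hX (hD' j)))
      _ = _ := by ring

end choose

end Pool.DynLehmer
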