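import Mathlib
import Pool.Agent.Lib.MP_2194ec_nt.SepC
import Pool.Agent.Lib.MP_2194ec_nt.SepD
import Pool.Agent.Lib.MP_2194ec_nt.SepE0

set_option autoImplicit false

/-!
# The analytic estimate with separating forms
-/

namespace Pool.DynLehmer
open MvPolynomial NumberField IsDedekindDomain Filter Topology
open scoped Classical Pointwise LinearAlgebra.Projectivization

theorem sepE_log_six : Real.log 6 ≤ 2 := by
  rw [Real.log_le_iff_le_exp (by norm_num)]
  have h7 : (2.7 : ℝ) ≤ Real.exp 1 := by linarith [Real.exp_one_gt_d9]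
  have h8 : Real.exp 2 = Real.exp 1 * Real.exp 1 := by
    rw [← Real.exp_add]; norm_num
  rw [h8]
  nlinarith

theorem sepE_log_five : Real.log 5 ≤ 2 :=
  (Real.log_le_log (by norm_num) (by norm_num)).trans sepE_log_six

theorem sepE_one_add_mul {a b : ℝ} (ha : 0 ≤ a) (hb : 0 ≤ b) :
    1 + (a + b) ≤ (1 + a) * (1 + b) := by
  have := mul_nonneg ha hb
  linarith

section core

variable {K : Type} [Field K] [NumberField K] {p s : ℕ} {ι : Type} [Fintype ι] [DecidableEq ι]

/-- **The analytic estimate with separating forms.** -/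
theorem sep_core [Nonempty ι] (hι : 2 ≤ Fintype.card ι) (hp : p.Prime) (hs : 1 ≤ s)
    (v : FinitePlace K)
    (Φ : GF (OW v) p s ι) (hϖ : v (Φ.ϖ : K) < 1) (hϖ0 : (Φ.ϖ : K) ≠ 0)
    (hunif : ∀ a : K, v a < 1 → v a ≤ v (Φ.ϖ : K))
    (F : ι → MvPolynomial ι K) (hF : ∀ i, (F i).IsHomogeneous (p ^ s))
    (hz : ∀ z : ι → AlgebraicClosure K, (∀ i, aeval z (F i) = 0) → z = 0)
    (hΦF : ∀ i, map (OW v).subtype (Φ.F i) = F i) :
    ∃ (A B : ℝ) (cb : ℕ), 0 < A ∧ 0 < B ∧ 1 ≤ cb ∧
      ∀ (N : Type) [Field N] [NumberField N] [Algebra K N] [IsGalois K N] (P : ι → N), P ≠ 0 →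
      (∀ l, idx (⊤ : Subgroup (N ≃ₐ[K] N)) P ≤
        cb ^ l * idx (⊤ : Subgroup (N ≃ₐ[K] N)) ((gAct F N)^[l] P)) ∧
      ((¬ ∃ m n : ℕ, m ≠ n ∧ ∃ c : N, c ≠ 0 ∧ (gAct F N)^[n] P = c • (gAct F N)^[m] P) →
      ∃ h : ℝ, Tendsto (fun n : ℕ => Height.logHeight ((gAct F N)^[n] P) /
        (Module.finrank ℚ N : ℝ) / ((p ^ s : ℕ) : ℝ) ^ n) atTop (𝓝 h) ∧ 0 < h ∧
        ∃ m : ℕ, (((p ^ s : ℕ) : ℝ) ^ m * (idx (⊤ : Subgroup (N ≃ₐ[K] N)) ((gAct F N)^[m] P) : ℝ) ≤
            A * (1 + Real.log (idx (⊤ : Subgroup (N ≃ₐ[K] N)) ((gAct F N)^[m] P) : ℝ)) ^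
              (Fintype.card ι + 1) * (idx (⊤ : Subgroup (N ≃ₐ[K] N)) P : ℝ)) ∧
          ∀ δ : ℕ, 1 ≤ δ →
            δ ≤ 5 * idx (⊤ : Subgroup (N ≃ₐ[K] N)) ((gAct F N)^[m] P) →
            (∀ l : ℕ, m ≤ l → (l : ℝ) ≤ m + B * (1 + Real.log
                (idx (⊤ : Subgroup (N ≃ₐ[K] N)) ((gAct F N)^[m] P) : ℝ)) ^
                (((Fintype.card ι - 1 : ℕ) : ℝ) / (((Fintype.card ι - 1 : ℕ) : ℝ) + 1)) →
              OrbSep K δ ((gAct F N)^[l] P)) →
            1 ≤ δ * Real.exp (B * (1 + Real.log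
                (idx (⊤ : Subgroup (N ≃ₐ[K] N)) ((gAct F N)^[m] P) : ℝ)) ^
                (((Fintype.card ι - 1 : ℕ) : ℝ) / (((Fintype.card ι - 1 : ℕ) : ℝ) + 1))) *
              (((p ^ s : ℕ) : ℝ) ^ m * h)) := by
  have hq2 : 2 ≤ p ^ s := hp.two_le.trans (Nat.le_self_pow (by omega) p)
  have hq2r : (2 : ℝ) ≤ ((p ^ s : ℕ) : ℝ) := by exact_mod_cast hq2
  obtain ⟨m0, hm01, hm0⟩ := exists_ggoodExp Φ hϖ hp
  obtain ⟨C, hC0, hC⟩ := height_morphism F (p ^ s) hF hz
  obtain ⟨b, hb1, hb⟩ := span_adapted F (p ^ s) hF hz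
  obtain ⟨f', hf', hdata⟩ := galois_data hp v (v_p_lt Φ hϖ) hunif
  set Λ : ℝ := - Real.log (v (Φ.ϖ : K)) with hΛ
  have hΛ0 : 0 < Λ := neg_pos.2 (Real.log_neg (FinitePlace.pos_iff.2 hϖ0) hϖ)
  have hKpos : (0 : ℝ) < Module.finrank ℚ K := by exact_mod_cast Module.finrank_pos
  set q : ℝ := ((p ^ s : ℕ) : ℝ) with hq
  have hq0 : 0 < q := by linarith
  set N' := Fintype.card ι - 1 with hN'
  have hN'1 : 1 ≤ N' := by omega
  set lam : ℝ := Λ / ((1 : ℕ) * Module.finrank ℚ K) with hlam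
  have hlam0 : 0 < lam := by positivity
  set C1 : ℝ := 2 * b * C + 1 with hC1
  have hC10 : 0 ≤ C1 := by positivity
  have hC11 : 1 ≤ C1 := by
    rw [hC1]
    have : 0 ≤ 2 * (b : ℝ) * C := by positivity
    linarith
  have hbpos : (0 : ℝ) < b := by exact_mod_cast hb1
  set k := m0 * f' with hk
  have hkpos : 1 ≤ k := Nat.mul_pos hm01 hf'
  set C2 : ℝ := 4 * max 1 (3 * C1 * (2 + 2 * N') / (lam / 2)) with hC2
  have hmax1 : (1 : ℝ) ≤ max 1 (3 * C1 * (2 + 2 * N') / (lam / 2)) := le_max_left _ _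
  have hC20 : 0 < C2 := by positivity
  set C3 : ℝ := 32 * C1 / lam + 2 with hC3
  have hC31 : 1 ≤ C3 := by
    have : 0 ≤ 32 * C1 / lam := by positivity
    linarith
  set cb : ℕ := (b + 1) ^ Fintype.card ι with hcb
  have hcb1 : 1 ≤ cb := Nat.one_le_pow _ _ (by omega)
  have hcb1r : (1 : ℝ) ≤ cb := by exact_mod_cast hcb1
  set C4 : ℝ := C3 * (1 + Real.log cb) with hC4
  have hlogcb : 0 ≤ Real.log cb := Real.log_nonneg hcb1r
  have hC40 : 0 ≤ C4 := by positivity
  have hlogq : 0 < Real.log q := Real.log_pos (by linarith)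
  set B1 : ℝ := ((k : ℝ) + 1) * (2 * C2 ^ N') with hB1
  have hB10 : 0 < B1 := by positivity
  set B2 : ℝ := B1 * Real.log q with hB2
  have hB20 : 0 < B2 := by positivity
  set B3 : ℝ := max 0 (Real.log (64 * b * q / lam)) with hB3
  have hB30 : 0 ≤ B3 := le_max_left _ _
  set VF : ℕ → ℕ := fun D => ⌈32 * C1 * (1 + Real.log D) / lam⌉₊ + 1 with hVF
  set X : ℕ → ℕ := fun D => 4 * (VF D) ^ (Fintype.card ι + 1) * 1 with hX
  have hX1 : ∀ j, 1 ≤ X j := fun j => by
    rw [hX]
    exact Nat.mul_pos (Nat.mul_pos (by norm_num) (pow_pos (Nat.succ_pos _) _)) one_pos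
  have hVmono : Monotone VF := by
    intro D D' hDD
    simp only [hVF]
    have h1 : Real.log D ≤ Real.log D' := by
      rcases Nat.eq_zero_or_pos D with h0 | h0
      · rw [h0, Nat.cast_zero, Real.log_zero]
        exact Real.log_natCast_nonneg D'
      · exact Real.log_le_log (by exact_mod_cast h0) (by exact_mod_cast hDD)
    have h2 : ⌈32 * C1 * (1 + Real.log D) / lam⌉₊ ≤ ⌈32 * C1 * (1 + Real.log D') / lam⌉₊ := by
      apply Nat.ceil_mono
      gcongr
    omega
  have hXmono : Monotone X := by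
    intro D D' hDD
    simp only [hX]
    have := Nat.pow_le_pow_left (hVmono hDD) (Fintype.card ι + 1)
    omega
  refine ⟨q * (4 * C4 ^ (Fintype.card ι + 1)) + 1, B1 + B2 + B3, cb, by positivity,
    by positivity, hcb1, ?_⟩
  intro N _ _ _ _ P hP
  have hfd : FiniteDimensional K N := Module.Finite.of_restrictScalars_finite ℚ K N
  refine ⟨fun l => idx_step_iter F hF hz (by omega) hb1 hb ⊤ P hP l, ?_⟩
  intro hwand
  obtain ⟨S, e, τ, J, hS, hcard, hfrob, hτw, hJ1, hJ2, hJ3⟩ := hdata N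
  have hNpos : (0 : ℝ) < Module.finrank ℚ N := by exact_mod_cast Module.finrank_pos
  -- heights on `N`
  set H : (ι → N) → ℝ := fun z => Height.logHeight z / (Module.finrank ℚ N : ℝ) with hH
  have hHact : ∀ z, |H (gAct F N z) - q * H z| ≤ C := by
    intro z
    simp only [hH]
    have h5 : Height.logHeight (gAct F N z) / (Module.finrank ℚ N : ℝ) -
        q * (Height.logHeight z / Module.finrank ℚ N) =
        (Height.logHeight (gAct F N z) - q * Height.logHeight z) / Module.finrank ℚ N := by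
      field_simp
    rw [h5, abs_div, abs_of_pos hNpos, div_le_iff₀ hNpos]
    exact hC N z
  obtain ⟨hh, hlim, -, hdiff, hmul, -⟩ := commuting_heights H (gAct F N) (gAct F N)
    (fun _ => rfl) hq2r hq2r hHact hHact
  have hhsmul : ∀ (c : N) z, c ≠ 0 → hh (c • z) = hh z := by
    intro c z hc
    refine tendsto_nhds_unique (hlim (c • z)) ((hlim z).congr fun n => ?_)
    rw [gAct_iter_smul F hF]
    simp only [hH]
    rw [Height.logHeight_smul_eq_logHeight _ (pow_ne_zero _ hc)]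
  have hhgal : ∀ σ : N ≃ₐ[K] N, hh (gal σ P) = hh P := by
    intro σ
    refine tendsto_nhds_unique (hlim (gal σ P)) ((hlim P).congr fun n => ?_)
    rw [gal_act F σ n P]
    simp only [hH]
    rw [show Height.logHeight (gal σ ((gAct F N)^[n] P)) / (Module.finrank ℚ N : ℝ) =
      Height.logHeight ((gAct F N)^[n] P) / (Module.finrank ℚ N : ℝ) from
      logHeight_hom (σ : N →+* N) _]
  have hx'ne : hh P ≠ 0 := hhat_ne_zero hq2 F hF hz N P hP hwand (hh P) (hlim P)
  have hx'nn : 0 ≤ hh P :=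
    ge_of_tendsto' (hlim P) fun n => div_nonneg (div_nonneg (Height.logHeight_nonneg _)
      (Nat.cast_nonneg _)) (pow_nonneg hq0.le _)
  have hx'pos : 0 < hh P := lt_of_le_of_ne hx'nn (Ne.symm hx'ne)
  refine ⟨hh P, hlim P, hx'pos, ?_⟩
  -- the level
  obtain ⟨m, hm1, hm2⟩ := choose_m' (cb := cb) hq2 X hX1 hXmono
    (fun j => idx (⊤ : Subgroup (N ≃ₐ[K] N)) ((gAct F N)^[j] P))
    (fun j => idx_pos _ _) (fun j => by
      apply idx_mono
      rw [Function.iterate_succ_apply']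
      exact stab_act F hF 1 _) (fun j => by
      rw [Function.iterate_succ_apply']
      exact idx_step F hF (by omega) hb1 hb ⊤ _ (gAct_iter_ne F hF hz j P hP))
  simp only [Function.iterate_zero, id_eq] at hm1 hm2
  refine ⟨m, ?_⟩
  set D : ℕ := idx (⊤ : Subgroup (N ≃ₐ[K] N)) P with hD
  set Dm := idx (⊤ : Subgroup (N ≃ₐ[K] N)) ((gAct F N)^[m] P) with hDm
  have hDm1 : 1 ≤ Dm := idx_pos _ _
  have hDm1r : (1 : ℝ) ≤ Dm := by exact_mod_cast hDm1
  have hlogDm : 0 ≤ Real.log Dm := Real.log_nonneg hDm1r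
  have hVge : 32 * C1 * (1 + Real.log Dm) / lam ≤ VF Dm := by
    have := Nat.le_ceil (32 * C1 * (1 + Real.log Dm) / lam)
    simp only [hVF]
    push_cast
    linarith
  constructor
  · -- the upper bound
    have hV : (VF (cb * Dm) : ℝ) ≤ C4 * (1 + Real.log Dm) := by
      have h0 : 0 ≤ Real.log ((cb * Dm : ℕ) : ℝ) := Real.log_natCast_nonneg _
      have h1 := (Nat.ceil_lt_add_one (a := 32 * C1 * (1 + Real.log ((cb * Dm : ℕ) : ℝ)) / lam)
        (by positivity)).le
      simp only [hVF]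
      rw [Nat.cast_add, Nat.cast_one]
      have h2 : C3 * (1 + Real.log ((cb * Dm : ℕ) : ℝ)) =
          32 * C1 * (1 + Real.log ((cb * Dm : ℕ) : ℝ)) / lam +
            2 * (1 + Real.log ((cb * Dm : ℕ) : ℝ)) := by
        rw [hC3]; ring
      have h3 : (⌈32 * C1 * (1 + Real.log ((cb * Dm : ℕ) : ℝ)) / lam⌉₊ : ℝ) + 1 ≤
          C3 * (1 + Real.log ((cb * Dm : ℕ) : ℝ)) := by
        rw [h2]; linarith
      refine h3.trans ?_
      rw [hC4, mul_assoc]
      apply mul_le_mul_of_nonneg_left _ (by linarith)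
      rw [Nat.cast_mul, Real.log_mul (by positivity) (by positivity)]
      exact sepE_one_add_mul hlogcb hlogDm
    have h1 : ((p ^ s) ^ m * Dm : ℕ) ≤ (p ^ s * X (cb * Dm) * D : ℕ) := hm2
    have h2 : q ^ m * (Dm : ℝ) ≤ q * (X (cb * Dm) : ℝ) * D := by
      rw [hq]; exact_mod_cast h1
    refine h2.trans ?_
    have h3 : (X (cb * Dm) : ℝ) ≤ 4 * C4 ^ (Fintype.card ι + 1) *
        (1 + Real.log Dm) ^ (Fintype.card ι + 1) := by
      simp only [hX, mul_one]
      push_cast
      rw [mul_assoc, ← mul_pow]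
      apply mul_le_mul_of_nonneg_left _ (by norm_num)
      exact pow_le_pow_left₀ (Nat.cast_nonneg _) hV _
    calc q * (X (cb * Dm) : ℝ) * D ≤ q * (4 * C4 ^ (Fintype.card ι + 1) *
        (1 + Real.log Dm) ^ (Fintype.card ι + 1)) * D := by gcongr
      _ = q * (4 * C4 ^ (Fintype.card ι + 1)) *
          (1 + Real.log Dm) ^ (Fintype.card ι + 1) * D := by ring
      _ ≤ _ := by
          gcongr
          linarith
  · -- the lower bound
    intro δ hδ1 hδ5 hsep
    set θ : ℝ := (N' : ℝ) / ((N' : ℝ) + 1) with hθ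
    set y : ℝ := (1 + Real.log Dm) ^ θ with hy
    have hy1 : 1 ≤ y := Real.one_le_rpow (by linarith) (by positivity)
    obtain ⟨T, hT1, hT2, hT3⟩ := endgame (show 0 < lam / 2 by positivity)
      (show 0 ≤ 3 * C1 by positivity) hDm1r N'
    set Lv : ℕ := 2 * (2 * T) ^ N' with hLv
    have hLv1 : 1 ≤ Lv := Nat.mul_pos two_pos (pow_pos (by omega) _)
    have hLvpos : (0 : ℝ) < Lv := by exact_mod_cast hLv1
    have hT1r : (1 : ℝ) ≤ T := by exact_mod_cast hT1
    have hδr : (1 : ℝ) ≤ δ := by exact_mod_cast hδ1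
    have hδ5r : (δ : ℝ) ≤ 5 * Dm := by exact_mod_cast hδ5
    have hkLv : (((k + 1) * Lv : ℕ) : ℝ) ≤ B1 * y := by
      push_cast
      calc ((k : ℝ) + 1) * Lv ≤ ((k : ℝ) + 1) * (2 * C2 ^ N' * y) := by gcongr
        _ = _ := by rw [hB1]; ring
    have hyB : B1 * y ≤ (B1 + B2 + B3) * y := by
      apply mul_le_mul_of_nonneg_right _ (by linarith)
      linarith
    have hsep' : ∀ l, m ≤ l → l ≤ m + (k + 1) * Lv → OrbSep K δ ((gAct F N)^[l] P) := by
      intro l hl1 hl2
      refine hsep l hl1 ?_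
      have h1 : (l : ℝ) ≤ m + (((k + 1) * Lv : ℕ) : ℝ) := by exact_mod_cast hl2
      linarith
    set low : FinitePlace N → (N ≃ₐ[K] N) → Prop := fun w σ =>
      idx (J w) (gal σ P) * 1 ≤ (p ^ s) ^ m with hlowd
    have hsplit : ∀ w, ((fin (⊤ : Subgroup (N ≃ₐ[K] N))).filter fun σ => low w σ).card +
        ((fin (⊤ : Subgroup (N ≃ₐ[K] N))).filter fun σ => ¬ low w σ).card =
        (fin (⊤ : Subgroup (N ≃ₐ[K] N))).card := fun w =>
      Finset.card_filter_add_card_filter_not _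
    have hqk : 1 ≤ q ^ ((k + 1) * Lv) := one_le_pow₀ (by linarith)
    have hqm : 0 < q ^ m := by positivity
    have hmain : lam / 16 ≤ 4 * b * q * δ * q ^ ((k + 1) * Lv) * (q ^ m * hh P) := by
      by_cases hcase : (fin (⊤ : Subgroup (N ≃ₐ[K] N))).card * ∑ w ∈ S, e w ≤
          2 * ∑ w ∈ S, e w *
          ((fin (⊤ : Subgroup (N ≃ₐ[K] N))).filter fun σ => low w σ).card
      · -- small ramification
        obtain ⟨n, hn1, hn2, hn3⟩ := low_case3 hp hs v Φ hϖ hϖ0 F hF hz hΦF hb1 hb hC0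
          le_rfl hh hdiff hmul hhsmul S e hS hcard J le_rfl hJ1 hJ2 (k := k) (c := s * m0) hkpos
          (fun l => hm0 (k * l) ⟨f' * l, by rw [hk]; ring⟩) τ
          (fun w hw a ha => by
            have h1 := frob_pow (τ w) w (p ^ f') (hfrob w hw) (s * m0) a ha
            have h2 : (p ^ f') ^ (s * m0) = (p ^ s) ^ k := by
              rw [hk, ← pow_mul, ← pow_mul]; congr 1; ring
            rw [h2] at h1
            exact h1) hτw P hP hhgal hx'pos hT1 hsep' hcase
        rw [← hN', ← hLv, ← hΛ, ← hlam, ← hC1, ← hq] at hn3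
        rw [← hN', ← hLv, ← hDm] at hn2
        have hn1r : (1 : ℝ) ≤ n := by exact_mod_cast hn1
        have hn2r : (n : ℝ) ≤ Lv * Dm := by exact_mod_cast hn2
        have hLvD : (1 : ℝ) ≤ Lv * Dm := hn1r.trans hn2r
        have h1 : C1 * (1 + Real.log n + Real.log ((Lv * (δ + 1) : ℕ) : ℝ)) ≤
            lam / 4 * (T * Lv) := by
          have h2 : Real.log n ≤ Real.log (Lv * Dm) := Real.log_le_log (by linarith) hn2r
          have h3 : Real.log ((Lv * (δ + 1) : ℕ) : ℝ) ≤ 2 + Real.log (Lv * Dm) := by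
            have h4 : ((Lv * (δ + 1) : ℕ) : ℝ) ≤ 6 * (Lv * Dm) := by
              push_cast
              have h5 : (δ : ℝ) + 1 ≤ 6 * Dm := by linarith
              calc (Lv : ℝ) * (δ + 1) ≤ Lv * (6 * Dm) := by gcongr
                _ = _ := by ring
            have h5 : (0 : ℝ) < ((Lv * (δ + 1) : ℕ) : ℝ) := by
              have : 0 < Lv * (δ + 1) := Nat.mul_pos hLv1 (Nat.succ_pos δ)
              exact_mod_cast this
            refine (Real.log_le_log h5 h4).trans ?_
            rw [Real.log_mul (by norm_num) (by positivity)]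
            have h6 : Real.log 6 ≤ 2 := sepE_log_six
            linarith
          have h4 : 0 ≤ Real.log (Lv * Dm) := Real.log_nonneg hLvD
          calc C1 * (1 + Real.log n + Real.log ((Lv * (δ + 1) : ℕ) : ℝ))
              ≤ C1 * (3 * (1 + Real.log (Lv * Dm))) := by
                apply mul_le_mul_of_nonneg_left _ hC10
                linarith
            _ = 3 * C1 * (1 + Real.log (Lv * Dm)) := by ring
            _ ≤ _ := hT2.trans (le_of_eq (by ring))
        have h2 : lam / 4 * (T * Lv) ≤ 2 * b * q * ((Lv * (δ + 1) : ℕ) : ℝ) *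
            (q ^ (m + (k + 1) * Lv) * hh P) := by
          have h3 : lam / 4 * ((Lv * (2 * T) : ℕ) : ℝ) = 2 * (lam / 4 * (T * Lv)) := by
            push_cast; ring
          linarith
        have h3 : 2 * b * q * ((Lv * (δ + 1) : ℕ) : ℝ) * (q ^ (m + (k + 1) * Lv) * hh P) ≤
            Lv * (4 * b * q * δ * q ^ ((k + 1) * Lv) * (q ^ m * hh P)) := by
          have h4 : (δ : ℝ) + 1 ≤ 2 * δ := by linarith
          calc 2 * b * q * ((Lv * (δ + 1) : ℕ) : ℝ) * (q ^ (m + (k + 1) * Lv) * hh P)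
              = 2 * b * q * Lv * (δ + 1) * (q ^ ((k + 1) * Lv) * (q ^ m * hh P)) := by
                push_cast
                rw [pow_add]; ring
            _ ≤ 2 * b * q * Lv * (2 * δ) * (q ^ ((k + 1) * Lv) * (q ^ m * hh P)) := by gcongr
            _ = _ := by ring
        have h4 : Lv * (lam / 4) ≤ Lv * (4 * b * q * δ * q ^ ((k + 1) * Lv) * (q ^ m * hh P)) := by
          calc (Lv : ℝ) * (lam / 4) = lam / 4 * (1 * Lv) := by ring
            _ ≤ lam / 4 * (T * Lv) := by gcongr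
            _ ≤ _ := h2.trans h3
        have h5 := le_of_mul_le_mul_left h4 hLvpos
        linarith
      · -- large ramification
        have hhigh : (fin (⊤ : Subgroup (N ≃ₐ[K] N))).card * ∑ w ∈ S, e w ≤
            2 * ∑ w ∈ S, e w *
            ((fin (⊤ : Subgroup (N ≃ₐ[K] N))).filter fun σ => ¬ low w σ).card := by
          have h1 : ∑ w ∈ S, e w * ((fin (⊤ : Subgroup (N ≃ₐ[K] N))).filter
              fun σ => low w σ).card +
              ∑ w ∈ S, e w * ((fin (⊤ : Subgroup (N ≃ₐ[K] N))).filter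
              fun σ => ¬ low w σ).card =
              (fin (⊤ : Subgroup (N ≃ₐ[K] N))).card * ∑ w ∈ S, e w := by
            rw [← Finset.sum_add_distrib, Finset.mul_sum]
            refine Finset.sum_congr rfl fun w _ => ?_
            rw [← mul_add, hsplit]
            ring
          omega
        have hn3 := high_case3 hp hs v Φ hϖ hϖ0 F hF hz hΦF hb1 hb hC0 le_rfl hh hdiff
          hmul S e hS hcard J hJ1 hJ2 hJ3 P hP hhgal (show 1 ≤ VF Dm from Nat.succ_pos _) hδ1
          (hsep' m le_rfl (by omega)) hm1 hhigh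
        rw [← hΛ, ← hlam, ← hC1, ← hq, ← hDm] at hn3
        have h1 : C1 * (1 + Real.log Dm + Real.log δ) ≤ lam / 8 * VF Dm := by
          have h2 : Real.log δ ≤ 2 + Real.log Dm := by
            refine (Real.log_le_log (by linarith) hδ5r).trans ?_
            rw [Real.log_mul (by norm_num) (by positivity)]
            have h6 : Real.log 5 ≤ 2 := sepE_log_five
            linarith
          have h3 : 32 * C1 * (1 + Real.log Dm) ≤ VF Dm * lam := by
            rwa [div_le_iff₀ hlam0] at hVge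
          have h4 : C1 * (1 + Real.log Dm + Real.log δ) ≤ C1 * (4 * (1 + Real.log Dm)) := by
            apply mul_le_mul_of_nonneg_left _ hC10
            linarith
          linarith
        have h2 : lam / 8 * VF Dm ≤ 2 * b * q * δ * (q ^ m * hh P) := by linarith
        have hV1 : (1 : ℝ) ≤ VF Dm := by
          have : 1 ≤ VF Dm := Nat.succ_pos _
          exact_mod_cast this
        have h4 : lam / 8 ≤ 2 * b * q * δ * (q ^ m * hh P) := by
          calc lam / 8 = lam / 8 * 1 := (mul_one _).symm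
            _ ≤ lam / 8 * VF Dm := by gcongr
            _ ≤ _ := h2
        have h5 : 2 * b * q * δ * (q ^ m * hh P) ≤
            4 * b * q * δ * q ^ ((k + 1) * Lv) * (q ^ m * hh P) := by
          calc 2 * b * q * δ * (q ^ m * hh P) = 2 * b * q * δ * 1 * (q ^ m * hh P) := by ring
            _ ≤ 4 * b * q * δ * q ^ ((k + 1) * Lv) * (q ^ m * hh P) := by gcongr; norm_num
        linarith
    -- conclusion
    have hexp : q ^ ((k + 1) * Lv) ≤ Real.exp (B2 * y) := by
      rw [← Real.exp_log (show (0 : ℝ) < q ^ ((k + 1) * Lv) by positivity), Real.log_pow]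
      apply Real.exp_le_exp.2
      calc (((k + 1) * Lv : ℕ) : ℝ) * Real.log q ≤ (B1 * y) * Real.log q := by gcongr
        _ = _ := by rw [hB2]; ring
    have hexp3 : 64 * b * q / lam ≤ Real.exp (B3 * y) := by
      have h1 : 0 < 64 * b * q / lam := by positivity
      rw [← Real.log_le_iff_le_exp h1]
      calc Real.log (64 * b * q / lam) ≤ B3 := le_max_right _ _
        _ = B3 * 1 := (mul_one _).symm
        _ ≤ B3 * y := by gcongr
    have h1 : 1 ≤ (64 * b * q / lam) * δ * q ^ ((k + 1) * Lv) * (q ^ m * hh P) := by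
      have h2 : lam ≤ 64 * b * q * δ * q ^ ((k + 1) * Lv) * (q ^ m * hh P) := by linarith
      have h3 : (64 * b * q / lam) * δ * q ^ ((k + 1) * Lv) * (q ^ m * hh P) =
          (64 * b * q * δ * q ^ ((k + 1) * Lv) * (q ^ m * hh P)) / lam := by
        field_simp
      rw [h3, le_div_iff₀ hlam0, one_mul]
      exact h2
    refine h1.trans ?_
    have h2 : (64 * b * q / lam) * q ^ ((k + 1) * Lv) ≤ Real.exp ((B1 + B2 + B3) * y) := by
      have h3 : (B1 + B2 + B3) * y = B1 * y + (B3 * y + B2 * y) := by ring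
      rw [h3, Real.exp_add, Real.exp_add]
      have h4 : 1 ≤ Real.exp (B1 * y) := Real.one_le_exp (by positivity)
      have h5 : (64 * b * q / lam) * q ^ ((k + 1) * Lv) ≤
          Real.exp (B3 * y) * Real.exp (B2 * y) :=
        mul_le_mul hexp3 hexp (by positivity) (Real.exp_nonneg _)
      refine h5.trans ?_
      exact le_mul_of_one_le_left (by positivity) h4
    calc (64 * b * q / lam) * δ * q ^ ((k + 1) * Lv) * (q ^ m * hh P)
        = δ * ((64 * b * q / lam) * q ^ ((k + 1) * Lv)) * (q ^ m * hh P) := by ring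
      _ ≤ _ := by gcongr

end core

end Pool.DynLehmer
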