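import Mathlib
import Pool.Agent.Lib.MP_2194ec_nt.PlC
import Pool.Agent.Lib.MP_2194ec_nt.RamJ
import Pool.Agent.Lib.MP_2194ec_nt.SepA
import Pool.Agent.Lib.MP_2194ec_nt.SepE0

set_option autoImplicit false

/-!
# Assembly: elementary growth estimates, levels, separation in the plane
-/

namespace Pool.DynLehmer
open MvPolynomial NumberField IsDedekindDomain Filter Topology
open scoped Classical Pointwise LinearAlgebra.Projectivization

section growth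

theorem rpow_le_lin {θ ε : ℝ} (hθ0 : 0 ≤ θ) (hθ1 : θ < 1) (hε : 0 < ε) :
    ∃ C : ℝ, 0 ≤ C ∧ ∀ y : ℝ, 1 ≤ y → y ^ θ ≤ ε * y + C := by
  have h1θ : 0 < 1 - θ := by linarith
  set y0 : ℝ := (1 / ε) ^ (1 / (1 - θ)) with hy0
  have hy0pos : 0 < y0 := Real.rpow_pos_of_pos (by positivity) _
  refine ⟨y0 ^ θ, by positivity, fun y hy => ?_⟩
  have hypos : 0 < y := by linarith
  rcases le_total y0 y with h | h
  · have h2 : 1 / ε ≤ y ^ (1 - θ) := by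
      have h3 : y0 ^ (1 - θ) = 1 / ε := by
        rw [hy0, ← Real.rpow_mul (by positivity), one_div_mul_cancel h1θ.ne', Real.rpow_one]
      rw [← h3]
      exact Real.rpow_le_rpow hy0pos.le h h1θ.le
    have h4 : y ^ θ * y ^ (1 - θ) = y := by
      rw [← Real.rpow_add hypos]
      have : θ + (1 - θ) = 1 := by ring
      rw [this, Real.rpow_one]
    have h5 : y ^ θ * (1 / ε) ≤ y := by
      calc y ^ θ * (1 / ε) ≤ y ^ θ * y ^ (1 - θ) := by gcongr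
        _ = y := h4
    have h6 : y ^ θ ≤ ε * y := by
      rw [mul_one_div, div_le_iff₀ hε] at h5
      linarith
    have h7 : 0 ≤ y0 ^ θ := by positivity
    linarith
  · have h2 : y ^ θ ≤ y0 ^ θ := Real.rpow_le_rpow hypos.le h hθ0
    have h3 : 0 ≤ ε * y := by positivity
    linarith

/-- powers of logarithms and exponentials of powers of logarithms are small -/
theorem growth_le {a B θ : ℝ} (ha : 0 < a) (hB : 0 ≤ B) (hθ0 : 0 ≤ θ) (hθ1 : θ < 1) (n : ℕ) :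
    ∃ c : ℝ, 0 < c ∧ ∀ x : ℝ, 0 ≤ x →
      c * ((1 + x) ^ n * Real.exp (B * (1 + x) ^ θ)) ≤ Real.exp (a * x) := by
  obtain ⟨C1, hC1, h1⟩ := rpow_le_lin (θ := 1 / 2) (ε := a / (2 * (2 * n + 1))) (by norm_num)
    (by norm_num) (by positivity)
  obtain ⟨C2, hC2, h2⟩ := rpow_le_lin (θ := θ) (ε := a / (2 * (B + 1))) hθ0 hθ1 (by positivity)
  refine ⟨Real.exp (-(a + (2 * n + 1) * C1 + (B + 1) * C2)), Real.exp_pos _, fun x hx => ?_⟩
  have hy : 1 ≤ 1 + x := by linarith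
  have hypos : 0 < 1 + x := by linarith
  have h3 : (1 + x) ^ n = Real.exp (n * Real.log (1 + x)) := by
    rw [← Real.log_pow, Real.exp_log (by positivity)]
  rw [h3, ← Real.exp_add, ← Real.exp_add]
  apply Real.exp_le_exp.2
  have h4 : Real.log (1 + x) ≤ 2 * (1 + x) ^ (1 / 2 : ℝ) := by
    have h5 := Real.log_le_rpow_div hypos.le (show (0 : ℝ) < 1 / 2 by norm_num)
    calc Real.log (1 + x) ≤ (1 + x) ^ (1 / 2 : ℝ) / (1 / 2) := h5
      _ = _ := by ring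
  have h5 := h1 (1 + x) hy
  have h6 := h2 (1 + x) hy
  have hsq : 0 ≤ (1 + x) ^ (1 / 2 : ℝ) := by positivity
  have hth : 0 ≤ (1 + x) ^ θ := by positivity
  have h7 : (n : ℝ) * Real.log (1 + x) ≤ a / 2 * (1 + x) + (2 * n + 1) * C1 := by
    calc (n : ℝ) * Real.log (1 + x) ≤ n * (2 * (1 + x) ^ (1 / 2 : ℝ)) := by gcongr
      _ ≤ (2 * n + 1) * (1 + x) ^ (1 / 2 : ℝ) := by nlinarith
      _ ≤ (2 * n + 1) * (a / (2 * (2 * n + 1)) * (1 + x) + C1) := by gcongr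
      _ = _ := by field_simp
  have h8 : B * (1 + x) ^ θ ≤ a / 2 * (1 + x) + (B + 1) * C2 := by
    calc B * (1 + x) ^ θ ≤ (B + 1) * (1 + x) ^ θ := by nlinarith
      _ ≤ (B + 1) * (a / (2 * (B + 1)) * (1 + x) + C2) := by gcongr
      _ = _ := by field_simp
  linarith

end growth

section orbsep

variable {K N : Type} [Field K] [Field N] [Algebra K N] [FiniteDimensional K N] [IsGalois K N]

/-- if no form of degree at most `γ` over `K` vanishes at `P`, its conjugates are separated -/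
theorem orbSep_of_min {P : Fin 3 → N} (hP : P ≠ 0) {γ t : ℕ}
    (hγ : ∀ b ≤ γ, ∀ h : MvPolynomial (Fin 3) K, h.IsHomogeneous b → aeval P h = 0 → h = 0)
    (ht : idx (⊤ : Subgroup (N ≃ₐ[K] N)) P / (γ + 1) +
      3 * Nat.sqrt (idx (⊤ : Subgroup (N ≃ₐ[K] N)) P) + 1 ≤ t) : OrbSep K t P := by
  obtain ⟨n, z, pre, hn1, hn, hpre, hz0, hzz, hcover⟩ := exists_rows
    (fin (⊤ : Subgroup (N ≃ₐ[K] N))) ⟨1, mem_fin.2 (Subgroup.mem_top _)⟩ (fun σ => gal σ P)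
    (fun σ => gal_ne σ hP)
  obtain ⟨a0, c0, hc0, h0⟩ := hcover 1 (mem_fin.2 (Subgroup.mem_top _))
  rw [gal_one] at h0
  obtain ⟨G, hG, hG1, hG2⟩ := planeA (K := K) hP hγ ht z hz0
    (fun i => ⟨pre i, 1, by rw [(hpre i).2, one_smul]⟩) hzz a0
  refine ⟨G, hG, fun h1 => hG1 ((eval_zero_of_smul hG hc0 h0).2 h1), fun σ hσ => ?_⟩
  obtain ⟨i, c, hc, h1⟩ := hcover σ (mem_fin.2 (Subgroup.mem_top _))
  refine (eval_zero_of_smul hG hc h1).1 (hG2 i ?_)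
  rintro rfl
  apply hσ
  refine ⟨c⁻¹ * c0, mul_ne_zero (inv_ne_zero hc) hc0, ?_⟩
  rw [mul_smul, ← h0, h1, smul_smul, inv_mul_cancel₀ hc, one_smul]

end orbsep

section near

variable {K : Type} [Field K] [NumberField K] {p s : ℕ} {ι : Type} [Fintype ι] [DecidableEq ι]

/-- the bound of the library for the points over a Galois extension -/
theorem near_core [Nonempty ι] (hι : 2 ≤ Fintype.card ι) (hp : p.Prime) (hs : 1 ≤ s)
    (v : FinitePlace K)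
    (Φ : GF (OW v) p s ι) (hϖ : v (Φ.ϖ : K) < 1) (hϖ0 : (Φ.ϖ : K) ≠ 0)
    (hunif : ∀ a : K, v a < 1 → v a ≤ v (Φ.ϖ : K))
    (F : ι → MvPolynomial ι K) (hF : ∀ i, (F i).IsHomogeneous (p ^ s))
    (hz : ∀ z : ι → AlgebraicClosure K, (∀ i, aeval z (F i) = 0) → z = 0)
    (hΦF : ∀ i, map (OW v).subtype (Φ.F i) = F i) :
    ∃ A B : ℝ, 0 < A ∧ 0 < B ∧ ∀ (N : Type) [Field N] [NumberField N] [Algebra K N]
      [IsGalois K N] (P : ι → N), P ≠ 0 →
      (¬ ∃ m n : ℕ, m ≠ n ∧ ∃ c : N, c ≠ 0 ∧ (gAct F N)^[n] P = c • (gAct F N)^[m] P) →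
      ∃ h : ℝ, Tendsto (fun n : ℕ => Height.logHeight ((gAct F N)^[n] P) /
        (Module.finrank ℚ N : ℝ) / ((p ^ s : ℕ) : ℝ) ^ n) atTop (𝓝 h) ∧
        A / (idx (⊤ : Subgroup (N ≃ₐ[K] N)) P : ℝ) * Real.exp (-(B * (1 + (Real.log
          (idx (⊤ : Subgroup (N ≃ₐ[K] N)) P)) ^
          (((Fintype.card ι - 1 : ℕ) : ℝ) / (((Fintype.card ι - 1 : ℕ) : ℝ) + 1))))) ≤ h := by
  obtain ⟨f, hf1, hdata⟩ := galois_data hp v (v_p_lt Φ hϖ) hunif
  obtain ⟨A, B, hA, hB, hbound⟩ := rel_core2 hι hp hs v Φ hϖ hϖ0 F hF hz hΦF 1 le_rfl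
  have hfpos : (0 : ℝ) < f := by exact_mod_cast hf1
  refine ⟨A, B * f, hA, by positivity, ?_⟩
  intro N _ _ _ _ P hP hwand
  obtain ⟨S, e, τ, J, hS, hcard, hfrob, hτw, hJ1, hJ2, hJ3⟩ := hdata N
  obtain ⟨h, hlim, hle⟩ := hbound N f ⊤ 1 S e τ J 1 hf1 le_rfl hS hcard hfrob hτw
    (fun _ _ _ => Subgroup.mem_top _) (fun _ _ => le_top) hJ1 hJ2 hJ3 P hP hwand
  refine ⟨h, hlim, le_trans (le_of_eq ?_) hle⟩
  push_cast
  ring_nf

end near

end Pool.DynLehmer
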