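import Mathlib
import Pool.Agent.Lib.MP_2194ec_nt.GenMain

set_option autoImplicit false

/-!
# Iterates: wandering points and canonical heights
-/

namespace Pool.DynLehmer
open MvPolynomial NumberField IsDedekindDomain Filter Topology
open scoped Classical Pointwise LinearAlgebra.Projectivization

section iter

variable {K : Type} [Field K]

theorem wand_iter {ι : Type} (F : ι → MvPolynomial ι K) {N : Type} [Field N] [Algebra K N]
    {P : ι → N}
    (hw : ¬ ∃ m n : ℕ, m ≠ n ∧ ∃ c : N, c ≠ 0 ∧ (gAct F N)^[n] P = c • (gAct F N)^[m] P) (l : ℕ) :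
    ¬ ∃ m n : ℕ, m ≠ n ∧ ∃ c : N, c ≠ 0 ∧
      (gAct F N)^[n] ((gAct F N)^[l] P) = c • (gAct F N)^[m] ((gAct F N)^[l] P) := by
  rintro ⟨m, n, hmn, c, hc, h⟩
  rw [← Function.iterate_add_apply, ← Function.iterate_add_apply] at h
  exact hw ⟨m + l, n + l, by omega, c, hc, h⟩

theorem lim_iter {ι : Type} [Fintype ι] (F : ι → MvPolynomial ι K) {N : Type} [Field N]
    [NumberField N] [Algebra K N] {P : ι → N} {q : ℝ} (hq : 0 < q) {h : ℝ}
    (hlim : Tendsto (fun n : ℕ => Height.logHeight ((gAct F N)^[n] P) /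
        (Module.finrank ℚ N : ℝ) / q ^ n) atTop (𝓝 h)) (l : ℕ) :
    Tendsto (fun n : ℕ => Height.logHeight ((gAct F N)^[n] ((gAct F N)^[l] P)) /
        (Module.finrank ℚ N : ℝ) / q ^ n) atTop (𝓝 (q ^ l * h)) := by
  have h1 := (hlim.comp (tendsto_add_atTop_nat l)).const_mul (q ^ l)
  refine h1.congr fun n => ?_
  simp only [Function.comp]
  rw [← Function.iterate_add_apply, pow_add]
  field_simp

end iter

end Pool.DynLehmer
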