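import Mathlib
import Pool.Agent.Lib.MP_2194ec_nt.SepE
import Pool.Agent.Lib.MP_2194ec_nt.SepF
import Pool.Agent.Lib.MP_2194ec_nt.SepG0

set_option autoImplicit false

/-!
# The Lehmer bound in the plane outside preperiodic curves: assembly
-/

namespace Pool.DynLehmer
open MvPolynomial NumberField IsDedekindDomain Filter Topology
open scoped Classical Pointwise LinearAlgebra.Projectivization

section defs

variable {K : Type} [Field K]

/-- some iterate of the point lies on a periodic irreducible curve over `K` -/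
def OnPeriodic (F : Fin 3 → MvPolynomial (Fin 3) K) {N : Type} [Field N] [Algebra K N]
    (P : Fin 3 → N) : Prop :=
  ∃ (r k d : ℕ) (g : MvPolynomial (Fin 3) K), 0 < k ∧ Irreducible g ∧ g.IsHomogeneous d ∧
    aeval ((gAct F N)^[r] P) g = 0 ∧ g ∣ (bind₁ F)^[k] g

theorem OnPeriodic.of_iter {F : Fin 3 → MvPolynomial (Fin 3) K} {N : Type} [Field N]
    [Algebra K N] {P : Fin 3 → N} {l : ℕ} (h : OnPeriodic F ((gAct F N)^[l] P)) :
    OnPeriodic F P := by
  obtain ⟨r, k, d, g, hk, hg, hgh, hg0, hgk⟩ := h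
  refine ⟨r + l, k, d, g, hk, hg, hgh, ?_, hgk⟩
  rw [Function.iterate_add_apply]
  exact hg0

end defs

section curve

variable {K : Type} [Field K] [NumberField K]

/-- The curve case: points on a curve over `K` of degree small with respect to their degree. -/
def CurveCase (F : Fin 3 → MvPolynomial (Fin 3) K) (q : ℕ) : Prop :=
  ∃ C1 C2 : ℕ, ∀ (N : Type) [Field N] [NumberField N] [Algebra K N] [IsGalois K N]
    (R : Fin 3 → N), R ≠ 0 →
    (¬ ∃ m n : ℕ, m ≠ n ∧ ∃ c : N, c ≠ 0 ∧ (gAct F N)^[n] R = c • (gAct F N)^[m] R) →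
    ∀ (w : ℕ) (g : MvPolynomial (Fin 3) K), 1 ≤ w → g.IsHomogeneous w → Prime g →
      aeval R g = 0 → C2 * w ^ C2 ≤ idx (⊤ : Subgroup (N ≃ₐ[K] N)) R →
      ∀ h : ℝ, Tendsto (fun n : ℕ => Height.logHeight ((gAct F N)^[n] R) /
        (Module.finrank ℚ N : ℝ) / (q : ℝ) ^ n) atTop (𝓝 h) →
      1 ≤ (C1 : ℝ) * (w : ℝ) ^ C1 * h ∨ OnPeriodic F R

end curve

theorem sepG_aux {a b x : ℝ} (h : 2 * a ≤ b) (hx : 0 ≤ x) : a * x * 2 ≤ x * b := by
  have := mul_le_mul_of_nonneg_left h hx
  linarith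

section main

variable {K : Type} [Field K] [NumberField K] {p s : ℕ}

/-- **Assembly.** -/
theorem plane_core (hp : p.Prime) (hs : 1 ≤ s) (v : FinitePlace K)
    (Φ : GF (OW v) p s (Fin 3)) (hϖ : v (Φ.ϖ : K) < 1) (hϖ0 : (Φ.ϖ : K) ≠ 0)
    (hunif : ∀ a : K, v a < 1 → v a ≤ v (Φ.ϖ : K))
    (F : Fin 3 → MvPolynomial (Fin 3) K) (hF : ∀ i, (F i).IsHomogeneous (p ^ s))
    (hz : ∀ z : Fin 3 → AlgebraicClosure K, (∀ i, aeval z (F i) = 0) → z = 0)
    (hΦF : ∀ i, map (OW v).subtype (Φ.F i) = F i) (hcurve : CurveCase F (p ^ s)) :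
    ∃ c : ℝ, 0 < c ∧ ∀ (N : Type) [Field N] [NumberField N] [Algebra K N] [IsGalois K N]
      (P : Fin 3 → N), P ≠ 0 →
      (¬ ∃ m n : ℕ, m ≠ n ∧ ∃ c : N, c ≠ 0 ∧ (gAct F N)^[n] P = c • (gAct F N)^[m] P) →
      ∃ h : ℝ, Tendsto (fun n : ℕ => Height.logHeight ((gAct F N)^[n] P) /
        (Module.finrank ℚ N : ℝ) / ((p ^ s : ℕ) : ℝ) ^ n) atTop (𝓝 h) ∧
        (c ≤ (idx (⊤ : Subgroup (N ≃ₐ[K] N)) P : ℝ) * h ∨ OnPeriodic F P) := by
  have hι : 2 ≤ Fintype.card (Fin 3) := by simp
  have hq2 : 2 ≤ p ^ s := hp.two_le.trans (Nat.le_self_pow (by omega) p)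
  have hq2r : (2 : ℝ) ≤ ((p ^ s : ℕ) : ℝ) := by exact_mod_cast hq2
  obtain ⟨A, B, cb, hA, hB, hcb, hcore⟩ := sep_core hι hp hs v Φ hϖ hϖ0 hunif F hF hz hΦF
  obtain ⟨A', B', hA', hB', hnear⟩ := near_core hι hp hs v Φ hϖ hϖ0 hunif F hF hz hΦF
  obtain ⟨C1, C2, hcurve⟩ := hcurve
  set q : ℝ := ((p ^ s : ℕ) : ℝ) with hq
  have hq0 : 0 < q := by linarith
  have hcard : Fintype.card (Fin 3) - 1 = 2 := by simp
  have hcard' : Fintype.card (Fin 3) + 1 = 4 := by simp
  rw [hcard] at hcore hnear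
  rw [hcard'] at hcore
  set θ : ℝ := ((2 : ℕ) : ℝ) / (((2 : ℕ) : ℝ) + 1) with hθ
  have hθv : θ = 2 / 3 := by rw [hθ]; norm_num
  have hθ0 : 0 ≤ θ := by rw [hθv]; norm_num
  have hθ1 : θ < 1 := by rw [hθv]; norm_num
  -- the parameters
  set K0 : ℕ := 2 * (C1 + C2 + 1) with hK0
  have hK01 : 2 ≤ K0 := by omega
  have hK0pos : (0 : ℝ) < K0 := by
    have : 0 < K0 := by omega
    exact_mod_cast this
  have hlogq : 0 ≤ Real.log q := Real.log_nonneg (by linarith)
  have hcbr : (1 : ℝ) ≤ cb := by exact_mod_cast hcb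
  have hlogcb : 0 ≤ Real.log cb := Real.log_nonneg hcbr
  -- growth estimates
  obtain ⟨c1, hc1, hg1⟩ := growth_le (a := 1 / (K0 : ℝ)) (B := B) (θ := θ) (by positivity)
    hB.le hθ0 hθ1 4
  obtain ⟨c2, hc2, hg2⟩ := growth_le (a := 1 / 2) (B := Real.log q * B) (θ := θ) (by norm_num)
    (by positivity) hθ0 hθ1 4
  obtain ⟨c3, hc3, hg3⟩ := growth_le (a := 1 / 2) (B := Real.log cb * B) (θ := θ) (by norm_num)
    (by positivity) hθ0 hθ1 1
  -- threshold
  set xs : ℝ := (C2 : ℝ) / c3 with hxs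
  have hxs0 : 0 ≤ xs := by positivity
  set c4 : ℝ := A' * Real.exp (-(B' * (1 + xs ^ θ))) / (A * (1 + xs) ^ 4) with hc4
  have hc40 : 0 < c4 := by positivity
  refine ⟨min (c1 / (5 * A)) (min (c2 / (A * (C1 + 1))) c4), by positivity, ?_⟩
  intro N _ _ _ _ P hP hwand
  obtain ⟨hcbP, hcoreP⟩ := hcore N P hP
  obtain ⟨h, hlim, hpos, m, hm1, hm2⟩ := hcoreP hwand
  refine ⟨h, hlim, ?_⟩
  have hPl : ∀ l, (gAct F N)^[l] P ≠ 0 := fun l => gAct_iter_ne F hF hz l P hP
  have hfd : FiniteDimensional K N := Module.Finite.of_restrictScalars_finite ℚ K N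
  set D : ℝ := (idx (⊤ : Subgroup (N ≃ₐ[K] N)) P : ℝ) with hD
  set Dm := idx (⊤ : Subgroup (N ≃ₐ[K] N)) ((gAct F N)^[m] P) with hDm
  have hDm1 : 1 ≤ Dm := idx_pos _ _
  have hDm1r : (1 : ℝ) ≤ Dm := by exact_mod_cast hDm1
  set x : ℝ := Real.log Dm with hx
  have hx0 : 0 ≤ x := Real.log_nonneg hDm1r
  have hDmx : (Dm : ℝ) = Real.exp x := by rw [hx, Real.exp_log (by linarith)]
  have h1x : 0 < 1 + x := by linarith
  set y : ℝ := (1 + x) ^ θ with hy
  have hy0 : 0 < y := by positivity
  have hDpos : 0 < D := by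
    have : 1 ≤ idx (⊤ : Subgroup (N ≃ₐ[K] N)) P := idx_pos _ _
    have h1 : (1 : ℝ) ≤ D := by rw [hD]; exact_mod_cast this
    linarith
  -- a lower bound for `Dm q^m h` gives one for `D h`
  have hkey : ∀ a : ℝ, a * (A * (1 + x) ^ 4) ≤ q ^ m * h * Dm → a ≤ D * h := by
    intro a ha
    have h1 : q ^ m * h * Dm ≤ A * (1 + x) ^ 4 * D * h := by
      calc q ^ m * h * Dm = (q ^ m * Dm) * h := by ring
        _ ≤ (A * (1 + x) ^ 4 * D) * h := by gcongr
    have h2 : (A * (1 + x) ^ 4) * a ≤ (A * (1 + x) ^ 4) * (D * h) := by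
      calc (A * (1 + x) ^ 4) * a = a * (A * (1 + x) ^ 4) := by ring
        _ ≤ _ := ha.trans h1
        _ = _ := by ring
    exact le_of_mul_le_mul_left h2 (by positivity)
  -- the bound for the degree of the curves
  set γ : ℕ := ⌊Real.exp (x / K0)⌋₊ with hγ
  have hγle : (γ : ℝ) ≤ Real.exp (x / K0) := Nat.floor_le (Real.exp_nonneg _)
  have hγlt : Real.exp (x / K0) < γ + 1 := Nat.lt_floor_add_one _
  by_cases hall : ∀ l : ℕ, m ≤ l → (l : ℝ) ≤ m + B * y → ∀ b ≤ γ,
      ∀ f : MvPolynomial (Fin 3) K, f.IsHomogeneous b → aeval ((gAct F N)^[l] P) f = 0 → f = 0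
  · -- all levels are separated
    left
    refine le_trans (min_le_left _ _) ?_
    set δ : ℕ := Dm / (γ + 1) + 3 * Nat.sqrt Dm + 1 with hδ
    have hδ1 : 1 ≤ δ := Nat.le_add_left 1 _
    have hδ5 : δ ≤ 5 * Dm := by
      have h1 : Dm / (γ + 1) ≤ Dm := Nat.div_le_self _ _
      have h2 : Nat.sqrt Dm ≤ Dm := Nat.sqrt_le_self _
      omega
    have hsep : ∀ l : ℕ, m ≤ l → (l : ℝ) ≤ m + B * y → OrbSep K δ ((gAct F N)^[l] P) := by
      intro l hl1 hl2
      refine orbSep_of_min (hPl l) (hall l hl1 hl2) ?_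
      have h1 : idx (⊤ : Subgroup (N ≃ₐ[K] N)) ((gAct F N)^[l] P) ≤ Dm := by
        obtain ⟨j, rfl⟩ : ∃ j, l = j + m := ⟨l - m, by omega⟩
        rw [Function.iterate_add_apply]
        exact idx_mono _ (stab_act F hF j _)
      have h2 := Nat.div_le_div_right (c := γ + 1) h1
      have h3 := Nat.sqrt_le_sqrt h1
      rw [hδ]
      omega
    have h1 := hm2 δ hδ1 hδ5 hsep
    -- size of `δ`
    have hδr : (δ : ℝ) ≤ 5 * Real.exp (x - x / K0) := by
      have e1 : ((Dm / (γ + 1) : ℕ) : ℝ) ≤ Real.exp (x - x / K0) := by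
        have h2 : ((Dm / (γ + 1) : ℕ) : ℝ) ≤ (Dm : ℝ) / ((γ + 1 : ℕ) : ℝ) := Nat.cast_div_le
        refine h2.trans ?_
        rw [Real.exp_sub, ← hDmx]
        push_cast
        exact div_le_div_of_nonneg_left (by linarith) (Real.exp_pos _) hγlt.le
      have e2 : (Nat.sqrt Dm : ℝ) ≤ Real.exp (x - x / K0) := by
        have h2 : (Nat.sqrt Dm : ℝ) ≤ Real.exp (x / 2) := by
          have h3 : ((Nat.sqrt Dm : ℕ) : ℝ) ^ 2 ≤ Dm := by
            exact_mod_cast Nat.sqrt_le' Dm
          have h4 : Real.exp (x / 2) ^ 2 = Dm := by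
            rw [← Real.exp_nat_mul, hDmx]
            congr 1
            push_cast
            ring
          exact le_of_sq_le_sq (by rw [h4]; exact h3) (Real.exp_nonneg _)
        refine h2.trans (Real.exp_le_exp.2 ?_)
        have h3 : x / K0 ≤ x / 2 := by
          apply div_le_div_of_nonneg_left hx0 (by norm_num)
          exact_mod_cast hK01
        linarith
      have e3 : (1 : ℝ) ≤ Real.exp (x - x / K0) := by
        apply Real.one_le_exp
        have h3 : x / K0 ≤ x / 1 := by
          apply div_le_div_of_nonneg_left hx0 (by norm_num)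
          have : 1 ≤ K0 := by omega
          exact_mod_cast this
        rw [div_one] at h3
        linarith
      rw [hδ]
      push_cast
      linarith
    apply hkey
    have h2 : c1 * ((1 + x) ^ 4 * Real.exp (B * y)) ≤ Real.exp (x / K0) := by
      have := hg1 x hx0
      rwa [one_div, inv_mul_eq_div] at this
    have h3 : 1 ≤ 5 * Real.exp (x - x / K0) * Real.exp (B * y) * (q ^ m * h) := by
      refine h1.trans ?_
      have : 0 ≤ q ^ m * h := by positivity
      gcongr
    have h4 : Real.exp (x - x / K0) * Real.exp (x / K0) = Dm := by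
      rw [← Real.exp_add, hDmx]
      congr 1
      ring
    calc c1 / (5 * A) * (A * (1 + x) ^ 4) = c1 * (1 + x) ^ 4 / 5 * 1 := by field_simp
      _ ≤ c1 * (1 + x) ^ 4 / 5 * (5 * Real.exp (x - x / K0) * Real.exp (B * y) *
          (q ^ m * h)) := by gcongr
      _ = (c1 * ((1 + x) ^ 4 * Real.exp (B * y))) * Real.exp (x - x / K0) * (q ^ m * h) := by
          ring
      _ ≤ Real.exp (x / K0) * Real.exp (x - x / K0) * (q ^ m * h) := by gcongr
      _ = q ^ m * h * Dm := by rw [← h4]; ring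
  · -- some level lies on a curve of small degree
    push Not at hall
    obtain ⟨l, hl1, hl2, b, hb, f, hf, hfl, hf0⟩ := hall
    obtain ⟨w, g, hw1, hgh, hgp, hgP, -, hmin⟩ := exists_min_form (K := K) (hPl l)
    have hwγ : w ≤ γ := (hmin b f hf hf0 hfl).trans hb
    have hwr : (w : ℝ) ≤ Real.exp (x / K0) := by
      have : (w : ℝ) ≤ γ := by exact_mod_cast hwγ
      linarith
    have hw1r : (1 : ℝ) ≤ w := by exact_mod_cast hw1
    obtain ⟨j, hj⟩ : ∃ j, l = j + m := ⟨l - m, by omega⟩
    have hjr : (j : ℝ) ≤ B * y := by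
      rw [hj] at hl2
      push_cast at hl2
      linarith
    by_cases hxx : x < xs
    · -- bounded degree
      left
      refine le_trans (min_le_right _ _) (le_trans (min_le_right _ _) ?_)
      obtain ⟨h', hlim', hle'⟩ := hnear N ((gAct F N)^[m] P) (hPl m) (wand_iter F hwand m)
      have hh' : h' = q ^ m * h := tendsto_nhds_unique hlim' (lim_iter F hq0 hlim m)
      rw [hh', ← hDm, ← hx] at hle'
      apply hkey
      have h2 : A' * Real.exp (-(B' * (1 + xs ^ θ))) ≤ q ^ m * h * Dm := by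
        have h3 : A' * Real.exp (-(B' * (1 + xs ^ θ))) ≤ A' * Real.exp (-(B' * (1 + x ^ θ))) := by
          have h4 : x ^ θ ≤ xs ^ θ := Real.rpow_le_rpow hx0 hxx.le hθ0
          have h5 : -(B' * (1 + xs ^ θ)) ≤ -(B' * (1 + x ^ θ)) := by
            have : B' * (1 + x ^ θ) ≤ B' * (1 + xs ^ θ) := by gcongr
            linarith
          have h6 := Real.exp_le_exp.2 h5
          gcongr
        refine h3.trans ?_
        have h4 : A' / (Dm : ℝ) * Real.exp (-(B' * (1 + x ^ θ))) * Dm ≤ q ^ m * h * Dm := by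
          gcongr
        refine le_trans (le_of_eq ?_) h4
        have : (Dm : ℝ) ≠ 0 := by linarith
        field_simp
      refine le_trans ?_ h2
      rw [hc4]
      have h3 : (1 + x) ^ 4 ≤ (1 + xs) ^ 4 := by gcongr
      calc A' * Real.exp (-(B' * (1 + xs ^ θ))) / (A * (1 + xs) ^ 4) * (A * (1 + x) ^ 4)
          ≤ A' * Real.exp (-(B' * (1 + xs ^ θ))) / (A * (1 + xs) ^ 4) * (A * (1 + xs) ^ 4) := by
            gcongr
        _ = _ := by field_simp
    · push Not at hxx
      -- the degree of the point is large with respect to the curve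
      have hdeg : C2 * w ^ C2 ≤ idx (⊤ : Subgroup (N ≃ₐ[K] N)) ((gAct F N)^[l] P) := by
        have h2 : (Dm : ℝ) ≤ (cb : ℝ) ^ j *
            idx (⊤ : Subgroup (N ≃ₐ[K] N)) ((gAct F N)^[l] P) := by
          have h3 := (hcore N ((gAct F N)^[m] P) (hPl m)).1 j
          rw [← Function.iterate_add_apply, ← hj, ← hDm] at h3
          exact_mod_cast h3
        have h3 : (cb : ℝ) ^ j ≤ Real.exp (Real.log cb * B * y) := by
          rw [← Real.exp_log (show (0 : ℝ) < (cb : ℝ) ^ j by positivity), Real.log_pow]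
          apply Real.exp_le_exp.2
          calc (j : ℝ) * Real.log cb ≤ B * y * Real.log cb := by gcongr
            _ = _ := by ring
        have h4 : (C2 : ℝ) * (w : ℝ) ^ C2 ≤ C2 * Real.exp (x / 2) := by
          have h5 : (w : ℝ) ^ C2 ≤ Real.exp (x / 2) := by
            calc (w : ℝ) ^ C2 ≤ Real.exp (x / K0) ^ C2 := by gcongr
              _ = Real.exp (C2 * (x / K0)) := by rw [← Real.exp_nat_mul]
              _ ≤ Real.exp (x / 2) := by
                  apply Real.exp_le_exp.2
                  rw [mul_div_assoc', div_le_div_iff₀ hK0pos (by norm_num)]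
                  have h6 : (2 : ℝ) * C2 ≤ K0 := by
                    have : 2 * C2 ≤ K0 := by omega
                    exact_mod_cast this
                  exact sepG_aux h6 hx0
          gcongr
        have h5 : (C2 : ℝ) * Real.exp (Real.log cb * B * y) ≤ Real.exp (x / 2) := by
          have h6 := hg3 x hx0
          rw [pow_one] at h6
          have h7 : (C2 : ℝ) ≤ c3 * (1 + x) := by
            have h8 : (C2 : ℝ) = c3 * xs := by rw [hxs]; field_simp
            rw [h8]
            apply mul_le_mul_of_nonneg_left _ hc3.le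
            linarith
          calc (C2 : ℝ) * Real.exp (Real.log cb * B * y)
              ≤ c3 * (1 + x) * Real.exp (Real.log cb * B * y) := by gcongr
            _ = c3 * ((1 + x) * Real.exp (Real.log cb * B * y)) := by ring
            _ ≤ Real.exp (1 / 2 * x) := h6
            _ = _ := by congr 1; ring
        have h6 : (C2 : ℝ) * (w : ℝ) ^ C2 * Real.exp (Real.log cb * B * y) ≤ Dm := by
          calc (C2 : ℝ) * (w : ℝ) ^ C2 * Real.exp (Real.log cb * B * y)
              ≤ C2 * Real.exp (x / 2) * Real.exp (Real.log cb * B * y) := by gcongr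
            _ = (C2 * Real.exp (Real.log cb * B * y)) * Real.exp (x / 2) := by ring
            _ ≤ Real.exp (x / 2) * Real.exp (x / 2) := by gcongr
            _ = Dm := by rw [← Real.exp_add, hDmx]; congr 1; ring
        have h7 : (C2 : ℝ) * (w : ℝ) ^ C2 * Real.exp (Real.log cb * B * y) ≤
            Real.exp (Real.log cb * B * y) *
              idx (⊤ : Subgroup (N ≃ₐ[K] N)) ((gAct F N)^[l] P) := by
          refine h6.trans (h2.trans ?_)
          gcongr
        have h8 : (C2 : ℝ) * (w : ℝ) ^ C2 ≤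
            idx (⊤ : Subgroup (N ≃ₐ[K] N)) ((gAct F N)^[l] P) := by
          rw [mul_comm] at h7
          exact le_of_mul_le_mul_left h7 (Real.exp_pos _)
        exact_mod_cast h8
      rcases hcurve N ((gAct F N)^[l] P) (hPl l) (wand_iter F hwand l) w g hw1 hgh hgp hgP hdeg
        (q ^ l * h) (lim_iter F hq0 hlim l) with hgood | hbad
      · left
        refine le_trans (min_le_right _ _) (le_trans (min_le_left _ _) ?_)
        apply hkey
        have h2 : (w : ℝ) ^ C1 ≤ Real.exp (x / 2) := by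
          calc (w : ℝ) ^ C1 ≤ Real.exp (x / K0) ^ C1 := by gcongr
            _ = Real.exp (C1 * (x / K0)) := by rw [← Real.exp_nat_mul]
            _ ≤ Real.exp (x / 2) := by
                apply Real.exp_le_exp.2
                rw [mul_div_assoc', div_le_div_iff₀ hK0pos (by norm_num)]
                have h6 : (2 : ℝ) * C1 ≤ K0 := by
                  have : 2 * C1 ≤ K0 := by omega
                  exact_mod_cast this
                exact sepG_aux h6 hx0
        have h3 : q ^ l ≤ q ^ m * Real.exp (Real.log q * B * y) := by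
          rw [hj, pow_add, mul_comm]
          apply mul_le_mul_of_nonneg_left _ (by positivity)
          rw [← Real.exp_log (show (0 : ℝ) < q ^ j by positivity), Real.log_pow]
          apply Real.exp_le_exp.2
          calc (j : ℝ) * Real.log q ≤ B * y * Real.log q := by gcongr
            _ = _ := by ring
        have h4 : 1 ≤ (C1 + 1) * Real.exp (x / 2) * (q ^ m * Real.exp (Real.log q * B * y) * h) := by
          refine hgood.trans ?_
          gcongr
          linarith
        have h5 : c2 * ((1 + x) ^ 4 * Real.exp (Real.log q * B * y)) ≤ Real.exp (x / 2) := by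
          have := hg2 x hx0
          convert this using 2
          ring
        calc c2 / (A * (C1 + 1)) * (A * (1 + x) ^ 4)
            = c2 * (1 + x) ^ 4 / (C1 + 1) * 1 := by field_simp
          _ ≤ c2 * (1 + x) ^ 4 / (C1 + 1) * ((C1 + 1) * Real.exp (x / 2) *
              (q ^ m * Real.exp (Real.log q * B * y) * h)) := by gcongr
          _ = (c2 * ((1 + x) ^ 4 * Real.exp (Real.log q * B * y))) * Real.exp (x / 2) *
              (q ^ m * h) := by field_simp
          _ ≤ Real.exp (x / 2) * Real.exp (x / 2) * (q ^ m * h) := by gcongr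
          _ = q ^ m * h * Dm := by
              rw [← Real.exp_add, hDmx]
              have : x / 2 + x / 2 = x := by ring
              rw [this]; ring
      · right
        exact hbad.of_iter

end main

end Pool.DynLehmer
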