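import Mathlib
import Pool.Agent.Lib.MP_2194ec_nt.SepH
import Pool.Agent.Lib.MP_2194ec_nt.PlJ
import Pool.Agent.Lib.MP_2194ec_nt.PlK

set_option autoImplicit false

/-!
# The Lehmer bound in the plane outside preperiodic curves
-/

namespace Pool.DynLehmer
open MvPolynomial NumberField IsDedekindDomain Filter Topology
open scoped Classical Pointwise LinearAlgebra.Projectivization

section curve

variable {K : Type} [Field K] [NumberField K] {p s : ℕ}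

/-- The curve case. -/
theorem curveCase (hp : p.Prime) (hs : 1 ≤ s) (v : FinitePlace K)
    (Φ : GF (OW v) p s (Fin 3)) (hϖ : v (Φ.ϖ : K) < 1) (hϖ0 : (Φ.ϖ : K) ≠ 0)
    (hmax : ∀ a : K, v a < 1 → v a ≤ v (Φ.ϖ : K))
    (F : Fin 3 → MvPolynomial (Fin 3) K) (hF : ∀ i, (F i).IsHomogeneous (p ^ s))
    (hz : ∀ z : Fin 3 → AlgebraicClosure K, (∀ i, aeval z (F i) = 0) → z = 0)
    (hΦF : ∀ i, map (OW v).subtype (Φ.F i) = F i) : CurveCase F (p ^ s) := by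
  obtain ⟨C1, C2, hB⟩ := planeB hp hs v Φ hϖ hϖ0 hmax F hF hz hΦF 1 le_rfl
  refine ⟨C1, C2, ?_⟩
  intro N _ _ _ _ R hR _ w g hw hgh hgp hgR hdeg h hlim
  obtain ⟨S, e, hS, hsum⟩ := exists_above v N
  rcases hB N S e hS (by rw [hsum, one_mul]) R hR g w hw hgh hgp hgR hdeg h hlim with h1 | h1
  · exact Or.inl h1
  · right
    obtain ⟨l, l', hll, f, n, hf, hfp, hgf, hgf'⟩ := h1
    refine ⟨l, l' - l, n, f, by omega, hfp.irreducible, hf, ?_, ?_⟩
    · obtain ⟨u, hu⟩ := hgf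
      rw [← aeval_bind_iter, hu, map_mul, hgR, zero_mul]
    · exact planeC F (Nat.one_le_pow _ _ hp.pos) hF hz hw hgh hgp.ne_zero hf hfp hll hgf hgf'

/-- **The Lehmer bound in the plane outside preperiodic curves.** -/
theorem plane_lehmer' {d : ℕ} (hd : 2 ≤ d)
    (F : Fin 3 → MvPolynomial (Fin 3) K) (hF : ∀ i, (F i).IsHomogeneous d)
    (hz : ∀ z : Fin 3 → AlgebraicClosure K, (∀ i, aeval z (F i) = 0) → z = 0)
    (hp : p.Prime) (hs : 1 ≤ s) (v : FinitePlace K)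
    (P : Fin 3 → MvPolynomial (Fin 3) K) (hP : ∀ i, (P i).IsHomogeneous (p ^ s))
    (hv : v (p : K) < 1) (hint : ∀ i t, v (coeff t (P i)) ≤ 1)
    (hred : ∀ i t, (∀ j, t ≠ Finsupp.single j (p ^ s)) → v (coeff t (P i)) < 1)
    (hdet : v (Matrix.det (Matrix.of fun i j => coeff (Finsupp.single j (p ^ s)) (P i))) = 1)
    (hc : ∀ i j, bind₁ P (F i) * bind₁ F (P j) = bind₁ P (F j) * bind₁ F (P i)) :
    ∃ c : ℝ, 0 < c ∧ ∀ (L : Type) [Field L] [NumberField L] [Algebra K L],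
      ∀ x : Fin 3 → L, x ≠ 0 →
      (¬ ∃ m n : ℕ, m ≠ n ∧ ∃ c : L, c ≠ 0 ∧ (gAct F L)^[n] x = c • (gAct F L)^[m] x) →
      ∃ h : ℝ, Tendsto (fun n : ℕ => Height.logHeight ((gAct F L)^[n] x) /
        (Module.finrank ℚ L : ℝ) / (d : ℝ) ^ n) atTop (𝓝 h) ∧
        (c / (Module.finrank K L : ℝ) ≤ h ∨ OnPeriodic P x) := by
  obtain ⟨Φ, hΦP, hϖ0, hϖ, hunif⟩ := exists_GF v hp P hP hv hint hred hdet
  have hzP := gno_common_zero hp Φ hϖ P hΦP
  exact plane_lehmer hd F hF hz hp hs v P hP hv hint hred hdet hc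
    (curveCase hp hs v Φ hϖ hϖ0 hunif P hP hzP hΦP)

end curve

end Pool.DynLehmer
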