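import Mathlib
import Pool.Agent.Lib.MP_2194ec_nt.GenSpan

set_option autoImplicit false

/-!
# Scaling of determinants of monomials, and the product formula with local factors
-/

namespace Pool.DynLehmer
open MvPolynomial NumberField Height
open scoped Classical

section pf

variable {N : Type} [Field N] [NumberField N]

theorem liouville' {ι κ : Type*} [Finite ι] [Fintype κ] {t : N} (ht : t ≠ 0)
    (y : κ → ι → N) (hy : ∀ k, y k ≠ 0) (e : κ → ℕ) (A : InfinitePlace N → ℝ) (hA : ∀ w, 0 < A w)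
    (hinf : ∀ w : InfinitePlace N, w t ≤ A w * ∏ k, (⨆ i, w (y k i)) ^ e k)
    (hfin : ∀ w : FinitePlace N, w t ≤ ∏ k, (⨆ i, w (y k i)) ^ e k) :
    0 ≤ ∑ k, (e k : ℝ) * logHeight (y k) +
      ∑ w : InfinitePlace N, (w.mult : ℝ) * Real.log (A w) := by
  have hposI : ∀ (w : InfinitePlace N) k, 0 < ⨆ i, w (y k i) := fun w k => iSup_pos_of_ne w (hy k)
  have hposF : ∀ (w : FinitePlace N) k, 0 < ⨆ i, w (y k i) := fun w k => iSup_pos_of_ne w (hy k)
  have hI : ∀ w : InfinitePlace N,
      Real.log (w t) ≤ Real.log (A w) + ∑ k, (e k : ℝ) * Real.log (⨆ i, w (y k i)) := by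
    intro w
    have h1 := Real.log_le_log (w.pos_iff.2 ht) (hinf w)
    rw [Real.log_mul (hA w).ne' (Finset.prod_ne_zero_iff.2 fun k _ =>
      (pow_pos (hposI w k) _).ne'), Real.log_prod (fun k _ => (pow_pos (hposI w k) _).ne')] at h1
    simp_rw [Real.log_pow] at h1
    exact h1
  have hF : ∀ w : FinitePlace N,
      Real.log (w t) ≤ ∑ k, (e k : ℝ) * Real.log (⨆ i, w (y k i)) := by
    intro w
    have h1 := Real.log_le_log (FinitePlace.pos_iff.2 ht) (hfin w)
    rw [Real.log_prod (fun k _ => (pow_pos (hposF w k) _).ne')] at h1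
    simp_rw [Real.log_pow] at h1
    exact h1
  have hfs : ((⋃ k, Function.support fun v : FinitePlace N => Real.log (⨆ i, v (y k i))) ∪
      Function.support fun v : FinitePlace N => Real.log (v t)).Finite :=
    (Set.finite_iUnion fun k => finite_support_log_iSup (hy k)).union (finite_support_log ht)
  set T : Finset (FinitePlace N) := hfs.toFinset with hT
  have hsub1 : ∀ k, (Function.support fun v : FinitePlace N => Real.log (⨆ i, v (y k i))) ⊆ ↑T := by
    intro k v hv
    rw [hT, Set.Finite.coe_toFinset]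
    exact Or.inl (Set.mem_iUnion.2 ⟨k, hv⟩)
  have hsub2 : (Function.support fun v : FinitePlace N => Real.log (v t)) ⊆ ↑T := by
    intro v hv
    rw [hT, Set.Finite.coe_toFinset]
    exact Or.inr hv
  have hpf := log_product_formula ht
  rw [finsum_eq_sum_of_support_subset _ hsub2] at hpf
  have hH : ∀ k, logHeight (y k) = ∑ v : InfinitePlace N, (v.mult : ℝ) *
      Real.log (⨆ i, v (y k i)) + ∑ v ∈ T, Real.log (⨆ i, v (y k i)) := by
    intro k
    rw [logHeight_eq_sum (hy k), finsum_eq_sum_of_support_subset _ (hsub1 k)]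
  have h1 : ∑ v : InfinitePlace N, (v.mult : ℝ) * Real.log (v t) ≤
      ∑ v : InfinitePlace N, (v.mult : ℝ) * (Real.log (A v) +
        ∑ k, (e k : ℝ) * Real.log (⨆ i, v (y k i))) :=
    Finset.sum_le_sum fun v _ => mul_le_mul_of_nonneg_left (hI v) (Nat.cast_nonneg _)
  have h2 : ∑ v ∈ T, Real.log (v t) ≤ ∑ v ∈ T, ∑ k, (e k : ℝ) * Real.log (⨆ i, v (y k i)) :=
    Finset.sum_le_sum fun v _ => hF v
  have h3 : ∑ k, (e k : ℝ) * logHeight (y k) =
      ∑ v : InfinitePlace N, (v.mult : ℝ) * ∑ k, (e k : ℝ) * Real.log (⨆ i, v (y k i)) +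
        ∑ v ∈ T, ∑ k, (e k : ℝ) * Real.log (⨆ i, v (y k i)) := by
    simp_rw [hH, mul_add, Finset.sum_add_distrib, Finset.mul_sum]
    congr 1
    · rw [Finset.sum_comm]
      refine Finset.sum_congr rfl fun v _ => Finset.sum_congr rfl fun k _ => by ring
    · rw [Finset.sum_comm]
  have h4 : ∑ v : InfinitePlace N, (v.mult : ℝ) * (Real.log (A v) +
        ∑ k, (e k : ℝ) * Real.log (⨆ i, v (y k i))) =
      ∑ v : InfinitePlace N, (v.mult : ℝ) * Real.log (A v) +
      ∑ v : InfinitePlace N, (v.mult : ℝ) * ∑ k, (e k : ℝ) * Real.log (⨆ i, v (y k i)) := by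
    rw [← Finset.sum_add_distrib]
    exact Finset.sum_congr rfl fun v _ => by ring
  linarith

end pf

section monomials

variable {ι : Type} [Fintype ι] {n δ : ℕ}

/-- an enumeration of the monomials of degree `δ` -/
structure MonEnum (ι : Type) [Fintype ι] (n δ : ℕ) where
  t : Fin n → ι →₀ ℕ
  inj : Function.Injective t
  deg : ∀ a, (t a).degree = δ
  surj : ∀ s : ι →₀ ℕ, s.degree = δ → ∃ a, t a = s

variable (ι) in
theorem exists_monEnum (δ : ℕ) : ∃ n, Nonempty (MonEnum ι n δ) := by
  set S : Finset (ι →₀ ℕ) := Finset.finsuppAntidiag Finset.univ δ with hS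
  have hmem : ∀ s : ι →₀ ℕ, s ∈ S ↔ s.degree = δ := by
    intro s
    rw [hS, Finset.mem_finsuppAntidiag, Finsupp.degree_eq_sum]
    simp
  refine ⟨S.card, ⟨⟨fun a => (S.equivFin.symm a : ι →₀ ℕ), ?_, ?_, ?_⟩⟩⟩
  · intro a b hab
    exact S.equivFin.symm.injective (Subtype.ext hab)
  · intro a
    exact (hmem _).1 (S.equivFin.symm a).2
  · intro s hs
    exact ⟨S.equivFin ⟨s, (hmem s).2 hs⟩, by simp⟩

theorem MonEnum.card_le (E : MonEnum ι n δ) : n ≤ (δ + 1) ^ Fintype.card ι := by
  have h1 : ∀ a k, E.t a k < δ + 1 := by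
    intro a k
    have h2 := E.deg a
    rw [Finsupp.degree_eq_sum] at h2
    have h3 : E.t a k ≤ ∑ i, E.t a i :=
      Finset.single_le_sum (f := fun i => E.t a i) (fun _ _ => Nat.zero_le _) (Finset.mem_univ k)
    omega
  have h2 : Function.Injective fun (a : Fin n) (k : ι) => (⟨E.t a k, h1 a k⟩ : Fin (δ + 1)) := by
    intro a b hab
    apply E.inj
    ext k
    have := congrFun hab k
    simpa using this
  have h3 := Fintype.card_le_of_injective _ h2
  simpa using h3

theorem MonEnum.pos [Nonempty ι] (E : MonEnum ι n δ) : 0 < n := by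
  obtain ⟨k⟩ := ‹Nonempty ι›
  obtain ⟨a, _⟩ := E.surj (Finsupp.single k δ) (by rw [Finsupp.degree_single])
  exact a.pos

theorem MonEnum.sum_eq {M : Type*} [AddCommMonoid M] (E : MonEnum ι n δ) (f : (ι →₀ ℕ) → M)
    (S : Finset (ι →₀ ℕ)) (hS : ∀ s ∈ S, s.degree = δ) (hf : ∀ s, s ∉ S → f s = 0) :
    ∑ a, f (E.t a) = ∑ s ∈ S, f s := by
  rw [← Finset.sum_image (s := Finset.univ) (g := E.t) (f := f) (fun a _ b _ h => E.inj h)]
  symm
  apply Finset.sum_subset
  · intro s hs
    obtain ⟨a, rfl⟩ := E.surj s (hS s hs)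
    exact Finset.mem_image_of_mem _ (Finset.mem_univ _)
  · intro s _ hs
    exact hf s hs

/-- the exponent of a fixed variable is at most `δ / 2` on average -/
theorem MonEnum.sum_le (E : MonEnum ι n δ) {k0 k1 : ι} (h : k0 ≠ k1) :
    2 * ∑ a, E.t a k0 ≤ n * δ := by
  have h1 : ∑ a, E.t a k0 = ∑ a, E.t a k1 := by
    choose g hg using fun a => E.surj (Finsupp.equivMapDomain (Equiv.swap k0 k1) (E.t a)) (by
      rw [Finsupp.degree_eq_sum]
      simp only [Finsupp.equivMapDomain_apply]
      rw [Equiv.sum_comp (Equiv.swap k0 k1).symm (fun i => E.t a i), ← Finsupp.degree_eq_sum]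
      exact E.deg a)
    have hgi : Function.Injective g := by
      intro a b hab
      apply E.inj
      have h2 := hg a
      rw [hab, hg b] at h2
      ext k
      have h3 := DFunLike.congr_fun h2 (Equiv.swap k0 k1 k)
      simp only [Finsupp.equivMapDomain_apply, Equiv.symm_apply_apply] at h3
      exact h3.symm
    have hgb : Function.Bijective g := Finite.injective_iff_bijective.1 hgi
    rw [← Equiv.sum_comp (Equiv.ofBijective g hgb) (fun a => E.t a k1)]
    refine Finset.sum_congr rfl fun a _ => ?_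
    simp only [Equiv.ofBijective_apply]
    rw [hg a, Finsupp.equivMapDomain_apply]
    simp
  have h2 : ∀ a, E.t a k0 + E.t a k1 ≤ δ := by
    intro a
    have h4 := E.deg a
    rw [Finsupp.degree_eq_sum] at h4
    have h3 : ∑ i ∈ {k0, k1}, E.t a i ≤ ∑ i, E.t a i :=
      Finset.sum_le_sum_of_subset (Finset.subset_univ _)
    rwa [Finset.sum_pair h, h4] at h3
  calc 2 * ∑ a, E.t a k0 = ∑ a, (E.t a k0 + E.t a k1) := by
        rw [Finset.sum_add_distrib, ← h1]; ring
    _ ≤ ∑ _a : Fin n, δ := Finset.sum_le_sum fun a _ => h2 a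
    _ = n * δ := by simp

end monomials

section scale

variable {ι : Type} [Fintype ι] {n δ : ℕ} {L : Type} [Field L]

theorem MonEnum.eval_eq (E : MonEnum ι n δ) {P : MvPolynomial ι L} (hP : P.IsHomogeneous δ)
    (y : ι → L) : eval y P = ∑ a, (∏ k, y k ^ E.t a k) * coeff (E.t a) P := by
  rw [MvPolynomial.eval_eq']
  rw [E.sum_eq (fun s => (∏ k, y k ^ s k) * coeff s P) P.support]
  · exact Finset.sum_congr rfl fun s _ => mul_comm _ _
  · intro s hs
    by_contra hne
    exact (mem_support_iff.1 hs) (hP.coeff_eq_zero hne)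
  · intro s hs
    rw [notMem_support_iff.1 hs, mul_zero]

/-- **Scaling.** -/
theorem MonEnum.det_scale (E : MonEnum ι n δ) (k0 : ι) (zs : ι → L) (hzs : zs k0 = 1)
    (u : Fin n → ι → L) (hu : ∀ i, u i k0 = 0) (T : L) :
    (Matrix.of fun i a => ∏ k, (zs k + T * u i k) ^ E.t a k).det =
      T ^ (∑ a, (δ - E.t a k0)) * (Matrix.of fun i a => ∏ k, (zs k + u i k) ^ E.t a k).det := by
  set θ : ι → MvPolynomial ι L := fun k => if k = k0 then X k0 else X k + C (zs k) * X k0 with hθ
  have hθh : ∀ k, (θ k).IsHomogeneous 1 := by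
    intro k
    simp only [hθ]
    split_ifs with h
    · exact isHomogeneous_X _ _
    · exact (isHomogeneous_X _ _).add (isHomogeneous_C_mul_X _ _)
  set P : Fin n → MvPolynomial ι L := fun a => ∏ k, θ k ^ E.t a k with hP
  have hPh : ∀ a, (P a).IsHomogeneous δ := by
    intro a
    have h1 : (P a).IsHomogeneous (∑ k, 1 * E.t a k) := by
      refine IsHomogeneous.prod _ _ _ fun k _ => (hθh k).pow _
    have h2 : ∑ k, 1 * E.t a k = δ := by
      have h4 := E.deg a
      rw [Finsupp.degree_eq_sum] at h4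
      exact (Finset.sum_congr rfl fun k _ => one_mul _).trans h4
    rwa [h2] at h1
  set S : Matrix (Fin n) (Fin n) L := Matrix.of fun c a => coeff (E.t c) (P a) with hS
  set w : L → Fin n → ι → L := fun T i k => if k = k0 then 1 else T * u i k with hw
  have hfac : ∀ T : L, (Matrix.of fun i a => ∏ k, (zs k + T * u i k) ^ E.t a k) =
      (Matrix.of fun i c => ∏ k, w T i k ^ E.t c k) * S := by
    intro T
    ext i a
    rw [Matrix.mul_apply]
    simp only [Matrix.of_apply, hS]
    rw [← E.eval_eq (hPh a) (w T i), hP]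
    simp only
    rw [map_prod]
    refine Finset.prod_congr rfl fun k _ => ?_
    rw [map_pow]
    congr 1
    simp only [hθ, hw]
    by_cases hk : k = k0
    · rw [if_pos hk, eval_X, if_pos rfl, hk, hzs, hu i, mul_zero, add_zero]
    · rw [if_neg hk, map_add, map_mul, eval_C, eval_X, eval_X, if_pos rfl, if_neg hk]
      ring
  have hsc : (Matrix.of fun i c => ∏ k, w T i k ^ E.t c k) =
      Matrix.of fun i c => T ^ (δ - E.t c k0) * (Matrix.of fun i c => ∏ k, w 1 i k ^ E.t c k) i c := by
    ext i c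
    simp only [Matrix.of_apply]
    have h1 : δ - E.t c k0 = ∑ k ∈ Finset.univ.erase k0, E.t c k := by
      have h2 := Finset.add_sum_erase Finset.univ (fun k => E.t c k) (Finset.mem_univ k0)
      have h3 := E.deg c
      rw [Finsupp.degree_eq_sum] at h3
      omega
    rw [← Finset.mul_prod_erase Finset.univ (fun k => w T i k ^ E.t c k) (Finset.mem_univ k0),
      ← Finset.mul_prod_erase Finset.univ (fun k => w 1 i k ^ E.t c k) (Finset.mem_univ k0), h1,
      ← Finset.prod_pow_eq_pow_sum]
    simp only [hw, if_true, one_pow, one_mul]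
    rw [← Finset.prod_mul_distrib]
    refine Finset.prod_congr rfl fun k hk => ?_
    rw [if_neg (Finset.ne_of_mem_erase hk), if_neg (Finset.ne_of_mem_erase hk), mul_pow]
  have h1 : (Matrix.of fun i a => ∏ k, (zs k + u i k) ^ E.t a k) =
      (Matrix.of fun i c => ∏ k, w 1 i k ^ E.t c k) * S := by
    rw [← hfac 1]
    simp only [one_mul]
  rw [hfac T, h1, Matrix.det_mul, Matrix.det_mul, hsc, Matrix.det_mul_row,
    Finset.prod_pow_eq_pow_sum]
  ring

end scale

section choice

variable {ι : Type} [Fintype ι] {n δ : ℕ}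

/-- a set of points lies on a hypersurface of degree `δ`, or has a nonvanishing determinant -/
theorem MonEnum.form_or_det (E : MonEnum ι n δ) {L : Type} [Field L] (Z : Set (ι → L)) :
    (∃ G : MvPolynomial ι L, G ≠ 0 ∧ G.IsHomogeneous δ ∧ ∀ z ∈ Z, eval z G = 0) ∨
    ∃ z : Fin n → ι → L, (∀ i, z i ∈ Z) ∧
      (Matrix.of fun i a => ∏ k, z i k ^ E.t a k).det ≠ 0 := by
  set s : Set (Fin n → L) := (fun z a => ∏ k, z k ^ E.t a k) '' Z with hs
  rcases eq_or_ne (Submodule.span L s) ⊤ with htop | htop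
  · right
    obtain ⟨f, hf, hdet⟩ := exists_det_ne_zero s htop
    choose z hz hzf using hf
    refine ⟨z, hz, ?_⟩
    have h1 : (Matrix.of fun i a => ∏ k, z i k ^ E.t a k) =
        (Matrix.of fun i a => f a i).transpose := by
      ext i a
      simp only [Matrix.of_apply, Matrix.transpose_apply]
      rw [← hzf i]
    rw [h1, Matrix.det_transpose]
    exact hdet
  · left
    obtain ⟨f, hf0, hf⟩ := Submodule.exists_le_ker_of_lt_top _ (lt_top_iff_ne_top.2 htop)
    refine ⟨∑ a, monomial (E.t a) (f (Pi.single a 1)), ?_, ?_, ?_⟩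
    · intro h0
      apply hf0
      have h1 : ∀ a, f (Pi.single a 1) = 0 := by
        intro a
        have h2 := congrArg (coeff (E.t a)) h0
        rw [coeff_sum, coeff_zero] at h2
        rw [Finset.sum_eq_single a] at h2
        · rwa [coeff_monomial, if_pos rfl] at h2
        · intro c _ hca
          rw [coeff_monomial, if_neg]
          exact fun h3 => hca (E.inj h3)
        · intro h3; exact absurd (Finset.mem_univ a) h3
      apply LinearMap.pi_ext'
      intro a
      ext
      simp [h1 a]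
    · exact IsHomogeneous.sum _ _ _ fun a _ => isHomogeneous_monomial _ (E.deg a)
    · intro z hz
      have h1 : f (fun a => ∏ k, z k ^ E.t a k) = 0 :=
        hf (Submodule.subset_span ⟨z, hz, rfl⟩)
      rw [pi_eq_sum_univ' (fun a => ∏ k, z k ^ E.t a k), map_sum] at h1
      rw [map_sum, ← h1]
      refine Finset.sum_congr rfl fun a _ => ?_
      rw [eval_monomial, Finsupp.prod_fintype _ _ (fun _ => pow_zero _), map_smul, smul_eq_mul,
        mul_comm]

/-- adapted forms with invertible coefficient matrix -/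
theorem MonEnum.exists_adapted {K : Type} [Field K] {b d J : ℕ} (F : ι → MvPolynomial ι K)
    (hF : ∀ i, (F i).IsHomogeneous d)
    (E : MonEnum ι n (dl b d J))
    (h : ∀ (G : MvPolynomial ι K), G.IsHomogeneous (dl b d J) →
      G ∈ Submodule.span K {Q : MvPolynomial ι K | ∃ μ : ℕ → ι →₀ ℕ,
        (∀ j, (μ j).degree = b) ∧ Q = gQ F J μ}) :
    ∃ μ : Fin n → ℕ → ι →₀ ℕ, (∀ a j, (μ a j).degree = b) ∧ ∃ c : K, c ≠ 0 ∧
      ∀ (L : Type) [Field L] [Algebra K L] (z : Fin n → ι → L),
      (Matrix.of fun i a => aeval (z i) (gQ F J (μ a))).det =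
        (Matrix.of fun i a => ∏ k, z i k ^ E.t a k).det * algebraMap K L c := by
  set cf : MvPolynomial ι K →ₗ[K] (Fin n → K) :=
    LinearMap.pi fun a => lcoeff K (E.t a) with hcf
  have hcfa : ∀ P a, cf P a = coeff (E.t a) P := fun P a => rfl
  set s : Set (Fin n → K) := cf '' {Q : MvPolynomial ι K | ∃ μ : ℕ → ι →₀ ℕ,
        (∀ j, (μ j).degree = b) ∧ Q = gQ F J μ} with hs
  have htop : Submodule.span K s = ⊤ := by
    rw [eq_top_iff]
    intro y _
    rw [pi_eq_sum_univ' y]
    refine Submodule.sum_mem _ fun a _ => Submodule.smul_mem _ _ ?_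
    have h1 := h (monomial (E.t a) 1) (isHomogeneous_monomial _ (E.deg a))
    have h2 := Submodule.mem_map_of_mem (f := cf) h1
    rw [Submodule.map_span] at h2
    have h3 : cf (monomial (E.t a) 1) = Pi.single a 1 := by
      funext c
      rw [hcfa, coeff_monomial]
      by_cases hca : c = a
      · rw [hca, if_pos rfl, Pi.single_eq_same]
      · rw [if_neg (fun h4 => hca (E.inj h4).symm), Pi.single_eq_of_ne hca]
    rwa [h3] at h2
  obtain ⟨f, hf, hdet⟩ := exists_det_ne_zero s htop
  choose Q hQ hQf using hf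
  choose μ hμ hμQ using hQ
  refine ⟨μ, hμ, _, hdet, ?_⟩
  intro L _ _ z
  rw [RingHom.map_det, ← Matrix.det_mul]
  congr 1
  ext i a
  rw [Matrix.mul_apply]
  simp only [Matrix.of_apply, RingHom.mapMatrix_apply, Matrix.map_apply]
  have h1 : aeval (z i) (gQ F J (μ a)) = eval (z i) (map (algebraMap K L) (gQ F J (μ a))) := by
    rw [eval_map]; rfl
  rw [h1, E.eval_eq ((gQ_hom F hF J (μ a) (hμ a)).map _)]
  refine Finset.sum_congr rfl fun c _ => ?_
  rw [coeff_map, ← hQf a, hcfa, hμQ a]

end choice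

end Pool.DynLehmer
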