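import Mathlib
import Pool.Agent.Lib.MP_2194ec_nt.GenClose
import Pool.Agent.Lib.MP_2194ec_nt.SmallA
import Pool.Agent.Lib.MP_2194ec_nt.SmallB

set_option autoImplicit false

/-!
# The interpolation determinant on a small cell at an archimedean place
-/

namespace Pool.DynLehmer
open MvPolynomial NumberField Height
open scoped Classical

section cluster

variable {K : Type} [Field K] [NumberField K] {ι : Type} [Fintype ι]

/-- logarithms of factorials -/
theorem log_factorial_le (n : ℕ) : Real.log (n.factorial : ℝ) ≤ n * Real.log n := by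
  rcases Nat.eq_zero_or_pos n with rfl | hn
  · simp
  · have h1 : ((n.factorial : ℕ) : ℝ) ≤ (n : ℝ) ^ n := by
      exact_mod_cast Nat.factorial_le_pow n
    have h2 := Real.log_le_log (by exact_mod_cast Nat.factorial_pos n) h1
    rwa [Real.log_pow] at h2

theorem inf_natCast {L : Type} [Field L] (w : InfinitePlace L) (n : ℕ) : w (n : L) = n := by
  rw [← w.norm_embedding_eq, map_natCast, Complex.norm_natCast]

theorem cluster {d : ℕ} (F : ι → MvPolynomial ι K)
    (hF : ∀ i, (F i).IsHomogeneous d)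
    (hz : ∀ z : ι → AlgebraicClosure K, (∀ i, aeval z (F i) = 0) → z = 0)
    {b : ℕ} (hspan : ∀ (J : ℕ) (G : MvPolynomial ι K), G.IsHomogeneous (dl b d J) →
      G ∈ Submodule.span K {Q : MvPolynomial ι K | ∃ μ : ℕ → ι →₀ ℕ,
        (∀ j, (μ j).degree = b) ∧ Q = gQ F J μ})
    {Cg : ℝ}
    (hgr : ∀ (L : Type) [Field L] [NumberField L] [Algebra K L] (w : InfinitePlace L)
      (y : ι → L), y ≠ 0 → ∀ m : ℕ,
        |Real.log (nv w ((gAct F L)^[m] y)) - (d : ℝ) ^ m * Real.log (nv w y)| ≤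
          Cg * (d : ℝ) ^ m)
    {A Ch : ℝ} (hA : 0 ≤ A) (T : ℕ) (hT : 1 ≤ T)
    (hTlog : 1 + 2 * Cg + Real.log 2 + (Module.finrank ℚ K) * A ≤ Real.log T / 2)
    (L : Type) [Field L] [NumberField L] [Algebra K L] (w0 : InfinitePlace L) {k0 k1 : ι}
    (hk : k0 ≠ k1) (Z : Set (ι → L)) (hZ0 : ∀ z ∈ Z, z k0 = 1) (hZ1 : ∀ z ∈ Z, ∀ k, w0 (z k) ≤ 1)
    (hZ2 : ∀ z ∈ Z, ∀ z' ∈ Z, ∀ k, (T : ℝ) * w0 (z k - z' k) ≤ 1)
    (hZh : ∀ z ∈ Z, ∀ j : ℕ, logHeight ((gAct F L)^[j] z) ≤
      (Module.finrank ℚ L) * ((d : ℝ) ^ j * (A / Module.finrank K L) + Ch))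
    (J : ℕ) (hJ : (Module.finrank ℚ K : ℝ) * Module.finrank K L *
      (b * Ch * (J + 1) + Fintype.card ι * Real.log (dl b d J + 1)) < dl b d J) :
    ∃ G : MvPolynomial ι L, G ≠ 0 ∧ G.IsHomogeneous (dl b d J) ∧ ∀ z ∈ Z, eval z G = 0 := by
  set δ := dl b d J with hδ
  obtain ⟨n, ⟨E⟩⟩ := exists_monEnum ι δ
  rcases E.form_or_det Z with h | ⟨z, hzZ, hdet⟩
  · exact h
  exfalso
  have : Nonempty ι := ⟨k0⟩
  have hn : 0 < n := E.pos
  obtain ⟨μ, hμ, c, hc, hμc⟩ := E.exists_adapted F hF (hspan J)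
  have hcL : algebraMap K L c ≠ 0 := by simpa using hc
  set zs := z ⟨0, hn⟩ with hzs
  set u : Fin n → ι → L := fun i k => z i k - zs k with hu
  set z' : Fin n → ι → L := fun i k => zs k + T * u i k with hz'
  have hu0 : ∀ i, u i k0 = 0 := by
    intro i
    simp only [hu]
    rw [hZ0 _ (hzZ i), hzs, hZ0 _ (hzZ _), sub_self]
  set g := ∑ a, (δ - E.t a k0) with hg
  have hscale := E.det_scale k0 zs (hZ0 _ (hzZ _)) u hu0 (T : L)
  rw [← hg] at hscale
  have hzu : (Matrix.of fun i a => ∏ k, (zs k + u i k) ^ E.t a k) =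
      Matrix.of fun i a => ∏ k, z i k ^ E.t a k := by
    ext i a
    simp only [Matrix.of_apply, hu]
    refine Finset.prod_congr rfl fun k _ => ?_
    congr 1
    ring
  rw [hzu] at hscale
  set D1 := (Matrix.of fun i a => aeval (z i) (gQ F J (μ a))).det with hD1
  set D2 := (Matrix.of fun i a => aeval (z' i) (gQ F J (μ a))).det with hD2
  have hD1c := hμc L z
  have hD2c := hμc L z'
  rw [← hD1] at hD1c
  rw [← hD2, hscale] at hD2c
  have hD12 : D2 = (T : L) ^ g * D1 := by rw [hD2c, hD1c]; ring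
  have hD10 : D1 ≠ 0 := by
    rw [hD1c]; exact mul_ne_zero hdet hcL
  have hTne : (T : L) ≠ 0 := by
    have : T ≠ 0 := by omega
    exact_mod_cast this
  have hD20 : D2 ≠ 0 := by
    rw [hD12]; exact mul_ne_zero (pow_ne_zero _ hTne) hD10
  have hzne : ∀ i, z i ≠ 0 := by
    intro i h0
    have h1 := hZ0 _ (hzZ i)
    rw [h0] at h1
    exact zero_ne_one h1
  have hz'k0 : ∀ i, z' i k0 = 1 := by
    intro i
    simp only [hz', hu0, mul_zero, add_zero]
    exact hZ0 _ (hzZ _)
  have hz'ne : ∀ i, z' i ≠ 0 := by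
    intro i h0
    have h1 := hz'k0 i
    rw [h0] at h1
    exact zero_ne_one h1
  have hne : ∀ (j : ℕ) i, (gAct F L)^[j] (z i) ≠ 0 := fun j i =>
    gAct_iter_ne F hF hz j (z i) (hzne i)
  have hne' : ∀ (j : ℕ) i, (gAct F L)^[j] (z' i) ≠ 0 := fun j i =>
    gAct_iter_ne F hF hz j (z' i) (hz'ne i)
  have hT1 : (1 : ℝ) ≤ T := by exact_mod_cast hT
  have hlogT : 0 ≤ Real.log T := Real.log_nonneg hT1
  -- sizes at `w0`
  have hnv1 : ∀ i, 0 ≤ Real.log (nv w0 (z i)) := by
    intro i
    apply Real.log_nonneg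
    have h1 := nv_le w0 (z i) k0
    rw [hZ0 _ (hzZ i), map_one] at h1
    exact h1
  have hnv2 : ∀ i, Real.log (nv w0 (z' i)) ≤ Real.log 2 := by
    intro i
    apply Real.log_le_log (nv_pos w0 (hz'ne i))
    apply ciSup_le
    intro k
    simp only [hz']
    refine (w0.1.add_le _ _).trans ?_
    have h1 : w0 (zs k) ≤ 1 := hZ1 _ (hzZ _) k
    have h2 : w0 ((T : L) * u i k) ≤ 1 := by
      rw [map_mul, inf_natCast w0]
      exact hZ2 _ (hzZ i) _ (hzZ _) k
    have h3 : w0 (zs k) + w0 ((T : L) * u i k) ≤ 2 := by linarith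
    exact h3
  have hδsum : ∑ j ∈ Finset.range (J + 1), (b : ℝ) * (d : ℝ) ^ j = δ := by
    rw [hδ, dl_eq]
    push_cast
    exact Finset.sum_congr rfl fun j _ => mul_comm _ _
  have hlow : ∀ i, -(Cg * δ) ≤ ∑ j ∈ Finset.range (J + 1),
      (b : ℝ) * Real.log (nv w0 ((gAct F L)^[j] (z i))) := by
    intro i
    rw [← hδsum, Finset.mul_sum, ← Finset.sum_neg_distrib]
    refine Finset.sum_le_sum fun j _ => ?_
    have h1 := (abs_le.1 (hgr L w0 (z i) (hzne i) j)).1
    have h2 : 0 ≤ (d : ℝ) ^ j * Real.log (nv w0 (z i)) := mul_nonneg (by positivity) (hnv1 i)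
    have h3 : -(Cg * (d : ℝ) ^ j) ≤ Real.log (nv w0 ((gAct F L)^[j] (z i))) := by linarith
    calc -(Cg * ((b : ℝ) * (d : ℝ) ^ j)) = b * (-(Cg * (d : ℝ) ^ j)) := by ring
      _ ≤ _ := mul_le_mul_of_nonneg_left h3 (Nat.cast_nonneg _)
  have hup : ∀ i, ∑ j ∈ Finset.range (J + 1),
      (b : ℝ) * Real.log (nv w0 ((gAct F L)^[j] (z' i))) ≤ (Cg + Real.log 2) * δ := by
    intro i
    rw [← hδsum, Finset.mul_sum]
    refine Finset.sum_le_sum fun j _ => ?_
    have h1 := (abs_le.1 (hgr L w0 (z' i) (hz'ne i) j)).2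
    have h2 : (d : ℝ) ^ j * Real.log (nv w0 (z' i)) ≤ (d : ℝ) ^ j * Real.log 2 :=
      mul_le_mul_of_nonneg_left (hnv2 i) (by positivity)
    have h3 : Real.log (nv w0 ((gAct F L)^[j] (z' i))) ≤ (Cg + Real.log 2) * (d : ℝ) ^ j := by
      linarith
    calc (b : ℝ) * Real.log (nv w0 ((gAct F L)^[j] (z' i))) ≤
        b * ((Cg + Real.log 2) * (d : ℝ) ^ j) := mul_le_mul_of_nonneg_left h3 (Nat.cast_nonneg _)
      _ = _ := by ring
  -- bound for `D2`
  have hD2w : w0 D2 ≤ (n.factorial : ℝ) *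
      ∏ i, ∏ j ∈ Finset.range (J + 1), (nv w0 ((gAct F L)^[j] (z' i))) ^ b :=
    det_le_abv w0.1 _ _ fun i a => gQ_entry_le F w0 J (μ a) (hμ a) (z' i)
  have hfac : (0 : ℝ) < n.factorial := by exact_mod_cast Nat.factorial_pos n
  have hlogD2 : Real.log (w0 D2) ≤ Real.log n.factorial + n * ((Cg + Real.log 2) * δ) := by
    have hpos : ∀ i, ∀ j ∈ Finset.range (J + 1), 0 < (nv w0 ((gAct F L)^[j] (z' i))) ^ b :=
      fun i j _ => pow_pos (nv_pos w0 (hne' j i)) _
    have h1 := Real.log_le_log (w0.pos_iff.2 hD20) hD2w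
    rw [Real.log_mul hfac.ne' (Finset.prod_ne_zero_iff.2 fun i _ =>
      (Finset.prod_pos (hpos i)).ne'), Real.log_prod (fun i _ => (Finset.prod_pos (hpos i)).ne')]
      at h1
    have h2 : ∑ i, Real.log (∏ j ∈ Finset.range (J + 1), (nv w0 ((gAct F L)^[j] (z' i))) ^ b) ≤
        ∑ _i : Fin n, (Cg + Real.log 2) * δ := by
      refine Finset.sum_le_sum fun i _ => ?_
      rw [Real.log_prod (fun j hj => (hpos i j hj).ne')]
      simp_rw [Real.log_pow]
      exact hup i
    rw [Finset.sum_const, Finset.card_univ, Fintype.card_fin, nsmul_eq_mul] at h2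
    linarith
  have hlogD1 : Real.log (w0 D1) = Real.log (w0 D2) - g * Real.log T := by
    rw [hD12, map_mul, map_pow, inf_natCast w0, Real.log_mul (by positivity)
      (w0.pos_iff.2 hD10).ne', Real.log_pow]
    ring
  -- the local factors
  set X : ℝ := - (g * Real.log T) + n * ((2 * Cg + Real.log 2) * δ) with hX
  set Aw : InfinitePlace L → ℝ := fun w =>
    (n.factorial : ℝ) * Real.exp (if w = w0 then X else 0) with hAw
  have hAwpos : ∀ w, 0 < Aw w := fun w => mul_pos hfac (Real.exp_pos _)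
  have hposI : ∀ (w : InfinitePlace L) i j, 0 < (⨆ l, w ((gAct F L)^[j] (z i) l)) ^ b :=
    fun w i j => pow_pos (iSup_pos_of_ne w (hne j i)) _
  have hL := liouville' (κ := Fin n × Fin (J + 1)) hD10 (fun k => (gAct F L)^[k.2] (z k.1))
    (fun k => hne k.2 k.1) (fun _ => b) Aw hAwpos
    (fun w => by
      rw [Fintype.prod_prod_type]
      have e1 : ∀ i, ∏ j : Fin (J + 1), (⨆ l, w ((gAct F L)^[(j : ℕ)] (z i) l)) ^ b =
          ∏ j ∈ Finset.range (J + 1), (⨆ l, w ((gAct F L)^[j] (z i) l)) ^ b := fun i =>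
        Fin.prod_univ_eq_prod_range (fun j => (⨆ l, w ((gAct F L)^[j] (z i) l)) ^ b) (J + 1)
      simp only [e1]
      by_cases hw : w = w0
      · subst hw
        simp only [hAw, if_true]
        have hR : 0 < ∏ i, ∏ j ∈ Finset.range (J + 1),
            (⨆ l, w ((gAct F L)^[j] (z i) l)) ^ b :=
          Finset.prod_pos fun i _ => Finset.prod_pos fun j _ => hposI w i j
        rw [← Real.log_le_log_iff (w.pos_iff.2 hD10) (mul_pos (mul_pos hfac (Real.exp_pos _)) hR),
          Real.log_mul (mul_pos hfac (Real.exp_pos _)).ne' hR.ne', Real.log_mul hfac.ne'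
            (Real.exp_pos _).ne', Real.log_exp,
          Real.log_prod (fun i _ => (Finset.prod_pos fun j _ => hposI w i j).ne')]
        have h2 : ∑ _i : Fin n, -(Cg * δ) ≤ ∑ i, Real.log (∏ j ∈ Finset.range (J + 1),
            (⨆ l, w ((gAct F L)^[j] (z i) l)) ^ b) := by
          refine Finset.sum_le_sum fun i _ => ?_
          rw [Real.log_prod (fun j hj => (hposI w i j).ne')]
          simp_rw [Real.log_pow]
          exact hlow i
        rw [Finset.sum_const, Finset.card_univ, Fintype.card_fin, nsmul_eq_mul] at h2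
        rw [hlogD1, hX]
        linarith [h2, hlogD2]
      · simp only [hAw, if_neg hw, Real.exp_zero, mul_one]
        exact det_le_abv w.1 _ _ fun i a => gQ_entry_le F w J (μ a) (hμ a) (z i))
    (fun w => by
      rw [Fintype.prod_prod_type]
      refine det_le_finite w _ _ (fun i => ?_) fun i a => ?_
      · refine Finset.prod_nonneg fun j _ => pow_nonneg ?_ _
        exact Real.iSup_nonneg fun l => apply_nonneg w _
      · rw [Fin.prod_univ_eq_prod_range (fun j => (⨆ l, w ((gAct F L)^[j] (z i) l)) ^ b)]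
        exact gQ_entry_le F w J (μ a) (hμ a) (z i))
  -- evaluation of the two sums
  have htower : (Module.finrank ℚ K : ℝ) * Module.finrank K L = Module.finrank ℚ L := by
    exact_mod_cast Module.finrank_mul_finrank ℚ K L
  have hKpos : (0 : ℝ) < Module.finrank ℚ K := by exact_mod_cast Module.finrank_pos
  have hLpos : (0 : ℝ) < Module.finrank ℚ L := by exact_mod_cast Module.finrank_pos
  have hDpos : (0 : ℝ) < Module.finrank K L := by
    by_contra hcon
    push Not at hcon
    have h0 := mul_nonpos_of_nonneg_of_nonpos hKpos.le hcon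
    linarith
  have hS1 : ∑ k : Fin n × Fin (J + 1), (b : ℝ) * logHeight ((gAct F L)^[k.2] (z k.1)) ≤
      n * ((Module.finrank ℚ K) * A * δ +
        (Module.finrank ℚ K) * (Module.finrank K L) * (b * Ch * (J + 1))) := by
    rw [Fintype.sum_prod_type]
    have h1 : ∀ i, ∑ j : Fin (J + 1), (b : ℝ) * logHeight ((gAct F L)^[(j : ℕ)] (z i)) ≤
        (Module.finrank ℚ K) * A * δ +
        (Module.finrank ℚ K) * (Module.finrank K L) * (b * Ch * (J + 1)) := by
      intro i
      rw [Fin.sum_univ_eq_sum_range (fun j => (b : ℝ) * logHeight ((gAct F L)^[j] (z i))) (J + 1)]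
      calc ∑ j ∈ Finset.range (J + 1), (b : ℝ) * logHeight ((gAct F L)^[j] (z i)) ≤
          ∑ j ∈ Finset.range (J + 1), (b : ℝ) * ((Module.finrank ℚ L) *
            ((d : ℝ) ^ j * (A / Module.finrank K L) + Ch)) :=
            Finset.sum_le_sum fun j _ => mul_le_mul_of_nonneg_left (hZh _ (hzZ i) j)
              (Nat.cast_nonneg _)
        _ = (Module.finrank ℚ L) * (A / Module.finrank K L) *
            (∑ j ∈ Finset.range (J + 1), (b : ℝ) * (d : ℝ) ^ j) +
            (Module.finrank ℚ L) * (b * Ch * (J + 1)) := by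
            have e1 : ∀ j ∈ Finset.range (J + 1), (b : ℝ) * ((Module.finrank ℚ L) *
              ((d : ℝ) ^ j * (A / Module.finrank K L) + Ch)) =
              (Module.finrank ℚ L) * (A / Module.finrank K L) * ((b : ℝ) * (d : ℝ) ^ j) +
              (Module.finrank ℚ L) * (b * Ch) := fun j _ => by ring
            rw [Finset.sum_congr rfl e1, Finset.sum_add_distrib, ← Finset.mul_sum]
            simp
            ring
        _ = _ := by
            rw [hδsum, ← htower]
            have e2 : (Module.finrank ℚ K : ℝ) * Module.finrank K L *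
                (A / Module.finrank K L) = Module.finrank ℚ K * A := by
              field_simp
            rw [e2]
    calc _ ≤ ∑ _i : Fin n, ((Module.finrank ℚ K : ℝ) * A * δ +
        (Module.finrank ℚ K) * (Module.finrank K L) * (b * Ch * (J + 1))) :=
          Finset.sum_le_sum fun i _ => h1 i
      _ = _ := by rw [Finset.sum_const, Finset.card_univ, Fintype.card_fin, nsmul_eq_mul]
  have hS2 : ∑ w : InfinitePlace L, (w.mult : ℝ) * Real.log (Aw w) =
      (Module.finrank ℚ L) * Real.log n.factorial + w0.mult * X := by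
    have e1 : ∀ w : InfinitePlace L, (w.mult : ℝ) * Real.log (Aw w) =
        (w.mult : ℝ) * Real.log n.factorial + if w = w0 then (w.mult : ℝ) * X else 0 := by
      intro w
      simp only [hAw]
      rw [Real.log_mul hfac.ne' (Real.exp_pos _).ne', Real.log_exp]
      split_ifs <;> ring
    simp_rw [e1]
    rw [Finset.sum_add_distrib, ← Finset.sum_mul, Finset.sum_ite_eq' Finset.univ w0,
      if_pos (Finset.mem_univ _)]
    congr 2
    rw [← InfinitePlace.sum_mult_eq (K := L)]
    push_cast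
    rfl
  have hg2 : (n : ℝ) * δ ≤ 2 * g := by
    have h1 := E.sum_le hk
    have h2 : ∀ a, E.t a k0 ≤ δ := by
      intro a
      have h3 := E.deg a
      rw [Finsupp.degree_eq_sum] at h3
      have h4 : E.t a k0 ≤ ∑ i, E.t a i :=
        Finset.single_le_sum (f := fun i => E.t a i) (fun _ _ => Nat.zero_le _) (Finset.mem_univ k0)
      omega
    have h3 : g + ∑ a, E.t a k0 = n * δ := by
      rw [hg, ← Finset.sum_add_distrib, Finset.sum_congr rfl (fun a _ => Nat.sub_add_cancel (h2 a))]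
      simp
    have h4 : n * δ ≤ 2 * g := by omega
    exact_mod_cast h4
  have hX2 : X ≤ -(n * δ * (1 + (Module.finrank ℚ K) * A)) := by
    have h1 : (n : ℝ) * δ * (Real.log T / 2) ≤ g * Real.log T := by
      have h0 := mul_le_mul_of_nonneg_right hg2 hlogT
      linarith
    have h2 : (n : ℝ) * δ * (1 + 2 * Cg + Real.log 2 + (Module.finrank ℚ K) * A) ≤
        n * δ * (Real.log T / 2) := mul_le_mul_of_nonneg_left hTlog (by positivity)
    rw [hX]
    linarith
  have hX0 : X ≤ 0 := hX2.trans (by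
    have : 0 ≤ (n : ℝ) * δ * (1 + (Module.finrank ℚ K) * A) := by positivity
    linarith)
  have hmult : (w0.mult : ℝ) * X ≤ X := by
    have h1 : (1 : ℝ) ≤ w0.mult := by exact_mod_cast w0.one_le_mult
    have h2 := mul_le_mul_of_nonpos_right h1 hX0
    linarith
  have hlogn : Real.log n.factorial ≤ n * (Fintype.card ι * Real.log (δ + 1)) := by
    refine (log_factorial_le n).trans ?_
    have h1 : (n : ℝ) ≤ ((δ : ℝ) + 1) ^ (Fintype.card ι) := by exact_mod_cast E.card_le
    have h2 := Real.log_le_log (by exact_mod_cast hn) h1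
    rw [Real.log_pow] at h2
    exact mul_le_mul_of_nonneg_left h2 (Nat.cast_nonneg _)
  rw [hS2] at hL
  have hn' : (0 : ℝ) < n := by exact_mod_cast hn
  have h1 : (Module.finrank ℚ L : ℝ) * Real.log n.factorial ≤
      (Module.finrank ℚ K * Module.finrank K L) * (n * (Fintype.card ι * Real.log (δ + 1))) := by
    rw [← htower]
    exact mul_le_mul_of_nonneg_left hlogn (by positivity)
  have h2 : (n : ℝ) * ((Module.finrank ℚ K : ℝ) * Module.finrank K L *
      (b * Ch * (J + 1) + Fintype.card ι * Real.log (δ + 1))) < n * δ :=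
    mul_lt_mul_of_pos_left hJ hn'
  linarith

end cluster

end Pool.DynLehmer
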