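import Mathlib
import Pool.Agent.Lib.MP_2194ec_nt.GenCommute
import Pool.Agent.Lib.MP_2194ec_nt.SmallC

set_option autoImplicit false

/-!
# Small points lie on a hypersurface
-/

namespace Pool.DynLehmer
open MvPolynomial NumberField Height Filter Topology
open scoped Classical

/-- from the limit to a bound for the heights along the orbit -/
theorem le_of_limit {a : ℕ → ℝ} {C d h : ℝ} (hd : 2 ≤ d) (hC : 0 ≤ C)
    (ha : ∀ n, |a (n + 1) - d * a n| ≤ C) (hlim : Tendsto (fun n => a n / d ^ n) atTop (𝓝 h))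
    (j : ℕ) : a j ≤ d ^ j * h + C := by
  have hd0 : 0 < d := by linarith
  have h1 : ∀ n : ℕ, a j ≤ a (j + n) / d ^ n + C * (1 - 1 / d ^ n) := by
    intro n
    induction n with
    | zero => simp
    | succ n ih =>
      have h2 := (abs_le.1 (ha (j + n))).1
      have h3 : a (j + n) ≤ a (j + (n + 1)) / d + C / d := by
        rw [← add_div, le_div_iff₀ hd0]
        have : j + (n + 1) = j + n + 1 := by ring
        rw [this]
        linarith
      have hdn : 0 < d ^ n := pow_pos hd0 n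
      have h4 : a (j + n) / d ^ n ≤ (a (j + (n + 1)) / d + C / d) / d ^ n := by gcongr
      have h5 : (a (j + (n + 1)) / d + C / d) / d ^ n =
          a (j + (n + 1)) / d ^ (n + 1) + C / d ^ (n + 1) := by
        rw [pow_succ]; field_simp
      have h6 : C / d ^ (n + 1) + C * (1 - 1 / d ^ n) ≤ C * (1 - 1 / d ^ (n + 1)) := by
        have h7 : 2 / d ^ (n + 1) ≤ 1 / d ^ n := by
          rw [pow_succ, div_le_div_iff₀ (by positivity) (by positivity)]
          nlinarith
        have h8 : C / d ^ (n + 1) = C * (1 / d ^ (n + 1)) := by ring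
        have h9 : 2 / d ^ (n + 1) = 2 * (1 / d ^ (n + 1)) := by ring
        rw [h8]
        rw [h9] at h7
        nlinarith
      linarith
  have h2 : Tendsto (fun n : ℕ => d ^ j * (a (j + n) / d ^ (j + n)) + C) atTop
      (𝓝 (d ^ j * h + C)) := by
    refine Tendsto.add_const _ (Tendsto.const_mul _ ?_)
    exact hlim.comp (tendsto_add_atTop_nat j |>.congr fun n => by rw [add_comm])
  refine ge_of_tendsto' h2 fun n => ?_
  refine (h1 n).trans ?_
  have hdn : 0 < d ^ n := pow_pos hd0 n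
  have h3 : a (j + n) / d ^ n = d ^ j * (a (j + n) / d ^ (j + n)) := by
    rw [pow_add]; field_simp
  have h4 : C * (1 - 1 / d ^ n) ≤ C := by
    have : 0 ≤ C * (1 / d ^ n) := by positivity
    linarith
  linarith

theorem growth_lemma {C D x : ℝ} (hC : 1 ≤ C) (hD : 1 ≤ D)
    (hx : 2 * C * (1 + Real.log (2 * C)) * (D * (1 + Real.log D)) < x) :
    C * D * (1 + Real.log x) < x := by
  have hlogC : 0 ≤ Real.log (2 * C) := Real.log_nonneg (by linarith)
  have hlogD : 0 ≤ Real.log D := Real.log_nonneg hD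
  have hx0 : 0 < x := lt_of_le_of_lt (by positivity) hx
  have h1 : Real.log x ≤ Real.log (2 * C * D) + x / (2 * C * D) - 1 := by
    have h2 := Real.log_le_sub_one_of_pos (show 0 < x / (2 * C * D) by positivity)
    rw [Real.log_div hx0.ne' (by positivity)] at h2
    linarith
  have h2 : C * D * (1 + Real.log x) ≤ C * D * (Real.log (2 * C * D) + x / (2 * C * D)) :=
    mul_le_mul_of_nonneg_left (by linarith) (by positivity)
  have h3 : C * D * (x / (2 * C * D)) = x / 2 := by field_simp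
  have h4 : Real.log (2 * C * D) = Real.log (2 * C) + Real.log D :=
    Real.log_mul (by positivity) (by positivity)
  have h5 : Real.log (2 * C) + Real.log D ≤ (1 + Real.log (2 * C)) * (1 + Real.log D) := by
    nlinarith
  have h6 : C * D * (Real.log (2 * C) + Real.log D) ≤
      C * D * ((1 + Real.log (2 * C)) * (1 + Real.log D)) :=
    mul_le_mul_of_nonneg_left h5 (by positivity)
  have h7 : C * D * (Real.log (2 * C * D) + x / (2 * C * D)) =
      C * D * (Real.log (2 * C) + Real.log D) + x / 2 := by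
    rw [mul_add, h3, h4]
  rw [h7] at h2
  nlinarith

theorem dl_ge {b d : ℕ} (hb : 1 ≤ b) (hd : 2 ≤ d) (J : ℕ) : 2 ^ J ≤ dl b d J := by
  induction J with
  | zero => simpa [dl] using hb
  | succ J ih =>
    have h1 : 2 * dl b d J ≤ d * dl b d J := Nat.mul_le_mul_right _ hd
    have h2 : dl b d (J + 1) = b + d * dl b d J := rfl
    rw [h2, pow_succ]
    omega

/-- the cells -/
noncomputable def cellIx (T : ℕ) (c : ℂ) : ℤ × ℤ := (⌊2 * (T : ℝ) * c.re⌋, ⌊2 * (T : ℝ) * c.im⌋)

theorem cellIx_close {T : ℕ} (hT : 1 ≤ T) {c c' : ℂ} (h : cellIx T c = cellIx T c') :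
    (T : ℝ) * ‖c - c'‖ ≤ 1 := by
  have h1 : ⌊2 * (T : ℝ) * c.re⌋ = ⌊2 * (T : ℝ) * c'.re⌋ := congrArg Prod.fst h
  have h2 : ⌊2 * (T : ℝ) * c.im⌋ = ⌊2 * (T : ℝ) * c'.im⌋ := congrArg Prod.snd h
  have h3 := Int.abs_sub_lt_one_of_floor_eq_floor h1
  have h4 := Int.abs_sub_lt_one_of_floor_eq_floor h2
  have hT0 : (0 : ℝ) < T := by exact_mod_cast hT
  have h5 : 2 * (T : ℝ) * |(c - c').re| < 1 := by
    rw [Complex.sub_re]
    have e : 2 * (T : ℝ) * |c.re - c'.re| = |2 * (T : ℝ) * c.re - 2 * (T : ℝ) * c'.re| := by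
      rw [← mul_sub, abs_mul, abs_of_pos (by positivity : (0 : ℝ) < 2 * T)]
    rwa [e]
  have h6 : 2 * (T : ℝ) * |(c - c').im| < 1 := by
    rw [Complex.sub_im]
    have e : 2 * (T : ℝ) * |c.im - c'.im| = |2 * (T : ℝ) * c.im - 2 * (T : ℝ) * c'.im| := by
      rw [← mul_sub, abs_mul, abs_of_pos (by positivity : (0 : ℝ) < 2 * T)]
    rwa [e]
  have h7 := Complex.norm_le_abs_re_add_abs_im (c - c')
  nlinarith

theorem cellIx_mem {T : ℕ} {c : ℂ} (h : ‖c‖ ≤ 1) :
    cellIx T c ∈ Finset.Icc (-(2 * (T : ℤ))) (2 * T) ×ˢ Finset.Icc (-(2 * (T : ℤ))) (2 * T) := by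
  have hT0 : (0 : ℝ) ≤ 2 * T := by positivity
  have key : ∀ r : ℝ, |r| ≤ 1 → ⌊2 * (T : ℝ) * r⌋ ∈ Finset.Icc (-(2 * (T : ℤ))) (2 * T) := by
    intro r hr
    obtain ⟨h1, h2⟩ := abs_le.1 hr
    rw [Finset.mem_Icc]
    constructor
    · rw [Int.le_floor]
      push_cast
      nlinarith
    · have h3 : ⌊2 * (T : ℝ) * r⌋ ≤ ⌊((2 * (T : ℤ) : ℤ) : ℝ)⌋ := by
        apply Int.floor_le_floor
        push_cast
        nlinarith
      rwa [Int.floor_intCast] at h3
  rw [Finset.mem_product]
  exact ⟨key _ ((Complex.abs_re_le_norm c).trans h), key _ ((Complex.abs_im_le_norm c).trans h)⟩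

section main

variable {K : Type} [Field K] [NumberField K] {ι : Type} [Fintype ι]

/-- **Small points lie on a hypersurface of small degree.** -/
theorem small_points [Nontrivial ι] {d : ℕ} (hd : 2 ≤ d) (F : ι → MvPolynomial ι K)
    (hF : ∀ i, (F i).IsHomogeneous d)
    (hz : ∀ z : ι → AlgebraicClosure K, (∀ i, aeval z (F i) = 0) → z = 0) (A : ℝ) (hA : 0 ≤ A) :
    ∃ C : ℝ, 0 < C ∧ ∀ (L : Type) [Field L] [NumberField L] [Algebra K L],
      ∃ (m : ℕ) (G : MvPolynomial ι L), G ≠ 0 ∧ G.IsHomogeneous m ∧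
        (m : ℝ) ≤ C * (Module.finrank K L * (1 + Real.log (Module.finrank K L))) ∧
        ∀ x : ι → L, x ≠ 0 → ∀ h : ℝ,
          Tendsto (fun n : ℕ => logHeight ((gAct F L)^[n] x) /
            (Module.finrank ℚ L : ℝ) / (d : ℝ) ^ n) atTop (𝓝 h) →
          h ≤ A / Module.finrank K L → eval x G = 0 := by
  obtain ⟨b, hb, hspan⟩ := span_adapted F d hF hz
  obtain ⟨Cg, hCg, hgr⟩ := growth_iter F hd hF hz
  obtain ⟨Ch, hCh, hht⟩ := height_morphism F d hF hz
  have hd2 : (2 : ℝ) ≤ d := by exact_mod_cast hd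
  have hKpos : (0 : ℝ) < Module.finrank ℚ K := by exact_mod_cast Module.finrank_pos
  have hK1 : (1 : ℝ) ≤ Module.finrank ℚ K := by
    have : 0 < Module.finrank ℚ K := Module.finrank_pos
    exact_mod_cast this
  -- the choice of `T`
  obtain ⟨T, hT1, hTlog⟩ : ∃ T : ℕ, 1 ≤ T ∧
      1 + 2 * Cg + Real.log 2 + (Module.finrank ℚ K) * A ≤ Real.log T / 2 := by
    have h1 : Tendsto (fun n : ℕ => Real.log n / 2) atTop atTop :=
      (Real.tendsto_log_atTop.comp tendsto_natCast_atTop_atTop).atTop_div_const (by norm_num)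
    obtain ⟨T, hT⟩ := ((h1.eventually_ge_atTop
      (1 + 2 * Cg + Real.log 2 + (Module.finrank ℚ K) * A)).and (eventually_ge_atTop 1)).exists
    exact ⟨T, hT.2, hT.1⟩
  set P : Finset (ι × (ι → ℤ × ℤ)) := Finset.univ ×ˢ Fintype.piFinset fun _ =>
    Finset.Icc (-(2 * (T : ℤ))) (2 * T) ×ˢ Finset.Icc (-(2 * (T : ℤ))) (2 * T) with hP
  set C1 : ℝ := Module.finrank ℚ K * (2 * b * Ch + Fintype.card ι) with hC1
  have hcard : (1 : ℝ) ≤ Fintype.card ι := by
    have : 0 < Fintype.card ι := Fintype.card_pos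
    exact_mod_cast this
  have hC11 : 1 ≤ C1 := by
    rw [hC1]
    have h1 : 0 ≤ 2 * (b : ℝ) * Ch := by positivity
    exact one_le_mul_of_one_le_of_one_le hK1 (by linarith)
  have hlogC : 0 ≤ Real.log (2 * C1) := Real.log_nonneg (by linarith)
  set C2 : ℝ := 2 * C1 * (1 + Real.log (2 * C1)) with hC2
  have hC20 : 0 < C2 := by positivity
  refine ⟨(P.card : ℝ) * (b + d * C2) + 1, by positivity, ?_⟩
  intro L _ _ _
  have htower : (Module.finrank ℚ K : ℝ) * Module.finrank K L = Module.finrank ℚ L := by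
    exact_mod_cast Module.finrank_mul_finrank ℚ K L
  have hLpos : (0 : ℝ) < Module.finrank ℚ L := by exact_mod_cast Module.finrank_pos
  have hDpos : 0 < Module.finrank K L := by
    by_contra hcon
    have h0 : Module.finrank K L = 0 := by omega
    rw [h0, Nat.cast_zero, mul_zero] at htower
    exact hLpos.ne htower
  set D : ℝ := (Module.finrank K L : ℝ) with hD
  have hD1 : 1 ≤ D := by rw [hD]; exact_mod_cast hDpos
  have hlogD : 0 ≤ Real.log D := Real.log_nonneg hD1
  set Y : ℝ := C2 * (D * (1 + Real.log D)) with hY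
  have hY0 : 0 < Y := by positivity
  -- the choice of `J`
  have hex : ∃ J, Y < dl b d J := by
    obtain ⟨J, hJ⟩ := pow_unbounded_of_one_lt Y (by norm_num : (1 : ℝ) < 2)
    refine ⟨J, hJ.trans_le ?_⟩
    exact_mod_cast dl_ge hb hd J
  set J := Nat.find hex with hJdef
  have hJ1 : Y < dl b d J := Nat.find_spec hex
  have hJ2 : (dl b d J : ℝ) ≤ b + d * Y := by
    rcases Nat.eq_zero_or_pos J with h0 | h0
    · rw [h0]
      have : 0 ≤ (d : ℝ) * Y := by positivity
      simp only [dl]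
      linarith
    · obtain ⟨J', hJ'⟩ := Nat.exists_eq_succ_of_ne_zero h0.ne'
      have h1 : ¬ Y < dl b d J' := Nat.find_min hex (by rw [← hJdef, hJ']; exact Nat.lt_succ_self _)
      push Not at h1
      rw [hJ']
      have h2 : dl b d (J' + 1) = b + d * dl b d J' := rfl
      rw [Nat.succ_eq_add_one, h2]
      push_cast
      have : (d : ℝ) * dl b d J' ≤ d * Y := mul_le_mul_of_nonneg_left h1 (by positivity)
      linarith
  have hδ1 : (1 : ℝ) ≤ dl b d J := by
    have := dl_ge hb hd J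
    have h2 : 1 ≤ 2 ^ J := Nat.one_le_two_pow
    exact_mod_cast h2.trans this
  have hJcond : (Module.finrank ℚ K : ℝ) * Module.finrank K L *
      (b * Ch * (J + 1) + Fintype.card ι * Real.log (dl b d J + 1)) < dl b d J := by
    have h1 := growth_lemma hC11 hD1 hJ1
    refine lt_of_le_of_lt ?_ h1
    have hlogδ : 0 ≤ Real.log (dl b d J) := Real.log_nonneg hδ1
    have hlog2 : (1 : ℝ) / 2 < Real.log 2 := by linarith [Real.log_two_gt_d9]
    have h2 : (J : ℝ) ≤ 2 * Real.log (dl b d J) := by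
      have h3 : ((2 : ℝ) ^ J) ≤ dl b d J := by exact_mod_cast dl_ge hb hd J
      have h4 := Real.log_le_log (by positivity) h3
      rw [Real.log_pow] at h4
      have h5 : (J : ℝ) * (1 / 2) ≤ J * Real.log 2 :=
        mul_le_mul_of_nonneg_left hlog2.le (Nat.cast_nonneg _)
      linarith
    have h3 : Real.log (dl b d J + 1) ≤ 1 + Real.log (dl b d J) := by
      have h4 : Real.log (dl b d J + 1) ≤ Real.log (2 * dl b d J) :=
        Real.log_le_log (by positivity) (by linarith)
      rw [Real.log_mul (by norm_num) (by positivity)] at h4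
      linarith [Real.log_two_lt_d9]
    have h4 : b * Ch * (J + 1) ≤ 2 * b * Ch * (1 + Real.log (dl b d J)) := by
      have : (b : ℝ) * Ch * (J + 1) ≤ b * Ch * (2 * (1 + Real.log (dl b d J))) :=
        mul_le_mul_of_nonneg_left (by linarith) (by positivity)
      linarith
    have h5 : (Fintype.card ι : ℝ) * Real.log (dl b d J + 1) ≤
        Fintype.card ι * (1 + Real.log (dl b d J)) :=
      mul_le_mul_of_nonneg_left h3 (by positivity)
    calc (Module.finrank ℚ K : ℝ) * Module.finrank K L *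
        (b * Ch * (J + 1) + Fintype.card ι * Real.log (dl b d J + 1)) ≤
        (Module.finrank ℚ K : ℝ) * D * (2 * b * Ch * (1 + Real.log (dl b d J)) +
          Fintype.card ι * (1 + Real.log (dl b d J))) :=
          mul_le_mul_of_nonneg_left (add_le_add h4 h5) (by positivity)
      _ = C1 * D * (1 + Real.log (dl b d J)) := by rw [hC1]; ring
  -- an archimedean place
  obtain ⟨w0⟩ : Nonempty (InfinitePlace L) := inferInstance
  set Zp : ι × (ι → ℤ × ℤ) → Set (ι → L) := fun p => {y | y p.1 = 1 ∧ (∀ k, w0 (y k) ≤ 1) ∧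
    (∀ k, cellIx T (w0.embedding (y k)) = p.2 k) ∧ ∀ j : ℕ, logHeight ((gAct F L)^[j] y) ≤
      (Module.finrank ℚ L) * ((d : ℝ) ^ j * (A / Module.finrank K L) + Ch)} with hZp
  have hcl : ∀ p, ∃ G : MvPolynomial ι L, G ≠ 0 ∧ G.IsHomogeneous (dl b d J) ∧
      ∀ z ∈ Zp p, eval z G = 0 := by
    intro p
    obtain ⟨k1, hk1⟩ := exists_ne p.1
    refine cluster F hF hz hspan hgr hA T hT1 hTlog L w0 hk1.symm (Zp p)
      (fun z hz => hz.1) (fun z hz => hz.2.1) ?_ (fun z hz => hz.2.2.2) J hJcond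
    intro z hz z' hz' k
    have h1 : cellIx T (w0.embedding (z k)) = cellIx T (w0.embedding (z' k)) :=
      (hz.2.2.1 k).trans (hz'.2.2.1 k).symm
    have h2 := cellIx_close hT1 h1
    rwa [← map_sub, w0.norm_embedding_eq] at h2
  choose Gp hGp0 hGph hGpz using hcl
  refine ⟨P.card * dl b d J, ∏ p ∈ P, Gp p, Finset.prod_ne_zero_iff.2 fun p _ => hGp0 p, ?_, ?_, ?_⟩
  · have h1 := IsHomogeneous.prod P Gp (fun _ => dl b d J) fun p _ => hGph p
    rwa [Finset.sum_const, smul_eq_mul] at h1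
  · push_cast
    have h1 : 1 ≤ D * (1 + Real.log D) := 
      one_le_mul_of_one_le_of_one_le hD1 (by linarith)
    have h2 : (b : ℝ) + d * Y ≤ (b + d * C2) * (D * (1 + Real.log D)) := by
      rw [hY]
      have : (b : ℝ) * 1 ≤ b * (D * (1 + Real.log D)) :=
        mul_le_mul_of_nonneg_left h1 (Nat.cast_nonneg _)
      linarith
    calc (P.card : ℝ) * dl b d J ≤ P.card * ((b + d * C2) * (D * (1 + Real.log D))) :=
          mul_le_mul_of_nonneg_left (hJ2.trans h2) (Nat.cast_nonneg _)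
      _ ≤ ((P.card : ℝ) * (b + d * C2) + 1) * (D * (1 + Real.log D)) := by linarith
  · intro x hx h hlim hhA
    obtain ⟨k0, hk0, -, hk2⟩ := exists_norm w0 hx
    set y : ι → L := fun k => x k / x k0 with hy
    have hyx : y = (x k0)⁻¹ • x := by
      funext k
      simp only [hy, Pi.smul_apply, smul_eq_mul]
      rw [div_eq_inv_mul]
    have hxy : x = x k0 • y := by
      rw [hyx, smul_smul, mul_inv_cancel₀ hk0, one_smul]
    have hbd : ∀ j : ℕ, logHeight ((gAct F L)^[j] y) ≤
      (Module.finrank ℚ L) * ((d : ℝ) ^ j * (A / Module.finrank K L) + Ch) := by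
      intro j
      have h1 := le_of_limit (a := fun n => logHeight ((gAct F L)^[n] x) /
        (Module.finrank ℚ L : ℝ)) hd2 hCh ?_ hlim j
      · rw [hyx, gAct_iter_smul F hF, logHeight_smul_eq_logHeight _
          (pow_ne_zero _ (inv_ne_zero hk0))]
        rw [div_le_iff₀ hLpos] at h1
        refine h1.trans ?_
        rw [mul_comm]
        apply mul_le_mul_of_nonneg_left _ hLpos.le
        have : (d : ℝ) ^ j * h ≤ (d : ℝ) ^ j * (A / Module.finrank K L) :=
          mul_le_mul_of_nonneg_left hhA (by positivity)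
        linarith
      · intro n
        have h2 := hht L ((gAct F L)^[n] x)
        have h3 : logHeight ((gAct F L)^[n + 1] x) / (Module.finrank ℚ L : ℝ) -
            d * (logHeight ((gAct F L)^[n] x) / (Module.finrank ℚ L : ℝ)) =
            (logHeight ((gAct F L)^[n + 1] x) - d * logHeight ((gAct F L)^[n] x)) /
            (Module.finrank ℚ L : ℝ) := by ring
        rw [h3, abs_div, abs_of_pos hLpos, div_le_iff₀ hLpos, Function.iterate_succ_apply']
        exact h2
    set p : ι × (ι → ℤ × ℤ) := (k0, fun k => cellIx T (w0.embedding (y k))) with hp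
    have hpP : p ∈ P := by
      rw [hP, Finset.mem_product, Fintype.mem_piFinset]
      refine ⟨Finset.mem_univ _, fun k => cellIx_mem ?_⟩
      rw [w0.norm_embedding_eq]
      exact hk2 k
    have hyZ : y ∈ Zp p := ⟨by simp only [hy, hp]; exact div_self hk0, hk2, fun k => rfl, hbd⟩
    have h1 := hGpz p y hyZ
    rw [map_prod]
    refine Finset.prod_eq_zero hpP ?_
    rw [hxy, eval_smul_hom (hGph p), h1, mul_zero]

/-- existence of the canonical height -/
theorem exists_limit {d : ℕ} (hd : 2 ≤ d) (F : ι → MvPolynomial ι K)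
    (hF : ∀ i, (F i).IsHomogeneous d)
    (hz : ∀ z : ι → AlgebraicClosure K, (∀ i, aeval z (F i) = 0) → z = 0)
    (L : Type) [Field L] [NumberField L] [Algebra K L] (x : ι → L) (hx : x ≠ 0) :
    ∃ h : ℝ, Tendsto (fun n : ℕ => logHeight ((gAct F L)^[n] x) /
        (Module.finrank ℚ L : ℝ) / (d : ℝ) ^ n) atTop (𝓝 h) := by
  obtain ⟨C, hC, hH⟩ := height_morphism F d hF hz
  have hne : ∀ z : ι → L, z ≠ 0 → gAct F L z ≠ 0 := fun z hz' => gAct_ne F hF hz z hz'
  have hd2 : (2 : ℝ) ≤ (d : ℝ) := by exact_mod_cast hd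
  set H : Projectivization L (ι → L) → ℝ :=
    fun u => logHeight u.rep / (Module.finrank ℚ L : ℝ) with hHd
  have hf : ∀ u, |H (pm F L hne u) - (d : ℝ) * H u| ≤ C := pm_height F L hne (hH L)
  obtain ⟨hh, hlim', -, -, -, -⟩ := commuting_heights H (pm F L hne) (pm F L hne)
    (fun _ => rfl) hd2 hd2 hf hf
  set u := Projectivization.mk L x hx with hu
  refine ⟨hh u, (hlim' u).congr fun n => ?_⟩
  rw [hu, pm_iter_mk F hF hne n x hx]
  simp only [hHd]
  rw [logHeight_rep]

/-- **The Lehmer bound outside a hypersurface.** -/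
theorem lehmer_outside [Nontrivial ι] {d : ℕ} (hd : 2 ≤ d) (F : ι → MvPolynomial ι K)
    (hF : ∀ i, (F i).IsHomogeneous d)
    (hz : ∀ z : ι → AlgebraicClosure K, (∀ i, aeval z (F i) = 0) → z = 0) (A : ℝ) :
    ∃ C : ℝ, 0 < C ∧ ∀ (L : Type) [Field L] [NumberField L] [Algebra K L],
      ∃ (m : ℕ) (G : MvPolynomial ι L), G ≠ 0 ∧ G.IsHomogeneous m ∧
        (m : ℝ) ≤ C * (Module.finrank K L * (1 + Real.log (Module.finrank K L))) ∧
        ∀ x : ι → L, eval x G ≠ 0 → x ≠ 0 → ∃ h : ℝ,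
          Tendsto (fun n : ℕ => logHeight ((gAct F L)^[n] x) /
            (Module.finrank ℚ L : ℝ) / (d : ℝ) ^ n) atTop (𝓝 h) ∧
          A / Module.finrank K L < h := by
  obtain ⟨C, hC, H⟩ := small_points hd F hF hz (max A 0) (le_max_right _ _)
  refine ⟨C, hC, ?_⟩
  intro L _ _ _
  obtain ⟨m, G, hG, hGh, hm, hGx⟩ := H L
  refine ⟨m, G, hG, hGh, hm, ?_⟩
  intro x hx hx0
  obtain ⟨h, hlim⟩ := exists_limit hd F hF hz L x hx0
  refine ⟨h, hlim, ?_⟩
  by_contra hcon
  push Not at hcon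
  refine hx (hGx x hx0 h hlim (hcon.trans ?_))
  exact div_le_div_of_nonneg_right (le_max_left _ _) (Nat.cast_nonneg _)

end main

end Pool.DynLehmer
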